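import Mathlib

namespace Pool.Agent.Lib.helper31.IncVar

/-- Nonempty words over the countably infinite alphabet `ℕ`. -/
abbrev Word : Type := FreeSemigroup ℕ

/-- `S` satisfies the identical inclusion `u ∈ V`. -/
def Sat (S : Semigrp.{0}) (u : Word) (V : Set Word) : Prop :=
  ∀ φ : Word →ₙ* S, ∃ v ∈ V, φ u = φ v

/-- The class of all semigroups satisfying every inclusion of `Sig`. -/
def ModelsOf (Sig : Set (Word × Set Word)) : Set Semigrp.{0} :=
  {S | ∀ p ∈ Sig, Sat S p.1 p.2}

/-- `K` is defined by a set of identical inclusions `u ∈ V` with `V` nonempty. -/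
def IsInclusiveVariety (K : Set Semigrp.{0}) : Prop :=
  ∃ Sig : Set (Word × Set Word), (∀ p ∈ Sig, p.2.Nonempty) ∧ K = ModelsOf Sig

end Pool.Agent.Lib.helper31.IncVar
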