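import Mathlib
import Pool.Agent.Lib.helper31.IncVar

namespace Pool.Agent.Lib.helper31.Arcs

open Pool.Agent.Lib.helper31.IncVar

def arc (n : ℕ) (l r : ℤ) : Set ℤ := {t | ∃ k : ℤ, l ≤ t + k * (2 * n + 1) ∧ t + k * (2 * n + 1) ≤ r}

def IsArc (n : ℕ) (A : Set ℤ) : Prop := ∃ l r : ℤ, r ≤ l + n ∧ A = arc n l r

lemma small_mul (n : ℕ) (m : ℤ) (h1 : -(2 * n : ℤ) ≤ m * (2 * n + 1)) (h2 : m * (2 * n + 1) ≤ 2 * n) :
    m = 0 := by
  rcases lt_trichotomy m 0 with h | h | h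
  · nlinarith [Int.natCast_nonneg n]
  · exact h
  · nlinarith [Int.natCast_nonneg n]

lemma arc_shift (n : ℕ) (l r k : ℤ) :
    arc n (l + k * (2 * n + 1)) (r + k * (2 * n + 1)) = arc n l r := by
  ext t
  constructor
  · rintro ⟨j, h1, h2⟩
    exact ⟨j - k, by linarith, by linarith⟩
  · rintro ⟨j, h1, h2⟩
    exact ⟨j + k, by linarith, by linarith⟩

lemma arc_inter (n : ℕ) (l r l' r' p : ℤ) (h : r ≤ l + n) (h' : r' ≤ l' + n)
    (p1 : l ≤ p) (p2 : p ≤ r) (p3 : l' ≤ p) (p4 : p ≤ r') :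
    arc n l r ∩ arc n l' r' = arc n (max l l') (min r r') := by
  ext t
  constructor
  · rintro ⟨⟨j, h1, h2⟩, ⟨k, h3, h4⟩⟩
    have : j - k = 0 := small_mul n _ (by linarith) (by linarith)
    have e : j = k := by omega
    subst e
    exact ⟨j, max_le h1 h3, le_min h2 h4⟩
  · rintro ⟨j, h1, h2⟩
    exact ⟨⟨j, (le_max_left _ _).trans h1, h2.trans (min_le_left _ _)⟩,
      ⟨j, (le_max_right _ _).trans h1, h2.trans (min_le_right _ _)⟩⟩

lemma IsArc.recentre {n : ℕ} {A : Set ℤ} (h : IsArc n A) {p : ℤ} (hp : p ∈ A) :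
    ∃ l r : ℤ, r ≤ l + n ∧ l ≤ p ∧ p ≤ r ∧ A = arc n l r := by
  obtain ⟨l, r, h1, rfl⟩ := h
  obtain ⟨k, h2, h3⟩ := hp
  exact ⟨l + (-k) * (2 * n + 1), r + (-k) * (2 * n + 1), by linarith, by linarith, by linarith,
    (arc_shift n l r (-k)).symm⟩

lemma isArc_empty (n : ℕ) : IsArc n ∅ := by
  refine ⟨1, 0, by linarith [Int.natCast_nonneg n], ?_⟩
  ext t
  simp only [Set.mem_empty_iff_false, arc, Set.mem_ofPred_eq, false_iff]
  rintro ⟨k, h1, h2⟩
  linarith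

lemma IsArc.inter {n : ℕ} {A B : Set ℤ} (hA : IsArc n A) (hB : IsArc n B) : IsArc n (A ∩ B) := by
  rcases (A ∩ B).eq_empty_or_nonempty with h | ⟨p, hp1, hp2⟩
  · rw [h]; exact isArc_empty n
  · obtain ⟨l, r, h1, h2, h3, rfl⟩ := hA.recentre hp1
    obtain ⟨l', r', h4, h5, h6, rfl⟩ := hB.recentre hp2
    refine ⟨max l l', min r r', ?_, arc_inter n l r l' r' p h1 h4 h2 h3 h5 h6⟩
    exact (min_le_left _ _).trans (h1.trans (by linarith [le_max_left l l']))

def T (n : ℕ) : Type := {A : Set ℤ // IsArc n A}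

instance (n : ℕ) : Semigroup (T n) where
  mul a b := ⟨a.1 ∩ b.1, a.2.inter b.2⟩
  mul_assoc a b c := Subtype.ext (Set.inter_assoc _ _ _)

instance (n : ℕ) : Nonempty (T n) := ⟨⟨∅, isArc_empty n⟩⟩

lemma T_mul {n : ℕ} (a b : T n) : (a * b).1 = a.1 ∩ b.1 := rfl

def w2 (i j : ℕ) : Word := .of i * .of j
def w3 (i j k : ℕ) : Word := .of i * .of j * .of k

def VV : Set Word := {v | v = w2 0 1 ∨ v = w2 1 2 ∨ v = w2 0 2 ∨
  ∃ i, v = w3 i (i + 1) (i + 3) ∨ v = w3 i (i + 2) (i + 3) ∨ v = w3 0 (2 * i) (2 * i + 2)}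

lemma breadth {n : ℕ} {A B C : Set ℤ} (hA : IsArc n A) (hB : IsArc n B) (hC : IsArc n C)
    (h : (A ∩ B ∩ C).Nonempty) : A ∩ B ∩ C = A ∩ B ∨ A ∩ B ∩ C = B ∩ C ∨ A ∩ B ∩ C = A ∩ C := by
  obtain ⟨p, ⟨hp1, hp2⟩, hp3⟩ := h
  obtain ⟨l, r, h1, h2, h3, rfl⟩ := hA.recentre hp1
  obtain ⟨l', r', h4, h5, h6, rfl⟩ := hB.recentre hp2
  obtain ⟨l'', r'', h7, h8, h9, rfl⟩ := hC.recentre hp3
  rw [arc_inter n l r l' r' p h1 h4 h2 h3 h5 h6, arc_inter n l' r' l'' r'' p h4 h7 h5 h6 h8 h9,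
    arc_inter n l r l'' r'' p h1 h7 h2 h3 h8 h9,
    arc_inter n (max l l') (min r r') l'' r'' p (by omega) h7 (by omega) (by omega) h8 h9]
  have : (max (max l l') l'' = max l l' ∧ min (min r r') r'' = min r r') ∨
      (max (max l l') l'' = max l' l'' ∧ min (min r r') r'' = min r' r'') ∨
      (max (max l l') l'' = max l l'' ∧ min (min r r') r'' = min r r'') := by omega
  rcases this with ⟨e1, e2⟩ | ⟨e1, e2⟩ | ⟨e1, e2⟩
  · left; rw [e1, e2]
  · right; left; rw [e1, e2]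
  · right; right; rw [e1, e2]

section drift

variable {n : ℕ} (l r : ℕ → ℤ)

def Meets (n : ℕ) (l r : ℕ → ℤ) (i j : ℕ) (k : ℤ) : Prop :=
  ∃ p, l i ≤ p ∧ p ≤ r i ∧ l j + k * (2 * n + 1) ≤ p ∧ p ≤ r j + k * (2 * n + 1)

noncomputable def kk (n : ℕ) (l r : ℕ → ℤ) (i j : ℕ) : ℤ := Classical.epsilon (Meets n l r i j)

lemma kk_eq (h : ∀ i, r i ≤ l i + n) {i j : ℕ} {k : ℤ} (hk : Meets n l r i j k) :
    kk n l r i j = k := by
  obtain ⟨p, a1, a2, a3, a4⟩ : Meets n l r i j (kk n l r i j) := Classical.epsilon_spec ⟨k, hk⟩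
  obtain ⟨q, b1, b2, b3, b4⟩ := hk
  have := small_mul n (kk n l r i j - k) (by linarith [h i, h j]) (by linarith [h i, h j])
  omega

lemma pair (h : ∀ i, r i ≤ l i + n) {i j : ℕ}
    (hne : (arc n (l i) (r i) ∩ arc n (l j) (r j)).Nonempty) : Meets n l r i j (kk n l r i j) := by
  obtain ⟨t, ⟨a, a1, a2⟩, ⟨b, b1, b2⟩⟩ := hne
  have : Meets n l r i j (a - b) := ⟨t + a * (2 * n + 1), a1, a2, by linarith, by linarith⟩
  rw [kk_eq l r h this]
  exact this

lemma triple (h : ∀ i, r i ≤ l i + n) {i j m : ℕ}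
    (hne : (arc n (l i) (r i) ∩ arc n (l j) (r j) ∩ arc n (l m) (r m)).Nonempty) :
    kk n l r i m = kk n l r i j + kk n l r j m := by
  obtain ⟨t, ⟨⟨a, a1, a2⟩, ⟨b, b1, b2⟩⟩, ⟨c, c1, c2⟩⟩ := hne
  have e1 : Meets n l r i j (a - b) := ⟨t + a * (2 * n + 1), a1, a2, by linarith, by linarith⟩
  have e2 : Meets n l r j m (b - c) := ⟨t + b * (2 * n + 1), b1, b2, by linarith, by linarith⟩
  have e3 : Meets n l r i m (a - c) := ⟨t + a * (2 * n + 1), a1, a2, by linarith, by linarith⟩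
  rw [kk_eq l r h e1, kk_eq l r h e2, kk_eq l r h e3]
  ring

lemma cbound (h : ∀ i, r i ≤ l i + n) {i j : ℕ} {k : ℤ} (hk : Meets n l r i j k) :
    -(n : ℤ) ≤ l j - l i + k * (2 * n + 1) ∧ l j - l i + k * (2 * n + 1) ≤ n := by
  obtain ⟨q, b1, b2, b3, b4⟩ := hk
  constructor <;> linarith [h i, h j]

lemma drift (h : ∀ i, r i ≤ l i + n)
    (h01 : (arc n (l 0) (r 0) ∩ arc n (l 1) (r 1)).Nonempty)
    (h12 : (arc n (l 1) (r 1) ∩ arc n (l 2) (r 2)).Nonempty)
    (h02 : (arc n (l 0) (r 0) ∩ arc n (l 2) (r 2)).Nonempty)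
    (hA : ∀ i, (arc n (l i) (r i) ∩ arc n (l (i + 1)) (r (i + 1)) ∩
      arc n (l (i + 3)) (r (i + 3))).Nonempty)
    (hB : ∀ i, (arc n (l i) (r i) ∩ arc n (l (i + 2)) (r (i + 2)) ∩
      arc n (l (i + 3)) (r (i + 3))).Nonempty)
    (hC : ∀ i, (arc n (l 0) (r 0) ∩ arc n (l (2 * i)) (r (2 * i)) ∩
      arc n (l (2 * i + 2)) (r (2 * i + 2))).Nonempty) :
    (arc n (l 0) (r 0) ∩ arc n (l 1) (r 1) ∩ arc n (l 2) (r 2)).Nonempty := by
  set lam := kk n l r 0 1 + kk n l r 1 2 - kk n l r 0 2 with hlam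
  have hL : ∀ i, kk n l r i (i + 1) + kk n l r (i + 1) (i + 2) - kk n l r i (i + 2) = lam := by
    intro i
    induction i with
    | zero => rfl
    | succ i ih =>
      have a := triple l r h (hA i)
      have b := triple l r h (hB i)
      have e1 : i + 1 + 1 = i + 2 := rfl
      have e2 : i + 1 + 2 = i + 3 := rfl
      rw [e1, e2]
      linarith
  have m1 : ∀ i, Meets n l r i (i + 1) (kk n l r i (i + 1)) :=
    fun i => pair l r h ((hA i).mono Set.inter_subset_left)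
  have m2 : ∀ i, Meets n l r i (i + 2) (kk n l r i (i + 2)) :=
    fun i => pair l r h ((hB i).mono Set.inter_subset_left)
  have m0 : ∀ i, Meets n l r 0 (2 * i) (kk n l r 0 (2 * i)) :=
    fun i => pair l r h ((hC i).mono Set.inter_subset_left)
  have hn : (0 : ℤ) ≤ n := Int.natCast_nonneg n
  rcases lt_trichotomy lam 0 with hl | hl | hl
  · exfalso
    have step : ∀ i, 1 ≤ l (i + 2) - l i + kk n l r i (i + 2) * (2 * n + 1) := by
      intro i
      have a := (cbound l r h (m1 i)).1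
      have b := (cbound l r h (m1 (i + 1))).1
      have e : kk n l r i (i + 2) = kk n l r i (i + 1) + kk n l r (i + 1) (i + 2) - lam := by
        linarith [hL i]
      have e1 : i + 1 + 1 = i + 2 := rfl
      rw [e1] at b
      rw [e]
      nlinarith
    have ind : ∀ i : ℕ, -(n : ℤ) + i ≤ l (2 * i) - l 0 + kk n l r 0 (2 * i) * (2 * n + 1) := by
      intro i
      induction i with
      | zero => simpa using (cbound l r h (m0 0)).1
      | succ i ih =>
        have e : 2 * (i + 1) = 2 * i + 2 := by ring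
        rw [e, triple l r h (hC i)]
        have := step (2 * i)
        push_cast
        linarith
    have a := ind (2 * n + 1)
    have b := (cbound l r h (m0 (2 * n + 1))).2
    push_cast at a
    linarith
  · obtain ⟨p, a1, a2, a3, a4⟩ := pair l r h h01
    obtain ⟨q, b1, b2, b3, b4⟩ := pair l r h h12
    obtain ⟨s, c1, c2, c3, c4⟩ := pair l r h h02
    have e : kk n l r 0 2 = kk n l r 0 1 + kk n l r 1 2 := by linarith
    rw [e] at c3 c4
    set x := kk n l r 0 1 * (2 * (n : ℤ) + 1) with hx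
    set y := kk n l r 1 2 * (2 * (n : ℤ) + 1) with hy
    have exy : (kk n l r 0 1 + kk n l r 1 2) * (2 * (n : ℤ) + 1) = x + y := by rw [hx, hy]; ring
    rw [exy] at c3 c4
    refine ⟨max (l 0) (max (l 1 + x) (l 2 + (x + y))), ⟨⟨0, ?_, ?_⟩, ⟨-kk n l r 0 1, ?_, ?_⟩⟩,
      ⟨-(kk n l r 0 1 + kk n l r 1 2), ?_, ?_⟩⟩
    · rw [zero_mul]; omega
    · rw [zero_mul]; omega
    · rw [neg_mul, ← hx]; omega
    · rw [neg_mul, ← hx]; omega
    · rw [neg_mul, exy]; omega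
    · rw [neg_mul, exy]; omega
  · exfalso
    have step : ∀ i, l (i + 2) - l i + kk n l r i (i + 2) * (2 * n + 1) ≤ -1 := by
      intro i
      have a := (cbound l r h (m1 i)).2
      have b := (cbound l r h (m1 (i + 1))).2
      have e : kk n l r i (i + 2) = kk n l r i (i + 1) + kk n l r (i + 1) (i + 2) - lam := by
        linarith [hL i]
      have e1 : i + 1 + 1 = i + 2 := rfl
      rw [e1] at b
      rw [e]
      nlinarith
    have ind : ∀ i : ℕ, l (2 * i) - l 0 + kk n l r 0 (2 * i) * (2 * n + 1) ≤ n - i := by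
      intro i
      induction i with
      | zero => simpa using (cbound l r h (m0 0)).2
      | succ i ih =>
        have e : 2 * (i + 1) = 2 * i + 2 := by ring
        rw [e, triple l r h (hC i)]
        have := step (2 * i)
        push_cast
        linarith
    have a := ind (2 * n + 1)
    have b := (cbound l r h (m0 (2 * n + 1))).1
    push_cast at a
    linarith

end drift

lemma T_sat (n : ℕ) (φ : Word →ₙ* T n) : ∃ v ∈ VV, φ (w3 0 1 2) = φ v := by
  have e2 : ∀ i j, (φ (w2 i j)).1 = (φ (.of i)).1 ∩ (φ (.of j)).1 := by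
    intro i j; rw [w2, map_mul]; rfl
  have e3 : ∀ i j k, (φ (w3 i j k)).1 = (φ (.of i)).1 ∩ (φ (.of j)).1 ∩ (φ (.of k)).1 := by
    intro i j k; rw [w3, map_mul, map_mul]; rfl
  rcases ((φ (.of 0)).1 ∩ (φ (.of 1)).1 ∩ (φ (.of 2)).1).eq_empty_or_nonempty with h | h
  · by_contra hc
    push Not at hc
    have hne : ∀ v ∈ VV, (φ v).1.Nonempty := by
      intro v hv
      rw [Set.nonempty_iff_ne_empty]
      intro e
      exact hc v hv (Subtype.ext ((e3 0 1 2).trans (h.trans e.symm)))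
    choose l r hlr hA using fun i => (φ (.of i)).2
    have := drift l r hlr
      (by rw [← hA, ← hA, ← e2]; exact hne _ (Or.inl rfl))
      (by rw [← hA, ← hA, ← e2]; exact hne _ (Or.inr (Or.inl rfl)))
      (by rw [← hA, ← hA, ← e2]; exact hne _ (Or.inr (Or.inr (Or.inl rfl))))
      (fun i => by
        rw [← hA, ← hA, ← hA, ← e3]; exact hne _ (Or.inr (Or.inr (Or.inr ⟨i, Or.inl rfl⟩))))
      (fun i => by
        rw [← hA, ← hA, ← hA, ← e3]
        exact hne _ (Or.inr (Or.inr (Or.inr ⟨i, Or.inr (Or.inl rfl)⟩))))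
      (fun i => by
        rw [← hA, ← hA, ← hA, ← e3]
        exact hne _ (Or.inr (Or.inr (Or.inr ⟨i, Or.inr (Or.inr rfl)⟩))))
    rw [← hA, ← hA, ← hA, h] at this
    exact Set.not_nonempty_empty this
  · rcases breadth (φ (.of 0)).2 (φ (.of 1)).2 (φ (.of 2)).2 h with e | e | e
    · exact ⟨w2 0 1, Or.inl rfl, Subtype.ext (by rw [e3, e2, e])⟩
    · exact ⟨w2 1 2, Or.inr (Or.inl rfl), Subtype.ext (by rw [e3, e2, e])⟩
    · exact ⟨w2 0 2, Or.inr (Or.inr (Or.inl rfl)), Subtype.ext (by rw [e3, e2, e])⟩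

noncomputable def psi (n : ℕ) : Word →ₙ* T n :=
  FreeSemigroup.lift (fun i : ℕ =>
    (⟨arc n (i * (n + 1)) (i * (n + 1) + n), _, _, le_rfl, rfl⟩ : T n))

lemma psi2 (n i j : ℕ) : (psi n (w2 i j)).1 = arc n (i * (n + 1)) (i * (n + 1) + n) ∩
    arc n (j * (n + 1)) (j * (n + 1) + n) := by
  rw [w2, map_mul]; rfl

lemma psi3 (n i j k : ℕ) : (psi n (w3 i j k)).1 = arc n (i * (n + 1)) (i * (n + 1) + n) ∩
    arc n (j * (n + 1)) (j * (n + 1) + n) ∩ arc n (k * (n + 1)) (k * (n + 1) + n) := by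
  rw [w3, map_mul, map_mul]; rfl

lemma psi_u (n : ℕ) (hn : 1 ≤ n) : (psi n (w3 0 1 2)).1 = ∅ := by
  rw [psi3]
  apply Set.eq_empty_of_forall_notMem
  rintro t ⟨⟨⟨a, a1, a2⟩, ⟨b, b1, b2⟩⟩, ⟨c, c1, c2⟩⟩
  push_cast at *
  have hn' : (1 : ℤ) ≤ n := by exact_mod_cast hn
  have e1 : c - 1 - a = 0 := small_mul n _ (by linarith) (by linarith)
  have e2 : c = a + 1 := by omega
  subst e2
  rcases le_or_gt b a with h | h
  · nlinarith
  · have : a + 1 ≤ b := h
    nlinarith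

lemma psi_v (v : Word) (hv : v ∈ VV) : ∃ m, ∀ n ≥ m, (psi n v).1.Nonempty := by
  rcases hv with rfl | rfl | rfl | ⟨i, rfl | rfl | rfl⟩
  · refine ⟨1, fun n hn => ?_⟩
    have hn' : (1 : ℤ) ≤ n := by exact_mod_cast hn
    rw [psi2]
    exact ⟨0, ⟨0, by push_cast; linarith, by push_cast; linarith⟩,
      ⟨1, by push_cast; linarith, by push_cast; linarith⟩⟩
  · refine ⟨1, fun n hn => ?_⟩
    have hn' : (1 : ℤ) ≤ n := by exact_mod_cast hn
    rw [psi2]
    exact ⟨n + 1, ⟨0, by push_cast; linarith, by push_cast; linarith⟩,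
      ⟨1, by push_cast; linarith, by push_cast; linarith⟩⟩
  · refine ⟨1, fun n hn => ?_⟩
    have hn' : (1 : ℤ) ≤ n := by exact_mod_cast hn
    rw [psi2]
    exact ⟨1, ⟨0, by push_cast; linarith, by push_cast; linarith⟩,
      ⟨1, by push_cast; linarith, by push_cast; linarith⟩⟩
  · refine ⟨1, fun n hn => ?_⟩
    have hn' : (1 : ℤ) ≤ n := by exact_mod_cast hn
    rw [psi3]
    exact ⟨i * (n + 1), ⟨⟨0, by push_cast; linarith, by push_cast; linarith⟩,
      ⟨1, by push_cast; linarith, by push_cast; linarith⟩⟩,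
      ⟨2, by push_cast; linarith, by push_cast; linarith⟩⟩
  · refine ⟨1, fun n hn => ?_⟩
    have hn' : (1 : ℤ) ≤ n := by exact_mod_cast hn
    rw [psi3]
    exact ⟨i * (n + 1) + 1, ⟨⟨0, by push_cast; linarith, by push_cast; linarith⟩,
      ⟨1, by push_cast; linarith, by push_cast; linarith⟩⟩,
      ⟨2, by push_cast; linarith, by push_cast; linarith⟩⟩
  · refine ⟨i + 1, fun n hn => ?_⟩
    have hn' : (i : ℤ) + 1 ≤ n := by exact_mod_cast hn
    have hi : (0 : ℤ) ≤ i := Int.natCast_nonneg i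
    rw [psi3]
    exact ⟨n, ⟨⟨0, by push_cast; linarith, by push_cast; linarith⟩,
      ⟨i, by push_cast; linarith, by push_cast; linarith⟩⟩,
      ⟨i + 1, by push_cast; linarith, by push_cast; linarith⟩⟩

end Pool.Agent.Lib.helper31.Arcs
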