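import Pool.Agent.Lib.helper31.H2

set_option autoImplicit false

namespace Pool.Agent.H31.H2

open Complex Metric Set Filter Topology MeasureTheory ComplexConjugate
open scoped InnerProductSpace

/-- the Poisson type kernel -/
noncomputable def Pk (a z : ℂ) : ℝ := (1 - ‖a‖ ^ 2) / ‖1 - conj a * z‖ ^ 2

lemma den_le {a z : ℂ} (hz : ‖z‖ ≤ 1) : 1 - ‖a‖ ≤ ‖1 - conj a * z‖ := by
  have b := norm_sub_norm_le 1 (conj a * z)
  have d := mul_le_of_le_one_right (norm_nonneg a) hz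
  rw [norm_mul, norm_conj, norm_one] at b
  linarith

lemma den_pos {a z : ℂ} (ha : ‖a‖ < 1) (hz : ‖z‖ ≤ 1) : 0 < ‖1 - conj a * z‖ :=
  (sub_pos.2 ha).trans_le (den_le hz)

lemma den_symm (a z : ℂ) : ‖1 - conj a * z‖ = ‖1 - conj z * a‖ := by
  rw [← norm_conj]; simp [mul_comm]

lemma den_sq (a z : ℂ) :
    ‖1 - conj a * z‖ ^ 2 = ‖a - z‖ ^ 2 + (1 - ‖a‖ ^ 2) * (1 - ‖z‖ ^ 2) := by
  simp only [Complex.sq_norm, normSq_apply]
  simp
  ring

lemma sq_le1 {a : ℂ} (ha : ‖a‖ ≤ 1) : 0 ≤ 1 - ‖a‖ ^ 2 :=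
  sub_nonneg.2 (pow_le_one₀ (norm_nonneg _) ha)

lemma Pk_nonneg {a : ℂ} (ha : ‖a‖ ≤ 1) (z : ℂ) : 0 ≤ Pk a z := div_nonneg (sq_le1 ha) (by positivity)

lemma vs {s t x : ℂ} (hs : ‖s‖ < 1) (ht : ‖t‖ < 1) (hx : ‖x‖ < 1) :
    Pk t s * Pk x s ≤ 2 * (Pk x t * Pk t s + Pk t x * Pk x s) := by
  have a1 := den_pos ht hs.le
  have a2 := den_pos hx hs.le
  have a3 := den_pos hx ht.le
  have b1 : ‖t - s‖ ≤ ‖1 - conj t * s‖ := abs_le_of_sq_le_sq' (by
    rw [den_sq]; nlinarith [mul_nonneg (sq_le1 ht.le) (sq_le1 hs.le)]) a1.le |>.2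
  have b2 : ‖1 - conj x * t‖ ≤ ‖1 - conj x * s‖ + ‖1 - conj t * s‖ := by
    rw [show 1 - conj x * t = (1 - conj x * s) - conj x * (t - s) by ring]
    refine (norm_sub_le _ _).trans (add_le_add le_rfl ?_)
    rw [norm_mul, norm_conj]
    exact (mul_le_of_le_one_left (norm_nonneg _) hx.le).trans b1
  have b3 := pow_le_pow_left₀ a3.le b2 2
  simp only [Pk, den_symm t x]
  generalize ‖1 - conj t * s‖ = u at *
  generalize ‖1 - conj x * s‖ = v at *
  generalize ‖1 - conj x * t‖ = w at *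
  have c := mul_nonneg (sq_le1 ht.le) (sq_le1 hx.le)
  rw [← sub_nonneg, show 2 * ((1 - ‖x‖ ^ 2) / w ^ 2 * ((1 - ‖t‖ ^ 2) / u ^ 2)
    + (1 - ‖t‖ ^ 2) / w ^ 2 * ((1 - ‖x‖ ^ 2) / v ^ 2)) - (1 - ‖t‖ ^ 2) / u ^ 2 * ((1 - ‖x‖ ^ 2) / v ^ 2)
    = (1 - ‖t‖ ^ 2) * (1 - ‖x‖ ^ 2) * (2 * (u ^ 2 + v ^ 2) - w ^ 2) / (u ^ 2 * v ^ 2 * w ^ 2) by
      field_simp; ring]
  exact div_nonneg (mul_nonneg c (by nlinarith [sq_nonneg (u - v)])) (by positivity)

lemma re_K {z w : ℂ} (hz : ‖z‖ < 1) (hw : ‖w‖ < 1) : 0 ≤ ((1 - conj z * w)⁻¹).re ∧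
    2 * ((1 - conj z * w)⁻¹).re ≤ 1 + Pk z w + Pk w z := by
  have a1 := den_pos hz hw.le
  have a2 := (re_le_norm (conj z * w)).trans_eq (norm_mul _ _)
  have a3 : ‖1 - conj z * w‖ ^ 2 = 1 - 2 * (conj z * w).re + ‖z‖ ^ 2 * ‖w‖ ^ 2 := by
    simp only [Complex.sq_norm, normSq_apply]
    simp
    ring
  rw [norm_conj] at a2
  rw [inv_re, normSq_eq_norm_sq, sub_re, one_re, Pk, Pk, den_symm w z]
  have a4 := mul_le_of_le_one_right (norm_nonneg z) hw.le
  refine ⟨div_nonneg (by linarith) (by positivity), ?_⟩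
  rw [← mul_div_assoc, add_assoc, ← add_div, one_add_div (by positivity),
    div_le_div_iff_of_pos_right (by positivity), a3]
  nlinarith [mul_nonneg (sq_le1 hz.le) (sq_le1 hw.le), sq_le1 hz.le, sq_le1 hw.le]

lemma K_cont : ContinuousOn K (ball 0 1) := fun a ha => by
  rw [ContinuousWithinAt, tendsto_iff_norm_sub_tendsto_zero]
  have n : ∀ z ∈ ball (0 : ℂ) 1, ∀ w ∈ ball (0 : ℂ) 1, 1 - conj z * w ≠ 0 := fun z hz w hw =>
    norm_pos_iff.1 (den_pos (mem_ball_zero_iff.1 hz) (mem_ball_zero_iff.1 hw).le)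
  have c : ContinuousAt (fun z : ℂ => √(((1 - conj z * z)⁻¹).re - 2 * ((1 - conj a * z)⁻¹).re
      + ((1 - conj a * a)⁻¹).re)) a := by
    have := n a ha a ha
    have c1 : ContinuousAt (fun z : ℂ => (1 - conj z * z)⁻¹) a :=
      ContinuousAt.inv₀ (f := fun z : ℂ => 1 - conj z * z) (by fun_prop) this
    have c2 : ContinuousAt (fun z : ℂ => (1 - conj a * z)⁻¹) a :=
      ContinuousAt.inv₀ (f := fun z : ℂ => 1 - conj a * z) (by fun_prop) this
    exact (((continuous_re.continuousAt.comp c1).sub (continuousAt_const.mul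
      (continuous_re.continuousAt.comp c2))).add continuousAt_const).sqrt
  have c2 := tendsto_nhdsWithin_of_tendsto_nhds (s := ball (0 : ℂ) 1) c.tendsto
  rw [show ((1 - conj a * a)⁻¹).re - 2 * ((1 - conj a * a)⁻¹).re + ((1 - conj a * a)⁻¹).re = 0 by
    ring, Real.sqrt_zero] at c2
  refine c2.congr' ?_
  filter_upwards [self_mem_nhdsWithin] with z hz
  rw [Real.sqrt_eq_iff_eq_sq _ (norm_nonneg _), @norm_sub_sq ℂ, ← @inner_self_eq_norm_sq ℂ,
    ← @inner_self_eq_norm_sq ℂ, inner_K hz, inner_K hz, inner_K ha, ev_K hz hz, ev_K ha hz,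
    ev_K ha ha]
  · rfl
  · have := sq_nonneg ‖K z - K a‖
    rwa [@norm_sub_sq ℂ, ← @inner_self_eq_norm_sq ℂ, ← @inner_self_eq_norm_sq ℂ, inner_K hz,
      inner_K hz, inner_K ha, ev_K hz hz, ev_K ha hz, ev_K ha ha] at this

lemma ci {Y E : Type} [TopologicalSpace Y] [CompactSpace Y] [T2Space Y] [MeasurableSpace Y]
    [OpensMeasurableSpace Y] [SecondCountableTopology Y] {μ : Measure Y} [IsFiniteMeasure μ]
    [NormedAddCommGroup E] {F : Y → E} (h : Continuous F) : Integrable F μ :=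
  h.integrable_of_hasCompactSupport (HasCompactSupport.of_compactSpace _)

theorem carleson {X : Type} [MetricSpace X] [CompactSpace X] [MeasurableSpace X] [BorelSpace X]
    (ν : Measure X) [IsFiniteMeasure ν] {p : X → ℂ} (hp : Continuous p) (h1 : ∀ x, ‖p x‖ < 1)
    {c : ℝ} (c0 : 0 < c) (hc : ∀ a, ‖a‖ < 1 → ∫ x, Pk a (p x) ∂ν ≤ c) (f : H) :
    ∫ x, ‖ev f (p x)‖ ^ 2 ∂ν ≤ 9 * c * ‖f‖ ^ 2 := by
  have hb : ∀ x, p x ∈ ball (0 : ℂ) 1 := fun x => mem_ball_zero_iff.2 (h1 x)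
  have kc : Continuous fun y : X × X => Pk (p y.1) (p y.2) :=
    Continuous.div (by fun_prop) (by fun_prop) fun y => pow_ne_zero _ (den_pos (h1 _) (h1 _).le).ne'
  have kc2 : ∀ {Y : Type} [TopologicalSpace Y] {α β : Y → X}, Continuous α → Continuous β →
      Continuous fun y => Pk (p (α y)) (p (β y)) := fun a b => kc.comp (a.prodMk b)
  have k0 : ∀ s t, 0 ≤ Pk (p s) (p t) := fun s t => Pk_nonneg (h1 s).le _
  set g : X → ℂ := fun x => ev f (p x) with hg
  have gc : Continuous g := (ev_diff f).continuousOn.comp_continuous hp hb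
  set U := ∫ x, ‖g x‖ ^ 2 ∂ν with hU
  set T : X → ℝ := fun s => ∫ t, Pk (p t) (p s) * ‖g t‖ ∂ν with hT
  set B := ∫ y : X × X, ‖g y.1‖ * (Pk (p y.2) (p y.1) * ‖g y.2‖) ∂ν.prod ν with hB
  have cB : Continuous fun y : X × X => ‖g y.1‖ * (Pk (p y.2) (p y.1) * ‖g y.2‖) :=
    (gc.comp continuous_fst).norm.mul ((kc2 continuous_snd continuous_fst).mul
      (gc.comp continuous_snd).norm)
  have cB2 : Continuous fun y : X × X => ‖g y.2‖ * (Pk (p y.1) (p y.2) * ‖g y.1‖) :=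
    cB.comp continuous_swap
  have B2 : ∫ y : X × X, ‖g y.2‖ * (Pk (p y.1) (p y.2) * ‖g y.1‖) ∂ν.prod ν = B :=
    integral_prod_swap fun y : X × X => ‖g y.1‖ * (Pk (p y.2) (p y.1) * ‖g y.2‖)
  have Tc : Continuous T := by
    have := continuous_parametric_integral_of_continuous (μ := ν)
      (f := fun s t => Pk (p t) (p s) * ‖g t‖) ((kc2 continuous_snd continuous_fst).mul
        (gc.comp continuous_snd).norm) isCompact_univ
    simpa only [Measure.restrict_univ] using this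
  have e1 : B = ∫ s, ‖g s‖ * T s ∂ν := by
    rw [hB, integral_prod _ (ci cB)]
    simp only [integral_const_mul, hT]
  have e2 : ∫ s, T s ^ 2 ∂ν ≤ 4 * c * B := by
    have c3 : Continuous (Function.uncurry fun (s : X) (y : X × X) =>
        Pk (p y.1) (p s) * ‖g y.1‖ * (Pk (p y.2) (p s) * ‖g y.2‖)) :=
      ((kc2 continuous_snd.fst continuous_fst).mul (gc.comp continuous_snd.fst).norm).mul
        ((kc2 continuous_snd.snd continuous_fst).mul (gc.comp continuous_snd.snd).norm)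
    simp only [sq, hT, ← integral_prod_mul]
    rw [integral_integral_swap (ci c3), show 4 * c * B = 2 * c * (B + B) by ring]
    nth_rewrite 2 [← B2]
    rw [hB, ← integral_add (ci cB) (ci cB2), ← integral_const_mul]
    refine integral_mono (ci c3).integral_prod_right (ci (continuous_const.mul (cB.add cB2)))
      fun y => ?_
    have i1 : ∀ t, Integrable (fun s => Pk (p t) (p s)) ν := fun t =>
      ci (kc2 (α := fun _ => t) continuous_const continuous_id)
    refine (integral_mono (g := fun s => 2 * (‖g y.1‖ * ‖g y.2‖) * (Pk (p y.2) (p y.1)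
      * Pk (p y.1) (p s) + Pk (p y.1) (p y.2) * Pk (p y.2) (p s)))
      (ci (c3.comp (continuous_id.prodMk continuous_const)))
      ((((i1 _).const_mul _).add ((i1 _).const_mul _)).const_mul _) fun s => ?_).trans ?_
    · have := mul_le_mul_of_nonneg_left (vs (h1 s) (h1 y.1) (h1 y.2))
        (mul_nonneg (norm_nonneg (g y.1)) (norm_nonneg (g y.2)))
      simp only [Function.comp, Function.uncurry, id]
      linarith
    · rw [integral_const_mul, integral_add ((i1 _).const_mul _) ((i1 _).const_mul _),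
        integral_const_mul, integral_const_mul]
      have a1 := mul_le_mul_of_nonneg_left (hc _ (h1 y.1)) (k0 y.2 y.1)
      have a2 := mul_le_mul_of_nonneg_left (hc _ (h1 y.2)) (k0 y.1 y.2)
      have := mul_le_mul_of_nonneg_left (add_le_add a1 a2)
        (mul_nonneg (norm_nonneg (g y.1)) (norm_nonneg (g y.2)))
      linarith
  have e3 : B ≤ 4 * c * U := by
    have : ∫ s, 8 * c * (‖g s‖ * T s) ∂ν ≤ ∫ s, 16 * c ^ 2 * ‖g s‖ ^ 2 + T s ^ 2 ∂ν :=
      integral_mono (ci (by fun_prop)) (ci (by fun_prop)) fun s => by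
        dsimp only
        nlinarith [sq_nonneg (4 * c * ‖g s‖ - T s)]
    rw [integral_const_mul, ← e1, integral_add (ci (by fun_prop)) (ci (by fun_prop)),
      integral_const_mul] at this
    nlinarith
  have Kc : Continuous fun x => K (p x) := K_cont.comp_continuous hp hb
  have ic : Continuous fun y : X × X => (1 - conj (p y.1) * p y.2)⁻¹ :=
    Continuous.inv₀ (by fun_prop) fun y => norm_pos_iff.1 (den_pos (h1 _) (h1 _).le)
  have e4 : ∀ v : X → ℂ, Continuous v → ‖∫ x, v x • K (p x) ∂ν‖ ^ 2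
      = ∫ y : X × X, (conj (v y.2) * v y.1 * (1 - conj (p y.1) * p y.2)⁻¹).re ∂ν.prod ν := by
    intro v vc
    have i1 : Integrable (fun x => v x • K (p x)) ν := ci (vc.smul Kc)
    have i2 : Integrable (fun y : X × X => conj (v y.2) * v y.1 * (1 - conj (p y.1) * p y.2)⁻¹)
        (ν.prod ν) := ci (Continuous.mul (by fun_prop) ic)
    rw [← @inner_self_eq_norm_sq ℂ, ← integral_inner i1]
    refine Eq.trans ?_ (integral_re i2).symm
    rw [integral_prod _ i2]
    congr 2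
    funext x
    rw [← inner_conj_symm, ← integral_inner i1, ← integral_conj]
    congr 1
    funext w
    rw [inner_smul_left, inner_smul_right, inner_K (hb x), ev_K (hb w) (hb x)]
    simp only [map_mul, map_inv₀, map_sub, map_one, conj_conj]
    rw [mul_comm (p w)]
    ring
  have m : ν.real univ ≤ c := by simpa [Pk] using hc 0 (by simp)
  have U0 : 0 ≤ U := integral_nonneg fun x => by positivity
  have e5 : ‖∫ x, g x • K (p x) ∂ν‖ ^ 2 ≤ 9 * c * U := by
    have a1 := e4 g gc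
    have a2 := e4 (fun x => conj (g x)) (by fun_prop)
    have q : ∀ v : X → ℂ, Continuous v → Continuous fun y : X × X =>
        (conj (v y.2) * v y.1 * (1 - conj (p y.1) * p y.2)⁻¹).re := fun v vc =>
      continuous_re.comp (Continuous.mul (by fun_prop) ic)
    have q1 := q g gc
    have q2 := q (fun x => conj (g x)) (by fun_prop)
    have q3 : Continuous fun y : X × X => ‖g y.1‖ * (Pk (p y.2) (p y.1) * ‖g y.2‖)
      + ‖g y.2‖ * (Pk (p y.1) (p y.2) * ‖g y.1‖) := cB.add cB2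
    have q4 : Continuous fun y : X × X => ‖g y.1‖ ^ 2 / 2 + ‖g y.2‖ ^ 2 / 2 := by fun_prop
    have a3 : ∫ y : X × X, (conj (g y.2) * g y.1 * (1 - conj (p y.1) * p y.2)⁻¹).re
        + (conj (conj (g y.2)) * conj (g y.1) * (1 - conj (p y.1) * p y.2)⁻¹).re ∂ν.prod ν
        ≤ ∫ y : X × X, (‖g y.1‖ ^ 2 / 2 + ‖g y.2‖ ^ 2 / 2) + (‖g y.1‖ * (Pk (p y.2) (p y.1) * ‖g y.2‖)
          + ‖g y.2‖ * (Pk (p y.1) (p y.2) * ‖g y.1‖)) ∂ν.prod ν := by
      refine integral_mono (ci (q1.add q2)) (ci (q4.add q3)) fun y => ?_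
      obtain ⟨r1, r2⟩ := re_K (h1 y.1) (h1 y.2)
      have r3 := (re_le_norm (conj (g y.2) * g y.1)).trans_eq (norm_mul _ _)
      rw [norm_conj] at r3
      have r4 : (conj (g y.2) * g y.1 * (1 - conj (p y.1) * p y.2)⁻¹).re
          + (conj (conj (g y.2)) * conj (g y.1) * (1 - conj (p y.1) * p y.2)⁻¹).re
          = 2 * (conj (g y.2) * g y.1).re * ((1 - conj (p y.1) * p y.2)⁻¹).re := by
        generalize (1 - conj (p y.1) * p y.2)⁻¹ = k
        simp
        ring
      have r5 := mul_le_mul_of_nonneg_left r2 (mul_nonneg (norm_nonneg (g y.2)) (norm_nonneg (g y.1)))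
      dsimp only
      rw [r4]
      nlinarith [mul_le_mul_of_nonneg_right r3 r1, sq_nonneg (‖g y.1‖ - ‖g y.2‖)]
    rw [integral_add (ci q1) (ci q2), ← a1, ← a2,
      integral_add (ci q4) (ci q3), integral_add (ci cB) (ci cB2), B2, ← hB,
      integral_add (ci (by fun_prop)) (ci (by fun_prop)), integral_div, integral_div,
      integral_fun_fst fun x => ‖g x‖ ^ 2, integral_fun_snd fun x => ‖g x‖ ^ 2, ← hU,
      smul_eq_mul] at a3
    nlinarith [sq_nonneg ‖∫ x, conj (g x) • K (p x) ∂ν‖, mul_le_mul_of_nonneg_right m U0]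
  have e6 : U ≤ ‖f‖ * ‖∫ x, g x • K (p x) ∂ν‖ := by
    refine le_trans (le_of_eq ?_) (re_inner_le_norm (𝕜 := ℂ) _ _)
    have q : Continuous fun x => g x • K (p x) := gc.smul Kc
    rw [← integral_inner (ci q), ← integral_re (ci (continuous_const.inner q))]
    refine integral_congr_ae (Eventually.of_forall fun x => ?_)
    dsimp only
    rw [inner_smul_right, ← inner_conj_symm, inner_K (hb x), mul_conj']
    norm_cast
  have e7 := pow_le_pow_left₀ U0 e6 2
  rw [mul_pow] at e7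
  have e8 := e7.trans (mul_le_mul_of_nonneg_left e5 (sq_nonneg _))
  rcases U0.eq_or_lt with h | h
  · rw [← h]; positivity
  · nlinarith

end Pool.Agent.H31.H2
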