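import Mathlib

set_option autoImplicit false

open Set Filter Topology

namespace Pool.Agent.Lib.helper31.Cont1

/-! ### a nowhere monotone function -/

noncomputable def ph (x : ℝ) : ℝ := ‖(x : UnitAddCircle)‖

theorem ph_cont : Continuous ph := continuous_norm.comp (AddCircle.continuous_mk' 1)

theorem ph_nonneg (x : ℝ) : 0 ≤ ph x := norm_nonneg _

theorem ph_le (x : ℝ) : ph x ≤ 1 / 2 := by
  have := AddCircle.norm_le_half_period (p := (1 : ℝ)) (x := (x : UnitAddCircle)) one_ne_zero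
  simpa [ph] using this

theorem ph_le_abs (x : ℝ) : ph x ≤ |x| := by
  simpa [ph] using QuotientAddGroup.norm_mk_le_norm (S := AddSubgroup.zmultiples (1 : ℝ)) (m := x)

theorem ph_lip (x y : ℝ) : ph x - ph y ≤ |x - y| := by
  have h := norm_sub_norm_le (x : UnitAddCircle) (y : UnitAddCircle)
  rw [← AddCircle.coe_sub] at h
  exact h.trans (ph_le_abs _)

theorem ph_int (m : ℤ) : ph m = 0 := by
  simp [ph, UnitAddCircle.norm_eq]

theorem ph_half (m : ℤ) : ph (m + 1 / 2) = 1 / 2 := by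
  have : ((m + 1 / 2 : ℝ) : UnitAddCircle) = ((1 / 2 : ℝ) : UnitAddCircle) := by
    rw [AddCircle.coe_add]
    have : ((m : ℝ) : UnitAddCircle) = 0 := (AddCircle.coe_eq_zero_iff _).mpr ⟨m, by simp⟩
    rw [this, zero_add]
  rw [ph, this]
  simpa using AddCircle.norm_half_period_eq (p := (1 : ℝ))

noncomputable def g0 (x : ℝ) : ℝ := ∑' n : ℕ, (1 / 2 : ℝ) ^ n * ph (4 ^ n * x)

theorem g0_cont : Continuous g0 := by
  refine continuous_tsum (u := fun n => (1 / 2 : ℝ) ^ n) (fun n => ?_) summable_geometric_two ?_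
  · exact continuous_const.mul (ph_cont.comp (by fun_prop))
  · intro n x
    rw [Real.norm_eq_abs, abs_of_nonneg (mul_nonneg (by positivity) (ph_nonneg _))]
    have := ph_le (4 ^ n * x)
    have h2 : (0 : ℝ) ≤ (1 / 2) ^ n := by positivity
    nlinarith

theorem g0_nonneg (x : ℝ) : 0 ≤ g0 x :=
  tsum_nonneg fun n => mul_nonneg (by positivity) (ph_nonneg _)

theorem g0_zero : g0 0 = 0 := by
  have := ph_int 0
  simp only [Int.cast_zero] at this
  simp [g0, this]

theorem g0_fin (n : ℕ) (m : ℤ) : g0 (m / (2 * 4 ^ n)) =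
    ∑ k ∈ Finset.range n, (1 / 2 : ℝ) ^ k * ph (4 ^ k * (m / (2 * 4 ^ n))) +
      (1 / 2) ^ n * ph (m / 2) := by
  rw [g0, tsum_eq_sum (s := Finset.range (n + 1)), Finset.sum_range_succ]
  · congr 3; field_simp
  · intro k hk
    simp only [Finset.mem_range, not_lt] at hk
    obtain ⟨j, rfl⟩ := Nat.exists_eq_add_of_le hk
    have : (4 : ℝ) ^ (n + 1 + j) * (m / (2 * 4 ^ n)) = ((2 * 4 ^ j * m : ℤ) : ℝ) := by
      push_cast; field_simp; ring
    rw [this, ph_int, mul_zero]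

theorem geom (n : ℕ) : ∑ k ∈ Finset.range n, (2 : ℝ) ^ k < 2 ^ n := by
  induction n with
  | zero => simp
  | succ n ih => rw [Finset.sum_range_succ, pow_succ]; linarith

theorem g0_lt (n : ℕ) (j i : ℤ) (hi : i = 2 * j ∨ i = 2 * j + 2) :
    g0 (i / (2 * 4 ^ n)) < g0 (((2 * j + 1 : ℤ) : ℝ) / (2 * 4 ^ n)) := by
  rw [g0_fin, g0_fin]
  have h1 : ph (i / 2) = 0 := by
    rcases hi with rfl | rfl
    · have : (((2 * j : ℤ) : ℝ) / 2) = j := by push_cast; ring
      rw [this, ph_int]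
    · have : (((2 * j + 2 : ℤ) : ℝ) / 2) = ((j + 1 : ℤ) : ℝ) := by push_cast; ring
      rw [this, ph_int]
  have h2 : ph (((2 * j + 1 : ℤ) : ℝ) / 2) = 1 / 2 := by
    rw [← ph_half j]; congr 1; push_cast; ring
  rw [h1, h2]
  have h3 : ∑ k ∈ Finset.range n, (1 / 2 : ℝ) ^ k * ph (4 ^ k * (i / (2 * 4 ^ n))) -
      ∑ k ∈ Finset.range n, (1 / 2 : ℝ) ^ k * ph (4 ^ k * (((2 * j + 1 : ℤ) : ℝ) / (2 * 4 ^ n))) ≤
      ∑ k ∈ Finset.range n, (2 : ℝ) ^ k * (1 / (2 * 4 ^ n)) := by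
    rw [← Finset.sum_sub_distrib]
    refine Finset.sum_le_sum fun k _ => ?_
    rw [← mul_sub]
    have h := ph_lip (4 ^ k * (i / (2 * 4 ^ n))) (4 ^ k * (((2 * j + 1 : ℤ) : ℝ) / (2 * 4 ^ n)))
    have habs : |(4 : ℝ) ^ k * (i / (2 * 4 ^ n)) - 4 ^ k * (((2 * j + 1 : ℤ) : ℝ) / (2 * 4 ^ n))|
        = 4 ^ k * (1 / (2 * 4 ^ n)) := by
      rcases hi with rfl | rfl
      · rw [abs_sub_comm, abs_of_nonneg]
        · push_cast; ring
        · push_cast
          have : (4 : ℝ) ^ k * ((2 * j + 1) / (2 * 4 ^ n)) - 4 ^ k * (2 * j / (2 * 4 ^ n)) =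
            4 ^ k * (1 / (2 * 4 ^ n)) := by ring
          rw [this]; positivity
      · rw [abs_of_nonneg]
        · push_cast; ring
        · push_cast
          have : (4 : ℝ) ^ k * ((2 * j + 2) / (2 * 4 ^ n)) - 4 ^ k * ((2 * j + 1) / (2 * 4 ^ n)) =
            4 ^ k * (1 / (2 * 4 ^ n)) := by ring
          rw [this]; positivity
    rw [habs] at h
    have h4 : (4 : ℝ) ^ k = 2 ^ k * 2 ^ k := by rw [← mul_pow]; norm_num
    calc _ ≤ (1 / 2 : ℝ) ^ k * (4 ^ k * (1 / (2 * 4 ^ n))) :=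
          mul_le_mul_of_nonneg_left h (by positivity)
      _ = _ := by rw [h4, one_div, inv_pow]; field_simp
  rw [← Finset.sum_mul] at h3
  have h5 : (∑ k ∈ Finset.range n, (2 : ℝ) ^ k) * (1 / (2 * 4 ^ n)) < 2 ^ n * (1 / (2 * 4 ^ n)) :=
    mul_lt_mul_of_pos_right (geom n) (by positivity)
  have h6 : (2 : ℝ) ^ n * (1 / (2 * 4 ^ n)) = (1 / 2) ^ n * (1 / 2) := by
    have h4 : (4 : ℝ) ^ n = 2 ^ n * 2 ^ n := by rw [← mul_pow]; norm_num
    rw [h4, one_div (2 : ℝ), inv_pow]; field_simp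
  linarith

theorem g0_zig (a b : ℝ) (hab : a < b) :
    ∃ x y z, a ≤ x ∧ x < y ∧ y < z ∧ z ≤ b ∧ g0 x < g0 y ∧ g0 z < g0 y := by
  obtain ⟨n, hn⟩ := pow_unbounded_of_one_lt (2 / (b - a)) (by norm_num : (1 : ℝ) < 4)
  have hp : (0 : ℝ) < 4 ^ n := by positivity
  rw [div_lt_iff₀ (by linarith)] at hn
  set j := ⌈a * 4 ^ n⌉ with hj
  have h1 : a * 4 ^ n ≤ j := Int.le_ceil _
  have h2 : (j : ℝ) < a * 4 ^ n + 1 := Int.ceil_lt_add_one _
  refine ⟨((2 * j : ℤ) : ℝ) / (2 * 4 ^ n), ((2 * j + 1 : ℤ) : ℝ) / (2 * 4 ^ n),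
    ((2 * j + 2 : ℤ) : ℝ) / (2 * 4 ^ n), ?_, ?_, ?_, ?_, g0_lt n j _ (Or.inl rfl),
    g0_lt n j _ (Or.inr rfl)⟩
  · rw [le_div_iff₀ (by positivity)]; push_cast; nlinarith
  · exact div_lt_div_of_pos_right (by push_cast; linarith) (by positivity)
  · exact div_lt_div_of_pos_right (by push_cast; linarith) (by positivity)
  · rw [div_le_iff₀ (by positivity)]; push_cast; nlinarith

theorem exists_zigzag : ∃ G : ℝ → ℝ, Continuous G ∧ G '' Icc 0 1 = Icc 0 1 ∧
    ∀ a b, a < b → ∃ x y z, a ≤ x ∧ x < y ∧ y < z ∧ z ≤ b ∧ G x < G y ∧ G z < G y := by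
  obtain ⟨m, hm, hmax⟩ := (isCompact_Icc (a := (0 : ℝ)) (b := 1)).exists_isMaxOn
    ⟨0, by simp⟩ g0_cont.continuousOn
  have hpos : 0 < g0 m := by
    obtain ⟨x, y, z, h1, h2, h3, h4, h5, -⟩ := g0_zig 0 1 one_pos
    have := hmax (show y ∈ Icc (0 : ℝ) 1 from ⟨by linarith, by linarith⟩)
    have h6 := g0_nonneg x
    simp only [mem_ofPred_eq] at this
    linarith
  refine ⟨fun x => g0 x / g0 m, g0_cont.div_const _, ?_, ?_⟩
  · apply Subset.antisymm
    · rintro _ ⟨x, hx, rfl⟩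
      exact ⟨div_nonneg (g0_nonneg _) hpos.le, (div_le_one hpos).mpr (hmax hx)⟩
    · have := intermediate_value_Icc hm.1 (g0_cont.div_const (g0 m)).continuousOn
      simp only [g0_zero, zero_div, div_self hpos.ne'] at this
      exact this.trans (image_mono (Icc_subset_Icc_right hm.2))
  · intro a b hab
    obtain ⟨x, y, z, h1, h2, h3, h4, h5, h6⟩ := g0_zig a b hab
    exact ⟨x, y, z, h1, h2, h3, h4, div_lt_div_of_pos_right h5 hpos, div_lt_div_of_pos_right h6 hpos⟩

/-! ### the solenoid -/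

noncomputable def line (t : ℝ) : ℕ → UnitAddCircle := fun n => ((t / 4 ^ n : ℝ) : UnitAddCircle)

theorem line_cont : Continuous line :=
  continuous_pi fun _ => (AddCircle.continuous_mk' 1).comp (by fun_prop)

def Sol : Set (ℕ → UnitAddCircle) := closure (range line)

instance : CompactSpace Sol := isCompact_iff_compactSpace.mp isClosed_closure.isCompact

instance : ConnectedSpace Sol :=
  isConnected_iff_connectedSpace.mp (isConnected_range line_cont).closure

theorem sol_rel (y : ℕ → UnitAddCircle) (hy : y ∈ Sol) (n r : ℕ) : 4 ^ r • y (n + r) = y n := by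
  refine closure_minimal (t := {y | 4 ^ r • y (n + r) = y n}) ?_ ?_ hy
  · rintro _ ⟨t, rfl⟩
    simp only [mem_ofPred_eq, line, ← AddCircle.coe_nsmul]
    congr 1
    simp only [nsmul_eq_mul]; push_cast; field_simp; ring
  · exact isClosed_eq (by fun_prop) (by fun_prop)

theorem sol_close (S : Set Sol) (hS : IsClosed S) (hc : IsPreconnected S) (hne : S ≠ univ) :
    ∃ n, ∀ r, ∀ x ∈ S, ∀ y ∈ S, ‖x.1 (n + r) - y.1 (n + r)‖ ≤ 1 / 4 ^ r := by
  have h1 : ∃ n, ∃ w : ℝ, ∀ s ∈ S, s.1 n ≠ w := by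
    by_contra h
    push Not at h
    apply hne
    rw [eq_univ_iff_forall]
    intro b
    have h' : ∀ n, ∃ s ∈ S, s.1 n = b.1 n := fun n => by
      obtain ⟨w, hw⟩ := QuotientAddGroup.mk_surjective (b.1 n)
      rw [← hw]; exact h n w
    choose s hs hs' using h'
    refine hS.mem_of_tendsto (f := s) (b := atTop) ?_ (Eventually.of_forall hs)
    rw [tendsto_subtype_rng, tendsto_pi_nhds]
    intro k
    refine tendsto_const_nhds.congr' ?_
    filter_upwards [eventually_ge_atTop k] with n hn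
    obtain ⟨r, rfl⟩ := Nat.exists_eq_add_of_le hn
    rw [← sol_rel _ (s (k + r)).2 k r, ← sol_rel _ b.2 k r, hs']
  obtain ⟨n, w, hw⟩ := h1
  refine ⟨n, fun r x hx y hy => ?_⟩
  let θ : Sol → ℝ := fun s => (AddCircle.equivIco 1 w (s.1 n) : ℝ)
  have hθ : ContinuousOn θ S := fun s hs =>
    (continuousAt_subtype_val.comp ((AddCircle.continuousAt_equivIco 1 w (hw s hs)).comp
      (f := fun s : Sol => s.1 n)
      ((continuous_apply n).comp continuous_subtype_val).continuousAt)).continuousWithinAt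
  let ψ : Sol → UnitAddCircle := fun s => s.1 (n + r) - ((θ s / 4 ^ r : ℝ) : UnitAddCircle)
  have hψ : ContinuousOn ψ S :=
    ((continuous_apply (n + r)).comp continuous_subtype_val).continuousOn.sub
      ((AddCircle.continuous_mk' 1).comp_continuousOn (hθ.div_const _))
  have hmap : MapsTo ψ S {u : UnitAddCircle | 4 ^ r • u = 0} := fun s _ => by
    simp only [mem_ofPred_eq, ψ, smul_sub, sol_rel _ s.2, ← AddCircle.coe_nsmul]
    have : (4 ^ r : ℕ) • (θ s / 4 ^ r) = θ s := by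
      simp only [nsmul_eq_mul]; push_cast; field_simp
    rw [this, AddCircle.coe_equivIco, sub_self]
  have := hc.constant_of_mapsTo (AddCircle.finite_torsion 1 (by positivity)).isDiscrete hψ hmap
    hx hy
  have h2 : x.1 (n + r) - y.1 (n + r) = ((θ x / 4 ^ r - θ y / 4 ^ r : ℝ) : UnitAddCircle) := by
    rw [AddCircle.coe_sub]
    simp only [ψ] at this
    rw [sub_eq_sub_iff_sub_eq_sub] at this
    exact this
  rw [h2]
  refine (ph_le_abs _).trans ?_
  rw [← sub_div, abs_div, abs_of_pos (by positivity : (0 : ℝ) < 4 ^ r)]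
  gcongr
  have hx' := (AddCircle.equivIco 1 w (x.1 n)).2
  have hy' := (AddCircle.equivIco 1 w (y.1 n)).2
  rw [abs_le]
  constructor <;> simp only [θ] <;> linarith [hx'.1, hx'.2, hy'.1, hy'.2]

def aa (u : ℕ → Fin 2) (n : ℕ) : ℕ := ∑ j ∈ Finset.range n, (u (Nat.unpair j).1 : ℕ) * 4 ^ j

theorem aa_lt (u : ℕ → Fin 2) (n : ℕ) : 3 * aa u n < 4 ^ n := by
  induction n with
  | zero => simp [aa]
  | succ n ih =>
    have := (u (Nat.unpair n).1).2
    have h : aa u (n + 1) = aa u n + (u (Nat.unpair n).1 : ℕ) * 4 ^ n := Finset.sum_range_succ _ _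
    have h2 : (u (Nat.unpair n).1 : ℕ) * 4 ^ n ≤ 1 * 4 ^ n := Nat.mul_le_mul_right _ (by omega)
    rw [h, pow_succ]; omega

noncomputable def ee (u : ℕ → Fin 2) : ℕ → UnitAddCircle :=
  fun n => (((aa u n : ℝ) / 4 ^ n : ℝ) : UnitAddCircle)

theorem line_aa (u : ℕ → Fin 2) (n r : ℕ) : line (aa u (n + r)) n = ee u n := by
  induction r with
  | zero => rfl
  | succ r ih =>
    rw [← ih]
    have h : aa u (n + (r + 1)) = aa u (n + r) + (u (Nat.unpair (n + r)).1 : ℕ) * 4 ^ (n + r) :=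
      Finset.sum_range_succ _ _
    simp only [line, h]
    push_cast
    rw [add_div, AddCircle.coe_add, add_eq_left, AddCircle.coe_eq_zero_iff]
    refine ⟨((u (Nat.unpair (n + r)).1 : ℕ) : ℤ) * 4 ^ r, ?_⟩
    simp only [zsmul_eq_mul]; push_cast; field_simp; ring

theorem ee_mem (u : ℕ → Fin 2) : ee u ∈ Sol := by
  refine mem_closure_of_tendsto (f := fun N => line (aa u N)) (b := atTop) ?_
    (Eventually.of_forall fun N => mem_range_self _)
  rw [tendsto_pi_nhds]
  intro k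
  refine tendsto_const_nhds.congr' ?_
  filter_upwards [eventually_ge_atTop k] with n hn
  obtain ⟨r, rfl⟩ := Nat.exists_eq_add_of_le hn
  rw [line_aa]

theorem ee_cont : Continuous ee := by
  refine continuous_pi fun n => (AddCircle.continuous_mk' 1).comp ?_
  refine Continuous.div_const ?_ _
  simp only [aa]
  push_cast
  refine continuous_finsetSum _ fun j _ => Continuous.mul ?_ continuous_const
  exact (continuous_of_discreteTopology (f := fun a : Fin 2 => ((a : ℕ) : ℝ))).comp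
    (continuous_apply _)

theorem ee_far' (u u' : ℕ → Fin 2) (j : ℕ) (h : u (Nat.unpair j).1 = 1)
    (h' : u' (Nat.unpair j).1 = 0) : 1 / 6 < ‖ee u (j + 1) - ee u' (j + 1)‖ := by
  have h1 : aa u (j + 1) = aa u j + 4 ^ j := by
    simp only [aa, Finset.sum_range_succ, h]; simp
  have h2 : aa u' (j + 1) = aa u' j := by
    simp only [aa, Finset.sum_range_succ, h']; simp
  have h3 : (3 : ℝ) * aa u j < 4 ^ j := by exact_mod_cast aa_lt u j
  have h4 : (3 : ℝ) * aa u' j < 4 ^ j := by exact_mod_cast aa_lt u' j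
  have h5 : (0 : ℝ) ≤ aa u j := by positivity
  have h6 : (0 : ℝ) ≤ aa u' j := by positivity
  have hp : (0 : ℝ) < 4 ^ j := by positivity
  simp only [ee, ← AddCircle.coe_sub, h1, h2]
  push_cast
  have hlo : (1 : ℝ) / 6 < (aa u j + 4 ^ j) / 4 ^ (j + 1) - aa u' j / 4 ^ (j + 1) := by
    rw [← sub_div, lt_div_iff₀ (by positivity), pow_succ]; linarith
  have hhi : ((aa u j : ℝ) + 4 ^ j) / 4 ^ (j + 1) - aa u' j / 4 ^ (j + 1) ≤ 1 / 2 := by
    rw [← sub_div, div_le_iff₀ (by positivity), pow_succ]; linarith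
  rw [(AddCircle.norm_coe_eq_abs_iff 1 one_ne_zero).mpr
    (by rw [abs_of_pos (by linarith)]; simpa using hhi), abs_of_pos (by linarith)]
  exact hlo

theorem ee_far (u u' : ℕ → Fin 2) (h : u ≠ u') (N : ℕ) :
    ∃ m, N ≤ m ∧ 1 / 6 < ‖ee u m - ee u' m‖ := by
  obtain ⟨i, hi⟩ := Function.ne_iff.mp h
  refine ⟨Nat.pair i N + 1, (Nat.right_le_pair i N).trans (Nat.le_succ _), ?_⟩
  have : (u i = 1 ∧ u' i = 0) ∨ (u' i = 1 ∧ u i = 0) := by
    revert hi; generalize u i = a; generalize u' i = b; revert a b; decide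
  rcases this with ⟨h1, h2⟩ | ⟨h1, h2⟩
  · exact ee_far' u u' _ (by simpa using h1) (by simpa using h2)
  · rw [norm_sub_rev]
    exact ee_far' u' u _ (by simpa using h1) (by simpa using h2)

noncomputable def eS (u : ℕ → Fin 2) : Sol := ⟨ee u, ee_mem u⟩

theorem eS_cont : Continuous eS := ee_cont.subtype_mk _

theorem eS_inj : Function.Injective eS := fun u u' h => by
  by_contra hne
  obtain ⟨m, -, hm⟩ := ee_far u u' hne 0
  have : ee u = ee u' := congrArg Subtype.val h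
  rw [this, sub_self, norm_zero] at hm
  norm_num at hm

theorem eS_uniq (S : Set Sol) (hS : IsClosed S) (hc : IsPreconnected S) (hne : S ≠ univ)
    (u u' : ℕ → Fin 2) (hu : eS u ∈ S) (hu' : eS u' ∈ S) : u = u' := by
  by_contra h
  obtain ⟨n, hn⟩ := sol_close S hS hc hne
  obtain ⟨m, hm, hm'⟩ := ee_far u u' h (n + 2)
  obtain ⟨r, rfl⟩ := Nat.exists_eq_add_of_le hm
  have := hn (2 + r) _ hu _ hu'
  rw [← add_assoc] at this
  have h2 : (1 : ℝ) / 4 ^ (2 + r) ≤ 1 / 16 := by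
    apply one_div_le_one_div_of_le (by norm_num)
    rw [pow_add]
    have : (1 : ℝ) ≤ 4 ^ r := one_le_pow₀ (by norm_num)
    nlinarith
  change ‖ee u _ - ee u' _‖ ≤ _ at this
  linarith

theorem eS_not_surj : ∃ y : Sol, y ∉ range eS := by
  refine ⟨⟨line (1 / 2), subset_closure (mem_range_self _)⟩, ?_⟩
  rintro ⟨u, hu⟩
  have := congrArg (fun y : Sol => ‖y.1 0‖) hu
  have h2 := ph_half 0
  simp only [eS, ee, aa, line, ph] at this h2
  simp at this h2
  rw [← this] at h2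
  simp at h2

/-! ### the interval split at the rationals -/

open Classical in
noncomputable def cpt (t : ℝ) : ℝ × (ℚ → Bool) := (t, fun q => decide ((q : ℝ) < t))

def Spl : Set (ℝ × (ℚ → Bool)) := closure (cpt '' {t | t ∈ Icc (0 : ℝ) 1 ∧ Irrational t})

theorem spl_prop (c : ℝ × (ℚ → Bool)) (hc : c ∈ Spl) : c.1 ∈ Icc (0 : ℝ) 1 ∧
    ∀ q : ℚ, (c.2 q = true ∨ c.1 ≤ q) ∧ (c.2 q = false ∨ (q : ℝ) ≤ c.1) := by
  refine closure_minimal (t := {c : ℝ × (ℚ → Bool) | c.1 ∈ Icc (0 : ℝ) 1 ∧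
    ∀ q : ℚ, (c.2 q = true ∨ c.1 ≤ q) ∧ (c.2 q = false ∨ (q : ℝ) ≤ c.1)}) ?_ ?_ hc
  · rintro _ ⟨t, ht, rfl⟩
    refine ⟨ht.1, fun q => ?_⟩
    simp only [cpt, decide_eq_true_eq, decide_eq_false_iff_not, not_lt]
    exact ⟨lt_or_ge _ _, le_total _ _⟩
  · refine IsClosed.inter (isClosed_Icc.preimage continuous_fst) ?_
    change IsClosed {c : ℝ × (ℚ → Bool) | ∀ q : ℚ, _}
    rw [ofPred_forall]
    refine isClosed_iInter fun q => IsClosed.inter (IsClosed.union ?_ ?_) (IsClosed.union ?_ ?_)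
    · exact isClosed_eq (by fun_prop) continuous_const
    · exact isClosed_le continuous_fst continuous_const
    · exact isClosed_eq (by fun_prop) continuous_const
    · exact isClosed_le continuous_const continuous_fst

theorem spl_compact : IsCompact Spl :=
  ((isCompact_Icc (a := (0 : ℝ)) (b := 1)).prod isCompact_univ).of_isClosed_subset
    isClosed_closure fun c hc => ⟨(spl_prop c hc).1, trivial⟩

instance : CompactSpace Spl := isCompact_iff_compactSpace.mp spl_compact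

def kap (c : Spl) : ℝ := c.1.1

theorem kap_cont : Continuous kap := by unfold kap; fun_prop

theorem kap_range : range kap = Icc 0 1 := by
  apply Subset.antisymm
  · rintro _ ⟨c, rfl⟩; exact (spl_prop _ c.2).1
  · have hcl : IsClosed (range kap) := (isCompact_range kap_cont).isClosed
    have h1 : Ioo (0 : ℝ) 1 ⊆ closure (Ioo 0 1 ∩ {t | Irrational t}) :=
      dense_irrational.open_subset_closure_inter isOpen_Ioo
    rw [← closure_Ioo zero_ne_one]
    refine closure_minimal (h1.trans (closure_minimal ?_ hcl)) hcl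
    rintro t ⟨ht, ht'⟩
    exact ⟨⟨cpt t, subset_closure ⟨t, ⟨Ioo_subset_Icc_self ht, ht'⟩, rfl⟩⟩, rfl⟩

theorem kap_gap (s s' : ℝ) (h : s < s') : ∃ t, s < t ∧ t < s' ∧ ∃ Q : Set Spl, IsClopen Q ∧
    (∀ c, kap c < t → c ∈ Q) ∧ ∀ c, t < kap c → c ∉ Q := by
  obtain ⟨q, h1, h2⟩ := exists_rat_btwn h
  refine ⟨q, h1, h2, {c | c.1.2 q = false}, ?_, ?_, ?_⟩
  · exact (isClopen_discrete {false}).preimage (f := fun c : Spl => c.1.2 q) (by fun_prop)
  · intro c hc
    rcases ((spl_prop _ c.2).2 q).2 with h | h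
    · exact h
    · exact absurd hc (not_lt.mpr h)
  · intro c hc
    rcases ((spl_prop _ c.2).2 q).1 with h | h
    · simp [h]
    · exact absurd hc (not_lt.mpr h)

theorem kap_box (O : Set Spl) (hO : IsOpen O) (hne : O.Nonempty) :
    ∃ a b, 0 ≤ a ∧ a < b ∧ b ≤ 1 ∧ ∀ c, kap c ∈ Icc a b → c ∈ O := by
  obtain ⟨O', hO', rfl⟩ := isOpen_induced_iff.mp hO
  obtain ⟨c0, hc0⟩ := hne
  obtain ⟨_, h1, t, ⟨ht, hirr⟩, rfl⟩ := mem_closure_iff.mp c0.2 O' hO' hc0
  have hcl : IsClosed (kap '' (Subtype.val ⁻¹' O')ᶜ) :=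
    ((hO.isClosed_compl.isCompact).image kap_cont).isClosed
  have hnot : t ∉ kap '' (Subtype.val ⁻¹' O')ᶜ := by
    rintro ⟨c, hc, hct⟩
    apply hc
    have : c.1 = cpt t := by
      refine Prod.ext hct (funext fun q => ?_)
      have hq := (spl_prop _ c.2).2 q
      change c.1.1 = t at hct
      rw [hct] at hq
      have hne : (q : ℝ) ≠ t := fun h => hirr ⟨q, h⟩
      simp only [cpt]
      rcases lt_or_gt_of_ne hne with h | h
      · rcases hq.1 with h' | h'
        · simp [h, h']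
        · exact absurd h (not_lt.mpr h')
      · rcases hq.2 with h' | h'
        · simp [h.le, h']
        · exact absurd h (not_lt.mpr h')
    change c.1 ∈ O'
    rwa [this]
  obtain ⟨ε, hε, hball⟩ := Metric.isOpen_iff.mp hcl.isOpen_compl t hnot
  have ht1 : t < 1 := lt_of_le_of_ne ht.2 (by rintro rfl; exact hirr ⟨1, by simp⟩)
  refine ⟨t, min 1 (t + ε / 2), ht.1, lt_min ht1 (by linarith), min_le_left _ _, fun c hc => ?_⟩
  by_contra hcO
  refine hball (a := kap c) ?_ ⟨c, hcO, rfl⟩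
  rw [Metric.mem_ball, Real.dist_eq, abs_lt]
  have := hc.2.trans (min_le_right _ _)
  constructor <;> linarith [hc.1]

end Pool.Agent.Lib.helper31.Cont1
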