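import Mathlib

namespace Pool.Agent.Lib.helper31.RecDefs

open Filter Topology

/-- The return set `N(x,U) = {n ≥ 1 : fⁿ x ∈ U}`. -/
def RetSet {X : Type*} (f : X → X) (x : X) (U : Set X) : Set ℕ := {n | 1 ≤ n ∧ f^[n] x ∈ U}

/-- The vectors all of whose return sets have property `P` are dense. -/
def IsRecurrentOp {X : Type*} [TopologicalSpace X] (P : Set ℕ → Prop) (f : X → X) : Prop :=
  Dense {x | ∀ U ∈ 𝓝 x, P (RetSet f x U)}

/-- Bounded gaps. -/
def Syndetic (A : Set ℕ) : Prop := ∃ L : ℕ, ∀ m : ℕ, ∃ n ∈ A, m ≤ n ∧ n ≤ m + L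

/-- `A` meets every set of finite sums of a sequence of positive integers. -/
def IPStar (A : Set ℕ) : Prop :=
  ∀ a : ℕ → ℕ, (∀ i, 1 ≤ a i) → ∃ F : Finset ℕ, F.Nonempty ∧ ∑ i ∈ F, a i ∈ A

/-- `A` meets every set of differences of a strictly increasing sequence of positive integers. -/
def DeltaStar (A : Set ℕ) : Prop :=
  ∀ s : ℕ → ℕ, StrictMono s → (∀ i, 1 ≤ s i) → ∃ i j, i < j ∧ s j - s i ∈ A

/-- Upper Banach density `lim_N sup_m |A ∩ [m+1, m+N]| / N`. -/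
noncomputable def upperBanachDensity (A : Set ℕ) : ℝ :=
  limsup (fun N : ℕ => ⨆ m : ℕ, ((A ∩ Set.Icc (m + 1) (m + N)).ncard : ℝ) / N) atTop

end Pool.Agent.Lib.helper31.RecDefs
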