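import Pool.Agent.Lib.helper31.ShiftC0

set_option autoImplicit false

namespace Pool.Agent.H31DC

open Filter Topology Real Pool.Agent.H31.ShiftC0

def H : ℕ → ℕ
  | 0 => 0
  | k + 1 => H k + (k + 1) ^ 2 * (H k + k + 1)
def hh (k : ℕ) : ℕ := (k + 1) ^ 2 * (H k + k + 1)
def R : ℕ → ℕ
  | 0 => 1
  | k + 1 => (k + 2) * (8 * hh k * 2 ^ (k + 1) * R k)
def P (k : ℕ) : ℕ := 8 * hh k * 2 ^ (k + 1) * R k

lemma hh_pos (k : ℕ) : 0 < hh k := by unfold hh; positivity
lemma R_pos (k : ℕ) : 0 < R k := by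
  induction k with
  | zero => exact one_pos
  | succ k ih => have := hh_pos k; unfold R; positivity
lemma P_pos (k : ℕ) : 0 < P k := by have := hh_pos k; have := R_pos k; unfold P; positivity
lemma RP (k : ℕ) : R k ≤ P k := Nat.le_mul_of_pos_left _ (by have := hh_pos k; positivity)
lemma PR (k : ℕ) : R (k + 1) = (k + 2) * P k := rfl
lemma P_lt (k : ℕ) : P k < R (k + 1) := by rw [PR]; nlinarith [P_pos k]
lemma R_mono : Monotone R := monotone_nat_of_le_succ fun k => (RP k).trans (P_lt k).le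
lemma P_mono : StrictMono P := strictMono_nat_of_lt_succ fun k => (P_lt k).trans_le (RP _)
lemma H_mono : Monotone H := monotone_nat_of_le_succ fun _ => Nat.le_add_right _ _
lemma P_dvd {l k : ℕ} (h : l ≤ k) : P l ∣ P k := by
  induction h with
  | refl => exact dvd_rfl
  | step _ ih => exact ih.trans (Dvd.dvd.mul_left (Dvd.intro_left _ (PR _).symm) _)
lemma H_sum (k : ℕ) : ∑ l ∈ Finset.range k, (hh l : ℝ) = H k := by
  induction k with
  | zero => simp [H]
  | succ k ih => rw [Finset.sum_range_succ, ih, show H (k + 1) = H k + hh k from rfl]; push_cast; rfl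

noncomputable def D (l i : ℕ) : ℝ := hh l * (cos (2 * π * i / P l) - 1)
noncomputable def a (i : ℕ) : ℝ := ∑' l, D l i

lemma D_lip (l i j : ℕ) : |D l (i + j) - D l i| ≤ j / R l * (1 / 2) ^ (l + 1) := by
  have h1 : (0 : ℝ) < hh l := by exact_mod_cast hh_pos l
  have h2 : (0 : ℝ) < R l := by exact_mod_cast R_pos l
  have h3 : (0 : ℝ) < P l := by exact_mod_cast P_pos l
  have := abs_cos_sub_cos_le (2 * π * (i + j : ℕ) / P l) (2 * π * i / P l)
  rw [show 2 * π * (i + j : ℕ) / P l - 2 * π * i / P l = 2 * π * j / P l by push_cast; ring,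
    abs_of_nonneg (by positivity : 0 ≤ 2 * π * j / P l)] at this
  rw [D, D, ← mul_sub, abs_mul, abs_of_pos h1, sub_sub_sub_cancel_right]
  calc _ ≤ hh l * (2 * π * j / P l) := by gcongr
    _ ≤ hh l * (2 * 4 * j / P l) := by gcongr; exact pi_le_four
    _ = _ := by unfold P; push_cast; rw [one_div_pow]; field_simp; ring

lemma D_small {l j : ℕ} (i : ℕ) (h : j ≤ R l) : |D l (i + j) - D l i| ≤ (1 / 2) ^ (l + 1) :=
  (D_lip l i j).trans (mul_le_of_le_one_left (by positivity)
    (div_le_one_of_le₀ (by exact_mod_cast h) (by positivity)))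

lemma geo : HasSum (fun l : ℕ => (1 / 2 : ℝ) ^ (l + 1)) 1 := by
  have := hasSum_geometric_two.mul_left (1 / 2)
  rw [show (1 / 2 : ℝ) * 2 = 1 by norm_num] at this
  simpa only [pow_succ'] using this

lemma sD (i : ℕ) : Summable fun l => D l i := by
  refine Summable.of_norm_bounded (geo.summable.mul_left (i : ℝ)) fun l => ?_
  have := D_lip l 0 i
  rw [zero_add, show D l 0 = 0 by simp [D], sub_zero] at this
  refine this.trans (mul_le_mul_of_nonneg_right (div_le_self (by positivity) ?_) (by positivity))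
  exact_mod_cast R_pos l

lemma cmp {x y : ℕ} (s : Finset ℕ) (b : ℕ → ℝ)
    (h : ∀ l, D l x - D l y ≤ (if l ∈ s then b l else 0) + (1 / 2) ^ (l + 1)) :
    a x - a y ≤ ∑ l ∈ s, b l + 1 := by
  have h1 : HasSum (fun l => if l ∈ s then b l else 0) (∑ l ∈ s, b l) := by
    have := hasSum_sum_of_ne_finset_zero (f := fun l => if l ∈ s then b l else 0) (s := s)
      (L := SummationFilter.unconditional ℕ) fun l hl => if_neg hl
    rwa [Finset.sum_congr rfl fun l hl => if_pos hl] at this
  exact hasSum_le h ((sD x).hasSum.sub (sD y).hasSum) (h1.add geo)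

lemma D_bd (l i : ℕ) : D l i ≤ 0 ∧ -(2 * hh l) ≤ D l i := by
  have h1 : (0 : ℝ) ≤ hh l := Nat.cast_nonneg _
  unfold D
  constructor <;> nlinarith [cos_le_one (2 * π * i / P l), neg_one_le_cos (2 * π * i / P l)]

lemma fA {k j : ℕ} (i : ℕ) (h : j ≤ R k) : a (i + j) - a i ≤ 2 * H k + 1 := by
  rw [← H_sum, Finset.mul_sum]
  refine cmp _ _ fun l => ?_
  split_ifs with e
  · linarith [(D_bd l (i + j)).1, (D_bd l i).2, show (0 : ℝ) ≤ (1 / 2) ^ (l + 1) by positivity]
  · linarith [le_abs_self (D l (i + j) - D l i), D_small i (h.trans (R_mono (by simpa using e)))]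

lemma D_per {l k : ℕ} (h : l ≤ k) (i : ℕ) : D l (i + P k) = D l i := by
  obtain ⟨c, hc⟩ := P_dvd h
  have h3 : (P l : ℝ) ≠ 0 := by exact_mod_cast (P_pos l).ne'
  rw [D, D, hc, show 2 * π * (i + P l * c : ℕ) / P l = 2 * π * i / P l + c * (2 * π) by
    push_cast; field_simp, cos_add_nat_mul_two_pi]

lemma fB (k i : ℕ) : a (i + P k) - a i ≤ 1 := by
  have := cmp (x := i + P k) (y := i) ∅ 0 fun l => by
    rcases le_or_gt l k with e | e
    · rw [D_per e]; simp
    · simpa using (le_abs_self _).trans (D_small i ((P_lt k).le.trans (R_mono e)))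
  simpa using this

lemma fC {k i j : ℕ} (e : i + j = P k) (h1 : 2 * j ≤ P k) (h2 : P k ≤ (k + 1) * j) :
    2 * H k + 1 + 2 * k ≤ a (i + j) - a i := by
  have h3 : (0 : ℝ) < P k := by exact_mod_cast P_pos k
  have key : a i - a (i + j) ≤ ∑ _l ∈ ({k} : Finset ℕ), -(2 * ((H k : ℝ) + k + 1)) + 1 := by
    refine cmp (x := i) (y := i + j) {k} (fun _ => -(2 * (H k + k + 1))) fun l => ?_
    have p : (0 : ℝ) ≤ (1 / 2) ^ (l + 1) := by positivity
    have z : l ≤ k → D l (i + j) = 0 := fun h => by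
      rw [e, ← zero_add (P k), D_per h]; simp [D]
    split_ifs with c
    · obtain rfl := Finset.mem_singleton.1 c
      have c1 : cos (2 * π * i / P l) = cos (2 * π * j / P l) := by
        rw [← cos_two_pi_sub, ← e]; congr 1; rw [← e] at h3; push_cast at *; field_simp; ring
      have q1 : (2 * j : ℝ) ≤ P l := by exact_mod_cast h1
      have q2 : (P l : ℝ) ≤ (l + 1) * j := by exact_mod_cast h2
      have c2 := cos_le_one_sub_mul_cos_sq (x := 2 * π * j / P l) (by
        rw [abs_of_nonneg (by positivity), div_le_iff₀ h3]; nlinarith [pi_pos])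
      rw [show 2 / π ^ 2 * (2 * π * j / P l) ^ 2 = 8 * (j / P l) ^ 2 by field_simp; ring] at c2
      have q3 : (1 : ℝ) ≤ ((l + 1) * (j / P l)) ^ 2 :=
        one_le_pow₀ (by rw [← mul_div_assoc, le_div_iff₀ h3]; linarith)
      rw [z le_rfl, D, c1, hh]
      push_cast
      have q4 : (0 : ℝ) ≤ H l + l + 1 := by positivity
      nlinarith [mul_le_mul_of_nonneg_left c2 (mul_nonneg (sq_nonneg (l + 1 : ℝ)) q4),
        mul_le_mul_of_nonneg_left q3 q4]
    · rcases le_or_gt l k with g | g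
      · rw [z g]; linarith [(D_bd l i).1]
      · linarith [neg_le_abs (D l (i + j) - D l i),
          D_small i (show j ≤ R l from le_trans (by omega) ((P_lt k).le.trans (R_mono g)))]
  simp only [Finset.sum_singleton] at key
  linarith

lemma wt (i : ℕ) : |exp (a (i + 1) - a i)| ≤ exp 1 := by
  rw [abs_of_pos (exp_pos _)]
  exact exp_le_exp.2 (by simpa [H] using fA (k := 0) (j := 1) i le_rfl)

lemma st (x : X) : Tendsto (fun i : ℕ => exp (a (i + 1) - a i) * x (i + 1)) atTop (𝓝 0) := by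
  have h1 : Tendsto (fun i : ℕ => exp 1 * |x (i + 1)|) atTop (𝓝 0) := by
    simpa using ((tends x).comp (tendsto_add_atTop_nat 1)).abs.const_mul (exp 1)
  refine squeeze_zero_norm (fun i => ?_) h1
  rw [Real.norm_eq_abs, abs_mul]
  exact mul_le_mul_of_nonneg_right (wt i) (abs_nonneg _)

noncomputable def S : X →L[ℝ] X :=
  LinearMap.mkContinuous
    { toFun := fun x => mk _ (st x)
      map_add' := fun x y => by ext i; simp; ring
      map_smul' := fun c x => by ext i; simp; ring } (exp 1) (fun x => by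
      refine norm_le _ (by positivity) fun i => ?_
      simp only [LinearMap.coe_mk, AddHom.coe_mk, mk_apply]
      rw [abs_mul]
      exact mul_le_mul (wt i) (abs_le_norm x _) (abs_nonneg _) (exp_pos _).le)

lemma S_pow (n : ℕ) : ∀ (x : X) (i : ℕ), (S ^ n) x i = exp (a (i + n) - a i) * x (i + n) := by
  induction n with
  | zero => intro x i; simp
  | succ n ih =>
    intro x i
    rw [pow_succ', mul_apply_eq_comp]
    show exp (a (i + 1) - a i) * (S ^ n) x (i + 1) = _
    rw [ih, ← mul_assoc, ← exp_add, show i + 1 + n = i + (n + 1) by ring]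
    congr 2; ring

lemma S_lim (x : X) : Tendsto (fun k => ‖(S ^ P k) x‖) atTop (𝓝 0) := by
  rw [Metric.tendsto_atTop]
  intro ε hε
  obtain ⟨N, hN⟩ := Metric.tendsto_atTop.1 (tends x) (ε / 4) (by positivity)
  refine ⟨N, fun k hk => ?_⟩
  rw [dist_zero_right, norm_norm]
  refine (norm_le _ (C := 3 * (ε / 4)) (by positivity) fun i => ?_).trans_lt (by linarith)
  have := hN (i + P k) (by have := P_mono.le_apply (x := k); omega)
  rw [dist_zero_right, Real.norm_eq_abs] at this
  rw [S_pow, abs_mul, abs_of_pos (exp_pos _)]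
  exact mul_le_mul ((exp_le_exp.2 (fB k i)).trans exp_one_lt_three.le) this.le (abs_nonneg _)
    (by norm_num)

noncomputable def c (k : ℕ) : ℝ := exp (-(2 * H k + 1 + k))
noncomputable def z0 : ℕ → ℝ := Function.extend P c 0

lemma z0_bd {k i : ℕ} (h : P k ≤ i) : |z0 i| ≤ c k := by
  by_cases e : ∃ l, P l = i
  · obtain ⟨l, rfl⟩ := e
    have hl := P_mono.le_iff_le.1 h
    have h1 : (H k : ℝ) ≤ H l := by exact_mod_cast H_mono hl
    have h2 : (k : ℝ) ≤ l := by exact_mod_cast hl
    rw [z0, P_mono.injective.extend_apply, c, c, abs_of_pos (exp_pos _)]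
    exact exp_le_exp.2 (by linarith)
  · rw [z0, Function.extend_apply' _ _ _ e]; simpa [c] using (exp_pos _).le

lemma elim : Tendsto (fun k : ℕ => exp (-(k : ℝ))) atTop (𝓝 0) :=
  tendsto_exp_neg_atTop_nhds_zero.comp tendsto_natCast_atTop_atTop

lemma z0_lim : Tendsto z0 atTop (𝓝 0) := by
  rw [Metric.tendsto_atTop]
  intro ε hε
  obtain ⟨k, hk⟩ := (elim.eventually (gt_mem_nhds hε)).exists
  refine ⟨P k, fun i hi => ?_⟩
  rw [dist_zero_right, Real.norm_eq_abs]
  refine (z0_bd hi).trans_lt (lt_of_le_of_lt (exp_le_exp.2 ?_) hk)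
  linarith [(Nat.cast_nonneg (H k) : (0 : ℝ) ≤ H k)]

noncomputable def z : X := mk z0 z0_lim

lemma z_small {k j : ℕ} (h1 : P k < j) (h2 : j ≤ R (k + 1)) : ‖(S ^ j) z‖ ≤ exp (-(k : ℝ)) := by
  refine norm_le _ (exp_pos _).le fun i => ?_
  rw [S_pow, abs_mul, abs_of_pos (exp_pos _), z, mk_apply]
  by_cases e : P (k + 1) ≤ i + j
  · refine (mul_le_mul (exp_le_exp.2 (fA i h2)) (z0_bd e) (abs_nonneg _) (exp_pos _).le).trans ?_
    rw [c, ← exp_add]; push_cast; exact exp_le_exp.2 (by linarith)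
  · rw [z0, Function.extend_apply' _ _ _ (by
      rintro ⟨l, hl⟩
      have := P_mono.lt_iff_lt.1 (show P k < P l by omega)
      have := P_mono.lt_iff_lt.1 (show P l < P (k + 1) by omega)
      omega)]
    simpa using (exp_pos _).le

lemma z_big {k j : ℕ} (h1 : 2 * j ≤ P k) (h2 : P k ≤ (k + 1) * j) : exp k ≤ ‖(S ^ j) z‖ := by
  have e : P k - j + j = P k := by omega
  refine le_trans ?_ ((le_abs_self _).trans (abs_le_norm _ (P k - j)))
  have := fC e h1 h2
  rw [S_pow, z, mk_apply]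
  rw [e] at this ⊢
  rw [z0, P_mono.injective.extend_apply, c, ← exp_add]
  exact exp_le_exp.2 (by linarith)

end Pool.Agent.H31DC
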