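import Mathlib

set_option autoImplicit false

namespace Pool.Agent.H31Dust

open Filter Topology Set Real

noncomputable def sg (ε : ℕ → Bool) : ℝ :=
  ∑' m : ℕ, (if ε m then (3/4 : ℝ) * (1/4 : ℝ) ^ m else 0)

def D (p l : ℝ) : Set ℝ := {x | ∃ ε, x = p + l * sg ε}

lemma hg : HasSum (fun m : ℕ => (3/4 : ℝ) * (1/4 : ℝ) ^ m) 1 := by
  have := (hasSum_geometric_of_lt_one (r := (1/4 : ℝ)) (by norm_num) (by norm_num)).mul_left (3/4)
  norm_num at this ⊢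
  exact this

lemma sm (ε : ℕ → Bool) : Summable fun m => if ε m then (3/4 : ℝ) * (1/4 : ℝ) ^ m else 0 :=
  Summable.of_nonneg_of_le (fun m => by split_ifs <;> positivity)
    (fun m => by split_ifs; exacts [le_rfl, by positivity]) hg.summable

lemma sg_bd (ε : ℕ → Bool) : 0 ≤ sg ε ∧ sg ε ≤ 1 :=
  ⟨tsum_nonneg fun m => by split_ifs <;> positivity,
    hasSum_le (fun m => by split_ifs; exacts [le_rfl, by positivity]) (sm ε).hasSum hg⟩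

lemma sg_succ (ε : ℕ → Bool) :
    sg ε = (if ε 0 then 3 / 4 else 0) + 1 / 4 * sg fun m => ε (m + 1) := by
  unfold sg
  rw [(sm ε).tsum_eq_zero_add, ← tsum_mul_left]
  congr 1
  · simp
  · refine tsum_congr fun m => ?_
    split_ifs <;> ring

lemma D_bd {p l x : ℝ} (hl : 0 ≤ l) (hx : x ∈ D p l) : p ≤ x ∧ x ≤ p + l := by
  obtain ⟨ε, rfl⟩ := hx
  obtain ⟨h1, h2⟩ := sg_bd ε
  constructor <;> nlinarith

lemma D_split {p l x : ℝ} (hx : x ∈ D p l) : x ∈ D p (l / 4) ∨ x ∈ D (p + 3 * l / 4) (l / 4) := by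
  obtain ⟨ε, rfl⟩ := hx
  rw [sg_succ]
  split_ifs
  · exact Or.inr ⟨fun m => ε (m + 1), by ring⟩
  · exact Or.inl ⟨fun m => ε (m + 1), by ring⟩

lemma D_lev {p l x : ℝ} (hx : x ∈ D p l) (J : ℕ) :
    ∃ t : ℕ, x ∈ D (p + t * (l / 4 ^ J)) (l / 4 ^ J) := by
  induction J with
  | zero => exact ⟨0, by simpa using hx⟩
  | succ J ih =>
    obtain ⟨t, ht⟩ := ih
    have e : l / 4 ^ (J + 1) = l / 4 ^ J / 4 := by rw [pow_succ, div_div]
    rw [e]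
    rcases D_split ht with h | h
    · exact ⟨4 * t, by convert h using 2; push_cast; ring⟩
    · exact ⟨4 * t + 3, by convert h using 2; push_cast; ring⟩

def Ap (x u : ℕ → ℂ) (η lam : ℝ) (k : ℕ) : Prop :=
  ∀ j, ‖((exp (k * lam) : ℝ) : ℂ) * x (j + k) - u j‖ ≤ η

def Good (u v : ℕ → ℂ) (L : ℕ) (M η : ℝ) (S : Set (ℝ × ℝ)) (p q n N : ℝ) : Prop :=
  n ≤ N ∧ ∃ x y : ℕ → ℂ, (∀ j : ℕ, ((j : ℝ) < n ∨ N + L ≤ j) → x j = 0 ∧ y j = 0) ∧
    (∀ j, ‖x j‖ ≤ M * exp (-(p * n)) ∧ ‖y j‖ ≤ M * exp (-(q * n))) ∧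
    ∀ z ∈ S, ∃ k : ℕ, n ≤ k ∧ (k : ℝ) ≤ N ∧ Ap x u η z.1 k ∧ Ap y v η z.2 k

variable {u v : ℕ → ℂ} {L : ℕ} {M η : ℝ}

lemma Good.mono {S S' : Set (ℝ × ℝ)} {p q n N p' q' N' : ℝ} (h : Good u v L M η S p q n N)
    (hS : S' ⊆ S) (hp : p' ≤ p) (hq : q' ≤ q) (hN : N ≤ N') (hn : 0 ≤ n) (hM : 0 ≤ M) :
    Good u v L M η S' p' q' n N' := by
  obtain ⟨h0, x, y, h1, h2, h3⟩ := h
  refine ⟨h0.trans hN, x, y, fun j hj => h1 j (hj.imp_right fun a => by linarith),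
    fun j => ⟨(h2 j).1.trans ?_, (h2 j).2.trans ?_⟩, fun z hz => ?_⟩
  · gcongr
  · gcongr
  · obtain ⟨k, a, b, c⟩ := h3 z (hS hz)
    exact ⟨k, a, b.trans hN, c⟩

lemma one {x1 x2 : ℕ → ℂ} {N1 n2 B lam : ℝ} (hx1 : ∀ j : ℕ, N1 + L ≤ j → x1 j = 0)
    (hx2 : ∀ j : ℕ, (j : ℝ) < n2 → x2 j = 0) (h12 : N1 + L ≤ n2) (hu : ∀ j, L ≤ j → u j = 0)
    (b2 : ∀ j, ‖x2 j‖ ≤ B) {k : ℕ} (hk : (k : ℝ) ≤ N1) (hl : exp (k * lam) * B ≤ η)
    (h : Ap x1 u η lam k) : Ap (x1 + x2) u η lam k := by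
  intro j
  by_cases a : ((j + k : ℕ) : ℝ) < n2
  · rw [Pi.add_apply, hx2 _ a, add_zero]; exact h j
  · have a' := not_lt.1 a
    have : L ≤ j := by
      have : (L : ℝ) ≤ j := by push_cast at a'; linarith
      exact_mod_cast this
    rw [Pi.add_apply, hx1 _ (h12.trans a'), zero_add, hu j this, sub_zero, norm_mul,
      Complex.norm_real, Real.norm_of_nonneg (exp_pos _).le]
    exact (mul_le_mul_of_nonneg_left (b2 _) (exp_pos _).le).trans hl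

lemma two {x1 x2 : ℕ → ℂ} {N1 lam : ℝ} (hx1 : ∀ j : ℕ, N1 ≤ j → x1 j = 0) {k : ℕ}
    (hk : N1 ≤ k) (h : Ap x2 u η lam k) : Ap (x1 + x2) u η lam k := by
  intro j
  rw [Pi.add_apply, hx1 _ (by push_cast; linarith [(Nat.cast_nonneg j : (0 : ℝ) ≤ j)]), zero_add]
  exact h j

lemma ex_le {k lam P N C M η B : ℝ} (hk0 : 0 ≤ k) (hk : k ≤ N) (hl : lam ≤ P) (hP : 0 ≤ P)
    (h : P * N + C ≤ B) (hM : 0 ≤ M) (hC : M * exp (-C) ≤ η) :
    exp (k * lam) * (M * exp (-B)) ≤ η := by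
  refine le_trans ?_ hC
  rw [mul_left_comm, ← exp_add]
  have : k * lam ≤ P * N := by nlinarith [mul_le_mul_of_nonneg_left hl hk0]
  gcongr
  linarith

structure Par (u v : ℕ → ℂ) (L : ℕ) (M η a C τ : ℝ) : Prop where
  hu : ∀ j, L ≤ j → u j = 0
  hv : ∀ j, L ≤ j → v j = 0
  bu : ∀ j, ‖u j‖ ≤ M
  bv : ∀ j, ‖v j‖ ≤ M
  ha : 0 < a
  hC : 0 ≤ C
  hC' : M * exp (-C) ≤ η
  hτ : M * (exp τ - 1) ≤ η

variable {a C τ : ℝ}

lemma Par.hM (P : Par u v L M η a C τ) : 0 ≤ M := (norm_nonneg _).trans (P.bu 0)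

lemma concat (P : Par u v L M η a C τ) {S1 S2 : Set (ℝ × ℝ)} {p q l n1 N1 n2 N2 : ℝ}
    (hp : a ≤ p) (hq : a ≤ q) (hl : 0 ≤ l) (hn : 0 ≤ n1)
    (hS : ∀ z ∈ S1, z.1 ≤ p + l ∧ z.2 ≤ q + l) (h1 : Good u v L M η S1 p q n1 N1)
    (h2 : Good u v L M η S2 p q n2 N2) (hg : (N1 + (C / a + L)) * exp (l / a) ≤ n2) :
    Good u v L M η (S1 ∪ S2) p q n1 N2 := by
  obtain ⟨a0, x1, y1, a1, a2, a3⟩ := h1
  obtain ⟨b0, x2, y2, b1, b2, b3⟩ := h2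
  have ha := P.ha
  have hM := P.hM
  have hN : 0 ≤ N1 := hn.trans a0
  have hL : (0 : ℝ) ≤ L := Nat.cast_nonneg L
  have c0 : 0 ≤ C / a := div_nonneg P.hC ha.le
  have c1 : 0 ≤ l / a := div_nonneg hl ha.le
  have g1 : N1 + N1 * (l / a) + C / a + L ≤ n2 := by
    have := mul_le_mul_of_nonneg_left (add_one_le_exp (l / a)) (by positivity : 0 ≤ N1 + (C / a + L))
    nlinarith [mul_nonneg c0 c1, mul_nonneg hL c1]
  have g2 : N1 + L ≤ n2 := by nlinarith [mul_nonneg hN c1]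
  have g3 : ∀ p, a ≤ p → (p + l) * N1 + C ≤ p * n2 := fun p hp => by
    have e1 : l ≤ p * (l / a) := by rw [← mul_div_assoc, le_div_iff₀ ha]; nlinarith
    have e2 : C ≤ p * (C / a) := by rw [← mul_div_assoc, le_div_iff₀ ha]; nlinarith [P.hC]
    have := mul_le_mul_of_nonneg_left g1 (ha.le.trans hp)
    nlinarith [mul_le_mul_of_nonneg_left e1 hN, mul_nonneg (ha.le.trans hp) hL]
  have hp0 := ha.le.trans hp
  have hq0 := ha.le.trans hq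
  have g4 : n1 ≤ n2 := by linarith
  refine ⟨by linarith, x1 + x2, y1 + y2, fun j hj => ?_, fun j => ?_, fun z hz => ?_⟩
  · have e1 := a1 j (hj.imp_right fun a => by linarith)
    have e2 := b1 j (hj.imp_left fun a => by linarith)
    simp [e1, e2]
  · by_cases e : (j : ℝ) < n2
    · simpa [b1 j (Or.inl e)] using a2 j
    · have e1 := a1 j (Or.inr (g2.trans (not_lt.1 e)))
      simp only [Pi.add_apply, e1, zero_add]
      exact ⟨(b2 j).1.trans (by gcongr), (b2 j).2.trans (by gcongr)⟩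
  · rcases hz with hz | hz
    · obtain ⟨k, k1, k2, k3, k4⟩ := a3 z hz
      exact ⟨k, k1, by linarith, one (fun j h => (a1 j (Or.inr h)).1)
        (fun j h => (b1 j (Or.inl h)).1) g2 P.hu (fun j => (b2 j).1) k2
        (ex_le (Nat.cast_nonneg k) k2 (hS z hz).1 (by linarith) (g3 p hp) hM P.hC') k3,
        one (fun j h => (a1 j (Or.inr h)).2)
        (fun j h => (b1 j (Or.inl h)).2) g2 P.hv (fun j => (b2 j).2) k2
        (ex_le (Nat.cast_nonneg k) k2 (hS z hz).2 (by linarith) (g3 q hq) hM P.hC') k4⟩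
    · obtain ⟨k, k1, k2, k3, k4⟩ := b3 z hz
      exact ⟨k, by linarith, k2, two (fun j h => (a1 j (Or.inr h)).1) (g2.trans k1) k3,
        two (fun j h => (a1 j (Or.inr h)).2) (g2.trans k1) k4⟩

def A (u v : ℕ → ℂ) (L : ℕ) (M η a l n N : ℝ) : Prop :=
  ∀ p q, a ≤ p → a ≤ q → Good u v L M η (D p l ×ˢ D q l) p q n N

lemma leaf1 {p l n lam : ℝ} (hu : ∀ j, L ≤ j → u j = 0) (bu : ∀ j, ‖u j‖ ≤ M)
    (hτ : M * (exp τ - 1) ≤ η) (hp : 0 ≤ p) (hl : 0 ≤ l) (hn : 0 ≤ n) (h : (n + 1) * l ≤ τ) :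
    let x : ℕ → ℂ := fun j => if ⌈n⌉₊ ≤ j then (exp (-(⌈n⌉₊ * p)) : ℝ) * u (j - ⌈n⌉₊) else 0
    (∀ j : ℕ, ((j : ℝ) < n ∨ n + 1 + L ≤ j) → x j = 0) ∧ (∀ j, ‖x j‖ ≤ M * exp (-(p * n))) ∧
      (lam ∈ D p l → Ap x u η lam ⌈n⌉₊) := by
  intro x
  have hM : 0 ≤ M := (norm_nonneg _).trans (bu 0)
  have k1 := Nat.le_ceil n
  have k2 := (Nat.ceil_lt_add_one hn).le
  refine ⟨fun j hj => ?_, fun j => ?_, fun hd j => ?_⟩
  · simp only [x]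
    split_ifs with e
    · have e' : (⌈n⌉₊ : ℝ) ≤ j := by exact_mod_cast e
      have : ((⌈n⌉₊ + L : ℕ) : ℝ) ≤ j := by push_cast; rcases hj with hj | hj <;> linarith
      have : ⌈n⌉₊ + L ≤ j := by exact_mod_cast this
      rw [hu _ (by omega), mul_zero]
    · rfl
  · simp only [x]
    split_ifs with e
    · rw [norm_mul, Complex.norm_real, Real.norm_of_nonneg (exp_pos _).le, mul_comm]
      refine mul_le_mul (bu _) (exp_le_exp.2 (by nlinarith)) (exp_pos _).le hM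
    · rw [norm_zero]; positivity
  · obtain ⟨d1, d2⟩ := D_bd hl hd
    simp only [x]
    rw [if_pos (by omega), Nat.add_sub_cancel, ← mul_assoc, ← Complex.ofReal_mul, ← exp_add,
      ← sub_one_mul, norm_mul, ← Complex.ofReal_one, ← Complex.ofReal_sub, Complex.norm_real]
    have k0 : (0 : ℝ) ≤ ⌈n⌉₊ := Nat.cast_nonneg _
    have e1 : 0 ≤ ⌈n⌉₊ * lam + -(⌈n⌉₊ * p) := by nlinarith
    have e2 : ⌈n⌉₊ * lam + -(⌈n⌉₊ * p) ≤ τ := by
      nlinarith [mul_le_mul k2 (by linarith : lam - p ≤ l) (by linarith) (by linarith)]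
    rw [Real.norm_of_nonneg (by linarith [one_le_exp e1]), mul_comm]
    refine le_trans ?_ hτ
    exact mul_le_mul (bu j) (by linarith [exp_le_exp.2 e2]) (by linarith [one_le_exp e1]) hM

lemma leaf (P : Par u v L M η a C τ) {l n : ℝ} (hl : 0 ≤ l) (hn : 0 ≤ n) (h : (n + 1) * l ≤ τ) :
    A u v L M η a l n (n + 1) := by
  intro p q hp hq
  have h1 := fun lam => leaf1 (lam := lam) P.hu P.bu P.hτ (P.ha.le.trans hp) hl hn h
  have h2 := fun lam => leaf1 (lam := lam) P.hv P.bv P.hτ (P.ha.le.trans hq) hl hn h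
  exact ⟨by linarith, _, _, fun j hj => ⟨(h1 0).1 j hj, (h2 0).1 j hj⟩,
    fun j => ⟨(h1 0).2.1 j, (h2 0).2.1 j⟩, fun z hz => ⟨_, Nat.le_ceil n,
      (Nat.ceil_lt_add_one hn).le, (h1 _).2.2 hz.1, (h2 _).2.2 hz.2⟩⟩

lemma four (P : Par u v L M η a C τ) {l n1 N1 n2 N2 n3 N3 n4 N4 : ℝ} (hl : 0 ≤ l) (hn : 0 ≤ n1)
    (hn2 : 0 ≤ n2) (hn3 : 0 ≤ n3) (hn4 : 0 ≤ n4)
    (h1 : A u v L M η a (l / 4) n1 N1) (h2 : A u v L M η a (l / 4) n2 N2)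
    (h3 : A u v L M η a (l / 4) n3 N3) (h4 : A u v L M η a (l / 4) n4 N4)
    (g1 : (N1 + (C / a + L)) * exp (l / a) ≤ n2) (g2 : (N2 + (C / a + L)) * exp (l / a) ≤ n3)
    (g3 : (N3 + (C / a + L)) * exp (l / a) ≤ n4) : A u v L M η a l n1 N4 := by
  intro p q hp hq
  have hM := P.hM
  have l4 : 0 ≤ l / 4 := by positivity
  have b : ∀ {p' q' : ℝ}, p' ≤ p + 3 * l / 4 → q' ≤ q + 3 * l / 4 →
      ∀ z ∈ D p' (l / 4) ×ˢ D q' (l / 4), z.1 ≤ p + l ∧ z.2 ≤ q + l := fun h h' z hz =>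
    ⟨by linarith [(D_bd l4 hz.1).2], by linarith [(D_bd l4 hz.2).2]⟩
  have p1 : p ≤ p + 3 * l / 4 := by linarith
  have q1 : q ≤ q + 3 * l / 4 := by linarith
  have c3 := concat P hp hq hl hn3 (b p1 le_rfl)
    ((h3 p _ hp (hq.trans q1)).mono subset_rfl le_rfl q1 le_rfl hn3 hM)
    ((h4 _ _ (hp.trans p1) (hq.trans q1)).mono subset_rfl p1 q1 le_rfl hn4 hM) g3
  have c2 := concat P hp hq hl hn2 (b le_rfl q1)
    ((h2 _ q (hp.trans p1) hq).mono subset_rfl p1 le_rfl le_rfl hn2 hM) c3 g2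
  refine (concat P hp hq hl hn (b p1 q1) (h1 p q hp hq) c2 g1).mono ?_ le_rfl le_rfl le_rfl hn hM
  rintro z ⟨z1, z2⟩
  rcases D_split z1 with e | e <;> rcases D_split z2 with f | f
  · exact Or.inl ⟨e, f⟩
  · exact Or.inr (Or.inr (Or.inl ⟨e, f⟩))
  · exact Or.inr (Or.inl ⟨e, f⟩)
  · exact Or.inr (Or.inr (Or.inr ⟨e, f⟩))

lemma A.mono (P : Par u v L M η a C τ) {l n N N' : ℝ} (h : A u v L M η a l n N) (hn : 0 ≤ n)
    (hN : N ≤ N') : A u v L M η a l n N' := fun p q hp hq =>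
  (h p q hp hq).mono subset_rfl le_rfl le_rfl hN hn P.hM

end Pool.Agent.H31Dust
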