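import Pool.Agent.Lib.helper31.Dust

set_option autoImplicit false

namespace Pool.Agent.H31Dust

open Filter Topology Set Real

variable {u v : ℕ → ℂ} {L : ℕ} {M η a C τ : ℝ}

lemma aux {m B W K E G c : ℝ} (hW : 1 ≤ W) (hE : 1 ≤ E) (hG : 0 ≤ G) (hK : 0 ≤ K) (hc : 0 ≤ c)
    (h : m ≤ B * W) : ((m + K) * E + c) * G ≤ (B + K + c) * (W * E * G) := by
  have h1 : K ≤ K * W := le_mul_of_one_le_right hK hW
  have h2 : c ≤ c * (W * E) := le_mul_of_one_le_right hc (one_le_mul_of_one_le_of_one_le hW hE)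
  have h3 : (m + K) * E ≤ (B * W + K * W) * E := by gcongr
  have h4 : ((m + K) * E + c) * G ≤ ((B * W + K * W) * E + c * (W * E)) * G := by gcongr
  linarith

lemma up {m K E G c : ℝ} (hm : 0 ≤ m) (hE : 1 ≤ E) (hG : 1 ≤ G) (hK : 0 ≤ K) (hc : 0 ≤ c) :
    m ≤ (m + K) * E ∧ (m + K) * E ≤ ((m + K) * E + c) * G := by
  have h1 : m + K ≤ (m + K) * E := le_mul_of_one_le_right (by linarith) hE
  have h2 : (m + K) * E + c ≤ ((m + K) * E + c) * G := le_mul_of_one_le_right (by linarith) hG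
  constructor <;> linarith

lemma unif (P : Par u v L M η a C τ) (r : ℕ) : ∀ l n : ℝ, 0 ≤ l → 0 ≤ n →
    (n + (4 ^ r * (1 + (C / a + L)) - (C / a + L))) * exp (3 / a * r * l) * (l / 4 ^ r) ≤ τ →
    A u v L M η a l n ((n + (4 ^ r * (1 + (C / a + L)) - (C / a + L))) * exp (3 / a * r * l)) := by
  have ha := P.ha
  have hc : 0 ≤ C / a + L := add_nonneg (div_nonneg P.hC ha.le) (Nat.cast_nonneg L)
  generalize hcc : C / a + L = c at *
  induction r with
  | zero =>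
    intro l n hl hn h
    simp only [pow_zero, one_mul, add_sub_cancel_right, Nat.cast_zero, mul_zero, zero_mul,
      exp_zero, mul_one, div_one] at h ⊢
    exact leaf P hl hn h
  | succ r ih =>
    intro l n hl hn h
    have hK : 0 ≤ 4 ^ r * (1 + c) - c := by
      have : (1 : ℝ) ≤ 4 ^ r := one_le_pow₀ (by norm_num)
      nlinarith
    have e1 : (4 : ℝ) ^ (r + 1) * (1 + c) - c = 4 * (4 ^ r * (1 + c) - c) + 3 * c := by ring
    have hE : 1 ≤ exp (3 / a * r * (l / 4)) := one_le_exp (by positivity)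
    have hG : 1 ≤ exp (l / a) := one_le_exp (by positivity)
    have e2 : exp (3 / a * (r + 1 : ℕ) * l) =
        exp (3 / a * r * (l / 4)) ^ 4 * exp (l / a) ^ 3 := by
      rw [← exp_nat_mul, ← exp_nat_mul, ← exp_add]; congr 1; push_cast; ring
    have e3 : l / 4 ^ (r + 1) = l / 4 / 4 ^ r := by rw [pow_succ', div_div]
    rw [e1, e2] at h ⊢
    rw [e3] at h
    have ih' := ih (l / 4)
    generalize exp (3 / a * r * (l / 4)) = E at *
    generalize (4 : ℝ) ^ r * (1 + c) - c = K at *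
    have hfour := @four u v L M η a C τ P l
    rw [hcc] at hfour
    generalize exp (l / a) = G at *
    have hG0 : 0 ≤ G := by linarith
    have hEG : 1 ≤ E * G := one_le_mul_of_one_le_of_one_le hE hG
    obtain ⟨u1, v1⟩ := up hn hE hG hK hc
    have b1 := aux (W := 1) (B := n) le_rfl hE hG0 hK hc (mul_one n).ge
    set n2 := ((n + K) * E + c) * G with hn2
    have p2 : 0 ≤ n2 := by linarith
    obtain ⟨u2, v2⟩ := up p2 hE hG hK hc
    have b2 := aux (by linarith) hE hG0 hK hc b1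
    set n3 := ((n2 + K) * E + c) * G with hn3
    have p3 : 0 ≤ n3 := by linarith
    obtain ⟨u3, v3⟩ := up p3 hE hG hK hc
    have b3 := aux (by nlinarith) hE hG0 hK hc b2
    set n4 := ((n3 + K) * E + c) * G with hn4
    have p4 : 0 ≤ n4 := by linarith
    obtain ⟨u4, -⟩ := up p4 hE hG hK hc
    have w3 : 1 ≤ 1 * E * G * E * G * E * G := by
      have : 1 ≤ (E * G) ^ 3 := one_le_pow₀ hEG
      linarith [show (E * G) ^ 3 = 1 * E * G * E * G * E * G by ring]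
    have b4 := aux (G := 1) (c := 0) w3 hE zero_le_one hK le_rfl b3
    have b5 : (n4 + K) * E ≤ (n + (4 * K + 3 * c)) * (E ^ 4 * G ^ 3) := by
      refine le_trans (by rw [add_zero, mul_one]) (b4.trans (le_of_eq ?_)); ring
    have hl4 : 0 ≤ l / 4 / 4 ^ r := by positivity
    have t : ∀ m, 0 ≤ m → (m + K) * E ≤ (n4 + K) * E → A u v L M η a (l / 4) m ((m + K) * E) :=
      fun m hm e => ih' m (by positivity) hm
        ((mul_le_mul_of_nonneg_right (e.trans b5) hl4).trans h)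
    exact (hfour hl hn p2 p3 p4 (t n hn (by linarith)) (t n2 p2 (by linarith))
      (t n3 p3 (by linarith)) (t n4 p4 le_rfl) le_rfl le_rfl le_rfl).mono P hn b5

lemma var (P : Par u v L M η a C τ) {l : ℝ} (hl : 0 < l) (hτ : 0 < τ)
    (hK : (1 + (C / a + L)) * 18 * l ≤ τ) (j : ℕ) : ∀ (r : ℕ) (n : ℝ), 0 ≤ n →
    n ≤ τ / l * 4 ^ r / 18 → 3 / a * (r + 4 * 4 ^ j) * l ≤ 2 → l * 4 ^ j ≤ a →
    A u v L M η a (l * 4 ^ j) n (τ / l * 4 ^ (r + 4 * (4 ^ j - 1))) := by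
  have ha := P.ha
  have hc : 0 ≤ C / a + L := add_nonneg (div_nonneg P.hC ha.le) (Nat.cast_nonneg L)
  have hX : (1 + (C / a + L)) * 18 ≤ τ / l := by rwa [le_div_iff₀ hl]
  have e3 : exp 1 ≤ 3 := exp_one_lt_three.le
  induction j with
  | zero =>
    intro r n hn h1 h2 h3
    simp only [pow_zero, mul_one, Nat.sub_self, mul_zero, add_zero] at *
    have e9 : exp (3 / a * r * l) ≤ 9 := by
      have : 3 / a * r * l ≤ 1 + 1 := by
        have : 0 ≤ 3 / a * 4 * l := by positivity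
        linarith
      refine (exp_le_exp.2 this).trans ?_
      rw [exp_add]; nlinarith [exp_pos 1]
    have h4 : (0 : ℝ) < 4 ^ r := by positivity
    have b : (n + (4 ^ r * (1 + (C / a + L)) - (C / a + L))) * exp (3 / a * r * l) ≤
        τ / l * 4 ^ r := by
      have : n + (4 ^ r * (1 + (C / a + L)) - (C / a + L)) ≤ τ / l * 4 ^ r / 9 := by
        nlinarith [mul_le_mul_of_nonneg_left hX h4.le]
      calc _ ≤ τ / l * 4 ^ r / 9 * 9 := mul_le_mul this e9 (exp_pos _).le (by positivity)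
        _ = _ := by ring
    refine (unif P r l n hl.le hn ?_).mono P hn b
    calc _ ≤ τ / l * 4 ^ r * (l / 4 ^ r) := mul_le_mul_of_nonneg_right b (by positivity)
      _ = τ := by field_simp
  | succ j ih =>
    intro r n hn h1 h2 h3
    have hp : 1 ≤ 4 ^ j := Nat.one_le_pow _ _ (by norm_num)
    have hp' : (0 : ℝ) < 4 ^ j := by positivity
    have e : l * 4 ^ j = l * 4 ^ (j + 1) / 4 := by ring
    have h3' : l * 4 ^ j ≤ a := by rw [e]; linarith
    have hG : exp (l * 4 ^ (j + 1) / a) ≤ 3 :=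
      (exp_le_exp.2 (by rwa [div_le_one ha])).trans e3
    have t : ∀ i : ℕ, i ≤ 3 → ∀ n, 0 ≤ n → n ≤ τ / l * 4 ^ (r + i * (4 * 4 ^ j)) / 18 →
        A u v L M η a (l * 4 ^ (j + 1) / 4) n
          (τ / l * 4 ^ (r + i * (4 * 4 ^ j) + 4 * (4 ^ j - 1))) := fun i hi n hn h => by
      rw [← e]
      refine ih _ n hn h (le_trans ?_ h2) h3'
      have : (i : ℝ) ≤ 3 := by exact_mod_cast hi
      push_cast
      refine mul_le_mul_of_nonneg_right (mul_le_mul_of_nonneg_left ?_ (by positivity)) hl.le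
      rw [pow_succ]; nlinarith
    have g : ∀ i : ℕ, (τ / l * 4 ^ (r + i * (4 * 4 ^ j) + 4 * (4 ^ j - 1)) + (C / a + L)) *
        exp (l * 4 ^ (j + 1) / a) ≤ τ / l * 4 ^ (r + (i + 1) * (4 * 4 ^ j)) / 18 := fun i => by
      rw [show r + (i + 1) * (4 * 4 ^ j) = r + i * (4 * 4 ^ j) + 4 * (4 ^ j - 1) + 4 by
        rw [add_mul]; omega, pow_add _ _ 4]
      have h4 : (1 : ℝ) ≤ 4 ^ (r + i * (4 * 4 ^ j) + 4 * (4 ^ j - 1)) := one_le_pow₀ (by norm_num)
      generalize (4 : ℝ) ^ (r + i * (4 * 4 ^ j) + 4 * (4 ^ j - 1)) = Y at *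
      have h5 : τ / l ≤ τ / l * Y := le_mul_of_one_le_right (by positivity) h4
      calc _ ≤ (τ / l * Y + τ / l * Y) * 3 :=
            mul_le_mul (by linarith) hG (exp_pos _).le (by positivity)
        _ ≤ _ := by
            have : 0 ≤ τ / l * Y := by positivity
            nlinarith
    have := four P (by positivity) hn (by positivity) (by positivity) (by positivity)
      (t 0 (by norm_num) n hn (by simpa using h1)) (t 1 (by norm_num) _ (by positivity) le_rfl)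
      (t 2 (by norm_num) _ (by positivity) le_rfl) (t 3 (by norm_num) _ (by positivity) le_rfl)
      (g 0) (g 1) (g 2)
    rwa [show r + 3 * (4 * 4 ^ j) + 4 * (4 ^ j - 1) = r + 4 * (4 ^ (j + 1) - 1) by
      rw [pow_succ]; omega] at this

lemma pass (P : Par u v L M η a C τ) {h : ℝ} (hh : 0 < h) (hτ : 0 < τ) (hs : 12 * h ≤ a)
    {n : ℝ} (hn : 0 ≤ n) : ∃ N, A u v L M η a h n N := by
  have ha := P.ha
  have hc : 0 ≤ C / a + L := add_nonneg (div_nonneg P.hC ha.le) (Nat.cast_nonneg L)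
  obtain ⟨J, hJ⟩ := pow_unbounded_of_one_lt ((1 + (C / a + L) + n) * 18 * h / τ)
    (by norm_num : (1 : ℝ) < 4)
  rw [div_lt_iff₀ hτ] at hJ
  have hp : (1 : ℝ) ≤ 4 ^ J := one_le_pow₀ (by norm_num)
  have e : h / 4 ^ J * 4 ^ J = h := by field_simp
  have := var P (l := h / 4 ^ J) (by positivity) hτ (by
    rw [← mul_div_assoc, div_le_iff₀ (by positivity)]; nlinarith [mul_nonneg hn hh.le]) J 0 n hn (by
    rw [pow_zero, mul_one, div_div_eq_mul_div, div_div, le_div_iff₀ (by positivity)]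
    nlinarith [mul_nonneg hc hh.le]) (by
    rw [Nat.cast_zero, zero_add, show 3 / a * (4 * 4 ^ J) * (h / 4 ^ J) = 12 * h / a by
      field_simp; ring, div_le_iff₀ ha]; linarith) (by rw [e]; linarith)
  rw [e] at this
  exact ⟨_, this⟩

abbrev Tg : Type := (Σ L : ℕ, (Fin L → ℕ) × (Fin L → ℕ)) × ℕ × ℕ

noncomputable def tv {L : ℕ} (f : Fin L → ℕ) (j : ℕ) : ℂ :=
  if h : j < L then TopologicalSpace.denseSeq ℂ (f ⟨j, h⟩) else 0

lemma tv_bd {L : ℕ} (f : Fin L → ℕ) : ∃ M, ∀ j, ‖tv f j‖ ≤ M := by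
  refine ⟨∑ i, ‖TopologicalSpace.denseSeq ℂ (f i)‖, fun j => ?_⟩
  unfold tv
  split_ifs with h
  · exact Finset.single_le_sum (f := fun i => ‖TopologicalSpace.denseSeq ℂ (f i)‖)
      (fun _ _ => norm_nonneg _) (Finset.mem_univ _)
  · rw [norm_zero]; positivity

lemma tv_app {u : ℕ → ℂ} {η : ℝ} (hη : 0 < η) {L : ℕ} (h : ∀ j, L ≤ j → ‖u j‖ < η) :
    ∃ f : Fin L → ℕ, ∀ j, ‖tv f j - u j‖ < η := by
  choose f hf using fun i : Fin L =>
    (TopologicalSpace.denseRange_denseSeq ℂ).exists_dist_lt (u i) hη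
  refine ⟨f, fun j => ?_⟩
  unfold tv
  split_ifs with e
  · rw [← dist_eq_norm, dist_comm]; exact hf ⟨j, e⟩
  · simpa using h j (not_lt.1 e)

def Blk (u v : ℕ → ℂ) (L : ℕ) (η Λ : ℝ) (S : Set (ℝ × ℝ)) (m : ℝ) (x y : ℕ → ℂ) (m' : ℝ) : Prop :=
  ∃ n N : ℝ, m ≤ n ∧ N + L ≤ m' ∧ m + 1 ≤ m' ∧
    (∀ j : ℕ, ((j : ℝ) < n ∨ N + L ≤ j) → x j = 0 ∧ y j = 0) ∧
    (∀ j, exp (Λ * m) * ‖x j‖ ≤ η ∧ exp (Λ * m) * ‖y j‖ ≤ η) ∧
    ∀ z ∈ S, ∃ k : ℕ, n ≤ k ∧ (k : ℝ) ≤ N ∧ Ap x u η z.1 k ∧ Ap y v η z.2 k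

lemma blk {L : ℕ} (f g : Fin L → ℕ) {η a h p q : ℝ} (Λ : ℝ) (hη : 0 < η) (ha : 0 < a)
    (hh : 0 < h) (hs : 12 * h ≤ a) (hp : a ≤ p) (hq : a ≤ q) {m : ℝ} (hm : 0 ≤ m) :
    ∃ x y m', Blk (tv f) (tv g) L η Λ (D p h ×ˢ D q h) m x y m' := by
  obtain ⟨M1, h1⟩ := tv_bd f
  obtain ⟨M2, h2⟩ := tv_bd g
  have m1 : 0 ≤ M1 := (norm_nonneg _).trans (h1 0)
  have m2 : 0 ≤ M2 := (norm_nonneg _).trans (h2 0)
  set M := M1 + M2 + 1 with hM
  have M0 : 0 < M := by positivity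
  have hC : M * exp (-(M / η)) ≤ η := by
    rw [exp_neg, ← div_eq_mul_inv, div_le_iff₀ (exp_pos _), ← div_le_iff₀' hη]
    linarith [add_one_le_exp (M / η)]
  have P : Par (tv f) (tv g) L M η a (M / η) (log (1 + η / M)) :=
    ⟨fun j hj => dif_neg (not_lt.2 hj), fun j hj => dif_neg (not_lt.2 hj),
      fun j => by linarith [h1 j], fun j => by linarith [h2 j], ha, by positivity, hC, by
        rw [exp_log (by positivity)]; field_simp; linarith⟩
  have hn : 0 ≤ m + |Λ * m + M / η| / a := by positivity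
  obtain ⟨N, hN⟩ := pass P hh (log_pos (by linarith [div_pos hη M0])) hs hn
  obtain ⟨a0, x, y, a1, a2, a3⟩ := hN p q hp hq
  have b : ∀ p, a ≤ p → exp (Λ * m) * (M * exp (-(p * (m + |Λ * m + M / η| / a)))) ≤ η := by
    intro p hp
    refine le_trans ?_ hC
    rw [mul_left_comm, ← exp_add]
    have e1 : a * (m + |Λ * m + M / η| / a) = a * m + |Λ * m + M / η| := by field_simp
    have e2 := mul_le_mul_of_nonneg_right hp hn
    have e3 := le_abs_self (Λ * m + M / η)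
    have e4 := mul_nonneg ha.le hm
    gcongr
    linarith
  have hL : (0 : ℝ) ≤ L := Nat.cast_nonneg L
  have : 0 ≤ |Λ * m + M / η| / a := by positivity
  exact ⟨x, y, N + L + 1, _, N, by linarith, by linarith, by linarith, a1, fun j =>
    ⟨(mul_le_mul_of_nonneg_left (a2 j).1 (exp_pos _).le).trans (b p hp),
      (mul_le_mul_of_nonneg_left (a2 j).2 (exp_pos _).le).trans (b q hq)⟩, a3⟩

lemma glue (X : ℕ → ℕ → ℂ) (m : ℕ → ℝ) {Λ : ℝ} (hΛ : 0 ≤ Λ) (h0 : 0 ≤ m 0)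
    (hm : ∀ i, m i + 1 ≤ m (i + 1))
    (hs : ∀ (i j : ℕ), ((j : ℝ) < m i ∨ m (i + 1) ≤ j) → X i j = 0)
    (hb : ∀ i j, exp (Λ * m i) * ‖X i j‖ ≤ 1 / (i + 1)) :
    ∃ x : ℕ → ℂ, Tendsto x atTop (𝓝 0) ∧ ∀ (i k L : ℕ) (u : ℕ → ℂ) (lam : ℝ), lam ≤ Λ →
      m i ≤ k → (k : ℝ) + L ≤ m (i + 1) → (∀ j, L ≤ j → u j = 0) →
      Ap (X i) u (1 / (i + 1)) lam k → Ap x u (1 / (i + 1)) lam k := by
  classical
  have mono : Monotone m := monotone_nat_of_le_succ fun i => by linarith [hm i]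
  have mi : ∀ i : ℕ, (i : ℝ) ≤ m i := fun i => by
    induction i with
    | zero => simpa using h0
    | succ i ih => push_cast; linarith [hm i]
  have ex : ∀ j : ℕ, ∃ i, (j : ℝ) < m (i + 1) := fun j =>
    ⟨j, by have := mi (j + 1); push_cast at this; linarith⟩
  let ι : ℕ → ℕ := fun j => Nat.find (ex j)
  have i1 : ∀ j : ℕ, (j : ℝ) < m (ι j + 1) := fun j => Nat.find_spec (ex j)
  have i2 : ∀ j i : ℕ, i < ι j → m (i + 1) ≤ j := fun j i h => not_lt.1 (Nat.find_min (ex j) h)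
  have i3 : ∀ j i : ℕ, m i ≤ j → i ≤ ι j := fun j i h => by
    by_contra e
    linarith [i1 j, mono (show ι j + 1 ≤ i by omega)]
  have sm : ∀ i l : ℕ, i ≤ l → (1 : ℝ) / (l + 1) ≤ 1 / (i + 1) := fun i l h =>
    Nat.one_div_le_one_div h
  refine ⟨fun j => X (ι j) j, ?_, fun i k L u lam hl k1 k2 hu h j => ?_⟩
  · have t : Tendsto ι atTop atTop := tendsto_atTop.2 fun i =>
      (eventually_ge_atTop ⌈m i⌉₊).mono fun j hj => i3 j i (Nat.ceil_le.1 hj)
    refine squeeze_zero_norm (fun j => le_trans ?_ (hb (ι j) j))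
      (tendsto_one_div_add_atTop_nhds_zero_nat.comp t)
    exact le_mul_of_one_le_left (norm_nonneg _)
      (one_le_exp (mul_nonneg hΛ ((Nat.cast_nonneg _).trans (mi _))))
  · have j0 : (0 : ℝ) ≤ j := Nat.cast_nonneg j
    have k0 : (0 : ℝ) ≤ k := Nat.cast_nonneg k
    have L0 : (0 : ℝ) ≤ L := Nat.cast_nonneg L
    rcases (i3 (j + k) i (by push_cast; linarith)).eq_or_lt with e | e
    · simp only [← e]; exact h j
    · have a1 := i2 _ _ e
      have : L ≤ j := by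
        have : (L : ℝ) ≤ j := by push_cast at a1; linarith
        exact_mod_cast this
      rw [hu j this, sub_zero, norm_mul, Complex.norm_real, Real.norm_of_nonneg (exp_pos _).le]
      refine le_trans ?_ ((hb (ι (j + k)) (j + k)).trans (sm _ _ e.le))
      have a2 : m (i + 1) ≤ m (ι (j + k)) := mono e
      have a3 : k * lam ≤ Λ * m (ι (j + k)) := by
        nlinarith [mul_le_mul_of_nonneg_left hl k0,
          mul_le_mul_of_nonneg_left (show (k : ℝ) ≤ m (ι (j + k)) by linarith) hΛ]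
      gcongr

theorem main {a b h : ℝ} (ha : 0 < a) (hb : 0 < b) (hh : 0 < h) :
    ∃ x y : ℕ → ℂ, Tendsto x atTop (𝓝 0) ∧ Tendsto y atTop (𝓝 0) ∧
      ∀ lam mu : ℝ, lam ∈ D a h → mu ∈ D b h →
        ∀ u v : ℕ → ℂ, Tendsto u atTop (𝓝 0) → Tendsto v atTop (𝓝 0) →
          ∀ η : ℝ, 0 < η → ∃ k : ℕ, ∀ n : ℕ,
            ‖((exp ((k : ℝ) * lam) : ℝ) : ℂ) * x (n + k) - u n‖ < η ∧
            ‖((exp ((k : ℝ) * mu) : ℝ) : ℂ) * y (n + k) - v n‖ < η := by
  have hc : 0 < min a b := lt_min ha hb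
  obtain ⟨J, hJ⟩ := pow_unbounded_of_one_lt (12 * h / min a b) (by norm_num : (1 : ℝ) < 4)
  have hl : 0 < h / 4 ^ J := by positivity
  have hs : 12 * (h / 4 ^ J) ≤ min a b := by
    rw [div_lt_iff₀ hc] at hJ
    rw [← mul_div_assoc, div_le_iff₀ (by positivity)]; linarith
  obtain ⟨e, he⟩ := exists_surjective_nat Tg
  let t : ℕ → Tg := fun i => e i.unpair.1
  have st : ∀ (i : ℕ) (m : {m : ℝ // 0 ≤ m}), ∃ x y : ℕ → ℂ, ∃ m' : {m : ℝ // 0 ≤ m},
      Blk (tv (t i).1.2.1) (tv (t i).1.2.2) (t i).1.1 (1 / (i + 1)) (a + b + h)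
        (D (a + (t i).2.1 * (h / 4 ^ J)) (h / 4 ^ J) ×ˢ D (b + (t i).2.2 * (h / 4 ^ J)) (h / 4 ^ J))
        m x y m' := by
    intro i m
    obtain ⟨x, y, m', H⟩ := blk (t i).1.2.1 (t i).1.2.2 (η := 1 / (i + 1))
      (p := a + (t i).2.1 * (h / 4 ^ J)) (q := b + (t i).2.2 * (h / 4 ^ J)) (a + b + h)
      (by positivity) hc hl hs ((min_le_left _ _).trans (le_add_of_nonneg_right (by positivity)))
      ((min_le_right _ _).trans (le_add_of_nonneg_right (by positivity))) m.2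
    have : 0 ≤ m' := by obtain ⟨_, _, -, -, h3, -⟩ := H; linarith [m.2]
    exact ⟨x, y, ⟨m', this⟩, H⟩
  choose X Y F H using st
  let m : ℕ → {m : ℝ // 0 ≤ m} := fun i => Nat.rec ⟨0, le_rfl⟩ (fun i r => F i r) i
  choose n N c1 c2 c3 c4 c5 c6 using fun i => H i (m i)
  have sup : ∀ i j : ℕ, ((j : ℝ) < (m i).1 ∨ (m (i + 1)).1 ≤ j) →
      X i (m i) j = 0 ∧ Y i (m i) j = 0 := fun i j hj =>
    c4 i j (hj.imp (fun h => lt_of_lt_of_le h (c1 i)) fun h => le_trans (c2 i) h)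
  obtain ⟨x, x1, x2⟩ := glue (fun i => X i (m i)) (fun i => (m i).1) (Λ := a + b + h) (by positivity)
    le_rfl c3 (fun i j hj => (sup i j hj).1) fun i j => (c5 i j).1
  obtain ⟨y, y1, y2⟩ := glue (fun i => Y i (m i)) (fun i => (m i).1) (Λ := a + b + h) (by positivity)
    le_rfl c3 (fun i j hj => (sup i j hj).2) fun i j => (c5 i j).2
  refine ⟨x, y, x1, y1, fun lam mu hlam hmu u v hu hv η hη => ?_⟩
  have h2 : 0 < η / 2 := by positivity
  obtain ⟨L, hL⟩ := eventually_atTop.1 ((NormedAddGroup.tendsto_nhds_zero.1 hu _ h2).and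
    (NormedAddGroup.tendsto_nhds_zero.1 hv _ h2))
  obtain ⟨f, hf⟩ := tv_app h2 fun j hj => (hL j hj).1
  obtain ⟨g, hg⟩ := tv_app h2 fun j hj => (hL j hj).2
  obtain ⟨s1, hs1⟩ := D_lev hlam J
  obtain ⟨s2, hs2⟩ := D_lev hmu J
  obtain ⟨c, hc⟩ := he (⟨L, f, g⟩, s1, s2)
  obtain ⟨K, hK⟩ := exists_nat_one_div_lt h2
  have ht : t (Nat.pair c K) = (⟨L, f, g⟩, s1, s2) := by simp only [t, Nat.unpair_pair, hc]
  have sm : (1 : ℝ) / ((Nat.pair c K : ℕ) + 1) < η / 2 :=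
    (Nat.one_div_le_one_div (Nat.right_le_pair c K)).trans_lt hK
  have d6 := c6 (Nat.pair c K)
  have d2 := c2 (Nat.pair c K)
  rw [ht] at d6 d2
  obtain ⟨k, k1, k2, k3, k4⟩ := d6 (lam, mu) ⟨hs1, hs2⟩
  have k5 := (c1 _).trans k1
  have k6 : (k : ℝ) + L ≤ (m (Nat.pair c K + 1)).1 := le_trans (by linarith) d2
  have z : ∀ f : Fin L → ℕ, ∀ j, L ≤ j → tv f j = 0 := fun f j hj => dif_neg (not_lt.2 hj)
  have r1 := x2 _ k L _ lam (by linarith [(D_bd hh.le hlam).2]) k5 k6 (z f) k3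
  have r2 := y2 _ k L _ mu (by linarith [(D_bd hh.le hmu).2]) k5 k6 (z g) k4
  refine ⟨k, fun j => ⟨?_, ?_⟩⟩
  · linarith [norm_sub_le_norm_sub_add_norm_sub (((exp ((k : ℝ) * lam) : ℝ) : ℂ) * x (j + k))
      (tv f j) (u j), r1 j, hf j]
  · linarith [norm_sub_le_norm_sub_add_norm_sub (((exp ((k : ℝ) * mu) : ℝ) : ℂ) * y (j + k))
      (tv g j) (v j), r2 j, hg j]

end Pool.Agent.H31Dust
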