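import Mathlib

set_option autoImplicit false

namespace Pool.Agent.Lib.helper31.Dyson

open Set Filter Topology MeasureTheory

variable {E : Type} [NormedAddCommGroup E] [NormedSpace ℂ E] [CompleteSpace E]

noncomputable def U (B : ℝ → E →L[ℂ] E) (x₀ : ℝ) (v : E) : ℕ → ℝ → E
  | 0 => fun _ => v
  | n + 1 => fun x => ∫ t in x₀..x, B t (U B x₀ v n t)

lemma U_cont {B : ℝ → E →L[ℂ] E} (hB : Continuous B) (x₀ : ℝ) (v : E) (n : ℕ) :
    Continuous (U B x₀ v n) := by
  induction n with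
  | zero => exact continuous_const
  | succ n ih =>
    exact continuous_iff_continuousAt.mpr fun x =>
      ((hB.clm_apply ih).integral_hasStrictDerivAt x₀ x).hasDerivAt.continuousAt

lemma U_deriv {B : ℝ → E →L[ℂ] E} (hB : Continuous B) (x₀ : ℝ) (v : E) (n : ℕ) (x : ℝ) :
    HasDerivAt (U B x₀ v (n + 1)) (B x (U B x₀ v n x)) x :=
  ((hB.clm_apply (U_cont hB x₀ v n)).integral_hasStrictDerivAt x₀ x).hasDerivAt

lemma U_bound {B : ℝ → E →L[ℂ] E} {C : ℝ} (hC : ∀ t, ‖B t‖ ≤ C) (x₀ : ℝ) (v : E) (n : ℕ) :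
    ∀ x, ‖U B x₀ v n x‖ ≤ ‖v‖ * (C * |x - x₀|) ^ n / n.factorial := by
  have hC0 : 0 ≤ C := (norm_nonneg _).trans (hC 0)
  induction n with
  | zero => intro x; simp [U]
  | succ n ih =>
    intro x
    have h1 : ‖U B x₀ v (n + 1) x‖ ≤
        |∫ t in x₀..x, (‖v‖ * C ^ (n + 1) / n.factorial) * |t - x₀| ^ n| := by
      refine intervalIntegral.norm_integral_le_abs_of_norm_le (Eventually.of_forall fun t => ?_)
        (Continuous.intervalIntegrable (by fun_prop) _ _)
      refine ((B t).le_opNorm _).trans ((mul_le_mul (hC t) (ih t) (norm_nonneg _) hC0).trans_eq ?_)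
      rw [mul_pow]; ring
    rw [intervalIntegral.integral_const_mul, abs_mul, intervalIntegral.abs_intervalIntegral_eq,
      integral_pow_abs_sub_uIoc, abs_of_nonneg (by positivity),
      abs_of_nonneg (by positivity)] at h1
    refine h1.trans_eq ?_
    rw [Nat.factorial_succ, mul_pow]; push_cast
    field_simp

lemma U_base (B : ℝ → E →L[ℂ] E) (x₀ : ℝ) (v : E) (n : ℕ) : U B x₀ v (n + 1) x₀ = 0 := by
  simp [U]

lemma term_bound {B : ℝ → E →L[ℂ] E} {C : ℝ} (hC : ∀ t, ‖B t‖ ≤ C) (x₀ : ℝ) (v : E) (n : ℕ)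
    {z : ℂ} {x R S : ℝ} (hz : ‖z‖ ≤ R) (hx : |x - x₀| ≤ S) :
    ‖z ^ n • U B x₀ v n x‖ ≤ ‖v‖ * ((R * (C * S)) ^ n / n.factorial) := by
  have hC0 : 0 ≤ C := (norm_nonneg _).trans (hC 0)
  have hR : 0 ≤ R := (norm_nonneg _).trans hz
  rw [norm_smul, norm_pow]
  have h1 := U_bound hC x₀ v n x
  have h2 : ‖v‖ * (C * |x - x₀|) ^ n / n.factorial ≤ ‖v‖ * (C * S) ^ n / n.factorial := by
    gcongr
  calc _ ≤ R ^ n * (‖v‖ * (C * S) ^ n / n.factorial) :=
        mul_le_mul (by gcongr) (h1.trans h2) (norm_nonneg _) (by positivity)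
    _ = _ := by rw [mul_pow R]; ring

theorem exists_solution {B : ℝ → E →L[ℂ] E} (hB : Continuous B) {C : ℝ} (hC : ∀ t, ‖B t‖ ≤ C)
    (x₀ : ℝ) (v : E) : ∃ V : ℂ → ℝ → E,
      (∀ z x, HasDerivAt (V z) (z • B x (V z x)) x) ∧ (∀ z, V z x₀ = v) ∧
      ∀ x, ∃ H : ℂ → E, Differentiable ℂ H ∧ H 0 = ∫ t in x₀..x, B t v ∧
        ∀ z, V z x = v + z • H z := by
  have hC0 : 0 ≤ C := (norm_nonneg _).trans (hC 0)
  have hs : ∀ (z : ℂ) (x : ℝ), Summable fun n => z ^ n • U B x₀ v n x := fun z x =>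
    Summable.of_norm_bounded ((Real.summable_pow_div_factorial _).mul_left _)
      fun n => term_bound hC x₀ v n le_rfl le_rfl
  have hsplit : ∀ (z : ℂ) (x : ℝ), ∑' n, z ^ n • U B x₀ v n x =
      v + ∑' n, z ^ (n + 1) • U B x₀ v (n + 1) x := fun z x => by
    rw [(hs z x).tsum_eq_zero_add]; simp [U]
  refine ⟨fun z x => ∑' n, z ^ n • U B x₀ v n x, fun z x => ?_, fun z => ?_, fun x => ?_⟩
  · have hfun : (fun x => ∑' n, z ^ n • U B x₀ v n x) =
        fun x => v + ∑' n, z ^ (n + 1) • U B x₀ v (n + 1) x := funext (hsplit z)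
    change HasDerivAt (fun x => ∑' n, z ^ n • U B x₀ v n x) _ x
    rw [hfun]
    have hd := hasDerivAt_tsum_of_isPreconnected
      (g := fun n y => z ^ (n + 1) • U B x₀ v (n + 1) y)
      (g' := fun n y => z ^ (n + 1) • B y (U B x₀ v n y))
      (u := fun n => ‖z‖ * (C * (‖v‖ * ((‖z‖ * (C * (|x - x₀| + 1))) ^ n / n.factorial))))
      (t := Metric.ball x₀ (|x - x₀| + 1)) (y₀ := x₀) (y := x)
      ((((Real.summable_pow_div_factorial _).mul_left _).mul_left _).mul_left _)
      Metric.isOpen_ball (convex_ball _ _).isPreconnected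
      (fun n y _ => (U_deriv hB x₀ v n y).const_smul _) (fun n y hy => ?_)
      (Metric.mem_ball_self (by positivity)) (by simp [U_base, summable_zero])
      (by rw [Metric.mem_ball, Real.dist_eq]; linarith)
    · refine (hd.const_add v).congr_deriv ?_
      rw [(B x).map_tsum (hs z x), ← Summable.tsum_const_smul]
      · refine tsum_congr fun n => ?_
        rw [map_smul, smul_smul, pow_succ']
      · exact (B x).summable (hs z x)
    · have e : z ^ (n + 1) • B y (U B x₀ v n y) = z • B y (z ^ n • U B x₀ v n y) := by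
        rw [map_smul, smul_smul, pow_succ']
      rw [e, norm_smul]
      refine mul_le_mul_of_nonneg_left (((B y).le_opNorm _).trans
        (mul_le_mul (hC y) ?_ (norm_nonneg _) hC0)) (norm_nonneg _)
      exact term_bound hC x₀ v n le_rfl (by
        rw [Metric.mem_ball, Real.dist_eq] at hy; exact hy.le)
  · simp only [hsplit, U_base, smul_zero, tsum_zero, add_zero]
  · have hb : ∀ (R : ℝ) (n : ℕ) (w : ℂ), ‖w‖ ≤ R → ‖w ^ n • U B x₀ v (n + 1) x‖ ≤
        ‖v‖ * (C * |x - x₀|) * ((R * (C * |x - x₀|)) ^ n / n.factorial) := fun R n w hw => by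
      have hR : 0 ≤ R := (norm_nonneg _).trans hw
      rw [norm_smul, norm_pow]
      have h1 := U_bound hC x₀ v (n + 1) x
      have h2 : ‖v‖ * (C * |x - x₀|) ^ (n + 1) / (n + 1).factorial ≤
          ‖v‖ * (C * |x - x₀|) ^ (n + 1) / n.factorial := by
        gcongr; exact Nat.le_succ n
      calc _ ≤ R ^ n * (‖v‖ * (C * |x - x₀|) ^ (n + 1) / n.factorial) :=
            mul_le_mul (by gcongr) (h1.trans h2) (norm_nonneg _) (by positivity)
        _ = _ := by rw [mul_pow R]; ring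
    refine ⟨fun z => ∑' n, z ^ n • U B x₀ v (n + 1) x, fun z => ?_, ?_, fun z => ?_⟩
    · have := Complex.differentiableOn_tsum_of_summable_norm
        (F := fun n (w : ℂ) => w ^ n • U B x₀ v (n + 1) x) (U := Metric.ball 0 (‖z‖ + 1))
        ((Real.summable_pow_div_factorial _).mul_left _) (fun n => by fun_prop) Metric.isOpen_ball
        (fun n w hw => hb (‖z‖ + 1) n w (mem_ball_zero_iff.mp hw).le)
      exact this.differentiableAt (Metric.isOpen_ball.mem_nhds (by simp))
    · simp only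
      rw [tsum_eq_single 0 (fun n hn => by simp [hn])]
      simp [U]
    · simp only
      rw [hsplit, ← Summable.tsum_const_smul]
      · congr 1
        refine tsum_congr fun n => ?_
        rw [smul_smul, pow_succ']
      · exact Summable.of_norm_bounded ((Real.summable_pow_div_factorial _).mul_left _)
          fun n => hb _ n z le_rfl

end Pool.Agent.Lib.helper31.Dyson
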