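import Mathlib

set_option autoImplicit false

namespace Pool.Agent.Lib.helper31.ExpPoly

open Filter Topology Complex

variable {ι : Type} [Fintype ι]

noncomputable def pw (a : ι → ℂ) (s : ι → ℝ) (w : ι → ℂ) (z : ℂ) : ℂ :=
  1 - ∑ i, a i * w i * cexp (z * s i)

lemma pw_diff (a : ι → ℂ) (s : ι → ℝ) (w : ι → ℂ) : Differentiable ℂ (pw a s w) := by
  unfold pw
  fun_prop

lemma left_bound (a : ι → ℂ) (s : ι → ℝ) (hs : ∀ i, 0 < s i) :
    ∃ R : ℝ, 0 ≤ R ∧ ∀ w : ι → ℂ, (∀ i, ‖w i‖ ≤ 1) → ∀ z : ℂ, z.re ≤ -R → 1 / 2 ≤ ‖pw a s w z‖ := by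
  have h : Tendsto (fun x : ℝ => ∑ i, ‖a i‖ * Real.exp (x * s i)) atBot (𝓝 (∑ i, ‖a i‖ * 0)) :=
    tendsto_finsetSum _ fun i _ =>
      (Real.tendsto_exp_atBot.comp (tendsto_id.atBot_mul_const (hs i))).const_mul _
  simp only [mul_zero, Finset.sum_const_zero] at h
  obtain ⟨x0, hx0⟩ := eventually_atBot.1 (h.eventually_le_const (show (0 : ℝ) < 1 / 2 by norm_num))
  refine ⟨|x0|, abs_nonneg _, fun w hw z hz => ?_⟩
  have h1 := hx0 z.re (hz.trans (neg_abs_le x0))
  have h2 : ‖∑ i, a i * w i * cexp (z * s i)‖ ≤ ∑ i, ‖a i‖ * Real.exp (z.re * s i) := by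
    refine norm_sum_le_of_le _ fun i _ => ?_
    rw [norm_mul, norm_mul, Complex.norm_exp]
    simp only [mul_re, ofReal_re, ofReal_im, mul_zero, sub_zero]
    exact mul_le_mul_of_nonneg_right (mul_le_of_le_one_right (norm_nonneg _) (hw i))
      (Real.exp_pos _).le
  have h3 := norm_sub_norm_le (1 : ℂ) (∑ i, a i * w i * cexp (z * s i))
  rw [norm_one] at h3
  unfold pw
  linarith

lemma right_bound (a : ι → ℂ) (s : ι → ℝ) (hs : ∀ i, 0 < s i) (j : ι) (hj : a j ≠ 0)
    (hmax : ∀ i, i ≠ j → s i < s j) :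
    ∃ R : ℝ, 0 ≤ R ∧ ∀ z : ℂ, R ≤ z.re → ‖a j‖ / 2 * Real.exp (z.re * s j) ≤ ‖pw a s 1 z‖ := by
  classical
  have h : Tendsto (fun x : ℝ => Real.exp (x * (-s j)) +
      ∑ i ∈ Finset.univ.erase j, ‖a i‖ * Real.exp (x * (s i - s j))) atTop
      (𝓝 (0 + ∑ i ∈ Finset.univ.erase j, ‖a i‖ * 0)) :=
    (Real.tendsto_exp_atBot.comp (tendsto_id.atTop_mul_const_of_neg (by linarith [hs j]))).add
      (tendsto_finsetSum _ fun i hi => (Real.tendsto_exp_atBot.comp
        (tendsto_id.atTop_mul_const_of_neg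
          (by linarith [hmax i (Finset.ne_of_mem_erase hi)]))).const_mul _)
  simp only [mul_zero, Finset.sum_const_zero, add_zero] at h
  have hpos : 0 < ‖a j‖ / 2 := by positivity
  obtain ⟨x0, hx0⟩ := eventually_atTop.1 (h.eventually_le_const hpos)
  refine ⟨|x0|, abs_nonneg _, fun z hz => ?_⟩
  have h1 := hx0 z.re ((le_abs_self x0).trans hz)
  have e : pw a s 1 z = -(a j * cexp (z * s j) -
      (1 - ∑ i ∈ Finset.univ.erase j, a i * cexp (z * s i))) := by
    unfold pw
    rw [← Finset.add_sum_erase _ _ (Finset.mem_univ j)]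
    simp only [Pi.one_apply, mul_one]
    ring
  have hn : ∀ i, ‖a i * cexp (z * s i)‖ = ‖a i‖ * Real.exp (z.re * s i) := by
    intro i
    rw [norm_mul, Complex.norm_exp]
    simp
  have h2 : ‖1 - ∑ i ∈ Finset.univ.erase j, a i * cexp (z * s i)‖ ≤
      (Real.exp (z.re * (-s j)) + ∑ i ∈ Finset.univ.erase j, ‖a i‖ * Real.exp (z.re * (s i - s j))) *
        Real.exp (z.re * s j) := by
    refine (norm_sub_le _ _).trans ?_
    rw [add_mul, ← Real.exp_add, Finset.sum_mul, norm_one]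
    refine add_le_add (by simp) (norm_sum_le_of_le _ fun i _ => ?_)
    rw [hn, mul_assoc, ← Real.exp_add]
    apply le_of_eq
    congr 2
    ring
  have h3 := norm_sub_norm_le (a j * cexp (z * s j))
    (1 - ∑ i ∈ Finset.univ.erase j, a i * cexp (z * s i))
  rw [e, norm_neg]
  rw [hn] at h3
  have h4 := mul_le_mul_of_nonneg_right h1 (Real.exp_pos (z.re * s j)).le
  linarith

lemma pw_not_zero (a : ι → ℂ) (s : ι → ℝ) (hs : ∀ i, 0 < s i) (w : ι → ℂ) (hw : ∀ i, ‖w i‖ ≤ 1)
    (z : ℂ) : ¬ ∃ᶠ u in 𝓝[≠] z, pw a s w u = 0 := by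
  intro h
  obtain ⟨R, -, hR⟩ := left_bound a s hs
  have h1 := ((pw_diff a s w).differentiableOn.analyticOnNhd isOpen_univ).eqOn_zero_of_preconnected_of_frequently_eq_zero
    isPreconnected_univ (Set.mem_univ z) h (Set.mem_univ ((-R : ℝ) : ℂ))
  have h2 := hR w hw ((-R : ℝ) : ℂ) (by simp)
  rw [h1] at h2
  norm_num at h2

lemma lines (a : ι → ℂ) (s : ι → ℝ) (hs : ∀ i, 0 < s i) (R : ℝ) :
    ∃ c : ℝ, 0 < c ∧ ∀ k : ℝ, ∃ y ∈ Set.Icc k (k + 1), ∀ z : ℂ, z.im = y → |z.re| ≤ R →
      c ≤ ‖pw a s 1 z‖ := by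
  have hK : IsCompact (Set.pi Set.univ fun _ : ι => Metric.closedBall (0 : ℂ) 1) :=
    isCompact_univ_pi fun _ => isCompact_closedBall _ _
  have key : ∃ c : ℝ, 0 < c ∧ ∀ w ∈ (Set.pi Set.univ fun _ : ι => Metric.closedBall (0 : ℂ) 1),
      ∃ y ∈ Set.Icc (0 : ℝ) 1, ∀ x ∈ Set.Icc (-R) R, c ≤ ‖pw a s w (x + y * I)‖ := by
    refine hK.induction_on (p := fun S => ∃ c : ℝ, 0 < c ∧ ∀ w ∈ S,
      ∃ y ∈ Set.Icc (0 : ℝ) 1, ∀ x ∈ Set.Icc (-R) R, c ≤ ‖pw a s w (x + y * I)‖)
      ⟨1, one_pos, by simp⟩ ?_ ?_ ?_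
    · rintro S T hST ⟨c, hc, h⟩
      exact ⟨c, hc, fun w hw => h w (hST hw)⟩
    · rintro S T ⟨c, hc, h⟩ ⟨d, hd, h'⟩
      refine ⟨min c d, lt_min hc hd, ?_⟩
      rintro w (hw | hw)
      · obtain ⟨y, hy, h2⟩ := h w hw
        exact ⟨y, hy, fun x hx => (min_le_left _ _).trans (h2 x hx)⟩
      · obtain ⟨y, hy, h2⟩ := h' w hw
        exact ⟨y, hy, fun x hx => (min_le_right _ _).trans (h2 x hx)⟩
    · intro w hw
      have hw' : ∀ i, ‖w i‖ ≤ 1 := fun i => by simpa using hw i (Set.mem_univ i)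
      obtain ⟨y, hy, h0⟩ : ∃ y ∈ Set.Icc (0 : ℝ) 1, ∀ x ∈ Set.Icc (-R) R,
          pw a s w (x + y * I) ≠ 0 := by
        by_contra hc
        push Not at hc
        have hmem : ∀ n : ℕ, (1 / ((n : ℝ) + 1)) ∈ Set.Icc (0 : ℝ) 1 := fun n =>
          ⟨by positivity, by rw [div_le_one (by positivity)]; linarith [n.cast_nonneg (α := ℝ)]⟩
        choose x hx h0 using fun n : ℕ => hc _ (hmem n)
        obtain ⟨x0, -, φ, hφ, hlim⟩ := isCompact_Icc.tendsto_subseq hx
        refine pw_not_zero a s hs w hw' (x0 : ℂ) ?_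
        have t1 : Tendsto (fun n => ((x (φ n) : ℝ) : ℂ) + ((1 / ((φ n : ℝ) + 1) : ℝ) : ℂ) * I) atTop
            (𝓝[≠] (x0 : ℂ)) := by
          refine tendsto_nhdsWithin_iff.2 ⟨?_, Eventually.of_forall fun n h => ?_⟩
          · have b1 := (continuous_ofReal.tendsto _).comp hlim
            have b2 := ((continuous_ofReal.tendsto _).comp
              (tendsto_one_div_add_atTop_nhds_zero_nat.comp hφ.tendsto_atTop)).mul_const I
            simpa using b1.add b2
          · have := congrArg Complex.im (Set.mem_singleton_iff.1 h)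
            simp only [add_im, ofReal_im, mul_im, ofReal_re, I_im, mul_one, I_re, mul_zero,
              add_zero, zero_add] at this
            have h2 : (0 : ℝ) < 1 / ((φ n : ℝ) + 1) := by positivity
            linarith
        exact t1.frequently (Frequently.of_forall fun n => h0 (φ n))
      have hcont : Continuous fun q : (ι → ℂ) × ℝ => ‖pw a s q.1 (q.2 + y * I)‖ := by
        unfold pw
        fun_prop
      obtain ⟨c, hc, h1⟩ := isCompact_Icc.exists_forall_le' (f := fun x : ℝ => ‖pw a s w (x + y * I)‖)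
        (hcont.comp (Continuous.prodMk_right w)).continuousOn (a := 0)
        fun x hx => norm_pos_iff.2 (h0 x hx)
      have h2 : ∀ᶠ w' in 𝓝 w, ∀ x ∈ Set.Icc (-R) R, c / 2 < ‖pw a s w' (x + y * I)‖ :=
        isCompact_Icc.eventually_forall_of_forall_eventually
          (P := fun w' (x : ℝ) => c / 2 < ‖pw a s w' (x + y * I)‖) fun x hx =>
          hcont.continuousAt.eventually (lt_mem_nhds (by linarith [h1 x hx]))
      exact ⟨_, mem_nhdsWithin_of_mem_nhds h2, c / 2, by positivity, fun w' hw' =>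
        ⟨y, hy, fun x hx => (hw' x hx).le⟩⟩
  obtain ⟨c, hc, h⟩ := key
  refine ⟨c, hc, fun k => ?_⟩
  obtain ⟨y, hy, h2⟩ := h (fun i => cexp (((k * s i : ℝ) : ℂ) * I)) (fun i _ => by
    simp only [Metric.mem_closedBall, dist_zero_right, Complex.norm_exp_ofReal_mul_I, le_refl])
  refine ⟨k + y, ⟨by linarith [hy.1], by linarith [hy.2]⟩, fun z hz hx => ?_⟩
  refine (h2 z.re (abs_le.1 hx)).trans (le_of_eq ?_)
  congr 1
  unfold pw
  congr 1
  refine Finset.sum_congr rfl fun i _ => ?_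
  rw [mul_assoc, ← Complex.exp_add, Pi.one_apply, mul_one]
  congr 2
  conv_rhs => rw [← Complex.re_add_im z, hz]
  push_cast
  ring

/-- an entire quotient by the exponential polynomial with the natural growth is constant -/
lemma quot_const (a : ι → ℂ) (s : ι → ℝ) (hs : ∀ i, 0 < s i) (j : ι) (hj : a j ≠ 0)
    (hmax : ∀ i, i ≠ j → s i < s j) (G : ℂ → ℂ) (hG : Differentiable ℂ G) (B : ℝ)
    (hB : ∀ z, ‖pw a s 1 z * G z‖ ≤ B * Real.exp (max z.re 0 * s j)) : ∃ c, ∀ z, G z = c := by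
  obtain ⟨R1, h10, h1⟩ := left_bound a s hs
  obtain ⟨R2, h20, h2⟩ := right_bound a s hs j hj hmax
  obtain ⟨c, hc, h3⟩ := lines a s hs (R1 + R2)
  have hB0 : 0 ≤ B := by
    have := (norm_nonneg _).trans (hB 0)
    simpa using this
  have haj : 0 < ‖a j‖ := norm_pos_iff.2 hj
  set C := 2 * B + 2 * B / ‖a j‖ + B * Real.exp ((R1 + R2) * s j) / c with hC
  have p1 : 0 ≤ 2 * B / ‖a j‖ := by positivity
  have p2 : 0 ≤ B * Real.exp ((R1 + R2) * s j) / c := by positivity
  have far : ∀ z : ℂ, R1 + R2 ≤ |z.re| → ‖G z‖ ≤ C := by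
    intro z hz
    have b := hB z
    rw [norm_mul] at b
    rcases le_abs.1 hz with h | h
    · have b2 := h2 z (by linarith)
      rw [max_eq_left (by linarith)] at b
      have b3 : ‖G z‖ ≤ 2 * B / ‖a j‖ := by
        rw [le_div_iff₀ haj]
        have e := Real.exp_pos (z.re * s j)
        have := (mul_le_mul_of_nonneg_right b2 (norm_nonneg (G z))).trans b
        nlinarith
      linarith
    · have b2 := h1 1 (fun i => by simp) z (by linarith)
      rw [max_eq_right (by linarith), zero_mul, Real.exp_zero] at b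
      nlinarith [norm_nonneg (G z)]
  have line : ∀ k : ℝ, ∃ y ∈ Set.Icc k (k + 1), ∀ z : ℂ, z.im = y → ‖G z‖ ≤ C := by
    intro k
    obtain ⟨y, hy, h4⟩ := h3 k
    refine ⟨y, hy, fun z hz => ?_⟩
    rcases le_total (R1 + R2) |z.re| with h | h
    · exact far z h
    · have b := hB z
      rw [norm_mul] at b
      have b2 := h4 z hz h
      have b3 : ‖G z‖ ≤ B * Real.exp ((R1 + R2) * s j) / c := by
        rw [le_div_iff₀ hc]
        have : Real.exp (max z.re 0 * s j) ≤ Real.exp ((R1 + R2) * s j) := by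
          refine Real.exp_le_exp.2 (mul_le_mul_of_nonneg_right ?_ (hs j).le)
          exact max_le ((le_abs_self _).trans h) (by linarith)
        nlinarith [norm_nonneg (G z), mul_le_mul_of_nonneg_left this hB0]
      linarith
  refine hG.exists_const_forall_eq_of_bounded (isBounded_iff_forall_norm_le.2 ⟨C, ?_⟩)
  rintro _ ⟨z, rfl⟩
  obtain ⟨y1, hy1, l1⟩ := line (z.im - 2)
  obtain ⟨y2, hy2, l2⟩ := line (z.im + 1)
  refine PhragmenLindelof.horizontal_strip hG.diffContOnCl ⟨0, ?_, 0, ?_⟩ l1 l2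
    (by linarith [hy1.2]) (by linarith [hy2.1])
  · exact div_pos Real.pi_pos (by linarith [hy1.2, hy2.1])
  · refine Asymptotics.IsBigO.of_bound C (Filter.Eventually.filter_mono inf_le_left ?_)
    refine Filter.eventually_comap.2 ((eventually_ge_atTop (R1 + R2)).mono fun r hr u hu => ?_)
    simpa using far u (by rw [← hu] at hr; exact hr)

noncomputable def Eint (f : ℝ → ℂ) (t : ℝ) (z : ℂ) : ℂ := ∫ r in (0 : ℝ)..t, cexp (-z * r) * f r

lemma Eint_diff (f : ℝ → ℂ) (hf : Continuous f) (t : ℝ) : Differentiable ℂ (Eint f t) := by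
  intro z
  have hc : ∀ x : ℂ, Continuous fun r : ℝ => cexp (-x * r) * f r := fun x => by fun_prop
  have := intervalIntegral.hasDerivAt_integral_of_dominated_loc_of_deriv_le (μ := MeasureTheory.volume)
    (a := 0) (b := t) (F := fun (x : ℂ) (r : ℝ) => cexp (-x * r) * f r)
    (F' := fun (x : ℂ) (r : ℝ) => cexp (-x * r) * (-r) * f r) (x₀ := z)
    (bound := fun r => Real.exp ((‖z‖ + 1) * |r|) * |r| * ‖f r‖) (Metric.ball_mem_nhds z one_pos)
    (Eventually.of_forall fun x => (hc x).aestronglyMeasurable) ((hc z).intervalIntegrable _ _)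
    (Continuous.aestronglyMeasurable (by fun_prop))
    (Eventually.of_forall fun r _ x hx => by
      rw [norm_mul, norm_mul, norm_neg, Complex.norm_real, Real.norm_eq_abs]
      gcongr
      refine (Complex.norm_exp_le_exp_norm _).trans (Real.exp_le_exp.2 ?_)
      rw [norm_mul, norm_neg, Complex.norm_real, Real.norm_eq_abs]
      refine mul_le_mul_of_nonneg_right ?_ (abs_nonneg _)
      have := norm_le_norm_add_norm_sub' x z
      rw [Metric.mem_ball, dist_eq_norm] at hx
      linarith)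
    (Continuous.intervalIntegrable (by fun_prop) _ _)
    (Eventually.of_forall fun r _ x _ => by
      have := (((hasDerivAt_id x).neg.mul_const (r : ℂ)).cexp).mul_const (f r)
      simpa using this)
  exact this.2.differentiableAt

noncomputable def Ftr (a : ι → ℂ) (s : ι → ℝ) (f : ℝ → ℂ) (z : ℂ) : ℂ :=
  ∑ i, a i * cexp (z * s i) * Eint f (s i) z

lemma Ftr_diff (a : ι → ℂ) (s : ι → ℝ) (f : ℝ → ℂ) (hf : Continuous f) :
    Differentiable ℂ (Ftr a s f) := by
  have := fun t => Eint_diff f hf t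
  unfold Ftr
  fun_prop

lemma Ftr_bound (a : ι → ℂ) (s : ι → ℝ) (hs : ∀ i, 0 < s i) (S : ℝ) (hS : ∀ i, s i ≤ S) (f : ℝ → ℂ)
    (M : ℝ) (hM : ∀ r, 0 ≤ r → r ≤ S → ‖f r‖ ≤ M) (z : ℂ) :
    ‖Ftr a s f z‖ ≤ (∑ i, ‖a i‖ * s i) * M * Real.exp (max z.re 0 * S) := by
  rw [Finset.sum_mul, Finset.sum_mul]
  refine norm_sum_le_of_le _ fun i _ => ?_
  rw [mul_assoc, norm_mul, mul_assoc, mul_assoc]
  refine mul_le_mul_of_nonneg_left ?_ (norm_nonneg _)
  unfold Eint
  rw [← intervalIntegral.integral_const_mul]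
  refine (intervalIntegral.norm_integral_le_of_norm_le_const
    (C := M * Real.exp (max z.re 0 * S)) fun r hr => ?_).trans (le_of_eq ?_)
  · rw [Set.uIoc_of_le (hs i).le] at hr
    rw [← mul_assoc, ← Complex.exp_add, norm_mul, Complex.norm_exp, mul_comm]
    refine mul_le_mul (hM r hr.1.le (hr.2.trans (hS i))) (Real.exp_le_exp.2 ?_) (Real.exp_pos _).le
      ((norm_nonneg _).trans (hM r hr.1.le (hr.2.trans (hS i))))
    simp only [add_re, mul_re, ofReal_re, ofReal_im, mul_zero, sub_zero, neg_re, neg_im]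
    have h1 : z.re ≤ max z.re 0 := le_max_left _ _
    have h2 : 0 ≤ max z.re 0 := le_max_right _ _
    have h3 := hS i
    nlinarith [hr.1, hr.2]
  · rw [sub_zero, abs_of_pos (hs i)]; ring

lemma Ftr_shift (a : ι → ℂ) (s : ι → ℝ) (hs : ∀ i, 0 < s i) (f g : ℝ → ℂ) (hf : Continuous f)
    (hrel : ∀ r, 0 ≤ r → f r = ∑ i, a i * f (r + s i)) (t : ℝ) (ht : 0 ≤ t)
    (hg : ∀ r, 0 ≤ r → g r = f (r + t)) (z : ℂ) :
    Ftr a s g z = cexp (z * t) * (Ftr a s f z + pw a s 1 z * Eint f t z) := by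
  have hc : Continuous fun r : ℝ => cexp (-z * r) * f r := by fun_prop
  have e1 : ∀ u, 0 ≤ u → Eint g u z = cexp (z * t) * (Eint f (u + t) z - Eint f t z) := by
    intro u hu
    unfold Eint
    rw [intervalIntegral.integral_interval_sub_left (hc.intervalIntegrable _ _)
      (hc.intervalIntegrable _ _), ← intervalIntegral.integral_const_mul]
    have := intervalIntegral.integral_comp_add_right (a := 0) (b := u)
      (fun r : ℝ => cexp (z * t) * (cexp (-z * r) * f r)) t
    rw [zero_add] at this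
    rw [← this]
    refine intervalIntegral.integral_congr fun r hr => ?_
    rw [Set.uIcc_of_le hu] at hr
    rw [hg r hr.1, ← mul_assoc, ← Complex.exp_add]
    congr 2
    push_cast
    ring
  have e2 : ∀ i, cexp (z * s i) * (Eint f (s i + t) z - Eint f (s i) z) =
      ∫ r in (0 : ℝ)..t, cexp (-z * r) * f (r + s i) := by
    intro i
    unfold Eint
    rw [intervalIntegral.integral_interval_sub_left (hc.intervalIntegrable _ _)
      (hc.intervalIntegrable _ _), ← intervalIntegral.integral_const_mul]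
    have := intervalIntegral.integral_comp_add_right (a := 0) (b := t)
      (fun r : ℝ => cexp (z * s i) * (cexp (-z * r) * f r)) (s i)
    rw [zero_add, add_comm t] at this
    rw [← this]
    refine intervalIntegral.integral_congr fun r _ => ?_
    rw [← mul_assoc, ← Complex.exp_add]
    congr 2
    push_cast
    ring
  have e3 : Eint f t z = ∑ i, a i * (cexp (z * s i) * (Eint f (s i + t) z - Eint f (s i) z)) := by
    simp only [e2, ← intervalIntegral.integral_const_mul]
    rw [← intervalIntegral.integral_finsetSum fun i _ => Continuous.intervalIntegrable (by fun_prop) _ _]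
    unfold Eint
    refine intervalIntegral.integral_congr fun r hr => ?_
    rw [Set.uIcc_of_le ht] at hr
    rw [hrel r hr.1, Finset.mul_sum]
    exact Finset.sum_congr rfl fun i _ => by ring
  unfold Ftr pw
  rw [sub_mul, one_mul, Finset.sum_mul]
  nth_rewrite 1 [e3]
  rw [← Finset.sum_sub_distrib, ← Finset.sum_add_distrib, Finset.mul_sum]
  refine Finset.sum_congr rfl fun i _ => ?_
  rw [e1 _ (hs i).le]
  simp only [Pi.one_apply]
  ring

end Pool.Agent.Lib.helper31.ExpPoly
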