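import Pool.Agent.Lib.helper31.WAT

set_option autoImplicit false

namespace Pool.Agent.H31.Fatou

open Complex Metric Set Filter Topology MeasureTheory Pool.Agent.H31.JC Pool.Agent.H31.WAT

lemma maxp {h : ℂ → ℂ} (hc : ContinuousOn h {w | 0 ≤ w.im}) (hd : DifferentiableOn ℂ h H)
    {ε C : ℝ} (hε : 0 < ε) (hR : ∀ t : ℝ, ‖h t‖ ≤ ε)
    (hdec : ∀ w : ℂ, 0 ≤ w.im → 1 ≤ ‖w‖ → ‖h w‖ * ‖w‖ ≤ C) {w : ℂ} (hw : w ∈ H) : ‖h w‖ ≤ ε := by
  set R := max (max 1 (C / ε)) (‖w‖ + 1) with hRdef
  have r1 : 1 ≤ R := (le_max_left _ _).trans (le_max_left _ _)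
  have r2 : C / ε ≤ R := (le_max_right _ _).trans (le_max_left _ _)
  have r3 : ‖w‖ + 1 ≤ R := le_max_right _ _
  have hcl : closure (H ∩ ball 0 R) ⊆ {w | 0 ≤ w.im} ∩ closedBall 0 R :=
    closure_minimal (fun u hu => ⟨le_of_lt (show 0 < u.im from hu.1), ball_subset_closedBall hu.2⟩)
      ((isClosed_le continuous_const continuous_im).inter isClosed_closedBall)
  have hop : IsOpen (H ∩ ball (0 : ℂ) R) := isOpen_H.inter isOpen_ball
  refine norm_le_of_forall_mem_frontier_norm_le (U := H ∩ ball 0 R)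
    (isBounded_ball.subset inter_subset_right)
    ⟨hd.mono inter_subset_left, hc.mono fun u hu => (hcl hu).1⟩ (fun u hu => ?_)
    (subset_closure ⟨hw, mem_ball_zero_iff.2 (by linarith)⟩)
  obtain ⟨a1, a2⟩ := hcl (frontier_subset_closure hu)
  have a3 : u ∉ H ∩ ball 0 R := by rw [hop.frontier_eq] at hu; exact hu.2
  by_cases b : 0 < u.im
  · have b2 : R ≤ ‖u‖ := by
      by_contra b3
      exact a3 ⟨b, mem_ball_zero_iff.2 (not_le.1 b3)⟩
    have b3 := hdec u a1 (by linarith)
    have b4 : C ≤ ε * ‖u‖ := by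
      rw [div_le_iff₀ hε] at r2
      nlinarith
    exact le_of_mul_le_mul_right (b3.trans b4) (by linarith)
  · have : u = (u.re : ℂ) := by
      apply Complex.ext <;> simp
      exact le_antisymm (not_lt.1 b) a1
    rw [this]; exact hR _

lemma lip_lim {G f : ℂ → ℂ} {K : NNReal} (hG : LipschitzWith K G)
    (hd : ∀ w ∈ H, HasDerivAt G (f w) w) {θ : ℝ} {a : ℂ}
    (ha : HasDerivAt (fun x : ℝ => G x) a θ) :
    Tendsto (fun y : ℝ => f (θ + y * I)) (𝓝[>] 0) (𝓝 a) := by
  rw [Metric.tendsto_nhds]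
  intro e he
  set ε := e / 16 with hε
  have hε0 : 0 < ε := by positivity
  set C := (K : ℝ) + ‖a‖ + 1 with hC
  have hC0 : 0 < C := by positivity
  obtain ⟨δ, hδ, h1⟩ := Metric.eventually_nhds_iff.1 (ha.isLittleO.def hε0)
  filter_upwards [Ioo_mem_nhdsGT (show 0 < δ * ε / C by positivity)] with y hy
  have hy0 : 0 < y := hy.1
  have hyc : (y : ℂ) ≠ 0 := by exact_mod_cast hy0.ne'
  set g : ℂ → ℂ := fun w => (G (θ + y * w) - G θ) / y - a * w with hg
  have hmem : ∀ w ∈ H, (θ + y * w : ℂ) ∈ H := fun w hw => by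
    have : 0 < w.im := hw
    simp [H, hy0, this]
  have hgd : ∀ w ∈ H, HasDerivAt g (f (θ + y * w) - a) w := fun w hw => by
    have d1 := (hd _ (hmem w hw)).comp w (((hasDerivAt_id' w).const_mul (y : ℂ)).const_add (θ : ℂ))
    have d2 := ((d1.sub_const (G θ)).div_const (y : ℂ)).sub ((hasDerivAt_id' w).const_mul a)
    refine d2.congr_deriv ?_
    field_simp
  have hgb : ∀ w, ‖g w‖ ≤ C * ‖w‖ := fun w => by
    have a1 := hG.norm_sub_le (θ + y * w) θ
    rw [add_sub_cancel_left, norm_mul, norm_real, Real.norm_eq_abs, abs_of_pos hy0] at a1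
    refine (norm_sub_le _ _).trans ?_
    rw [norm_div, norm_real, Real.norm_eq_abs, abs_of_pos hy0, norm_mul]
    have : ‖G (θ + y * w) - G θ‖ / y ≤ K * ‖w‖ := by rw [div_le_iff₀ hy0]; nlinarith
    nlinarith [norm_nonneg w]
  have hgc : Continuous g := by
    have := hG.continuous
    simp only [hg]
    fun_prop
  have hne : ∀ w : ℂ, 0 ≤ w.im → w + I ≠ 0 := fun w hw h => by
    have := congrArg Complex.im h
    simp at this
    linarith
  have hsq : ∀ w : ℂ, 0 ≤ w.im → ‖w‖ ^ 2 + 1 ≤ ‖w + I‖ ^ 2 := fun w hw => by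
    rw [Complex.sq_norm, Complex.sq_norm, normSq_apply, normSq_apply]
    simp
    nlinarith
  have key : ∀ w ∈ H, ‖g w / (w + I) ^ 2‖ ≤ ε := fun w hw => by
    refine maxp (h := fun w => g w / (w + I) ^ 2) (C := C)
      (hgc.continuousOn.div (by fun_prop) fun u hu => pow_ne_zero _ (hne u hu))
      (DifferentiableOn.div (fun u hu => (hgd u hu).differentiableAt.differentiableWithinAt)
        (by fun_prop) fun u hu => pow_ne_zero _ (hne u (le_of_lt hu))) hε0 (fun t => ?_)
      (fun u hu h2 => ?_) hw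
    · have b1 := hsq t (by simp)
      rw [norm_real, Real.norm_eq_abs] at b1
      rw [norm_div, norm_pow, div_le_iff₀ (by nlinarith [sq_nonneg |t|])]
      by_cases c : y * |t| < δ
      · have b2 := h1 (y := θ + y * t) (by
          rw [Real.dist_eq, add_sub_cancel_left, abs_mul, abs_of_pos hy0]; exact c)
        rw [add_sub_cancel_left, Real.norm_eq_abs, abs_mul, abs_of_pos hy0] at b2
        have b3 : g t = (G ((θ + y * t : ℝ) : ℂ) - G θ - (y * t) • a) / y := by
          simp only [hg, real_smul]; push_cast; field_simp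
        rw [b3, norm_div, norm_real, Real.norm_eq_abs, abs_of_pos hy0, div_le_iff₀ hy0]
        refine b2.trans ?_
        have : |t| ≤ ‖(t : ℂ) + I‖ ^ 2 := by nlinarith [sq_nonneg (|t| - 1)]
        nlinarith [mul_le_mul_of_nonneg_left this (mul_pos hε0 hy0).le]
      · have b2 := hgb t
        rw [norm_real, Real.norm_eq_abs] at b2
        have b3 : y * C < δ * ε := (lt_div_iff₀ hC0).1 hy.2
        have b4 : C ≤ ε * |t| := by
          apply le_of_mul_le_mul_left _ hy0
          nlinarith [mul_le_mul_of_nonneg_left (not_lt.1 c) hε0.le]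
        nlinarith [mul_le_mul_of_nonneg_right b4 (abs_nonneg t),
          mul_le_mul_of_nonneg_left b1 hε0.le]
    · have b1 := hsq u hu
      rw [norm_div, norm_pow, div_mul_eq_mul_div, div_le_iff₀ (by nlinarith [sq_nonneg ‖u‖])]
      nlinarith [mul_le_mul_of_nonneg_right (hgb u) (norm_nonneg u),
        mul_le_mul_of_nonneg_left b1 hC0.le]
  have hsub : closedBall I (1 / 2) ⊆ H := fun u hu => by
    have b1 : ‖u - I‖ ≤ 1 / 2 := by simpa [dist_eq_norm] using hu
    have b2 := (abs_le.1 ((abs_im_le_norm (u - I)).trans b1)).1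
    simp at b2
    show 0 < u.im
    linarith
  have hI : I ∈ H := by simp [H]
  have c1 := norm_deriv_le_of_forall_mem_sphere_norm_le (f := g) (c := I) (C := 7 * ε)
    (show (0 : ℝ) < 1 / 2 by norm_num)
    (DifferentiableOn.diffContOnCl fun u hu => (hgd u (hsub
      (closure_ball_subset_closedBall hu))).differentiableAt.differentiableWithinAt)
    fun u hu => by
      have hu' := hsub (sphere_subset_closedBall hu)
      have b1 := key u hu'
      have b2 : ‖u - I‖ = 1 / 2 := by simpa [dist_eq_norm] using hu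
      have b3 : ‖u + I‖ ≤ 5 / 2 := by
        have := norm_add_le (u - I) (2 * I)
        rw [show u - I + 2 * I = u + I by ring, b2] at this
        simp at this
        linarith
      rw [norm_div, norm_pow, div_le_iff₀
        (pow_pos (norm_pos_iff.2 (hne u (le_of_lt hu'))) 2)] at b1
      have b4 := pow_le_pow_left₀ (norm_nonneg _) b3 2
      nlinarith [mul_le_mul_of_nonneg_left b4 hε0.le]
  rw [(hgd I hI).deriv] at c1
  rw [dist_eq_norm]
  linarith

theorem fatou {φ : ℂ → ℂ} (hd : DifferentiableOn ℂ φ (ball 0 1))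
    (hm : MapsTo φ (ball (0 : ℂ) 1) (ball (0 : ℂ) 1)) :
    ∀ᵐ θ : ℝ, ∃ a : ℂ, Tendsto (fun y : ℝ => φ (exp (I * (θ + y * I)))) (𝓝[>] 0) (𝓝 a) := by
  have hψ : DifferentiableOn ℂ (dslope φ 0) (ball 0 1) :=
    (differentiableOn_dslope (ball_mem_nhds 0 one_pos)).2 hd
  obtain ⟨Ψ, hΨ⟩ := hψ.isExactOn_ball
  set F : ℂ → ℂ := fun w => φ 0 * w - I * Ψ (exp (I * w)) with hF
  have hFd : ∀ w ∈ H, HasDerivAt F (φ (exp (I * w))) w := fun w hw => by
    have d1 := (hΨ _ (exp_mem hw)).comp w ((hasDerivAt_id' w).const_mul I).cexp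
    have d2 := ((hasDerivAt_id' w).const_mul (φ 0)).sub (d1.const_mul I)
    refine d2.congr_deriv ?_
    have := sub_smul_dslope φ 0 (exp (I * w))
    simp only [sub_zero, smul_eq_mul] at this
    linear_combination this - (dslope φ 0 (exp (I * w)) * exp (I * w)) * I_mul_I
  have hconv : Convex ℝ H := convex_halfSpace_im_gt 0
  have hL : LipschitzOnWith 1 F H :=
    hconv.lipschitzOnWith_of_nnnorm_hasDerivWithin_le (fun w hw => (hFd w hw).hasDerivWithinAt)
      fun w hw => by
        have := mem_ball_zero_iff.1 (hm (exp_mem hw))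
        exact_mod_cast this.le
  obtain ⟨G, hG, hFG⟩ := hL.extend_finite_dimension
  have hGd : ∀ w ∈ H, HasDerivAt G (φ (exp (I * w))) w := fun w hw =>
    (hFd w hw).congr_of_eventuallyEq
      (Filter.eventually_of_mem (isOpen_H.mem_nhds hw) fun u hu => (hFG hu).symm)
  have hL2 := hG.comp (isometry_ofReal.lipschitz)
  filter_upwards [hL2.ae_differentiableAt (μ := volume)] with θ hθ
  exact ⟨_, lip_lim hG hGd hθ.hasDerivAt⟩

end Pool.Agent.H31.Fatou
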