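import Mathlib

set_option autoImplicit false

namespace Pool.Agent.Lib.helper31.FreeMap

open Filter Topology

noncomputable def del (K : ℕ → ℝ) : ℕ → ℝ
  | 0 => 1
  | j + 1 => del K j / (8 * K j * K (j + 1))

noncomputable def app (k : ℕ → ℕ) (m n : ℕ → ℝ → ℝ) (K : ℕ → ℝ) : ℕ → ℝ → ℝ
  | 0 => fun _ => 0
  | j + 1 => fun β =>
      (del K j * (⌊(m j β * app k m n K j β + n j β) / del K j⌋ : ℤ) + del K j / (2 * k j) - n j β) / m j β

lemma del_pos (K : ℕ → ℝ) (hK : ∀ j, 1 ≤ K j) : ∀ j, 0 < del K j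
  | 0 => by simp [del]
  | j + 1 => by
      have := del_pos K hK j
      have h1 := hK j
      have h2 := hK (j + 1)
      simp only [del]
      positivity

lemma e_succ (K : ℕ → ℝ) (hK : ∀ j, 1 ≤ K j) (j : ℕ) :
    del K (j + 1) * K (j + 1) = del K j / (8 * K j) := by
  have h1 := hK j
  have h2 := hK (j + 1)
  simp only [del]
  field_simp

lemma e_half (K : ℕ → ℝ) (hK : ∀ j, 1 ≤ K j) (j : ℕ) :
    del K (j + 1) * K (j + 1) ≤ del K j * K j / 2 := by
  rw [e_succ K hK j]
  have h0 := del_pos K hK j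
  have h1 := hK j
  rw [div_le_div_iff₀ (by positivity) (by norm_num)]
  have : 1 ≤ K j * K j := by nlinarith
  nlinarith

lemma e_geom (K : ℕ → ℝ) (hK : ∀ j, 1 ≤ K j) (j l : ℕ) :
    del K (j + l) * K (j + l) ≤ del K j * K j / 2 ^ l := by
  induction l with
  | zero => simp
  | succ l ih =>
    have := e_half K hK (j + l)
    rw [← add_assoc, pow_succ, ← div_div]
    linarith

theorem core (k : ℕ → ℕ) (m n : ℕ → ℝ → ℝ) (M : ℕ → ℝ) (hm : ∀ j, Measurable (m j))
    (hn : ∀ j, Measurable (n j))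
    (hM : ∀ j β, |m j β| ≤ M j ∧ |m j β|⁻¹ ≤ M j ∧ m j β ≠ 0) :
    ∃ p : ℝ → ℝ, Measurable p ∧ ∀ j (F : Finset ℝ), F.card = k j → 0 < k j →
      ∑ β ∈ F, (m j β * p β + n j β) ≠ 0 := by
  have hM0 : ∀ j, 0 ≤ M j := fun j => (abs_nonneg _).trans (hM j 0).1
  set K : ℕ → ℝ := fun j => (M j + 1) * (k j + 1) with hKdef
  have hK : ∀ j, 1 ≤ K j := fun j => by
    have := hM0 j
    have h2 : (0 : ℝ) ≤ k j := Nat.cast_nonneg _
    simp only [hKdef]
    nlinarith
  have hMK : ∀ j, M j ≤ K j := fun j => by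
    have := hM0 j
    have h2 : (0 : ℝ) ≤ k j := Nat.cast_nonneg _
    simp only [hKdef]
    nlinarith
  have hMkK : ∀ j, k j * M j ≤ K j := fun j => by
    have := hM0 j
    have h2 : (0 : ℝ) ≤ k j := Nat.cast_nonneg _
    simp only [hKdef]
    nlinarith
  set P := app k m n K with hP
  have hPm : ∀ j, Measurable (P j) := by
    intro j
    induction j with
    | zero => exact measurable_const
    | succ j ih =>
      have h1 : Measurable fun β => (m j β * P j β + n j β) / del K j :=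
        (((hm j).mul ih).add (hn j)).div_const _
      have h2 : Measurable fun β => ((⌊(m j β * P j β + n j β) / del K j⌋ : ℤ) : ℝ) :=
        (measurable_from_top (f := fun z : ℤ => (z : ℝ))).comp h1.floor
      exact (((h2.const_mul _).add_const _).sub (hn j)).div (hm j)
  have hval : ∀ j β, m j β * P (j + 1) β + n j β =
      del K j * (⌊(m j β * P j β + n j β) / del K j⌋ : ℤ) + del K j / (2 * k j) := by
    intro j β
    have := (hM j β).2.2
    simp only [hP, app]
    field_simp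
    ring
  have hstep : ∀ j β, dist (P j β) (P (j + 1) β) ≤ del K j * K j := by
    intro j β
    have hd := del_pos K hK j
    have hm0 := (hM j β).2.2
    set x := m j β * P j β + n j β with hx
    have h1 : m j β * (P (j + 1) β - P j β) =
        del K j * (⌊x / del K j⌋ : ℤ) + del K j / (2 * k j) - x := by
      rw [← hval j β, hx]; ring
    have h2 : del K j * (⌊x / del K j⌋ : ℤ) ≤ x := by
      have := Int.floor_le (x / del K j)
      rw [le_div_iff₀ hd] at this
      linarith
    have h3 : x < del K j * (⌊x / del K j⌋ : ℤ) + del K j := by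
      have := Int.lt_floor_add_one (x / del K j)
      rw [div_lt_iff₀ hd] at this
      linarith
    have h4 : 0 ≤ del K j / (2 * k j) := by positivity
    have h5 : del K j / (2 * k j) ≤ del K j := by
      rcases Nat.eq_zero_or_pos (k j) with h | h
      · simp [h, hd.le]
      · have : (1 : ℝ) ≤ k j := by exact_mod_cast h
        rw [div_le_iff₀ (by positivity)]
        nlinarith
    have h6 : |m j β * (P (j + 1) β - P j β)| ≤ del K j := by
      rw [h1, abs_le]; constructor <;> linarith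
    rw [abs_mul] at h6
    have h7 : 0 < |m j β| := abs_pos.2 hm0
    rw [dist_comm, Real.dist_eq]
    calc |P (j + 1) β - P j β| = |m j β|⁻¹ * (|m j β| * |P (j + 1) β - P j β|) := by
          field_simp
      _ ≤ K j * del K j := by
          apply mul_le_mul ((hM j β).2.1.trans (hMK j)) h6 (by positivity) (by linarith [hK j])
      _ = _ := by ring
  have hgeo : ∀ j β l, dist (P (j + l) β) (P (j + (l + 1)) β) ≤ (2 * (del K j * K j)) / 2 / 2 ^ l := by
    intro j β l
    have := hstep (j + l) β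
    have h2 := e_geom K hK j l
    rw [← add_assoc]
    calc _ ≤ _ := this
      _ ≤ _ := h2
      _ = _ := by ring
  have hcau : ∀ β, CauchySeq fun l => P l β := by
    intro β
    have := cauchySeq_of_le_geometric_two (f := fun l => P (0 + l) β) (C := 2 * (del K 0 * K 0))
      (hgeo 0 β)
    simpa using this
  choose p hp using fun β => cauchySeq_tendsto_of_complete (hcau β)
  refine ⟨p, measurable_of_tendsto_metrizable hPm (tendsto_pi_nhds.2 hp), ?_⟩
  intro j F hF hk hsum
  have hd := del_pos K hK j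
  have htail : ∀ β, |p β - P (j + 1) β| ≤ del K j / (4 * K j) := by
    intro β
    have h1 : Tendsto (fun l => P (j + 1 + l) β) atTop (𝓝 (p β)) := by
      have := (hp β).comp (tendsto_add_atTop_nat (j + 1))
      refine this.congr fun l => ?_
      simp [add_comm]
    have h2 := dist_le_of_le_geometric_two_of_tendsto₀ (f := fun l => P (j + 1 + l) β)
      (C := 2 * (del K (j + 1) * K (j + 1))) (hgeo (j + 1) β) h1
    rw [e_succ K hK j] at h2
    simp only [add_zero] at h2
    rw [dist_comm, Real.dist_eq] at h2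
    refine h2.trans (le_of_eq ?_)
    have := hK j
    field_simp
    ring
  have hsplit : ∑ β ∈ F, (m j β * p β + n j β) =
      del K j * ((∑ β ∈ F, ⌊(m j β * P j β + n j β) / del K j⌋ : ℤ) : ℝ) + del K j / 2 +
        ∑ β ∈ F, m j β * (p β - P (j + 1) β) := by
    have h1 : ∀ β ∈ F, m j β * p β + n j β =
        del K j * (⌊(m j β * P j β + n j β) / del K j⌋ : ℤ) + del K j / (2 * k j) +
          m j β * (p β - P (j + 1) β) := by
      intro β _
      rw [← hval j β]; ring
    rw [Finset.sum_congr rfl h1, Finset.sum_add_distrib, Finset.sum_add_distrib, Finset.sum_const,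
      hF, ← Finset.mul_sum]
    have : (0 : ℝ) < k j := by exact_mod_cast hk
    push_cast
    simp only [nsmul_eq_mul]
    field_simp
  have hsmall : |∑ β ∈ F, m j β * (p β - P (j + 1) β)| ≤ del K j / 4 := by
    calc _ ≤ ∑ β ∈ F, |m j β * (p β - P (j + 1) β)| := Finset.abs_sum_le_sum_abs _ _
      _ ≤ ∑ β ∈ F, M j * (del K j / (4 * K j)) := by
          refine Finset.sum_le_sum fun β _ => ?_
          rw [abs_mul]
          exact mul_le_mul (hM j β).1 (htail β) (abs_nonneg _) (hM0 j)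
      _ = k j * M j * (del K j / (4 * K j)) := by
          rw [Finset.sum_const, hF, nsmul_eq_mul]; ring
      _ ≤ K j * (del K j / (4 * K j)) := by
          have := hK j
          exact mul_le_mul_of_nonneg_right (hMkK j) (by positivity)
      _ = _ := by
          have := hK j
          field_simp
  rw [hsum] at hsplit
  set z : ℤ := ∑ β ∈ F, ⌊(m j β * P j β + n j β) / del K j⌋
  rw [abs_le] at hsmall
  rcases le_or_gt 0 z with h | h
  · have : (0 : ℝ) ≤ z := by exact_mod_cast h
    nlinarith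
  · have : (z : ℝ) ≤ -1 := by
      have : z ≤ -1 := by omega
      exact_mod_cast this
    nlinarith

/-- separation of a finite set of reals by a fine grid -/
lemma exists_grid (F : Finset ℝ) : ∃ N : ℕ, Set.InjOn (fun β : ℝ => ⌊(N : ℝ) * β⌋) F := by
  classical
  have h : ∀ x : ℝ × ℝ, x.1 ≠ x.2 → ∀ᶠ N : ℕ in atTop, ⌊(N : ℝ) * x.1⌋ ≠ ⌊(N : ℝ) * x.2⌋ := by
    intro x hx
    have hpos : 0 < |x.1 - x.2| := abs_pos.2 (sub_ne_zero.2 hx)
    have : Tendsto (fun N : ℕ => (N : ℝ) * |x.1 - x.2|) atTop atTop :=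
      tendsto_natCast_atTop_atTop.atTop_mul_const hpos
    filter_upwards [this.eventually_ge_atTop 1] with N hN heq
    have := Int.abs_sub_lt_one_of_floor_eq_floor heq
    rw [← mul_sub, abs_mul, Nat.abs_cast] at this
    linarith
  have h2 : ∀ᶠ N : ℕ in atTop, ∀ x ∈ (F ×ˢ F).filter (fun x => x.1 ≠ x.2),
      ⌊(N : ℝ) * x.1⌋ ≠ ⌊(N : ℝ) * x.2⌋ := by
    rw [Filter.eventually_all_finset]
    intro x hx
    exact h x (Finset.mem_filter.1 hx).2
  obtain ⟨N, hN⟩ := h2.exists
  refine ⟨N, fun a ha b hb hab => ?_⟩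
  by_contra hne
  exact hN (a, b) (Finset.mem_filter.2 ⟨Finset.mem_product.2 ⟨ha, hb⟩, hne⟩) hab

/-- the rational combination attached to two finitely supported coefficient families -/
noncomputable def comb (p : ℝ → ℝ) (m n : ℝ →₀ ℚ) : ℝ :=
  Finsupp.linearCombination ℚ p m + Finsupp.linearCombination ℚ (fun β : ℝ => β) n

theorem exists_free : ∃ p : ℝ → ℝ, Measurable p ∧
    ∀ m n : ℝ →₀ ℚ, n.support ⊆ m.support → comb p m n = 0 → m = 0 := by
  classical
  obtain ⟨t, ht⟩ := exists_surjective_nat (ℕ × ℕ × (ℤ →₀ ℚ) × (ℤ →₀ ℚ))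
  let mm : ℕ → ℝ → ℝ := fun j β =>
    ((if (t j).2.2.1 ⌊((t j).2.1 : ℝ) * β⌋ = 0 then 1 else (t j).2.2.1 ⌊((t j).2.1 : ℝ) * β⌋ : ℚ) : ℝ)
  let nn : ℕ → ℝ → ℝ := fun j β => (((t j).2.2.2 ⌊((t j).2.1 : ℝ) * β⌋ : ℚ) : ℝ) * β
  have hfl : ∀ j, Measurable fun β : ℝ => ⌊((t j).2.1 : ℝ) * β⌋ := fun j =>
    (measurable_id.const_mul _).floor
  have hmm : ∀ j, Measurable (mm j) := fun j =>
    (measurable_from_top (f := fun z : ℤ =>
      ((if (t j).2.2.1 z = 0 then 1 else (t j).2.2.1 z : ℚ) : ℝ))).comp (hfl j)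
  have hnn : ∀ j, Measurable (nn j) := fun j =>
    ((measurable_from_top (f := fun z : ℤ => (((t j).2.2.2 z : ℚ) : ℝ))).comp (hfl j)).mul
      measurable_id
  have hb : ∀ j, ∃ M : ℝ, ∀ β, |mm j β| ≤ M ∧ |mm j β|⁻¹ ≤ M ∧ mm j β ≠ 0 := by
    intro j
    set μ := (t j).2.2.1
    refine ⟨1 + ∑ z ∈ μ.support, (|(μ z : ℝ)| + |(μ z : ℝ)|⁻¹), fun β => ?_⟩
    have hs : 0 ≤ ∑ z ∈ μ.support, (|(μ z : ℝ)| + |(μ z : ℝ)|⁻¹) :=
      Finset.sum_nonneg fun z _ => by positivity
    simp only [mm]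
    split_ifs with h
    · simp only [Rat.cast_one, abs_one, inv_one]
      refine ⟨by linarith, by linarith, one_ne_zero⟩
    · have hz : ⌊((t j).2.1 : ℝ) * β⌋ ∈ μ.support := Finsupp.mem_support_iff.2 h
      have := Finset.single_le_sum (f := fun z => |(μ z : ℝ)| + |(μ z : ℝ)|⁻¹)
        (fun z _ => by positivity) hz
      have h1 : 0 ≤ |(μ ⌊((t j).2.1 : ℝ) * β⌋ : ℝ)| := abs_nonneg _
      have h2 : 0 ≤ |(μ ⌊((t j).2.1 : ℝ) * β⌋ : ℝ)|⁻¹ := by positivity
      refine ⟨by linarith, by linarith, by exact_mod_cast h⟩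
  choose M hM using hb
  obtain ⟨p, hp, hcore⟩ := core (fun j => (t j).1) mm nn M hmm hnn hM
  refine ⟨p, hp, fun m n hsub h0 => ?_⟩
  by_contra hne
  obtain ⟨N, hN⟩ := exists_grid m.support
  obtain ⟨j, hj⟩ := ht (m.support.card, N, m.mapDomain (fun β : ℝ => ⌊(N : ℝ) * β⌋),
    n.mapDomain (fun β : ℝ => ⌊(N : ℝ) * β⌋))
  refine hcore j m.support (by simp [hj]) (by
    simp only [hj]
    exact Finset.card_pos.2 (Finsupp.support_nonempty_iff.2 hne)) ?_
  rw [← h0, comb, Finsupp.linearCombination_apply, Finsupp.linearCombination_apply, Finsupp.sum,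
    Finsupp.sum_of_support_subset n hsub _ (by simp), ← Finset.sum_add_distrib]
  refine Finset.sum_congr rfl fun β hβ => ?_
  have e1 := Finsupp.mapDomain_apply' (m.support : Set ℝ) m subset_rfl hN (Finset.mem_coe.2 hβ)
  have e2 := Finsupp.mapDomain_apply' (m.support : Set ℝ) n (Finset.coe_subset.2 hsub) hN
    (Finset.mem_coe.2 hβ)
  simp only [mm, nn, hj, e1, e2, if_neg (Finsupp.mem_support_iff.1 hβ), Rat.smul_def]

end Pool.Agent.Lib.helper31.FreeMap
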