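import Pool.Agent.Lib.helper31.Hardy

set_option autoImplicit false

namespace Pool.Agent.H31.H2

open Complex Metric Set Filter Topology MeasureTheory Pool.Agent.H31.Hardy ComplexConjugate
open scoped InnerProductSpace

/-- square summable coefficient sequences -/
abbrev H : Type := lp (fun _ : ℕ => ℂ) 2

/-- the analytic function with the given Taylor coefficients -/
noncomputable def ev (f : H) (z : ℂ) : ℂ := ∑' n, f n * z ^ n

lemma ev_bd (f : H) {r : ℝ} (n : ℕ) {z : ℂ} (hz : ‖z‖ ≤ r) : ‖f n * z ^ n‖ ≤ ‖f‖ * r ^ n := by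
  rw [norm_mul, norm_pow]
  exact mul_le_mul (lp.norm_apply_le_norm (by simp) f n) (pow_le_pow_left₀ (norm_nonneg _) hz _)
    (by positivity) (norm_nonneg _)

lemma ev_sum (f : H) {z : ℂ} (hz : z ∈ ball (0 : ℂ) 1) : HasSum (fun n => f n * z ^ n) (ev f z) :=
  (Summable.of_norm_bounded ((summable_geometric_of_lt_one (norm_nonneg z)
    (mem_ball_zero_iff.1 hz)).mul_left ‖f‖) fun n => ev_bd f n le_rfl).hasSum

lemma ev_diff (f : H) : DifferentiableOn ℂ (ev f) (ball 0 1) := fun z hz => by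
  obtain ⟨r, h1, h2⟩ := exists_between (mem_ball_zero_iff.1 hz)
  have := differentiableOn_tsum_of_summable_norm (F := fun n (w : ℂ) => f n * w ^ n) (U := ball 0 r)
    ((summable_geometric_of_lt_one ((norm_nonneg z).trans h1.le) h2).mul_left ‖f‖)
    (fun n => by fun_prop) isOpen_ball fun n w hw => ev_bd f n (mem_ball_zero_iff.1 hw).le
  exact (this.differentiableAt (isOpen_ball.mem_nhds (mem_ball_zero_iff.2 h1))).differentiableWithinAt

lemma ev_an (f : H) : AnalyticOnNhd ℂ (ev f) (ball 0 1) := (ev_diff f).analyticOnNhd isOpen_ball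

lemma co_ev (f : H) (k : ℕ) : co (ev f) k = f k := by
  have h1 := (ev_an f 0 (by simp)).hasFPowerSeriesAt
  have h2 : HasFPowerSeriesAt (ev f) (FormalMultilinearSeries.ofScalars ℂ fun n => f n) 0 := by
    rw [hasFPowerSeriesAt_iff']
    filter_upwards [ball_mem_nhds (0 : ℂ) one_pos] with z hz
    simpa [mul_comm] using ev_sum f hz
  exact congrFun (FormalMultilinearSeries.ofScalars_series_injective ℂ ℂ
    (h1.eq_formalMultilinearSeries h2)) k

lemma norm_sum (f : H) : HasSum (fun k => ‖f k‖ ^ 2) (‖f‖ ^ 2) := by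
  simpa using lp.hasSum_norm (p := 2) (by simp) f

lemma ms_ev (f : H) :
    Tendsto (fun m : ℕ => ms (ev f) (Real.exp (-(1 / ((m : ℝ) + 1))))) atTop (𝓝 (‖f‖ ^ 2)) := by
  have := ms_lim (ev_diff f) (by simpa only [co_ev] using (norm_sum f).summable)
  simpa only [co_ev, (norm_sum f).tsum_eq] using this

lemma co_congr {g h : ℂ → ℂ} (e : ∀ z ∈ ball (0 : ℂ) 1, g z = h z) (k : ℕ) : co g k = co h k := by
  have : g =ᶠ[𝓝 0] h := by
    filter_upwards [ball_mem_nhds (0 : ℂ) one_pos] with z hz using e z hz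
  rw [co, co, this.iteratedDeriv_eq]

lemma ev_ext {f g : H} (e : ∀ z ∈ ball (0 : ℂ) 1, ev f z = ev g z) : f = g :=
  lp.ext (funext fun k => by rw [← co_ev, ← co_ev, co_congr e])

lemma exists_ev {g : ℂ → ℂ} (hg : DifferentiableOn ℂ g (ball 0 1))
    (hs : Summable fun k => ‖co g k‖ ^ 2) :
    ∃ f : H, (∀ z ∈ ball (0 : ℂ) 1, ev f z = g z) ∧ ‖f‖ ^ 2 = ∑' k, ‖co g k‖ ^ 2 := by
  refine ⟨⟨co g, memℓp_gen (by simpa using hs)⟩, fun z hz => ?_, (norm_sum _).tsum_eq.symm⟩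
  refine (ev_sum _ hz).unique ?_
  have e : ∀ n : ℕ, co g n * z ^ n
      = (n.factorial : ℂ)⁻¹ • (z - 0) ^ n • iteratedDeriv n g 0 := fun n => by
    simp only [co, sub_zero, smul_eq_mul]
    ring
  exact (hasSum_taylorSeries_on_ball hg hz).congr_fun e

/-- the reproducing kernel -/
noncomputable def K (a : ℂ) : H := by
  classical
  exact if h : a ∈ ball (0 : ℂ) 1 then ⟨fun n => conj a ^ n, memℓp_gen (by
    refine (summable_geometric_of_lt_one (sq_nonneg ‖a‖)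
      (pow_lt_one₀ (norm_nonneg a) (mem_ball_zero_iff.1 h) two_ne_zero)).congr fun n => ?_
    simp [← pow_mul, mul_comm])⟩ else 0

lemma K_app {a : ℂ} (h : a ∈ ball (0 : ℂ) 1) (n : ℕ) : K a n = conj a ^ n := by
  simp [K, -mem_ball, h]

lemma inner_K {a : ℂ} (h : a ∈ ball (0 : ℂ) 1) (f : H) : ⟪K a, f⟫_ℂ = ev f a := by
  rw [lp.inner_eq_tsum, ev]
  simp [K_app h]

lemma ev_K {a z : ℂ} (h : a ∈ ball (0 : ℂ) 1) (hz : z ∈ ball (0 : ℂ) 1) :
    ev (K a) z = (1 - conj a * z)⁻¹ := by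
  rw [ev, ← tsum_geometric_of_norm_lt_one]
  · simp [K_app h, mul_pow]
  · rw [norm_mul, norm_conj]
    exact mul_lt_one_of_nonneg_of_lt_one_left (norm_nonneg _) (mem_ball_zero_iff.1 h)
      (mem_ball_zero_iff.1 hz).le

lemma ev_add (f g : H) {z : ℂ} (hz : z ∈ ball (0 : ℂ) 1) : ev (f + g) z = ev f z + ev g z := by
  simp only [← inner_K hz, inner_add_right]

lemma ev_smul (c : ℂ) (g : H) {z : ℂ} (hz : z ∈ ball (0 : ℂ) 1) : ev (c • g) z = c * ev g z := by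
  simp only [← inner_K hz, inner_smul_right]

lemma ev_comb {n : ℕ} (c : Fin n → ℂ) {w : Fin n → ℂ} (hw : ∀ i, w i ∈ ball (0 : ℂ) 1) {z : ℂ}
    (hz : z ∈ ball (0 : ℂ) 1) : ev (∑ i, c i • K (w i)) z = ∑ i, c i * (1 - conj (w i) * z)⁻¹ := by
  simp only [← inner_K hz, inner_sum, inner_smul_right]
  simp only [inner_K hz, ev_K (hw _) hz]

lemma comb_zero {n : ℕ} {c w : Fin n → ℂ} (hw : ∀ i, w i ∈ ball (0 : ℂ) 1)
    (hi : Function.Injective w) (h : ∑ i, c i • K (w i) = 0) : c = 0 := by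
  refine Matrix.eq_zero_of_forall_pow_sum_mul_pow_eq_zero (f := fun i => conj (w i))
    ((starRingEnd ℂ).injective.comp hi) fun i => ?_
  have := congrArg (fun f : H => f i) h
  simp only [lp.coeFn_sum, lp.coeFn_smul, lp.coeFn_zero, Pi.zero_apply] at this
  rw [Finset.sum_apply] at this
  simpa [K_app (hw _)] using this

theorem exists_mul {φ : ℂ → ℂ} (hd : DifferentiableOn ℂ φ (ball 0 1))
    (hm : MapsTo φ (ball (0 : ℂ) 1) (ball (0 : ℂ) 1)) :
    ∃ M : H →L[ℂ] H, ∀ f, ∀ z ∈ ball (0 : ℂ) 1, ev (M f) z = φ z * ev f z := by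
  have h : ∀ f : H, ∃ g : H, (∀ z ∈ ball (0 : ℂ) 1, ev g z = φ z * ev f z) ∧ ‖g‖ ≤ 1 * ‖f‖ := by
    intro f
    have d := dom (g := fun z => φ z * ev f z) (hd.mul (ev_diff f)) (ev_diff f) (fun z hz => by
      rw [norm_mul]
      exact mul_le_of_le_one_left (norm_nonneg _) (mem_ball_zero_iff.1 (hm hz)).le)
      (by simpa only [co_ev] using (norm_sum f).summable)
    obtain ⟨g, h1, h2⟩ := exists_ev (g := fun z => φ z * ev f z) (hd.mul (ev_diff f)) d.1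
    refine ⟨g, h1, ?_⟩
    have := d.2
    simp only [co_ev, (norm_sum f).tsum_eq, ← h2] at this
    simpa using abs_le_of_sq_le_sq' this (norm_nonneg _) |>.2
  choose m h1 h2 using h
  refine ⟨LinearMap.mkContinuous ⟨⟨m, fun f g => ev_ext fun z hz => ?_⟩,
    fun c f => ev_ext fun z hz => ?_⟩ 1 h2, h1⟩
  · rw [h1 _ z hz, ev_add _ _ hz, ev_add _ _ hz, h1 _ z hz, h1 _ z hz, mul_add]
  · simp only [RingHom.id_apply]
    rw [h1 _ z hz, ev_smul _ _ hz, ev_smul _ _ hz, h1 _ z hz, mul_left_comm]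

lemma adj_K {T : H →L[ℂ] H} {a b c : ℂ} (ha : a ∈ ball (0 : ℂ) 1) (hb : b ∈ ball (0 : ℂ) 1)
    (h : ∀ f, ev (T f) a = c * ev f b) : T.adjoint (K a) = conj c • K b :=
  ext_inner_right ℂ fun f => by
    rw [T.adjoint_inner_left, inner_smul_left, inner_K ha, inner_K hb, h, conj_conj]

/-- the nonnegative defect -/
noncomputable def E (F h' F' h : H) (z : ℂ) : ℝ :=
  ‖ev F z‖ ^ 2 + ‖ev h' z‖ ^ 2 + ‖ev F' z‖ ^ 2 + ‖ev h z‖ ^ 2 - ‖ev (F' + h) z‖ ^ 2

lemma E_lim (F h' F' h : H) : Tendsto (fun m : ℕ => (2 * Real.pi)⁻¹ * ∫ θ in (0 : ℝ)..2 * Real.pi,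
    E F h' F' h (circleMap 0 (Real.exp (-(1 / ((m : ℝ) + 1)))) θ)) atTop
    (𝓝 (‖F‖ ^ 2 + ‖h'‖ ^ 2 - 2 * (⟪h, F'⟫_ℂ).re)) := by
  have := ((((ms_ev F).add (ms_ev h')).add (ms_ev F')).add (ms_ev h)).sub (ms_ev (F' + h))
  have e : ‖F' + h‖ ^ 2 = ‖h‖ ^ 2 + 2 * (⟪h, F'⟫_ℂ).re + ‖F'‖ ^ 2 := by
    rw [add_comm, @norm_add_sq ℂ]; rfl
  rw [e, show ‖F‖ ^ 2 + ‖h'‖ ^ 2 + ‖F'‖ ^ 2 + ‖h‖ ^ 2 - (‖h‖ ^ 2 + 2 * (⟪h, F'⟫_ℂ).re + ‖F'‖ ^ 2)
    = ‖F‖ ^ 2 + ‖h'‖ ^ 2 - 2 * (⟪h, F'⟫_ℂ).re by ring] at this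
  refine this.congr fun m => ?_
  have i : ∀ f : H, IntervalIntegrable (fun θ =>
      ‖ev f (circleMap 0 (Real.exp (-(1 / ((m : ℝ) + 1)))) θ)‖ ^ 2) volume 0 (2 * Real.pi) :=
    fun f => ((cm_cont (ev_diff f) (Real.exp_pos _) (rlt m)).norm.pow 2).intervalIntegrable _ _
  simp only [ms, E]
  rw [intervalIntegral.integral_sub ((((i _).add (i _)).add (i _)).add (i _)) (i _),
    intervalIntegral.integral_add (((i _).add (i _)).add (i _)) (i _),
    intervalIntegral.integral_add ((i _).add (i _)) (i _), intervalIntegral.integral_add (i _) (i _)]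
  ring

lemma E_nonneg {F h' F' h : H} {z : ℂ} (hz : z ∈ ball (0 : ℂ) 1)
    (e : ev F z * ev h' z = ev F' z * ev h z) : 0 ≤ E F h' F' h z := by
  have a := congrArg norm e
  have b := pow_le_pow_left₀ (norm_nonneg _) (norm_add_le (ev F' z) (ev h z)) 2
  rw [norm_mul, norm_mul] at a
  rw [E, ev_add _ _ hz]
  nlinarith [sq_nonneg (‖ev F z‖ - ‖ev h' z‖)]

lemma E_eq {F h' F' h : H} {z : ℂ} (hz : z ∈ ball (0 : ℂ) 1)
    (e : ev F z * ev h' z = ev F' z * ev h z) :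
    ‖ev F z * conj (ev h z) - ev h z * conj (ev h' z)‖ ^ 2 = ‖ev h z‖ ^ 2 * E F h' F' h z := by
  have e2 := congrArg conj e
  simp only [map_mul] at e2
  rw [E, ev_add _ _ hz, ← ofReal_inj]
  push_cast
  simp only [← mul_conj', map_sub, map_mul, map_add, conj_conj]
  linear_combination (-conj (ev h z) ^ 2) * e - (ev h z) ^ 2 * e2

theorem L1 {F h' F' h : H} (e : ∀ z ∈ ball (0 : ℂ) 1, ev F z * ev h' z = ev F' z * ev h z) :
    2 * (⟪h, F'⟫_ℂ).re ≤ ‖F‖ ^ 2 + ‖h'‖ ^ 2 :=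
  sub_nonneg.1 (ge_of_tendsto' (E_lim F h' F' h) fun m => mul_nonneg (by positivity)
    (intervalIntegral.integral_nonneg (by positivity) fun θ _ =>
      E_nonneg (cm_mem (Real.exp_pos _) (rlt m) θ) (e _ (cm_mem (Real.exp_pos _) (rlt m) θ))))

end Pool.Agent.H31.H2
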