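import Pool.Agent.Lib.helper31.H2

set_option autoImplicit false

namespace Pool.Agent.H31.H2

open Complex Metric Set Filter Topology MeasureTheory Pool.Agent.H31.Hardy ComplexConjugate
open Polynomial
open scoped InnerProductSpace

lemma pt_le {f : ℂ → ℂ} (hf : DifferentiableOn ℂ f (ball 0 1)) {R : ℝ} (hR0 : 0 < R) (hR2 : R < 1)
    {w : ℂ} (hw : w ∈ ball (0 : ℂ) R) : ‖f w‖ ^ 2 ≤ (R + ‖w‖) / (R - ‖w‖) * ms f R := by
  refine (step1 hf hR0 hR2 hw).trans ?_
  rw [ms, mul_left_comm, ← intervalIntegral.integral_const_mul ((R + ‖w‖) / (R - ‖w‖))]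
  have c : Continuous fun t => PK f R w t :=
    (PK_cont hf hR0 hR2 (γ := fun _ => w) continuous_const fun _ => hw).comp
      (f := fun t : ℝ => ((0 : ℝ), t)) (by fun_prop)
  refine mul_le_mul_of_nonneg_left (intervalIntegral.integral_mono_on (by positivity)
    (c.intervalIntegrable _ _) ((continuous_const.mul
      ((cm_cont hf hR0 hR2).norm.pow 2)).intervalIntegrable _ _) fun t _ => ?_) (by positivity)
  refine mul_le_mul_of_nonneg_right ?_ (by positivity)
  have hs : circleMap 0 R t ∈ sphere (0 : ℂ) R := by simp [abs_of_pos hR0]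
  simpa only [sub_zero] using re_herglotzRieszKernel_le hs hw

/-- numerator of a sum of simple fractions -/
noncomputable def Lg {n : ℕ} (c w : Fin n → ℂ) : ℂ[X] :=
  ∑ i, C (c i) * ∏ j ∈ Finset.univ.erase i, (X - C (w j))

lemma Lg_eval {n : ℕ} (c w : Fin n → ℂ) (z : ℂ) :
    (Lg c w).eval z = ∑ i, c i * ∏ j ∈ Finset.univ.erase i, (z - w j) := by
  simp [Lg, eval_finsetSum, eval_prod]

lemma Lg_ne {n : ℕ} {c w : Fin n → ℂ} (hi : Function.Injective w) (h : Lg c w = 0) : c = 0 := by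
  funext i
  have := Lg_eval c w (w i)
  rw [h, eval_zero, Finset.sum_eq_single i (fun j _ hj => mul_eq_zero_of_right _
    (Finset.prod_eq_zero (Finset.mem_erase.2 ⟨hj.symm, Finset.mem_univ i⟩) (sub_self _)))
    (by simp)] at this
  exact (mul_eq_zero.1 this.symm).resolve_right (Finset.prod_ne_zero_iff.2 fun j hj =>
    sub_ne_zero.2 fun e => (Finset.mem_erase.1 hj).1 (hi e).symm)

lemma conj_comb {n : ℕ} (c : Fin n → ℂ) {w : Fin n → ℂ} (hw : ∀ i, w i ∈ ball (0 : ℂ) 1) {z : ℂ}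
    (hz : z ∈ ball (0 : ℂ) 1) {r : ℝ} (hr : ‖z‖ = r) :
    z * (Lg (fun i => conj (c i)) fun i => r ^ 2 * w i).eval z
      = (∏ j, (z - r ^ 2 * w j)) * conj (ev (∑ i, c i • K (w i)) z) := by
  rw [ev_comb c hw hz, Lg_eval, map_sum, Finset.mul_sum, Finset.mul_sum]
  refine Finset.sum_congr rfl fun i _ => ?_
  have h1 : 1 - w i * conj z ≠ 0 := fun h => by
    have := congrArg norm (sub_eq_zero.1 h)
    rw [norm_mul, norm_conj, norm_one] at this
    exact absurd this (mul_lt_one_of_nonneg_of_lt_one_left (norm_nonneg _)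
      (mem_ball_zero_iff.1 (hw i)) (mem_ball_zero_iff.1 hz).le).ne'
  have h2 : (r : ℂ) ^ 2 = z * conj z := by rw [mul_conj', hr]
  rw [← Finset.mul_prod_erase _ _ (Finset.mem_univ i)]
  simp only [map_mul, map_inv₀, map_sub, map_one, conj_conj]
  rw [show z - r ^ 2 * w i = z * (1 - w i * conj z) by rw [h2]; ring]
  field_simp

theorem L2 {n : ℕ} {c c' w : Fin n → ℂ} (hw : ∀ i, w i ∈ ball (0 : ℂ) 1) {F h' F' h : H}
    (e1 : h = ∑ i, c i • K (w i)) (e2 : h' = ∑ i, c' i • K (w i))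
    (e : ∀ z ∈ ball (0 : ℂ) 1, ev F z * ev h' z = ev F' z * ev h z)
    (hle : ‖F‖ ^ 2 + ‖h'‖ ^ 2 ≤ 2 * (⟪h, F'⟫_ℂ).re) {z : ℂ} (hz : z ∈ ball (0 : ℂ) 1) :
    z * (ev F z * (Lg (fun i => conj (c i)) w).eval z
      - ev h z * (Lg (fun i => conj (c' i)) w).eval z) = 0 := by
  set B := ∑ i, ‖c i‖ * (1 - ‖w i‖)⁻¹ with hB
  have hb : ∀ z ∈ ball (0 : ℂ) 1, ‖ev h z‖ ≤ B := fun z hz => by
    rw [e1, ev_comb c hw hz]
    refine (norm_sum_le _ _).trans (Finset.sum_le_sum fun i _ => ?_)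
    have a := mem_ball_zero_iff.1 (hw i)
    have b := norm_sub_norm_le 1 (conj (w i) * z)
    have d := mul_le_of_le_one_right (norm_nonneg (w i)) (mem_ball_zero_iff.1 hz).le
    rw [norm_mul, norm_conj, norm_one] at b
    rw [norm_mul, norm_inv]
    exact mul_le_mul_of_nonneg_left (inv_anti₀ (by linarith) (by linarith)) (norm_nonneg _)
  set D : ℝ → ℂ → ℂ := fun r z => z * (ev F z * (Lg (fun i => conj (c i)) fun i => r ^ 2 * w i).eval z
    - ev h z * (Lg (fun i => conj (c' i)) fun i => r ^ 2 * w i).eval z) with hD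
  have d1 : ∀ r, DifferentiableOn ℂ (D r) (ball 0 1) := fun r =>
    differentiableOn_id.mul (((ev_diff F).mul (Polynomial.differentiable _).differentiableOn).sub
      ((ev_diff h).mul (Polynomial.differentiable _).differentiableOn))
  have d2 : ∀ r : ℝ, 0 < r → r < 1 → ms (D r) r ≤ (2 ^ n * B) ^ 2 * ((2 * Real.pi)⁻¹
      * ∫ θ in (0 : ℝ)..2 * Real.pi, E F h' F' h (circleMap 0 r θ)) := fun r h0 h1 => by
    rw [ms, mul_left_comm, ← intervalIntegral.integral_const_mul ((2 ^ n * B) ^ 2)]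
    have i := fun f : H => (cm_cont (ev_diff f) h0 h1).norm.pow 2
    refine mul_le_mul_of_nonneg_left (intervalIntegral.integral_mono_on (by positivity)
      (((cm_cont (d1 r) h0 h1).norm.pow 2).intervalIntegrable _ _) ((continuous_const.mul
        (((((i F).add (i h')).add (i F')).add (i h)).sub (i (F' + h)))).intervalIntegrable _ _)
      fun θ _ => ?_) (by positivity)
    have m := cm_mem h0 h1 θ
    have hr : ‖circleMap 0 r θ‖ = r := by simp [abs_of_pos h0]
    generalize circleMap 0 r θ = u at m hr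
    have a1 := conj_comb c hw m hr
    have a2 := conj_comb c' hw m hr
    rw [← e1] at a1
    rw [← e2] at a2
    have a3 : D r u = (∏ j, (u - r ^ 2 * w j)) * (ev F u * conj (ev h u) - ev h u * conj (ev h' u)) := by
      simp only [hD]
      linear_combination ev F u * a1 - ev h u * a2
    have a4 : ‖∏ j, (u - r ^ 2 * w j)‖ ≤ 2 ^ n := by
      rw [norm_prod]
      refine (Finset.prod_le_prod (g := fun _ => 2) (fun _ _ => norm_nonneg _)
        fun j _ => (norm_sub_le _ _).trans ?_).trans_eq (by simp)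
      have := mem_ball_zero_iff.1 (hw j)
      rw [hr, norm_mul, norm_pow, norm_real, Real.norm_of_nonneg h0.le]
      nlinarith [norm_nonneg (w j)]
    rw [a3, norm_mul, mul_pow, E_eq m (e u m), mul_pow, mul_assoc]
    have := E_nonneg m (e u m)
    have := hb u m
    gcongr
  have z1 := mem_ball_zero_iff.1 hz
  have t1 : Tendsto (fun m : ℕ => ‖D (Real.exp (-(1 / ((m : ℝ) + 1)))) z‖ ^ 2) atTop
      (𝓝 (‖D 1 z‖ ^ 2)) := by
    have : Continuous fun r : ℝ => ‖D r z‖ ^ 2 := by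
      simp only [hD, Lg_eval]
      fun_prop
    exact (this.tendsto 1).comp rlim
  have t2 := ((rlim.add_const ‖z‖).div (rlim.sub_const ‖z‖) (by linarith)).mul
    ((E_lim F h' F' h).const_mul ((2 ^ n * B) ^ 2))
  have t3 := le_of_tendsto_of_tendsto t1 t2 (by
    filter_upwards [rlim.eventually (lt_mem_nhds z1)] with m hm
    refine (pt_le (d1 _) (Real.exp_pos _) (rlt m) (mem_ball_zero_iff.2 hm)).trans ?_
    exact mul_le_mul_of_nonneg_left (d2 _ (Real.exp_pos _) (rlt m))
      (div_nonneg (by positivity) (by linarith)))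
  have t4 := t3.trans (mul_nonpos_of_nonneg_of_nonpos (div_nonneg (by positivity) (by linarith))
    (mul_nonpos_of_nonneg_of_nonpos (by positivity) (by linarith)))
  have t5 := norm_eq_zero.1 (pow_eq_zero_iff two_ne_zero |>.1 (le_antisymm t4 (by positivity)))
  simpa [hD] using t5

/-- homogenisation -/
noncomputable def hm (m : ℕ) (B P Q : ℂ[X]) : ℂ[X] :=
  ∑ k ∈ Finset.range (m + 1), C (B.coeff k) * P ^ k * Q ^ (m - k)

lemma hm_map {L : Type} [Field L] [Algebra ℂ L] (e : ℂ[X] →ₐ[ℂ] L) {m : ℕ} {B P Q : ℂ[X]}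
    (hB : B.natDegree < m + 1) (hQ : e Q ≠ 0) :
    e (hm m B P Q) = e Q ^ m * aeval (e P / e Q) B := by
  rw [aeval_eq_sum_range' hB, hm, map_sum, Finset.mul_sum]
  refine Finset.sum_congr rfl fun k hk => ?_
  obtain ⟨j, rfl⟩ := Nat.exists_eq_add_of_le (Nat.lt_succ_iff.1 (Finset.mem_range.1 hk))
  rw [map_mul, map_mul, map_pow, map_pow, ← algebraMap_eq, e.commutes, Algebra.smul_def,
    Nat.add_sub_cancel_left, div_pow, pow_add]
  field_simp

theorem moebius {P Q A B : ℂ[X]} (hQ : Q ≠ 0) (hB : B ≠ 0) (hc : ∀ c, P ≠ C c * Q) {S : Set ℂ}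
    (hS : S.Infinite) {φ : ℂ → ℂ} (h1 : ∀ z ∈ S, φ z * Q.eval z = P.eval z)
    (h2 : ∀ z ∈ S, z * B.eval (φ z) = A.eval (φ z)) :
    ∃ a b c d : ℂ, a * d - b * c ≠ 0 ∧ P * (C c * X + C d) = Q * (C a * X + C b) := by
  set m := max A.natDegree B.natDegree
  have mA : A.natDegree < m + 1 := Nat.lt_succ_of_le (le_max_left _ _)
  have mB : B.natDegree < m + 1 := Nat.lt_succ_of_le (le_max_right _ _)
  have h3 : X * hm m B P Q - hm m A P Q = 0 := by
    refine eq_zero_of_infinite_isRoot _ ((hS.sdiff (Q.roots.toFinset.finite_toSet)).mono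
      fun z hz => ?_)
    have q : aeval z Q ≠ 0 := fun h => hz.2 (by simpa [hQ] using h)
    have a : aeval z P / aeval z Q = φ z := by
      rw [div_eq_iff q]; exact (h1 z hz.1).symm
    have a1 := hm_map (aeval z) (P := P) mA q
    have a2 := hm_map (aeval z) (P := P) mB q
    rw [a] at a1 a2
    simp only [coe_aeval_eq_eval] at a1 a2
    simp only [mem_ofPred_eq, IsRoot, eval_sub, eval_mul, eval_X, a1, a2]
    linear_combination eval z Q ^ m * h2 z hz.1
  set e := IsScalarTower.toAlgHom ℂ ℂ[X] (RatFunc ℂ)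
  have q : e Q ≠ 0 := RatFunc.algebraMap_ne_zero hQ
  set f := e P / e Q with hf
  have nc : ¬ ∃ c, f = RatFunc.C c := fun ⟨c, h⟩ => hc c (RatFunc.algebraMap_injective ℂ (by
    rw [hf, div_eq_iff q] at h
    rw [map_mul, RatFunc.algebraMap_C]
    exact h))
  have b0 : aeval f B ≠ 0 := fun h => f.transcendental_of_ne_C nc ⟨B, hB, h⟩
  have h4 := congrArg e h3
  rw [map_sub, map_mul, hm_map e mA q, hm_map e mB q, map_zero, mul_left_comm, ← mul_sub,
    mul_eq_zero, sub_eq_zero, ← eq_div_iff b0] at h4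
  have h5 : IntermediateField.adjoin ℂ {f} = ⊤ := by
    rw [eq_top_iff, ← RatFunc.adjoin_X, IntermediateField.adjoin_simple_le_iff,
      IntermediateField.mem_adjoin_simple_iff]
    exact ⟨A, B, h4.resolve_left (pow_ne_zero _ q)⟩
  have h6 := f.finrank_eq_max_natDegree
  rw [IntermediateField.finrank_eq_one_iff_eq_top.2 h5] at h6
  have n1 := eq_X_add_C_of_natDegree_le_one ((le_max_left _ _).trans h6.ge)
  have n2 := eq_X_add_C_of_natDegree_le_one ((le_max_right _ _).trans h6.ge)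
  have h7 := (RatFunc.num_mul_eq_mul_denom_iff hQ).2 hf
  refine ⟨f.num.coeff 1, f.num.coeff 0, f.denom.coeff 1, f.denom.coeff 0, fun h => ?_,
    by rw [← n1, ← n2, ← h7, mul_comm]⟩
  generalize f.num.coeff 1 = a, f.num.coeff 0 = b, f.denom.coeff 1 = c, f.denom.coeff 0 = d at *
  have d0 := f.denom_ne_zero
  have h8 : C a * C d - C b * C c = 0 := by rw [← C_mul, ← C_mul, ← C_sub, h, C_0]
  rcases eq_or_ne c 0 with rfl | c0
  · have d1 : d ≠ 0 := fun h => d0 (by simp [n2, h])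
    refine hc (b / d) (mul_left_cancel₀ d0 ?_)
    have a0 : a = 0 := by simpa [d1] using h
    rw [mul_comm, ← h7, n1, n2, ← mul_assoc, a0]
    simp only [C_0, zero_mul, zero_add, ← C_mul, mul_div_cancel₀ _ d1]
  · refine hc (a / c) (mul_left_cancel₀ d0 (mul_left_cancel₀ (C_ne_zero.2 c0) ?_))
    have h9 : C c * C (a / c) = C a := by rw [← C_mul, mul_div_cancel₀ _ c0]
    rw [mul_comm f.denom, ← h7, n1, n2]
    linear_combination (-Q) * h8 - (C c * X + C d) * Q * h9

end Pool.Agent.H31.H2
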