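import Mathlib

set_option autoImplicit false

namespace Pool.Agent.H31.HPN

open Complex Set Filter Topology MeasureTheory ComplexConjugate

lemma nb {p : ℂ} (hp : 0 < p.re) : ∃ K : ℝ, 0 < K ∧ ∀ y : ℝ, 1 + y ^ 2 ≤ K * ‖p + y * I‖ ^ 2 := by
  refine ⟨(1 + 2 * p.im ^ 2) / p.re ^ 2 + 2, by positivity, fun y => ?_⟩
  have h : ‖p + y * I‖ ^ 2 = p.re ^ 2 + (p.im + y) ^ 2 := by
    rw [Complex.sq_norm, normSq_apply]; simp; ring
  have h2 : (1 + 2 * p.im ^ 2) / p.re ^ 2 * p.re ^ 2 = 1 + 2 * p.im ^ 2 := by field_simp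
  have h3 : 0 ≤ (1 + 2 * p.im ^ 2) / p.re ^ 2 * (p.im + y) ^ 2 := by positivity
  rw [h]
  nlinarith [sq_nonneg (2 * p.im + y), sq_nonneg p.re]

lemma ne0 {p : ℂ} (hp : 0 < p.re) : p ≠ 0 := fun h => by simp [h] at hp

lemma inv_int {p q : ℂ} (hp : 0 < p.re) (hq : 0 < q.re) :
    Integrable fun y : ℝ => 1 / ((p + y * I) * (q - y * I)) := by
  obtain ⟨K, hK, h1⟩ := nb hp
  obtain ⟨L, hL, h2⟩ := nb hq
  have n1 : ∀ y : ℝ, p + y * I ≠ 0 := fun y => ne0 (by simpa using hp)
  have n2 : ∀ y : ℝ, q - y * I ≠ 0 := fun y => ne0 (by simpa using hq)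
  refine (integrable_inv_one_add_sq.const_mul (K + L)).mono'
    (Continuous.aestronglyMeasurable (continuous_const.div (by fun_prop)
      fun y => mul_ne_zero (n1 y) (n2 y))) (Eventually.of_forall fun y => ?_)
  have a1 := h1 y
  have a2 := h2 (-y)
  have e : q + ((-y : ℝ) : ℂ) * I = q - y * I := by push_cast; ring
  rw [e, neg_sq] at a2
  have b1 := norm_pos_iff.2 (n1 y)
  have b2 := norm_pos_iff.2 (n2 y)
  rw [norm_div, norm_one, norm_mul, ← div_eq_mul_inv, div_le_div_iff₀ (by positivity)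
    (by positivity), one_mul]
  rcases le_total ‖p + y * I‖ ‖q - y * I‖ with h | h
  · nlinarith [mul_le_mul_of_nonneg_left h (mul_pos hK b1).le, mul_pos hL (mul_pos b1 b2)]
  · nlinarith [mul_le_mul_of_nonneg_left h (mul_pos hL b2).le, mul_pos hK (mul_pos b1 b2)]

lemma log_lim (p q : ℂ) (hp : 0 < p.re) (hq : 0 < q.re) :
    Tendsto (fun y : ℝ => log (p + y * I) - log (q - y * I)) atTop (𝓝 (Real.pi * I)) := by
  have t : Tendsto (fun y : ℝ => ((y : ℂ))⁻¹) atTop (𝓝 0) := by
    have := (continuous_ofReal.tendsto 0).comp tendsto_inv_atTop_zero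
    simpa [Function.comp_def] using this
  have t1 : Tendsto (fun y : ℝ => log (p * (y : ℂ)⁻¹ + I)) atTop (𝓝 (log I)) :=
    (continuousAt_clog (by simp [slitPlane])).tendsto.comp
      (by simpa using (t.const_mul p).add_const I)
  have t2 : Tendsto (fun y : ℝ => log (q * (y : ℂ)⁻¹ - I)) atTop (𝓝 (log (-I))) :=
    (continuousAt_clog (by simp [slitPlane])).tendsto.comp
      (by simpa using (t.const_mul q).sub_const I)
  have t3 := t1.sub t2
  rw [log_I, log_neg_I, show (Real.pi : ℂ) / 2 * I - -(Real.pi / 2) * I = Real.pi * I by ring] at t3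
  refine t3.congr' ?_
  filter_upwards [eventually_gt_atTop 0] with y hy
  have hy' : (y : ℂ) ≠ 0 := by exact_mod_cast hy.ne'
  have e1 : p + y * I = y * (p * (y : ℂ)⁻¹ + I) := by field_simp
  have e2 : q - y * I = y * (q * (y : ℂ)⁻¹ - I) := by field_simp
  have n1 : p + y * I ≠ 0 := ne0 (by simpa using hp)
  have n2 : q - y * I ≠ 0 := ne0 (by simpa using hq)
  rw [e1] at n1
  rw [e2] at n2
  rw [e1, e2, log_ofReal_mul hy (right_ne_zero_of_mul n1), log_ofReal_mul hy (right_ne_zero_of_mul n2)]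
  ring

lemma inv_val {p q : ℂ} (hp : 0 < p.re) (hq : 0 < q.re) :
    ∫ y : ℝ, 1 / ((p + y * I) * (q - y * I)) = 2 * Real.pi / (p + q) := by
  have hpq : p + q ≠ 0 := ne0 (by simp; linarith)
  have h1 := (log_lim p q hp hq).const_mul (-I / (p + q))
  have h2 := ((log_lim q p hq hp).comp tendsto_neg_atBot_atTop).const_mul (I / (p + q))
  rw [integral_of_hasDerivAt_of_tendsto
    (f := fun y : ℝ => -I / (p + q) * (log (p + y * I) - log (q - y * I))) (fun y => ?_)
    (inv_int hp hq) (h2.congr fun y => ?_) h1]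
  · field_simp
    linear_combination (-2 : ℂ) * I_mul_I
  · have n1 : p + y * I ≠ 0 := ne0 (by simpa using hp)
    have n2 : q - y * I ≠ 0 := ne0 (by simpa using hq)
    have d1 : HasDerivAt (fun w : ℂ => log (p + w * I)) (I / (p + y * I)) y := by
      simpa using (((hasDerivAt_id (y : ℂ)).mul_const I).const_add p).clog
        (Or.inl (by simpa using hp))
    have d2 : HasDerivAt (fun w : ℂ => log (q - w * I)) (-I / (q - y * I)) y := by
      simpa using (((hasDerivAt_id (y : ℂ)).mul_const I).const_sub q).clog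
        (Or.inl (by simpa using hq))
    have e : 1 / ((p + y * I) * (q - y * I))
        = -I / (p + q) * (I / (p + y * I) - -I / (q - y * I)) := by
      field_simp
      linear_combination (p + q) * I_mul_I
    rw [e]
    exact ((d1.sub d2).const_mul (-I / (p + q))).comp_ofReal
  · simp only [Function.comp, ofReal_neg, neg_mul, sub_neg_eq_add, ← sub_eq_add_neg]
    ring

/-- Gram form of Cauchy kernels on the line with real part `x` -/
noncomputable def G {n : ℕ} (b : Fin n → ℂ) (x : ℝ) (c d : Fin n → ℂ) : ℂ :=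
  ∑ i, ∑ j, c i * conj (d j) / (2 * x + conj (b i) + b j)

lemma sq_sum {n : ℕ} (u : Fin n → ℂ) :
    ((‖∑ i, u i‖ ^ 2 : ℝ) : ℂ) = ∑ i, ∑ j, u i * conj (u j) := by
  rw [← Finset.sum_mul_sum, ← map_sum, mul_conj, normSq_eq_norm_sq]

lemma line {n : ℕ} {b : Fin n → ℂ} (hb : ∀ i, 0 < (b i).re) {x : ℝ} (hx : 0 ≤ x) (c : Fin n → ℂ) :
    ∫⁻ y : ℝ, (‖∑ i, c i / ((x : ℂ) + (y : ℂ) * I + conj (b i))‖₊ : ENNReal) ^ 2
      = ENNReal.ofReal (2 * Real.pi * (G b x c c).re) := by
  have p1 : ∀ i, 0 < (x + conj (b i)).re := fun i => by have := hb i; simp; linarith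
  have p2 : ∀ i, 0 < (x + b i).re := fun i => by have := hb i; simp; linarith
  have e : ∀ y : ℝ, ((‖∑ i, c i / ((x : ℂ) + (y : ℂ) * I + conj (b i))‖ ^ 2 : ℝ) : ℂ)
      = ∑ i, ∑ j, c i * conj (c j) * (1 / ((x + conj (b i) + y * I) * (x + b j - y * I))) := by
    intro y
    rw [sq_sum]
    refine Finset.sum_congr rfl fun i _ => Finset.sum_congr rfl fun j _ => ?_
    simp only [map_div₀, map_add, map_mul, conj_ofReal, conj_I, conj_conj]
    rw [div_mul_div_comm, mul_one_div]
    congr 2 <;> ring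
  have i1 : ∀ i j, Integrable fun y : ℝ =>
      c i * conj (c j) * (1 / ((x + conj (b i) + y * I) * (x + b j - y * I))) :=
    fun i j => (inv_int (p1 i) (p2 j)).const_mul _
  have i2 : Integrable fun y : ℝ =>
      ((‖∑ i, c i / ((x : ℂ) + (y : ℂ) * I + conj (b i))‖ ^ 2 : ℝ) : ℂ) := by
    simp only [e]
    exact integrable_finsetSum _ fun i _ => integrable_finsetSum _ fun j _ => i1 i j
  have i3 : Integrable fun y : ℝ => ‖∑ i, c i / ((x : ℂ) + (y : ℂ) * I + conj (b i))‖ ^ 2 := by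
    simpa only [RCLike.re_to_complex, ofReal_re] using i2.re
  have v : ((∫ y : ℝ, ‖∑ i, c i / ((x : ℂ) + (y : ℂ) * I + conj (b i))‖ ^ 2 : ℝ) : ℂ)
      = 2 * Real.pi * G b x c c := by
    rw [← integral_complex_ofReal]
    simp only [e]
    rw [integral_finsetSum _ fun i _ => integrable_finsetSum _ fun j _ => i1 i j, G, Finset.mul_sum]
    refine Finset.sum_congr rfl fun i _ => ?_
    rw [integral_finsetSum _ fun j _ => i1 i j, Finset.mul_sum]
    refine Finset.sum_congr rfl fun j _ => ?_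
    rw [integral_const_mul, inv_val (p1 i) (p2 j), show (x : ℂ) + conj (b i) + (x + b j)
      = 2 * x + conj (b i) + b j by ring]
    ring
  have v2 := congrArg re v
  rw [ofReal_re, show 2 * (Real.pi : ℂ) = ((2 * Real.pi : ℝ) : ℂ) by push_cast; ring,
    re_ofReal_mul] at v2
  rw [← v2, ofReal_integral_eq_lintegral_ofReal i3 (Eventually.of_forall fun y => by positivity)]
  refine lintegral_congr fun y => ?_
  rw [ENNReal.ofReal_pow (norm_nonneg _), ofReal_norm]
  rfl

lemma G_exp {n : ℕ} {b : Fin n → ℂ} (hb : ∀ i, 0 < (b i).re) {x : ℝ} (hx : 0 ≤ x) (c : Fin n → ℂ) :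
    IntegrableOn (fun t : ℝ => Real.exp (-(2 * x * t)) * ‖∑ i, c i * exp (-(conj (b i) * t))‖ ^ 2)
      (Ioi 0) ∧ (G b x c c).re = ∫ t in Ioi (0 : ℝ),
        Real.exp (-(2 * x * t)) * ‖∑ i, c i * exp (-(conj (b i) * t))‖ ^ 2 := by
  have p1 : ∀ i j, (-(2 * x + conj (b i) + b j)).re < 0 := fun i j => by
    have := hb i; have := hb j; simp; linarith
  have e : ∀ t : ℝ, ((Real.exp (-(2 * x * t)) * ‖∑ i, c i * exp (-(conj (b i) * t))‖ ^ 2 : ℝ) : ℂ)
      = ∑ i, ∑ j, c i * conj (c j) * exp (-(2 * x + conj (b i) + b j) * t) := by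
    intro t
    rw [ofReal_mul, sq_sum, Finset.mul_sum]
    refine Finset.sum_congr rfl fun i _ => ?_
    rw [Finset.mul_sum]
    refine Finset.sum_congr rfl fun j _ => ?_
    rw [map_mul, ← exp_conj, show -(2 * (x : ℂ) + conj (b i) + b j) * t
      = -(2 * x * t) + (-(conj (b i) * t) + -(b j * t)) by ring, exp_add, exp_add]
    simp only [map_neg, map_mul, conj_conj, conj_ofReal]
    push_cast
    ring
  have i1 : ∀ i j, IntegrableOn (fun t : ℝ =>
      c i * conj (c j) * exp (-(2 * x + conj (b i) + b j) * t)) (Ioi 0) :=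
    fun i j => (integrableOn_exp_mul_complex_Ioi (p1 i j) 0).const_mul _
  have i2 : IntegrableOn (fun t : ℝ => ((Real.exp (-(2 * x * t))
      * ‖∑ i, c i * exp (-(conj (b i) * t))‖ ^ 2 : ℝ) : ℂ)) (Ioi 0) := by
    simp only [e]
    exact integrable_finsetSum _ fun i _ => integrable_finsetSum _ fun j _ => i1 i j
  refine ⟨by simpa only [IntegrableOn, RCLike.re_to_complex, ofReal_re] using i2.re, ?_⟩
  have v : ((∫ t in Ioi (0 : ℝ), Real.exp (-(2 * x * t))
      * ‖∑ i, c i * exp (-(conj (b i) * t))‖ ^ 2 : ℝ) : ℂ) = G b x c c := by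
    rw [← integral_complex_ofReal]
    simp only [e]
    rw [integral_finsetSum _ fun i _ => integrable_finsetSum _ fun j _ => i1 i j, G]
    refine Finset.sum_congr rfl fun i _ => ?_
    rw [integral_finsetSum _ fun j _ => i1 i j]
    refine Finset.sum_congr rfl fun j _ => ?_
    rw [integral_const_mul, integral_exp_mul_complex_Ioi (p1 i j)]
    simp [div_eq_mul_inv, -neg_add_rev]
  rw [← v, ofReal_re]

lemma G_nonneg {n : ℕ} {b : Fin n → ℂ} (hb : ∀ i, 0 < (b i).re) (c : Fin n → ℂ) :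
    0 ≤ (G b 0 c c).re := by
  rw [(G_exp hb le_rfl c).2]
  exact integral_nonneg fun t => by positivity

lemma sup_eq {n : ℕ} {b : Fin n → ℂ} (hb : ∀ i, 0 < (b i).re) (c : Fin n → ℂ) :
    ⨆ (x : ℝ) (_ : 0 < x),
      ∫⁻ y : ℝ, (‖∑ i, c i / ((x : ℂ) + (y : ℂ) * I + conj (b i))‖₊ : ENNReal) ^ 2
      = ENNReal.ofReal (2 * Real.pi * (G b 0 c c).re) := by
  refine le_antisymm (iSup₂_le fun x hx => ?_) ?_
  · rw [line hb hx.le]
    refine ENNReal.ofReal_le_ofReal (mul_le_mul_of_nonneg_left ?_ (by positivity))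
    rw [(G_exp hb le_rfl c).2, (G_exp hb hx.le c).2]
    refine setIntegral_mono_on (G_exp hb hx.le c).1 (G_exp hb le_rfl c).1 measurableSet_Ioi
      fun t ht => mul_le_mul_of_nonneg_right (Real.exp_le_exp.2 ?_) (by positivity)
    have : 0 < x * t := mul_pos hx ht
    linarith
  · have hc : ContinuousAt (fun x : ℝ => G b x c c) 0 := by
      refine tendsto_finsetSum _ fun i _ => tendsto_finsetSum _ fun j _ => ?_
      refine ContinuousAt.div (by fun_prop) (by fun_prop) (ne0 ?_)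
      have := hb i; have := hb j; simp; linarith
    have h2 : Tendsto (fun x : ℝ => ENNReal.ofReal (2 * Real.pi * (G b x c c).re)) (𝓝[>] 0)
        (𝓝 (ENNReal.ofReal (2 * Real.pi * (G b 0 c c).re))) :=
      ENNReal.tendsto_ofReal (tendsto_nhdsWithin_of_tendsto_nhds
        (((continuous_re.tendsto _).comp hc).const_mul _))
    refine le_of_tendsto h2 ?_
    filter_upwards [self_mem_nhdsWithin] with x hx
    rw [← line hb (le_of_lt hx)]
    exact le_iSup₂_of_le x hx le_rfl

end Pool.Agent.H31.HPN
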