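import Pool.Agent.Lib.helper31.HPN

set_option autoImplicit false

namespace Pool.Agent.H31.HPN

open Complex Set Filter Topology MeasureTheory ComplexConjugate

/-- squared norm of the composed kernel combination -/
noncomputable def N (φ : ℂ → ℂ) {n : ℕ} (a c : Fin n → ℂ) : ENNReal :=
  ⨆ (x : ℝ) (_ : 0 < x), ∫⁻ y : ℝ,
    (‖∑ i, c i / (φ ((x : ℂ) + (y : ℂ) * I) + conj (a i))‖₊ : ENNReal) ^ 2

lemma enn (z : ℂ) : (‖z‖₊ : ENNReal) ^ 2 = ENNReal.ofReal (‖z‖ ^ 2) := by
  rw [ENNReal.ofReal_pow (norm_nonneg _), ofReal_norm]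
  rfl

lemma shift {n : ℕ} {a c : Fin n → ℂ} (ha : ∀ i, 0 < (a i).re) (hc : ∑ i, c i = 0) {w : ℂ}
    (hw : 0 < w.re) :
    ∑ i, conj (a i) * c i / (w + conj (a i)) = -w * ∑ i, c i / (w + conj (a i)) := by
  rw [Finset.mul_sum, ← sub_eq_zero, ← Finset.sum_sub_distrib, ← hc]
  refine Finset.sum_congr rfl fun i _ => ?_
  have : w + conj (a i) ≠ 0 := ne0 (by have := ha i; simp; linarith)
  field_simp
  ring

lemma N_le {φ : ℂ → ℂ} (hd : DifferentiableOn ℂ φ {z : ℂ | 0 < z.re})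
    (hm : MapsTo φ {z : ℂ | 0 < z.re} {z : ℂ | 0 < z.re}) {n : ℕ} {a c d : Fin n → ℂ}
    (ha : ∀ i, 0 < (a i).re) (hc : ∑ i, c i = 0) (hd0 : ∑ i, d i = 0) :
    N φ a (fun i => conj (a i) * d i + c i) ≤ N φ a (fun i => conj (a i) * d i) + (N φ a c
      + (N φ a d + N φ a fun i => conj (a i) * c i)) := by
  refine iSup₂_le fun x hx => ?_
  have hz : ∀ y : ℝ, (x : ℂ) + y * I ∈ {z : ℂ | 0 < z.re} := fun y => by simpa using hx
  have hc1 : Continuous fun y : ℝ => φ (x + y * I) :=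
    hd.continuousOn.comp_continuous (by fun_prop) hz
  have me : ∀ e : Fin n → ℂ, Measurable fun y : ℝ =>
      (‖∑ i, e i / (φ ((x : ℂ) + (y : ℂ) * I) + conj (a i))‖₊ : ENNReal) ^ 2 := fun e =>
    ((continuous_finsetSum _ fun i _ => continuous_const.div (hc1.add continuous_const)
      fun y => ne0 (by
        have := ha i; have h2 : 0 < (φ (x + y * I)).re := hm (hz y)
        show 0 < (φ (x + y * I) + conj (a i)).re
        simp only [add_re, conj_re]; linarith)).nnnorm.measurable.coe_nnreal_ennreal).pow_const 2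
  have le : ∀ e : Fin n → ℂ, ∫⁻ y : ℝ,
      (‖∑ i, e i / (φ ((x : ℂ) + (y : ℂ) * I) + conj (a i))‖₊ : ENNReal) ^ 2 ≤ N φ a e :=
    fun e => le_iSup₂_of_le x hx le_rfl
  refine le_trans ?_ (add_le_add (le _) (add_le_add (le _) (add_le_add (le _) (le _))))
  rw [← lintegral_add_left (me _), ← lintegral_add_left (me _), ← lintegral_add_left (me _)]
  refine lintegral_mono fun y => ?_
  have h2 : 0 < (φ (x + y * I)).re := hm (hz y)
  simp only [add_div, Finset.sum_add_distrib, shift ha hc h2, shift ha hd0 h2, enn]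
  rw [← ENNReal.ofReal_add (by positivity) (by positivity),
    ← ENNReal.ofReal_add (by positivity) (by positivity),
    ← ENNReal.ofReal_add (by positivity) (by positivity)]
  refine ENNReal.ofReal_le_ofReal ?_
  generalize ∑ i, d i / (φ (x + y * I) + conj (a i)) = u
  generalize ∑ i, c i / (φ (x + y * I) + conj (a i)) = v
  have := pow_le_pow_left₀ (norm_nonneg _) (norm_add_le (-φ (x + y * I) * u) v) 2
  simp only [norm_mul] at this ⊢
  nlinarith [sq_nonneg (‖u‖ - ‖-φ (x + y * I)‖ * ‖v‖)]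

lemma G_add {n : ℕ} (b c d : Fin n → ℂ) : (G b 0 (fun i => c i + d i) fun i => c i + d i).re
    = (G b 0 c c).re + (G b 0 d d).re + 2 * (G b 0 c d).re := by
  have h : G b 0 d c = conj (G b 0 c d) := by
    simp only [G, map_sum, map_div₀, map_mul, map_add, conj_conj, conj_ofReal, map_ofNat]
    rw [Finset.sum_comm]
    refine Finset.sum_congr rfl fun i _ => Finset.sum_congr rfl fun j _ => ?_
    congr 1 <;> ring
  have h2 : (G b 0 (fun i => c i + d i) fun i => c i + d i)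
      = G b 0 c c + G b 0 d d + G b 0 c d + G b 0 d c := by
    simp only [G, ← Finset.sum_add_distrib, map_add]
    refine Finset.sum_congr rfl fun i _ => Finset.sum_congr rfl fun j _ => ?_
    ring
  rw [h2, h]
  simp only [add_re, conj_re]
  ring

lemma key {φ : ℂ → ℂ} (hd : DifferentiableOn ℂ φ {z : ℂ | 0 < z.re})
    (hm : MapsTo φ {z : ℂ | 0 < z.re} {z : ℂ | 0 < z.re}) {n : ℕ} {a c d : Fin n → ℂ}
    (ha : ∀ i, 0 < (a i).re) (hc : ∑ i, c i = 0) (hd0 : ∑ i, d i = 0)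
    (hN : ∀ e, N φ a e = ENNReal.ofReal (2 * Real.pi * (G (fun i => φ (a i)) 0 e e).re)) :
    2 * (G (fun i => φ (a i)) 0 (fun i => conj (a i) * d i) c).re ≤ (G (fun i => φ (a i)) 0 d d).re
      + (G (fun i => φ (a i)) 0 (fun i => conj (a i) * c i) fun i => conj (a i) * c i).re := by
  have h := N_le hd hm ha hc hd0
  have p : ∀ e, 0 ≤ 2 * Real.pi * (G (fun i => φ (a i)) 0 e e).re := fun e =>
    mul_nonneg (by positivity) (G_nonneg (fun i => hm (ha i)) e)
  simp only [hN] at h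
  rw [← ENNReal.ofReal_add (p _) (p _), ← ENNReal.ofReal_add (p _) (add_nonneg (p _) (p _)),
    ← ENNReal.ofReal_add (p _) (add_nonneg (p _) (add_nonneg (p _) (p _))),
    ENNReal.ofReal_le_ofReal_iff (add_nonneg (p _) (add_nonneg (p _) (add_nonneg (p _) (p _)))),
    G_add] at h
  nlinarith [Real.pi_pos]

lemma inv_lim {F : ℝ → ℂ} {C : ℝ} (h : ∀ x, 0 < x → x ≤ C * (F x).re) :
    Tendsto (fun x => (F x)⁻¹) atTop (𝓝 0) ∧ ∀ᶠ x : ℝ in atTop, ‖x * (F x)⁻¹‖ ≤ |C| := by
  have h1 : ∀ x : ℝ, 0 < x → ‖x * (F x)⁻¹‖ ≤ |C| := fun x hx => by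
    have a1 := (h x hx).trans (le_abs_self _)
    rw [abs_mul] at a1
    have a2 := a1.trans (mul_le_mul_of_nonneg_left (abs_re_le_norm _) (abs_nonneg C))
    rw [norm_mul, norm_inv, norm_real, Real.norm_of_nonneg hx.le, ← div_eq_mul_inv]
    exact div_le_of_le_mul₀ (norm_nonneg _) (abs_nonneg _) a2
  refine ⟨squeeze_zero_norm' ?_ (tendsto_const_nhds.div_atTop tendsto_id (a := |C|)),
    (eventually_gt_atTop 0).mono h1⟩
  filter_upwards [eventually_gt_atTop 0] with x hx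
  have := h1 x hx
  rw [norm_mul, norm_real, Real.norm_of_nonneg hx.le] at this
  rw [id, le_div_iff₀ hx, mul_comm]
  exact this

lemma three {φ : ℂ → ℂ} (hd : DifferentiableOn ℂ φ {z : ℂ | 0 < z.re})
    (hm : MapsTo φ {z : ℂ | 0 < z.re} {z : ℂ | 0 < z.re}) {C : ℝ} (hC : 0 ≤ C)
    (hb : ∀ x : ℝ, 0 < x → x ≤ C * (φ x).re)
    (hN : ∀ a e : Fin 4 → ℂ, (∀ i, 0 < (a i).re) →
      N φ a e = ENNReal.ofReal (2 * Real.pi * (G (fun i => φ (a i)) 0 e e).re))
    {a : Fin 3 → ℂ} (ha : ∀ i, 0 < (a i).re) (d : Fin 3 → ℂ) :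
    2 * (G (fun i => φ (a i)) 0 (fun i => conj (a i) * d i) ![1, -1, 0]).re
      ≤ (G (fun i => φ (a i)) 0 d d).re + (G (fun i => φ (a i)) 0 ![conj (a 0), -conj (a 1), 0]
        ![conj (a 0), -conj (a 1), 0]).re := by
  set D := -(d 0 + d 1 + d 2) with hD
  have t1 : ∀ p : ℂ, 0 < p.re → Tendsto (fun x : ℝ => (conj p + φ x)⁻¹) atTop (𝓝 0) :=
    fun p hp => (inv_lim (C := C) fun x hx => (hb x hx).trans (mul_le_mul_of_nonneg_left
      (by simp [hp.le]) hC)).1
  have t2 : ∀ p : ℂ, 0 < p.re → _ := fun p hp => inv_lim (F := fun x : ℝ => conj (φ x) + p) (C := C)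
    fun x hx => (hb x hx).trans (mul_le_mul_of_nonneg_left (by simp [hp.le]) hC)
  have t3 : Tendsto (fun x : ℝ => (conj (φ x) + φ x)⁻¹) atTop (𝓝 0) :=
    (inv_lim (C := C) fun x hx => (hb x hx).trans (mul_le_mul_of_nonneg_left
      (by have : 0 < (φ x).re := hm (by simpa using hx); simp [this.le]) hC)).1
  have hp : ∀ i, 0 < (φ (a i)).re := fun i => hm (ha i)
  have t4 : Tendsto (fun x : ℝ => x * (conj (φ x) + φ (a 0))⁻¹ * (conj (φ x) + φ (a 1))⁻¹) atTop
      (𝓝 0) := by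
    refine squeeze_zero_norm' ?_ (by simpa using (t2 _ (hp 1)).1.norm.const_mul |C|)
    filter_upwards [(t2 _ (hp 0)).2] with x hx
    rw [norm_mul, norm_inv]
    exact mul_le_mul_of_nonneg_right hx (by positivity)
  have l1 := (((continuous_re.tendsto _).comp ((t4.const_mul (D * (φ (a 1) - φ (a 0)))).const_add
    (G (fun i => φ (a i)) 0 (fun i => conj (a i) * d i) ![1, -1, 0]))).const_mul 2)
  have l2 := ((continuous_re.tendsto _).comp (((((((((t1 _ (hp 0)).const_mul (d 0 * conj D)).add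
    ((t1 _ (hp 1)).const_mul (d 1 * conj D))).add ((t1 _ (hp 2)).const_mul (d 2 * conj D))).add
    ((t2 _ (hp 0)).1.const_mul (D * conj (d 0)))).add ((t2 _ (hp 1)).1.const_mul
    (D * conj (d 1)))).add ((t2 _ (hp 2)).1.const_mul (D * conj (d 2)))).add
    (t3.const_mul (D * conj D))).const_add (G (fun i => φ (a i)) 0 d d))).add_const
    (G (fun i => φ (a i)) 0 ![conj (a 0), -conj (a 1), 0] ![conj (a 0), -conj (a 1), 0]).re
  simp only [mul_zero, add_zero] at l1 l2
  refine le_of_tendsto_of_tendsto l1 l2 ?_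
  filter_upwards [eventually_gt_atTop 0] with x hx
  have h4 : ∀ i, 0 < ((![a 0, a 1, a 2, x] : Fin 4 → ℂ) i).re := fun i => by
    fin_cases i
    exacts [ha 0, ha 1, ha 2, hx]
  have k := key hd hm (c := ![1, -1, 0, 0]) (d := ![d 0, d 1, d 2, D]) h4
    (by simp [Fin.sum_univ_four]) (by simp [Fin.sum_univ_four, hD]) fun e => hN _ e h4
  have hx2 : 0 < (φ x).re := hm (by simpa using hx)
  have n0 : conj (φ x) + φ (a 0) ≠ 0 := ne0 (by have := hp 0; simp; linarith)
  have n1 : conj (φ x) + φ (a 1) ≠ 0 := ne0 (by have := hp 1; simp; linarith)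
  refine (congrArg (fun z : ℂ => 2 * z.re) ?_).trans_le (k.trans_eq
    (congrArg₂ (fun z w : ℂ => z.re + w.re) ?_ ?_))
  · simp [G, Fin.sum_univ_four, Fin.sum_univ_three]
    field_simp
    ring
  · simp [G, Fin.sum_univ_four, Fin.sum_univ_three]
    ring
  · simp [G, Fin.sum_univ_four, Fin.sum_univ_three]

lemma alg (α α' β β' ε ε' A A' B B' e e' τ τ' : ℂ) (h11 : α' + α ≠ 0) (h12 : α' + β ≠ 0)
    (h21 : β' + α ≠ 0) (h22 : β' + β ≠ 0) (h13 : α' + ε ≠ 0) (h23 : β' + ε ≠ 0)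
    (h31 : ε' + α ≠ 0) (h32 : ε' + β ≠ 0) :
    ((B - A * α') * (B' - A' * α) / (α' + α) + (B - A * α') * (A' * β - B') / (α' + β)
      + (B - A * α') * τ' / (α' + ε) + ((A * β' - B) * (B' - A' * α) / (β' + α)
      + (A * β' - B) * (A' * β - B') / (β' + β) + (A * β' - B) * τ' / (β' + ε))
      + (τ * (B' - A' * α) / (ε' + α) + τ * (A' * β - B') / (ε' + β) + τ * τ' / (ε' + ε)))
      + ((A' * α' + B') * (A * α + B) / (α' + α) - (A' * α' + B') * (A * β + B) / (α' + β)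
        - (A' * β' + B') * (A * α + B) / (β' + α) + (A' * β' + B') * (A * β + B) / (β' + β))
      - ((A' * α' + B') * (B - A * α') * (1 / (α' + α) - 1 / (α' + β))
        + (A' * β' + B') * (A * β' - B) * (1 / (β' + α) - 1 / (β' + β))
        + e' * τ * (1 / (ε' + α) - 1 / (ε' + β)))
      - ((A * α + B) * (B' - A' * α) * (1 / (α' + α) - 1 / (β' + α))
        + (A * β + B) * (A' * β - B') * (1 / (α' + β) - 1 / (β' + β))
        + e * τ' * (1 / (α' + ε) - 1 / (β' + ε)))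
      = τ * τ' / (ε' + ε) - τ * ((e' - (A' * ε' + B')) * (1 / (ε' + α) - 1 / (ε' + β)))
        - τ' * ((e - (A * ε + B)) * (1 / (α' + ε) - 1 / (β' + ε))) := by
  have k11 := mul_inv_cancel₀ h11
  have k12 := mul_inv_cancel₀ h12
  have k21 := mul_inv_cancel₀ h21
  have k22 := mul_inv_cancel₀ h22
  have k13 := mul_inv_cancel₀ h13
  have k23 := mul_inv_cancel₀ h23
  have k31 := mul_inv_cancel₀ h31
  have k32 := mul_inv_cancel₀ h32
  simp only [div_eq_mul_inv]
  linear_combination A * A' * (α' + α) * k11 - A * A' * (α' + β) * k12 - A * A' * (β' + α) * k21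
    + A * A' * (β' + β) * k22 - A * τ' * k13 + A * τ' * k23 - A' * τ * k31 + A' * τ * k32

lemma affine {α β ε A B e : ℂ} (h1 : 0 < α.re) (h2 : 0 < β.re) (h3 : 0 < ε.re) (hne : α ≠ β)
    (h : ∀ d : Fin 3 → ℂ, 2 * (G ![α, β, ε] 0
      (fun i => conj (![A * α + B, A * β + B, e] i) * d i) ![1, -1, 0]).re
      ≤ (G ![α, β, ε] 0 d d).re + (G ![α, β, ε] 0 ![conj (A * α + B), -conj (A * β + B), 0]
        ![conj (A * α + B), -conj (A * β + B), 0]).re) : e = A * ε + B := by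
  have n : ∀ p q : ℂ, 0 < p.re → 0 < q.re → conj p + q ≠ 0 := fun p q hp hq =>
    ne0 (by simp; linarith)
  set δ := (e - (A * ε + B)) * (1 / (conj α + ε) - 1 / (conj β + ε)) with hδ
  have k : ∀ τ : ℂ, 0 ≤ (τ * conj τ / (conj ε + ε) - τ * conj δ - conj τ * δ).re := fun τ => by
    have a1 := h ![B - A * conj α, A * conj β - B, τ]
    have a2 := alg α (conj α) β (conj β) ε (conj ε) A (conj A) B (conj B) e (conj e) τ (conj τ)
      (n _ _ h1 h1) (n _ _ h1 h2) (n _ _ h2 h1) (n _ _ h2 h2) (n _ _ h1 h3) (n _ _ h2 h3)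
      (n _ _ h3 h1) (n _ _ h3 h2)
    have a3 : τ * conj τ / (conj ε + ε) - τ * conj δ - conj τ * δ
        = G ![α, β, ε] 0 ![B - A * conj α, A * conj β - B, τ] ![B - A * conj α, A * conj β - B, τ]
        + G ![α, β, ε] 0 ![conj (A * α + B), -conj (A * β + B), 0]
          ![conj (A * α + B), -conj (A * β + B), 0]
        - G ![α, β, ε] 0 (fun i => conj (![A * α + B, A * β + B, e] i)
          * ![B - A * conj α, A * conj β - B, τ] i) ![1, -1, 0]
        - conj (G ![α, β, ε] 0 (fun i => conj (![A * α + B, A * β + B, e] i)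
          * ![B - A * conj α, A * conj β - B, τ] i) ![1, -1, 0]) := by
      simp [G, Fin.sum_univ_three, hδ]
      simp only [add_comm α, add_comm β, add_comm ε, div_eq_mul_inv] at a2 ⊢
      linear_combination -a2
    rw [a3]
    simp only [sub_re, add_re, conj_re]
    linarith
  have k2 := k (ε.re * δ)
  have e2 : (ε.re * δ * conj (ε.re * δ) / (conj ε + ε) - ε.re * δ * conj δ - conj (ε.re * δ) * δ)
      = ((-(3 / 2) * ε.re * normSq δ : ℝ) : ℂ) := by
    have : (ε.re : ℂ) ≠ 0 := by exact_mod_cast h3.ne'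
    rw [add_comm (conj ε), add_conj, map_mul, conj_ofReal]
    push_cast
    rw [← mul_conj]
    field_simp
    ring
  rw [e2, ofReal_re] at k2
  have k3 : δ = 0 := normSq_eq_zero.1 (le_antisymm (by nlinarith [normSq_nonneg δ]) (normSq_nonneg δ))
  rcases mul_eq_zero.1 k3 with k4 | k4
  · exact sub_eq_zero.1 k4
  · rw [sub_eq_zero, one_div, one_div, inv_inj, add_left_inj] at k4
    exact absurd ((starRingEnd ℂ).injective k4) hne

end Pool.Agent.H31.HPN
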