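import Mathlib

set_option autoImplicit false

namespace Pool.Agent.H31.Hardy

open Complex Metric Set Filter Topology MeasureTheory

/-- Taylor coefficient at the origin -/
noncomputable def co (g : ℂ → ℂ) (k : ℕ) : ℂ := iteratedDeriv k g 0 / (k.factorial : ℂ)

/-- mean square on the circle of radius `r` -/
noncomputable def ms (g : ℂ → ℂ) (r : ℝ) : ℝ :=
  (2 * Real.pi)⁻¹ * ∫ θ in (0 : ℝ)..2 * Real.pi, ‖g (circleMap 0 r θ)‖ ^ 2

lemma cm_mem {r : ℝ} (h0 : 0 < r) (h1 : r < 1) (θ : ℝ) : circleMap 0 r θ ∈ ball (0 : ℂ) 1 := by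
  simp [abs_of_pos h0, h1]

lemma cm_cont {g : ℂ → ℂ} (hg : DifferentiableOn ℂ g (ball 0 1)) {r : ℝ} (h0 : 0 < r) (h1 : r < 1) :
    Continuous fun θ => g (circleMap 0 r θ) :=
  hg.continuousOn.comp_continuous (continuous_circleMap 0 r) (cm_mem h0 h1)

lemma co_eq {g : ℂ → ℂ} (hg : DifferentiableOn ℂ g (ball 0 1)) {r : ℝ} (h0 : 0 < r) (h1 : r < 1)
    (k : ℕ) : ∫ θ in (0 : ℝ)..2 * Real.pi, exp (-(I * k * θ)) * g (circleMap 0 r θ)
      = 2 * Real.pi * (co g k * r ^ k) := by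
  have h := (hg.mono (closedBall_subset_ball h1)).circleIntegral_one_div_sub_center_pow_smul h0 k
  have hr : (r : ℂ) ≠ 0 := by exact_mod_cast h0.ne'
  have h2 : ∮ z in C(0, r), (1 / (z - 0) ^ (k + 1)) • g z
      = I / r ^ k * ∫ θ in (0 : ℝ)..2 * Real.pi, exp (-(I * k * θ)) * g (circleMap 0 r θ) := by
    rw [circleIntegral, ← intervalIntegral.integral_const_mul]
    refine intervalIntegral.integral_congr fun θ _ => ?_
    simp only [deriv_circleMap, smul_eq_mul, sub_zero]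
    rw [circleMap_zero, exp_neg, show I * k * θ = k * (θ * I) by ring, exp_nat_mul, mul_pow,
      pow_succ, pow_succ]
    field_simp
  rw [h2, smul_eq_mul] at h
  apply mul_left_cancel₀ (show I / (r : ℂ) ^ k ≠ 0 from div_ne_zero I_ne_zero (pow_ne_zero _ hr))
  rw [h, co]
  field_simp

lemma neg_eq {g : ℂ → ℂ} (hg : DifferentiableOn ℂ g (ball 0 1)) {r : ℝ} (h0 : 0 < r) (h1 : r < 1)
    (k : ℕ) :
    ∫ θ in (0 : ℝ)..2 * Real.pi, exp (I * (k + 1) * θ) * g (circleMap 0 r θ) = 0 := by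
  have hd : DifferentiableOn ℂ (fun z => z ^ k * g z) (ball 0 1) :=
    DifferentiableOn.mul (by fun_prop) hg
  have h := (hd.mono (closure_ball_subset_closedBall.trans
    (closedBall_subset_ball h1))).diffContOnCl.circleIntegral_eq_zero h0.le
  have hr : (r : ℂ) ≠ 0 := by exact_mod_cast h0.ne'
  have h2 : ∮ z in C(0, r), z ^ k * g z
      = I * r ^ (k + 1) * ∫ θ in (0 : ℝ)..2 * Real.pi, exp (I * (k + 1) * θ) * g (circleMap 0 r θ) := by
    rw [circleIntegral, ← intervalIntegral.integral_const_mul]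
    refine intervalIntegral.integral_congr fun θ _ => ?_
    simp only [deriv_circleMap, smul_eq_mul]
    rw [show I * (k + 1) * θ = ((k + 1 : ℕ) : ℂ) * (θ * I) by push_cast; ring, exp_nat_mul]
    nth_rewrite 1 2 [circleMap_zero]
    ring
  rw [h2] at h
  exact (mul_eq_zero.1 h).resolve_left (mul_ne_zero I_ne_zero (pow_ne_zero _ hr))

theorem parseval {g : ℂ → ℂ} (hg : DifferentiableOn ℂ g (ball 0 1)) {r : ℝ} (h0 : 0 < r)
    (h1 : r < 1) : HasSum (fun k : ℕ => ‖co g k‖ ^ 2 * (r ^ 2) ^ k) (ms g r) := by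
  have hp : (0 : ℝ) < 2 * Real.pi := by positivity
  have hpc : (Real.pi : ℂ) ≠ 0 := by exact_mod_cast Real.pi_pos.ne'
  have hc := cm_cont hg h0 h1
  obtain ⟨C, hC⟩ := isCompact_Icc.exists_bound_of_continuousOn
    (hc.continuousOn (s := Icc 0 (2 * Real.pi)))
  have hL : MemLp (fun θ => g (circleMap 0 r θ)) 2 (volume.restrict (Ioc 0 (2 * Real.pi))) :=
    MemLp.of_bound hc.aestronglyMeasurable C
      ((ae_restrict_mem measurableSet_Ioc).mono fun x hx => hC x (Ioc_subset_Icc_self hx))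
  have h := hasSum_sq_fourierCoeffOn hp hL
  have hf : ∀ n : ℤ, fourierCoeffOn hp (fun θ => g (circleMap 0 r θ)) n = (2 * Real.pi : ℂ)⁻¹ *
      ∫ θ in (0 : ℝ)..2 * Real.pi, exp (-(I * n * θ)) * g (circleMap 0 r θ) := fun n => by
    rw [fourierCoeffOn_eq_integral, real_smul]
    congr 1
    · simp
    · refine intervalIntegral.integral_congr fun θ _ => ?_
      simp only [fourier_coe_apply, smul_eq_mul]
      congr 2
      push_cast
      field_simp
      ring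
  rw [← (Nat.cast_injective (R := ℤ)).hasSum_iff] at h
  · convert h using 1
    · funext k
      simp only [Function.comp, hf, Int.cast_natCast, co_eq hg h0 h1]
      rw [← mul_assoc, inv_mul_cancel₀ (by simpa using hpc), one_mul, norm_mul, norm_pow,
        norm_real, Real.norm_eq_abs, abs_of_pos h0]
      ring
    · simp [ms]
  · intro n hn
    obtain ⟨k, rfl⟩ : ∃ k : ℕ, n = -(k + 1) := by
      refine ⟨(-n - 1).toNat, ?_⟩
      have : n < 0 := by
        by_contra h3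
        exact hn ⟨n.toNat, by simp; omega⟩
      omega
    rw [hf]
    have := neg_eq hg h0 h1 k
    push_cast
    simp only [mul_neg, neg_mul, neg_neg]
    rw [this]
    simp

lemma rlim : Tendsto (fun m : ℕ => Real.exp (-(1 / ((m : ℝ) + 1)))) atTop (𝓝 1) := by
  have := (Real.continuous_exp.tendsto _).comp (tendsto_one_div_add_atTop_nhds_zero_nat (𝕜 := ℝ)).neg
  simpa [Function.comp_def] using this

lemma rlt (m : ℕ) : Real.exp (-(1 / ((m : ℝ) + 1))) < 1 :=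
  Real.exp_lt_one_iff.2 (neg_neg_of_pos (by positivity))

lemma bound_of_ms {g : ℂ → ℂ} (hg : DifferentiableOn ℂ g (ball 0 1)) {C : ℝ}
    (h : ∀ r : ℝ, 0 < r → r < 1 → ms g r ≤ C) :
    Summable (fun k => ‖co g k‖ ^ 2) ∧ ∑' k, ‖co g k‖ ^ 2 ≤ C := by
  have h1 : ∀ K, ∑ k ∈ Finset.range K, ‖co g k‖ ^ 2 ≤ C := fun K => by
    have t := tendsto_finsetSum (Finset.range K) fun k _ =>
      (((rlim.pow 2).pow k).const_mul (‖co g k‖ ^ 2))
    simp only [one_pow, mul_one] at t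
    refine le_of_tendsto' t fun m => ?_
    exact (sum_le_hasSum _ (fun k _ => by positivity)
      (parseval hg (Real.exp_pos _) (rlt m))).trans (h _ (Real.exp_pos _) (rlt m))
  exact ⟨summable_of_sum_range_le (fun k => by positivity) h1,
    Real.tsum_le_of_sum_range_le (fun k => by positivity) h1⟩

lemma ms_le {g : ℂ → ℂ} (hg : DifferentiableOn ℂ g (ball 0 1))
    (hs : Summable fun k => ‖co g k‖ ^ 2) {r : ℝ} (h0 : 0 < r) (h1 : r < 1) :
    ms g r ≤ ∑' k, ‖co g k‖ ^ 2 :=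
  hasSum_le (fun k => mul_le_of_le_one_right (by positivity)
    (pow_le_one₀ (by positivity) (pow_le_one₀ h0.le h1.le))) (parseval hg h0 h1) hs.hasSum

lemma ms_lim {g : ℂ → ℂ} (hg : DifferentiableOn ℂ g (ball 0 1))
    (hs : Summable fun k => ‖co g k‖ ^ 2) :
    Tendsto (fun m : ℕ => ms g (Real.exp (-(1 / ((m : ℝ) + 1))))) atTop (𝓝 (∑' k, ‖co g k‖ ^ 2)) := by
  have := tendsto_tsum_of_dominated_convergence (𝓕 := atTop)
    (f := fun (m : ℕ) k => ‖co g k‖ ^ 2 * (Real.exp (-(1 / ((m : ℝ) + 1))) ^ 2) ^ k)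
    (g := fun k => ‖co g k‖ ^ 2) hs
    (fun k => by simpa using ((rlim.pow 2).pow k).const_mul (‖co g k‖ ^ 2))
    (Eventually.of_forall fun m k => by
      rw [Real.norm_eq_abs, abs_of_nonneg (by positivity)]
      exact mul_le_of_le_one_right (by positivity)
        (pow_le_one₀ (by positivity) (pow_le_one₀ (Real.exp_pos _).le (rlt m).le)))
  exact this.congr fun m => (parseval hg (Real.exp_pos _) (rlt m)).tsum_eq

lemma ms_mono {g h : ℂ → ℂ} (hg : DifferentiableOn ℂ g (ball 0 1))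
    (hh : DifferentiableOn ℂ h (ball 0 1)) (hle : ∀ z ∈ ball (0 : ℂ) 1, ‖g z‖ ≤ ‖h z‖) {r : ℝ}
    (h0 : 0 < r) (h1 : r < 1) : ms g r ≤ ms h r := by
  refine mul_le_mul_of_nonneg_left (intervalIntegral.integral_mono_on (by positivity)
    (((cm_cont hg h0 h1).norm.pow 2).intervalIntegrable _ _)
    (((cm_cont hh h0 h1).norm.pow 2).intervalIntegrable _ _) fun θ _ => ?_) (by positivity)
  exact pow_le_pow_left₀ (norm_nonneg _) (hle _ (cm_mem h0 h1 θ)) 2

lemma ms_const (c : ℂ) (r : ℝ) : ms (fun _ => c) r = ‖c‖ ^ 2 := by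
  have := Real.pi_pos
  simp only [ms, intervalIntegral.integral_const, smul_eq_mul]
  field_simp
  ring

lemma dom {g h : ℂ → ℂ} (hg : DifferentiableOn ℂ g (ball 0 1))
    (hh : DifferentiableOn ℂ h (ball 0 1)) (hle : ∀ z ∈ ball (0 : ℂ) 1, ‖g z‖ ≤ ‖h z‖)
    (hs : Summable fun k => ‖co h k‖ ^ 2) :
    Summable (fun k => ‖co g k‖ ^ 2) ∧ ∑' k, ‖co g k‖ ^ 2 ≤ ∑' k, ‖co h k‖ ^ 2 :=
  bound_of_ms hg fun _ h0 h1 => (ms_mono hg hh hle h0 h1).trans (ms_le hh hs h0 h1)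

lemma bdd {g : ℂ → ℂ} (hg : DifferentiableOn ℂ g (ball 0 1)) {C : ℝ}
    (hle : ∀ z ∈ ball (0 : ℂ) 1, ‖g z‖ ≤ C) :
    Summable (fun k => ‖co g k‖ ^ 2) ∧ ∑' k, ‖co g k‖ ^ 2 ≤ C ^ 2 := by
  have hC : 0 ≤ C := (norm_nonneg _).trans (hle 0 (by simp))
  refine bound_of_ms hg fun r h0 h1 => ?_
  have := ms_mono hg (h := fun _ => (C : ℂ)) (by fun_prop)
    (fun z hz => by simpa [abs_of_nonneg hC] using hle z hz) h0 h1
  rw [ms_const] at this
  simpa using this

lemma co_ext {g : ℂ → ℂ} (hg : DifferentiableOn ℂ g (ball 0 1)) {k : ℕ} {c : ℂ} {r : ℝ}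
    (h0 : 0 < r) (h1 : r < 1)
    (h : ∫ θ in (0 : ℝ)..2 * Real.pi, exp (-(I * k * θ)) * g (circleMap 0 r θ)
      = 2 * Real.pi * (c * r ^ k)) : co g k = c := by
  rw [co_eq hg h0 h1] at h
  have hpc : (2 * Real.pi : ℂ) ≠ 0 := by simp [Real.pi_pos.ne']
  have hr : (r : ℂ) ^ k ≠ 0 := pow_ne_zero _ (by exact_mod_cast h0.ne')
  exact mul_right_cancel₀ hr (mul_left_cancel₀ hpc h)

lemma co_add {g h : ℂ → ℂ} (hg : DifferentiableOn ℂ g (ball 0 1))
    (hh : DifferentiableOn ℂ h (ball 0 1)) (k : ℕ) :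
    co (fun z => g z + h z) k = co g k + co h k := by
  have a : (0 : ℝ) < 1 / 2 := by norm_num
  have b : (1 : ℝ) / 2 < 1 := by norm_num
  refine co_ext (g := fun z => g z + h z) (hg.add hh) a b ?_
  simp only [mul_add]
  have c1 : Continuous fun θ : ℝ => exp (-(I * k * θ)) * g (circleMap 0 (1 / 2) θ) :=
    Continuous.mul (by fun_prop) (cm_cont hg a b)
  have c2 : Continuous fun θ : ℝ => exp (-(I * k * θ)) * h (circleMap 0 (1 / 2) θ) :=
    Continuous.mul (by fun_prop) (cm_cont hh a b)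
  rw [intervalIntegral.integral_add (c1.intervalIntegrable _ _) (c2.intervalIntegrable _ _),
    co_eq hg a b, co_eq hh a b]
  ring

lemma dil_diff {g : ℂ → ℂ} (hg : DifferentiableOn ℂ g (ball 0 1)) {ρ : ℝ} (h0 : 0 < ρ) :
    DifferentiableOn ℂ (fun z => g (ρ * z)) (ball 0 ρ⁻¹) :=
  hg.comp (by fun_prop) fun z hz => by
    rw [mem_ball_zero_iff] at hz ⊢
    rw [norm_mul, norm_real, Real.norm_eq_abs, abs_of_pos h0]
    rwa [← lt_div_iff₀' h0, one_div]

lemma co_dil {g : ℂ → ℂ} (hg : DifferentiableOn ℂ g (ball 0 1)) {ρ : ℝ} (h0 : 0 < ρ) (h1 : ρ < 1)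
    (k : ℕ) : co (fun z => g (ρ * z)) k = co g k * ρ ^ k := by
  have a : (0 : ℝ) < 1 / 2 := by norm_num
  have b : (1 : ℝ) / 2 < 1 := by norm_num
  refine co_ext ((dil_diff hg h0).mono (ball_subset_ball ((one_le_inv₀ h0).2 h1.le))) a b ?_
  have : ∀ θ, (ρ : ℂ) * circleMap 0 (1 / 2) θ = circleMap 0 (ρ * (1 / 2)) θ := fun θ => by
    simp only [circleMap_zero]; push_cast; ring
  simp only [this]
  rw [co_eq hg (by positivity) (by linarith)]
  push_cast
  ring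

lemma co_shift {φ f : ℂ → ℂ} (hφ : DifferentiableOn ℂ φ (ball 0 1))
    (hm : MapsTo φ (ball (0 : ℂ) 1) (ball (0 : ℂ) 1)) (hf : DifferentiableOn ℂ f (ball 0 1)) {c : ℂ}
    (hc : ∀ z ∈ ball (0 : ℂ) 1, φ z = c * z) (n k : ℕ) :
    co (fun z => φ z ^ n * f (φ z)) (n + k) = c ^ n * co (fun z => f (φ z)) k := by
  have a : (0 : ℝ) < 1 / 2 := by norm_num
  have b : (1 : ℝ) / 2 < 1 := by norm_num
  have hfφ : DifferentiableOn ℂ (fun z => f (φ z)) (ball 0 1) := hf.comp hφ hm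
  refine co_ext (g := fun z => φ z ^ n * f (φ z)) ((hφ.pow n).mul hfφ) a b ?_
  have e : ∀ θ : ℝ, exp (-(I * ((n + k : ℕ) : ℂ) * θ)) *
      (φ (circleMap 0 (1 / 2) θ) ^ n * f (φ (circleMap 0 (1 / 2) θ)))
      = c ^ n * ((1 / 2 : ℝ) : ℂ) ^ n * (exp (-(I * k * θ)) * f (φ (circleMap 0 (1 / 2) θ))) :=
    fun θ => by
      nth_rewrite 1 [hc _ (cm_mem a b θ)]
      nth_rewrite 1 [circleMap_zero]
      rw [show -(I * ((n + k : ℕ) : ℂ) * θ) = -(I * k * θ) - n * (θ * I) by push_cast; ring,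
        exp_sub, exp_nat_mul, mul_pow, mul_pow]
      field_simp
  simp only [e]
  rw [intervalIntegral.integral_const_mul, co_eq hfφ a b]
  ring

/-- Poisson kernel times a weight -/
noncomputable def PK (f : ℂ → ℂ) (R : ℝ) (w : ℂ) (t : ℝ) : ℝ :=
  ((circleMap 0 R t + w) / (circleMap 0 R t - w)).re * ‖f (circleMap 0 R t)‖ ^ 2

lemma cm_ne {R : ℝ} (hR0 : 0 < R) (t : ℝ) {w : ℂ} (hw : w ∈ ball (0 : ℂ) R) :
    circleMap 0 R t - w ≠ 0 := fun h => by
  rw [← sub_eq_zero.1 h] at hw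
  simp [abs_of_pos hR0] at hw

lemma step1 {f : ℂ → ℂ} (hf : DifferentiableOn ℂ f (ball 0 1)) {R : ℝ} (hR0 : 0 < R) (hR2 : R < 1)
    {w : ℂ} (hw : w ∈ ball (0 : ℂ) R) :
    ‖f w‖ ^ 2 ≤ (2 * Real.pi)⁻¹ * ∫ t in (0 : ℝ)..2 * Real.pi, PK f R w t := by
  have hp : (0 : ℝ) < 2 * Real.pi := by positivity
  have hd1 : DifferentiableOn ℂ (fun z => f z ^ 2) (ball 0 1) := hf.pow 2
  have hd : DiffContOnCl ℂ (fun z => f z ^ 2) (ball 0 R) :=
    (hd1.mono (closure_ball_subset_closedBall.trans (closedBall_subset_ball hR2))).diffContOnCl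
  have := hd.circleAverage_re_herglotzRieszKernel_smul' hw
  rw [← norm_pow, ← this, Real.circleAverage, norm_smul, Real.norm_eq_abs,
    abs_of_pos (by positivity)]
  refine mul_le_mul_of_nonneg_left ((intervalIntegral.norm_integral_le_integral_norm
    hp.le).trans (le_of_eq ?_)) (by positivity)
  refine intervalIntegral.integral_congr fun t _ => ?_
  have hs : circleMap 0 R t ∈ sphere (0 : ℂ) R := by simp [abs_of_pos hR0]
  have h3 := le_re_herglotzRieszKernel hs hw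
  have h4 : 0 ≤ (R - ‖w - 0‖) / (R + ‖w - 0‖) :=
    div_nonneg (by have := mem_ball_zero_iff.1 hw; simp; linarith) (by positivity)
  simp only [norm_smul, Real.norm_eq_abs, abs_of_nonneg (h4.trans h3), norm_pow]
  simp [PK]

lemma step2 {φ : ℂ → ℂ} (f : ℂ → ℂ) (hφ : DifferentiableOn ℂ φ (ball 0 1)) {r R : ℝ} (h0 : 0 < r)
    (h1 : r < 1) (hR0 : 0 < R) (hin : ∀ z ∈ closedBall (0 : ℂ) r, φ z ∈ ball (0 : ℂ) R) (t : ℝ) :
    (2 * Real.pi)⁻¹ * ∫ θ in (0 : ℝ)..2 * Real.pi, PK f R (φ (circleMap 0 r θ)) t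
      ≤ (R + ‖φ 0‖) / (R - ‖φ 0‖) * ‖f (circleMap 0 R t)‖ ^ 2 := by
  have hcm : ∀ θ, circleMap 0 r θ ∈ closedBall (0 : ℂ) r := fun θ => by simp [abs_of_pos h0]
  have c1 := cm_cont hφ h0 h1
  have hd : DifferentiableOn ℂ (fun z => (circleMap 0 R t + φ z) / (circleMap 0 R t - φ z))
      (closedBall 0 r) :=
    DifferentiableOn.div ((hφ.mono (closedBall_subset_ball h1)).const_add _)
      ((hφ.mono (closedBall_subset_ball h1)).const_sub _) fun z hz => cm_ne hR0 _ (hin z hz)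
  have hd2 : DiffContOnCl ℂ (fun z => (circleMap 0 R t + φ z) / (circleMap 0 R t - φ z))
      (ball 0 |r|) := by
    rw [abs_of_pos h0]; exact (hd.mono closure_ball_subset_closedBall).diffContOnCl
  have h3 := congrArg Complex.re hd2.circleAverage
  have hc : Continuous fun θ => (circleMap 0 R t + φ (circleMap 0 r θ)) /
      (circleMap 0 R t - φ (circleMap 0 r θ)) :=
    Continuous.div (continuous_const.add c1) (continuous_const.sub c1)
      fun θ => cm_ne hR0 _ (hin _ (hcm θ))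
  have h5 := reCLM.intervalIntegral_comp_comm (hc.intervalIntegrable (μ := volume) 0 (2 * Real.pi))
  simp only [reCLM_apply] at h5
  rw [Real.circleAverage, real_smul, re_ofReal_mul, ← h5] at h3
  simp only [PK]
  rw [intervalIntegral.integral_mul_const, ← mul_assoc, h3]
  refine mul_le_mul_of_nonneg_right ?_ (by positivity)
  have hs : circleMap 0 R t ∈ sphere (0 : ℂ) R := by simp [abs_of_pos hR0]
  have h4 := re_herglotzRieszKernel_le hs (hin 0 (mem_closedBall_self h0.le))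
  simpa only [sub_zero] using h4

lemma PK_cont {f : ℂ → ℂ} (hf : DifferentiableOn ℂ f (ball 0 1)) {R : ℝ} (hR0 : 0 < R)
    (hR2 : R < 1) {γ : ℝ → ℂ} (hγ : Continuous γ) (hin : ∀ θ, γ θ ∈ ball (0 : ℂ) R) :
    Continuous fun p : ℝ × ℝ => PK f R (γ p.1) p.2 := by
  have c2 : Continuous fun p : ℝ × ℝ => f (circleMap 0 R p.2) :=
    (cm_cont hf hR0 hR2).comp continuous_snd
  have c3 : Continuous fun p : ℝ × ℝ => circleMap 0 R p.2 :=
    (continuous_circleMap 0 R).comp continuous_snd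
  have c4 : Continuous fun p : ℝ × ℝ => γ p.1 := hγ.comp continuous_fst
  have c5 : Continuous fun p : ℝ × ℝ => (circleMap 0 R p.2 + γ p.1) / (circleMap 0 R p.2 - γ p.1) :=
    Continuous.div (c3.add c4) (c3.sub c4) fun p => cm_ne hR0 _ (hin _)
  have c6 : Continuous fun p : ℝ × ℝ =>
      ((circleMap 0 R p.2 + γ p.1) / (circleMap 0 R p.2 - γ p.1)).re := continuous_re.comp c5
  exact c6.mul (c2.norm.pow 2)

lemma fub {K : ℝ → ℝ → ℝ} (hK : Continuous fun p : ℝ × ℝ => K p.1 p.2) {u v : ℝ → ℝ}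
    (hu : Continuous u) (hv : Continuous v) {T : ℝ} (hT : 0 < T)
    (h1 : ∀ θ, u θ ≤ T⁻¹ * ∫ t in (0 : ℝ)..T, K θ t)
    (h2 : ∀ t, T⁻¹ * ∫ θ in (0 : ℝ)..T, K θ t ≤ v t) :
    ∫ θ in (0 : ℝ)..T, u θ ≤ ∫ t in (0 : ℝ)..T, v t := by
  have hKc : Continuous K.uncurry := hK
  have hKc' : Continuous (fun t θ => K θ t).uncurry := hKc.comp continuous_swap
  have hKi : IntegrableOn K.uncurry (uIoc 0 T ×ˢ uIoc 0 T) :=
    (hKc.continuousOn.integrableOn_compact (isCompact_uIcc.prod isCompact_uIcc)).mono_set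
      (prod_mono uIoc_subset_uIcc uIoc_subset_uIcc)
  have a1 : Continuous fun θ => ∫ t in (0 : ℝ)..T, K θ t :=
    intervalIntegral.continuous_parametric_intervalIntegral_of_continuous' hKc _ _
  have a2 : Continuous fun t => ∫ θ in (0 : ℝ)..T, K θ t :=
    intervalIntegral.continuous_parametric_intervalIntegral_of_continuous' hKc' _ _
  calc _ ≤ ∫ θ in (0 : ℝ)..T, T⁻¹ * ∫ t in (0 : ℝ)..T, K θ t :=
        intervalIntegral.integral_mono_on hT.le (hu.intervalIntegrable _ _)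
          ((continuous_const.mul a1).intervalIntegrable _ _) fun θ _ => h1 θ
    _ = ∫ t in (0 : ℝ)..T, T⁻¹ * ∫ θ in (0 : ℝ)..T, K θ t := by
        rw [intervalIntegral.integral_const_mul, intervalIntegral.integral_const_mul,
          intervalIntegral_intervalIntegral_swap hKi]
    _ ≤ _ := intervalIntegral.integral_mono_on hT.le
          ((continuous_const.mul a2).intervalIntegrable _ _) (hv.intervalIntegrable _ _)
          fun t _ => h2 t

theorem littlewood {φ f : ℂ → ℂ} (hφ : DifferentiableOn ℂ φ (ball 0 1))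
    (hm : MapsTo φ (ball (0 : ℂ) 1) (ball (0 : ℂ) 1)) (hf : DifferentiableOn ℂ f (ball 0 1))
    (hs : Summable fun k => ‖co f k‖ ^ 2) : Summable fun k => ‖co (fun z => f (φ z)) k‖ ^ 2 := by
  have ha : ‖φ 0‖ < 1 := mem_ball_zero_iff.1 (hm (by simp))
  have hfφ : DifferentiableOn ℂ (fun z => f (φ z)) (ball 0 1) := hf.comp hφ hm
  refine (bound_of_ms hfφ (C := 4 / (1 - ‖φ 0‖) * ∑' k, ‖co f k‖ ^ 2) fun r h0 h1 => ?_).1
  obtain ⟨z0, hz0, hmax⟩ := (isCompact_closedBall (0 : ℂ) r).exists_isMaxOn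
    ⟨0, mem_closedBall_self h0.le⟩ (hφ.continuousOn.mono (closedBall_subset_ball h1)).norm
  have hz1 : ‖φ z0‖ < 1 := mem_ball_zero_iff.1 (hm (closedBall_subset_ball h1 hz0))
  obtain ⟨R, hR1, hR2⟩ := exists_between (max_lt hz1 (show (1 + ‖φ 0‖) / 2 < 1 by linarith))
  have hR3 : (1 + ‖φ 0‖) / 2 < R := (le_max_right _ _).trans_lt hR1
  have hR0 : 0 < R := lt_trans (by positivity) hR3
  have hin : ∀ z ∈ closedBall (0 : ℂ) r, φ z ∈ ball (0 : ℂ) R := fun z hz =>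
    mem_ball_zero_iff.2 (lt_of_le_of_lt (hmax hz) ((le_max_left _ _).trans_lt hR1))
  have hcm : ∀ θ, circleMap 0 r θ ∈ closedBall (0 : ℂ) r := fun θ => by simp [abs_of_pos h0]
  have hp : (0 : ℝ) < 2 * Real.pi := by positivity
  have h2 := fub (K := fun θ t => PK f R (φ (circleMap 0 r θ)) t)
    (PK_cont hf hR0 hR2 (cm_cont hφ h0 h1) fun θ => hin _ (hcm θ))
    (u := fun θ => ‖f (φ (circleMap 0 r θ))‖ ^ 2)
    (v := fun t => (R + ‖φ 0‖) / (R - ‖φ 0‖) * ‖f (circleMap 0 R t)‖ ^ 2)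
    ((cm_cont hfφ h0 h1).norm.pow 2) (continuous_const.mul ((cm_cont hf hR0 hR2).norm.pow 2)) hp
    (fun θ => step1 hf hR0 hR2 (hin _ (hcm θ))) (fun t => step2 f hφ h0 h1 hR0 hin t)
  rw [intervalIntegral.integral_const_mul] at h2
  have h3 := ms_le hf hs hR0 hR2
  have h4 : (R + ‖φ 0‖) / (R - ‖φ 0‖) ≤ 4 / (1 - ‖φ 0‖) := by
    rw [div_le_div_iff₀ (by linarith) (by linarith)]
    nlinarith [norm_nonneg (φ 0)]
  have h5 : 0 ≤ (R + ‖φ 0‖) / (R - ‖φ 0‖) := div_nonneg (by positivity) (by linarith)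
  calc ms (fun z => f (φ z)) r ≤ (R + ‖φ 0‖) / (R - ‖φ 0‖) * ms f R := by
        simp only [ms]
        rw [mul_left_comm]
        exact mul_le_mul_of_nonneg_left h2 (by positivity)
    _ ≤ (R + ‖φ 0‖) / (R - ‖φ 0‖) * ∑' k, ‖co f k‖ ^ 2 := mul_le_mul_of_nonneg_left h3 h5
    _ ≤ _ := mul_le_mul_of_nonneg_right h4 (tsum_nonneg fun k => by positivity)

end Pool.Agent.H31.Hardy
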