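import Mathlib
import Pool.Agent.Lib.helper31.Dyson

set_option autoImplicit false

namespace Pool.Agent.Lib.helper31.Hill

open Set Filter Topology MeasureTheory

structure Data where
  a : ℝ
  g : ℂ
  q : ℝ → ℂ
  y1 : ℝ → ℂ
  y2 : ℝ → ℂ
  d1 : ℝ → ℂ
  d2 : ℝ → ℂ
  ha : 0 < a
  hg : g ≠ 0
  qc : Continuous q
  qp : Function.Periodic q a
  hy1 : ∀ x, HasDerivAt y1 (d1 x) x
  hy2 : ∀ x, HasDerivAt y2 (d2 x) x
  hd1 : ∀ x, HasDerivAt d1 (q x * y1 x) x
  hd2 : ∀ x, HasDerivAt d2 (q x * y2 x) x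
  p1 : Function.Periodic y1 a
  p2 : Function.Periodic y2 a
  p3 : Function.Periodic d1 a
  p4 : Function.Periodic d2 a
  W : ∀ x, y1 x * d2 x - d1 x * y2 x = 1
  g11 : ∫ t in (0 : ℝ)..a, y1 t * y1 t = 0
  g12 : ∫ t in (0 : ℝ)..a, y1 t * y2 t = 0
  g22 : ∫ t in (0 : ℝ)..a, y2 t * y2 t = g

open ContinuousLinearMap in
noncomputable def Bm (u w : ℂ) : ℂ × ℂ →L[ℂ] ℂ × ℂ :=
  (u * w) • (inl ℂ ℂ ℂ).comp (fst ℂ ℂ ℂ) + (w * w) • (inl ℂ ℂ ℂ).comp (snd ℂ ℂ ℂ) -
    (u * u) • (inr ℂ ℂ ℂ).comp (fst ℂ ℂ ℂ) - (u * w) • (inr ℂ ℂ ℂ).comp (snd ℂ ℂ ℂ)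

lemma Bm_apply (u w : ℂ) (v : ℂ × ℂ) :
    Bm u w v = (u * w * v.1 + w * w * v.2, -(u * u * v.1) - u * w * v.2) := by
  simp [Bm]

namespace Data

variable (D : Data)

lemma c1 : Continuous D.y1 := continuous_iff_continuousAt.mpr fun x => (D.hy1 x).continuousAt
lemma c2 : Continuous D.y2 := continuous_iff_continuousAt.mpr fun x => (D.hy2 x).continuousAt

lemma sol (x₀ : ℝ) (α β : ℂ) : ∃ y dy : ℂ → ℝ → ℂ,
    (∀ z x, HasDerivAt (y z) (dy z x) x ∧ HasDerivAt (dy z) ((D.q x - z) * y z x) x) ∧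
    (∀ z, y z x₀ = α * D.y1 x₀ + β * D.y2 x₀ ∧ dy z x₀ = α * D.d1 x₀ + β * D.d2 x₀) ∧
    ∃ h dh : ℂ → ℂ, Differentiable ℂ h ∧ Differentiable ℂ dh ∧ h 0 = β * D.g * D.y1 x₀ ∧
      dh 0 = β * D.g * D.d1 x₀ ∧
      ∀ z, y z (x₀ + D.a) = y z x₀ + z * h z ∧ dy z (x₀ + D.a) = dy z x₀ + z * dh z := by
  have h1 := D.c1
  have h2 := D.c2
  have hB : Continuous fun t => Bm (D.y1 t) (D.y2 t) := by unfold Bm; fun_prop
  have hp : Function.Periodic (fun t => Bm (D.y1 t) (D.y2 t)) D.a := fun t => by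
    simp only [D.p1 t, D.p2 t]
  obtain ⟨C, hC⟩ := (hp.isBounded_of_continuous D.ha.ne' hB).exists_norm_le
  obtain ⟨V, hV, hV0, hH⟩ := Dyson.exists_solution hB (C := C) (fun t => hC _ ⟨t, rfl⟩) x₀ (α, β)
  obtain ⟨H, hHd, hH0, hHe⟩ := hH (x₀ + D.a)
  have hint : ∀ f : ℝ → ℂ, Function.Periodic f D.a →
      ∫ t in x₀..(x₀ + D.a), f t = ∫ t in (0 : ℝ)..D.a, f t := fun f hf => by
    have := hf.intervalIntegral_add_eq x₀ 0
    rwa [zero_add] at this
  have hc : Continuous fun t => Bm (D.y1 t) (D.y2 t) (α, β) := hB.clm_apply continuous_const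
  have hH1 : (H 0).1 = β * D.g := by
    have := (ContinuousLinearMap.fst ℂ ℂ ℂ).intervalIntegral_comp_comm (μ := volume)
      (hc.intervalIntegrable x₀ (x₀ + D.a))
    rw [hH0]
    refine this.symm.trans ?_
    simp only [Bm_apply, ContinuousLinearMap.coe_fst']
    rw [hint _ (fun t => by simp only [D.p1 t, D.p2 t]), intervalIntegral.integral_add
      (Continuous.intervalIntegrable (by fun_prop) _ _)
      (Continuous.intervalIntegrable (by fun_prop) _ _), intervalIntegral.integral_mul_const,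
      intervalIntegral.integral_mul_const, D.g12, D.g22]
    ring
  have hH2 : (H 0).2 = 0 := by
    have := (ContinuousLinearMap.snd ℂ ℂ ℂ).intervalIntegral_comp_comm (μ := volume)
      (hc.intervalIntegrable x₀ (x₀ + D.a))
    rw [hH0]
    refine this.symm.trans ?_
    simp only [Bm_apply, ContinuousLinearMap.coe_snd']
    rw [hint _ (fun t => by simp only [D.p1 t, D.p2 t]), intervalIntegral.integral_sub
      (Continuous.intervalIntegrable (by fun_prop) _ _)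
      (Continuous.intervalIntegrable (by fun_prop) _ _), intervalIntegral.integral_neg,
      intervalIntegral.integral_mul_const,
      intervalIntegral.integral_mul_const, D.g12, D.g11]
    ring
  refine ⟨fun z x => (V z x).1 * D.y1 x + (V z x).2 * D.y2 x,
    fun z x => (V z x).1 * D.d1 x + (V z x).2 * D.d2 x, fun z x => ?_, fun z => ?_,
    fun z => (H z).1 * D.y1 x₀ + (H z).2 * D.y2 x₀,
    fun z => (H z).1 * D.d1 x₀ + (H z).2 * D.d2 x₀, by fun_prop, by fun_prop, ?_, ?_, fun z => ?_⟩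
  · have a1 : HasDerivAt (fun x => (V z x).1) (z • Bm (D.y1 x) (D.y2 x) (V z x)).1 x :=
      (ContinuousLinearMap.fst ℝ ℂ ℂ).hasFDerivAt.comp_hasDerivAt x (hV z x)
    have a2 : HasDerivAt (fun x => (V z x).2) (z • Bm (D.y1 x) (D.y2 x) (V z x)).2 x :=
      (ContinuousLinearMap.snd ℝ ℂ ℂ).hasFDerivAt.comp_hasDerivAt x (hV z x)
    simp only [Bm_apply, Prod.smul_mk, smul_eq_mul] at a1 a2
    refine ⟨((a1.mul (D.hy1 x)).add (a2.mul (D.hy2 x))).congr_deriv (by ring),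
      ((a1.mul (D.hd1 x)).add (a2.mul (D.hd2 x))).congr_deriv ?_⟩
    linear_combination (-z * ((V z x).1 * D.y1 x + (V z x).2 * D.y2 x)) * D.W x
  · simp [hV0]
  · simp only [hH1, hH2]; ring
  · simp only [hH1, hH2]; ring
  · simp only [hHe, hV0, D.p1 x₀, D.p2 x₀, D.p3 x₀, D.p4 x₀, Prod.fst_add, Prod.snd_add,
      Prod.smul_fst, Prod.smul_snd, smul_eq_mul]
    constructor <;> ring

lemma ex1 : ∃ x ∈ Icc (0 : ℝ) D.a, D.y1 x ≠ 0 := by
  by_contra hc
  push Not at hc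
  have hm : D.a / 2 ∈ Ioo (0 : ℝ) D.a := ⟨by linarith [D.ha], by linarith [D.ha]⟩
  have h0 : D.y1 =ᶠ[𝓝 (D.a / 2)] fun _ => 0 := by
    filter_upwards [Ioo_mem_nhds hm.1 hm.2] with x hx using hc x (Ioo_subset_Icc_self hx)
  have h1 : D.d1 (D.a / 2) = 0 :=
    (D.hy1 _).unique ((hasDerivAt_const _ (0 : ℂ)).congr_of_eventuallyEq h0)
  have := D.W (D.a / 2)
  rw [h1, hc _ (Ioo_subset_Icc_self hm)] at this
  simp at this

lemma ex2 : ∃ x ∈ Icc (0 : ℝ) D.a, D.d1 x ≠ 0 := by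
  by_contra hc
  push Not at hc
  have hconst : ∀ x ∈ Icc (0 : ℝ) D.a, D.y1 x = D.y1 0 :=
    constant_of_has_deriv_right_zero D.c1.continuousOn fun x hx => by
      have := (D.hy1 x).hasDerivWithinAt (s := Ici x)
      rwa [hc x (Ico_subset_Icc_self hx)] at this
  have h1 := D.g11
  rw [intervalIntegral.integral_congr (g := fun _ => D.y1 0 * D.y1 0) (fun x hx => by
    rw [uIcc_of_le D.ha.le] at hx; simp only [hconst x hx])] at h1
  simp only [intervalIntegral.integral_const, sub_zero, smul_eq_zero, D.ha.ne', false_or,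
    mul_self_eq_zero] at h1
  obtain ⟨x, hx, hx0⟩ := D.ex1
  exact hx0 ((hconst x hx).trans h1)

end Data

lemma order_ge_one {F h : ℂ → ℂ} (hh : Differentiable ℂ h) (e : ∀ z, F z = z * h z) :
    1 ≤ analyticOrderAt F 0 := by
  have hF : F = fun z => z * h z := funext e
  have ha : AnalyticAt ℂ F 0 := by
    rw [hF]; exact (differentiable_id.mul hh).analyticAt 0
  exact_mod_cast (natCast_le_analyticOrderAt ha (n := 1)).mpr
    ⟨h, hh.analyticAt 0, Eventually.of_forall fun z => by simp [e]⟩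

lemma order_eq_one {F h : ℂ → ℂ} (hh : Differentiable ℂ h) (e : ∀ z, F z = z * h z)
    (h0 : h 0 ≠ 0) : analyticOrderAt F 0 = 1 := by
  have hF : F = fun z => z * h z := funext e
  have ha : AnalyticAt ℂ F 0 := by
    rw [hF]; exact (differentiable_id.mul hh).analyticAt 0
  exact_mod_cast (ha.analyticOrderAt_eq_natCast (n := 1)).mpr
    ⟨h, hh.analyticAt 0, h0, Eventually.of_forall fun z => by simp [e]⟩

lemma order_gt_two {F G : ℂ → ℂ} (hG : Differentiable ℂ G) (e : ∀ z, F z = z ^ 2 * G z)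
    (h0 : G 0 = 0) : 2 < analyticOrderAt F 0 := by
  have hF : F = (id : ℂ → ℂ) ^ 2 * G := funext fun z => by simp [e]
  rw [hF, analyticOrderAt_mul (analyticAt_id.pow 2) (hG.analyticAt 0),
    analyticOrderAt_pow analyticAt_id, analyticOrderAt_id]
  have h1 : analyticOrderAt G 0 ≠ 0 := (hG.analyticAt 0).analyticOrderAt_ne_zero.mpr h0
  have h2 : 1 ≤ analyticOrderAt G 0 := Order.one_le_iff_ne_zero.mpr h1
  calc (2 : ℕ∞) < 2 • 1 + 1 := by decide
    _ ≤ _ := add_le_add le_rfl h2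

lemma iInf_eq_one {a : ℝ} {f : ℝ → ℕ∞} (h1 : ∀ x, 1 ≤ f x) (h2 : ∃ x ∈ Icc 0 a, f x = 1) :
    ⨅ x ∈ Icc (0 : ℝ) a, f x = 1 := by
  obtain ⟨x, hx, e⟩ := h2
  exact le_antisymm (iInf₂_le_of_le x hx e.le) (le_iInf₂ fun x _ => h1 x)

theorem counter (D : Data) : ∃ c dc s ds : ℝ → ℂ → ℝ → ℂ,
    (∀ (x₀ : ℝ) (z : ℂ), Continuous (c x₀ z) ∧ Continuous (dc x₀ z) ∧
      Continuous (s x₀ z) ∧ Continuous (ds x₀ z) ∧
      ∀ x : ℝ,
        (c x₀ z x = 1 + ∫ t in x₀..x, dc x₀ z t) ∧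
        (dc x₀ z x = ∫ t in x₀..x, (D.q t - z) * c x₀ z t) ∧
        (s x₀ z x = ∫ t in x₀..x, ds x₀ z t) ∧
        (ds x₀ z x = 1 + ∫ t in x₀..x, (D.q t - z) * s x₀ z t)) ∧
    (⨅ x₀ ∈ Icc (0 : ℝ) D.a, analyticOrderAt (fun w : ℂ => s x₀ w (x₀ + D.a)) 0) = 1 ∧
    (⨅ x₀ ∈ Icc (0 : ℝ) D.a, analyticOrderAt (fun w : ℂ => dc x₀ w (x₀ + D.a)) 0) = 1 ∧
    2 < analyticOrderAt (fun w : ℂ => (c 0 w D.a + ds 0 w D.a) ^ 2 - 4) 0 := by
  choose c dc hc hc0 hc1 dhc hcd hdcd hc2 hdc2 hce using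
    fun x₀ => D.sol x₀ (D.d2 x₀) (-D.d1 x₀)
  choose s ds hs hs0 hs1 dhs hsd hdsd hs2 hds2 hse using
    fun x₀ => D.sol x₀ (-D.y2 x₀) (D.y1 x₀)
  have ic : ∀ x₀ z, c x₀ z x₀ = 1 := fun x₀ z => by
    rw [(hc0 x₀ z).1]; linear_combination D.W x₀
  have idc : ∀ x₀ z, dc x₀ z x₀ = 0 := fun x₀ z => by rw [(hc0 x₀ z).2]; ring
  have is : ∀ x₀ z, s x₀ z x₀ = 0 := fun x₀ z => by rw [(hs0 x₀ z).1]; ring
  have ids : ∀ x₀ z, ds x₀ z x₀ = 1 := fun x₀ z => by
    rw [(hs0 x₀ z).2]; linear_combination D.W x₀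
  have hq := D.qc
  refine ⟨c, dc, s, ds, fun x₀ z => ?_, ?_, ?_, ?_⟩
  · have k1 : Continuous (c x₀ z) :=
      continuous_iff_continuousAt.mpr fun x => (hc x₀ z x).1.continuousAt
    have k2 : Continuous (dc x₀ z) :=
      continuous_iff_continuousAt.mpr fun x => (hc x₀ z x).2.continuousAt
    have k3 : Continuous (s x₀ z) :=
      continuous_iff_continuousAt.mpr fun x => (hs x₀ z x).1.continuousAt
    have k4 : Continuous (ds x₀ z) :=
      continuous_iff_continuousAt.mpr fun x => (hs x₀ z x).2.continuousAt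
    refine ⟨k1, k2, k3, k4, fun x => ⟨?_, ?_, ?_, ?_⟩⟩
    · rw [intervalIntegral.integral_eq_sub_of_hasDerivAt (fun t _ => (hc x₀ z t).1)
        (k2.intervalIntegrable _ _), ic]; ring
    · rw [intervalIntegral.integral_eq_sub_of_hasDerivAt (fun t _ => (hc x₀ z t).2)
        (Continuous.intervalIntegrable (by fun_prop) _ _), idc]; ring
    · rw [intervalIntegral.integral_eq_sub_of_hasDerivAt (fun t _ => (hs x₀ z t).1)
        (k4.intervalIntegrable _ _), is]; ring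
    · rw [intervalIntegral.integral_eq_sub_of_hasDerivAt (fun t _ => (hs x₀ z t).2)
        (Continuous.intervalIntegrable (by fun_prop) _ _), ids]; ring
  · have e : ∀ x₀ z, s x₀ z (x₀ + D.a) = z * hs1 x₀ z := fun x₀ z => by
      rw [(hse x₀ z).1, is, zero_add]
    refine iInf_eq_one (fun x₀ => order_ge_one (hsd x₀) (e x₀)) ?_
    obtain ⟨x, hx, hx0⟩ := D.ex1
    refine ⟨x, hx, order_eq_one (hsd x) (e x) ?_⟩
    rw [hs2]; exact mul_ne_zero (mul_ne_zero hx0 D.hg) hx0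
  · have e : ∀ x₀ z, dc x₀ z (x₀ + D.a) = z * dhc x₀ z := fun x₀ z => by
      rw [(hce x₀ z).2, idc, zero_add]
    refine iInf_eq_one (fun x₀ => order_ge_one (hdcd x₀) (e x₀)) ?_
    obtain ⟨x, hx, hx0⟩ := D.ex2
    refine ⟨x, hx, order_eq_one (hdcd x) (e x) ?_⟩
    rw [hdc2]; exact mul_ne_zero (mul_ne_zero (neg_ne_zero.mpr hx0) D.hg) hx0
  · have hW : ∀ z x, c 0 z x * ds 0 z x - dc 0 z x * s 0 z x = 1 := fun z x => by
      have hd : ∀ x, HasDerivAt (fun x => c 0 z x * ds 0 z x - dc 0 z x * s 0 z x) 0 x :=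
        fun x => (((hc 0 z x).1.mul (hs 0 z x).2).sub ((hc 0 z x).2.mul (hs 0 z x).1)).congr_deriv
          (by ring)
      have := is_const_of_deriv_eq_zero (fun x => (hd x).differentiableAt)
        (fun x => (hd x).deriv) x 0
      simp only [ic, idc, is, ids] at this
      rw [this]; ring
    have a1 := hcd 0
    have a2 := hdcd 0
    have a3 := hsd 0
    have a4 := hdsd 0
    refine order_gt_two (G := fun z => (hc1 0 z - dhs 0 z) ^ 2 + 4 * (hs1 0 z * dhc 0 z))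
      (by fun_prop) (fun z => ?_) ?_
    · have b1 := (hce 0 z).1
      have b2 := (hce 0 z).2
      have b3 := (hse 0 z).1
      have b4 := (hse 0 z).2
      have b5 := hW z D.a
      simp only [zero_add, ic, idc, is, ids] at b1 b2 b3 b4
      rw [b1, b2, b3, b4] at b5
      rw [b1, b4]
      linear_combination 4 * b5
    · simp only [hc2, hdc2, hs2, hds2]; ring

end Pool.Agent.Lib.helper31.Hill
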