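import Mathlib

set_option autoImplicit false

namespace Pool.Agent.H31.JC

open Complex Metric Set Filter Topology

/-- the open upper half plane -/
def H : Set ℂ := {w | 0 < w.im}

lemma isOpen_H : IsOpen H := isOpen_lt continuous_const continuous_im

lemma key (p q : ℂ) : ‖p + (starRingEnd ℂ) q‖ ^ 2 = ‖p - q‖ ^ 2 + 4 * (p.re * q.re) := by
  rw [Complex.sq_norm, Complex.sq_norm, normSq_apply, normSq_apply]; simp; ring

lemma key2 (p q : ℂ) : ‖p - (starRingEnd ℂ) q‖ ^ 2 = ‖p - q‖ ^ 2 + 4 * (p.im * q.im) := by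
  rw [Complex.sq_norm, Complex.sq_norm, normSq_apply, normSq_apply]; simp; ring

lemma sp_pos {Q : ℂ → ℂ} (hd : DifferentiableOn ℂ Q H) (hp : ∀ w ∈ H, 0 < (Q w).re)
    {w v : ℂ} (hw : w ∈ H) (hv : v ∈ H) :
    ‖Q w - Q v‖ ^ 2 * (w.im * v.im) ≤ ‖w - v‖ ^ 2 * ((Q w).re * (Q v).re) := by
  have hw' : 0 < w.im := hw
  have hv' : 0 < v.im := hv
  set C : ℂ → ℂ := fun z => (v - (starRingEnd ℂ) v * z) / (1 - z) with hC
  have h1 : ∀ z ∈ ball (0 : ℂ) 1, 1 - z ≠ 0 := fun z hz h => by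
    have : z = 1 := by linear_combination -h
    simp [this] at hz
  have hCm : ∀ z ∈ ball (0 : ℂ) 1, C z ∈ H := fun z hz => by
    have hz' : z.re ^ 2 + z.im ^ 2 < 1 := by
      have := mem_ball_zero_iff.1 hz
      have h2 : ‖z‖ ^ 2 < 1 := by nlinarith [norm_nonneg z]
      rw [Complex.sq_norm, normSq_apply] at h2
      nlinarith
    have hn : 0 < normSq (1 - z) := normSq_pos.2 (h1 z hz)
    show 0 < (C z).im
    simp only [hC, div_im]
    rw [← sub_div]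
    apply div_pos _ hn
    simp
    nlinarith
  have hden : ∀ u ∈ H, Q u + (starRingEnd ℂ) (Q v) ≠ 0 := fun u hu h => by
    have := congrArg Complex.re h
    simp at this
    linarith [hp u hu, hp v hv]
  set m : ℂ → ℂ := fun z => (Q (C z) - Q v) / (Q (C z) + (starRingEnd ℂ) (Q v)) with hm
  have hCd : DifferentiableOn ℂ C (ball 0 1) :=
    DifferentiableOn.div (by fun_prop) (by fun_prop) h1
  have hQC : DifferentiableOn ℂ (fun z => Q (C z)) (ball 0 1) := hd.comp hCd hCm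
  have hmd : DifferentiableOn ℂ m (ball 0 1) :=
    DifferentiableOn.div (hQC.sub_const _) (hQC.add_const _) fun z hz => hden _ (hCm z hz)
  have hmm : MapsTo m (ball 0 1) (closedBall 0 1) := fun z hz => by
    rw [mem_closedBall_zero_iff, hm]
    simp only [norm_div]
    apply div_le_one_of_le₀ _ (norm_nonneg _)
    apply le_of_sq_le_sq _ (norm_nonneg _)
    rw [key]
    have := mul_pos (hp _ (hCm z hz)) (hp v hv)
    linarith
  have hwv : w - (starRingEnd ℂ) v ≠ 0 := fun h => by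
    have := congrArg Complex.im h
    simp at this
    linarith
  have hvv : v - (starRingEnd ℂ) v ≠ 0 := fun h => by
    have := congrArg Complex.im h
    simp at this
    linarith
  have hn0 : 0 < ‖w - (starRingEnd ℂ) v‖ := norm_pos_iff.2 hwv
  have hz : ‖(w - v) / (w - (starRingEnd ℂ) v)‖ < 1 := by
    rw [norm_div, div_lt_one hn0]
    apply lt_of_pow_lt_pow_left₀ 2 (norm_nonneg _)
    rw [key2]
    nlinarith [mul_pos hw' hv']
  have hs := Complex.norm_le_norm_of_mapsTo_ball hmd hmm (by simp [hm, hC]) hz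
  have hCw : C ((w - v) / (w - (starRingEnd ℂ) v)) = w := by
    simp only [hC]
    have : 1 - (w - v) / (w - (starRingEnd ℂ) v) = (v - (starRingEnd ℂ) v) / (w - (starRingEnd ℂ) v) := by
      field_simp; ring
    rw [this]
    field_simp
    ring
  simp only [hm, hCw, norm_div] at hs
  rw [div_le_div_iff₀ (norm_pos_iff.2 (hden w hw)) hn0] at hs
  have h2 := pow_le_pow_left₀ (by positivity) hs 2
  rw [mul_pow, mul_pow, key, key2] at h2
  nlinarith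

lemma sp {Q : ℂ → ℂ} (hd : DifferentiableOn ℂ Q H) (hp : ∀ w ∈ H, 0 ≤ (Q w).re)
    {w v : ℂ} (hw : w ∈ H) (hv : v ∈ H) :
    ‖Q w - Q v‖ ^ 2 * (w.im * v.im) ≤ ‖w - v‖ ^ 2 * ((Q w).re * (Q v).re) := by
  have h : ∀ ε : ℝ, 0 < ε → ‖Q w - Q v‖ ^ 2 * (w.im * v.im)
      ≤ ‖w - v‖ ^ 2 * (((Q w).re + ε) * ((Q v).re + ε)) := fun ε hε => by
    have := sp_pos (Q := fun u => Q u + ε) (hd.add_const _)
      (fun u hu => by simp; linarith [hp u hu]) hw hv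
    simpa using this
  have ht : Tendsto (fun ε : ℝ => ‖w - v‖ ^ 2 * (((Q w).re + ε) * ((Q v).re + ε))) (𝓝[>] 0)
      (𝓝 (‖w - v‖ ^ 2 * (((Q w).re + 0) * ((Q v).re + 0)))) :=
    tendsto_nhdsWithin_of_tendsto_nhds (Continuous.tendsto (by fun_prop) 0)
  have := ge_of_tendsto ht (eventually_nhdsWithin_of_forall h)
  simpa using this

lemma re_cay (η p : ℂ) (hη : ‖η‖ = 1) :
    ((η + p) / (η - p)).re = (1 - ‖p‖ ^ 2) / ‖η - p‖ ^ 2 := by
  have h1 : η.re * η.re + η.im * η.im = 1 := by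
    rw [← normSq_apply, ← Complex.sq_norm, hη]; norm_num
  rw [div_re, ← add_div, Complex.sq_norm, Complex.sq_norm]
  congr 1
  simp [normSq_apply]
  linarith

lemma ne_of_lt {η p : ℂ} (hη : ‖η‖ = 1) (hp : ‖p‖ < 1) : η - p ≠ 0 := fun h => by
  have : p = η := by linear_combination -h
  rw [this] at hp; linarith

lemma sp_disc {f : ℂ → ℂ} (hd : DifferentiableOn ℂ f H) (hf : ∀ w ∈ H, ‖f w‖ < 1)
    {w v : ℂ} (hw : w ∈ H) (hv : v ∈ H) :
    4 * ‖f w - f v‖ ^ 2 * (w.im * v.im) ≤ ‖w - v‖ ^ 2 * ((1 - ‖f w‖ ^ 2) * (1 - ‖f v‖ ^ 2)) := by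
  have h1 : ∀ u ∈ H, (1 : ℂ) - f u ≠ 0 := fun u hu => ne_of_lt (by simp) (hf u hu)
  have := sp (Q := fun u => (1 + f u) / (1 - f u))
    (DifferentiableOn.div (hd.const_add _) (hd.const_sub _) h1)
    (fun u hu => by
      rw [re_cay 1 _ (by simp)]
      have := hf u hu
      apply div_nonneg _ (by positivity)
      nlinarith [norm_nonneg (f u)]) hw hv
  rw [re_cay 1 _ (by simp), re_cay 1 _ (by simp)] at this
  have e : (1 + f w) / (1 - f w) - (1 + f v) / (1 - f v)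
      = 2 * (f w - f v) / ((1 - f w) * (1 - f v)) := by
    have := h1 w hw
    have := h1 v hv
    field_simp; ring
  have a1 : 0 < ‖1 - f w‖ := norm_pos_iff.2 (h1 w hw)
  have a2 : 0 < ‖1 - f v‖ := norm_pos_iff.2 (h1 v hv)
  rw [e, norm_div, norm_mul, norm_mul, Complex.norm_ofNat] at this
  have h3 := mul_le_mul_of_nonneg_right this
    (show 0 ≤ ‖1 - f w‖ ^ 2 * ‖1 - f v‖ ^ 2 by positivity)
  calc _ = (2 * ‖f w - f v‖ / (‖1 - f w‖ * ‖1 - f v‖)) ^ 2 * (w.im * v.im)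
        * (‖1 - f w‖ ^ 2 * ‖1 - f v‖ ^ 2) := by field_simp; ring
    _ ≤ _ := h3
    _ = _ := by field_simp

/-- finite boundary dilation at `0` -/
def Fin0 (f : ℂ → ℂ) : Prop :=
  ∃ M : ℝ, ∀ δ : ℝ, 0 < δ → ∃ v ∈ H, ‖v‖ < δ ∧ 1 - ‖f v‖ ^ 2 ≤ M * v.im

lemma julia {f : ℂ → ℂ} (hd : DifferentiableOn ℂ f H) (hf : ∀ w ∈ H, ‖f w‖ < 1) (h : Fin0 f) :
    ∃ (η : ℂ) (M : ℝ), ‖η‖ = 1 ∧ 0 < M ∧
      ∀ w ∈ H, 4 * ‖η - f w‖ ^ 2 * w.im ≤ M * (‖w‖ ^ 2 * (1 - ‖f w‖ ^ 2)) := by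
  obtain ⟨M, hM⟩ := h
  choose v hv1 hv2 hv3 using fun n : ℕ => hM (1 / ((n : ℝ) + 1)) (by positivity)
  have hv0 : Tendsto v atTop (𝓝 0) :=
    squeeze_zero_norm (fun n => (hv2 n).le) tendsto_one_div_add_atTop_nhds_zero_nat
  obtain ⟨η, hη, s, hs, hlim⟩ := (isCompact_closedBall (0 : ℂ) 1).tendsto_subseq
    (x := fun n => f (v n)) fun n => mem_closedBall_zero_iff.2 (hf _ (hv1 n)).le
  have hvs : Tendsto (fun n => v (s n)) atTop (𝓝 0) := hv0.comp hs.tendsto_atTop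
  have hη1 : ‖η‖ = 1 := by
    have t1 : Tendsto (fun n => 1 - ‖f (v (s n))‖ ^ 2) atTop (𝓝 (1 - ‖η‖ ^ 2)) :=
      ((hlim.norm).pow 2).const_sub 1
    have t2 : Tendsto (fun n => M * (v (s n)).im) atTop (𝓝 (M * (0 : ℂ).im)) :=
      ((continuous_im.tendsto 0).comp hvs).const_mul M
    have := le_of_tendsto_of_tendsto' t1 t2 fun n => hv3 (s n)
    have h2 := mem_closedBall_zero_iff.1 hη
    simp at this
    nlinarith [norm_nonneg η]
  have hM0 : 0 < M := by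
    have a1 := hv3 0
    have a2 := hf _ (hv1 0)
    have a3 : 0 < (v 0).im := hv1 0
    by_contra hc
    push Not at hc
    nlinarith [norm_nonneg (f (v 0)), mul_nonneg (neg_nonneg.2 hc) a3.le]
  refine ⟨η, M, hη1, hM0, fun w hw => ?_⟩
  have t1 : Tendsto (fun n => 4 * ‖f (v (s n)) - f w‖ ^ 2 * w.im) atTop
      (𝓝 (4 * ‖η - f w‖ ^ 2 * w.im)) :=
    ((((hlim.sub_const (f w)).norm).pow 2).const_mul 4).mul_const _
  have t2 : Tendsto (fun n => M * (‖w - v (s n)‖ ^ 2 * (1 - ‖f w‖ ^ 2))) atTop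
      (𝓝 (M * (‖w - 0‖ ^ 2 * (1 - ‖f w‖ ^ 2)))) :=
    ((((hvs.const_sub w).norm).pow 2).mul_const _).const_mul M
  rw [sub_zero] at t2
  refine le_of_tendsto_of_tendsto' t1 t2 fun n => ?_
  have a1 := sp_disc hd hf hw (hv1 (s n))
  have a2 : 0 < (v (s n)).im := hv1 (s n)
  have a3 := hv3 (s n)
  have a4 : 0 ≤ 1 - ‖f w‖ ^ 2 := by nlinarith [hf w hw, norm_nonneg (f w)]
  have a5 := mul_le_mul_of_nonneg_left a3 (mul_nonneg (sq_nonneg ‖w - v (s n)‖) a4)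
  rw [norm_sub_rev]
  apply le_of_mul_le_mul_right _ a2
  nlinarith

lemma wolff {Q : ℂ → ℂ} (hd : DifferentiableOn ℂ Q H) (hp : ∀ w ∈ H, 0 ≤ (Q w).re)
    (h0 : ∀ ε : ℝ, 0 < ε → ∃ v ∈ H, (Q v).re * ‖v‖ ^ 2 ≤ ε * v.im) (κ : ℝ) (hκ : 0 < κ)
    (ε : ℝ) (hε : 0 < ε) :
    ∃ δ : ℝ, 0 < δ ∧ ∀ w ∈ H, ‖w‖ < δ → ‖w‖ ≤ κ * w.im → ‖w * Q w‖ ≤ ε := by
  obtain ⟨v, hv, hv2⟩ := h0 (ε / (16 * κ)) (by positivity)
  have hv' : 0 < v.im := hv
  have hvn : 0 < ‖v‖ := norm_pos_iff.2 fun h => by simp [h] at hv'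
  refine ⟨min ‖v‖ (ε / (2 * (‖Q v‖ + 1))), lt_min hvn (by positivity), fun w hw h1 h2 => ?_⟩
  have hw' : 0 < w.im := hw
  have b1 : ‖w‖ < ‖v‖ := h1.trans_le (min_le_left _ _)
  have b2 : ‖w‖ * (2 * (‖Q v‖ + 1)) < ε :=
    (lt_div_iff₀ (by positivity)).1 (h1.trans_le (min_le_right _ _))
  have a1 := sp hd hp hw hv
  have a2 : ‖w - v‖ ^ 2 ≤ 4 * ‖v‖ ^ 2 := by
    have := norm_sub_le w v
    nlinarith [norm_nonneg (w - v), norm_nonneg w]
  have a3 : (Q w).re ≤ ‖Q w‖ := re_le_norm _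
  have a4 : ‖Q w - Q v‖ ^ 2 * w.im ≤ ε / (4 * κ) * ‖Q w‖ := by
    apply le_of_mul_le_mul_right _ hv'
    have c1 : ‖w - v‖ ^ 2 * ((Q w).re * (Q v).re) ≤ 4 * ‖v‖ ^ 2 * (‖Q w‖ * (Q v).re) :=
      mul_le_mul a2 (mul_le_mul_of_nonneg_right a3 (hp v hv))
        (mul_nonneg (hp w hw) (hp v hv)) (by positivity)
    have c2 := mul_le_mul_of_nonneg_left hv2 (show 0 ≤ 4 * ‖Q w‖ by positivity)
    have c3 : 4 * ‖Q w‖ * (ε / (16 * κ) * v.im) = ε / (4 * κ) * ‖Q w‖ * v.im := by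
      field_simp; ring
    nlinarith
  rw [norm_mul]
  by_contra hc
  push Not at hc
  have hwn : 0 ≤ ‖w‖ := norm_nonneg w
  have d1 : 2 * ‖Q v‖ ≤ ‖Q w‖ := by
    by_contra h3
    push Not at h3
    nlinarith [mul_le_mul_of_nonneg_left h3.le hwn]
  have d2 : ‖Q w‖ / 2 ≤ ‖Q w - Q v‖ := by
    have := norm_sub_norm_le (Q w) (Q v)
    linarith
  have d3 : (‖Q w‖ / 2) ^ 2 * w.im ≤ ε / (4 * κ) * ‖Q w‖ :=
    (mul_le_mul_of_nonneg_right (pow_le_pow_left₀ (by positivity) d2 2) hw'.le).trans a4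
  have d4 : 0 < ‖Q w‖ := by
    by_contra h3
    have : ‖Q w‖ = 0 := le_antisymm (not_lt.1 h3) (norm_nonneg _)
    rw [this] at hc; linarith
  have d5 : ‖Q w‖ * (κ * w.im) ≤ ε := by
    apply le_of_mul_le_mul_right _ d4
    have := mul_le_mul_of_nonneg_left d3 (show 0 ≤ 4 * κ by positivity)
    have e : 4 * κ * (ε / (4 * κ) * ‖Q w‖) = ε * ‖Q w‖ := by field_simp
    nlinarith
  nlinarith [mul_le_mul_of_nonneg_left h2 d4.le]

/-- angular derivative `i d η` at `0` with boundary value `η` -/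
def Ang (f : ℂ → ℂ) (η : ℂ) (d : ℝ) : Prop :=
  ∀ κ : ℝ, 0 < κ → ∀ ε : ℝ, 0 < ε → ∃ δ : ℝ, 0 < δ ∧ ∀ w ∈ H, ‖w‖ < δ → ‖w‖ ≤ κ * w.im →
    ‖f w - η - I * d * η * w‖ ≤ ε * ‖w‖

theorem jc {f : ℂ → ℂ} (hd : DifferentiableOn ℂ f H) (hf : ∀ w ∈ H, ‖f w‖ < 1) (h : Fin0 f) :
    ∃ (η : ℂ) (d : ℝ), ‖η‖ = 1 ∧ 0 < d ∧ Ang f η d := by
  obtain ⟨η, M, hη, hM, hJ⟩ := julia hd hf h
  have hne : ∀ w ∈ H, η - f w ≠ 0 := fun w hw => ne_of_lt hη (hf w hw)
  have hw0 : ∀ w ∈ H, w ≠ 0 := fun w hw h => by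
    have : 0 < w.im := hw
    simp [h] at this
  set R : ℂ → ℝ := fun w => ((η + f w) / (η - f w)).re * ‖w‖ ^ 2 / w.im with hR
  have hlow : ∀ w ∈ H, 4 / M ≤ R w := fun w hw => by
    have hw' : 0 < w.im := hw
    have a1 : 0 < ‖η - f w‖ := norm_pos_iff.2 (hne w hw)
    simp only [hR]
    rw [re_cay η _ hη, div_le_div_iff₀ hM hw', div_mul_eq_mul_div, div_mul_eq_mul_div,
      le_div_iff₀ (by positivity)]
    nlinarith [hJ w hw]
  have hbdd : BddBelow (R '' H) := ⟨4 / M, by rintro _ ⟨w, hw, rfl⟩; exact hlow w hw⟩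
  have hI : I ∈ H := by simp [H]
  set β := sInf (R '' H) with hβ
  have hβ0 : 0 < β := lt_of_lt_of_le (show 0 < 4 / M by positivity)
    (le_csInf ⟨_, I, hI, rfl⟩ (by rintro _ ⟨w, hw, rfl⟩; exact hlow w hw))
  set Q : ℂ → ℂ := fun w => (η + f w) / (η - f w) - β * (I / w) with hQ
  have hre : ∀ w ∈ H, (Q w).re * ‖w‖ ^ 2 = (R w - β) * w.im := fun w hw => by
    have hw' : 0 < w.im := hw
    have a1 : 0 < normSq w := normSq_pos.2 (hw0 w hw)
    have a2 : (I / w).re = w.im / normSq w := by simp [div_re]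
    simp only [hQ, hR, sub_re, re_ofReal_mul, a2, Complex.sq_norm]
    field_simp
  have hQd : DifferentiableOn ℂ Q H :=
    (DifferentiableOn.div (hd.const_add _) (hd.const_sub _) hne).sub
      ((DifferentiableOn.div (by fun_prop) (by fun_prop) hw0).const_mul _)
  have hQp : ∀ w ∈ H, 0 ≤ (Q w).re := fun w hw => by
    have hw' : 0 < w.im := hw
    have a1 : β ≤ R w := csInf_le hbdd ⟨w, hw, rfl⟩
    have a2 : 0 < ‖w‖ ^ 2 := pow_pos (norm_pos_iff.2 (hw0 w hw)) 2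
    have a3 := hre w hw
    by_contra hc
    push Not at hc
    nlinarith [mul_nonneg (sub_nonneg.2 a1) hw'.le, mul_pos (neg_pos.2 hc) a2]
  have hQ0 : ∀ ε : ℝ, 0 < ε → ∃ v ∈ H, (Q v).re * ‖v‖ ^ 2 ≤ ε * v.im := fun ε hε => by
    obtain ⟨_, ⟨v, hv, rfl⟩, h2⟩ := exists_lt_of_csInf_lt (s := R '' H) ⟨_, I, hI, rfl⟩
      (show sInf (R '' H) < β + ε by linarith)
    have hv' : 0 < v.im := hv
    exact ⟨v, hv, by rw [hre v hv]; nlinarith⟩
  refine ⟨η, 2 / β, hη, by positivity, fun κ hκ ε hε => ?_⟩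
  set e := min (β / 4) (ε * β ^ 2 / 8) with he
  have he0 : 0 < e := lt_min (by positivity) (by positivity)
  have he1 : e ≤ β / 4 := min_le_left _ _
  have he2 : e ≤ ε * β ^ 2 / 8 := min_le_right _ _
  obtain ⟨δ, hδ, h1⟩ := wolff hQd hQp hQ0 κ hκ e he0
  refine ⟨min δ e, lt_min hδ he0, fun w hw h2 h3 => ?_⟩
  have a1 := h1 w hw (h2.trans_le (min_le_left _ _)) h3
  have a2 : ‖w‖ < e := h2.trans_le (min_le_right _ _)
  have n1 := hne w hw
  have n2 := hw0 w hw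
  have n3 : η ≠ 0 := fun h => by simp [h] at hη
  set a : ℂ := 2 * η * w / (η - f w) with ha
  have a3 : a - I * β = w + w * Q w := by
    simp only [ha, hQ]; field_simp; ring
  have a4 : ‖a - I * β‖ ≤ 2 * e := by
    rw [a3]; exact (norm_add_le _ _).trans (by linarith)
  have a5 : β / 2 ≤ ‖a‖ := by
    have := norm_sub_norm_le (I * β) a
    rw [norm_sub_rev] at this
    simp only [norm_mul, norm_I, one_mul, norm_real, Real.norm_eq_abs, abs_of_pos hβ0] at this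
    linarith
  have n4 : a ≠ 0 := norm_pos_iff.1 (by linarith)
  have n5 : (β : ℂ) ≠ 0 := by exact_mod_cast hβ0.ne'
  have a6 : f w - η - I * ((2 / β : ℝ) : ℂ) * η * w = 2 * η * w * (a - I * β) / (I * β * a) := by
    have : f w - η = -(2 * η * w / a) := by
      simp only [ha]; field_simp; ring
    rw [this]
    push_cast
    field_simp
    ring_nf
    simp
  rw [a6, norm_div, norm_mul, norm_mul, norm_mul, norm_mul, norm_mul, hη]
  simp only [norm_I, one_mul, mul_one, norm_real, Real.norm_eq_abs, abs_of_pos hβ0,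
    Complex.norm_ofNat]
  rw [div_le_iff₀ (by positivity)]
  have hwn := norm_nonneg w
  have b1 : 2 * ‖w‖ * ‖a - I * β‖ ≤ 2 * ‖w‖ * (ε * β ^ 2 / 4) :=
    mul_le_mul_of_nonneg_left (by linarith) (by positivity)
  have b2 : ε * ‖w‖ * (β * (β / 2)) ≤ ε * ‖w‖ * (β * ‖a‖) :=
    mul_le_mul_of_nonneg_left (mul_le_mul_of_nonneg_left a5 hβ0.le) (by positivity)
  nlinarith

end Pool.Agent.H31.JC
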