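import Mathlib

set_option autoImplicit false

namespace Pool.Agent.H31.Kit

open Complex Metric Set Filter Topology BoundedContinuousFunction

def J : Type := ℂ × ℂ

instance : TopologicalSpace J := ⊥
instance : DiscreteTopology J := ⟨rfl⟩
instance : Nonempty J := ⟨(0, 0)⟩

abbrev X : Type := J →ᵇ ℂ

noncomputable def mk (g : ℂ → ℂ → ℂ) (h : ∀ z w, ‖g z w‖ ≤ 2) : X :=
  ofNormedAddCommGroupDiscrete (fun p : J => g p.1 p.2) 2 fun p => h p.1 p.2

noncomputable def L : X →ₐ[ℂ] (X →L[ℂ] X) :=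
  AlgHom.ofLinearMap (ContinuousLinearMap.mul ℂ X).toLinearMap (by ext; simp)
    fun f g => by ext; simp [mul_assoc]

lemma L_norm (f : X) : ‖L f‖ = ‖f‖ := ContinuousLinearMap.opNorm_mul_apply ℂ X f

lemma L_apply (f x : X) : L f x = f * x := rfl

abbrev D (g : ℂ → ℂ) : Prop := DiffContOnCl ℂ g (ball 0 1)

lemma D_congr {f g : ℂ → ℂ} (h : D f) (e : ∀ z, ‖z‖ ≤ 1 → g z = f z) : D g :=
  DiffContOnCl.mk_ball (h.1.congr fun z hz => e z (mem_ball_zero_iff.1 hz).le)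
    (h.continuousOn_ball.congr fun z hz => e z (mem_closedBall_zero_iff.1 hz))

lemma D_max {f : ℂ → ℂ} (h : D f) {C : ℝ} (e : ∀ z, ‖z‖ = 1 → ‖f z‖ ≤ C) {z : ℂ} (hz : ‖z‖ ≤ 1) :
    ‖f z‖ ≤ C :=
  norm_le_of_forall_mem_frontier_norm_le isBounded_ball h
    (fun z hz => e z (by simpa [frontier_ball _ one_ne_zero] using hz))
    (by simpa [closure_ball _ one_ne_zero] using hz)

lemma D_closed (r : ℂ → J) : IsClosed {f : X | D fun z => f (r z)} := by
  refine isSeqClosed_iff_isClosed.1 fun F f hF hf => ?_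
  have u := (tendsto_iff_tendstoUniformly.1 hf).comp r
  exact ⟨(u.tendstoUniformlyOn.tendstoLocallyUniformlyOn).differentiableOn
    (Eventually.of_forall fun n => (hF n).1) isOpen_ball,
    u.tendstoUniformlyOn.continuousOn (Frequently.of_forall fun n => (hF n).2)⟩

def Good (f : X) : Prop := D (fun z => f (z, 0)) ∧ (∀ z, 1 ≤ ‖z‖ → D fun w => f (z, w)) ∧
  ∀ z w : ℂ, ‖z‖ < 1 → f (z, w) = f (z, 0)

def A0 : Subalgebra ℂ X where
  carrier := {f | Good f}
  mul_mem' := fun a b => ⟨a.1.smul b.1, fun z hz => (a.2.1 z hz).smul (b.2.1 z hz),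
    fun z w hz => by simp [a.2.2 z w hz, b.2.2 z w hz]⟩
  add_mem' := fun a b => ⟨a.1.add b.1, fun z hz => (a.2.1 z hz).add (b.2.1 z hz),
    fun z w hz => by simp [a.2.2 z w hz, b.2.2 z w hz]⟩
  algebraMap_mem' := fun _ => ⟨diffContOnCl_const, fun _ _ => diffContOnCl_const, fun _ _ _ => rfl⟩

lemma A0_closed : IsClosed (A0 : Set X) := by
  have : (A0 : Set X) = {f : X | D fun z => f (z, 0)} ∩ ((⋂ z, ⋂ _ : 1 ≤ ‖z‖,
      {f : X | D fun w => f (z, w)}) ∩ ⋂ z, ⋂ w, ⋂ _ : ‖z‖ < 1, {f : X | f (z, w) = f (z, 0)}) := by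
    ext f
    simp only [mem_inter_iff, mem_iInter]
    rfl
  rw [this]
  exact (D_closed _).inter ((isClosed_iInter fun z => isClosed_iInter fun _ => D_closed _).inter
    (isClosed_iInter fun z => isClosed_iInter fun w => isClosed_iInter fun _ =>
      isClosed_eq (by fun_prop) (by fun_prop)))

lemma good_max {f : X} (h : Good f) {C : ℝ} (e : ∀ z w : ℂ, 1 ≤ ‖z‖ → 1 ≤ ‖w‖ → ‖f (z, w)‖ ≤ C) :
    ‖f‖ ≤ C := by
  have h1 : ∀ z w : ℂ, 1 ≤ ‖z‖ → ‖f (z, w)‖ ≤ C := fun z w hz =>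
    (le_total 1 ‖w‖).elim (e z w hz) (D_max (h.2.1 z hz) fun w hw => e z w hz hw.ge)
  refine (norm_le_of_nonempty (f := f)).2 fun ⟨z, w⟩ => (le_or_gt 1 ‖z‖).elim (h1 z w) fun hz => ?_
  rw [h.2.2 z w hz]
  exact D_max h.1 (fun z hz => h1 z 0 hz.ge) hz.le

noncomputable def A : Subalgebra ℂ (X →L[ℂ] X) := A0.map L

lemma A_closed : IsClosed (A : Set (X →L[ℂ] X)) :=
  (Isometry.isClosedEmbedding (α := X) (γ := X →L[ℂ] X) (f := L)
    (AddMonoidHomClass.isometry_of_norm L L_norm)).isClosedMap _ A0_closed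

noncomputable def rot (c : ℂ) : C(J, J) :=
  ⟨fun p => (p.1, (if 1 ≤ ‖p.1‖ then c else 1) * p.2), continuous_of_discreteTopology⟩

noncomputable def W (c : ℂ) : X →L[ℂ] X := compContinuousCLM ℂ ℂ (rot c)

lemma W_apply (c : ℂ) (f : X) (z w : ℂ) :
    W c f (z, w) = f (z, (if 1 ≤ ‖z‖ then c else 1) * w) := rfl

lemma W_norm (c : ℂ) : ‖W c‖ ≤ 1 :=
  ContinuousLinearMap.opNorm_le_bound _ zero_le_one fun x => by
    rw [one_mul]; exact norm_compContinuous_le x (rot c)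

lemma LW (f : X) (c : ℂ) : ‖L f * W c‖ ≤ ‖f‖ := by
  have h := norm_mul_le (L f) (W c)
  rw [L_norm] at h
  exact h.trans (mul_le_of_le_one_right (norm_nonneg _) (W_norm c))

lemma W_mul {c d : ℂ} (h : c * d = 1) : W c * W d = 1 := by
  ext f ⟨z, w⟩
  change W c (W d f) (z, w) = f (z, w)
  rw [W_apply, W_apply]
  split_ifs
  · rw [← mul_assoc, mul_comm d, h, one_mul]
  · simp

lemma W_L (c : ℂ) (f : X) : W c * L f = L (W c f) * W c := rfl

lemma W_good {c : ℂ} (hc : ‖c‖ = 1) {f : X} (h : Good f) : Good (W c f) := by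
  refine ⟨by simpa [W_apply] using h.1, fun z hz => ?_, fun z w hz => by
    simp only [W_apply, h.2.2 z _ hz]⟩
  simp only [W_apply, if_pos hz]
  exact (h.2.1 z hz).comp (Differentiable.diffContOnCl (by fun_prop)) fun w hw => by simpa [hc] using hw

noncomputable def a0 (z : ℂ) : ℂ := if ‖z‖ ≤ 1 then z else 1

lemma a0_le (z : ℂ) : ‖a0 z‖ ≤ 1 := by
  unfold a0
  split_ifs with h
  exacts [h, by simp]

noncomputable def th (s : ℝ) : X := mk (fun z _ => exp ((s * arg (a0 z) : ℝ) * I)) fun z _ => by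
  rw [norm_exp_ofReal_mul_I]; norm_num

lemma th_mul (s : ℝ) : th s * th (-s) = 1 := by
  ext ⟨z, w⟩
  change exp _ * exp _ = 1
  rw [← exp_add]
  simp

lemma th_norm (s : ℝ) : ‖th s‖ ≤ 1 := (norm_le zero_le_one).2 fun _ => (norm_exp_ofReal_mul_I _).le

noncomputable def V (s : ℝ) : X →L[ℂ] X := L (th s) * W (exp (s * I))

lemma W_th (c : ℂ) (s : ℝ) : W c (th s) = th s := rfl

lemma e_mul (s : ℝ) : exp (s * I) * exp ((-s : ℝ) * I) = 1 := by rw [← exp_add]; simp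

lemma V_mul (s : ℝ) : V s * V (-s) = 1 := by
  rw [V, V, mul_assoc, ← mul_assoc (W _), W_L, W_th, mul_assoc, W_mul (e_mul s), mul_one,
    ← map_mul, th_mul, map_one]

lemma V_norm (s : ℝ) : ‖V s‖ ≤ 1 := (LW _ _).trans (th_norm s)

lemma V_L (s : ℝ) (f : X) : V s * L f * V (-s) = L (W (exp (s * I)) f) := by
  rw [show V s * L f = L (W (exp (s * I)) f) * V s by
    rw [V, mul_assoc, W_L, ← mul_assoc, ← mul_assoc, ← map_mul, ← map_mul, mul_comm (th s)],
    mul_assoc, V_mul, mul_one]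

noncomputable def U : (X →L[ℂ] X)ˣ :=
  ⟨V (-1), V 1, by simpa using V_mul (-1), V_mul 1⟩

noncomputable def fa : X := mk (fun z _ => a0 z) fun z _ => (a0_le z).trans one_le_two

lemma fa_good : Good fa :=
  ⟨D_congr differentiable_id.diffContOnCl fun _ hz => if_pos hz,
    fun z _ => diffContOnCl_const (c := a0 z),
    fun _ _ _ => rfl⟩

noncomputable def fw : X := mk (fun z w => if 1 ≤ ‖z‖ then w / (max 1 ‖w‖ : ℝ) else 0) fun z w => by
  split_ifs
  · rw [norm_div, norm_real, Real.norm_of_nonneg (by positivity)]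
    exact (div_le_one_of_le₀ (le_max_right _ _) (by positivity)).trans one_le_two
  · simp

lemma fw_apply (z w : ℂ) : fw (z, w) = if 1 ≤ ‖z‖ then w / (max 1 ‖w‖ : ℝ) else 0 := rfl

lemma fw_good : Good fw :=
  ⟨by simpa [fw_apply] using diffContOnCl_const, fun z hz => D_congr differentiable_id.diffContOnCl
    fun w hw => by simp [fw_apply, hz, hw], fun z w hz => by simp [fw_apply, hz.not_ge]⟩

lemma W_fw {c : ℂ} (hc : ‖c‖ = 1) : W c fw = c • fw := by
  ext ⟨z, w⟩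
  change W c fw (z, w) = c * fw (z, w)
  rw [W_apply, fw_apply, fw_apply]
  split_ifs
  · rw [norm_mul, hc, one_mul, mul_div_assoc]
  · simp

lemma unit : IsUnit (algebraMap ℂ (X →L[ℂ] X) (-1 / 2) - L fa * V (-1)) := by
  set g : X := mk (fun z _ => if 1 ≤ ‖z‖ then -1 else -(1 / 2 + ‖z‖ : ℝ)) fun z _ => by
    split_ifs with h
    · simp
    · rw [norm_neg, norm_real, Real.norm_of_nonneg (by positivity)]; linarith
  set k : X := mk (fun z _ => if 1 ≤ ‖z‖ then -1 else (-(1 / 2 + ‖z‖ : ℝ))⁻¹) fun z _ => by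
    split_ifs with h
    · simp
    · rw [norm_inv, norm_neg, norm_real, Real.norm_of_nonneg (by positivity)]
      exact inv_le_of_inv_le₀ two_pos (by linarith [norm_nonneg z])
  set e : X := mk (fun z _ => if 1 ≤ ‖z‖ then -1 / 2 else 0) fun z _ => by
    split_ifs <;> norm_num
  have h1 : g * k = 1 := by
    ext ⟨z, w⟩
    change (if 1 ≤ ‖z‖ then -1 else -((1 / 2 + ‖z‖ : ℝ) : ℂ))
      * (if 1 ≤ ‖z‖ then -1 else (-((1 / 2 + ‖z‖ : ℝ) : ℂ))⁻¹) = 1
    split_ifs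
    · simp
    · exact mul_inv_cancel₀ (neg_ne_zero.2 (ofReal_ne_zero.2 (by positivity)))
  have h2 : ‖L e * W (exp ((1 : ℝ) * I))‖ < 1 := by
    refine (LW _ _).trans_lt
      (((norm_le (by norm_num)).2 fun ⟨z, w⟩ => ?_).trans_lt one_half_lt_one)
    change ‖if 1 ≤ ‖z‖ then (-1 / 2 : ℂ) else 0‖ ≤ _
    split_ifs <;> norm_num
  have h5 : IsUnit (1 - L e * W (exp ((1 : ℝ) * I))) := 
    (Units.oneSub (R := X →L[ℂ] X) (L e * W (exp ((1 : ℝ) * I))) h2).isUnit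
  have h3 := (((IsUnit.of_mul_eq_one _ h1).map L).mul h5).mul
    (Units.isUnit ⟨_, _, W_mul (by simpa using e_mul (-1)), W_mul (e_mul 1)⟩)
  convert h3 using 1
  rw [mul_assoc, sub_mul, mul_assoc, W_mul (e_mul 1), one_mul, mul_one]
  ext f ⟨z, w⟩
  change -1 / 2 * f (z, w) - a0 z * (exp ((-1 * arg (a0 z) : ℝ) * I) * W _ f (z, w))
    = (if 1 ≤ ‖z‖ then -1 else -((1 / 2 + ‖z‖ : ℝ) : ℂ))
      * (W _ f (z, w) - (if 1 ≤ ‖z‖ then -1 / 2 else 0) * f (z, w))
  have h4 : a0 z * exp ((-1 * arg (a0 z) : ℝ) * I) = ‖a0 z‖ := by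
    conv_lhs => enter [1]; rw [← norm_mul_exp_arg_mul_I (a0 z)]
    rw [mul_assoc, ← exp_add]
    simp
  rw [← mul_assoc, h4, W_apply]
  split_ifs with h
  · have : ‖a0 z‖ = 1 := by
      unfold a0
      split_ifs with h5
      exacts [le_antisymm h5 h, norm_one]
    rw [this]
    push_cast
    ring
  · rw [a0, if_pos (not_le.1 h).le, one_mul]
    push_cast
    ring

lemma L_comm (f g : X) : L f * L g = L g * L f := by rw [← map_mul, mul_comm, map_mul]

lemma L_sq (f : X) : ‖L f * L f‖ = ‖L f‖ ^ 2 := by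
  rw [← map_mul, L_norm, L_norm, sq]
  refine le_antisymm (norm_mul_le _ _) ?_
  rw [← sq, ← Real.le_sqrt (norm_nonneg _) (norm_nonneg _)]
  refine (norm_le (Real.sqrt_nonneg _)).2 fun p => Real.le_sqrt_of_sq_le ?_
  simpa [sq] using (f * f).norm_coe_le_norm p

lemma spec : spectrum ℂ U.val ⊆ sphere (0 : ℂ) 1 := fun μ hμ => by
  have h0 : μ ≠ 0 := fun h => spectrum.zero_notMem ℂ U.isUnit (h ▸ hμ)
  have n1 : ‖(1 : X →L[ℂ] X)‖ ≤ 1 := ContinuousLinearMap.norm_id_le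
  have b : ∀ s ν, ν ∈ spectrum ℂ (V s) → ‖ν‖ ≤ 1 := fun s ν h =>
    (mem_closedBall_zero_iff.1 (spectrum.subset_closedBall_norm_mul (V s) h)).trans
      (mul_le_one₀ (V_norm s) (norm_nonneg _) n1)
  have h1 := b 1 _ ((spectrum.inv_mem_iff (r := Units.mk0 μ h0) (a := U)).1 hμ)
  rw [Units.val_inv_eq_inv_val, Units.val_mk0, norm_inv,
    inv_le_one₀ (norm_pos_iff.2 h0)] at h1
  exact mem_sphere_zero_iff_norm.2 (le_antisymm (b _ _ hμ) h1)

lemma inv_closed (a : X →L[ℂ] X) (ha : a ∈ A) (h : IsUnit a) : IsUnit (⟨a, ha⟩ : A) := by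
  obtain ⟨f, hf, rfl⟩ := ha
  obtain ⟨b, hb⟩ := h.exists_right_inv
  have e : f * b 1 = 1 := congrArg (fun T : X →L[ℂ] X => T 1) hb
  have e1 : ∀ p, f p * b 1 p = 1 := fun p => congrArg (fun g : X => g p) e
  have e2 : ∀ p, b 1 p = (f p)⁻¹ := fun p => eq_inv_of_mul_eq_one_right (e1 p)
  have g : Good (b 1) := by
    simp only [Good, e2]
    exact ⟨hf.1.inv fun z _ => left_ne_zero_of_mul_eq_one (e1 _), fun z hz =>
      (hf.2.1 z hz).inv fun w _ => left_ne_zero_of_mul_eq_one (e1 _),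
      fun z w hz => by rw [hf.2.2 z w hz]⟩
  have e3 : L f * L (b 1) = 1 := by rw [← map_mul, e, map_one]
  exact ⟨⟨_, ⟨L (b 1), _, g, rfl⟩, Subtype.ext e3, Subtype.ext ((L_comm _ _).trans e3)⟩, rfl⟩

lemma not_surj (f : X) : 1 ≠ (-1 / 2 : ℂ) • L f - L fa * (V (-1) * L f * V 1) := fun h => by
  have e := V_L (-1) f
  rw [neg_neg] at e
  rw [e] at h
  have h1 := congrArg (fun T : X →L[ℂ] X => T 1 ((-1 / 2 : ℂ), (0 : ℂ))) h
  change (1 : ℂ) = -1 / 2 * (f _ * 1) - a0 (-1 / 2) * (W _ f (-1 / 2, 0) * 1) at h1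
  rw [W_apply, mul_zero, a0, if_pos (by norm_num), sub_self] at h1
  exact one_ne_zero h1

section
variable {E : Type} [NormedAddCommGroup E] [NormedSpace ℂ E] [CompleteSpace E]
  {B : Subalgebra ℂ (E →L[ℂ] E)} (h : IsClosed (B : Set (E →L[ℂ] E)))

include h in
lemma cpt : CompactSpace (WeakDual.characterSpace ℂ B) := by
  have : CompleteSpace B := h.completeSpace_coe
  infer_instance

include h in
lemma nb (ψ : WeakDual.characterSpace ℂ B) (a : B) : ‖ψ a‖ ≤ ‖a.1‖ := by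
  have : CompleteSpace B := h.completeSpace_coe
  exact (AlgHom.norm_apply_le_self_mul_norm_one (WeakDual.CharacterSpace.equivAlgHom ψ) a).trans
    (mul_le_of_le_one_right (norm_nonneg _) ContinuousLinearMap.norm_id_le)

include h in
lemma exists_ch (φ : B →ₐ[ℂ] ℂ) : ∃ χ : WeakDual.characterSpace ℂ B, ∀ a, χ a = φ a := by
  have : CompleteSpace B := h.completeSpace_coe
  exact ⟨WeakDual.CharacterSpace.equivAlgHom.symm φ, fun _ => rfl⟩

end

lemma ev (p : J) : ∃ χ : WeakDual.characterSpace ℂ A, ∀ f h, χ ⟨L f, h⟩ = f p := by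
  obtain ⟨χ, h⟩ := exists_ch A_closed
    { toFun := fun a : A => a.1 1 p
      map_one' := rfl
      map_mul' := by
        rintro ⟨_, f, -, rfl⟩ ⟨_, g, -, rfl⟩
        change f p * (g p * 1) = f p * 1 * (g p * 1)
        ring
      map_zero' := rfl
      map_add' := fun _ _ => rfl
      commutes' := fun c => by
        change c * 1 = c
        exact mul_one c }
  exact ⟨χ, fun f _ => (h _).trans (mul_one (f p))⟩

lemma U_pow (n : ℕ) : (U ^ n).val * L fw * (U ^ n).inv = L (exp ((-1 : ℝ) * I) ^ n • fw) := by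
  induction n with
  | zero => simp
  | succ n ih =>
    have e := V_L (-1) (exp ((-1 : ℝ) * I) ^ n • fw)
    rw [neg_neg, map_smul (W _), W_fw (norm_exp_ofReal_mul_I _), smul_smul] at e
    have e2 : (U ^ (n + 1)).val * L fw * (U ^ (n + 1)).inv
      = V (-1) * ((U ^ n).val * L fw * (U ^ n).inv) * V 1 := by
      simp only [pow_succ', Units.val_mul, Units.inv_eq_val_inv, mul_inv_rev, mul_assoc]
      rfl
    rw [e2, ih, e, pow_succ]

lemma meagre : IsMeagre {x : (⋂₀ {K : Set (WeakDual.characterSpace ℂ A) | IsClosed K ∧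
      ∀ a : A, ∃ χ ∈ K, ∀ ψ : WeakDual.characterSpace ℂ A, ‖ψ a‖ ≤ ‖χ a‖} : Set _) |
    x.val ∈ {χ : WeakDual.characterSpace ℂ A | ∃ n : ℕ, 0 < n ∧
      ∀ (a : X →L[ℂ] X) (ha : a ∈ A) (b : X →L[ℂ] X) (hb : b ∈ A),
        b = (U ^ n).val * a * (U ^ n).inv → χ (⟨b, hb⟩ : A) = χ (⟨a, ha⟩ : A)}} := by
  set w : A := ⟨L fw, _, fw_good, rfl⟩ with hw
  have c : ∀ a : A, Continuous fun χ : WeakDual.characterSpace ℂ A => ‖χ a‖ := fun a =>
    ((WeakDual.eval_continuous a).comp continuous_subtype_val).norm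
  have k : IsClosed {χ : WeakDual.characterSpace ℂ A | 1 ≤ ‖χ w‖} :=
    isClosed_le continuous_const (c w)
  choose ev ev_L using ev
  have := cpt A_closed
  have m : ∀ z v : ℂ, 1 ≤ ‖z‖ → 1 ≤ ‖v‖ → 1 ≤ ‖ev (z, v) w‖ := fun z v hz hv => by
    rw [hw, ev_L, fw_apply, if_pos hz, max_eq_right hv, norm_div, norm_real, norm_norm,
      div_self (by positivity)]
  refine IsMeagre.empty.mono ?_
  rintro ⟨χ, h1⟩ ⟨n, n0, h2⟩
  have h3 : 1 ≤ ‖χ w‖ := h1 _ ⟨k, fun a => by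
    obtain ⟨χ, h4, h5⟩ := k.isCompact.exists_isMaxOn ⟨_, m 1 1 (by simp) (by simp)⟩
      (c a).continuousOn
    refine ⟨χ, h4, fun ψ => (nb A_closed ψ a).trans ?_⟩
    obtain ⟨_, f, hf, rfl⟩ := a
    refine (L_norm f).trans_le (good_max hf fun z v hz hv => ?_)
    exact (congrArg norm (ev_L _ f _)).ge.trans (h5 (m z v hz hv))⟩
  have h4 := h2 _ w.2 _ (exp ((-1 : ℝ) * I) ^ n • w).2
    ((map_smul L _ _).symm.trans (U_pow n).symm)
  change χ (exp ((-1 : ℝ) * I) ^ n • w) = χ w at h4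
  rw [map_smul, smul_eq_mul, mul_left_eq_self₀, ← exp_nat_mul, exp_eq_one_iff] at h4
  rcases h4 with ⟨j, hj⟩ | h4
  · have h5 : -(n : ℝ) = 2 * j * Real.pi := by simpa [mul_comm, mul_left_comm] using congrArg im hj
    have j0 : (2 * j : ℤ) ≠ 0 := by
      rintro h
      have : (2 * j : ℝ) = 0 := by exact_mod_cast h
      rw [this, zero_mul, neg_eq_zero, Nat.cast_eq_zero] at h5
      omega
    exact (irrational_pi.intCast_mul j0).ne_int (-n) (by push_cast; exact h5.symm)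
  · rw [h4, norm_zero] at h3
    exact absurd h3 (by norm_num)

end Pool.Agent.H31.Kit
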