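import Mathlib

open Set Filter Topology

namespace Pool.Agent.Lib.helper31.Kor

noncomputable def h (w : ℝ) : ℝ := (-32731/235200000:ℝ) * w^0 + (827954639/705600000:ℝ) * w^1 + (-2008414699/705600000:ℝ) * w^2 + (697851179/100800000:ℝ) * w^3 + (-6:ℝ) * w^4 + (7/4:ℝ) * w^5
noncomputable def h1 (w : ℝ) : ℝ := (827954639/705600000:ℝ) * w^0 + (-2008414699/352800000:ℝ) * w^1 + (697851179/33600000:ℝ) * w^2 + (-24:ℝ) * w^3 + (35/4:ℝ) * w^4
noncomputable def h2 (w : ℝ) : ℝ := (-2008414699/352800000:ℝ) * w^0 + (697851179/16800000:ℝ) * w^1 + (-72:ℝ) * w^2 + (35:ℝ) * w^3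
noncomputable def Rt (w : ℝ) : ℝ := (125951973932326109/77446656000000000000000:ℝ) * w^0 + (-2120965063432798598923/77446656000000000000000:ℝ) * w^1 + (3824146331892421350234547/232339968000000000000000:ℝ) * w^2 + (-51789038115457754642832761/418211942400000000000000:ℝ) * w^3 + (74327879177997090542318281/418211942400000000000000:ℝ) * w^4 + (1267373707037411854071559397/2091059712000000000000000:ℝ) * w^5 + (-94955255943941679670302071/42674688000000000000000:ℝ) * w^6 + (176285749435345443259736113/42674688000000000000000:ℝ) * w^7 + (-10707468137273268541/1905120000000000:ℝ) * w^8 + (4016516157893470123/725760000000000:ℝ) * w^9 + (-64408892761/17280000:ℝ) * w^10 + (46191274759/28800000:ℝ) * w^11 + (-4753/12:ℝ) * w^12 + (343/8:ℝ) * w^13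
noncomputable def Nt (w : ℝ) : ℝ := (-621889/224000000:ℝ) * w^0 + (788997637/336000000:ℝ) * w^1 + (-858949869/224000000:ℝ) * w^2 + (349/240:ℝ) * w^3 + (7/80:ℝ) * w^4

noncomputable def P0 (x y : ℝ) : ℝ := (3836725427422773537611710464/154759031764155265625:ℝ) * x^0 * y^13 + (1892016521763571203205897101312/3868975794103881640625:ℝ) * x^1 * y^12 + (387568059664354839743316410060032/96724394852597041015625:ℝ) * x^2 * y^11 + (1759792133671754245340251271792208/96724394852597041015625:ℝ) * x^3 * y^10 + (25087024836112672482339188290999866/483621974262985205078125:ℝ) * x^4 * y^9 + (479593974650614476057498528006306721/4836219742629852050781250:ℝ) * x^5 * y^8 + (407201069491509077388626801413135507713/3095180635283105312500000000:ℝ) * x^6 * y^7 + (152030721257145697494632269990499241100821/1238072254113242125000000000000:ℝ) * x^7 * y^6 + (49771735712920060776426139428008307205863/619036127056621062500000000000:ℝ) * x^8 * y^5 + (8967602576071947968678173047053742498663/247614450822648425000000000000:ℝ)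 * x^9 * y^4 + (668913006161095386346859566743004575321/61903612705662106250000000000:ℝ) * x^10 * y^3 + (500519084547330258496066203633304277103/247614450822648425000000000000:ℝ) * x^11 * y^2 + (139988871398588542445398428736010771463/619036127056621062500000000000:ℝ) * x^12 * y^1 + (18314020354559280435716715508899150621/1238072254113242125000000000000:ℝ) * x^13 * y^0
lemma P0_nonneg {x y : ℝ} (hx : 0 ≤ x) (hy : 0 ≤ y) : 0 ≤ P0 x y := by
  unfold P0; positivity
lemma Rt_eq0 (w : ℝ) : Rt w = P0 (w - (1/21:ℝ)) ((1/4:ℝ) - w) := by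
  unfold Rt P0; ring

noncomputable def P1 (x y : ℝ) : ℝ := (5977840399768660934299181/6302625000000000000:ℝ) * x^0 * y^13 + (1267067937996820198542063/131304687500000000:ℝ) * x^1 * y^12 + (234918047601387945580036631/2701125000000000000:ℝ) * x^2 * y^11 + (19281564842353614185585059177/28361812500000000000:ℝ) * x^3 * y^10 + (118564337268010385896025473961/34034175000000000000:ℝ) * x^4 * y^9 + (294500878420116009038851273433/25525631250000000000:ℝ) * x^5 * y^8 + (2632526311183249247891301280681/102102525000000000000:ℝ) * x^6 * y^7 + (2051646905413276693784979484837/51051262500000000000:ℝ) * x^7 * y^6 + (377748798152124894466521938159/8508543750000000000:ℝ) * x^8 * y^5 + (7035841787899253988120418783/202584375000000000:ℝ) * x^9 * y^4 + (200557382431305064022698645933/10635679687500000000:ℝ) * x^10 * y^3 + (108019690964914519114083401323/15953519531250000000:ℝ) * x^11 * y^2 + (11548430618953795431636523999/7976759765625000000:ℝ) * x^12 * y^1 + (557262438383481125893557823/3988379882812500000:ℝ)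 * x^13 * y^0
lemma P1_nonneg {x y : ℝ} (hx : 0 ≤ x) (hy : 0 ≤ y) : 0 ≤ P1 x y := by
  unfold P1; positivity
lemma Rt_eq1 (w : ℝ) : Rt w = P1 (w - (1/4:ℝ)) ((1/2:ℝ) - w) := by
  unfold Rt P1; ring

noncomputable def P2 (x y : ℝ) : ℝ := (557262438383481125893557823/112795394551792592824800:ℝ) * x^0 * y^13 + (34929479186345466207906096793/375984648505975309416000:ℝ) * x^1 * y^12 + (8799477150859229396941664626963/11279539455179259282480000:ℝ) * x^2 * y^11 + (529740583292128229107348731283/136721690365809203424000:ℝ) * x^3 * y^10 + (260580484825937216476351823384851/20508253554871380513600000:ℝ) * x^4 * y^9 + (473212622105776749742736342170769/16276391710215381360000000:ℝ) * x^5 * y^8 + (489969646173656496567678291875492611/10254126777435690256800000000:ℝ) * x^6 * y^7 + (1952545244542274671690746893417462809/34180422591452300856000000000:ℝ) * x^7 * y^6 + (1272907822604190548227405527825421363/25635316943589225642000000000:ℝ) * x^8 * y^5 + (211529151133561308487546080343613647/6836084518290460171200000000:ℝ)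 * x^9 * y^4 + (137275767934548851154489428427070219/10254126777435690256800000000:ℝ) * x^10 * y^3 + (94754610745859523133087723019988107/25065643233731687294400000000:ℝ) * x^11 * y^2 + (25516186332883303633039316259027/41444515928789165500000000:ℝ) * x^12 * y^1 + (196873199582968922584544599708659/4641785784024386536000000000:ℝ) * x^13 * y^0
lemma P2_nonneg {x y : ℝ} (hx : 0 ≤ x) (hy : 0 ≤ y) : 0 ≤ P2 x y := by
  unfold P2; positivity
lemma Rt_eq2 (w : ℝ) : Rt w = P2 (w - (1/2:ℝ)) ((21/20:ℝ) - w) := by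
  unfold Rt P2; ring

noncomputable def Q0 (x y : ℝ) : ℝ := (3096303700/31414372081:ℝ) * x^0 * y^4 + (14909405190757/6282874416200:ℝ) * x^1 * y^3 + (7336446392228373/2513149766480000:ℝ) * x^2 * y^2 + (730034041084173/1256574883240000:ℝ) * x^3 * y^1 + (59580074809773/2513149766480000:ℝ) * x^4 * y^0
lemma Q0_nonneg {x y : ℝ} (hx : 0 ≤ x) (hy : 0 ≤ y) : 0 ≤ Q0 x y := by
  unfold Q0; positivity
lemma Nt_eq (w : ℝ) : Nt w = 1/1000 + Q0 (w - 1/21) (21/20 - w) := by
  unfold Nt Q0; ring

lemma Rt_nonneg {w : ℝ} (h0 : 1/21 ≤ w) (h1 : w ≤ 21/20) : 0 ≤ Rt w := by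
  rcases le_total w (1/4) with ha | ha
  · rw [Rt_eq0]; exact P0_nonneg (by linarith) (by linarith)
  rcases le_total w (1/2) with hb | hb
  · rw [Rt_eq1]; exact P1_nonneg (by linarith) (by linarith)
  · rw [Rt_eq2]; exact P2_nonneg (by linarith) (by linarith)

lemma Nt_pos {w : ℝ} (h0 : 1/21 ≤ w) (h1 : w ≤ 21/20) : 0 < Nt w := by
  rw [Nt_eq]
  have := Q0_nonneg (x := w - 1/21) (y := 21/20 - w) (by linarith) (by linarith)
  linarith

lemma idR (w : ℝ) : h1 w * w^2 * (4 + 8*w) - 4*(1-w)*w^3*h2 w - (4 * (h w)^2 + 8 * (h w)^3)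
    = (1-w)*(w-1/21)*Rt w := by
  unfold h h1 h2 Rt; ring

lemma idN (w : ℝ) : w - h w * (w/20 + 19/20) = (1-w)*(w-1/21)*Nt w := by
  unfold h Nt; ring

lemma h1_ge (w : ℝ) : 1/2 ≤ h1 w := by
  unfold h1
  nlinarith [sq_nonneg (w^2 - 48/35*w + 1/5), sq_nonneg (w - 11/20)]

lemma h_one : h 1 = 1 := by unfold h; norm_num
lemma h_w0 : h (1/21) = 1/20 := by unfold h; norm_num

lemma hd (w : ℝ) : HasDerivAt h (h1 w) w := by
  have e := fun (c : ℝ) (k : ℕ) => (hasDerivAt_pow k w).const_mul c
  have := (((((e (-32731/235200000:ℝ) 0).add (e (827954639/705600000:ℝ) 1)).add (e (-2008414699/705600000:ℝ) 2)).add (e (697851179/100800000:ℝ) 3)).add (e (-6:ℝ) 4)).add (e (7/4:ℝ) 5)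
  exact this.congr_deriv (by unfold h1; push_cast; ring)

lemma h1d (w : ℝ) : HasDerivAt h1 (h2 w) w := by
  have e := fun (c : ℝ) (k : ℕ) => (hasDerivAt_pow k w).const_mul c
  have := ((((e (827954639/705600000:ℝ) 0).add (e (-2008414699/352800000:ℝ) 1)).add (e (697851179/33600000:ℝ) 2)).add (e (-24:ℝ) 3)).add (e (35/4:ℝ) 4)
  exact this.congr_deriv (by unfold h2; push_cast; ring)

lemma h_smooth : ContDiff ℝ 2 h := by unfold h; fun_prop
lemma Rt_smooth : ContDiff ℝ 1 Rt := by unfold Rt; fun_prop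
lemma Nt_smooth : ContDiff ℝ 1 Nt := by unfold Nt; fun_prop

lemma h_strictMono : StrictMono h :=
  strictMono_of_deriv_pos (fun w => by rw [(hd w).deriv]; linarith [h1_ge w])

lemma g_mono : Monotone (fun w => h w - w/2) :=
  monotone_of_deriv_nonneg (fun w => ((hd w).sub ((hasDerivAt_id w).div_const 2)).differentiableAt)
    (fun w => by
      have := ((hd w).sub ((hasDerivAt_id w).div_const 2)).deriv
      have e : deriv (fun w => h w - w/2) w = h1 w - 1/2 := this
      rw [e]; linarith [h1_ge w])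

lemma h_surj : Function.Surjective h := by
  intro y
  have hc : Continuous h := h_smooth.continuous
  have ha : h (1 - 2*|y - 1|) ≤ y := by
    have := g_mono (show 1 - 2*|y-1| ≤ 1 by linarith [abs_nonneg (y-1)])
    simp only [h_one] at this
    linarith [neg_abs_le (y-1)]
  have hb : y ≤ h (1 + 2*|y - 1|) := by
    have := g_mono (show 1 ≤ 1 + 2*|y-1| by linarith [abs_nonneg (y-1)])
    simp only [h_one] at this
    linarith [le_abs_self (y-1)]
  exact intermediate_value_univ _ _ hc ⟨ha, hb⟩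

noncomputable def hH : ℝ ≃ₜ ℝ := (h_strictMono.orderIsoOfSurjective h h_surj).toHomeomorph

lemma hH_apply (w : ℝ) : hH w = h w := rfl

noncomputable def om (v : ℝ) : ℝ := hH.symm v

lemma om_h (w : ℝ) : om (h w) = w := hH.symm_apply_apply w
lemma h_om (v : ℝ) : h (om v) = v := hH.apply_symm_apply v

lemma om_smooth : ContDiff ℝ 1 om := by
  have := hH.contDiff_symm_deriv (n := 1) (f' := h1) (fun a => by linarith [h1_ge a])
    (fun a => hd a) (h_smooth.of_le (by norm_num))
  exact this

lemma om_ge {v : ℝ} (hv : 1/20 ≤ v) : 1/21 ≤ om v := by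
  rw [← h_strictMono.le_iff_le, h_om, h_w0]; exact hv

noncomputable def Z (w : ℝ) : ℝ := Real.smoothTransition (41 - 40 * w) * (w * Rt w / Nt w)

lemma Z_zero {w : ℝ} (hw : 41/40 ≤ w) : Z w = 0 := by
  unfold Z
  rw [Real.smoothTransition.zero_of_nonpos (by linarith), zero_mul]

lemma Z_nonneg {w : ℝ} (hw : 1/21 ≤ w) : 0 ≤ Z w := by
  rcases le_total w (21/20) with h1 | h1
  · unfold Z
    have := Rt_nonneg hw h1
    have := Nt_pos hw h1
    have := Real.smoothTransition.nonneg (41 - 40 * w)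
    have : 0 ≤ w := by linarith
    positivity
  · rw [Z_zero (by linarith)]

lemma Z_smooth {w : ℝ} (hw : 1/21 ≤ w) : ContDiffAt ℝ 1 Z w := by
  rcases le_total w (21/20) with h1 | h1
  · have hN := (Nt_pos hw h1).ne'
    have a1 : ContDiff ℝ 1 (fun w : ℝ => Real.smoothTransition (41 - 40 * w)) :=
      (Real.smoothTransition.contDiff (n := 1)).comp (by fun_prop)
    exact a1.contDiffAt.mul ((contDiffAt_id.mul Rt_smooth.contDiffAt).div Nt_smooth.contDiffAt hN)
  · have : Z =ᶠ[𝓝 w] fun _ => 0 := by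
      filter_upwards [Ioi_mem_nhds (show (41/40:ℝ) < w by linarith)] with x hx
      exact Z_zero (le_of_lt hx)
    exact contDiffAt_const.congr_of_eventuallyEq this

lemma Z_eq {w : ℝ} (hw : w ≤ 1) : Z w = w * Rt w / Nt w := by
  unfold Z
  rw [Real.smoothTransition.one_of_one_le (by linarith), one_mul]

noncomputable def F (p : ℝ × ℝ) : ℝ :=
  4 * (p.2 + 1/20)^2 + 8 * (p.2 + 1/20)^3 + Z (om (p.2 + 1/20)) * (1 - (p.2 + 1/20) * (1 + 19 * p.1^2))

lemma F_smooth {p : ℝ × ℝ} (hp : 0 ≤ p.2) : ContDiffAt ℝ 1 F p := by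
  have a1 : ContDiffAt ℝ 1 (fun p : ℝ × ℝ => Z (om (p.2 + 1/20))) p := by
    have b : ContDiffAt ℝ 1 (fun p : ℝ × ℝ => om (p.2 + 1/20)) p :=
      (om_smooth.comp (by fun_prop : ContDiff ℝ 1 (fun p : ℝ × ℝ => p.2 + 1/20))).contDiffAt
    exact (Z_smooth (om_ge (by linarith))).comp p b
  have a2 : ContDiff ℝ 1 (fun p : ℝ × ℝ => 4 * (p.2 + 1/20)^2 + 8 * (p.2 + 1/20)^3) := by fun_prop
  have a3 : ContDiff ℝ 1 (fun p : ℝ × ℝ => (1 - (p.2 + 1/20) * (1 + 19 * p.1^2))) := by fun_prop
  exact a2.contDiffAt.add (a1.mul a3.contDiffAt)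

lemma F_r (r u : ℝ) : HasDerivAt (fun s => F (s, u))
    (-(Z (om (u + 1/20)) * ((u + 1/20) * (38 * r)))) r := by
  have := ((((hasDerivAt_pow 2 r).const_mul 19).const_add 1).const_mul (u + 1/20)).const_sub 1
  have := (this.const_mul (Z (om (u + 1/20)))).const_add (4 * (u + 1/20)^2 + 8 * (u + 1/20)^3)
  exact this.congr_deriv (by push_cast; ring)

noncomputable def W (S r : ℝ) : ℝ := 1 / (1 + S * r^2)

lemma W_d {S : ℝ} (hS : 0 < S) (r : ℝ) : HasDerivAt (W S) (-2 * S * r * (W S r)^2) r := by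
  have hp : 1 + S * r^2 ≠ 0 := by positivity
  have := (((hasDerivAt_pow 2 r).const_mul S).const_add 1).inv hp
  have e : W S = (fun x => 1 + S * x ^ 2)⁻¹ := by ext x; simp [W]
  have e2 : -(S * (((2:ℕ):ℝ) * r ^ (2 - 1))) / (1 + S * r ^ 2) ^ 2 = -2 * S * r * (W S r)^2 := by
    unfold W; push_cast; field_simp
  rw [e2, ← e] at this
  exact this

lemma W_smooth {S : ℝ} (hS : 0 < S) : ContDiff ℝ 2 (W S) := by
  unfold W
  exact contDiff_const.div (by fun_prop) (fun r => by positivity)

lemma ode {S c : ℝ} (hS : 0 < S) (g g1 g2 : ℝ → ℝ) (hg : ∀ w, HasDerivAt g (g1 w) w)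
    (hg1 : ∀ w, HasDerivAt g1 (g2 w) w) :
    (∀ r, HasDerivAt (fun r => g (W S r) - c) (g1 (W S r) * (-2 * S * r * (W S r)^2)) r) ∧
    ∀ r, r ≠ 0 → deriv (deriv (fun r => g (W S r) - c)) r
      + (6 - 1) / r * deriv (fun r => g (W S r) - c) r
      = -S * (g1 (W S r) * (W S r)^2 * (4 + 8 * W S r) - 4 * (1 - W S r) * (W S r)^3 * g2 (W S r)) := by
  have a : ∀ r, HasDerivAt (fun r => g (W S r) - c) (g1 (W S r) * (-2 * S * r * (W S r)^2)) r :=
    fun r => ((hg _).comp r (W_d hS r)).sub_const c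
  refine ⟨a, fun r hr => ?_⟩
  have e : deriv (fun r => g (W S r) - c) = fun r => g1 (W S r) * (-2 * S * r * (W S r)^2) := by
    ext r; exact (a r).deriv
  rw [e]
  have b := ((hg1 _).comp r (W_d hS r)).mul
    (((hasDerivAt_id r).const_mul (-2 * S)).mul ((W_d hS r).pow 2))
  have b' : HasDerivAt (fun r => g1 (W S r) * (-2 * S * r * (W S r)^2))
      (g2 (W S r) * (-2 * S * r * (W S r)^2) * (-2 * S * r * (W S r)^2)
        + g1 (W S r) * (-2 * S * (W S r)^2 + -2 * S * r * (2 * W S r * (-2 * S * r * (W S r)^2)))) r := by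
    exact b.congr_deriv (by simp)
  rw [b'.deriv]
  have hp : 1 + S * r^2 ≠ 0 := by positivity
  have k : S * r^2 * W S r = 1 - W S r := by unfold W; field_simp; ring
  have k2 : (6 - 1) / r * (g1 (W S r) * (-2 * S * r * (W S r)^2)) = -10 * S * (W S r)^2 * g1 (W S r) := by
    field_simp; ring
  rw [k2]
  linear_combination (4 * S * (W S r)^3 * g2 (W S r) + 8 * S * (W S r)^2 * g1 (W S r)) * k

end Pool.Agent.Lib.helper31.Kor
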