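import Mathlib

namespace Pool.Agent.Lib.helper31.Ell

open Filter Topology

variable {I 𝕜 : Type*} [RCLike 𝕜]

/-- `ℓ¹(I)`. -/
abbrev L1 (I 𝕜 : Type*) [RCLike 𝕜] := lp (fun _ : I => 𝕜) 1

open Classical in
/-- basis vectors -/
noncomputable def e (𝕜 : Type*) [RCLike 𝕜] (i : I) : L1 I 𝕜 := lp.single 1 i 1

lemma norm_e (i : I) : ‖e 𝕜 i‖ = 1 := by
  classical
  unfold e; rw [lp.norm_single (by simp)]; simp

lemma hs_norm (x : L1 I 𝕜) : HasSum (fun i => ‖x i‖) ‖x‖ := by
  simpa using lp.hasSum_norm (p := 1) (by simp) x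

lemma hs (x : L1 I 𝕜) : HasSum (fun i => x i • e 𝕜 i) x := by
  classical
  have := lp.hasSum_single (p := 1) (by simp) x
  have h : (fun i => x i • e 𝕜 i) = fun i => lp.single 1 i (x i) := by
    funext i; unfold e; rw [← lp.single_smul]; simp
  rw [h]; exact this

variable {E : Type*} [NormedAddCommGroup E] [NormedSpace 𝕜 E]

lemma norm_le (T : L1 I 𝕜 →L[𝕜] E) (C : ℝ) (h : ∀ i, ‖T (e 𝕜 i)‖ ≤ C) (x : L1 I 𝕜) :
    ‖T x‖ ≤ C * ‖x‖ := by
  refine ((hs x).mapL T).norm_le_of_bounded ((hs_norm x).mul_left C) fun i => ?_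
  rw [map_smul, norm_smul, mul_comm]
  exact mul_le_mul_of_nonneg_right (h i) (norm_nonneg _)

lemma exists_lift [CompleteSpace E] (t : I → E) (C : ℝ) (h : ∀ i, ‖t i‖ ≤ C) :
    ∃ T : L1 I 𝕜 →L[𝕜] E, ∀ i, T (e 𝕜 i) = t i := by
  classical
  have hb : ∀ (x : L1 I 𝕜) i, ‖x i • t i‖ ≤ C * ‖x i‖ := fun x i => by
    rw [norm_smul, mul_comm]; exact mul_le_mul_of_nonneg_right (h i) (norm_nonneg _)
  have hsum : ∀ x : L1 I 𝕜, Summable fun i => x i • t i := fun x =>
    .of_norm_bounded ((hs_norm x).mul_left C).summable (hb x)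
  refine ⟨LinearMap.mkContinuous
    { toFun := fun x => ∑' i, x i • t i
      map_add' := fun x y => by
        rw [← (hsum x).tsum_add (hsum y)]; simp [add_smul]
      map_smul' := fun c x => by
        rw [RingHom.id_apply, ← (hsum x).tsum_const_smul c]; simp [smul_smul] } C
    (fun x => (hsum x).hasSum.norm_le_of_bounded ((hs_norm x).mul_left C) (hb x)), fun i => ?_⟩
  change ∑' j, (e 𝕜 i) j • t j = t i
  rw [tsum_eq_single i]
  · simp [e]
  · intro j hj; simp [e, hj]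

lemma dense_of (W : Submodule 𝕜 (L1 I 𝕜)) (h : ∀ i, e 𝕜 i ∈ closure (W : Set (L1 I 𝕜))) :
    Dense (W : Set (L1 I 𝕜)) := by
  intro x
  have : x ∈ closure (W.topologicalClosure : Set (L1 I 𝕜)) :=
    mem_closure_of_tendsto (hs x) (Eventually.of_forall fun s =>
      W.topologicalClosure.sum_mem fun i _ => W.topologicalClosure.smul_mem _ (h i))
  rwa [Submodule.topologicalClosure_coe, closure_closure] at this

lemma separable [Countable I] : TopologicalSpace.SeparableSpace (L1 I 𝕜) := by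
  have h := dense_of (Submodule.span 𝕜 (Set.range (e 𝕜 : I → L1 I 𝕜)))
    fun i => subset_closure (Submodule.subset_span ⟨i, rfl⟩)
  have := ((Set.countable_range (e 𝕜 : I → L1 I 𝕜)).isSeparable.span (R := 𝕜)).closure
  rw [h.closure_eq] at this
  exact TopologicalSpace.isSeparable_univ_iff.1 this

end Pool.Agent.Lib.helper31.Ell
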