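import Mathlib

open Set Filter Topology Real MeasureTheory intervalIntegral

namespace Pool.Agent.Lib.helper31.Lkf

noncomputable def p (r : ℝ) : ℝ := max r 0

lemma p_cont : Continuous p := by unfold p; fun_prop
lemma p_nonneg (r : ℝ) : 0 ≤ p r := le_max_right _ _
lemma p_ge (r : ℝ) : r ≤ p r := le_max_left _ _
lemma p_lip (a b : ℝ) : |p a - p b| ≤ |a - b| := abs_max_sub_max_le_abs a b 0
lemma p_of_nonneg {r : ℝ} (h : 0 ≤ r) : p r = r := max_eq_left h
lemma p_of_nonpos {r : ℝ} (h : r ≤ 0) : p r = 0 := max_eq_right h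
lemma p_abs (r : ℝ) : |p r| ≤ |r| := by simpa [p] using p_lip r 0
lemma p_add (r : ℝ) : p r + p (-r) = |r| := by
  rcases le_total 0 r with h | h
  · rw [p_of_nonneg h, p_of_nonpos (by linarith), abs_of_nonneg h, add_zero]
  · rw [p_of_nonpos h, p_of_nonneg (by linarith), abs_of_nonpos h, zero_add]

lemma psq (r : ℝ) : HasDerivAt (fun r => p r ^ 2) (2 * p r) r := by
  rcases lt_trichotomy r 0 with h | h | h
  · rw [p_of_nonpos h.le, mul_zero]
    refine (hasDerivAt_const r (0:ℝ)).congr_of_eventuallyEq ?_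
    filter_upwards [Iio_mem_nhds h] with x hx
    simp [p_of_nonpos (le_of_lt hx)]
  · subst h
    rw [p_of_nonpos le_rfl, mul_zero, hasDerivAt_iff_tendsto_slope]
    refine squeeze_zero_norm' (a := fun x => |x|) ?_ ?_
    · filter_upwards [self_mem_nhdsWithin] with x hx
      have hx' : x ≠ 0 := hx
      rw [slope_def_field, p_of_nonpos le_rfl]
      simp only [sub_zero, norm_div, Real.norm_eq_abs, ne_eq, OfNat.ofNat_ne_zero,
        not_false_eq_true, zero_pow, abs_pow]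
      rw [div_le_iff₀ (abs_pos.2 hx'), ← sq]
      exact pow_le_pow_left₀ (abs_nonneg _) (p_abs x) 2
    · simpa using (continuous_abs.tendsto (0:ℝ)).mono_left nhdsWithin_le_nhds
  · rw [p_of_nonneg h.le]
    refine ((hasDerivAt_pow 2 r).congr_deriv (by simp)).congr_of_eventuallyEq ?_
    filter_upwards [Ioi_mem_nhds h] with x hx
    simp [p_of_nonneg (le_of_lt hx)]

noncomputable def Jf (y : ℝ → ℝ) (t : ℝ) : ℝ := ∫ s in (t - 2 * π)..t, p (y s)
noncomputable def If (y : ℝ → ℝ) (t : ℝ) : ℝ := 4 * ∫ s in (t - 2 * π)..t, (2 * π + s - t) * p (y s)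

lemma win (g : ℝ → ℝ) (hg : Continuous g) (t : ℝ) :
    HasDerivAt (fun t => ∫ s in (t - 2 * π)..t, g s) (g t - g (t - 2 * π)) t := by
  have a := fun t => (hg.integral_hasStrictDerivAt 0 t).hasDerivAt
  have b := (a t).sub ((a (t - 2 * π)).comp t ((hasDerivAt_id t).sub_const (2 * π)))
  have e : (fun t => ∫ s in (t - 2 * π)..t, g s)
      = fun t => (∫ s in (0:ℝ)..t, g s) - ∫ s in (0:ℝ)..(t - 2 * π), g s := by
    ext t
    exact (integral_interval_sub_left (hg.intervalIntegrable _ _) (hg.intervalIntegrable _ _)).symm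
  rw [e]
  exact b.congr_deriv (by simp)

lemma If_d (y : ℝ → ℝ) (hy : Continuous y) (t : ℝ) :
    HasDerivAt (If y) (4 * (2 * π * p (y t) - Jf y t)) t := by
  have c1 : Continuous (fun s => p (y s)) := p_cont.comp hy
  have c2 : Continuous (fun s => s * p (y s)) := continuous_id.mul c1
  have e : If y = fun t => 4 * ((2 * π - t) * (∫ s in (t - 2 * π)..t, p (y s))
      + ∫ s in (t - 2 * π)..t, s * p (y s)) := by
    ext t
    unfold If
    rw [← intervalIntegral.integral_const_mul, ← intervalIntegral.integral_const_mul (2 * π - t),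
      ← intervalIntegral.integral_add ((c1.intervalIntegrable _ _).const_mul _)
        (c2.intervalIntegrable _ _), ← intervalIntegral.integral_const_mul]
    congr 1; ext s; ring
  rw [e]
  exact (((((hasDerivAt_id t).const_sub (2 * π)).mul (win _ c1 t)).add (win _ c2 t)).const_mul
    4).congr_deriv (by simp [Jf]; ring)

lemma If_c1 (y : ℝ → ℝ) (hy : Continuous y) : ContDiff ℝ 1 (If y) := by
  rw [contDiff_one_iff_deriv]
  refine ⟨fun t => (If_d y hy t).differentiableAt, ?_⟩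
  have e : deriv (If y) = fun t => 4 * (2 * π * p (y t) - Jf y t) := by
    ext t; exact (If_d y hy t).deriv
  have c : Continuous (Jf y) :=
    continuous_iff_continuousAt.2 fun t => (win _ (p_cont.comp hy) t).continuousAt
  have := p_cont.comp hy
  rw [e]
  exact continuous_const.mul ((continuous_const.mul this).sub c)

noncomputable def Gf (y : ℝ → ℝ) (t : ℝ) : ℝ := p (y t) ^ 2 * exp (If (fun s => -y s) t)

noncomputable def DG (a w J I : ℝ) : ℝ := (2 * p a * w + p a ^ 2 * (4 * (2 * π * p (-a) - J))) * exp I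

lemma Gf_d (y : ℝ → ℝ) (hy : Continuous y) (t w : ℝ) (h : HasDerivWithinAt y w (Ici t) t) :
    HasDerivWithinAt (Gf y) (DG (y t) w (Jf (fun s => -y s) t) (If (fun s => -y s) t)) (Ici t) t := by
  have a := (psq (y t)).comp_hasDerivWithinAt t h
  have b := (If_d (fun s => -y s) hy.neg t).exp.hasDerivWithinAt (s := Ici t)
  exact (a.mul b).congr_deriv (by simp [DG]; ring)

lemma ac_comp {y : ℝ → ℝ} {a b : ℝ} (q : ℝ → ℝ) (hq : ∀ a b, |q a - q b| ≤ |a - b|)
    (h : AbsolutelyContinuousOnInterval y a b) :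
    AbsolutelyContinuousOnInterval (fun s => q (y s)) a b :=
  squeeze_zero (fun _ => Finset.sum_nonneg fun _ _ => dist_nonneg)
    (fun _ => Finset.sum_le_sum fun _ _ => hq _ _) h

lemma ac_congr {y z : ℝ → ℝ} {a b : ℝ} (e : EqOn y z (uIcc a b))
    (h : AbsolutelyContinuousOnInterval y a b) : AbsolutelyContinuousOnInterval z a b := by
  refine Tendsto.congr' ?_ h
  refine eventually_inf_principal.2 (Eventually.of_forall fun E hE => ?_)
  refine Finset.sum_congr rfl fun i hi => ?_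
  rw [e (hE.1 i hi).1, e (hE.1 i hi).2]

lemma Gf_ac (y : ℝ → ℝ) (hy : Continuous y) {a b : ℝ} (h : AbsolutelyContinuousOnInterval y a b) :
    AbsolutelyContinuousOnInterval (Gf y) a b := by
  have a1 := ac_comp p p_lip h
  have a2 : AbsolutelyContinuousOnInterval (fun t => exp (If (fun s => -y s) t)) a b :=
    (If_c1 _ hy.neg).exp.contDiffOn.absolutelyContinuousOnInterval
  refine ac_congr (fun t _ => ?_) ((a1.mul a1).mul a2)
  simp [Gf, sq]

lemma limsup_eq {g : ℝ → ℝ} {t d : ℝ} (h : HasDerivWithinAt g d (Ici t) t) (q : ℝ → ℝ)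
    (e : ∀ᶠ s in 𝓝[>] (0:ℝ), q s = (g (t + s) - g t) / s) :
    limsup (fun s => ((q s : ℝ) : EReal)) (𝓝[>] 0) = d := by
  have h1 := (h.mono Ioi_subset_Ici_self)
  rw [hasDerivWithinAt_iff_tendsto_slope' (by simp)] at h1
  have h2 : Tendsto (fun s : ℝ => t + s) (𝓝[>] 0) (𝓝[>] t) := by
    refine tendsto_nhdsWithin_iff.2 ⟨?_, ?_⟩
    · have : Continuous (fun s : ℝ => t + s) := by fun_prop
      simpa using (this.tendsto (0:ℝ)).mono_left (nhdsWithin_le_nhds (s := Ioi 0))
    · filter_upwards [self_mem_nhdsWithin] with s hs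
      simpa using hs
  have h3 : Tendsto q (𝓝[>] 0) (𝓝 d) := by
    refine (h1.comp h2).congr' ?_
    filter_upwards [e] with s hs
    simp [hs, slope_def_field]
  exact (continuous_coe_real_ereal.continuousAt.tendsto.comp h3).limsup_eq

lemma DG_le {a w J I Y v : ℝ} (ha : 0 ≤ a) (hI : 0 ≤ I) (hY : -Y ≤ J) (hv : 2 * |v| ≤ a)
    (hw : w = -(a * (p (1 - J) + Y)) + v) : DG a w J I ≤ -a ^ 2 := by
  unfold DG
  rw [p_of_nonneg ha, p_of_nonpos (show -a ≤ 0 by linarith), hw]
  have h1 := p_ge (1 - J)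
  have h2 := le_abs_self v
  have h3 : 2 * a * (-(a * (p (1 - J) + Y)) + v) + a ^ 2 * (4 * (2 * π * 0 - J)) ≤ -a ^ 2 := by
    nlinarith [mul_nonneg (sq_nonneg a) (show 0 ≤ p (1 - J) + J - 1 by linarith),
      mul_nonneg (sq_nonneg a) (show 0 ≤ Y + J by linarith),
      mul_nonneg ha (show 0 ≤ a - 2 * v by linarith)]
  have h4 := one_le_exp hI
  nlinarith [sq_nonneg a]

lemma DG_zero {a w J I : ℝ} (ha : a ≤ 0) : DG a w J I = 0 := by
  unfold DG; rw [p_of_nonpos ha]; simp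

noncomputable def sg (t : ℝ) : ℝ := sin t + sin t ^ 3 / 6
noncomputable def sg1 (t : ℝ) : ℝ := cos t * (3 - cos t ^ 2) / 2
noncomputable def S (K t : ℝ) : ℝ := K ^ 2 / 4 / cosh (K * sg t / 2) ^ 2
noncomputable def Yk (K t : ℝ) : ℝ := K * (sinh (K * sg t / 2) / cosh (K * sg t / 2))
noncomputable def Xk (K t : ℝ) : ℝ := sg1 t * S K t
noncomputable def X1 (K t : ℝ) : ℝ := -(3 / 2) * sin t ^ 3 * S K t - sg1 t ^ 2 * Yk K t * S K t

lemma sg_d (t : ℝ) : HasDerivAt sg (sg1 t) t :=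
  ((hasDerivAt_sin t).add (((hasDerivAt_sin t).pow 3).div_const 6)).congr_deriv (by
    unfold sg1; simp; linear_combination (cos t / 2) * sin_sq_add_cos_sq t)

lemma sg1_d (t : ℝ) : HasDerivAt sg1 (-(3 / 2) * sin t ^ 3) t :=
  (((hasDerivAt_cos t).mul (((hasDerivAt_cos t).pow 2).const_sub 3)).div_const 2).congr_deriv (by
    simp; linear_combination (3 / 2 * sin t) * sin_sq_add_cos_sq t)

lemma Yk_d (K t : ℝ) : HasDerivAt (Yk K) (2 * Xk K t) t := by
  have z := ((sg_d t).const_mul K).div_const 2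
  have hc := (cosh_pos (K * sg t / 2)).ne'
  refine ((z.sinh.div z.cosh hc).const_mul K).congr_deriv ?_
  unfold Xk S
  field_simp
  linear_combination (4 * K ^ 2 * sg1 t) * cosh_sq_sub_sinh_sq (K * sg t / 2)

lemma Xk_d (K t : ℝ) : HasDerivAt (Xk K) (X1 K t) t := by
  have z := ((sg_d t).const_mul K).div_const 2
  have hc := (cosh_pos (K * sg t / 2)).ne'
  have s := (hasDerivAt_const t (K ^ 2 / 4)).div (z.cosh.pow 2) (pow_ne_zero 2 hc)
  refine ((sg1_d t).mul s).congr_deriv ?_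
  unfold X1 S Yk
  simp
  field_simp
  ring

lemma Xk_cont (K : ℝ) : Continuous (Xk K) :=
  continuous_iff_continuousAt.2 fun t => (Xk_d K t).continuousAt
lemma Yk_cont (K : ℝ) : Continuous (Yk K) :=
  continuous_iff_continuousAt.2 fun t => (Yk_d K t).continuousAt
lemma S_cont (K : ℝ) : Continuous (S K) := by
  have : Continuous sg := by unfold sg; fun_prop
  unfold S
  exact continuous_const.div (by fun_prop) fun t => pow_ne_zero 2 (cosh_pos _).ne'
lemma X1_cont (K : ℝ) : Continuous (X1 K) := by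
  have := S_cont K; have := Yk_cont K
  have : Continuous sg1 := by unfold sg1; fun_prop
  unfold X1; fun_prop

lemma sg_pi (t : ℝ) : sg (t + π) = -sg t := by unfold sg; rw [sin_add_pi]; ring
lemma Xk_pi (K t : ℝ) : Xk K (t + π) = -Xk K t := by
  unfold Xk S sg1
  rw [sg_pi, cos_add_pi, show K * -sg t / 2 = -(K * sg t / 2) by ring, cosh_neg]; ring
lemma Yk_pi (K t : ℝ) : Yk K (t + π) = -Yk K t := by
  unfold Yk
  rw [sg_pi, show K * -sg t / 2 = -(K * sg t / 2) by ring, cosh_neg, sinh_neg]; ring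

lemma int_X (K t : ℝ) : ∫ s in (t - π)..t, Xk K s = Yk K t := by
  have := integral_eq_sub_of_hasDerivAt (f := fun s => Yk K s / 2) (f' := Xk K) (a := t - π) (b := t)
    (fun s _ => ((Yk_d K s).div_const 2).congr_deriv (by ring)) ((Xk_cont K).intervalIntegrable _ _)
  have e := Yk_pi K (t - π)
  rw [sub_add_cancel] at e
  rw [this]; linarith

lemma J_ge {K : ℝ} (hK : 2 ≤ K) (t : ℝ) : 1 ≤ Jf (Xk K) t := by
  have pi := pi_pos
  have c : Continuous (fun s => p (Xk K s)) := p_cont.comp (Xk_cont K)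
  have per : Function.Periodic (fun s => p (Xk K s)) (2 * π) := fun s => by
    simp only
    rw [show s + 2 * π = s + π + π by ring, Xk_pi, Xk_pi, neg_neg]
  have e := per.intervalIntegral_add_eq (t - 2 * π) (π / 2 - π)
  rw [sub_add_cancel] at e
  unfold Jf
  rw [e, ← integral_add_adjacent_intervals (b := π / 2) (c.intervalIntegrable _ _)
    (c.intervalIntegrable _ _)]
  have a1 : 0 ≤ ∫ s in (π / 2)..(π / 2 - π + 2 * π), p (Xk K s) :=
    integral_nonneg (by linarith) fun s _ => p_nonneg _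
  have a2 : ∫ s in (π / 2 - π)..(π / 2), Xk K s ≤ ∫ s in (π / 2 - π)..(π / 2), p (Xk K s) :=
    integral_mono (by linarith) ((Xk_cont K).intervalIntegrable _ _) (c.intervalIntegrable _ _)
      fun s => p_ge _
  rw [int_X] at a2
  have a3 : 1 ≤ Yk K (π / 2) := by
    unfold Yk sg
    rw [sin_pi_div_two]
    have hz : 1 ≤ K * (1 + 1 ^ 3 / 6) / 2 := by linarith
    generalize K * (1 + 1 ^ 3 / 6) / 2 = z at hz
    have b : 1 / 2 ≤ sinh z / cosh z := by
      rw [le_div_iff₀ (cosh_pos z), sinh_eq, cosh_eq]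
      have := add_one_le_exp (2 * z)
      have e2 : exp (2 * z) * exp (-z) = exp z := by rw [← exp_add]; ring_nf
      nlinarith [exp_pos (-z)]
    nlinarith
  linarith

lemma J_ge' {K : ℝ} (hK : 2 ≤ K) (t : ℝ) : 1 ≤ Jf (fun s => -Xk K s) t := by
  have := J_ge hK (t + π)
  unfold Jf at this ⊢
  simp only [← Xk_pi]
  rw [integral_comp_add_right (fun s => p (Xk K s)) π]
  convert this using 2; ring

lemma u_bd {K : ℝ} (hK : 2 ≤ K) (t : ℝ) : |X1 K t + |Xk K t| * Yk K t| ≤ 10 := by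
  have hS : 0 < S K t := by unfold S; have := cosh_pos (K * sg t / 2); positivity
  set s := |sin t| with hs
  have s0 : 0 ≤ s := abs_nonneg _
  have s1 : s ≤ 1 := abs_sin_le_one t
  have z1 : K * s / 2 ≤ |K * sg t / 2| := by
    have : sg t = sin t * (1 + sin t ^ 2 / 6) := by unfold sg; ring
    rw [this, abs_div, abs_mul, abs_mul, abs_of_nonneg (show 0 ≤ K by linarith),
      abs_of_nonneg (show 0 ≤ 1 + sin t ^ 2 / 6 by positivity), abs_two, ← hs]
    have : K * s ≤ K * (s * (1 + sin t ^ 2 / 6)) := by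
      gcongr; nlinarith [sq_nonneg (sin t)]
    linarith
  have z0 : 0 ≤ K * s / 2 := by positivity
  have ch : 1 + (K * s / 2) ^ 2 / 2 ≤ cosh (K * sg t / 2) := by
    rw [← cosh_abs]
    refine le_trans ?_ (cosh_le_cosh.2 (show |K * s / 2| ≤ abs |K * sg t / 2| by
      rwa [abs_abs, abs_of_nonneg z0]))
    have h1 := quadratic_le_exp_of_nonneg z0
    generalize K * s / 2 = z at *
    have h2 := self_le_sinh_iff.2 (show 0 ≤ z / 2 by linarith)
    have h3 := cosh_two_mul (z / 2)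
    rw [show 2 * (z / 2) = z by ring, cosh_sq] at h3
    nlinarith
  have ch2 : (1 + (K * s / 2) ^ 2 / 2) ^ 2 ≤ cosh (K * sg t / 2) ^ 2 := by gcongr
  have eS : S K t * cosh (K * sg t / 2) ^ 2 = K ^ 2 / 4 := by
    unfold S; have := (cosh_pos (K * sg t / 2)).ne'; field_simp
  have b0 : S K t * (1 + (K * s / 2) ^ 2 / 2) ^ 2 ≤ K ^ 2 / 4 := by rw [← eS]; gcongr
  have Kp : 0 < K := by linarith
  have b1 : S K t * s ^ 2 ≤ 1 := by
    have : S K t * (K * s / 2) ^ 2 ≤ K ^ 2 / 4 := le_trans (by gcongr; nlinarith [sq_nonneg ((K * s / 2) ^ 2)]) b0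
    have h : K ^ 2 / 4 * (S K t * s ^ 2) ≤ K ^ 2 / 4 * 1 := by linarith
    exact le_of_mul_le_mul_left h (by positivity)
  have b2 : K * (S K t * s ^ 3) ≤ 2 := by
    have : S K t * (K * s / 2) ^ 3 ≤ K ^ 2 / 4 := by
      refine le_trans ?_ b0
      gcongr
      generalize K * s / 2 = z at *
      nlinarith [sq_nonneg (z ^ 2 / 2 - z)]
    have h : K ^ 2 / 8 * (K * (S K t * s ^ 3)) ≤ K ^ 2 / 8 * 2 := by linarith
    exact le_of_mul_le_mul_left h (by positivity)
  have hY : |Yk K t| ≤ K := by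
    unfold Yk
    rw [abs_mul, abs_of_pos Kp, abs_div, abs_of_pos (cosh_pos _)]
    refine mul_le_of_le_one_right Kp.le ?_
    rw [div_le_one (cosh_pos _), abs_le]
    exact ⟨by linarith [sinh_lt_cosh (-(K * sg t / 2)), cosh_neg (K * sg t / 2), sinh_neg (K * sg t / 2)],
      (sinh_lt_cosh _).le⟩
  set c := |cos t| with hc
  have c0 : 0 ≤ c := abs_nonneg _
  have c1 : c ≤ 1 := abs_cos_le_one t
  have cs : s ^ 2 + c ^ 2 = 1 := by rw [hs, hc, sq_abs, sq_abs]; exact sin_sq_add_cos_sq t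
  have g1 : |sg1 t| = c * (3 - c ^ 2) / 2 := by
    unfold sg1
    rw [abs_div, abs_mul, abs_of_nonneg (show 0 ≤ 3 - cos t ^ 2 by nlinarith [cos_sq_le_one t]),
      abs_two, hc, sq_abs]
  have g2 : 1 - |sg1 t| = (1 - c) ^ 2 * (2 + c) / 2 := by rw [g1]; ring
  have g3 : 0 ≤ 1 - |sg1 t| := by rw [g2]; positivity
  have g4 : 1 - |sg1 t| ≤ 3 / 2 * s ^ 3 := by
    rw [g2]
    have : 1 - c ≤ s ^ 2 := by nlinarith
    have h : (1 - c) ^ 2 ≤ (s ^ 2) ^ 2 := by gcongr
    have h2 : (s ^ 2) ^ 2 ≤ s ^ 3 := by nlinarith [pow_nonneg s0 3]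
    nlinarith [sq_nonneg (1 - c)]
  have e : X1 K t + |Xk K t| * Yk K t
      = -(3 / 2) * sin t ^ 3 * S K t + |sg1 t| * (1 - |sg1 t|) * Yk K t * S K t := by
    unfold X1 Xk
    rw [abs_mul, abs_of_pos hS, ← sq_abs (sg1 t)]; ring
  rw [e]
  refine (abs_add_le _ _).trans ?_
  rw [abs_mul, abs_mul, abs_mul, abs_mul, abs_mul, abs_pow, abs_of_pos hS, abs_abs,
    abs_of_nonneg g3, ← hs]
  have t1 : |(-(3 / 2) : ℝ)| * s ^ 3 * S K t ≤ 3 / 2 := by
    rw [abs_neg, abs_of_pos (by norm_num : (0:ℝ) < 3 / 2)]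
    nlinarith [mul_nonneg hS.le (sq_nonneg s)]
  have t2 : |sg1 t| * (1 - |sg1 t|) * |Yk K t| * S K t ≤ 1 * (3 / 2 * s ^ 3) * K * S K t := by
    gcongr; linarith
  nlinarith

lemma Xk_big (K : ℝ) (n : ℕ) : Xk K (n * (2 * π)) = K ^ 2 / 4 := by
  have h : sin (n * (2 * π)) = 0 := by
    rw [show (n:ℝ) * (2 * π) = ((2 * n : ℕ):ℝ) * π by push_cast; ring, sin_nat_mul_pi]
  unfold Xk S sg1 sg
  rw [cos_nat_mul_two_pi, h]; norm_num

end Pool.Agent.Lib.helper31.Lkf
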