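import Mathlib

namespace Pool.Agent.Lib.helper31.Myc

open Filter Topology Set

lemma level {X : Type*} [MetricSpace X] (f : C(ℕ → Bool, X)) {ε : ℝ} (hε : 0 < ε) :
    ∃ N, ∀ n ≥ N, ∀ t : ℕ → Bool, dist (f fun l => if l < n then t l else false) (f t) < ε := by
  have hc : Continuous fun z : (ℕ → Bool) × (ℕ → Bool) => dist (f z.1) (f z.2) := by fun_prop
  by_contra h
  push Not at h
  choose n hn t ht using h
  obtain ⟨a, φ, hφ, ha⟩ := CompactSpace.tendsto_subseq t
  have h2 : Tendsto (fun i => fun l => if l < n (φ i) then t (φ i) l else false) atTop (𝓝 a) := by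
    rw [tendsto_pi_nhds] at ha ⊢
    intro l
    refine (ha l).congr' ?_
    filter_upwards [eventually_gt_atTop l] with i hi
    have : l < n (φ i) := lt_of_lt_of_le hi ((hφ.id_le i).trans (hn _))
    simp [this]
  have h3 := (hc.tendsto (a, a)).comp (h2.prodMk_nhds ha)
  simp only [dist_self] at h3
  have := ge_of_tendsto' h3 fun i => ht (φ i)
  linarith

lemma dense_comp {X W : Type*} [MetricSpace X] [Fintype W] {k : ℕ} {G : Set (Fin k → X)}
    (hG : Dense G) (ι : Fin k → W) (hι : Function.Injective ι) :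
    Dense {h : W → X | h ∘ ι ∈ G} := by
  rw [Metric.dense_iff]
  intro h0 r hr
  obtain ⟨y, hy, hyG⟩ := Metric.dense_iff.1 hG (h0 ∘ ι) r hr
  refine ⟨Function.extend ι y h0, ?_, by
    rw [mem_ofPred_eq, Function.extend_comp hι]; exact hyG⟩
  rw [Metric.mem_ball, dist_pi_lt_iff hr] at hy ⊢
  intro w
  by_cases hw : ∃ j, ι j = w
  · obtain ⟨j, rfl⟩ := hw
    rw [hι.extend_apply]; exact hy j
  · rw [Function.extend_apply' _ _ _ hw]; simpa using hr

/-- Mycielski's theorem. -/
theorem mycielski {X : Type*} [MetricSpace X] [CompleteSpace X] [Nonempty X]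
    {A : Type*} [Countable A] (G : ∀ k : ℕ, A → Set (Fin (k + 1) → X))
    (ho : ∀ k a, IsOpen (G k a)) (hd : ∀ k a, Dense (G k a)) :
    ∃ f : (ℕ → Bool) → X, ∀ k a (s : Fin (k + 1) → ℕ → Bool), Function.Injective s →
      f ∘ s ∈ G k a := by
  let K : ∀ k : ℕ, ℕ → Set (Fin (k + 1) → ℕ → Bool) := fun k n =>
    {s | ∀ i j, (∀ l < n, s i l = s j l) → i = j}
  let O : ℕ × A × ℕ → Set C(ℕ → Bool, X) := fun q =>
    {f | ∀ s ∈ K q.1 q.2.2, f ∘ s ∈ G q.1 q.2.1}
  have hK : ∀ k n, IsCompact (K k n) := fun k n => by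
    refine IsClosed.isCompact ?_
    have hc : Continuous fun (s : Fin (k + 1) → ℕ → Bool) (i : Fin (k + 1)) (l : Fin n) => s i l := by
      fun_prop
    have := (isClosed_discrete {u : Fin (k + 1) → Fin n → Bool | ∀ i j, u i = u j → i = j}).preimage hc
    convert this using 1
    ext s
    simp only [K, mem_ofPred_eq, mem_preimage, funext_iff, Fin.forall_iff]
  have hO : ∀ q, IsOpen (O q) := by
    rintro ⟨k, a, n⟩
    rw [isOpen_iff_mem_nhds]
    intro f hf
    refine (hK k n).eventually_forall_of_forall_eventually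
      (P := fun (g : C(ℕ → Bool, X)) s => g ∘ s ∈ G k a) fun s hs => ?_
    have hc : Continuous fun z : C(ℕ → Bool, X) × (Fin (k + 1) → ℕ → Bool) => z.1 ∘ z.2 :=
      continuous_pi fun i => by simp only [Function.comp_apply]; fun_prop
    exact hc.continuousAt.eventually_mem ((ho k a).mem_nhds (hf s hs))
  have hD : ∀ q, Dense (O q) := by
    rintro ⟨k, a, n0⟩
    rw [Metric.dense_iff]
    intro f r hr
    obtain ⟨N, hN⟩ := level f (half_pos hr)
    set n := max N n0
    have := dense_iInter_of_isOpen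
      (f := fun ι : {ι : Fin (k + 1) → Fin n → Bool // Function.Injective ι} =>
        {h : (Fin n → Bool) → X | h ∘ ι.1 ∈ G k a})
      (fun ι => (ho k a).preimage (continuous_pi fun i => continuous_apply _))
      (fun ι => dense_comp (hd k a) ι.1 ι.2)
    obtain ⟨h, hh, hG⟩ := Metric.dense_iff.1 this
      (fun w => f fun l => if hl : l < n then w ⟨l, hl⟩ else false) (r / 2) (half_pos hr)
    have hres : Continuous fun (t : ℕ → Bool) (l : Fin n) => t l := by fun_prop
    refine ⟨⟨fun t => h fun l => t l, continuous_of_discreteTopology.comp hres⟩, ?_, fun s hs => ?_⟩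
    · rw [Metric.mem_ball, ContinuousMap.dist_lt_iff hr]
      intro t
      have a1 := (dist_pi_lt_iff (half_pos hr)).1 hh fun l => t l
      have a2 := hN n (le_max_left _ _) t
      simp only [dite_eq_ite] at a1
      have := dist_triangle (h fun l : Fin n => t l) (f fun l => if l < n then t l else false) (f t)
      exact lt_of_le_of_lt this (by linarith)
    · have inj : Function.Injective fun (i : Fin (k + 1)) (l : Fin n) => s i l := fun i j hij =>
        hs i j fun l hl => congr_fun hij ⟨l, lt_of_lt_of_le hl (le_max_right _ _)⟩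
      exact mem_iInter.1 hG ⟨_, inj⟩
  have : Nonempty C(ℕ → Bool, X) := ⟨ContinuousMap.const _ (Classical.arbitrary X)⟩
  obtain ⟨f, hf⟩ := (dense_iInter_of_isOpen hO hD).nonempty
  refine ⟨f, fun k a s hs => ?_⟩
  have : ∀ᶠ n in atTop, ∀ i j, (∀ l < n, s i l = s j l) → i = j := by
    simp only [eventually_all]
    intro i j
    by_cases hij : i = j
    · exact Eventually.of_forall fun _ _ => hij
    · obtain ⟨l, hl⟩ := Function.ne_iff.1 (hs.ne hij)
      filter_upwards [eventually_gt_atTop l] with n hn h using absurd (h l hn) hl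
  obtain ⟨n, hn⟩ := this.exists
  exact mem_iInter.1 hf (k, a, n) s hn

/-- No dense orbit in nonzero finite dimension. -/
theorem nofin {𝕂 V : Type*} [RCLike 𝕂] [AddCommGroup V] [Module 𝕂 V] [TopologicalSpace V]
    [IsTopologicalAddGroup V] [ContinuousSMul 𝕂 V] [T2Space V] [FiniteDimensional 𝕂 V]
    [Nontrivial V] (S : V →ₗ[𝕂] V) (v : V) : ¬ Dense (range fun n : ℕ => (S ^ n) v) := by
  intro hd
  let _ : Module ℝ V := Module.compHom V (algebraMap ℝ 𝕂)
  have hs : ∀ (r : ℝ) (w : V), r • w = (r : 𝕂) • w := fun _ _ => rfl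
  have : IsScalarTower ℝ 𝕂 V := ⟨fun r k w => by rw [hs, RCLike.real_smul_eq_coe_mul, mul_smul]⟩
  have : FiniteDimensional ℝ V := Module.Finite.trans 𝕂 V
  have : ContinuousSMul ℝ V := ⟨by simp only [hs]; fun_prop⟩
  have : Nontrivial (V →ₗ[ℝ] ℂ) := by
    obtain ⟨w, hw⟩ := exists_ne (0 : V)
    obtain ⟨g, hg⟩ := Module.Projective.exists_dual_ne_zero ℝ hw
    refine ⟨Complex.ofRealCLM.toLinearMap.comp g, 0, fun h => hg ?_⟩
    simpa using LinearMap.congr_fun h w
  obtain ⟨c, hc⟩ := Module.End.exists_eigenvalue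
    (LinearMap.lcomp ℂ ℂ (S.restrictScalars ℝ) : Module.End ℂ (V →ₗ[ℝ] ℂ))
  obtain ⟨φ, hφ⟩ := hc.exists_hasEigenvector
  have h1 : ∀ w, φ (S w) = c * φ w := fun w => LinearMap.congr_fun hφ.apply_eq_smul w
  have h2 : ∀ n : ℕ, ‖φ ((S ^ n) v)‖ = ‖c‖ ^ n * ‖φ v‖ := by
    intro n
    induction n with
    | zero => simp
    | succ n ih => rw [pow_succ', Module.End.mul_apply, h1, norm_mul, ih]; ring
  have cφ : Continuous φ := φ.continuous_of_finiteDimensional
  by_cases h : ‖c‖ ≤ 1 ∨ φ v = 0
  · obtain ⟨w, hw⟩ : ∃ w, φ w ≠ 0 := by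
      by_contra h'; push Not at h'; exact hφ.2 (LinearMap.ext h')
    have hw' := norm_pos_iff.2 hw
    obtain ⟨_, hb, n, rfl⟩ := hd.inter_open_nonempty {w | ‖φ v‖ < ‖φ w‖}
      (isOpen_lt continuous_const cφ.norm) ⟨((‖φ v‖ + 1) / ‖φ w‖) • w, by
        rw [mem_ofPred_eq, map_smul, norm_smul, Real.norm_of_nonneg (by positivity),
          div_mul_cancel₀ _ hw'.ne']; linarith⟩
    rw [mem_ofPred_eq, h2] at hb
    rcases h with h | h
    · have := pow_le_one₀ (n := n) (norm_nonneg c) h
      nlinarith [norm_nonneg (φ v)]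
    · simp [h] at hb
  · push Not at h
    obtain ⟨_, hb, n, rfl⟩ := hd.inter_open_nonempty {w | ‖φ w‖ < ‖φ v‖}
      (isOpen_lt cφ.norm continuous_const) ⟨0, by simpa using h.2⟩
    rw [mem_ofPred_eq, h2] at hb
    have := one_le_pow₀ (n := n) h.1.le
    nlinarith [norm_nonneg (φ v)]

open Polynomial in
/-- Wengenroth: nonzero polynomials of a hypercyclic operator have dense range. -/
theorem dense_poly {𝕂 X : Type*} [RCLike 𝕂] [AddCommGroup X] [Module 𝕂 X] [TopologicalSpace X]
    [IsTopologicalAddGroup X] [ContinuousSMul 𝕂 X] (T : X →L[𝕂] X) (x : X)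
    (hx : Dense (range fun n : ℕ => (T ^ n) x)) (p : 𝕂[X]) (hp : p ≠ 0) :
    Dense (range fun n : ℕ => (T ^ n) (aeval T p x)) := by
  set P := aeval T p with hP
  have comm : ∀ q : 𝕂[X], aeval T q * P = P * aeval T q := fun q => by
    rw [hP, ← map_mul, ← map_mul, mul_comm]
  have commT : T * P = P * T := by simpa using comm Polynomial.X
  suffices h : DenseRange P by
    have := h.comp (hx : DenseRange fun n : ℕ => (T ^ n) x) P.continuous
    have e : (fun n : ℕ => (T ^ n) (P x)) = P ∘ fun n : ℕ => (T ^ n) x := by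
      funext n
      have := comm (Polynomial.X ^ n)
      simp only [map_pow, aeval_X] at this
      exact congr($this x)
    rw [e]; exact this
  set L := (LinearMap.range (P : X →ₗ[𝕂] X)).topologicalClosure with hL
  have hLc : IsClosed (L : Set X) := Submodule.isClosed_topologicalClosure _
  by_contra hne
  have hLT : L ≤ L.comap (T : X →ₗ[𝕂] X) := by
    refine Submodule.topologicalClosure_minimal _ ?_ (hLc.preimage T.continuous)
    rintro _ ⟨y, rfl⟩
    exact Submodule.le_topologicalClosure _ ⟨T y, congr($commT.symm y)⟩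
  have : Nontrivial (X ⧸ L) := Submodule.Quotient.nontrivial_iff.2 fun h => hne (by
    have : Dense (LinearMap.range (P : X →ₗ[𝕂] X) : Set X) :=
      Submodule.dense_iff_topologicalClosure_eq_top.2 h
    exact this)
  let F := Submodule.span 𝕂 (range fun i : Fin p.natDegree => (T ^ (i : ℕ)) x)
  have : FiniteDimensional 𝕂 F := FiniteDimensional.span_of_finite _ (finite_range _)
  have htop : L ⊔ F = ⊤ := by
    have hc := Submodule.isClosed_sup_finiteDimensional L F hLc
    have : Dense ((L ⊔ F : Submodule 𝕂 X) : Set X) := by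
      refine hx.mono ?_
      rintro _ ⟨n, rfl⟩
      have e := EuclideanDomain.div_add_mod (Polynomial.X ^ n : 𝕂[X]) p
      have e2 : (T ^ n) x = P (aeval T (Polynomial.X ^ n / p) x) + aeval T (Polynomial.X ^ n % p) x := by
        have := congr(aeval T $e x)
        simp only [map_add, map_mul, map_pow, aeval_X] at this
        exact this.symm
      simp only
      rw [e2]
      refine Submodule.add_mem_sup (Submodule.le_topologicalClosure _ ⟨_, rfl⟩) ?_
      by_cases h0 : (Polynomial.X ^ n % p : 𝕂[X]) = 0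
      · rw [h0]; simp
      · have hlt : (Polynomial.X ^ n % p : 𝕂[X]).natDegree < p.natDegree :=
          natDegree_lt_natDegree h0 (EuclideanDomain.mod_lt _ hp)
        rw [aeval_eq_sum_range' hlt, sum_apply]
        refine Submodule.sum_mem _ fun i hi => Submodule.smul_mem _ _ (Submodule.subset_span
          ⟨⟨i, Finset.mem_range.1 hi⟩, rfl⟩)
    rw [← Submodule.coe_eq_univ, ← hc.closure_eq]; exact this.closure_eq
  have : FiniteDimensional 𝕂 (X ⧸ L) := by
    refine Module.Finite.of_surjective (L.mkQ.comp F.subtype) fun z => ?_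
    obtain ⟨y, rfl⟩ := L.mkQ_surjective z
    obtain ⟨a, ha, b, hb, rfl⟩ := Submodule.mem_sup.1 (htop ▸ Submodule.mem_top : y ∈ L ⊔ F)
    exact ⟨⟨b, hb⟩, by simp [(Submodule.Quotient.mk_eq_zero L).2 ha]⟩
  refine nofin (L.mapQ L (T : X →ₗ[𝕂] X) hLT) (L.mkQ x) ?_
  have e : (fun n : ℕ => ((L.mapQ L (T : X →ₗ[𝕂] X) hLT) ^ n) (L.mkQ x)) =
      L.mkQ ∘ fun n : ℕ => (T ^ n) x := by
    funext n
    induction n with
    | zero => rfl
    | succ n ih => rw [pow_succ', Module.End.mul_apply, ih, Function.comp_apply, Function.comp_apply, pow_succ']; rfl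
  rw [e]
  exact L.mkQ_surjective.denseRange.comp hx continuous_quot_mk

end Pool.Agent.Lib.helper31.Myc
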