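import Pool.Agent.Lib.helper31.H2b

set_option autoImplicit false

namespace Pool.Agent.H31.H2

open Complex Metric Set Filter Topology ComplexConjugate Polynomial
open scoped InnerProductSpace

lemma cancel {f g : ℂ → ℂ} (hf : DifferentiableOn ℂ f (ball 0 1))
    (hg : DifferentiableOn ℂ g (ball 0 1)) (h : ∀ z ∈ ball (0 : ℂ) 1, f z * g z = 0)
    (h0 : ¬ ∀ z ∈ ball (0 : ℂ) 1, f z = 0) : ∀ z ∈ ball (0 : ℂ) 1, g z = 0 :=
  ((hf.analyticOnNhd isOpen_ball).eq_zero_or_eq_zero_of_mul_eq_zero (hg.analyticOnNhd isOpen_ball) h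
    (convex_ball 0 1).isPreconnected).resolve_left h0

lemma id_ne : ¬ ∀ z ∈ ball (0 : ℂ) 1, z = 0 := fun h => by
  have := h (1 / 2) (by simp; norm_num)
  simp at this

lemma comp_zero {φ k : ℂ → ℂ} (hm : MapsTo φ (ball (0 : ℂ) 1) (ball (0 : ℂ) 1))
    (ho : ∀ s ⊆ ball (0 : ℂ) 1, IsOpen s → IsOpen (φ '' s)) (hk : DifferentiableOn ℂ k (ball 0 1))
    (h : ∀ z ∈ ball (0 : ℂ) 1, k (φ z) = 0) : ∀ z ∈ ball (0 : ℂ) 1, k z = 0 := by
  refine (hk.analyticOnNhd isOpen_ball).eqOn_zero_of_preconnected_of_eventuallyEq_zero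
    (convex_ball 0 1).isPreconnected (hm (mem_ball_self one_pos)) ?_
  filter_upwards [(ho _ subset_rfl isOpen_ball).mem_nhds ⟨0, mem_ball_self one_pos, rfl⟩]
  rintro _ ⟨z, hz, rfl⟩
  exact h z hz

lemma exists_ker (u : Fin 3 → Fin 4 → ℂ) : ∃ d : Fin 4 → ℂ, d ≠ 0 ∧ ∀ j, ∑ i, d i * u j i = 0 := by
  obtain ⟨d, h1, h2⟩ := (Submodule.ne_bot_iff _).1
    ((Matrix.mulVecLin (Matrix.of u)).ker_ne_bot_of_finrank_lt (by simp))
  refine ⟨d, h2, fun j => ?_⟩
  simpa [Matrix.mulVec, dotProduct, mul_comm] using congrFun (LinearMap.mem_ker.1 h1) j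

lemma re_self (x : H) : (⟪x, x⟫_ℂ).re = ‖x‖ ^ 2 := inner_self_eq_norm_sq (𝕜 := ℂ) x

lemma hypo {φ : ℂ → ℂ} {M : H →L[ℂ] H} (hM : ∀ f, ∀ z ∈ ball (0 : ℂ) 1, ev (M f) z = φ z * ev f z)
    (G : H) : ‖M.adjoint G‖ ^ 2 ≤ ‖M G‖ ^ 2 := by
  have := L1 (F := M G) (h' := M.adjoint G) (F' := M (M.adjoint G)) (h := G) fun z hz => by
    rw [hM _ z hz, hM _ z hz]; ring
  rw [← M.adjoint_inner_left, re_self] at this
  linarith

theorem normal_moebius {ψ φ : ℂ → ℂ} (hψ : DifferentiableOn ℂ ψ (ball 0 1))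
    (hφ : DifferentiableOn ℂ φ (ball 0 1)) (hm : MapsTo φ (ball (0 : ℂ) 1) (ball (0 : ℂ) 1))
    {T : H →L[ℂ] H} (hT : ∀ f, ∀ z ∈ ball (0 : ℂ) 1, ev (T f) z = ψ z * ev f (φ z))
    (hn : IsStarNormal T) (h0 : ¬ ∀ z ∈ ball (0 : ℂ) 1, ψ z = 0)
    (hc : ¬ ∃ w, ∀ z ∈ ball (0 : ℂ) 1, φ z = w) :
    ∃ a b c d : ℂ, a * d - b * c ≠ 0 ∧
      ∀ z ∈ ball (0 : ℂ) 1, c * z + d ≠ 0 ∧ φ z = (a * z + b) / (c * z + d) := by
  have ho := ((hφ.analyticOnNhd isOpen_ball).is_constant_or_isOpen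
    (convex_ball 0 1).isPreconnected).resolve_left hc
  have b0 : (0 : ℂ) ∈ ball (0 : ℂ) 1 := mem_ball_self one_pos
  have dc : ∀ f : H, DifferentiableOn ℂ (fun z => ev f (φ z)) (ball 0 1) :=
    fun f => (ev_diff f).comp hφ hm
  have zc : ∀ f : H, (∀ z ∈ ball (0 : ℂ) 1, ev f (φ z) = 0) → f = 0 := fun f h =>
    ev_ext fun z hz => by rw [comp_zero hm ho (ev_diff f) h z hz]; simp [ev]
  have nr := ContinuousLinearMap.isStarNormal_iff_norm_eq_adjoint.1 hn
  have k1 : ∀ f, T f = 0 → f = 0 := fun f h => zc f (cancel hψ (dc f) (fun z hz => by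
    rw [← hT f z hz, h]; simp [ev]) h0)
  have dn : ∀ A : H →L[ℂ] H, (∀ f, A.adjoint f = 0 → f = 0) → DenseRange (A : H →ₗ[ℂ] H) :=
    fun A h => Submodule.dense_iff_topologicalClosure_eq_top.2
      (Submodule.topologicalClosure_eq_top_iff.2
        (A.orthogonal_range.trans (LinearMap.ker_eq_bot'.2 h)))
  have d1 := dn T fun f h => k1 f (norm_eq_zero.1 (by rw [nr, h, norm_zero]))
  have d2 := dn T.adjoint (by simpa using k1)
  obtain ⟨U, hU⟩ : ∃ U : H ≃ₗᵢ[ℂ] H, ∀ x, U (T x) = T.adjoint x :=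
    ⟨(LinearEquiv.refl ℂ H).extendOfIsometry _ _ d1 d2 fun x => (nr x).symm,
      (LinearEquiv.refl ℂ H).extendOfIsometry_eq _ _ d1 d2 fun x => (nr x).symm⟩
  have TU : ∀ x, T (U x) = T.adjoint x := fun x => by
    refine d1.induction_on x (isClosed_eq (by fun_prop) (by fun_prop)) fun y => ?_
    show T (U (T y)) = T.adjoint (T y)
    rw [hU]
    exact (congrArg (fun A : H →L[ℂ] H => A y) hn.star_comm_self.eq).symm
  obtain ⟨M, hM⟩ := exists_mul hφ hm
  obtain ⟨S, hS⟩ := exists_mul (φ := fun z => z) differentiableOn_id (mapsTo_id _)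
  have MT : ∀ x, M (T x) = T (S x) := fun x => ev_ext fun z hz => by
    rw [hM _ z hz, hT _ z hz, hT _ z hz, hS _ _ (hm hz)]; ring
  have TM : ∀ x, T.adjoint (M.adjoint x) = S.adjoint (T.adjoint x) := fun x =>
    ext_inner_left ℂ fun y => by simp only [ContinuousLinearMap.adjoint_inner_right, MT]
  have SK : ∀ a ∈ ball (0 : ℂ) 1, conj a • S (K a) = K a - K 0 := fun a ha => ev_ext fun z hz => by
    have n : 1 - conj a * z ≠ 0 := fun h => by
      have := congrArg norm (sub_eq_zero.1 h)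
      rw [norm_mul, norm_conj, norm_one] at this
      exact absurd this (mul_lt_one_of_nonneg_of_lt_one_left (norm_nonneg _)
        (mem_ball_zero_iff.1 ha) (mem_ball_zero_iff.1 hz).le).ne'
    rw [ev_smul _ _ hz, hS _ z hz, ← inner_K hz (_ - _), inner_sub_right, inner_K hz, inner_K hz,
      ev_K ha hz, ev_K b0 hz]
    field_simp
    simp
  have core : ∀ G, ⟪T (K 0), G⟫_ℂ = 0 → ∀ a ∈ ball (0 : ℂ) 1,
      ev (U G) (φ a) - a * ev (U (M.adjoint G)) (φ a) = 0 := fun G hG =>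
    cancel hψ ((dc _).sub (differentiableOn_id.mul (dc _))) (fun a ha => by
      have e := congrArg (fun x => ⟪x, T.adjoint G⟫_ℂ) (SK a ha)
      simp only [inner_smul_left, conj_conj, inner_sub_left] at e
      rw [← S.adjoint_inner_right, ← TM, T.adjoint_inner_right (K 0), hG, ← TU, ← TU, inner_K ha,
        inner_K ha, hT _ a ha, hT _ a ha] at e
      linear_combination -e) h0
  have rel : ∀ G G', ⟪T (K 0), G⟫_ℂ = 0 → ⟪T (K 0), G'⟫_ℂ = 0 → ∀ z ∈ ball (0 : ℂ) 1,
      ev (U (M.adjoint G)) z * ev (U G') z = ev (U (M.adjoint G')) z * ev (U G) z :=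
    fun G G' a1 a2 z hz => sub_eq_zero.1 (comp_zero hm ho (k := fun z =>
      ev (U (M.adjoint G)) z * ev (U G') z - ev (U (M.adjoint G')) z * ev (U G) z)
      (((ev_diff _).mul (ev_diff _)).sub ((ev_diff _).mul (ev_diff _))) (fun a ha => by
        linear_combination ev (U (M.adjoint G)) (φ a) * core G' a2 a ha
          - ev (U (M.adjoint G')) (φ a) * core G a1 a ha) z hz)
  have ii : ∀ G, (⟪U G, U (M.adjoint (M G))⟫_ℂ).re = ‖M G‖ ^ 2 := fun G => by
    rw [U.inner_map_map, M.adjoint_inner_right, re_self]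
  obtain ⟨a, ha, ha0, hai⟩ : ∃ a : Fin 4 → ℂ, (∀ i, a i ∈ ball (0 : ℂ) 1) ∧
      (∀ i, a i * ψ (a i) ≠ 0) ∧ Function.Injective fun i => φ (a i) := by
    have o1 : IsOpen (ball (0 : ℂ) 1 ∩ (fun z => z * ψ z) ⁻¹' {0}ᶜ) :=
      (continuousOn_id.mul hψ.continuousOn).isOpen_inter_preimage isOpen_ball isOpen_compl_singleton
    have o2 : (ball (0 : ℂ) 1 ∩ (fun z => z * ψ z) ⁻¹' {0}ᶜ).Nonempty := by
      by_contra h
      exact h0 (cancel differentiableOn_id hψ (fun z hz => by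
        by_contra h2; exact h ⟨z, hz, h2⟩) id_ne)
    obtain ⟨p, hp⟩ := o2.image φ
    have o3 := infinite_of_mem_nhds p ((ho _ inter_subset_left o1).mem_nhds hp)
    choose a h1 h2 using fun i : Fin 4 => (o3.natEmbedding _ i).2
    refine ⟨a, fun i => (h1 i).1, fun i => (h1 i).2, fun i j h => ?_⟩
    simp only [h2] at h
    exact Fin.ext ((o3.natEmbedding _).injective (Subtype.ext h))
  have hai' : Function.Injective a := fun i j h => hai (by simp only [h])
  obtain ⟨c, c0, hc1⟩ := exists_ker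
    ![fun i => ⟪T (K 0), K (a i)⟫_ℂ, fun i => ⟪T (K 0), M (K (a i))⟫_ℂ, 0]
  obtain ⟨P, Q, hQ, hP⟩ : ∃ P Q : ℂ[X], Q ≠ 0 ∧ ∀ z ∈ ball (0 : ℂ) 1, φ z * Q.eval z = P.eval z := by
    set G := ∑ i, c i • K (a i) with hG
    have g1 : ⟪T (K 0), G⟫_ℂ = 0 := by simpa [hG, inner_sum, inner_smul_right] using hc1 0
    have g2 : ⟪T (K 0), M G⟫_ℂ = 0 := by simpa [hG, inner_sum, inner_smul_right] using hc1 1
    have g3 := L1 (rel G (M G) g1 g2)
    rw [ii, U.norm_map, U.norm_map] at g3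
    have g4 : M.adjoint G = ∑ i, (c i * conj (φ (a i))) • K (a i) := by
      rw [hG, map_sum]
      exact Finset.sum_congr rfl fun i _ => by
        rw [map_smul, adj_K (ha i) (ha i) fun f => hM f _ (ha i), smul_smul]
    have g5 := fun z (hz : z ∈ ball (0 : ℂ) 1) => L2 ha (F := M G) (F' := M (M.adjoint G)) hG g4
      (fun z hz => by rw [hM _ z hz, hM _ z hz]; ring) (by
        rw [← M.adjoint_inner_left, re_self]
        linarith) hz
    refine ⟨Lg (fun i => conj (c i * conj (φ (a i)))) a, Lg (fun i => conj (c i)) a, fun h => c0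
      (funext fun i => by simpa using congrFun (Lg_ne hai' h) i), fun z hz => sub_eq_zero.1 ?_⟩
    refine cancel (ev_diff G) ((hφ.mul (Polynomial.differentiable _).differentiableOn).sub
      (Polynomial.differentiable _).differentiableOn) (cancel differentiableOn_id
        ((ev_diff G).mul ((hφ.mul (Polynomial.differentiable _).differentiableOn).sub
          (Polynomial.differentiable _).differentiableOn)) (fun z hz => ?_) id_ne)
      (fun h => c0 (comb_zero ha hai' (ev_ext fun z hz => ?_))) z hz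
    · have := g5 z hz
      rw [hM _ z hz] at this
      simp only [id, Pi.mul_apply, Pi.sub_apply]
      linear_combination this
    · rw [h z hz]; simp [ev]
  obtain ⟨d, d0, hd1⟩ := exists_ker ![fun i => conj (a i) * ⟪T (K 0), T (K (a i))⟫_ℂ,
    fun i => ⟪T (K 0), T (K (a i))⟫_ℂ, 1]
  obtain ⟨A, B, hB, hA⟩ : ∃ A B : ℂ[X], B ≠ 0 ∧
      ∀ z ∈ ball (0 : ℂ) 1, z * B.eval (φ z) = A.eval (φ z) := by
    set g := ∑ i, (d i * conj (a i)) • K (a i) with hg
    have g0 : S g = ∑ i, d i • K (a i) := by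
      have : ∑ i, d i = 0 := by simpa using hd1 2
      have e : ∀ i, S ((d i * conj (a i)) • K (a i)) = d i • K (a i) - d i • K 0 := fun i => by
        rw [map_smul, mul_smul, SK _ (ha i), smul_sub]
      rw [hg, map_sum, Finset.sum_congr rfl fun i _ => e i, Finset.sum_sub_distrib,
        ← Finset.sum_smul, this, zero_smul, sub_zero]
    have g1 : ⟪T (K 0), T g⟫_ℂ = 0 := by
      simpa [hg, inner_sum, inner_smul_right, mul_assoc] using hd1 0
    have g2 : ⟪T (K 0), M (T g)⟫_ℂ = 0 := by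
      rw [MT, g0]
      simpa [inner_sum, inner_smul_right] using hd1 1
    have g3 : ∀ e : Fin 4 → ℂ, U (T (∑ i, e i • K (a i)))
        = ∑ i, (e i * conj (ψ (a i))) • K (φ (a i)) := fun e => by
      rw [hU, map_sum]
      exact Finset.sum_congr rfl fun i _ => by
        rw [map_smul, adj_K (ha i) (hm (ha i)) fun f => hT f _ (ha i), smul_smul]
    have g4 : U (M (T g)) = ∑ i, (d i * conj (ψ (a i))) • K (φ (a i)) := by rw [MT, g0, g3]
    have g5 := fun z (hz : z ∈ ball (0 : ℂ) 1) => L2 (h := U (T g)) (fun i => hm (ha i)) (g3 _) g4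
      (rel (T g) (M (T g)) g1 g2) (by
        rw [ii, U.norm_map, U.norm_map]
        linarith [hypo hM (T g)]) hz
    have g6 : ¬ ∀ z ∈ ball (0 : ℂ) 1, ev (U (M.adjoint (T g))) (φ z) = 0 := fun h => by
      have := zc (U (T g)) fun z hz => by simpa [h z hz] using core _ g1 z hz
      rw [g3] at this
      refine d0 (funext fun i => ?_)
      have := congrFun (comb_zero (fun i => hm (ha i)) hai this) i
      have h3 := mul_ne_zero_iff.1 (ha0 i)
      simpa [h3.1, h3.2] using this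
    have dp : ∀ p : ℂ[X], DifferentiableOn ℂ (fun z => p.eval (φ z)) (ball 0 1) := fun p =>
      (Polynomial.differentiable p).comp_differentiableOn hφ
    refine ⟨Lg (fun i => conj (d i * conj (a i) * conj (ψ (a i)))) fun i => φ (a i),
      Lg (fun i => conj (d i * conj (ψ (a i)))) fun i => φ (a i), fun h => d0 (funext fun i => ?_),
      fun z hz => sub_eq_zero.1 ?_⟩
    · simpa [(mul_ne_zero_iff.1 (ha0 i)).2] using congrFun (Lg_ne hai h) i
    · refine cancel (dc _) ((differentiableOn_id.mul (dp _)).sub (dp _)) (cancel hφ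
        ((dc _).mul ((differentiableOn_id.mul (dp _)).sub (dp _))) (fun z hz => ?_)
        fun h => hc ⟨0, h⟩) g6 z hz
      have e1 := g5 _ (hm hz)
      have e2 := core _ g1 z hz
      simp only [id, Pi.mul_apply, Pi.sub_apply]
      rw [sub_eq_zero.1 e2] at e1
      linear_combination -e1
  have dq : ∀ p : ℂ[X], DifferentiableOn ℂ (fun z => p.eval z) (ball 0 1) := fun p =>
    (Polynomial.differentiable p).differentiableOn
  have inf : (ball (0 : ℂ) 1).Infinite := infinite_of_mem_nhds 0 (ball_mem_nhds 0 one_pos)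
  have q0 : ¬ ∀ z ∈ ball (0 : ℂ) 1, Q.eval z = 0 := fun h =>
    hQ (eq_zero_of_infinite_isRoot _ (inf.mono h))
  obtain ⟨p, q, r, s, h1, h2⟩ := moebius hQ hB (fun κ h => hc ⟨κ, fun z hz => sub_eq_zero.1
    (cancel (dq Q) (hφ.sub_const κ) (fun z hz => by
      have := hP z hz
      rw [h, eval_mul, eval_C] at this
      linear_combination this) q0 z hz)⟩) inf hP hA
  have h3 := cancel (g := fun z => φ z * (r * z + s) - (p * z + q)) (dq Q)
    ((hφ.mul (by fun_prop)).sub (by fun_prop)) (fun z hz => by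
      have := congrArg (eval z) h2
      simp only [eval_mul, eval_add, eval_C, eval_X, ← hP z hz] at this
      linear_combination this) q0
  refine ⟨p, q, r, s, h1, fun z hz => ?_⟩
  have h4 := sub_eq_zero.1 (h3 z hz)
  have h5 : r * z + s ≠ 0 := fun h => h1 (by
    rw [h, mul_zero] at h4
    linear_combination p * h + r * h4)
  exact ⟨h5, (eq_div_iff h5).2 h4⟩

end Pool.Agent.H31.H2
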