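import Mathlib

set_option autoImplicit false

namespace Pool.Agent.H31.NormAdd

open scoped CStarAlgebra

variable {A : Type} [NonUnitalCStarAlgebra A] [PartialOrder A] [StarOrderedRing A]

/-- positive real functionals of norm at most one -/
def St (ψ : A →ₗ[ℝ] ℝ) : Prop := (∀ a : A, 0 ≤ a → 0 ≤ ψ a) ∧ ∀ a : A, |ψ a| ≤ ‖a‖

lemma unital_norming {B : Type} [CStarAlgebra B] [PartialOrder B] [StarOrderedRing B]
    [Nontrivial B] (a : B) (ha : 0 ≤ a) :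
    ∃ g : B →L[ℝ] ℝ, (∀ p : B, 0 ≤ p → 0 ≤ g p) ∧ (∀ p : B, |g p| ≤ ‖p‖) ∧ g a = ‖a‖ := by
  obtain ⟨g, hg1, hg⟩ := exists_dual_vector'' ℝ (a + 1)
  have hb : ∀ p : B, |g p| ≤ ‖p‖ := fun p => by
    have := g.le_opNorm p
    rw [Real.norm_eq_abs] at this
    nlinarith [norm_nonneg p]
  have hs : ‖a‖ ∈ spectrum ℝ a := CStarAlgebra.norm_mem_spectrum_of_nonneg ha
  have hs1 : ‖a‖ + 1 ∈ spectrum ℝ (a + 1) := by
    have := (spectrum.add_mem_add_iff (a := a) (r := ‖a‖) (s := (1:ℝ))).2 hs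
    simpa [add_comm] using this
  have hn : ‖a‖ + 1 ≤ ‖a + 1‖ := by
    have := spectrum.norm_le_norm_of_mem hs1
    rw [Real.norm_eq_abs] at this
    exact (le_abs_self _).trans this
  have h1 : g 1 ≤ 1 := by simpa using (le_abs_self _).trans (hb 1)
  have h2 : g a ≤ ‖a‖ := (le_abs_self _).trans (hb a)
  have h3 : g a + g 1 = ‖a + 1‖ := by rw [← map_add]; simpa using hg
  have hg1' : g 1 = 1 := by linarith
  refine ⟨g, fun p hp => ?_, hb, by linarith⟩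
  have hle : p ≤ algebraMap ℝ B ‖p‖ :=
    (CStarAlgebra.norm_le_iff_le_algebraMap p (norm_nonneg p) hp).1 le_rfl
  have h4 : ‖algebraMap ℝ B ‖p‖ - p‖ ≤ ‖p‖ := by
    rw [CStarAlgebra.norm_le_iff_le_algebraMap _ (norm_nonneg p) (sub_nonneg.2 hle)]
    simpa using hp
  have h5 := (le_abs_self _).trans ((hb _).trans h4)
  rw [map_sub, Algebra.algebraMap_eq_smul_one, map_smul, hg1'] at h5
  simp only [smul_eq_mul, mul_one] at h5
  linarith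

lemma norming (a : A) (ha : 0 ≤ a) : ∃ ψ : A →ₗ[ℝ] ℝ, St ψ ∧ ψ a = ‖a‖ := by
  obtain ⟨g, h1, h2, h3⟩ := unital_norming (B := A⁺¹) (a : A⁺¹) (Unitization.inr_nonneg_iff.2 ha)
  refine ⟨{ toFun := fun x => g (x : A⁺¹), map_add' := ?_, map_smul' := ?_ }, ⟨?_, ?_⟩, ?_⟩
  · intro x y; rw [Unitization.inr_add, map_add]
  · intro r x; rw [Unitization.inr_smul, map_smul]; rfl
  · intro p hp; exact h1 _ (Unitization.inr_nonneg_iff.2 hp)
  · intro p; simpa [Unitization.norm_inr] using h2 (p : A⁺¹)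
  · simpa [Unitization.norm_inr] using h3

lemma orth {ψ : A →ₗ[ℝ] ℝ} (h : St ψ) (e : A) :
    ‖e⁻‖ * ψ e⁺ + ‖e⁺‖ * ψ e⁻ ≤ ‖e⁺‖ * ‖e⁻‖ := by
  have hp : 0 ≤ e⁺ := CFC.posPart_nonneg e
  have hq : 0 ≤ e⁻ := CFC.negPart_nonneg e
  have h1 : IsSelfAdjoint (‖e⁻‖ • e⁺) := IsSelfAdjoint.of_nonneg (smul_nonneg (norm_nonneg _) hp)
  have h2 : IsSelfAdjoint (‖e⁺‖ • e⁻) := IsSelfAdjoint.of_nonneg (smul_nonneg (norm_nonneg _) hq)
  have h3 : (‖e⁻‖ • e⁺) * (‖e⁺‖ • e⁻) = 0 := by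
    rw [smul_mul_smul_comm, CFC.posPart_mul_negPart, smul_zero]
  have h4 := IsSelfAdjoint.norm_add_eq_max h1 h2 h3
  have h5 := (le_abs_self _).trans (h.2 (‖e⁻‖ • e⁺ + ‖e⁺‖ • e⁻))
  rw [h4, norm_smul, norm_smul, map_add, map_smul, map_smul] at h5
  simp only [norm_norm, smul_eq_mul] at h5
  rw [mul_comm ‖e⁻‖ ‖e⁺‖, max_self] at h5
  exact h5

lemma peak (e : A) (he : IsSelfAdjoint e) (hm : 0 < ‖e⁺‖) (η : ℝ) (hη : 0 < η) (M : ℝ) :
    ∃ c : A, 0 ≤ c ∧ ∀ ψ : A →ₗ[ℝ] ℝ, St ψ → ‖c‖ - M ≤ ψ c → ‖e⁺‖ - η ≤ ψ e := by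
  set m := ‖e⁺‖ with hmdef
  set k := ‖e⁻‖ with hk
  have hk0 : 0 ≤ k := norm_nonneg _
  set δ := η * m / (m + k) with hδ
  have hδ0 : 0 < δ := by positivity
  set t := (|M| + 1) / δ with ht
  have ht0 : 0 < t := by positivity
  refine ⟨t • e⁺, smul_nonneg ht0.le (CFC.posPart_nonneg e), fun ψ h hc => ?_⟩
  rw [norm_smul, map_smul, Real.norm_eq_abs, abs_of_pos ht0, smul_eq_mul] at hc
  have h1 : t * δ = |M| + 1 := by rw [ht]; field_simp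
  have h2 : m - δ ≤ ψ e⁺ := by
    by_contra hcon
    push Not at hcon
    have := mul_lt_mul_of_pos_left hcon ht0
    have := le_abs_self M
    nlinarith
  have h3 := orth h e
  rw [← hmdef, ← hk] at h3
  have h4 : ψ e = ψ e⁺ - ψ e⁻ := by rw [← map_sub, CFC.posPart_sub_negPart e he]
  have h5 : δ * (m + k) = η * m := by rw [hδ]; field_simp
  have h6 : m * ψ e⁻ ≤ k * δ := by nlinarith
  rw [h4]
  by_contra hcon
  push Not at hcon
  have := mul_lt_mul_of_pos_left hcon hm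
  nlinarith

lemma expose (a b c : A) (ha : IsSelfAdjoint a) (hb : IsSelfAdjoint b) (hc : IsSelfAdjoint c)
    (p q r g ε : ℝ) (hg : 0 < g) (hε : 0 < ε) (φ : A →ₗ[ℝ] ℝ) (hφ : St φ)
    (hn : g ≤ p * φ a + q * φ b + r * φ c) :
    ∃ α β γ : ℝ, p * φ a + q * φ b + r * φ c - g / 2 ≤ p * α + q * β + r * γ ∧
      ∀ M : ℝ, ∃ d : A, 0 ≤ d ∧ ∀ ψ : A →ₗ[ℝ] ℝ, St ψ → ‖d‖ - M ≤ ψ d →
        |ψ a - α| ≤ ε ∧ |ψ b - β| ≤ ε ∧ |ψ c - γ| ≤ ε := by
  set B := ‖a‖ ^ 2 + ‖b‖ ^ 2 + ‖c‖ ^ 2 with hB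
  have hB0 : 0 ≤ B := by positivity
  set R := (B + 1) / g with hR
  have hR0 : 0 < R := by positivity
  have hRg : R * g = B + 1 := by rw [hR]; field_simp
  set F : (A →ₗ[ℝ] ℝ) → ℝ := fun ψ =>
    (ψ a) ^ 2 + (ψ b) ^ 2 + (ψ c) ^ 2 + 2 * R * (p * ψ a + q * ψ b + r * ψ c) with hF
  have hsq : ∀ ψ : A →ₗ[ℝ] ℝ, St ψ → ∀ x : A, (ψ x) ^ 2 ≤ ‖x‖ ^ 2 := fun ψ h x => by
    rw [← sq_abs]; exact pow_le_pow_left₀ (abs_nonneg _) (h.2 x) 2
  have hbdd : BddAbove (F '' {ψ | St ψ}) := by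
    refine ⟨B + 2 * R * (|p| * ‖a‖ + |q| * ‖b‖ + |r| * ‖c‖), ?_⟩
    rintro _ ⟨ψ, h, rfl⟩
    have e1 : ∀ (s : ℝ) (x : A), s * ψ x ≤ |s| * ‖x‖ := fun s x =>
      (le_abs_self _).trans (by rw [abs_mul]; exact mul_le_mul_of_nonneg_left (h.2 x) (abs_nonneg _))
    have := hsq ψ h a
    have := hsq ψ h b
    have := hsq ψ h c
    have : p * ψ a + q * ψ b + r * ψ c ≤ |p| * ‖a‖ + |q| * ‖b‖ + |r| * ‖c‖ := by
      linarith [e1 p a, e1 q b, e1 r c]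
    have := mul_le_mul_of_nonneg_left this (by positivity : 0 ≤ 2 * R)
    simp only [hF]
    linarith
  set η := min 1 (ε ^ 2 / 2) with hη
  have hη0 : 0 < η := lt_min one_pos (by positivity)
  have hη1 : η ≤ 1 := min_le_left _ _
  have hη2 : η ≤ ε ^ 2 / 2 := min_le_right _ _
  obtain ⟨_, ⟨χ, hχ, rfl⟩, hlt⟩ := exists_lt_of_lt_csSup (s := F '' {ψ | St ψ})
    ⟨F φ, φ, hφ, rfl⟩ (show sSup (F '' {ψ | St ψ}) - η < sSup (F '' {ψ | St ψ}) by linarith)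
  have hmax : ∀ ψ, St ψ → F ψ < F χ + η := fun ψ h => by
    have := le_csSup hbdd ⟨ψ, h, rfl⟩
    linarith
  have hgap : p * φ a + q * φ b + r * φ c - g / 2 ≤ p * χ a + q * χ b + r * χ c := by
    have h1 := hmax φ hφ
    simp only [hF] at h1
    have := hsq χ hχ a
    have := hsq χ hχ b
    have := hsq χ hχ c
    by_contra hcon
    push Not at hcon
    have := mul_lt_mul_of_pos_left hcon hR0
    nlinarith [sq_nonneg (φ a), sq_nonneg (φ b), sq_nonneg (φ c)]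
  refine ⟨χ a, χ b, χ c, hgap, fun M => ?_⟩
  set e : A := (χ a + R * p) • a + (χ b + R * q) • b + (χ c + R * r) • c with he
  have hsa : IsSelfAdjoint e :=
    (((IsSelfAdjoint.all _).smul ha).add ((IsSelfAdjoint.all _).smul hb)).add
      ((IsSelfAdjoint.all _).smul hc)
  have hev : ∀ ψ : A →ₗ[ℝ] ℝ,
      ψ e = (χ a + R * p) * ψ a + (χ b + R * q) * ψ b + (χ c + R * r) * ψ c := fun ψ => by
    simp only [he, map_add, map_smul, smul_eq_mul]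
  have hle : χ e ≤ ‖e⁺‖ := by
    have h4 : χ e = χ e⁺ - χ e⁻ := by rw [← map_sub, CFC.posPart_sub_negPart e hsa]
    have := hχ.1 _ (CFC.negPart_nonneg e)
    have := (le_abs_self _).trans (hχ.2 e⁺)
    linarith
  have hpos : 0 < χ e := by
    rw [hev]
    have : 0 < p * χ a + q * χ b + r * χ c := by linarith
    have := mul_pos hR0 this
    nlinarith [sq_nonneg (χ a), sq_nonneg (χ b), sq_nonneg (χ c)]
  obtain ⟨d, hd, hd2⟩ := peak e hsa (by linarith) (ε ^ 2 / 4) (by positivity) M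
  refine ⟨d, hd, fun ψ h hψ => ?_⟩
  have h1 := hd2 ψ h hψ
  have h2 := hmax ψ h
  simp only [hF] at h2
  have h3 : χ e - ε ^ 2 / 4 ≤ ψ e := by linarith
  rw [hev, hev] at h3
  have h4 : (ψ a - χ a) ^ 2 + (ψ b - χ b) ^ 2 + (ψ c - χ c) ^ 2 ≤ ε ^ 2 := by nlinarith
  refine ⟨abs_le_of_sq_le_sq' ?_ hε.le |> abs_le.2, abs_le_of_sq_le_sq' ?_ hε.le |> abs_le.2,
    abs_le_of_sq_le_sq' ?_ hε.le |> abs_le.2⟩
  · nlinarith [sq_nonneg (ψ b - χ b), sq_nonneg (ψ c - χ c)]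
  · nlinarith [sq_nonneg (ψ a - χ a), sq_nonneg (ψ c - χ c)]
  · nlinarith [sq_nonneg (ψ a - χ a), sq_nonneg (ψ b - χ b)]

lemma near (a u : A) (ha : 0 ≤ a) (hu : 0 ≤ u) (α ε : ℝ)
    (h : ∀ ψ : A →ₗ[ℝ] ℝ, St ψ → ‖u‖ - ‖a‖ ≤ ψ u → |ψ a - α| ≤ ε) :
    |‖a + u‖ - α - ‖u‖| ≤ ε := by
  obtain ⟨ψ, h1, h2⟩ := norming u hu
  obtain ⟨χ, h3, h4⟩ := norming (a + u) (add_nonneg ha hu)
  have h5 := abs_le.1 (h ψ h1 (by linarith [norm_nonneg a]))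
  have h6 := (le_abs_self _).trans (h1.2 (a + u))
  rw [map_add] at h6 h4
  have h7 := h1.1 a ha
  have h8 := (le_abs_self _).trans (h3.2 a)
  have h9 := (le_abs_self _).trans (h3.2 u)
  have h10 := abs_le.1 (h χ h3 (by linarith))
  rw [abs_le]
  constructor <;> linarith

lemma dominate (u c : A) (hu : 0 ≤ u) (hc : 0 ≤ c) (C : ℝ) (hC : 0 ≤ C)
    (h : ∀ d : A, 0 ≤ d → ‖u + d‖ ≤ C + ‖c + d‖) (φ : A →ₗ[ℝ] ℝ) (hφ : St φ) :
    φ u ≤ φ c + C := by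
  by_contra hcon
  push Not at hcon
  set g := φ u - φ c - C with hg
  have hg0 : 0 < g := by linarith
  obtain ⟨α, β, γ, h1, h2⟩ := expose u c 0 (.of_nonneg hu) (.of_nonneg hc) (IsSelfAdjoint.zero A)
    1 (-1) 0 g (g / 8) hg0 (by positivity) φ hφ (by linarith)
  obtain ⟨d, hd, h3⟩ := h2 (‖u‖ + ‖c‖)
  have h4 := abs_le.1 (near u d hu hd α (g / 8) fun ψ hψ hh =>
    (h3 ψ hψ (by linarith [norm_nonneg c])).1)
  have h5 := abs_le.1 (near c d hc hd β (g / 8) fun ψ hψ hh =>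
    (h3 ψ hψ (by linarith [norm_nonneg u])).2.1)
  have h6 := h d hd
  linarith

lemma sep (z : A) (hz : IsSelfAdjoint z) (h : ∀ ψ : A →ₗ[ℝ] ℝ, St ψ → ψ z ≤ 0) : z ≤ 0 := by
  obtain ⟨ψ, h1, h2⟩ := norming z⁺ (CFC.posPart_nonneg z)
  have h3 := orth h1 z
  have h4 : ψ z = ψ z⁺ - ψ z⁻ := by rw [← map_sub, CFC.posPart_sub_negPart z hz]
  have h5 := h ψ h1
  have h6 : ‖z⁺‖ = 0 := by
    by_contra hne
    have hp : 0 < ‖z⁺‖ := lt_of_le_of_ne (norm_nonneg _) (Ne.symm hne)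
    rw [h2] at h3 h4
    nlinarith
  exact (CFC.posPart_eq_zero_iff z hz).1 (norm_eq_zero.1 h6)

theorem main {P : Type} [AddCommMonoid P] (K : P → Prop) (hK : ∀ f g, K f → K g → K (f + g))
    (T : P → A) (h0 : ∀ a, K a → 0 ≤ T a) (hs : ∀ b : A, 0 ≤ b → ∃ a, K a ∧ T a = b)
    (hT : ∀ f g, K f → K g → ‖T f + T g‖ = ‖T (f + g)‖) (f g : P) (hf : K f) (hg : K g) :
    T (f + g) = T f + T g := by
  have hx := h0 f hf
  have hb := h0 g hg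
  have hy := h0 _ (hK f g hf hg)
  have key : ∀ s : ℝ, |s| = 1 → ∀ φ : A →ₗ[ℝ] ℝ, St φ →
      s * (φ (T (f + g)) - φ (T f) - φ (T g)) ≤ 0 := by
    intro s hs1 φ hφ
    by_contra hcon
    push Not at hcon
    set G := s * (φ (T (f + g)) - φ (T f) - φ (T g)) with hG
    obtain ⟨α, β, γ, h1, h2⟩ := expose (T f) (T g) (T (f + g)) (.of_nonneg hx) (.of_nonneg hb)
      (.of_nonneg hy) (-s) (-s) s G (G / 8) hcon (by positivity) φ hφ (by rw [hG]; linarith)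
    obtain ⟨c, hc, h3⟩ := h2 (‖T f‖ + ‖T g‖ + ‖T (f + g)‖)
    obtain ⟨h, hh, rfl⟩ := hs c hc
    have hu := h0 _ (hK g h hg hh)
    have n1 := norm_nonneg (T f)
    have n2 := norm_nonneg (T g)
    have n3 := norm_nonneg (T (f + g))
    have hdom : ∀ ψ : A →ₗ[ℝ] ℝ, St ψ → ψ (T (g + h)) ≤ ψ (T h) + ‖T g‖ := by
      refine dominate _ _ hu hc _ n2 fun d hd => ?_
      obtain ⟨k, hk, rfl⟩ := hs d hd
      rw [hT _ _ (hK g h hg hh) hk, hT h k hh hk, add_assoc, ← hT g _ hg (hK h k hh hk)]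
      exact norm_add_le _ _
    have hnu : ‖T h‖ ≤ ‖T (g + h)‖ := by
      rw [← hT g h hg hh]
      exact CStarAlgebra.norm_le_norm_of_nonneg_of_le hc (le_add_of_nonneg_left hb)
    have h4 := abs_le.1 (near (T (f + g)) (T h) hy hc γ (G / 8) fun ψ hψ hh =>
      (h3 ψ hψ (by linarith)).2.2)
    have h5 := abs_le.1 (near (T g) (T h) hb hc β (G / 8) fun ψ hψ hh =>
      (h3 ψ hψ (by linarith)).2.1)
    have h6 := abs_le.1 (near (T f) (T (g + h)) hx hu α (G / 8) fun ψ hψ hh =>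
      (h3 ψ hψ (by linarith [hdom ψ hψ])).1)
    have h7 : ‖T (f + g) + T h‖ = ‖T f + T (g + h)‖ := by
      rw [hT _ _ (hK f g hf hg) hh, hT _ _ hf (hK g h hg hh), add_assoc]
    have h8 := hT g h hg hh
    have h9 : |γ - α - β| ≤ 3 * (G / 8) := by
      rw [abs_le]; constructor <;> linarith
    have h10 : s * (γ - α - β) ≤ |γ - α - β| :=
      (le_abs_self _).trans (by rw [abs_mul, hs1, one_mul])
    have h11 : -s * φ (T f) + -s * φ (T g) + s * φ (T (f + g)) = G := by rw [hG]; ring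
    rw [h11] at h1
    nlinarith
  have hsa : IsSelfAdjoint (T (f + g) - (T f + T g)) :=
    (IsSelfAdjoint.of_nonneg hy).sub (.of_nonneg (add_nonneg hx hb))
  have e1 := sep _ hsa fun ψ hψ => by
    have := key 1 (by simp) ψ hψ
    rw [map_sub, map_add]; linarith
  have e2 := sep _ hsa.neg fun ψ hψ => by
    have := key (-1) (by simp) ψ hψ
    rw [map_neg, map_sub, map_add]; linarith
  exact le_antisymm (sub_nonpos.1 e1) (by simpa using e2)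

end Pool.Agent.H31.NormAdd
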