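import Mathlib

set_option autoImplicit false

namespace Pool.Agent.Lib.helper31.NumIdx

open scoped ENNReal
open Filter Topology

/-- numerical radius: sup of `|f (T x)|` over `‖x‖ = ‖f‖ = f x = 1` -/
noncomputable def numRadius (𝕜 X : Type) [RCLike 𝕜] [NormedAddCommGroup X] [NormedSpace 𝕜 X]
    (T : X →L[𝕜] X) : ℝ :=
  sSup {s : ℝ | ∃ (x : X) (f : X →L[𝕜] 𝕜), ‖x‖ = 1 ∧ ‖f‖ = 1 ∧ f x = 1 ∧ s = ‖f (T x)‖}

/-- numerical index: inf of the numerical radii of norm-one operators -/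
noncomputable def numIndex (𝕜 X : Type) [RCLike 𝕜] [NormedAddCommGroup X] [NormedSpace 𝕜 X] : ℝ :=
  sInf {c : ℝ | ∃ T : X →L[𝕜] X, ‖T‖ = 1 ∧ c = numRadius 𝕜 X T}

/-- rank-one numerical index: inf of the numerical radii of norm-one operators of rank one -/
noncomputable def rankOneIndex (𝕜 X : Type) [RCLike 𝕜] [NormedAddCommGroup X] [NormedSpace 𝕜 X] :
    ℝ :=
  sInf {c : ℝ | ∃ T : X →L[𝕜] X, Module.rank 𝕜 (LinearMap.range (T : X →ₗ[𝕜] X)) = 1 ∧ ‖T‖ = 1 ∧
    c = numRadius 𝕜 X T}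

/-- the constant `1 / (p^(1/p) q^(1/q))` with `q = p / (p - 1)` -/
noncomputable def kappa (p : ℝ) : ℝ := 1 / (p ^ (1 / p) * (p / (p - 1)) ^ (1 / (p / (p - 1))))

lemma kappa_eq {p : ℝ} (hp : 1 < p) : kappa p = (p - 1) ^ ((p - 1) / p) / p := by
  have hm : 0 < p - 1 := by linarith
  have hp0 : 0 < p := by linarith
  rw [kappa, one_div_div, Real.div_rpow hp0.le hm.le, mul_div_assoc', ← Real.rpow_add hp0,
    one_div_div]
  have : 1 / p + (p - 1) / p = 1 := by field_simp; ring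
  rw [this, Real.rpow_one]

lemma young {p : ℝ} (hp : 1 < p) (A B τ : ℝ) (hA : 0 ≤ A) (hB : 0 ≤ B) :
    A ^ (p - 1) * B ≤ kappa p * Real.exp (-τ) * A ^ p + kappa p * Real.exp ((p - 1) * τ) * B ^ p := by
  have hm : 0 < p - 1 := by linarith
  have hp0 : 0 < p := by linarith
  set l : ℝ := (p - 1) ^ (-1 / p) * Real.exp (-τ) with hl
  have hl0 : 0 < l := by positivity
  have h := Real.geom_mean_le_arith_mean2_weighted (w₁ := (p - 1) / p) (w₂ := 1 / p)
    (p₁ := l * A ^ p) (p₂ := l ^ (-(p - 1)) * B ^ p) (by positivity) (by positivity)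
    (by positivity) (by positivity) (by field_simp; ring)
  have e1 : (l * A ^ p) ^ ((p - 1) / p) * (l ^ (-(p - 1)) * B ^ p) ^ (1 / p) = A ^ (p - 1) * B := by
    rw [Real.mul_rpow hl0.le (by positivity),
      Real.mul_rpow (x := l ^ (-(p - 1))) (by positivity) (by positivity),
      ← Real.rpow_mul hA, ← Real.rpow_mul hB, ← Real.rpow_mul hl0.le]
    have a1 : p * ((p - 1) / p) = p - 1 := by field_simp
    have a2 : p * (1 / p) = 1 := by field_simp
    have a3 : l ^ ((p - 1) / p) * l ^ (-(p - 1) * (1 / p)) = 1 := by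
      rw [← Real.rpow_add hl0]
      have : (p - 1) / p + -(p - 1) * (1 / p) = 0 := by ring
      rw [this, Real.rpow_zero]
    rw [a1, a2, Real.rpow_one]
    calc _ = (l ^ ((p - 1) / p) * l ^ (-(p - 1) * (1 / p))) * (A ^ (p - 1) * B) := by ring
      _ = _ := by rw [a3, one_mul]
  have e2 : (p - 1) / p * l = kappa p * Real.exp (-τ) := by
    rw [kappa_eq hp, hl]
    have : (p - 1) ^ ((p - 1) / p) = (p - 1) * (p - 1) ^ (-1 / p) := by
      conv_rhs => rw [← Real.rpow_one (p - 1), Real.rpow_one, ← Real.rpow_one_add' hm.le (by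
        have : 1 + -1 / p = (p - 1) / p := by field_simp; ring
        rw [this]; positivity)]
      congr 1
      field_simp
      ring
    rw [this]
    ring
  have e3 : 1 / p * l ^ (-(p - 1)) = kappa p * Real.exp ((p - 1) * τ) := by
    rw [kappa_eq hp, hl, Real.mul_rpow (by positivity) (by positivity), ← Real.rpow_mul hm.le,
      ← Real.exp_mul]
    have a1 : -1 / p * -(p - 1) = (p - 1) / p := by ring
    have a2 : -τ * -(p - 1) = (p - 1) * τ := by ring
    rw [a1, a2]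
    ring
  rw [e1] at h
  calc _ ≤ _ := h
    _ = ((p - 1) / p * l) * A ^ p + (1 / p * l ^ (-(p - 1))) * B ^ p := by ring
    _ = _ := by rw [e2, e3]

lemma kappa_pos {p : ℝ} (hp : 1 < p) : 0 < kappa p := by
  have hm : 0 < p - 1 := by linarith
  have hp0 : 0 < p := by linarith
  rw [kappa_eq hp]
  positivity

lemma exp_le (y : ℝ) (hy : |y| ≤ 1) : Real.exp y ≤ 1 + y + y ^ 2 := by
  have := (abs_le.1 (Real.abs_exp_sub_one_sub_id_le hy)).2
  linarith

lemma radius_ineq {p : ℝ} (hp : 1 < p) (ε : ℝ) (hε : 0 < ε) (h1 : ε ≤ 1) (h2 : (p - 1) * ε ≤ 1)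
    (A B : ℝ) (hA : 0 ≤ A) (hB : 0 ≤ B) (hAB : A ^ p + B ^ p ≤ 1) :
    |kappa p * ε * A ^ p - (p - 1) * kappa p * ε * B ^ p| + A ^ (p - 1) * B +
      (kappa p * ε) * ((p - 1) * kappa p * ε) * (A * B ^ (p - 1)) ≤
      kappa p * (1 + (1 + (p - 1) ^ 2 + (p - 1) * kappa p) * ε ^ 2) := by
  have hm : 0 < p - 1 := by linarith
  have hp0 : 0 < p := by linarith
  have hK := kappa_pos hp
  set K := kappa p
  set m := p - 1
  have hAp : 0 ≤ A ^ p := by positivity
  have hBp : 0 ≤ B ^ p := by positivity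
  have hA1 : A ≤ 1 := by
    by_contra h
    have := Real.one_lt_rpow (not_le.1 h) hp0
    linarith
  have hB1 : B ≤ 1 := by
    by_contra h
    have := Real.one_lt_rpow (not_le.1 h) hp0
    linarith
  have hB2 : B ^ m ≤ 1 := Real.rpow_le_one hB hB1 hm.le
  have h3 : A * B ^ m ≤ 1 := mul_le_one₀ hA1 (by positivity) hB2
  have h4 : (K * ε) * (m * K * ε) * (A * B ^ m) ≤ K * (m * K * ε ^ 2) := by
    calc _ ≤ (K * ε) * (m * K * ε) * 1 := mul_le_mul_of_nonneg_left h3 (by positivity)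
      _ = _ := by ring
  have hme : 0 < m * ε := by positivity
  have key : ∀ σ : ℝ, (σ = 1 ∨ σ = -1) →
      σ * (K * ε * A ^ p - m * K * ε * B ^ p) + A ^ m * B ≤ K * (1 + (1 + m ^ 2) * ε ^ 2) := by
    intro σ hσ
    have y := young hp A B (σ * ε) hA hB
    have s2 : σ ^ 2 = 1 := by rcases hσ with rfl | rfl <;> norm_num
    have e1 := exp_le (-(σ * ε)) (by
      rcases hσ with rfl | rfl <;> rw [abs_le] <;> constructor <;> linarith)
    have e2 := exp_le (m * (σ * ε)) (by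
      rcases hσ with rfl | rfl <;> rw [abs_le] <;> constructor <;> linarith)
    have e1' : Real.exp (-(σ * ε)) + σ * ε ≤ 1 + (1 + m ^ 2) * ε ^ 2 := by
      have : (-(σ * ε)) ^ 2 = ε ^ 2 := by rw [neg_sq, mul_pow, s2, one_mul]
      nlinarith [sq_nonneg (m * ε)]
    have e2' : Real.exp (m * (σ * ε)) - m * (σ * ε) ≤ 1 + (1 + m ^ 2) * ε ^ 2 := by
      have : (m * (σ * ε)) ^ 2 = m ^ 2 * ε ^ 2 := by rw [mul_pow, mul_pow, s2, one_mul]
      nlinarith [sq_nonneg ε]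
    have hD : 0 ≤ 1 + (1 + m ^ 2) * ε ^ 2 := by positivity
    calc _ ≤ σ * (K * ε * A ^ p - m * K * ε * B ^ p) +
          (K * Real.exp (-(σ * ε)) * A ^ p + K * Real.exp (m * (σ * ε)) * B ^ p) := by linarith
      _ = K * ((Real.exp (-(σ * ε)) + σ * ε) * A ^ p +
          (Real.exp (m * (σ * ε)) - m * (σ * ε)) * B ^ p) := by ring
      _ ≤ K * ((1 + (1 + m ^ 2) * ε ^ 2) * A ^ p + (1 + (1 + m ^ 2) * ε ^ 2) * B ^ p) := by
          gcongr
      _ = K * ((1 + (1 + m ^ 2) * ε ^ 2) * (A ^ p + B ^ p)) := by ring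
      _ ≤ K * ((1 + (1 + m ^ 2) * ε ^ 2) * 1) := by gcongr
      _ = _ := by ring
  have k1 := key 1 (Or.inl rfl)
  have k2 := key (-1) (Or.inr rfl)
  rcases abs_cases (K * ε * A ^ p - m * K * ε * B ^ p) with ⟨h, _⟩ | ⟨h, _⟩ <;> rw [h] <;> nlinarith

lemma small (θ r c C b : ℝ) (hθ : 0 < θ) (hr : 0 < r) (hr2 : r < 2) (hc : 0 < c) (hb : 0 < b) :
    ∃ ε, 0 < ε ∧ ε ≤ b ∧ 1 + C * ε ^ 2 < (1 + (c * ε) ^ r) ^ θ := by
  have t1 : Tendsto (fun ε : ℝ => C * ε ^ (2 - r)) (𝓝[>] 0) (𝓝 0) := by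
    have := (Real.continuousAt_rpow_const 0 (2 - r) (Or.inr (by linarith))).tendsto
    rw [Real.zero_rpow (by linarith)] at this
    simpa using (this.mono_left nhdsWithin_le_nhds).const_mul C
  have h1 : ∀ᶠ ε : ℝ in 𝓝[>] 0, C * ε ^ (2 - r) < θ * c ^ r / 2 :=
    t1.eventually_lt_const (by positivity)
  have h2 : ∀ᶠ ε : ℝ in 𝓝[>] 0, ε ∈ Set.Ioo 0 (min b (1 / c)) :=
    Ioo_mem_nhdsGT (by positivity)
  obtain ⟨ε, h1, h2, h3⟩ := (h1.and h2).exists
  rw [lt_min_iff] at h3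
  refine ⟨ε, h2, h3.1.le, ?_⟩
  have hce : c * ε ≤ 1 := by
    have := h3.2
    rw [lt_div_iff₀ hc] at this
    linarith
  set y := (c * ε) ^ r with hy
  have hy0 : 0 < y := by positivity
  have hy1 : y ≤ 1 := Real.rpow_le_one (by positivity) hce hr.le
  have hlog : y / 2 ≤ Real.log (1 + y) := by
    have := Real.one_sub_inv_le_log_of_pos (x := 1 + y) (by linarith)
    refine le_trans ?_ this
    rw [← one_div, le_sub_comm, div_le_iff₀ (by linarith)]
    nlinarith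
  have h4 : 1 + θ * (y / 2) ≤ (1 + y) ^ θ := by
    rw [Real.rpow_def_of_pos (by linarith)]
    have := Real.add_one_le_exp (Real.log (1 + y) * θ)
    nlinarith
  have h5 : C * ε ^ 2 < θ * (y / 2) := by
    have e1 : ε ^ 2 = ε ^ (2 - r) * ε ^ r := by
      rw [← Real.rpow_add h2]; simp
    have e2 : 0 < ε ^ r := by positivity
    rw [hy, Real.mul_rpow hc.le h2.le, e1]
    nlinarith
  linarith

section op
variable {𝕜 ι : Type} [RCLike 𝕜] [DecidableEq ι] {p : ℝ≥0∞} [Fact (1 ≤ p)]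

lemma support_coord (hp : 1 < p.toReal) (x : lp (fun _ : ι => 𝕜) p)
    (f : lp (fun _ : ι => 𝕜) p →L[𝕜] 𝕜) (hx : ‖x‖ = 1) (hf : ‖f‖ = 1) (hfx : f x = 1) (i : ι) :
    f (lp.single p i 1) = ((‖x i‖ ^ (p.toReal - 2) : ℝ) : 𝕜) * starRingEnd 𝕜 (x i) := by
  have hp0 : 0 < p.toReal := by linarith
  set g := f (lp.single p i 1) with hg
  have key : ∀ c : 𝕜, RCLike.re (c * g) = ‖x i‖ ^ (p.toReal - 2) * RCLike.re (starRingEnd 𝕜 (x i) * c) := by
    intro c
    set r := RCLike.re (c * g)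
    have hineq : ∀ t : ℝ, |1 + t * r| ^ p.toReal ≤ 1 - ‖x i‖ ^ p.toReal + ‖x i + t • c‖ ^ p.toReal := by
      intro t
      set z := x + lp.single p i (t • c) with hz
      have h1 : RCLike.re (f z) = 1 + t * r := by
        have : lp.single p i (t • c) = ((t : 𝕜) * c) • (lp.single p i 1 : lp (fun _ : ι => 𝕜) p) := by
          rw [← lp.single_smul, smul_eq_mul, mul_one, RCLike.real_smul_eq_coe_mul]
        rw [hz, this, map_add, map_smul, hfx, ← hg, smul_eq_mul, mul_assoc]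
        simp [r]
      have h2 : |1 + t * r| ≤ ‖z‖ := by
        rw [← h1]
        refine (RCLike.abs_re_le_norm _).trans ?_
        simpa [hf] using f.le_opNorm z
      have h3 := lp.norm_sub_norm_compl_sub_single hp0 z {i}
      have h4 := lp.norm_sub_norm_compl_sub_single hp0 x {i}
      have h5 : z i = x i + t • c := by simp [hz]
      rw [Finset.sum_singleton, Finset.sum_singleton] at h3 h4
      have h6 : z - lp.single p i (z i) = x - lp.single p i (x i) := by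
        rw [h5, hz, lp.single_add]; abel
      rw [h6, h5] at h3
      rw [hx, Real.one_rpow] at h4
      have := Real.rpow_le_rpow (abs_nonneg _) h2 hp0.le
      linarith
    have d1 : HasDerivAt (fun t : ℝ => |1 + t * r| ^ p.toReal) (p.toReal * r) 0 := by
      have a := hasDerivAt_abs_rpow (1 + 0 * r) hp
      have b : HasDerivAt (fun t : ℝ => 1 + t * r) r 0 := by
        simpa using ((hasDerivAt_id (0 : ℝ)).mul_const r).const_add 1
      have := a.comp (0 : ℝ) b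
      refine HasDerivAt.congr_deriv this (by simp)
    have d2 : HasDerivAt (fun t : ℝ => ‖x i + t • c‖ ^ p.toReal)
        (p.toReal * (‖x i‖ ^ (p.toReal - 2) * RCLike.re (starRingEnd 𝕜 (x i) * c))) 0 := by
      have a := hasFDerivAt_norm_rpow (x i + (0 : ℝ) • c) hp
      have b : HasDerivAt (fun t : ℝ => x i + t • c) c 0 := by
        simpa using ((hasDerivAt_id (0 : ℝ)).smul_const c).const_add (x i)
      have := a.comp_hasDerivAt (0 : ℝ) b
      refine HasDerivAt.congr_deriv this ?_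
      simp only [zero_smul, add_zero, smul_apply, innerSL_apply_apply, smul_eq_mul]
      rw [mul_assoc]
      congr 2
      change RCLike.re (inner 𝕜 (x i) c) = _
      simp [mul_comm]
    have hmin : IsLocalMin (fun t : ℝ => 1 - ‖x i‖ ^ p.toReal + ‖x i + t • c‖ ^ p.toReal -
        |1 + t * r| ^ p.toReal) 0 := by
      refine Filter.Eventually.of_forall fun t => ?_
      have := hineq t
      simp only [zero_smul, add_zero, zero_mul, abs_one, Real.one_rpow]
      linarith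
    have := hmin.hasDerivAt_eq_zero ((d2.const_add _).sub d1)
    have h7 : p.toReal * (‖x i‖ ^ (p.toReal - 2) * RCLike.re (starRingEnd 𝕜 (x i) * c) - r) = 0 := by
      linarith
    rcases mul_eq_zero.1 h7 with h | h
    · linarith
    · linarith
  set d := g - ((‖x i‖ ^ (p.toReal - 2) : ℝ) : 𝕜) * starRingEnd 𝕜 (x i) with hd
  have h1 := key (starRingEnd 𝕜 d)
  have h2 : RCLike.re (starRingEnd 𝕜 d * d) = 0 := by
    conv_lhs => rw [hd, mul_sub, map_sub, ← hd, h1]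
    rw [mul_left_comm, RCLike.re_ofReal_mul, mul_comm (starRingEnd 𝕜 d), sub_self]
  rw [RCLike.conj_mul] at h2
  norm_cast at h2
  have : d = 0 := by simpa using h2
  exact sub_eq_zero.1 this

noncomputable def op (i j : ι) (α δ : ℝ) : lp (fun _ : ι => 𝕜) p →L[𝕜] lp (fun _ : ι => 𝕜) p :=
  ((α : 𝕜) • lp.evalCLM 𝕜 (fun _ : ι => 𝕜) p i + lp.evalCLM 𝕜 (fun _ : ι => 𝕜) p j).smulRight
    (lp.single p i 1 + lp.single p j (-(δ : 𝕜)))

lemma op_apply (i j : ι) (α δ : ℝ) (x : lp (fun _ : ι => 𝕜) p) :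
    op i j α δ x = ((α : 𝕜) * x i + x j) • (lp.single p i 1 + lp.single p j (-(δ : 𝕜))) := rfl

lemma norm_two (hp0 : 0 < p.toReal) {i j : ι} (hij : i ≠ j) (a b : 𝕜) :
    ‖(lp.single p i a + lp.single p j b : lp (fun _ : ι => 𝕜) p)‖ =
      (‖a‖ ^ p.toReal + ‖b‖ ^ p.toReal) ^ (1 / p.toReal) := by
  have h := lp.norm_sum_single (E := fun _ : ι => 𝕜) hp0 (fun k => if k = i then a else b) {i, j}
  rw [Finset.sum_pair hij, Finset.sum_pair hij] at h
  simp only [if_true, if_neg hij.symm] at h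
  rw [← h, ← Real.rpow_mul (norm_nonneg _), mul_one_div_cancel hp0.ne', Real.rpow_one]

lemma op_radius (hp : 1 < p.toReal) {i j : ι} (hij : i ≠ j) (α δ v : ℝ) (hα : 0 ≤ α) (hδ : 0 ≤ δ)
    (hv : ∀ A B : ℝ, 0 ≤ A → 0 ≤ B → A ^ p.toReal + B ^ p.toReal ≤ 1 →
      |α * A ^ p.toReal - δ * B ^ p.toReal| + A ^ (p.toReal - 1) * B +
        α * δ * (A * B ^ (p.toReal - 1)) ≤ v)
    (x : lp (fun _ : ι => 𝕜) p) (f : lp (fun _ : ι => 𝕜) p →L[𝕜] 𝕜) (hx : ‖x‖ = 1)
    (hf : ‖f‖ = 1) (hfx : f x = 1) : ‖f (op i j α δ x)‖ ≤ v := by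
  have hp0 : 0 < p.toReal := by linarith
  have hi := support_coord hp x f hx hf hfx i
  have hj := support_coord hp x f hx hf hfx j
  have hs := lp.sum_rpow_le_norm_rpow hp0 x {i, j}
  rw [Finset.sum_pair hij, hx, Real.one_rpow] at hs
  have e1 : ∀ k, ‖x k‖ ^ (p.toReal - 2) * ‖x k‖ = ‖x k‖ ^ (p.toReal - 1) := by
    intro k
    rw [← Real.rpow_add_one' (norm_nonneg _) (by linarith)]
    congr 1; ring
  have e2 : ∀ k, x k * (((‖x k‖ ^ (p.toReal - 2) : ℝ) : 𝕜) * starRingEnd 𝕜 (x k)) =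
      ((‖x k‖ ^ p.toReal : ℝ) : 𝕜) := by
    intro k
    rw [mul_left_comm, RCLike.mul_conj]
    norm_cast
    rw [sq, ← mul_assoc, e1, ← Real.rpow_add_one' (norm_nonneg _) (by linarith)]
    congr 1; ring
  have e3 : ∀ k, ‖((‖x k‖ ^ (p.toReal - 2) : ℝ) : 𝕜) * starRingEnd 𝕜 (x k)‖ =
      ‖x k‖ ^ (p.toReal - 1) := by
    intro k
    rw [norm_mul, RCLike.norm_conj, RCLike.norm_ofReal, abs_of_nonneg (by positivity), e1]
  have hsj : (lp.single p j (-(δ : 𝕜)) : lp (fun _ : ι => 𝕜) p) = (-(δ : 𝕜)) • lp.single p j 1 := by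
    rw [← lp.single_smul, smul_eq_mul, mul_one]
  rw [op_apply, map_smul, map_add, hsj, map_smul, smul_eq_mul, smul_eq_mul]
  set gi := f (lp.single p i 1)
  set gj := f (lp.single p j 1)
  have a1 : x i * gi = ((‖x i‖ ^ p.toReal : ℝ) : 𝕜) := by rw [hi, e2]
  have a2 : x j * gj = ((‖x j‖ ^ p.toReal : ℝ) : 𝕜) := by rw [hj, e2]
  have a3 : ‖gi‖ = ‖x i‖ ^ (p.toReal - 1) := by rw [hi, e3]
  have a4 : ‖gj‖ = ‖x j‖ ^ (p.toReal - 1) := by rw [hj, e3]
  have : ((α : 𝕜) * x i + x j) * (gi + -(δ : 𝕜) * gj) =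
      ((α * ‖x i‖ ^ p.toReal - δ * ‖x j‖ ^ p.toReal : ℝ) : 𝕜) + gi * x j +
        -(((α * δ : ℝ) : 𝕜) * (x i * gj)) := by
    rw [RCLike.ofReal_sub, RCLike.ofReal_mul, RCLike.ofReal_mul, RCLike.ofReal_mul, ← a1, ← a2]
    ring
  rw [this]
  refine le_trans ?_ (hv ‖x i‖ ‖x j‖ (norm_nonneg _) (norm_nonneg _) hs)
  refine (norm_add₃_le).trans (le_of_eq ?_)
  rw [RCLike.norm_ofReal, norm_neg, norm_mul, norm_mul, norm_mul, RCLike.norm_ofReal, a3, a4,
    abs_of_nonneg (mul_nonneg hα hδ)]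

lemma op_norm (hp : 1 < p.toReal) {i j : ι} (hij : i ≠ j) (α δ η : ℝ) (hα : 0 ≤ α) (hδ : 0 ≤ δ)
    (hη : 0 ≤ η) : (α * η + 1) * (1 + δ ^ p.toReal) ^ (1 / p.toReal) ≤
      ‖(op i j α δ : lp (fun _ : ι => 𝕜) p →L[𝕜] _)‖ * (η ^ p.toReal + 1) ^ (1 / p.toReal) := by
  have hp0 : 0 < p.toReal := by linarith
  have h := (op i j α δ : lp (fun _ : ι => 𝕜) p →L[𝕜] _).le_opNorm
    (lp.single p i (η : 𝕜) + lp.single p j 1)
  rw [op_apply, norm_smul, norm_two hp0 hij, norm_two hp0 hij] at h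
  have e : (α : 𝕜) * (lp.single p i (η : 𝕜) + lp.single p j 1 : lp (fun _ : ι => 𝕜) p) i +
      (lp.single p i (η : 𝕜) + lp.single p j 1 : lp (fun _ : ι => 𝕜) p) j =
      ((α * η + 1 : ℝ) : 𝕜) := by
    simp [hij, hij.symm]
  rw [e, RCLike.norm_ofReal, norm_neg, RCLike.norm_ofReal, RCLike.norm_ofReal, norm_one,
    Real.one_rpow, abs_of_nonneg hδ, abs_of_nonneg hη, abs_of_nonneg (by positivity)] at h
  exact h

end op

theorem exists_op (𝕜 ι : Type) [RCLike 𝕜] [Nontrivial ι] (p : ℝ≥0∞) [Fact (1 ≤ p)] (h1 : 1 < p)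
    (ht : p ≠ ⊤) (h2 : p ≠ 2) :
    ∃ T : lp (fun _ : ι => 𝕜) p →L[𝕜] lp (fun _ : ι => 𝕜) p,
      Module.rank 𝕜 (LinearMap.range (T : lp (fun _ : ι => 𝕜) p →ₗ[𝕜] lp (fun _ : ι => 𝕜) p)) = 1 ∧
      ‖T‖ = 1 ∧ numRadius 𝕜 _ T < kappa p.toReal := by
  classical
  obtain ⟨i, j, hij⟩ := exists_pair_ne ι
  have hp : 1 < p.toReal := by
    have := (ENNReal.toReal_lt_toReal ENNReal.one_ne_top ht).2 h1
    simpa using this
  have hp2 : p.toReal ≠ 2 := by
    intro h
    apply h2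
    rw [← ENNReal.ofReal_toReal ht, h]
    simp
  set P := p.toReal with hP
  have hm : 0 < P - 1 := by linarith
  have hP0 : 0 < P := by linarith
  have hK := kappa_pos hp
  set K := kappa P
  set C := 1 + (P - 1) ^ 2 + (P - 1) * K with hC
  have hC0 : 0 ≤ C := by positivity
  obtain ⟨ε, hε, hεb, hN⟩ : ∃ ε, 0 < ε ∧ ε ≤ min 1 (1 / (P - 1)) ∧
      1 + C * ε ^ 2 < ‖(op i j (K * ε) ((P - 1) * K * ε) : lp (fun _ : ι => 𝕜) p →L[𝕜] _)‖ := by
    rcases lt_or_gt_of_ne hp2 with h | h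
    · obtain ⟨ε, a1, a2, a3⟩ := small (1 / P) P ((P - 1) * K) C (min 1 (1 / (P - 1)))
        (by positivity) hP0 h (by positivity) (by positivity)
      refine ⟨ε, a1, a2, a3.trans_le ?_⟩
      have := op_norm (𝕜 := 𝕜) hp hij (K * ε) ((P - 1) * K * ε) 0 (by positivity) (by positivity)
        le_rfl
      rw [← hP, Real.zero_rpow hP0.ne'] at this
      simpa using this
    · obtain ⟨ε, a1, a2, a3⟩ := small (1 - 1 / P) (P / (P - 1)) K C (min 1 (1 / (P - 1)))
        (by rw [sub_pos, div_lt_one hP0]; exact hp) (by positivity)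
        (by rw [div_lt_iff₀ hm]; linarith) hK (by positivity)
      refine ⟨ε, a1, a2, a3.trans_le ?_⟩
      have hKe : 0 < K * ε := by positivity
      have := op_norm (𝕜 := 𝕜) hp hij (K * ε) ((P - 1) * K * ε) ((K * ε) ^ (1 / (P - 1)))
        (by positivity) (by positivity) (by positivity)
      rw [← hP, ← Real.rpow_mul hKe.le, ← Real.rpow_one_add' hKe.le (by positivity)] at this
      have b1 : 1 + 1 / (P - 1) = P / (P - 1) := by field_simp; ring
      have b2 : 1 / (P - 1) * P = P / (P - 1) := by ring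
      rw [b1, b2, add_comm _ 1] at this
      set y := (K * ε) ^ (P / (P - 1))
      have hy : 0 < y := by positivity
      have b3 : 1 ≤ (1 + ((P - 1) * K * ε) ^ P) ^ (1 / P) :=
        Real.one_le_rpow (by linarith [show 0 ≤ ((P - 1) * K * ε) ^ P by positivity]) (by positivity)
      rw [Real.rpow_sub (by linarith), Real.rpow_one, div_le_iff₀ (by positivity)]
      nlinarith
  rw [le_min_iff, le_div_iff₀ hm] at hεb
  set T : lp (fun _ : ι => 𝕜) p →L[𝕜] lp (fun _ : ι => 𝕜) p := op i j (K * ε) ((P - 1) * K * ε)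
    with hT
  have hpos : 0 < ‖T‖ := lt_of_lt_of_le (by positivity) hN.le
  have hnorm : ‖((‖T‖⁻¹ : ℝ) : 𝕜) • T‖ = 1 := by
    rw [norm_smul]
    simp [hpos.ne']
  refine ⟨((‖T‖⁻¹ : ℝ) : 𝕜) • T, ?_, hnorm, ?_⟩
  · apply le_antisymm
    · set u : lp (fun _ : ι => 𝕜) p := lp.single p i 1 + lp.single p j (-(((P - 1) * K * ε : ℝ) : 𝕜))
      refine le_trans (Submodule.rank_mono (t := Submodule.span 𝕜 {u}) ?_) ?_
      · rintro _ ⟨x, rfl⟩
        exact Submodule.smul_mem _ _ (Submodule.smul_mem _ _ (Submodule.mem_span_singleton_self u))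
      · simpa using rank_span_le (R := 𝕜) ({u} : Set (lp (fun _ : ι => 𝕜) p))
    · rw [Cardinal.one_le_iff_pos, rank_pos_iff_nontrivial, Submodule.nontrivial_iff_ne_bot]
      intro h
      rw [LinearMap.range_eq_bot] at h
      have : ((‖T‖⁻¹ : ℝ) : 𝕜) • T = 0 := ContinuousLinearMap.coe_injective h
      rw [this] at hnorm
      simp at hnorm
  · have hle : numRadius 𝕜 _ (((‖T‖⁻¹ : ℝ) : 𝕜) • T) ≤ ‖T‖⁻¹ * (K * (1 + C * ε ^ 2)) := by
      refine Real.sSup_le ?_ (by positivity)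
      rintro _ ⟨x, f, hx, hf, hfx, rfl⟩
      have := op_radius hp hij (K * ε) ((P - 1) * K * ε) (K * (1 + C * ε ^ 2)) (by positivity)
        (by positivity) (fun A B hA hB hAB =>
          radius_ineq hp ε hε hεb.1 (by linarith [hεb.2]) A B hA hB hAB) x f hx hf hfx
      rw [smul_apply, map_smul, norm_smul, RCLike.norm_ofReal, abs_of_nonneg (by positivity)]
      exact mul_le_mul_of_nonneg_left this (by positivity)
    refine hle.trans_lt ?_
    rw [inv_mul_lt_iff₀ hpos]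
    nlinarith

lemma numRadius_nonneg (𝕜 X : Type) [RCLike 𝕜] [NormedAddCommGroup X] [NormedSpace 𝕜 X]
    (T : X →L[𝕜] X) : 0 ≤ numRadius 𝕜 X T := by
  refine Real.sSup_nonneg ?_
  rintro _ ⟨x, f, -, -, -, rfl⟩
  exact norm_nonneg _

end Pool.Agent.Lib.helper31.NumIdx
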