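import Mathlib

set_option autoImplicit false

namespace Pool.Agent.H31.PureSt

variable {V : Type} [AddCommGroup V] [Module ℝ V]

structure Cone (P : V → Prop) (u : V) : Prop where
  zero : P 0
  add : ∀ x y, P x → P y → P (x + y)
  smul : ∀ (r : ℝ) x, 0 ≤ r → P x → P (r • x)
  unit : ∀ y, ∃ t : ℝ, P (t • u - y)
  pos : P u
  nneg : ¬ P (-u)

structure Good (P : V → Prop) (u : V) (C : Set V) : Prop where
  down : ∀ y ∈ C, ∀ y', P (y - y') → y' ∈ C
  add : ∀ y ∈ C, ∀ y' ∈ C, y + y' ∈ C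
  smul : ∀ (r : ℝ), 0 < r → ∀ y ∈ C, r • y ∈ C
  dir : ∀ y ∈ C, ∀ y' ∈ C, ∃ z ∈ C, P (z - y) ∧ P (z - y')
  nz : (0 : V) ∉ C
  neg : -u ∈ C
  op : ∀ y ∈ C, ∃ ε : ℝ, 0 < ε ∧ y + ε • u ∈ C

variable {P : V → Prop} {u : V}

lemma base (h : Cone P u) : Good P u {y | ∃ ε : ℝ, 0 < ε ∧ P (-(ε • u) - y)} where
  down := by
    rintro y ⟨ε, hε, hy⟩ y' hy'
    exact ⟨ε, hε, by convert h.add _ _ hy hy' using 1; abel⟩
  add := by
    rintro y ⟨ε, hε, hy⟩ y' ⟨ε', hε', hy'⟩
    exact ⟨ε + ε', by positivity, by convert h.add _ _ hy hy' using 1; module⟩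
  smul := by
    rintro r hr y ⟨ε, hε, hy⟩
    exact ⟨r * ε, by positivity, by convert h.smul r _ hr.le hy using 1; module⟩
  dir := by
    rintro y ⟨ε, hε, hy⟩ y' ⟨ε', hε', hy'⟩
    refine ⟨-(min ε ε' • u), ⟨min ε ε', lt_min hε hε', by simpa using h.zero⟩, ?_, ?_⟩
    · convert h.add _ _ hy (h.smul (ε - min ε ε') u (by simp) h.pos) using 1; module
    · convert h.add _ _ hy' (h.smul (ε' - min ε ε') u (by simp) h.pos) using 1; module
  nz := by
    rintro ⟨ε, hε, hy⟩
    apply h.nneg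
    convert h.smul ε⁻¹ _ (by positivity) hy using 1
    rw [sub_zero, smul_neg, smul_smul, inv_mul_cancel₀ hε.ne', one_smul]
  neg := ⟨1, one_pos, by simpa using h.zero⟩
  op := by
    rintro y ⟨ε, hε, hy⟩
    exact ⟨ε / 2, by positivity, ε / 2, by positivity, by convert hy using 1; module⟩

lemma absorb {C : Set V} (g : Good P u C) {z : V} (hz : ∀ ε : ℝ, 0 < ε → z - ε • u ∈ C)
    {y : V} (hy : y ∈ C) {s : ℝ} (hs : 0 ≤ s) : y + s • z ∈ C := by
  rcases hs.eq_or_lt with rfl | hs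
  · simpa using hy
  obtain ⟨ε, hε, h⟩ := g.op y hy
  have := g.add _ h _ (g.smul s hs _ (hz (ε / s) (by positivity)))
  convert this using 1
  rw [smul_sub, smul_smul, mul_div_cancel₀ _ hs.ne']
  abel

lemma step {C : Set V} (g : Good P u C) {z : V} (hz : ∀ ε : ℝ, 0 < ε → z - ε • u ∈ C)
    (hz' : z ∉ C) : Good P u {y | ∃ s : ℝ, 0 ≤ s ∧ y + s • z ∈ C} where
  down := by
    rintro y ⟨s, hs, hy⟩ y' hy'
    exact ⟨s, hs, g.down _ hy _ (by convert hy' using 1; abel)⟩
  add := by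
    rintro y ⟨s, hs, hy⟩ y' ⟨s', hs', hy'⟩
    exact ⟨s + s', by positivity, by convert g.add _ hy _ hy' using 1; module⟩
  smul := by
    rintro r hr y ⟨s, hs, hy⟩
    exact ⟨r * s, by positivity, by convert g.smul r hr _ hy using 1; module⟩
  dir := by
    rintro y ⟨s, hs, hy⟩ y' ⟨s', hs', hy'⟩
    have h1 := absorb g hz hy hs'
    have h2 := absorb g hz hy' hs
    obtain ⟨x, hx, h3, h4⟩ := g.dir _ h1 _ h2
    refine ⟨x - (s + s') • z, ⟨s + s', by positivity, by simpa using hx⟩, ?_, ?_⟩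
    · convert h3 using 1; module
    · convert h4 using 1; module
  nz := by
    rintro ⟨s, hs, hy⟩
    rcases hs.eq_or_lt with rfl | hs
    · exact g.nz (by simpa using hy)
    · apply hz'
      have := g.smul s⁻¹ (by positivity) _ hy
      rwa [zero_add, smul_smul, inv_mul_cancel₀ hs.ne', one_smul] at this
  neg := ⟨0, le_rfl, by simpa using g.neg⟩
  op := by
    rintro y ⟨s, hs, hy⟩
    obtain ⟨ε, hε, h⟩ := g.op _ hy
    exact ⟨ε, hε, s, hs, by convert h using 1; abel⟩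

lemma chain (c : Set (Set V)) (hc : c ⊆ {C | Good P u C}) (hch : IsChain (· ⊆ ·) c)
    (hne : c.Nonempty) : Good P u (⋃₀ c) := by
  have two : ∀ y ∈ ⋃₀ c, ∀ y' ∈ ⋃₀ c, ∃ C ∈ c, y ∈ C ∧ y' ∈ C := by
    rintro y ⟨C, hC, hy⟩ y' ⟨C', hC', hy'⟩
    rcases hch.total hC hC' with h | h
    · exact ⟨C', hC', h hy, hy'⟩
    · exact ⟨C, hC, hy, h hy'⟩
  refine ⟨?_, ?_, ?_, ?_, ?_, ?_, ?_⟩
  · rintro y ⟨C, hC, hy⟩ y' h
    exact ⟨C, hC, (hc hC).down y hy y' h⟩
  · intro y hy y' hy'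
    obtain ⟨C, hC, h1, h2⟩ := two y hy y' hy'
    exact ⟨C, hC, (hc hC).add y h1 y' h2⟩
  · rintro r hr y ⟨C, hC, hy⟩
    exact ⟨C, hC, (hc hC).smul r hr y hy⟩
  · intro y hy y' hy'
    obtain ⟨C, hC, h1, h2⟩ := two y hy y' hy'
    obtain ⟨z, hz, h3⟩ := (hc hC).dir y h1 y' h2
    exact ⟨z, ⟨C, hC, hz⟩, h3⟩
  · rintro ⟨C, hC, hy⟩
    exact (hc hC).nz hy
  · obtain ⟨C, hC⟩ := hne
    exact ⟨C, hC, (hc hC).neg⟩
  · rintro y ⟨C, hC, hy⟩
    obtain ⟨ε, hε, h⟩ := (hc hC).op y hy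
    exact ⟨ε, hε, C, hC, h⟩

lemma gauge_ex (h : Cone P u) {C : Set V} (g : Good P u C) (y : V) :
    ∃ r : ℝ, ∀ t : ℝ, y - t • u ∈ C ↔ r < t := by
  have mem : ∀ x : V, ∃ t : ℝ, x - t • u ∈ C := fun x => by
    obtain ⟨t, ht⟩ := h.unit x
    exact ⟨t + 1, g.down _ g.neg _ (by convert ht using 1; module)⟩
  have mono : ∀ t t' : ℝ, t ≤ t' → y - t • u ∈ C → y - t' • u ∈ C := fun t t' htt hy =>
    g.down _ hy _ (by convert h.smul (t' - t) u (by linarith) h.pos using 1; module)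
  obtain ⟨t1, ht1⟩ := mem (-y)
  have hb : BddBelow {t : ℝ | y - t • u ∈ C} := by
    refine ⟨-t1, fun t ht => ?_⟩
    by_contra hcon
    push Not at hcon
    apply g.nz
    refine g.down _ (g.add _ ht _ ht1) _ ?_
    convert h.smul (-t1 - t) u (by linarith) h.pos using 1; module
  refine ⟨sInf {t : ℝ | y - t • u ∈ C}, fun t => ⟨fun ht => ?_, fun ht => ?_⟩⟩
  · obtain ⟨ε, hε, h1⟩ := g.op _ ht
    have : t - ε ∈ {t : ℝ | y - t • u ∈ C} := by
      show y - (t - ε) • u ∈ C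
      convert h1 using 1; module
    have := csInf_le hb this
    linarith
  · obtain ⟨t', h1, h2⟩ := exists_lt_of_csInf_lt (mem y) ht
    exact mono t' t h2.le h1

theorem exists_pure (h : Cone P u) (w : V) (m : ℝ) (hw : P (m • u - w))
    (hm : ∀ ε : ℝ, 0 < ε → ¬ P ((m - ε) • u - w)) :
    ∃ φ : V →ₗ[ℝ] ℝ, φ u = 1 ∧ (∀ x, P x → 0 ≤ φ x) ∧ φ w = m ∧
      ∀ y y' (t : ℝ), φ y < t → φ y' < t → ∃ z, P (z - y) ∧ P (z - y') ∧ φ z < t := by
  have g0 := step (base h) (z := w - m • u)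
    (fun ε hε => ⟨ε, hε, by convert hw using 1; abel⟩)
    (by
      rintro ⟨ε, hε, h1⟩
      exact hm ε hε (by convert h1 using 1; module))
  obtain ⟨C, hC0, hmax⟩ := zorn_subset_nonempty {C | Good P u C}
    (fun c hc hch hne => ⟨⋃₀ c, chain c hc hch hne, fun s hs => Set.subset_sUnion_of_mem hs⟩) _ g0
  have g : Good P u C := hmax.1
  choose f hf using gauge_ex h g
  have le_of : ∀ (y : V) (r : ℝ), (∀ t, r < t → y - t • u ∈ C) → f y ≤ r := fun y r hr =>
    le_of_forall_gt_imp_ge_of_dense fun t ht => ((hf y t).1 (hr t ht)).le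
  have sub : ∀ y y', f (y + y') ≤ f y + f y' := fun y y' => by
    refine le_of _ _ fun t ht => ?_
    have h1 := (hf y (f y + (t - f y - f y') / 2)).2 (by linarith)
    have h2 := (hf y' (f y' + (t - f y - f y') / 2)).2 (by linarith)
    convert g.add _ h1 _ h2 using 1; module
  have f0 : 0 ≤ f 0 := by
    by_contra hcon
    push Not at hcon
    exact g.nz (by simpa using (hf 0 0).2 hcon)
  have negle : ∀ y, f (-y) ≤ -f y := fun y => by
    have g1 := step g (z := y - f y • u)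
      (fun ε hε => by convert (hf y (f y + ε)).2 (by linarith) using 1; module)
      (fun h1 => lt_irrefl _ ((hf y (f y)).1 h1))
    have hsub : C ⊆ {x | ∃ s : ℝ, 0 ≤ s ∧ x + s • (y - f y • u) ∈ C} :=
      fun x hx => ⟨0, le_rfl, by simpa using hx⟩
    have hsup := hmax.2 g1 hsub
    refine le_of _ _ fun t ht => hsup ⟨1, zero_le_one, ?_⟩
    convert g.smul (t + f y) (by linarith) _ g.neg using 1; module
  have neg : ∀ y, f (-y) = -f y := fun y => by
    have := sub y (-y)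
    rw [add_neg_cancel] at this
    linarith [negle y]
  have add : ∀ y y', f (y + y') = f y + f y' := fun y y' => by
    have := sub (y + y') (-y')
    rw [add_neg_cancel_right, neg] at this
    linarith [sub y y']
  have smp : ∀ (r : ℝ), 0 < r → ∀ y, f (r • y) ≤ r * f y := fun r hr y => by
    refine le_of _ _ fun t ht => ?_
    have h1 := (hf y (t / r)).2 (by rw [lt_div_iff₀ hr]; linarith)
    convert g.smul r hr _ h1 using 1
    rw [smul_sub, smul_smul, mul_div_cancel₀ _ hr.ne']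
  have smp' : ∀ (r : ℝ), 0 < r → ∀ y, f (r • y) = r * f y := fun r hr y => by
    have := smp r hr (-y)
    rw [smul_neg, neg, neg] at this
    linarith [smp r hr y]
  have sm : ∀ (r : ℝ) y, f (r • y) = r * f y := fun r y => by
    rcases lt_trichotomy r 0 with hr | rfl | hr
    · have := smp' (-r) (by linarith) y
      rw [neg_smul, neg] at this
      linarith
    · have := neg 0
      rw [neg_zero] at this
      rw [zero_smul]; linarith
    · exact smp' r hr y
  have pos : ∀ x, P x → 0 ≤ f x := fun x hx => by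
    by_contra hcon
    push Not at hcon
    apply g.nz
    exact g.down _ ((hf x 0).2 hcon) _ (by simpa using hx)
  have fu : f u = 1 := by
    apply le_antisymm
    · refine le_of _ _ fun t ht => ?_
      convert g.smul (t - 1) (by linarith) _ g.neg using 1; module
    · by_contra hcon
      push Not at hcon
      exact g.nz (by simpa using (hf u 1).2 hcon)
  refine ⟨{ toFun := f, map_add' := add, map_smul' := sm }, fu, pos, ?_, ?_⟩
  · show f w = m
    apply le_antisymm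
    · have := pos _ hw
      rw [sub_eq_add_neg, add, neg, sm, fu] at this
      linarith
    · have : f (-w) ≤ -m := by
        refine le_of _ _ fun t ht => hC0 ⟨1, zero_le_one, t + m, by linarith, ?_⟩
        convert h.zero using 1; module
      rw [neg] at this
      linarith
  · intro y y' t h1 h2
    obtain ⟨z, hz, h3, h4⟩ := g.dir _ ((hf y t).2 h1) _ ((hf y' t).2 h2)
    refine ⟨z + t • u, by convert h3 using 1; abel, by convert h4 using 1; abel, ?_⟩
    exact (hf _ t).1 (by simpa using hz)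

end Pool.Agent.H31.PureSt
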