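import Pool.Agent.Lib.helper31.NormAdd
import Pool.Agent.Lib.helper31.PureSt

set_option autoImplicit false

namespace Pool.Agent.H31.OrdGrp

open Pool.Agent.H31.NormAdd

variable {A : Type} [CStarAlgebra A] [PartialOrder A] [StarOrderedRing A]

structure Pure (φ : A →ₗ[ℝ] ℝ) : Prop where
  one : φ 1 = 1
  st : St φ
  dir : ∀ y y' : A, IsSelfAdjoint y → IsSelfAdjoint y' → ∀ t : ℝ, φ y < t → φ y' < t →
    ∃ z : A, y ≤ z ∧ y' ≤ z ∧ φ z < t

lemma Pure.mono {φ : A →ₗ[ℝ] ℝ} (h : Pure φ) {x y : A} (hxy : x ≤ y) : φ x ≤ φ y := by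
  have := h.st.1 _ (sub_nonneg.2 hxy)
  rw [map_sub] at this
  linarith

lemma Pure.sc {φ : A →ₗ[ℝ] ℝ} (h : Pure φ) (r : ℝ) : φ (r • (1 : A)) = r := by
  rw [map_smul, h.one, smul_eq_mul, mul_one]

lemma sa_le (y : A) (hy : IsSelfAdjoint y) : y ≤ ‖y‖ • (1 : A) := by
  have := hy.le_algebraMap_norm_self
  rwa [Algebra.algebraMap_eq_smul_one] at this

lemma exists_pure_norming [Nontrivial A] (w : A) (hw : 0 ≤ w) :
    ∃ φ : A →ₗ[ℝ] ℝ, Pure φ ∧ φ w = ‖w‖ := by
  have hre : ∀ x : A, IsSelfAdjoint x → ((realPart x : selfAdjoint A) : A) = x :=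
    fun x hx => hx.coe_realPart
  have h1 : IsSelfAdjoint (1 : A) := IsSelfAdjoint.one A
  have hc : PureSt.Cone (fun x : A => 0 ≤ ((realPart x : selfAdjoint A) : A)) 1 := by
    refine ⟨by simp, ?_, ?_, ?_, ?_, ?_⟩
    · intro x y hx hy
      rw [map_add, AddSubgroup.coe_add]; exact add_nonneg hx hy
    · intro r x hr hx
      rw [map_smul, selfAdjoint.val_smul]; exact smul_nonneg hr hx
    · intro y
      refine ⟨‖((realPart y : selfAdjoint A) : A)‖, ?_⟩
      rw [map_sub, map_smul, AddSubgroup.coe_sub, selfAdjoint.val_smul, hre 1 h1]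
      exact sub_nonneg.2 (sa_le _ (realPart y).2)
    · rw [hre 1 h1]; exact zero_le_one
    · rw [hre _ h1.neg]
      intro h
      exact absurd (le_antisymm (neg_nonneg.1 h) zero_le_one) one_ne_zero
  have hsw : IsSelfAdjoint w := .of_nonneg hw
  have hsm : ∀ r : ℝ, IsSelfAdjoint (r • (1 : A)) := fun r => (IsSelfAdjoint.all r).smul h1
  obtain ⟨φ, e1, e2, e3, e4⟩ := PureSt.exists_pure hc w ‖w‖
    (by rw [hre _ ((hsm _).sub hsw)]; exact sub_nonneg.2 (sa_le w hsw))
    (by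
      intro ε hε h
      rw [hre _ ((hsm _).sub hsw), sub_nonneg] at h
      by_cases hr : 0 ≤ ‖w‖ - ε
      · have := (CStarAlgebra.norm_le_iff_le_algebraMap w hr hw).2
          (by rwa [Algebra.algebraMap_eq_smul_one])
        linarith
      · push Not at hr
        have h3 : (0 : A) ≤ (‖w‖ - ε) • (1 : A) := hw.trans h
        have h4 := smul_nonneg (show 0 ≤ (-(‖w‖ - ε))⁻¹ by rw [inv_nonneg]; linarith) h3
        rw [smul_smul, inv_neg, neg_mul, inv_mul_cancel₀ hr.ne, neg_smul, one_smul] at h4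
        exact absurd (le_antisymm (neg_nonneg.1 h4) zero_le_one) one_ne_zero)
  have hpos : ∀ a : A, 0 ≤ a → 0 ≤ φ a := fun a ha => e2 a (by rw [hre a (.of_nonneg ha)]; exact ha)
  have hreq : ∀ x : A, φ ((realPart x : selfAdjoint A) : A) = φ x := fun x => by
    have a1 := e2 (x - (realPart x : selfAdjoint A)) (by simp [realPart_idem])
    have a2 := e2 (((realPart x : selfAdjoint A) : A) - x) (by simp [realPart_idem])
    rw [map_sub] at a1 a2
    linarith
  have hle : ∀ x : A, φ x ≤ ‖x‖ := fun x => by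
    have := hpos _ (sub_nonneg.2 (sa_le _ (realPart x).2))
    rw [map_sub, map_smul, e1, hreq, smul_eq_mul, mul_one] at this
    have h2 : ‖((realPart x : selfAdjoint A) : A)‖ ≤ ‖x‖ := realPart.norm_le x
    linarith
  refine ⟨φ, ⟨e1, ⟨hpos, fun a => abs_le.2 ⟨?_, hle a⟩⟩, ?_⟩, e3⟩
  · have := hle (-a)
    rw [map_neg, norm_neg] at this
    linarith
  · intro y y' hy hy' t a1 a2
    obtain ⟨z, b1, b2, b3⟩ := e4 y y' t a1 a2
    refine ⟨(realPart z : selfAdjoint A), ?_, ?_, by rw [hreq]; exact b3⟩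
    · rw [map_sub, AddSubgroup.coe_sub, hre y hy] at b1; exact sub_nonneg.1 b1
    · rw [map_sub, AddSubgroup.coe_sub, hre y' hy'] at b2; exact sub_nonneg.1 b2

/-- an inflationary order automorphism of the positive definite cone -/
structure Infl (F G : A → A) : Prop where
  Fp : ∀ x, IsStrictlyPositive x → IsStrictlyPositive (F x)
  Gp : ∀ x, IsStrictlyPositive x → IsStrictlyPositive (G x)
  Fm : ∀ x y, IsStrictlyPositive x → IsStrictlyPositive y → x ≤ y → F x ≤ F y
  Gm : ∀ x y, IsStrictlyPositive x → IsStrictlyPositive y → x ≤ y → G x ≤ G y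
  FG : ∀ x, IsStrictlyPositive x → F (G x) = x
  GF : ∀ x, IsStrictlyPositive x → G (F x) = x
  le : ∀ x, IsStrictlyPositive x → x ≤ F x

lemma sp_smul {r : ℝ} (hr : 0 < r) : IsStrictlyPositive (r • (1 : A)) :=
  IsStrictlyPositive.smul hr isStrictlyPositive_one

lemma Infl.dual {F G : A → A} (h : Infl F G) :
    Infl (fun y => Ring.inverse (G (Ring.inverse y))) (fun y => Ring.inverse (F (Ring.inverse y))) where
  Fp x hx := (h.Gp _ hx.ringInverse).ringInverse
  Gp x hx := (h.Fp _ hx.ringInverse).ringInverse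
  Fm x y hx hy hxy := CStarAlgebra.ringInverse_le_ringInverse
    (h.Gm _ _ hy.ringInverse hx.ringInverse (CStarAlgebra.ringInverse_le_ringInverse hxy hx))
    (h.Gp _ hy.ringInverse)
  Gm x y hx hy hxy := CStarAlgebra.ringInverse_le_ringInverse
    (h.Fm _ _ hy.ringInverse hx.ringInverse (CStarAlgebra.ringInverse_le_ringInverse hxy hx))
    (h.Fp _ hy.ringInverse)
  FG x hx := by
    rw [Ring.inverse_inverse (h.Fp _ hx.ringInverse).isUnit, h.GF _ hx.ringInverse,
      Ring.inverse_inverse hx.isUnit]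
  GF x hx := by
    rw [Ring.inverse_inverse (h.Gp _ hx.ringInverse).isUnit, h.FG _ hx.ringInverse,
      Ring.inverse_inverse hx.isUnit]
  le x hx := by
    have h1 := h.le _ (h.Gp _ hx.ringInverse)
    rw [h.FG _ hx.ringInverse] at h1
    have := CStarAlgebra.ringInverse_le_ringInverse h1 (h.Gp _ hx.ringInverse)
    rwa [Ring.inverse_inverse hx.isUnit] at this

lemma Infl.sandwich {F G : A → A} (h : Infl F G) {φ : A →ₗ[ℝ] ℝ} (hφ : Pure φ) {x x' : A}
    (hx : IsStrictlyPositive x) (hx' : IsStrictlyPositive x') (hlt : φ x < φ x') :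
    φ (F x) ≤ φ (F x') := by
  by_contra hcon
  push Not at hcon
  have hy := h.Fp x hx
  have hz := h.Fp x' hx'
  have ht : 0 < φ x' := lt_of_le_of_lt (hφ.st.1 x hx.nonneg) hlt
  set δ := φ (F x) - φ (F x') with hδ
  have hδ0 : 0 < δ := by linarith
  set N := φ (F x) / δ with hN
  have hNδ : N * δ = φ (F x) := by rw [hN]; field_simp
  have hz0 := hφ.st.1 _ hz.nonneg
  have hN1 : 1 ≤ N := by rw [hN, le_div_iff₀ hδ0]; linarith
  obtain ⟨d, hd1, hd2, hd3⟩ := hφ.dir (F x + N • (F x' - F x)) ((φ x' / 2) • (1 : A))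
    (hy.isSelfAdjoint.add ((IsSelfAdjoint.all N).smul (hz.isSelfAdjoint.sub hy.isSelfAdjoint)))
    ((IsSelfAdjoint.all _).smul (IsSelfAdjoint.one A)) (φ x')
    (by rw [map_add, map_smul, map_sub, smul_eq_mul]; nlinarith) (by rw [hφ.sc]; linarith)
  have hd : IsStrictlyPositive d := (sp_smul (by linarith)).of_le hd2
  have hGd := h.Gp d hd
  have hle : G d ≤ d := by
    have := h.le _ hGd
    rwa [h.FG d hd] at this
  obtain ⟨x3, a1, a2, a3⟩ := hφ.dir x (G d) hx.isSelfAdjoint hGd.isSelfAdjoint (φ x') hlt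
    (lt_of_le_of_lt (hφ.mono hle) hd3)
  have hx3 : IsStrictlyPositive x3 := hx.of_le a1
  have b1 := h.Fm _ _ hx hx3 a1
  have b2 := h.Fm _ _ hGd hx3 a2
  rw [h.FG d hd] at b2
  have b3 : F x' ≤ F x3 := by
    have c1 := smul_nonneg (show 0 ≤ N⁻¹ by positivity) (sub_nonneg.2 (hd1.trans b2))
    have c2 := smul_nonneg (show 0 ≤ 1 - N⁻¹ by
      have := inv_le_one_of_one_le₀ hN1; linarith) (sub_nonneg.2 b1)
    have c3 := add_nonneg c1 c2
    rw [← sub_nonneg]
    convert c3 using 1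
    have hN0 : N ≠ 0 := by linarith
    have : N⁻¹ • (F x3 - (F x + N • (F x' - F x)))
        = N⁻¹ • (F x3 - F x) - (F x' - F x) := by
      rw [← sub_sub, smul_sub, smul_smul, inv_mul_cancel₀ hN0, one_smul]
    rw [this]; module
  have b4 := h.Gm _ _ hz (h.Fp _ hx3) b3
  rw [h.GF _ hx', h.GF _ hx3] at b4
  have := hφ.mono b4
  linarith

lemma two_le {x : A} (hx : IsStrictlyPositive x) : (2 : ℝ) • (1 : A) ≤ x + Ring.inverse x := by
  have h := (hx.isSelfAdjoint.sub (IsSelfAdjoint.one A)).conjugate_nonneg hx.ringInverse.nonneg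
  rw [← sub_nonneg]
  convert h using 1
  have h1 := Ring.mul_inverse_cancel x hx.isUnit
  have h2 := Ring.inverse_mul_cancel x hx.isUnit
  rw [sub_mul, h1, one_mul, mul_sub, mul_one, sub_mul, h2, one_mul, two_smul]
  abel

lemma inv_sc {r : ℝ} (hr : 0 < r) : Ring.inverse (r • (1 : A)) = r⁻¹ • (1 : A) := by
  have hu := (sp_smul (A := A) hr).isUnit
  have h1 := Ring.inverse_mul_cancel _ hu
  rw [mul_smul_comm, mul_one] at h1
  calc Ring.inverse (r • (1 : A)) = r⁻¹ • r • Ring.inverse (r • (1 : A)) := by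
        rw [smul_smul, inv_mul_cancel₀ hr.ne', one_smul]
    _ = r⁻¹ • (1 : A) := by rw [h1]

lemma Infl.val {F G : A → A} (h : Infl F G) {φ : A →ₗ[ℝ] ℝ} (hφ : Pure φ) {r : ℝ} (hr : 0 < r)
    (h1 : r < φ (F 1)) (h2 : r⁻¹ < φ (Ring.inverse (F 1))) : φ (G (r • (1 : A))) = 1 := by
  have hs := sp_smul (A := A) hr
  have hG := h.Gp _ hs
  have ha := h.Fp _ (isStrictlyPositive_one (A := A))
  apply le_antisymm
  · by_contra hcon
    push Not at hcon
    have := h.sandwich hφ isStrictlyPositive_one hG (by rw [hφ.one]; exact hcon)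
    rw [h.FG _ hs, hφ.sc] at this
    linarith
  · have := h.dual.sandwich hφ hs.ringInverse ha.ringInverse (by rw [inv_sc hr, hφ.sc]; exact h2)
    rw [Ring.inverse_inverse hs.isUnit, Ring.inverse_inverse ha.isUnit,
      h.GF _ isStrictlyPositive_one, Ring.inverse_one, hφ.one] at this
    have h3 := hφ.mono (two_le hG)
    rw [hφ.sc, map_add] at h3
    linarith

lemma Infl.weak_unit {F G : A → A} (h : Infl F G) {r s : ℝ} (hr : 0 < r) (hrs : r < s) {k : A}
    (hk : 0 ≤ k) (hk0 : k ≠ 0) :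
    ∃ w : A, 0 ≤ w ∧ w ≠ 0 ∧ w ≤ k ∧ w ≤ G (s • (1 : A)) - G (r • (1 : A)) := by
  have h1 := sp_smul (A := A) hr
  have h2 := sp_smul (A := A) (hr.trans hrs)
  have hx := h.Gp _ h1
  have hxk := hx.add_nonneg hk
  set c := F (G (r • (1 : A)) + k) - r • (1 : A) with hc
  have hc0 : 0 ≤ c := by
    have := h.Fm _ _ hx hxk (le_add_of_nonneg_right hk)
    rw [h.FG _ h1] at this
    exact sub_nonneg.2 this
  have hcn : c ≠ 0 := by
    intro h0
    have := congrArg G (sub_eq_zero.1 h0)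
    rw [h.GF _ hxk] at this
    exact hk0 (by simpa using this)
  have hcp : 0 < ‖c‖ := norm_pos_iff.2 hcn
  set ε := min 1 ((s - r) / ‖c‖) with hε
  have hε0 : 0 < ε := lt_min one_pos (div_pos (by linarith) hcp)
  have hε1 : ε ≤ 1 := min_le_left _ _
  have hε2 : ε * ‖c‖ ≤ s - r := (le_div_iff₀ hcp).1 (min_le_right _ _)
  have hy : IsStrictlyPositive (r • (1 : A) + ε • c) := h1.add_nonneg (smul_nonneg hε0.le hc0)
  refine ⟨G (r • (1 : A) + ε • c) - G (r • (1 : A)), ?_, ?_, ?_, ?_⟩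
  · exact sub_nonneg.2 (h.Gm _ _ h1 hy (le_add_of_nonneg_right (smul_nonneg hε0.le hc0)))
  · intro h0
    have := congrArg F (sub_eq_zero.1 h0)
    rw [h.FG _ hy, h.FG _ h1] at this
    have h3 : ε • c = 0 := by simpa using this
    exact hcn ((smul_eq_zero.1 h3).resolve_left hε0.ne')
  · have : r • (1 : A) + ε • c ≤ F (G (r • (1 : A)) + k) := by
      rw [← sub_nonneg]
      convert smul_nonneg (show 0 ≤ 1 - ε by linarith) hc0 using 1
      rw [hc]; module
    have h3 := h.Gm _ _ hy (h.Fp _ hxk) this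
    rw [h.GF _ hxk] at h3
    exact sub_le_iff_le_add'.2 h3
  · have : r • (1 : A) + ε • c ≤ s • (1 : A) := by
      rw [← sub_nonneg]
      have a1 := smul_nonneg hε0.le (sub_nonneg.2 (sa_le c (.of_nonneg hc0)))
      have a2 := smul_nonneg (show 0 ≤ s - r - ε * ‖c‖ by linarith) (zero_le_one (α := A))
      convert add_nonneg a1 a2 using 1
      module
    exact sub_le_sub_right (h.Gm _ _ hy h2 this) _

lemma supp {φ : A →ₗ[ℝ] ℝ} (hφ : Pure φ) {e w : A} (hw : 0 ≤ w) (hw0 : w ≠ 0) (hle : w ≤ e⁺)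
    (hn : φ w = ‖w‖) : φ e⁻ = 0 := by
  have hq : 0 ≤ e⁻ := CFC.negPart_nonneg e
  have hsq : IsSelfAdjoint e⁻ := .of_nonneg hq
  have h1 : e⁻ * w * e⁻ = 0 := by
    apply le_antisymm _ (hsq.conjugate_nonneg hw)
    have := hsq.conjugate_le_conjugate hle
    rwa [CFC.negPart_mul_posPart, zero_mul] at this
  have h2 : CFC.sqrt w * e⁻ = 0 := by
    have hs : IsSelfAdjoint (CFC.sqrt w) := .of_nonneg (CFC.sqrt_nonneg w)
    rw [← CStarRing.star_mul_self_eq_zero_iff, star_mul, hs.star_eq, hsq.star_eq, mul_assoc,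
      ← mul_assoc (CFC.sqrt w), CFC.sqrt_mul_sqrt_self w, ← mul_assoc, h1]
  have h3 : w * e⁻ = 0 := by
    rw [← CFC.sqrt_mul_sqrt_self w, mul_assoc, h2, mul_zero]
  have a1 : IsSelfAdjoint (‖e⁻‖ • w) := IsSelfAdjoint.of_nonneg (smul_nonneg (norm_nonneg _) hw)
  have a2 : IsSelfAdjoint (‖w‖ • e⁻) := IsSelfAdjoint.of_nonneg (smul_nonneg (norm_nonneg _) hq)
  have a3 : (‖e⁻‖ • w) * (‖w‖ • e⁻) = 0 := by rw [smul_mul_smul_comm, h3, smul_zero]
  have a4 := IsSelfAdjoint.norm_add_eq_max a1 a2 a3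
  have a5 := (le_abs_self _).trans (hφ.st.2 (‖e⁻‖ • w + ‖w‖ • e⁻))
  rw [a4, norm_smul, norm_smul, map_add, map_smul, map_smul, hn] at a5
  simp only [norm_norm, smul_eq_mul] at a5
  rw [mul_comm ‖w‖ ‖e⁻‖, max_self] at a5
  have hp : 0 < ‖w‖ := norm_pos_iff.2 hw0
  have a6 := hφ.st.1 _ hq
  nlinarith

lemma variance {φ : A →ₗ[ℝ] ℝ} (hφ : Pure φ) {c y : A} (hc : IsSelfAdjoint c)
    (hy : IsSelfAdjoint y) (s : ℝ) :
    0 ≤ φ (c * c) + s ^ 2 * ‖y‖ ^ 2 + s * φ (Complex.I • (c * y - y * c)) := by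
  have h1 := hφ.st.1 _ (star_mul_self_nonneg (c + s • Complex.I • y))
  have h2 : star (c + s • Complex.I • y) * (c + s • Complex.I • y)
      = c * c + s ^ 2 • (y * y) + s • Complex.I • (c * y - y * c) := by
    rw [star_add, star_smul, star_smul, hc.star_eq, hy.star_eq]
    simp only [star_trivial, Complex.star_def, Complex.conj_I, add_mul, mul_add, smul_mul_assoc,
      mul_smul_comm, smul_smul, neg_smul, neg_mul, smul_neg, smul_sub, smul_add]
    rw [smul_comm Complex.I s, smul_smul Complex.I, Complex.I_mul_I]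
    module
  rw [h2, map_add, map_add, map_smul, map_smul, smul_eq_mul, smul_eq_mul] at h1
  have h3 : φ (y * y) ≤ ‖y‖ ^ 2 :=
    (le_abs_self _).trans ((hφ.st.2 _).trans (by rw [sq]; exact norm_mul_le _ _))
  nlinarith [sq_nonneg s]

lemma inv_lower {φ : A →ₗ[ℝ] ℝ} (hφ : Pure φ) {a : A} (ha : IsStrictlyPositive a)
    (hM : 0 < ‖a‖) (α : ℝ) :
    2 * α - φ a + ‖a‖⁻¹ * φ ((a - α • (1 : A)) * (a - α • (1 : A)))
      ≤ α ^ 2 * φ (Ring.inverse a) := by
  have hc : IsSelfAdjoint (a - α • (1 : A)) :=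
    ha.isSelfAdjoint.sub ((IsSelfAdjoint.all _).smul (IsSelfAdjoint.one A))
  have h0 := CStarAlgebra.ringInverse_le_ringInverse (sa_le a ha.isSelfAdjoint) ha
  rw [inv_sc hM] at h0
  have h1 := hφ.mono (hc.conjugate_le_conjugate h0)
  have e1 := Ring.mul_inverse_cancel a ha.isUnit
  have e2 := Ring.inverse_mul_cancel a ha.isUnit
  have h2 : (a - α • (1 : A)) * Ring.inverse a * (a - α • (1 : A))
      = a - (2 * α) • (1 : A) + α ^ 2 • Ring.inverse a := by
    rw [sub_mul, e1, smul_mul_assoc, one_mul, mul_sub, sub_mul, sub_mul, smul_mul_assoc, e2]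
    simp only [one_mul, mul_smul_comm, mul_one, smul_smul]
    module
  rw [h2, mul_smul_comm, mul_one, smul_mul_assoc, map_smul, map_add, map_sub, hφ.sc, map_smul,
    smul_eq_mul, smul_eq_mul] at h1
  linarith

lemma Infl.key [Nontrivial A] {F G : A → A} (h : Infl F G) {y : A} (hy : IsSelfAdjoint y)
    (ψ : A →ₗ[ℝ] ℝ) (hψ : St ψ) : ψ (Complex.I • (F 1 * y - y * F 1)) ≤ 0 := by
  by_contra hcon
  push Not at hcon
  have ha := h.Fp _ (isStrictlyPositive_one (A := A))
  have ha1 := h.le _ (isStrictlyPositive_one (A := A))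
  set a := F 1 with hadef
  set z := Complex.I • (a * y - y * a) with hz
  have hzs : IsSelfAdjoint z := by
    rw [IsSelfAdjoint, hz, star_smul, star_sub, star_mul, star_mul, hy.star_eq,
      ha.isSelfAdjoint.star_eq]
    simp only [Complex.star_def, Complex.conj_I, neg_smul, smul_sub]
    abel
  set g := ψ z with hg
  have hM : 0 < ‖a‖ := norm_pos_iff.2 ha.isUnit.ne_zero
  set Y := ‖y‖ ^ 2 + 1 with hY
  have hY0 : 0 < Y := by positivity
  set κ := ‖a‖⁻¹ * (g ^ 2 / (64 * Y)) with hκ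
  have hκ0 : 0 < κ := by positivity
  set ε := min (g / 4) (min (1 / 16) (κ / 16)) with hε
  have hε0 : 0 < ε := lt_min (by positivity) (lt_min (by norm_num) (by positivity))
  have hε1 : ε ≤ g / 4 := min_le_left _ _
  have hε2 : ε ≤ 1 / 16 := (min_le_right _ _).trans (min_le_left _ _)
  have hε3 : ε ≤ κ / 16 := (min_le_right _ _).trans (min_le_right _ _)
  obtain ⟨α, β, γ, h1, h2⟩ := expose a z 0 ha.isSelfAdjoint hzs (IsSelfAdjoint.zero A)
    0 1 0 g ε hcon hε0 ψ hψ (by linarith)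
  obtain ⟨d, hd, h3⟩ := h2 1
  obtain ⟨φ0, hφ0, hn0⟩ := exists_pure_norming d hd
  have hα : 1 - ε ≤ α := by
    have b1 := abs_le.1 (h3 φ0 hφ0.st (by linarith)).1
    have b2 := hφ0.mono ha1
    rw [hφ0.one] at b2
    linarith
  set e := d - (‖d‖ - 1) • (1 : A) with he
  have hes : IsSelfAdjoint e :=
    (IsSelfAdjoint.of_nonneg hd).sub ((IsSelfAdjoint.all _).smul (IsSelfAdjoint.one A))
  have hk0 : e⁺ ≠ 0 := by
    intro h0
    have := hφ0.mono ((CFC.posPart_eq_zero_iff e hes).1 h0)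
    rw [he, map_sub, hφ0.sc, map_zero] at this
    linarith
  have hr : 0 < α - 3 * ε := by linarith
  obtain ⟨w, hw, hw0, hwk, hwu⟩ := h.weak_unit hr (show α - 3 * ε < α - 2 * ε by linarith)
    (CFC.posPart_nonneg e) hk0
  obtain ⟨φ, hφ, hn⟩ := exists_pure_norming w hw
  have c1 := supp hφ hw hw0 hwk hn
  have c2 : φ e = φ e⁺ - φ e⁻ := by rw [← map_sub, CFC.posPart_sub_negPart e hes]
  have c3 := hφ.st.1 _ (CFC.posPart_nonneg e)
  have c4 : φ e = φ d - (‖d‖ - 1) := by rw [he, map_sub, hφ.sc]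
  obtain ⟨d1, d2, -⟩ := h3 φ hφ.st (by linarith)
  have d1 := abs_le.1 d1
  have d2 := abs_le.1 d2
  have hc : IsSelfAdjoint (a - α • (1 : A)) :=
    ha.isSelfAdjoint.sub ((IsSelfAdjoint.all _).smul (IsSelfAdjoint.one A))
  have v1 := variance hφ hc hy (-(g / (8 * Y)))
  have v2 : (a - α • (1 : A)) * y - y * (a - α • (1 : A)) = a * y - y * a := by
    simp only [sub_mul, mul_sub, smul_mul_assoc, mul_smul_comm, one_mul, mul_one]
    abel
  rw [v2, ← hz] at v1
  have v3 : g ^ 2 / (64 * Y) ≤ φ ((a - α • (1 : A)) * (a - α • (1 : A))) := by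
    set q := g / (8 * Y) with hq
    have hq0 : 0 < q := by positivity
    have q1 : q * Y = g / 8 := by rw [hq]; field_simp
    have q2 : g ^ 2 / (64 * Y) = q * g / 8 := by rw [hq]; field_simp; norm_num
    have q3 : g / 4 ≤ φ z := by linarith
    have q4 : q * (g / 4) ≤ q * φ z := mul_le_mul_of_nonneg_left q3 hq0.le
    have q5 : q ^ 2 * ‖y‖ ^ 2 ≤ q * (g / 8) := by
      rw [← q1, hY]; nlinarith [sq_nonneg q]
    rw [q2]
    nlinarith
  have v4 := inv_lower hφ ha hM α
  have v5 : κ ≤ ‖a‖⁻¹ * φ ((a - α • (1 : A)) * (a - α • (1 : A))) :=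
    mul_le_mul_of_nonneg_left v3 (by positivity)
  have v6 : α - ε + κ ≤ α ^ 2 * φ (Ring.inverse a) := by linarith
  have v7 : (α - 3 * ε)⁻¹ < φ (Ring.inverse a) := by
    rw [inv_lt_iff_one_lt_mul₀ hr]
    by_contra hc2
    push Not at hc2
    have w1 := mul_le_mul_of_nonneg_left hc2 (sq_nonneg α)
    have w2 := mul_le_mul_of_nonneg_right v6 hr.le
    have w3 : 4 * ε * α ≤ κ / 4 * α := mul_le_mul_of_nonneg_right (by linarith) (by linarith)
    have w4 : 3 * ε * κ ≤ 3 / 16 * κ := mul_le_mul_of_nonneg_right (by linarith) hκ0.le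
    have w5 : 15 / 16 * κ ≤ α * κ := mul_le_mul_of_nonneg_right (by linarith) hκ0.le
    nlinarith [sq_nonneg ε]
  have v8 : (α - 2 * ε)⁻¹ < φ (Ring.inverse a) :=
    lt_of_le_of_lt (inv_anti₀ hr (by linarith)) v7
  have f1 := h.val hφ hr (by linarith) v7
  have f2 := h.val hφ (show 0 < α - 2 * ε by linarith) (by linarith) v8
  have f3 := hφ.mono hwu
  rw [map_sub, f1, f2, hn] at f3
  have := norm_pos_iff.2 hw0
  linarith

lemma Infl.central [Nontrivial A] {F G : A → A} (h : Infl F G) {y : A} (hy : IsSelfAdjoint y) :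
    F 1 * y = y * F 1 := by
  have ha := h.Fp _ (isStrictlyPositive_one (A := A))
  have hzs : IsSelfAdjoint (Complex.I • (F 1 * y - y * F 1)) := by
    rw [IsSelfAdjoint, star_smul, star_sub, star_mul, star_mul, hy.star_eq,
      ha.isSelfAdjoint.star_eq]
    simp only [Complex.star_def, Complex.conj_I, neg_smul, smul_sub]
    abel
  have e1 := sep _ hzs fun ψ hψ => h.key hy ψ hψ
  have e2 := sep _ hzs.neg fun ψ hψ => by
    have := h.key hy.neg ψ hψ
    convert this using 2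
    simp only [mul_neg, neg_mul, smul_sub, smul_neg]
    abel
  have e3 : Complex.I • (F 1 * y - y * F 1) = 0 := le_antisymm e1 (neg_nonpos.1 e2)
  exact sub_eq_zero.1 ((smul_eq_zero.1 e3).resolve_left Complex.I_ne_zero)

theorem main (op : A → A → A)
    (h1 : ∀ a b : A, IsStrictlyPositive a → IsStrictlyPositive b → IsStrictlyPositive (op a b))
    (h2 : ∀ a b c : A, IsStrictlyPositive a → IsStrictlyPositive b → IsStrictlyPositive c →
      op (op a b) c = op a (op b c))
    (h3 : ∀ a b : A, IsStrictlyPositive a → IsStrictlyPositive b → op a b = op b a)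
    (e : A) (he : IsStrictlyPositive e) (h4 : ∀ a : A, IsStrictlyPositive a → op e a = a)
    (h5 : ∀ a : A, IsStrictlyPositive a → ∃ b : A, IsStrictlyPositive b ∧ op a b = e)
    (h6 : ∀ a b c : A, IsStrictlyPositive a → IsStrictlyPositive b → IsStrictlyPositive c →
      a ≤ b → op a c ≤ op b c) (x y : A) : x * y = y * x := by
  rcases subsingleton_or_nontrivial A with hs | hs
  · exact Subsingleton.elim _ _
  set s := CFC.sqrt e with hsdef
  have hss : s * s = e := CFC.sqrt_mul_sqrt_self e he.nonneg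
  have hsu : IsUnit s := ((Commute.refl s).isUnit_mul_iff.1 (hss ▸ he.isUnit)).1
  have hsp : IsStrictlyPositive s := ⟨CFC.sqrt_nonneg e, hsu⟩
  have htp := hsp.ringInverse
  set t := Ring.inverse s with ht
  have e1 : s * t = 1 := Ring.mul_inverse_cancel s hsu
  have e2 : t * s = 1 := Ring.inverse_mul_cancel s hsu
  have cs : ∀ x, IsStrictlyPositive x → IsStrictlyPositive (s * x * s) := fun x hx =>
    ⟨hsp.isSelfAdjoint.conjugate_nonneg hx.nonneg, (hsu.mul hx.isUnit).mul hsu⟩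
  have ct : ∀ x, IsStrictlyPositive x → IsStrictlyPositive (t * x * t) := fun x hx =>
    ⟨htp.isSelfAdjoint.conjugate_nonneg hx.nonneg, (htp.isUnit.mul hx.isUnit).mul htp.isUnit⟩
  have st : ∀ x, s * (t * x * t) * s = x := fun x => by
    rw [← mul_assoc, ← mul_assoc, e1, one_mul, mul_assoc, e2, mul_one]
  have ts : ∀ x, t * (s * x * s) * t = x := fun x => by
    rw [← mul_assoc, ← mul_assoc, e2, one_mul, mul_assoc, e1, mul_one]
  have big : ∀ a : A, 1 ≤ a → ∀ y, IsSelfAdjoint y → a * y = y * a := by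
    intro a ha y hy
    have hap : IsStrictlyPositive a := isStrictlyPositive_one.of_le ha
    obtain ⟨b, hb, hab⟩ := h5 _ (cs a hap)
    have hI : Infl (fun x => t * op (s * a * s) (s * x * s) * t)
        (fun x => t * op b (s * x * s) * t) := by
      refine ⟨fun x hx => ct _ (h1 _ _ (cs a hap) (cs x hx)), fun x hx => ct _ (h1 _ _ hb (cs x hx)),
        fun x y hx hy hxy => ?_, fun x y hx hy hxy => ?_, fun x hx => ?_, fun x hx => ?_,
        fun x hx => ?_⟩
      · apply htp.isSelfAdjoint.conjugate_le_conjugate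
        rw [h3 _ _ (cs a hap) (cs x hx), h3 _ _ (cs a hap) (cs y hy)]
        exact h6 _ _ _ (cs x hx) (cs y hy) (cs a hap) (hsp.isSelfAdjoint.conjugate_le_conjugate hxy)
      · apply htp.isSelfAdjoint.conjugate_le_conjugate
        rw [h3 _ _ hb (cs x hx), h3 _ _ hb (cs y hy)]
        exact h6 _ _ _ (cs x hx) (cs y hy) hb (hsp.isSelfAdjoint.conjugate_le_conjugate hxy)
      · rw [st, ← h2 _ _ _ (cs a hap) hb (cs x hx), hab, h4 _ (cs x hx), ts]
      · rw [st, ← h2 _ _ _ hb (cs a hap) (cs x hx), h3 _ _ hb (cs a hap), hab, h4 _ (cs x hx), ts]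
      · have a1 : e ≤ s * a * s := by
          have := hsp.isSelfAdjoint.conjugate_le_conjugate ha
          rwa [mul_one, hss] at this
        have a2 := h6 _ _ _ he (cs a hap) (cs x hx) a1
        rw [h4 _ (cs x hx)] at a2
        have := htp.isSelfAdjoint.conjugate_le_conjugate a2
        rwa [ts] at this
    have := hI.central hy
    rwa [mul_one, hss, h3 _ _ (cs a hap) he, h4 _ (cs a hap), ts] at this
  have sa : ∀ a y : A, IsSelfAdjoint a → IsSelfAdjoint y → a * y = y * a := by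
    intro a y ha hy
    have b1 : 1 ≤ a + (‖a‖ + 1) • (1 : A) := by
      have := sa_le (-a) ha.neg
      rw [norm_neg] at this
      rw [← sub_nonneg] at this ⊢
      convert this using 1
      module
    have := big _ b1 y hy
    simpa [add_mul, mul_add] using this
  rw [← realPart_add_I_smul_imaginaryPart x, ← realPart_add_I_smul_imaginaryPart y]
  simp only [add_mul, mul_add, smul_mul_assoc, mul_smul_comm]
  rw [sa _ _ (realPart x).2 (realPart y).2, sa _ _ (realPart x).2 (imaginaryPart y).2,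
    sa _ _ (imaginaryPart x).2 (realPart y).2, sa _ _ (imaginaryPart x).2 (imaginaryPart y).2]
  simp only [smul_add]
  abel

end Pool.Agent.H31.OrdGrp
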