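import Mathlib

open MeasureTheory Filter Topology Set

namespace Pool.Agent.Lib.helper31.Osc

noncomputable def k (x : ℝ) : ℝ := if Int.fract x < 1/2 then 1 else -1

lemma k_meas : Measurable k := by
  unfold k
  exact Measurable.ite (measurableSet_lt measurable_fract measurable_const) measurable_const
    measurable_const

lemma k_cases (x : ℝ) : k x = 1 ∨ k x = -1 := by unfold k; split_ifs <;> simp

lemma k_abs (x : ℝ) : |k x| = 1 := by rcases k_cases x with h | h <;> simp [h]

lemma k_half (x : ℝ) : k (x + 1/2) = -k x := by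
  have h0 := Int.fract_nonneg x
  have h1 := Int.fract_lt_one x
  unfold k
  by_cases h : Int.fract x < 1/2
  · have : Int.fract (x + 1/2) = Int.fract x + 1/2 := by
      rw [Int.fract_eq_iff]
      exact ⟨by linarith, by linarith, ⌊x⌋, by rw [Int.fract]; ring⟩
    rw [this, if_neg (by linarith), if_pos h]
  · have : Int.fract (x + 1/2) = Int.fract x - 1/2 := by
      rw [Int.fract_eq_iff]
      exact ⟨by linarith, by linarith, ⌊x⌋ + 1, by rw [Int.fract]; push_cast; ring⟩
    rw [this, if_pos (by linarith), if_neg h]; simp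

noncomputable def K (n : ℕ) (z : ℝ × ℝ) : ℝ := k (((n:ℝ) + 1) * (z.1 - z.2))

lemma K_meas (n : ℕ) : Measurable (K n) := k_meas.comp (by fun_prop)
lemma K_abs (n : ℕ) (z : ℝ × ℝ) : |K n z| = 1 := k_abs _
lemma K_cases (n : ℕ) (z : ℝ × ℝ) : K n z = 1 ∨ K n z = -1 := k_cases _

lemma K_int {μ : Measure (ℝ × ℝ)} (n : ℕ) {g : ℝ × ℝ → ℝ} (hg : Integrable g μ) :
    Integrable (fun z => K n z * g z) μ :=
  hg.bdd_mul (c := 1) (K_meas n).aestronglyMeasurable
    (Eventually.of_forall fun z => (K_abs n z).le)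

lemma weak0 (φ : ℝ × ℝ → ℝ) (hφ : ContDiff ℝ 1 φ) (hc : HasCompactSupport φ) (v : ℝ × ℝ)
    (f : ℝ × ℝ → ℝ) (hf : ∀ z (t : ℝ), f (z + t • v) = f z)
    (hi : ∀ g : ℝ × ℝ → ℝ, Integrable g → Integrable (fun z => f z * g z)) :
    ∫ z, f z * fderiv ℝ φ z v = 0 := by
  have i1 : Integrable (fun z => fderiv ℝ φ z v) :=
    ((hφ.continuous_fderiv one_ne_zero).clm_apply continuous_const).integrable_of_hasCompactSupport
      (hc.fderiv_apply ℝ v)
  have := integral_bilinear_hasLineDerivAt_right_eq_neg_left_of_integrable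
    (μ := (volume : Measure (ℝ × ℝ))) (f := f) (f' := fun _ => (0:ℝ)) (g := φ)
    (g' := fun z => fderiv ℝ φ z v) (v := v) (B := ContinuousLinearMap.mul ℝ ℝ)
    (by simp) (by simpa using hi _ i1)
    (by simpa using hi _ (hφ.continuous.integrable_of_hasCompactSupport hc))
    (fun x _ => by
      unfold HasLineDerivAt
      simp only [hf]; exact hasDerivAt_const _ _)
    (fun x _ => ((hφ.differentiable one_ne_zero) x).hasFDerivAt.hasLineDerivAt v)
  simpa using this

lemma weak (n : ℕ) (φ : ℝ × ℝ → ℝ) (hφ : ContDiff ℝ 1 φ) (hc : HasCompactSupport φ)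
    (hs : tsupport φ ⊆ {z : ℝ × ℝ | 0 < z.2}) (a b c : ℝ) (A B : ℝ × ℝ → ℝ)
    (hA : ∀ z, A z = a + c * K n z) (hB : ∀ z, B z = b + c * K n z) :
    ∫ z in {z : ℝ × ℝ | 0 < z.2}, (A z * fderiv ℝ φ z (0, 1) + B z * fderiv ℝ φ z (1, 0)) = 0 := by
  rw [setIntegral_eq_integral_of_forall_compl_eq_zero (fun z hz => by
    rw [fderiv_of_notMem_tsupport ℝ (fun h => hz (hs h))]; simp)]
  have i1 : ∀ v, Integrable (fun z => fderiv ℝ φ z v) := fun v =>
    ((hφ.continuous_fderiv one_ne_zero).clm_apply continuous_const).integrable_of_hasCompactSupport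
      (hc.fderiv_apply ℝ v)
  have e : ∀ z, A z * fderiv ℝ φ z (0, 1) + B z * fderiv ℝ φ z (1, 0)
      = 1 * fderiv ℝ φ z (b, a) + c * (K n z * fderiv ℝ φ z (1, 1)) := fun z => by
    have e1 : ((b, a) : ℝ × ℝ) = a • (0, 1) + b • (1, 0) := by simp
    have e2 : ((1, 1) : ℝ × ℝ) = (0, 1) + (1, 0) := by simp
    rw [hA, hB, e1, e2, map_add, map_add, map_smul, map_smul]; simp; ring
  simp only [e]
  rw [integral_add ((i1 _).const_mul 1) ((K_int n (i1 _)).const_mul c), integral_const_mul c,
    weak0 φ hφ hc (b, a) (fun _ => 1) (fun _ _ => rfl) (fun g hg => hg.const_mul 1),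
    weak0 φ hφ hc (1, 1) (K n) (fun z t => by simp [K]) (fun g hg => K_int n hg)]
  simp

lemma conv_c (g : ℝ × ℝ → ℝ) (hg : Continuous g) (hc : HasCompactSupport g) :
    Tendsto (fun n => ∫ z, K n z * g z) atTop (𝓝 0) := by
  have gi : Integrable g := hg.integrable_of_hasCompactSupport hc
  have co : ContinuousOn (fun p : ℝ => ∫ z : ℝ × ℝ, |g z - g (z + (p, 0))|) (Icc 0 1) := by
    refine continuousOn_integral_of_compact_support (k := Metric.cthickening 1 (tsupport g))
      hc.isCompact.cthickening (by fun_prop) fun p x hp hx => ?_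
    have h1 : g x = 0 := image_eq_zero_of_notMem_tsupport fun h =>
      hx (Metric.self_subset_cthickening _ h)
    have h2 : g (x + (p, 0)) = 0 := image_eq_zero_of_notMem_tsupport fun h =>
      hx (Metric.mem_cthickening_of_dist_le _ _ _ _ h (by
        simp [Prod.dist_eq, abs_of_nonneg hp.1, hp.2]))
    simp [h1, h2]
  have t1 : Tendsto (fun n : ℕ => 1 / (2 * ((n:ℝ) + 1))) atTop (𝓝[Icc 0 1] 0) := by
    refine tendsto_nhdsWithin_iff.2 ⟨?_, Eventually.of_forall fun n => ⟨by positivity, ?_⟩⟩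
    · have := tendsto_one_div_add_atTop_nhds_zero_nat (𝕜 := ℝ) |>.const_mul (1/2)
      simp only [mul_zero] at this
      refine this.congr fun n => ?_
      field_simp
    · rw [div_le_one (by positivity)]; linarith [(Nat.cast_nonneg n : (0:ℝ) ≤ n)]
  have t2 := (co 0 (by simp)).tendsto.comp t1
  simp only [Prod.mk_zero_zero, add_zero, sub_self, abs_zero, integral_zero] at t2
  refine squeeze_zero_norm (fun n => ?_) t2
  set a : ℝ × ℝ := (1 / (2 * ((n:ℝ) + 1)), 0) with ha
  have gi2 : Integrable (fun z => g (z + a)) := gi.comp_add_right a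
  have e1 : ∫ z, K n z * g (z + a) = -∫ z, K n z * g z := by
    rw [← integral_neg, ← integral_add_right_eq_self (fun z => -(K n z * g z)) a]
    refine integral_congr_ae (Eventually.of_forall fun z => ?_)
    have : K n (z + a) = -K n z := by
      unfold K
      rw [← k_half]; congr 1
      simp [ha]; field_simp; ring
    simp only [this]; ring
  have e2 : ∫ z, K n z * (g z - g (z + a)) = 2 * ∫ z, K n z * g z := by
    simp only [mul_sub]
    rw [integral_sub (K_int n gi) (K_int n gi2), e1]; ring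
  have e3 : ‖∫ z, K n z * (g z - g (z + a))‖ ≤ ∫ z, |g z - g (z + a)| := by
    refine (norm_integral_le_integral_norm _).trans (le_of_eq ?_)
    simp [K_abs]
  rw [e2, norm_mul] at e3
  simp only [Function.comp]
  have := norm_nonneg (∫ z, K n z * g z)
  norm_num at e3 ⊢
  simp only [ha] at e3
  norm_num at e3
  linarith [abs_nonneg (∫ z, K n z * g z)]

lemma conv (g : ℝ × ℝ → ℝ) (hg : Integrable g) :
    Tendsto (fun n => ∫ z, K n z * g z) atTop (𝓝 0) := by
  rw [Metric.tendsto_atTop]
  intro ε hε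
  obtain ⟨g', c, h, co, gi⟩ := hg.exists_hasCompactSupport_integral_sub_le (half_pos hε)
  obtain ⟨N, hN⟩ := Metric.tendsto_atTop.1 (conv_c g' co c) _ (half_pos hε)
  refine ⟨N, fun n hn => ?_⟩
  have a := hN n hn
  have e : ∫ z, K n z * g z = (∫ z, K n z * (g z - g' z)) + ∫ z, K n z * g' z := by
    simp only [mul_sub]
    rw [integral_sub (K_int n hg) (K_int n gi)]; ring
  have b : ‖∫ z, K n z * (g z - g' z)‖ ≤ ε / 2 := by
    refine (norm_integral_le_integral_norm _).trans (le_trans (le_of_eq ?_) h)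
    simp [K_abs]
  rw [dist_zero_right] at a ⊢
  rw [e]
  linarith [norm_add_le (∫ z, K n z * (g z - g' z)) (∫ z, K n z * g' z)]

lemma conv_s (s : Set (ℝ × ℝ)) (hs : MeasurableSet s) (g : ℝ × ℝ → ℝ)
    (hg : Integrable g (volume.restrict s)) (a c : ℝ) :
    Tendsto (fun n => ∫ z in s, (a + c * K n z) * g z) atTop (𝓝 (∫ z in s, a * g z)) := by
  have h := (conv _ ((integrable_indicator_iff hs).2 hg)).const_mul c
  have := h.const_add (∫ z in s, a * g z)
  simp only [mul_zero, add_zero] at this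
  refine this.congr fun n => ?_
  have e : (fun z => K n z * s.indicator g z) = s.indicator (fun z => K n z * g z) := by
    ext z; by_cases hz : z ∈ s <;> simp [hz]
  rw [e, integral_indicator hs, ← integral_const_mul,
    ← integral_add (hg.const_mul a) ((K_int n hg).const_mul c)]
  congr 1; ext z; ring

end Pool.Agent.Lib.helper31.Osc
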