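import Mathlib

/-! Lipschitz extension into `p`-Banach spaces: definitions and the three-point example. -/

namespace Pool.Agent.Lib.helper31.PExt

open Set Filter Topology

/-- `ν` is a complete `p`-norm on the real vector space `Z`. -/
structure IsPBanach (p : ℝ) {Z : Type} [AddCommGroup Z] [Module ℝ Z] (ν : Z → ℝ) : Prop where
  nonneg : ∀ x, 0 ≤ ν x
  pos : ∀ x, x ≠ 0 → 0 < ν x
  smul : ∀ (a : ℝ) x, ν (a • x) = |a| * ν x
  add : ∀ x y, ν (x + y) ^ p ≤ ν x ^ p + ν y ^ p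
  complete : ∀ u : ℕ → Z, (∀ ε : ℝ, 0 < ε → ∃ N, ∀ i ≥ N, ∀ j ≥ N, ν (u i - u j) < ε) →
    ∃ l, ∀ ε : ℝ, 0 < ε → ∃ N, ∀ i ≥ N, ν (u i - l) < ε

/-- `Lip f = sup_{x ≠ y} ν (f x - f y) / d(x, y)`. -/
noncomputable def Lip {N Z : Type} [MetricSpace N] [AddCommGroup Z] (ν : Z → ℝ) (f : N → Z) :
    ENNReal :=
  ⨆ (x : N) (y : N) (_ : x ≠ y), ENNReal.ofReal (ν (f x - f y) / dist x y)

/-- The `p`-trace `t_p(N, M)` for `N` embedded in `M` by `j`. -/
noncomputable def trace (p : ℝ) {N M : Type} [MetricSpace N] [MetricSpace M] (j : N → M) :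
    ENNReal :=
  sInf {C | ∀ (Z : Type) [AddCommGroup Z] [Module ℝ Z] (ν : Z → ℝ), IsPBanach p ν →
    ∀ f : N → Z, Lip ν f < ⊤ → ∃ F : M → Z, (∀ x, F (j x) = f x) ∧ Lip ν F ≤ C * Lip ν f}

/-- The absolute `p`-extendability constant `ae_p(N)`. -/
noncomputable def ae (p : ℝ) (N : Type) [MetricSpace N] : ENNReal :=
  ⨆ (M : Type) (_ : MetricSpace M) (j : N → M) (_ : Isometry j), trace p j

/-- The limit as `p → 0⁺`. -/
noncomputable def lim0 (g : ℝ → ENNReal) : ENNReal := limUnder (𝓝[>] (0 : ℝ)) g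

theorem Lip_le_iff {N Z : Type} [MetricSpace N] [AddCommGroup Z] {ν : Z → ℝ} {f : N → Z} {L : ℝ}
    (hL : 0 ≤ L) : Lip ν f ≤ ENNReal.ofReal L ↔ ∀ x y, x ≠ y → ν (f x - f y) ≤ L * dist x y := by
  simp only [Lip, iSup_le_iff, ENNReal.ofReal_le_ofReal_iff hL]
  refine forall₃_congr fun x y h => div_le_iff₀ (dist_pos.2 h)

theorem IsPBanach.mono {p q : ℝ} (hq : 0 < q) (hqp : q ≤ p) {Z : Type} [AddCommGroup Z]
    [Module ℝ Z] {ν : Z → ℝ} (h : IsPBanach p ν) : IsPBanach q ν := by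
  refine ⟨h.nonneg, h.pos, h.smul, fun x y => ?_, h.complete⟩
  have hp : 0 < p := hq.trans_le hqp
  have e : ∀ z, ν z ^ q = (ν z ^ p) ^ (q / p) := fun z => by
    rw [← Real.rpow_mul (h.nonneg z), mul_div_cancel₀ _ hp.ne']
  rw [e, e, e]
  refine (Real.rpow_le_rpow (Real.rpow_nonneg (h.nonneg _) _) (h.add x y)
    (by positivity)).trans ?_
  exact Real.rpow_add_le_add_rpow (Real.rpow_nonneg (h.nonneg _) _)
    (Real.rpow_nonneg (h.nonneg _) _) (by positivity) ((div_le_one hp).2 hqp)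

theorem trace_anti {N M : Type} [MetricSpace N] [MetricSpace M] (j : N → M) {p q : ℝ}
    (hq : 0 < q) (hqp : q ≤ p) : trace p j ≤ trace q j :=
  sInf_le_sInf fun _ hC Z _ _ ν hν => hC Z ν (hν.mono hq hqp)

theorem tendsto_lim0 {g : ℝ → ENNReal} (hg : ∀ p q, 0 < q → q ≤ p → g p ≤ g q) :
    Tendsto g (𝓝[>] 0) (𝓝 (lim0 g)) :=
  tendsto_nhds_limUnder ⟨_, AntitoneOn.tendsto_nhdsWithin_Ioo_right (f := g) (y := 1)
    (nonempty_Ioo.2 one_pos) (fun _ ha _ _ hab => hg _ _ ha.1 hab) (OrderTop.bddAbove _)⟩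

theorem retr {M : Type} [MetricSpace M] (m : ℕ) : ∀ A : Set M, A.Finite → A.Nonempty →
    Aᶜ.encard ≤ m → ∃ r : M → M, (∀ x, r x ∈ A) ∧ (∀ x ∈ A, r x = x) ∧
      (∀ x y, r x ≠ r y → dist x (r x) + dist y (r y) ≤ m * dist x y) ∧
      ∀ x y, r x ≠ r y → y ∉ A → ∃ y', y' ∉ A ∧ dist y' (r y) ≤ dist x y := by
  classical
  have base : ∀ (m : ℕ) (A : Set M), Aᶜ = ∅ → ∃ r : M → M, (∀ x, r x ∈ A) ∧ (∀ x ∈ A, r x = x) ∧
      (∀ x y, r x ≠ r y → dist x (r x) + dist y (r y) ≤ m * dist x y) ∧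
      ∀ x y, r x ≠ r y → y ∉ A → ∃ y', y' ∉ A ∧ dist y' (r y) ≤ dist x y := by
    intro m A hA
    have : ∀ x, x ∈ A := fun x => by
      by_contra h
      exact (hA ▸ h : x ∈ (∅ : Set M))
    exact ⟨id, this, fun _ _ => rfl, fun x y _ => by simp; positivity,
      fun x y _ h => absurd (this y) h⟩
  induction m with
  | zero => exact fun A _ _ h => base 0 A (by simpa using h)
  | succ m ih =>
    intro A hA hne hc
    rcases Aᶜ.eq_empty_or_nonempty with h0 | h0
    · exact base _ A h0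
    have hfin : Aᶜ.Finite := finite_of_encard_le_coe hc
    obtain ⟨⟨z, a⟩, ⟨hz, ha⟩, hmin⟩ := exists_min_image (Aᶜ ×ˢ A) (fun q => dist q.1 q.2)
      (hfin.prod hA) (h0.prod hne)
    have hmin' : ∀ x, x ∉ A → ∀ y ∈ A, dist z a ≤ dist x y := fun x hx y hy =>
      hmin (x, y) ⟨hx, hy⟩
    obtain ⟨r, r1, r2, r3, r4⟩ := ih (insert z A) (hA.insert z) (insert_nonempty _ _) (by
      have e : (insert z A)ᶜ = Aᶜ \ {z} := by ext; simp [and_comm]
      have := encard_sdiff_singleton_add_one hz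
      rw [← e] at this
      rw [← this] at hc
      push_cast at hc
      exact (ENat.add_le_add_iff_right (by simp)).1 hc)
    have hzA : z ∉ A := hz
    have key : ∀ x y, r x = z → r y ≠ z → dist z a ≤ dist x y := by
      intro x y hx hy
      have hxA : x ∉ A := fun h => hzA (by rw [← hx, r2 x (Or.inr h)]; exact h)
      by_cases hyA : y ∈ A
      · exact hmin' x hxA y hyA
      · obtain ⟨y', h1, h2⟩ := r4 x y (by rw [hx]; exact hy.symm) (by
          rintro (h | h)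
          · exact hy (by rw [h]; exact r2 z (Or.inl rfl))
          · exact hyA h)
        exact (hmin' y' (fun h => h1 (Or.inr h)) _ ((r1 y).resolve_left hy)).trans h2
    refine ⟨fun x => if r x = z then a else r x, fun x => ?_, fun x hx => ?_, fun x y h => ?_,
      fun x y h hy => ?_⟩
    · simp only
      split_ifs with h
      · exact ha
      · exact (r1 x).resolve_left h
    · have := r2 x (Or.inr hx)
      simp only [this]
      rw [if_neg (fun h : x = z => hzA (h ▸ hx))]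
    · have hr : r x ≠ r y := fun e => h (by simp only [e])
      have h3 := r3 x y hr
      have h4 := dist_nonneg (x := x) (y := y)
      push_cast
      by_cases hx : r x = z
      · have hy : r y ≠ z := fun e => hr (hx.trans e.symm)
        have := key x y hx hy
        have := dist_triangle x z a
        simp only [hx, hy, if_true, if_false] at h3 ⊢
        linarith
      · by_cases hy : r y = z
        · have := key y x hy hx
          have := dist_triangle y z a
          rw [dist_comm y x] at *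
          simp only [hx, hy, if_true, if_false] at h3 ⊢
          linarith
        · simp only [hx, hy, if_false]
          linarith
    · have hr : r x ≠ r y := fun e => h (by simp only [e])
      by_cases hy' : r y = z
      · refine ⟨z, hzA, ?_⟩
        simp only [hy', if_true]
        rw [dist_comm x y]
        exact key y x hy' (fun e => hr (e.trans hy'.symm))
      · obtain ⟨y', h1, h2⟩ := r4 x y hr (by
          rintro (h | h)
          · exact hy' (by rw [h]; exact r2 z (Or.inl rfl))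
          · exact hy h)
        refine ⟨y', fun h => h1 (Or.inr h), ?_⟩
        simp only [hy', if_false]
        exact h2

theorem trace_le {N M : Type} [MetricSpace N] [MetricSpace M] [Finite N] [Nonempty N] {j : N → M}
    (hj : Isometry j) {m : ℕ} (hm : (range j)ᶜ.encard ≤ m) (p : ℝ) : trace p j ≤ m + 1 := by
  refine sInf_le fun Z _ _ ν hν f hf => ?_
  obtain ⟨r, r1, r2, r3, -⟩ := retr m (range j) (finite_range j) (range_nonempty j) hm
  choose g hg using r1
  refine ⟨fun x => f (g x), fun x => ?_, ?_⟩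
  · have : g (j x) = x := hj.injective ((hg _).trans (r2 _ ⟨x, rfl⟩))
    simp only [this]
  · have e : Lip ν f = ENNReal.ofReal (Lip ν f).toReal := (ENNReal.ofReal_toReal hf.ne).symm
    have h1 := (Lip_le_iff ENNReal.toReal_nonneg).1 e.le
    have e2 : ((m : ENNReal) + 1) * Lip ν f = ENNReal.ofReal ((m + 1) * (Lip ν f).toReal) := by
      rw [ENNReal.ofReal_mul (by positivity), ← e, ENNReal.ofReal_add (by positivity) zero_le_one]
      simp
    rw [e2, Lip_le_iff (by positivity)]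
    intro x y _
    by_cases h : g x = g y
    · have h0 : ν 0 = 0 := by simpa using hν.smul 0 0
      simp only [h, sub_self, h0]
      positivity
    · have h2 := r3 x y (fun e => h (hj.injective (by rw [hg, hg, e])))
      have h3 : dist (g x) (g y) ≤ (m + 1) * dist x y := by
        rw [← hj.dist_eq, hg, hg]
        have := dist_triangle4 (r x) x y (r y)
        rw [dist_comm (r x) x] at this
        linarith
      refine (h1 _ _ h).trans ?_
      rw [mul_comm ((m : ℝ) + 1), mul_assoc]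
      gcongr

/-- A `p`-norm on the plane with three distinguished directions. -/
noncomputable def nu (p : ℝ) (v : ℝ × ℝ) : ℝ :=
  ((|v.1| ^ p + |v.2| ^ p + |v.1 + v.2| ^ p) / 2) ^ p⁻¹

theorem abs_add_rpow {p : ℝ} (hp : 0 < p) (hp1 : p ≤ 1) (a b : ℝ) :
    |a + b| ^ p ≤ |a| ^ p + |b| ^ p :=
  (Real.rpow_le_rpow (abs_nonneg _) (abs_add_le a b) hp.le).trans
    (Real.rpow_add_le_add_rpow (abs_nonneg _) (abs_nonneg _) hp.le hp1)

theorem nu_rpow {p : ℝ} (hp : 0 < p) (v : ℝ × ℝ) :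
    nu p v ^ p = (|v.1| ^ p + |v.2| ^ p + |v.1 + v.2| ^ p) / 2 :=
  Real.rpow_inv_rpow (by positivity) hp.ne'

theorem nu_nonneg (p : ℝ) (v : ℝ × ℝ) : 0 ≤ nu p v := by unfold nu; positivity

theorem le_nu {p : ℝ} (hp : 0 < p) (hp1 : p ≤ 1) (v : ℝ × ℝ) : ‖v‖ ≤ nu p v := by
  rw [Prod.norm_def, max_le_iff]
  constructor
  · rw [← Real.rpow_le_rpow_iff (norm_nonneg _) (nu_nonneg _ _) hp, nu_rpow hp, Real.norm_eq_abs]
    have := abs_add_rpow hp hp1 (v.1 + v.2) (-v.2)
    rw [add_neg_cancel_right, abs_neg] at this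
    linarith
  · rw [← Real.rpow_le_rpow_iff (norm_nonneg _) (nu_nonneg _ _) hp, nu_rpow hp, Real.norm_eq_abs]
    have := abs_add_rpow hp hp1 (v.1 + v.2) (-v.1)
    rw [add_neg_cancel_comm, abs_neg] at this
    linarith

theorem nu_le {p : ℝ} (hp : 0 < p) (hp1 : p ≤ 1) (v : ℝ × ℝ) : nu p v ≤ 2 ^ p⁻¹ * ‖v‖ := by
  rw [← Real.rpow_le_rpow_iff (nu_nonneg _ _) (by positivity) hp, nu_rpow hp,
    Real.mul_rpow (by positivity) (norm_nonneg _), Real.rpow_inv_rpow (by norm_num) hp.ne']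
  have h1 := abs_add_rpow hp hp1 v.1 v.2
  have h2 : |v.1| ^ p ≤ ‖v‖ ^ p := Real.rpow_le_rpow (abs_nonneg _) (norm_fst_le v) hp.le
  have h3 : |v.2| ^ p ≤ ‖v‖ ^ p := Real.rpow_le_rpow (abs_nonneg _) (norm_snd_le v) hp.le
  linarith

theorem nu_banach {p : ℝ} (hp : 0 < p) (hp1 : p ≤ 1) : IsPBanach p (nu p) := by
  refine ⟨nu_nonneg p, fun x hx => (norm_pos_iff.2 hx).trans_le (le_nu hp hp1 x), fun a x => ?_,
    fun x y => ?_, fun u hu => ?_⟩
  · refine (Real.rpow_left_inj (nu_nonneg _ _) (mul_nonneg (abs_nonneg _) (nu_nonneg _ _))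
      hp.ne').1 ?_
    rw [Real.mul_rpow (abs_nonneg _) (nu_nonneg _ _), nu_rpow hp, nu_rpow hp]
    simp only [Prod.smul_fst, Prod.smul_snd, smul_eq_mul, ← mul_add, abs_mul,
      Real.mul_rpow (abs_nonneg _) (abs_nonneg _)]
    ring
  · rw [nu_rpow hp, nu_rpow hp, nu_rpow hp]
    have h1 := abs_add_rpow hp hp1 x.1 y.1
    have h2 := abs_add_rpow hp hp1 x.2 y.2
    have h3 := abs_add_rpow hp hp1 (x.1 + x.2) (y.1 + y.2)
    rw [add_add_add_comm] at h3
    simp only [Prod.fst_add, Prod.snd_add]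
    linarith
  · have hc : CauchySeq u := Metric.cauchySeq_iff.2 fun ε hε => by
      obtain ⟨N, hN⟩ := hu ε hε
      exact ⟨N, fun i hi j hj => by
        rw [dist_eq_norm]; exact (le_nu hp hp1 _).trans_lt (hN i hi j hj)⟩
    obtain ⟨l, hl⟩ := cauchySeq_tendsto_of_complete hc
    refine ⟨l, fun ε hε => ?_⟩
    obtain ⟨N, hN⟩ := Metric.tendsto_atTop.1 hl (ε / 2 ^ p⁻¹) (by positivity)
    refine ⟨N, fun i hi => (nu_le hp hp1 _).trans_lt ?_⟩
    have := hN i hi
    rwa [dist_eq_norm, lt_div_iff₀' (by positivity)] at this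

theorem nu_small {p : ℝ} (hp : 0 < p) {v : ℝ × ℝ} {K η : ℝ} (hη : K * (2 / 3) ^ p⁻¹ < η)
    (h : nu p v ≤ K) : |v.1| < η ∨ |v.2| < η ∨ |v.1 + v.2| < η := by
  by_contra hc
  push Not at hc
  have hK : 0 ≤ K := (nu_nonneg _ _).trans h
  have h0 : 0 ≤ K * (2 / 3) ^ p⁻¹ := by positivity
  have h1 := Real.rpow_lt_rpow h0 hη hp
  rw [Real.mul_rpow hK (by positivity), Real.rpow_inv_rpow (by norm_num) hp.ne'] at h1
  have h2 := Real.rpow_le_rpow (nu_nonneg _ _) h hp.le
  rw [nu_rpow hp] at h2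
  have a1 := Real.rpow_le_rpow (h0.trans hη.le) hc.1 hp.le
  have a2 := Real.rpow_le_rpow (h0.trans hη.le) hc.2.1 hp.le
  have a3 := Real.rpow_le_rpow (h0.trans hη.le) hc.2.2 hp.le
  linarith

/-- The three-point space. -/
def N3 : Set (ℝ × ℝ) := {(0, 0), (1, 0), (0, 3)}

/-- The three-point space with `m` extra points. -/
def M3 (m : ℕ) : Set (ℝ × ℝ) :=
  N3 ∪ (fun i : ℕ => (((i : ℝ) / (m + 1), 0) : ℝ × ℝ)) '' Icc 1 m

/-- The inclusion. -/
def inc (m : ℕ) : N3 → M3 m := inclusion subset_union_left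

theorem inc_iso (m : ℕ) : Isometry (inc m) := fun _ _ => rfl

theorem N3_card : ENat.card N3 ≤ 3 := by
  change N3.encard ≤ 3
  refine (encard_insert_le _ _).trans ?_
  rw [encard_pair (by simp)]
  rfl

instance : Nonempty N3 := ⟨⟨(0, 0), by simp [N3]⟩⟩

theorem inc_compl (m : ℕ) : (range (inc m))ᶜ.encard ≤ m := by
  rw [← Subtype.val_injective.encard_image]
  refine le_trans (encard_le_encard (t := (fun i : ℕ => (((i : ℝ) / (m + 1), 0) : ℝ × ℝ)) ''
    Icc 1 m) ?_) ((encard_image_le _ _).trans ?_)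
  · rintro _ ⟨x, hx, rfl⟩
    exact x.2.resolve_left fun h => hx ⟨⟨x, h⟩, rfl⟩
  · rw [← Finset.coe_Icc, encard_coe_eq_coe_finsetCard]
    simp

theorem lower (m : ℕ) {c : ℝ} (hc : c < m + 1) :
    ∀ᶠ p in 𝓝[>] (0 : ℝ), ENNReal.ofReal c ≤ trace p (inc m) := by
  have hm : (0 : ℝ) < m + 1 := by positivity
  obtain ⟨η, hη0, hη1, hη2⟩ : ∃ η : ℝ, 0 < η ∧ η ≤ 1 / 4 ∧ c ≤ (m + 1) * (1 - 4 * η) := by
    refine ⟨min (1 / 4) ((1 - c / (m + 1)) / 4), lt_min (by norm_num) ?_, min_le_left _ _, ?_⟩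
    · have := (div_lt_one hm).2 hc
      linarith
    · have := min_le_right (1 / 4) ((1 - c / (m + 1)) / 4)
      rw [← div_le_iff₀' hm]
      linarith
  have ht : Tendsto (fun p : ℝ => 3 * (m + 1) * (2 / 3 : ℝ) ^ p⁻¹) (𝓝[>] 0) (𝓝 0) := by
    simpa using ((tendsto_rpow_atTop_of_base_lt_one (2 / 3) (by norm_num) (by norm_num)).comp
      tendsto_inv_nhdsGT_zero).const_mul (3 * ((m : ℝ) + 1))
  filter_upwards [ht.eventually (gt_mem_nhds hη0), Ioc_mem_nhdsGT one_pos] with p hp ⟨hp0, hp1⟩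
  refine le_sInf fun C hC => ?_
  by_contra hlt
  rw [not_le] at hlt
  have hCt : C ≠ ⊤ := hlt.ne_top
  have hCc : C.toReal < c := by
    rwa [← ENNReal.ofReal_toReal hCt, ENNReal.ofReal_lt_ofReal_iff_of_nonneg
      ENNReal.toReal_nonneg] at hlt
  let f : N3 → ℝ × ℝ := fun x => (1 - x.1.1 - x.1.2 / 3, x.1.1)
  have n1 : nu p (1, 0) = 1 := by simp [nu, Real.zero_rpow hp0.ne']
  have n2 : nu p (-1, 0) = 1 := by simp [nu, Real.zero_rpow hp0.ne']
  have n3 : nu p (0, 1) = 1 := by simp [nu, Real.zero_rpow hp0.ne']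
  have n4 : nu p (0, -1) = 1 := by simp [nu, Real.zero_rpow hp0.ne']
  have n5 : nu p (1, -1) = 1 := by simp [nu, Real.zero_rpow hp0.ne']
  have n6 : nu p (-1, 1) = 1 := by simp [nu, Real.zero_rpow hp0.ne']
  have hf : Lip (nu p) f ≤ ENNReal.ofReal 1 := by
    rw [Lip_le_iff zero_le_one]
    rintro ⟨x, hx⟩ ⟨y, hy⟩ hxy
    rcases hx with rfl | rfl | rfl <;> rcases hy with rfl | rfl | rfl <;>
      first
        | exact absurd rfl hxy
        | (simp [f, Subtype.dist_eq, Prod.dist_eq, Real.dist_eq, n1, n2, n3, n4, n5, n6])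
  obtain ⟨F, F1, F2⟩ := hC (ℝ × ℝ) (nu p) (nu_banach hp0 hp1) f (hf.trans_lt (by simp))
  have F3 : Lip (nu p) F ≤ ENNReal.ofReal C.toReal := by
    rw [ENNReal.ofReal_toReal hCt]
    exact F2.trans (by simpa using mul_le_mul_right hf C)
  rw [Lip_le_iff ENNReal.toReal_nonneg] at F3
  have F4 : ∀ x y, nu p (F x - F y) ≤ C.toReal * dist x y := by
    intro x y
    by_cases h : x = y
    · subst h
      simp [nu, Real.zero_rpow hp0.ne', Real.zero_rpow (inv_ne_zero hp0.ne')]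
    · exact F3 x y h
  have hmem : ∀ i : ℕ, i ≤ m + 1 → (((i : ℝ) / (m + 1), 0) : ℝ × ℝ) ∈ M3 m := by
    intro i hi
    rcases Nat.eq_zero_or_pos i with rfl | h0
    · left; simp [N3]
    rcases hi.eq_or_lt with rfl | h1
    · left
      simp [N3, hm.ne']
    · exact Or.inr ⟨i, ⟨h0, by omega⟩, rfl⟩
  let z : (i : ℕ) → i ≤ m + 1 → M3 m := fun i hi => ⟨_, hmem i hi⟩
  have hd : ∀ i hi (x : N3), dist (z i hi) (inc m x) ≤ 3 := by
    rintro i hi ⟨x, hx⟩
    have a1 : 0 ≤ (i : ℝ) / (m + 1) := by positivity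
    have a2 : (i : ℝ) / (m + 1) ≤ 1 := (div_le_one hm).2 (by exact_mod_cast hi)
    change dist (((i : ℝ) / (m + 1), 0) : ℝ × ℝ) x ≤ 3
    rcases hx with rfl | rfl | rfl <;>
      simp only [Prod.dist_eq, Real.dist_eq, max_le_iff, abs_le] <;>
      refine ⟨⟨?_, ?_⟩, ?_, ?_⟩ <;> linarith
  have hsm : ∀ i hi (x : N3), |(F (z i hi) - f x).1| < η ∨ |(F (z i hi) - f x).2| < η ∨
      |(F (z i hi) - f x).1 + (F (z i hi) - f x).2| < η := by
    intro i hi x
    refine nu_small hp0 hp ?_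
    rw [← F1]
    refine (F4 _ _).trans ?_
    rw [mul_comm 3]
    exact mul_le_mul (by linarith) (hd i hi x) dist_nonneg hm.le
  have hx : ∀ i hi, |(F (z i hi)).1| < 2 * η ∨ |(F (z i hi)).1 - 1| < 2 * η := by
    intro i hi
    have a1 := hsm i hi ⟨(0, 0), by simp [N3]⟩
    have a2 := hsm i hi ⟨(1, 0), by simp [N3]⟩
    have a3 := hsm i hi ⟨(0, 3), by simp [N3]⟩
    simp only [f, Prod.fst_sub, Prod.snd_sub, abs_lt] at a1 a2 a3 ⊢
    by_contra hcon
    rw [not_or, not_and_or, not_and_or] at hcon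
    rcases a1 with a1 | a1 | a1 <;> rcases a2 with a2 | a2 | a2 <;> rcases a3 with a3 | a3 | a3 <;>
      rcases hcon with ⟨h1 | h1, h2 | h2⟩ <;> linarith [a1.1, a1.2, a2.1, a2.2, a3.1, a3.2]
  have hall : ∀ i hi, |(F (z i hi)).1 - 1| < 2 * η := by
    intro i
    induction i with
    | zero =>
      intro hi
      have : z 0 hi = inc m ⟨(0, 0), by simp [N3]⟩ := Subtype.ext (by simp [z, inc])
      rw [this, F1]
      simpa [f] using hη0
    | succ i ih =>
      intro hi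
      refine (hx _ hi).resolve_left fun h => ?_
      have a1 := ih (by omega)
      have a2 := (norm_fst_le _).trans ((le_nu hp0 hp1 _).trans (F4 (z i (by omega)) (z _ hi)))
      have a3 : dist (z i (by omega)) (z _ hi) = 1 / (m + 1) := by
        change dist (((i : ℝ) / (m + 1), 0) : ℝ × ℝ) ((((i + 1 : ℕ) : ℝ) / (m + 1), 0)) = _
        rw [Prod.dist_eq, dist_self, Real.dist_eq, ← sub_div, abs_div, abs_of_pos hm]
        simp only [Nat.cast_add, Nat.cast_one, sub_add_cancel_left, abs_neg, abs_one]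
        exact max_eq_left (by positivity)
      rw [a3, Real.norm_eq_abs, Prod.fst_sub, mul_one_div, le_div_iff₀ hm] at a2
      rw [abs_lt] at h a1
      have a4 := le_abs_self ((F (z i (by omega))).1 - (F (z _ hi)).1)
      nlinarith
  have a1 := hall (m + 1) le_rfl
  have : z (m + 1) le_rfl = inc m ⟨(1, 0), by simp [N3]⟩ := Subtype.ext (by simp [z, inc, hm.ne'])
  rw [this, F1] at a1
  simp [f] at a1
  linarith

theorem le_ae (p : ℝ) (m : ℕ) : trace p (inc m) ≤ ae p N3 :=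
  le_iSup_of_le (M3 m) (le_iSup_of_le inferInstance (le_iSup₂_of_le (inc m) (inc_iso m) le_rfl))

theorem ae_tendsto : Tendsto (fun p => ae p N3) (𝓝[>] 0) (𝓝 ⊤) :=
  ENNReal.tendsto_nhds_top fun m => (lower (m + 1) (c := m + 1) (by push_cast; linarith)).mono
    fun p hp => lt_of_lt_of_le (by
      rw [← ENNReal.ofReal_natCast, ENNReal.ofReal_lt_ofReal_iff (by positivity)]; linarith)
      (hp.trans (le_ae p _))

end Pool.Agent.Lib.helper31.PExt
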