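import Mathlib

set_option autoImplicit false

/-! Degree zero periods of a family `Spec B → Spec A` of affine varieties over a field `k ⊆ ℂ`. -/

namespace Pool.Agent.Lib.helper31.Period0

/-- The field of algebraic numbers inside `ℂ`. -/
abbrev Qb : Type := algebraicClosure ℚ ℂ

variable (k : Type) [Field k] [Algebra k ℂ]

/-- Complex points of `Spec R`. -/
def Pt (R : Type) [CommRing R] [Algebra k R] : Type := R →ₐ[k] ℂ

variable {k}

/-- The underlying algebra map of a complex point. -/
def Pt.hom {R : Type} [CommRing R] [Algebra k R] (y : Pt k R) : R →ₐ[k] ℂ := y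

/-- The analytic topology: the coarsest one making all regular functions continuous. -/
noncomputable instance Pt.top (R : Type) [CommRing R] [Algebra k R] : TopologicalSpace (Pt k R) :=
  TopologicalSpace.induced (fun (y : Pt k R) (r : R) => y.hom r) Pi.topologicalSpace

/-- A point is algebraic if all regular functions take algebraic values at it. -/
def Pt.IsAlg {R : Type} [CommRing R] [Algebra k R] (y : Pt k R) : Prop :=
  ∀ r : R, IsAlgebraic ℚ (y.hom r)

variable (A : Type) {B : Type} [CommRing A] [CommRing B] [Algebra k A] [Algebra k B] [Algebra A B]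
  [IsScalarTower k A B]

/-- The map `f : X(ℂ) → S(ℂ)`. -/
def proj (y : Pt k B) : Pt k A := y.hom.comp (IsScalarTower.toAlgHom k A B)

variable (B) in
/-- Relative de Rham cohomology in degree zero: the kernel of `d : B → Ω[B⁄A]`. -/
noncomputable def H0 : Submodule A B := LinearMap.ker (KaehlerDifferential.D A B).toLinearMap

variable {A} {n : ℕ}

/-- `v` is a basis of the local system `f_* ℤ` over `U`: the `v i` are locally constant on
`f⁻¹ U`, and on each fibre over `U` they form a `ℤ`-basis of the locally constant functions. -/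
def IsBetti (U : Set (Pt k A)) (v : Fin n → Pt k B → ℤ) : Prop :=
  (∀ i, IsLocallyConstant fun y : {y : Pt k B // proj A y ∈ U} => v i y.1) ∧
  ∀ s ∈ U, LinearIndependent ℤ (fun i (y : {y : Pt k B // proj A y = s}) => v i y.1) ∧
    ∀ w : {y : Pt k B // proj A y = s} → ℤ, IsLocallyConstant w →
      w ∈ Submodule.span ℤ (Set.range fun i (y : {y : Pt k B // proj A y = s}) => v i y.1)

/-- `P` is the matrix at `s` of the comparison map, which sends a de Rham class to the complex
valued function it defines on the fibre over `s`. -/
def IsPeriod (b : Module.Basis (Fin n) A (H0 A B)) (v : Fin n → Pt k B → ℤ) (s : Pt k A)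
    (P : GL (Fin n) ℂ) : Prop :=
  ∀ y : Pt k B, proj A y = s → ∀ i, y.hom (b i : B) = ∑ j, P.val j i * (v j y : ℂ)

/-- The Zariski closure over the algebraic numbers of a point of `GL n ℂ`. -/
def zarPt (P : GL (Fin n) ℂ) : Set (GL (Fin n) ℂ) :=
  {Q | ∀ F : MvPolynomial (Fin n × Fin n) Qb,
    MvPolynomial.aeval (fun ij => P.val ij.1 ij.2) F = 0 →
    MvPolynomial.aeval (fun ij => Q.val ij.1 ij.2) F = 0}

end Pool.Agent.Lib.helper31.Period0
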