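import Mathlib

set_option autoImplicit false

open Polynomial LaurentPolynomial TensorProduct

namespace Pool.Agent.Lib.helper31.SqCover

variable (k : Type) [Field k]

abbrev A : Type := LaurentPolynomial k

noncomputable def p : Polynomial (A k) := X ^ 2 - Polynomial.C (T 1)

theorem p_monic : (p k).Monic := monic_X_pow_sub_C _ (by norm_num)

theorem p_natDegree : (p k).natDegree = 2 := natDegree_X_pow_sub_C

abbrev B : Type := AdjoinRoot (p k)

noncomputable def x : B k := AdjoinRoot.root (p k)

theorem x_sq : x k ^ 2 = algebraMap (A k) (B k) (T 1) := by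
  have h : Polynomial.eval₂ (AdjoinRoot.of (p k)) (x k) (X ^ 2 - Polynomial.C (T 1)) = 0 :=
    AdjoinRoot.eval₂_root (p k)
  rw [eval₂_sub, eval₂_X_pow, Polynomial.eval₂_C] at h
  exact sub_eq_zero.mp h

instance : Module.Finite (A k) (B k) := (p_monic k).finite_adjoinRoot

noncomputable def bas : Module.Basis (Fin 2) (A k) (B k) :=
  (AdjoinRoot.powerBasis' (p_monic k)).basis.reindex (finCongr (p_natDegree k))

theorem bas_zero : bas k 0 = 1 := by
  simp [bas]

theorem bas_one : bas k 1 = x k := by
  simp [bas, x]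

theorem decomp (g : B k) : ∃ u w : A k, g = algebraMap _ _ u + algebraMap _ _ w * x k := by
  refine ⟨(bas k).repr g 0, (bas k).repr g 1, ?_⟩
  conv_lhs => rw [← (bas k).sum_repr g]
  simp [Fin.sum_univ_two, bas_zero, bas_one, Algebra.smul_def]

instance : IsScalarTower k k[X] (A k) := IsScalarTower.of_algebraMap_eq fun r => by
  rw [LaurentPolynomial.algebraMap_eq_toLaurent, Polynomial.algebraMap_eq, toLaurent_C]; rfl

theorem smoothA : Algebra.Smooth k (A k) := by
  have h1 : Algebra.Smooth k k[X] := {}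
  have h2 : Algebra.Smooth k[X] (A k) := Algebra.Smooth.of_isLocalization_Away (X : k[X])
  exact Algebra.Smooth.comp k k[X] (A k)

theorem etale [CharZero k] : Algebra.Etale (A k) (B k) := by
  have : Algebra.FormallyEtale (A k) (B k) := by
    rw [Algebra.FormallyEtale.iff_comp_bijective]
    intro C _ _ I hI
    have h2 : IsUnit (2 : C) := by
      have : IsUnit (2 : A k) := by
        have h : IsUnit (2 : k) := by simp
        have h' := h.map (algebraMap k (A k))
        rwa [map_ofNat] at h'
      have h' := this.map (algebraMap (A k) C)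
      rwa [map_ofNat] at h'
    have hT : IsUnit (algebraMap (A k) C (T 1)) := (isUnit_T 1).map _
    have hsq : ∀ e ∈ I, e ^ 2 = 0 := fun e he => by
      have : e ^ 2 ∈ I ^ 2 := Ideal.pow_mem_pow he 2
      rwa [hI, Ideal.mem_bot] at this
    constructor
    · intro f g hfg
      apply AdjoinRoot.algHom_ext
      change f (x k) = g (x k)
      have hf : f (x k) ^ 2 = algebraMap (A k) C (T 1) := by
        rw [← map_pow, x_sq, AlgHom.commutes]
      have hg : g (x k) ^ 2 = algebraMap (A k) C (T 1) := by
        rw [← map_pow, x_sq, AlgHom.commutes]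
      have he : f (x k) - g (x k) ∈ I := by
        have := congrArg (fun φ : B k →ₐ[A k] C ⧸ I => φ (x k)) hfg
        simpa [Ideal.Quotient.eq] using this
      have hu : IsUnit (g (x k)) := by
        have : IsUnit (g (x k) ^ 2) := hg ▸ hT
        exact (isUnit_pow_iff (by norm_num)).mp this
      have h0 : (2 * g (x k)) * (f (x k) - g (x k)) = 0 := by
        have := hsq _ he
        linear_combination hf - hg - this
      have := (h2.mul hu).mul_right_eq_zero.mp h0
      exact sub_eq_zero.mp this
    · intro f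
      obtain ⟨c, hc⟩ := Ideal.Quotient.mk_surjective (f (x k))
      have hf : f (x k) ^ 2 = algebraMap (A k) (C ⧸ I) (T 1) := by
        rw [← map_pow, x_sq, AlgHom.commutes]
      have hd : c ^ 2 - algebraMap (A k) C (T 1) ∈ I := by
        rw [← Ideal.Quotient.eq, map_pow, hc, hf]; rfl
      have hcu : IsUnit c := by
        have hn : IsNilpotent (c ^ 2 - algebraMap (A k) C (T 1)) := ⟨2, hsq _ hd⟩
        have : IsUnit (c ^ 2) := by
          have := hn.isUnit_add_right_of_commute hT (Commute.all _ _)
          simpa using this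
        exact (isUnit_pow_iff (by norm_num)).mp this
      obtain ⟨w, hw⟩ := (h2.mul hcu).exists_right_inv
      set d := c ^ 2 - algebraMap (A k) C (T 1) with hdd
      have hroot : (c - d * w) ^ 2 = algebraMap (A k) C (T 1) := by
        have := hsq _ hd
        linear_combination (w ^ 2) * this - d * hw + hdd
      refine ⟨AdjoinRoot.liftAlgHom (p k) (Algebra.ofId _ _) (c - d * w) ?_, ?_⟩
      · simp only [p, eval₂_sub, eval₂_X_pow, Polynomial.eval₂_C]
        exact sub_eq_zero.mpr hroot
      · apply AdjoinRoot.algHom_ext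
        simp only [AlgHom.comp_apply, AdjoinRoot.liftAlgHom_root, Ideal.Quotient.mkₐ_eq_mk]
        change _ = f (x k)
        rw [← hc, Ideal.Quotient.eq]
        simpa using I.mul_mem_right w hd
  exact {}

/-- evaluation of a Laurent polynomial at a unit -/
noncomputable def ev {R : Type} [CommRing R] [Algebra k R] (u : Rˣ) : A k →ₐ[k] R where
  __ := LaurentPolynomial.eval₂ (algebraMap k R) u
  commutes' r := by
    change LaurentPolynomial.eval₂ (algebraMap k R) u (LaurentPolynomial.C r) = _
    simp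

theorem ev_CT {R : Type} [CommRing R] [Algebra k R] (u : Rˣ) (r : k) (n : ℤ) :
    ev k u (LaurentPolynomial.C r * T n) = algebraMap k R r * (u ^ n).val :=
  LaurentPolynomial.eval₂_C_mul_T _ _ _ _

theorem ev_T {R : Type} [CommRing R] [Algebra k R] (u : Rˣ) (n : ℤ) :
    ev k u (T n) = (u ^ n).val :=
  LaurentPolynomial.eval₂_T _ _ _

theorem hom_ext {R : Type} [CommRing R] [Algebra k R] (s t : A k →ₐ[k] R)
    (h : s (T 1) = t (T 1)) : s = t := by
  have : (s : A k →+* R) = t := by
    apply IsLocalization.ringHom_ext (Submonoid.powers (X : k[X]))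
    apply Polynomial.ringHom_ext
    · intro a
      simp only [RingHom.comp_apply, LaurentPolynomial.algebraMap_eq_toLaurent, toLaurent_C,
        LaurentPolynomial.C_eq_algebraMap, RingHom.coe_coe, AlgHom.commutes]
    · simpa [LaurentPolynomial.algebraMap_eq_toLaurent] using h
  exact AlgHom.coe_ringHom_injective this

theorem homB_ext {R : Type} [CommRing R] [Algebra k R] (y z : B k →ₐ[k] R)
    (h : y (x k) = z (x k)) : y = z := by
  apply AdjoinRoot.algHom_ext'
  · apply hom_ext
    have hy : y (algebraMap (A k) (B k) (T 1)) = z (algebraMap (A k) (B k) (T 1)) := by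
      rw [← x_sq, map_pow, map_pow, h]
    simpa using hy
  · exact h

/-- the point of `X` over `s` with `x = a` -/
noncomputable def pt {R : Type} [CommRing R] [Algebra k R] (s : A k →ₐ[k] R) (a : R)
    (h : a ^ 2 = s (T 1)) : B k →ₐ[k] R :=
  AdjoinRoot.liftAlgHom (p k) s a (by
    simp only [p, eval₂_sub, eval₂_X_pow, Polynomial.eval₂_C]
    exact sub_eq_zero.mpr h)

theorem pt_x {R : Type} [CommRing R] [Algebra k R] (s : A k →ₐ[k] R) (a : R)
    (h : a ^ 2 = s (T 1)) : pt k s a h (x k) = a := by
  simp [pt, x]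

theorem pt_alg {R : Type} [CommRing R] [Algebra k R] (s : A k →ₐ[k] R) (a : R)
    (h : a ^ 2 = s (T 1)) (g : A k) : pt k s a h (algebraMap _ _ g) = s g := by
  simp [pt, AdjoinRoot.algebraMap_eq]

noncomputable def uT (n : ℤ) : (A k)ˣ := (isUnit_T (R := k) n).unit

theorem uT_val (n : ℤ) : (uT k n).val = T n := rfl

theorem uT_zpow (n m : ℤ) : (uT k n ^ m).val = T (m * n) := by
  obtain ⟨j, rfl | rfl⟩ := m.eq_nat_or_neg
  · simp [uT_val]
  · rw [zpow_neg, zpow_natCast]
    apply (Units.mul_right_inj (uT k n ^ j)).mp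
    rw [← Units.val_mul, mul_inv_cancel, Units.val_pow_eq_pow_val, uT_val, T_pow, ← T_add]
    simp

noncomputable def sq : A k →ₐ[k] A k := ev k (uT k 2)

theorem sq_coeff (g : A k) (n : ℤ) : (sq k g).coeff (2 * n) = g.coeff n ∧
    (sq k g).coeff (2 * n + 1) = 0 ∧ (sq k g * T 1).coeff (2 * n) = 0 ∧
    (sq k g * T 1).coeff (2 * n + 1) = g.coeff n := by
  induction g using LaurentPolynomial.induction_on' with
  | add f g hf hg =>
    simp only [map_add, add_mul, AddMonoidAlgebra.coeff_add, Finsupp.add_apply]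
    simp [hf, hg]
  | C_mul_T m a =>
    rw [sq, ev_CT, uT_zpow, ← LaurentPolynomial.C_eq_algebraMap, mul_T_assoc]
    simp only [← single_eq_C_mul_T, AddMonoidAlgebra.coeff_single, Finsupp.single_apply]
    refine ⟨?_, ?_, ?_, ?_⟩
    · congr 1; apply propext; omega
    · rw [if_neg]; omega
    · rw [if_neg]; omega
    · congr 1; apply propext; omega

noncomputable def psi : B k →ₐ[k] A k := pt k (sq k) (T 1) (by
  simp [sq, ev_T, uT_val])

theorem psi_inj : Function.Injective (psi k) := by
  rw [injective_iff_map_eq_zero]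
  intro g hg
  obtain ⟨u, w, rfl⟩ := decomp k g
  simp only [psi, map_add, map_mul, pt_alg, pt_x] at hg
  have hu : u = 0 := by
    ext n
    have := congrArg (fun f : A k => f.coeff (2 * n)) hg
    simpa [(sq_coeff k u n).1, (sq_coeff k w n).2.2.1] using this
  have hw : w = 0 := by
    ext n
    have := congrArg (fun f : A k => f.coeff (2 * n + 1)) hg
    simpa [(sq_coeff k u n).2.1, (sq_coeff k w n).2.2.2] using this
  simp [hu, hw]

theorem domainB : IsDomain (B k) := (psi_inj k).isDomain (psi k).toRingHom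

theorem domain_tensorA (L : Type) [Field L] [Algebra k L] : IsDomain (L ⊗[k] A k) :=
  (AddMonoidAlgebra.scalarTensorEquiv (M := ℤ) k L).injective.isDomain
    (AddMonoidAlgebra.scalarTensorEquiv (M := ℤ) k L).toRingEquiv.toRingHom

theorem domain_tensorB (L : Type) [Field L] [Algebra k L] : IsDomain (L ⊗[k] B k) := by
  have := domain_tensorA k L
  have hinj : Function.Injective (Algebra.TensorProduct.map (AlgHom.id k L) (psi k)) :=
    Module.Flat.lTensor_preserves_injective_linearMap (M := L) (psi k).toLinearMap (psi_inj k)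
  exact hinj.isDomain (Algebra.TensorProduct.map (AlgHom.id k L) (psi k)).toRingHom

theorem kerD [CharZero k] : LinearMap.ker (KaehlerDifferential.D (A k) (B k)).toLinearMap = ⊤ := by
  have := etale k
  ext g
  simp [Subsingleton.elim (KaehlerDifferential.D (A k) (B k) g) 0]

section complex
variable [Algebra k ℂ]

open Classical in
/-- the point of `S` with coordinate `z` -/
noncomputable def sp (z : ℂ) : A k →ₐ[k] ℂ := ev k (if h : z = 0 then 1 else Units.mk0 z h)

theorem sp_T (z : ℂ) (hz : z ≠ 0) : sp k z (T 1) = z := by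
  simp [sp, ev_T, hz]

theorem T_ne (s : A k →ₐ[k] ℂ) : s (T 1) ≠ 0 := ((isUnit_T 1).map s).ne_zero

theorem sp_self (s : A k →ₐ[k] ℂ) : sp k (s (T 1)) = s :=
  hom_ext k _ _ (sp_T k _ (T_ne k s))

theorem sp_diff (g : A k) : DifferentiableOn ℂ (fun z => sp k z g) {0}ᶜ := by
  induction g using LaurentPolynomial.induction_on' with
  | add f g hf hg => simp only [map_add]; exact hf.add hg
  | C_mul_T m a =>
    have : DifferentiableOn ℂ (fun z : ℂ => algebraMap k ℂ a * z ^ m) {0}ᶜ :=
      (differentiableOn_zpow m _ (Or.inl (by simp))).const_mul _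
    refine this.congr fun z hz => ?_
    have hz' : z ≠ 0 := hz
    simp [sp, ev_CT, hz']

theorem sp_sq_diff (g : A k) : DifferentiableOn ℂ (fun z => sp k (z ^ 2) g) {0}ᶜ :=
  (sp_diff k g).comp (differentiable_pow 2).differentiableOn fun z hz => by simpa using hz

end complex

/-- identity theorem on the punctured plane -/
theorem ident (φ : ℂ → ℂ) (hφ : DifferentiableOn ℂ φ {0}ᶜ)
    (h : ∀ a : ℂ, 0 < a.re → 0 < (a ^ 2).re → φ a = 0) : ∀ a : ℂ, a ≠ 0 → φ a = 0 := by
  have han : AnalyticOnNhd ℂ φ {0}ᶜ := hφ.analyticOnNhd isOpen_compl_singleton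
  have hc : IsPreconnected ({0}ᶜ : Set ℂ) :=
    (isConnected_compl_singleton_of_one_lt_rank (by simp) 0).isPreconnected
  have hev : φ =ᶠ[nhds 1] 0 := by
    have h1 : ∀ᶠ a : ℂ in nhds 1, 0 < a.re :=
      Complex.continuous_re.continuousAt.eventually (lt_mem_nhds (by simp))
    have h2 : ∀ᶠ a : ℂ in nhds 1, 0 < (a ^ 2).re :=
      (Complex.continuous_re.comp (continuous_pow 2)).continuousAt.eventually
        (lt_mem_nhds (by simp))
    filter_upwards [h1, h2] with a ha hb using h a ha hb
  intro a ha
  exact han.eqOn_zero_of_preconnected_of_eventuallyEq_zero hc (by simp) hev ha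

theorem exists_root (z : ℂ) (hz : 0 < z.re) : ∃ a : ℂ, 0 < a.re ∧ a ^ 2 = z := by
  obtain ⟨a, ha⟩ := IsAlgClosed.exists_pow_nat_eq z (n := 2) (by norm_num)
  have hne : a.re ≠ 0 := by
    intro h0
    have : z.re = -(a.im ^ 2) := by rw [← ha]; simp [pow_two, h0]
    nlinarith [sq_nonneg a.im]
  rcases lt_or_gt_of_ne hne with h | h
  · exact ⟨-a, by simpa using h, by simpa using ha⟩
  · exact ⟨a, h, ha⟩

theorem re_ne (a : ℂ) (h : 0 < (a ^ 2).re) : a.re ≠ 0 := by
  intro h0
  have : (a ^ 2).re = -(a.im ^ 2) := by simp [pow_two, h0]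
  nlinarith [sq_nonneg a.im]

/-- the period matrix -/
noncomputable def M (a : ℂ) (ha : a ≠ 0) : GL (Fin 2) ℂ where
  val := !![1, a; 1, -a]
  inv := !![1 / 2, 1 / 2; 1 / (2 * a), -1 / (2 * a)]
  val_inv := by
    ext i j; fin_cases i <;> fin_cases j <;> simp [Matrix.mul_apply, Fin.sum_univ_two] <;>
      field_simp <;> ring
  inv_val := by
    ext i j; fin_cases i <;> fin_cases j <;> simp [Matrix.mul_apply, Fin.sum_univ_two] <;>
      field_simp <;> ring

/-- entries of `M a ^ e` -/
noncomputable def N (e : ℤ) (a : ℂ) : Matrix (Fin 2) (Fin 2) ℂ :=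
  if e = 1 then !![1, a; 1, -a] else !![1 / 2, 1 / 2; 1 / (2 * a), -1 / (2 * a)]

theorem M_zpow (e : ℤ) (he : e = 1 ∨ e = -1) (a : ℂ) (ha : a ≠ 0) :
    (M a ha ^ e).val = N e a := by
  rcases he with rfl | rfl
  · simp [N, M]
  · rw [zpow_neg_one]; simp only [N]; rw [if_neg (by norm_num)]; rfl

theorem N_diff (e : ℤ) (i j : Fin 2) : DifferentiableOn ℂ (fun a => N e a i j) {0}ᶜ := by
  have h1 : DifferentiableOn ℂ (fun a : ℂ => 1 / (2 * a)) {0}ᶜ :=
    (differentiableOn_const _).div (by fun_prop) fun a ha => by simpa using ha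
  have h2 : DifferentiableOn ℂ (fun a : ℂ => -1 / (2 * a)) {0}ᶜ :=
    (differentiableOn_const _).div (by fun_prop) fun a ha => by simpa using ha
  unfold N
  split_ifs
  · fin_cases i <;> fin_cases j <;> simp <;> fun_prop
  · fin_cases i <;> fin_cases j
    · simp
    · simp
    · simpa using h1
    · simpa using h2

theorem eval_diff {R : Type} [CommSemiring R] (c : ℂ → R →+* ℂ)
    (hc : ∀ r, DifferentiableOn ℂ (fun a => c a r) {0}ᶜ) (e : ℤ)
    (F : MvPolynomial (Fin 2 × Fin 2) R) :
    DifferentiableOn ℂ (fun a => MvPolynomial.eval₂ (c a) (fun ij => N e a ij.1 ij.2) F) {0}ᶜ := by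
  induction F using MvPolynomial.induction_on with
  | C r => simpa using hc r
  | add f g hf hg => simp only [MvPolynomial.eval₂_add]; exact hf.add hg
  | mul_X f ij hf =>
    simp only [MvPolynomial.eval₂_mul, MvPolynomial.eval₂_X]; exact hf.mul (N_diff e _ _)

end Pool.Agent.Lib.helper31.SqCover
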