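import Mathlib
import Pool.Agent.Lib.helper31.SqCover
import Pool.Agent.Lib.helper31.PeriodDefs

set_option autoImplicit false

open LaurentPolynomial

namespace Pool.Agent.Lib.helper31.PeriodEx

open Pool.Agent.Lib.helper31.SqCover Pool.Agent.Lib.helper31.Period0

variable (k : Type) [Field k] [Algebra k ℂ] [CharZero k]

noncomputable def b : Module.Basis (Fin 2) (A k) (H0 (A k) (B k)) :=
  (bas k).map (LinearEquiv.ofTop _ (kerD k)).symm

omit [Algebra k ℂ] in
theorem b_zero : (b k 0 : B k) = 1 := by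
  rw [← bas_zero]; rfl

omit [Algebra k ℂ] in
theorem b_one : (b k 1 : B k) = x k := by
  rw [← bas_one]; rfl

def U : Set (Pt k (A k)) := {s | 0 < (s.hom (T 1)).re}

open Classical in
noncomputable def v : Fin 2 → Pt k (B k) → ℤ :=
  ![fun y => if 0 < (y.hom (x k)).re then 1 else 0, fun y => if (y.hom (x k)).re < 0 then 1 else 0]

omit [CharZero k]

theorem cont {R : Type} [CommRing R] [Algebra k R] (r : R) :
    Continuous fun y : Pt k R => y.hom r :=
  (continuous_apply r).comp continuous_induced_dom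

theorem U_open : IsOpen (U k) :=
  isOpen_lt continuous_const (Complex.continuous_re.comp (cont k _))

noncomputable def spt (z : ℂ) : Pt k (A k) := sp k z

theorem spt_self (s : Pt k (A k)) : spt k (s.hom (T 1)) = s := sp_self k s

theorem U_conn : IsConnected (U k) := by
  have h : U k = spt k '' {z : ℂ | 0 < z.re} := by
    ext s
    constructor
    · intro hs
      exact ⟨_, hs, spt_self k s⟩
    · rintro ⟨z, hz, rfl⟩
      have hz0 : z ≠ 0 := by rintro rfl; simp at hz
      change 0 < (sp k z (T 1)).re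
      rwa [sp_T k z hz0]
  rw [h]
  refine IsConnected.image ⟨⟨1, by simp⟩, (convex_halfSpace_re_gt 0).isPreconnected⟩ _ ?_
  rw [continuousOn_iff_continuous_domRestrict]
  refine continuous_induced_rng.mpr (continuous_pi fun g => ?_)
  have := ((sp_diff k g).continuousOn.mono (t := {z : ℂ | 0 < z.re}) (by
    rintro z hz rfl; simp at hz))
  rw [continuousOn_iff_continuous_domRestrict] at this
  exact this

theorem sq_x (y : Pt k (B k)) : y.hom (x k) ^ 2 = (proj (A k) y).hom (T 1) := by
  rw [← map_pow, x_sq]; rfl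

noncomputable def ptt (s : Pt k (A k)) (a : ℂ) (h : a ^ 2 = s.hom (T 1)) : Pt k (B k) :=
  pt k s.hom a h

theorem ptt_x (s : Pt k (A k)) (a : ℂ) (h : a ^ 2 = s.hom (T 1)) :
    (ptt k s a h).hom (x k) = a := pt_x k _ _ h

theorem proj_ptt (s : Pt k (A k)) (a : ℂ) (h : a ^ 2 = s.hom (T 1)) :
    proj (A k) (ptt k s a h) = s := by
  apply AlgHom.ext
  intro g
  exact pt_alg k _ _ h g

theorem fib (s : Pt k (A k)) (a : ℂ) (h : a ^ 2 = s.hom (T 1)) (h' : (-a) ^ 2 = s.hom (T 1))
    (y : Pt k (B k)) (hy : proj (A k) y = s) : y = ptt k s a h ∨ y = ptt k s (-a) h' := by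
  have := sq_x k y
  rw [hy, ← h] at this
  rcases sq_eq_sq_iff_eq_or_eq_neg.mp this with h1 | h1
  · left; exact homB_ext k _ _ (h1.trans (ptt_x k s a h).symm)
  · right; exact homB_ext k _ _ (h1.trans (ptt_x k s (-a) h').symm)

theorem v_pos (y : Pt k (B k)) (h : 0 < (y.hom (x k)).re) : v k 0 y = 1 ∧ v k 1 y = 0 := by
  simp [v, h, h.le]

theorem v_neg (y : Pt k (B k)) (h : (y.hom (x k)).re < 0) : v k 0 y = 0 ∧ v k 1 y = 1 := by
  simp [v, h, h.le]

theorem betti : IsBetti (U k) (v k) := by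
  constructor
  · intro i
    rw [IsLocallyConstant.iff_eventually_eq]
    intro y
    have hc : Continuous fun z : {y : Pt k (B k) // proj (A k) y ∈ U k} =>
        (z.1.hom (x k)).re :=
      Complex.continuous_re.comp ((cont k _).comp continuous_subtype_val)
    have hne : (y.1.hom (x k)).re ≠ 0 := re_ne _ (by rw [sq_x]; exact y.2)
    rcases lt_or_gt_of_ne hne with h | h
    · filter_upwards [hc.continuousAt.eventually (gt_mem_nhds h)] with z hz
      fin_cases i
      · exact (v_neg k _ hz).1.trans (v_neg k _ h).1.symm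
      · exact (v_neg k _ hz).2.trans (v_neg k _ h).2.symm
    · filter_upwards [hc.continuousAt.eventually (lt_mem_nhds h)] with z hz
      fin_cases i
      · exact (v_pos k _ hz).1.trans (v_pos k _ h).1.symm
      · exact (v_pos k _ hz).2.trans (v_pos k _ h).2.symm
  · intro s hs
    obtain ⟨a, ha, h⟩ := exists_root _ hs
    have h' : (-a) ^ 2 = s.hom (T 1) := by rw [← h]; ring
    have hp := v_pos k (ptt k s a h) (by rwa [ptt_x])
    have hn := v_neg k (ptt k s (-a) h') (by rw [ptt_x]; simpa using ha)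
    constructor
    · rw [Fintype.linearIndependent_iff]
      intro g hg i
      have h0 := congrFun hg ⟨_, proj_ptt k s a h⟩
      have h1 := congrFun hg ⟨_, proj_ptt k s (-a) h'⟩
      simp [Fin.sum_univ_two, hp, hn] at h0 h1
      fin_cases i
      · exact h0
      · exact h1
    · intro w _
      rw [Submodule.mem_span_range_iff_exists_fun]
      refine ⟨![w ⟨_, proj_ptt k s a h⟩, w ⟨_, proj_ptt k s (-a) h'⟩], ?_⟩
      funext y
      obtain ⟨y, hy⟩ := y
      rcases fib k s a h h' y hy with rfl | rfl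
      · simp [Fin.sum_univ_two, hp]
      · simp [Fin.sum_univ_two, hn]

theorem period_iff [CharZero k] (s : Pt k (A k)) (a : ℂ) (ha : 0 < a.re) (ha0 : a ≠ 0)
    (h : a ^ 2 = s.hom (T 1)) (P : GL (Fin 2) ℂ) :
    IsPeriod (b k) (v k) s P ↔ P = M a ha0 := by
  have h' : (-a) ^ 2 = s.hom (T 1) := by rw [← h]; ring
  have hp := v_pos k (ptt k s a h) (by rwa [ptt_x])
  have hn := v_neg k (ptt k s (-a) h') (by rw [ptt_x]; simpa using ha)
  constructor
  · intro hP
    have h0 := hP _ (proj_ptt k s a h)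
    have h1 := hP _ (proj_ptt k s (-a) h')
    have h00 := h0 0
    have h01 := h0 1
    have h10 := h1 0
    have h11 := h1 1
    simp only [b_zero, b_one, ptt_x, map_one, Fin.sum_univ_two, hp, hn, Int.cast_one,
      Int.cast_zero, mul_one, mul_zero, add_zero, zero_add] at h00 h01 h10 h11
    apply Units.ext
    ext i j
    fin_cases i <;> fin_cases j
    · exact h00.symm
    · exact h01.symm
    · exact h10.symm
    · exact h11.symm
  · rintro rfl y hy i
    rcases fib k s a h h' y hy with rfl | rfl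
    · fin_cases i <;> simp [b_zero, b_one, ptt_x, hp, M]
    · fin_cases i <;> simp [b_zero, b_one, ptt_x, hn, M]

theorem exists_period [CharZero k] (s : Pt k (A k)) (hs : s ∈ U k) :
    ∃ P, IsPeriod (b k) (v k) s P := by
  obtain ⟨a, ha, h⟩ := exists_root _ hs
  have ha0 : a ≠ 0 := by rintro rfl; simp at ha
  exact ⟨_, (period_iff k s a ha ha0 h _).mpr rfl⟩

/-- the key identity-theorem statement -/
theorem vanish [CharZero k] {R : Type} [CommSemiring R] (c : Pt k (A k) → R →+* ℂ)
    (hc : ∀ r, DifferentiableOn ℂ (fun a => c (spt k (a ^ 2)) r) {0}ᶜ) (e : ℤ)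
    (he : e = 1 ∨ e = -1) (F : MvPolynomial (Fin 2 × Fin 2) R)
    (hF : ∀ t ∈ U k, ∀ Q, IsPeriod (b k) (v k) t Q →
      MvPolynomial.eval₂ (c t) (fun ij => (Q ^ e).val ij.1 ij.2) F = 0)
    (s : Pt k (A k)) (a : ℂ) (ha0 : a ≠ 0) (h : a ^ 2 = s.hom (T 1)) :
    MvPolynomial.eval₂ (c s) (fun ij => (M a ha0 ^ e).val ij.1 ij.2) F = 0 := by
  have key := ident _ (eval_diff (fun a => c (spt k (a ^ 2))) hc e F) (by
    intro z hz hz2
    have hz0 : z ≠ 0 := by rintro rfl; simp at hz
    have hT : z ^ 2 = (spt k (z ^ 2)).hom (T 1) := (sp_T k _ (pow_ne_zero 2 hz0)).symm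
    have := hF (spt k (z ^ 2)) (by change 0 < Complex.re _; rw [← hT]; exact hz2) _
      ((period_iff k _ z hz hz0 hT _).mpr rfl)
    rwa [M_zpow e he] at this) a ha0
  rw [M_zpow e he]
  rwa [h, spt_self] at key

theorem N_ne (e : ℤ) (a : ℂ) (ha : a ≠ 0) : N e (-a) 1 1 ≠ N e a 1 1 := by
  unfold N
  split_ifs
  · simp only [Matrix.of_apply, Matrix.cons_val', Matrix.cons_val_one, Matrix.cons_val_fin_one]
    intro h
    apply ha
    linear_combination (1 / 2) * h
  · simp only [Matrix.of_apply, Matrix.cons_val', Matrix.cons_val_one, Matrix.cons_val_fin_one]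
    intro h
    field_simp at h
    norm_num at h

theorem N_alg (e : ℤ) (a : ℂ) (ha : a ∈ algebraicClosure ℚ ℂ) :
    N e a 1 1 ∈ algebraicClosure ℚ ℂ := by
  unfold N
  split_ifs
  · simpa using ha
  · simp only [Matrix.of_apply, Matrix.cons_val', Matrix.cons_val_one, Matrix.cons_val_fin_one]
    exact div_mem (neg_mem (one_mem _)) (mul_mem (ofNat_mem _ 2) ha)

theorem zarPt_entry {n : ℕ} (P Q : GL (Fin n) ℂ) (hQ : Q ∈ zarPt P) (i j : Fin n)
    (h : P.val i j ∈ algebraicClosure ℚ ℂ) : Q.val i j = P.val i j := by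
  have := hQ (MvPolynomial.X (i, j) - MvPolynomial.C (⟨_, h⟩ : Qb)) (by simp)
  simp only [map_sub, MvPolynomial.aeval_X, MvPolynomial.aeval_C] at this
  exact sub_eq_zero.mp this

theorem sp_alg (hk : ∀ r : k, IsAlgebraic ℚ (algebraMap k ℂ r)) (z : ℂ) (hz0 : z ≠ 0)
    (hz : IsAlgebraic ℚ z) : (spt k z).IsAlg := by
  intro g
  rw [← mem_algebraicClosure_iff]
  change sp k z g ∈ _
  induction g using LaurentPolynomial.induction_on' with
  | add f g hf hg => rw [map_add]; exact add_mem hf hg
  | C_mul_T m a =>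
    simp only [sp, ev_CT, hz0, dite_false, Units.val_zpow_eq_zpow_val, Units.val_mk0]
    exact mul_mem (mem_algebraicClosure_iff.mpr (hk a))
      (zpow_mem (mem_algebraicClosure_iff.mpr hz) m)

end Pool.Agent.Lib.helper31.PeriodEx
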