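import Pool.Agent.Lib.helper31.JC

set_option autoImplicit false

namespace Pool.Agent.H31.Priv

open Complex Metric Set Filter Topology MeasureTheory Pool.Agent.H31.JC

/-- Poisson kernel -/
noncomputable def P (x y t : ℝ) : ℝ := y / ((x - t) ^ 2 + y ^ 2)

lemma P_eq (x : ℝ) {y : ℝ} (hy : 0 < y) :
    P x y = fun t => y⁻¹ * (1 + ((t - x) / y) ^ 2)⁻¹ := by
  funext t
  simp only [P]
  field_simp
  ring

lemma P_int (x : ℝ) {y : ℝ} (hy : 0 < y) : Integrable (P x y) := by
  rw [P_eq x hy]
  exact ((integrable_inv_one_add_sq.comp_div hy.ne').comp_sub_right x).const_mul _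

lemma P_nonneg (x : ℝ) {y : ℝ} (hy : 0 < y) (t : ℝ) : 0 ≤ P x y t := by
  simp only [P]; positivity

lemma P_total (x : ℝ) {y : ℝ} (hy : 0 < y) (K : Set ℝ) : ∫ t in K, P x y t ≤ 4 := by
  refine (setIntegral_le_integral (P_int x hy) (Eventually.of_forall (P_nonneg x hy))).trans ?_
  rw [P_eq x hy, integral_const_mul,
    integral_sub_right_eq_self (fun t : ℝ => (1 + (t / y) ^ 2)⁻¹) x,
    Measure.integral_comp_div (fun t : ℝ => (1 + t ^ 2)⁻¹) y, integral_univ_inv_one_add_sq,
    abs_of_pos hy, smul_eq_mul, ← mul_assoc, inv_mul_cancel₀ hy.ne', one_mul]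
  exact Real.pi_le_four

/-- holomorphic barrier -/
noncomputable def hb (K : Set ℝ) (w : ℂ) : ℂ := ∫ t in K, I / (w - t)

lemma im_le (w : ℂ) (t : ℝ) : w.im ≤ ‖w - t‖ := by
  simpa using im_le_norm (w - t)

lemma ker_cont {w : ℂ} (hw : w ∈ H) (n : ℕ) : Continuous fun t : ℝ => I / (w - t) ^ n := by
  have hw' : 0 < w.im := hw
  refine Continuous.div continuous_const (by fun_prop) fun t => pow_ne_zero _ ?_
  exact norm_pos_iff.1 (hw'.trans_le (im_le w t))

lemma ker_int {K : Set ℝ} (hK : IsCompact K) {w : ℂ} (hw : w ∈ H) :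
    IntegrableOn (fun t : ℝ => I / (w - t)) K := by
  have := (ker_cont hw 1).continuousOn.integrableOn_compact (μ := volume) hK
  simpa using this

lemma hb_diff {K : Set ℝ} (hK : IsCompact K) : DifferentiableOn ℂ (hb K) H := by
  intro w hw
  have hw' : 0 < w.im := hw
  have hs : {u : ℂ | w.im / 2 < u.im} ∈ 𝓝 w :=
    (isOpen_lt continuous_const continuous_im).mem_nhds (by simp; linarith)
  have : IsFiniteMeasure (volume.restrict K) := ⟨by simpa using hK.measure_lt_top⟩
  have := hasDerivAt_integral_of_dominated_loc_of_deriv_le (μ := volume.restrict K)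
    (F := fun (u : ℂ) (t : ℝ) => I / (u - t)) (F' := fun (u : ℂ) (t : ℝ) => -(I / (u - t) ^ 2))
    (bound := fun _ => 1 / (w.im / 2) ^ 2) hs
    (by
      filter_upwards [isOpen_H.mem_nhds hw] with u hu
      exact (ker_int hK hu).aestronglyMeasurable)
    (ker_int hK hw) (ker_cont hw 2).neg.aestronglyMeasurable
    (Eventually.of_forall fun t u hu => by
      have hu' : w.im / 2 < u.im := hu
      rw [norm_neg, norm_div, norm_I, norm_pow]
      apply one_div_le_one_div_of_le (by positivity)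
      exact pow_le_pow_left₀ (by positivity) (hu'.le.trans (im_le u t)) 2)
    (integrable_const _)
    (Eventually.of_forall fun t u hu => by
      have hu' : w.im / 2 < u.im := hu
      have hne : u - t ≠ 0 := norm_pos_iff.1 (lt_of_lt_of_le (by linarith) (im_le u t))
      have := (hasDerivAt_const u I).fun_div ((hasDerivAt_id' u).sub_const (t : ℂ)) hne
      refine this.congr_deriv ?_
      ring)
  exact this.2.differentiableAt.differentiableWithinAt

lemma hb_re {K : Set ℝ} (hK : IsCompact K) {w : ℂ} (hw : w ∈ H) :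
    (hb K w).re = ∫ t in K, P w.re w.im t := by
  have := integral_re (𝕜 := ℂ) (ker_int hK hw)
  simp only [RCLike.re_to_complex] at this
  rw [hb, ← this]
  congr 1
  funext t
  simp [P, div_re, normSq_apply, sq]

lemma lateral {K : Set ℝ} (hK : IsCompact K) {x y : ℝ} (hy : 0 < y)
    (h : ∀ t ∈ K, 16 * y ≤ |x - t|) : ∫ t in K, P x y t ≤ 1 / 2 := by
  have h1 : ∫ t in K, P x y t ≤ ∫ t in K, (1 / 8) * P x (16 * y) t := by
    refine setIntegral_mono_on (P_int x hy).integrableOn
      ((P_int x (by positivity)).const_mul _).integrableOn hK.measurableSet fun t ht => ?_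
    have a1 : (16 * y) ^ 2 ≤ (x - t) ^ 2 := by
      rw [← sq_abs (x - t)]; exact pow_le_pow_left₀ (by positivity) (h t ht) 2
    simp only [P]
    rw [← mul_div_assoc, div_le_div_iff₀ (by positivity) (by positivity)]
    nlinarith [mul_pos hy (pow_pos hy 2), mul_le_mul_of_nonneg_left a1 hy.le]
  rw [integral_const_mul] at h1
  linarith [P_total x (show 0 < 16 * y by positivity) K]

lemma top {K : Set ℝ} (hK : IsCompact K) (x : ℝ) {y : ℝ} (hy : 0 < y)
    (h : volume.real K ≤ y / 2) : ∫ t in K, P x y t ≤ 1 / 2 := by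
  have := norm_setIntegral_le_of_norm_le_const (μ := volume) (f := P x y) (C := 1 / y)
    hK.measure_lt_top fun t _ => by
      rw [Real.norm_eq_abs, abs_of_nonneg (P_nonneg x hy t)]
      simp only [P]
      rw [div_le_div_iff₀ (by positivity) hy]
      nlinarith [sq_nonneg (x - t)]
  refine ((le_abs_self _).trans this).trans ?_
  calc 1 / y * volume.real K ≤ 1 / y * (y / 2) := by gcongr
    _ = 1 / 2 := by field_simp

lemma inner {K : Set ℝ} (hK : IsCompact K) (x : ℝ) {y : ℝ} (hy : 0 < y)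
    (h : 9 / 5 * y ≤ volume.real (K ∩ closedBall x y)) : 9 / 10 ≤ ∫ t in K, P x y t := by
  have hc : IsCompact (K ∩ closedBall x y) := hK.inter_right isClosed_closedBall
  have h1 := setIntegral_ge_of_const_le_real (μ := volume) (f := P x y) (c := 1 / (2 * y))
    hc.measurableSet hc.measure_lt_top.ne (fun t ht => by
      have a1 : |t - x| ≤ y := by simpa [Real.dist_eq] using ht.2
      have a2 : (x - t) ^ 2 ≤ y ^ 2 := by
        rw [← sq_abs, abs_sub_comm]; exact pow_le_pow_left₀ (abs_nonneg _) a1 2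
      simp only [P]
      rw [div_le_div_iff₀ (by positivity) (by positivity)]
      nlinarith) (P_int x hy).integrableOn
  have h2 : ∫ t in K ∩ closedBall x y, P x y t ≤ ∫ t in K, P x y t :=
    setIntegral_mono_set (P_int x hy).integrableOn (Eventually.of_forall (P_nonneg x hy))
      inter_subset_left.eventuallyLE
  have h3 : 1 / (2 * y) * (9 / 5 * y) ≤ 1 / (2 * y) * volume.real (K ∩ closedBall x y) := by gcongr
  have h4 : 1 / (2 * y) * (9 / 5 * y) = 9 / 10 := by field_simp; norm_num
  linarith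

lemma barrier {G : ℂ → ℂ} (hG : DifferentiableOn ℂ G H) {K : Set ℝ} (hK : IsCompact K)
    {δ : ℝ} (hm : volume.real K ≤ δ / 2)
    (hu : ∀ e : ℝ, 0 < e → ∃ r : ℝ, 0 < r ∧ ∀ t ∈ K, ∀ w ∈ H, |w.re - t| < 17 * w.im → w.im < r →
      ‖G w‖ ≤ e)
    (hb1 : ∀ t ∈ K, ∀ w ∈ H, |w.re - t| < 17 * w.im → w.im ≤ δ → ‖G w‖ ≤ 1)
    {x y : ℝ} (hx : x ∈ K) (hy : 0 < y) (hyδ : y < δ)
    (h : 9 / 5 * y ≤ volume.real (K ∩ closedBall x y)) : G (x + y * I) = 0 := by
  have main : ∀ A : ℝ, 0 < A → ‖G (x + y * I)‖ * Real.exp (A * (2 / 5)) ≤ 1 := by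
    intro A hA
    obtain ⟨r, hr, hr2⟩ := hu (Real.exp (-(A * 4))) (Real.exp_pos _)
    set ε := min (r / 2) (y / 2) with hε
    have hε0 : 0 < ε := lt_min (by positivity) (by positivity)
    have hε1 : ε ≤ r / 2 := min_le_left _ _
    have hε2 : ε ≤ y / 2 := min_le_right _ _
    set Ω : Set ℂ := {w | ε < w.im ∧ w.im < δ ∧ infDist w.re K < 16 * w.im} with hΩ
    have hci : Continuous fun w : ℂ => infDist w.re K := (continuous_infDist_pt K).comp continuous_re
    have hΩo : IsOpen Ω := (isOpen_lt continuous_const continuous_im).inter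
      ((isOpen_lt continuous_im continuous_const).inter (isOpen_lt hci (by fun_prop)))
    have hcl : closure Ω ⊆ {w | ε ≤ w.im ∧ w.im ≤ δ ∧ infDist w.re K ≤ 16 * w.im} :=
      closure_minimal (fun w hw => ⟨hw.1.le, hw.2.1.le, hw.2.2.le⟩)
        ((isClosed_le continuous_const continuous_im).inter
          ((isClosed_le continuous_im continuous_const).inter (isClosed_le hci (by fun_prop))))
    have hclH : closure Ω ⊆ H := fun w hw => hε0.trans_le (hcl hw).1
    have hnear : ∀ w ∈ closure Ω, ∃ t ∈ K, |w.re - t| ≤ 16 * w.im := fun w hw => by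
      obtain ⟨t, ht, h1⟩ := hK.exists_infDist_eq_dist ⟨x, hx⟩ w.re
      exact ⟨t, ht, by rw [← Real.dist_eq, ← h1]; exact (hcl hw).2.2⟩
    have hbd : Bornology.IsBounded Ω := by
      obtain ⟨R, hR⟩ := hK.isBounded.exists_norm_le
      refine isBounded_iff_forall_norm_le.2 ⟨R + 17 * δ, fun w hw => ?_⟩
      obtain ⟨t, ht, h1⟩ := hnear w (subset_closure hw)
      have a1 := hR t ht
      have a2 := norm_le_abs_re_add_abs_im w
      have a3 : |w.re| ≤ |w.re - t| + |t| := by simpa using abs_add_le (w.re - t) t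
      rw [abs_of_pos (hε0.trans hw.1)] at a2
      rw [Real.norm_eq_abs] at a1
      linarith [hw.2.1]
    set Φ : ℂ → ℂ := fun w => G w * exp (A * (hb K w - 1 / 2)) with hΦ
    have hΦd : DifferentiableOn ℂ Φ H :=
      hG.mul ((((hb_diff hK).sub_const _).const_mul _).cexp)
    have hΦn : ∀ w ∈ H, ‖Φ w‖ = ‖G w‖ * Real.exp (A * ((∫ t in K, P w.re w.im t) - 1 / 2)) :=
      fun w hw => by
        simp only [hΦ, norm_mul, norm_exp]
        rw [← hb_re hK hw]
        simp
    have hfr : ∀ w ∈ frontier Ω, ‖Φ w‖ ≤ 1 := by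
      intro w hw
      have hw1 : w ∈ closure Ω := frontier_subset_closure hw
      have hw2 : w ∉ Ω := by rw [hΩo.frontier_eq] at hw; exact hw.2
      have hwH := hclH hw1
      have hw' : 0 < w.im := hwH
      obtain ⟨t, ht, h1⟩ := hnear w hw1
      obtain ⟨c1, c2, c3⟩ := hcl hw1
      rw [hΦn w hwH]
      have small : (∫ t in K, P w.re w.im t) ≤ 1 / 2 →
          ‖G w‖ * Real.exp (A * ((∫ t in K, P w.re w.im t) - 1 / 2)) ≤ 1 := fun hs =>
        mul_le_one₀ (hb1 t ht w hwH (by linarith) c2) (Real.exp_pos _).le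
          (Real.exp_le_one_iff.2 (by nlinarith))
      by_cases d1 : ε < w.im
      · by_cases d2 : w.im < δ
        · apply small
          refine lateral hK hw' fun s hs => ?_
          have : ¬ infDist w.re K < 16 * w.im := fun d3 => hw2 ⟨d1, d2, d3⟩
          rw [← Real.dist_eq]
          exact (not_lt.1 this).trans (infDist_le_dist_of_mem hs)
        · apply small
          exact top hK _ hw' (by linarith)
      · have e1 := hr2 t ht w hwH (by linarith) (by linarith)
        have e2 := P_total w.re hw' K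
        calc _ ≤ Real.exp (-(A * 4)) * Real.exp (A * 4) :=
              mul_le_mul e1 (Real.exp_le_exp.2 (by nlinarith)) (Real.exp_pos _).le
                (Real.exp_pos _).le
          _ = 1 := by rw [← Real.exp_add]; simp
    have hin : (x + y * I : ℂ) ∈ Ω := by
      refine ⟨by simp; linarith, by simpa using hyδ, ?_⟩
      simp [infDist_zero_of_mem hx, hy]
    have := norm_le_of_forall_mem_frontier_norm_le hbd (hΦd.mono hclH).diffContOnCl hfr
      (subset_closure hin)
    rw [hΦn _ (hclH (subset_closure hin))] at this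
    refine le_trans (mul_le_mul_of_nonneg_left (Real.exp_le_exp.2 ?_) (norm_nonneg _)) this
    have := inner hK x hy h
    simp only [add_re, ofReal_re, mul_re, I_re, mul_zero, ofReal_im, I_im, mul_one, sub_self,
      add_zero, add_im, mul_im, zero_add]
    nlinarith
  by_contra hne
  have hp : 0 < ‖G (x + y * I)‖ := norm_pos_iff.2 hne
  have h1 := main (5 / 2 / ‖G (x + y * I)‖) (by positivity)
  have h2 := Real.add_one_le_exp (5 / 2 / ‖G (x + y * I)‖ * (2 / 5))
  have h3 : ‖G (x + y * I)‖ * (5 / 2 / ‖G (x + y * I)‖ * (2 / 5)) = 1 := by field_simp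
  nlinarith [mul_le_mul_of_nonneg_left h2 hp.le]

/-- boundary points with nontangential limit zero -/
def Z (G : ℂ → ℂ) : Set ℝ :=
  {t | ∀ e : ℝ, 0 < e → ∃ r : ℝ, 0 < r ∧ ∀ w ∈ H, |w.re - t| < 17 * w.im → w.im < r → ‖G w‖ ≤ e}

theorem privalov {G : ℂ → ℂ} (hG : DifferentiableOn ℂ G H) (hZ : volume (Z G) ≠ 0) :
    ∀ w ∈ H, G w = 0 := by
  set A : ℕ → ℕ → Set ℝ := fun j n => {t | ∀ w ∈ H, |w.re - t| < 17 * w.im →
    w.im < 1 / ((n : ℝ) + 1) → ‖G w‖ ≤ 1 / ((j : ℝ) + 1)} with hA
  have hAc : ∀ j n, IsClosed (A j n) := fun j n => by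
    have : A j n = ⋂ w ∈ {w ∈ H | w.im < 1 / ((n : ℝ) + 1) ∧ ¬ ‖G w‖ ≤ 1 / ((j : ℝ) + 1)},
        {t : ℝ | 17 * w.im ≤ |w.re - t|} := by
      ext t
      simp only [hA, mem_ofPred_eq, mem_iInter]
      constructor
      · intro h w ⟨h1, h2, h3⟩
        by_contra h4
        exact h3 (h w h1 (not_le.1 h4) h2)
      · intro h w h1 h2 h3
        by_contra h4
        exact absurd (h w ⟨h1, h3, h4⟩) (not_le.2 h2)
    rw [this]
    exact isClosed_biInter fun w _ => isClosed_le continuous_const (by fun_prop)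
  have hAm : ∀ j, Monotone (A j) := fun j n m hnm t ht w h1 h2 h3 =>
    ht w h1 h2 (h3.trans_le (Nat.one_div_le_one_div hnm))
  have hZA : Z G ⊆ ⋂ j, ⋃ n, A j n := fun t ht => by
    refine mem_iInter.2 fun j => ?_
    obtain ⟨r, hr, h1⟩ := ht (1 / ((j : ℝ) + 1)) (by positivity)
    obtain ⟨n, hn⟩ := exists_nat_one_div_lt hr
    exact mem_iUnion.2 ⟨n, fun w h2 h3 h4 => h1 w h2 h3 (h4.trans hn)⟩
  obtain ⟨R, hR⟩ : ∃ R : ℕ, volume ((⋂ j, ⋃ n, A j n) ∩ Icc (-(R : ℝ)) R) ≠ 0 := by
    by_contra hc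
    push Not at hc
    apply hZ
    refine measure_mono_null (fun t ht => ?_) (measure_iUnion_null hc)
    obtain ⟨R, hR⟩ := exists_nat_ge |t|
    exact mem_iUnion.2 ⟨R, hZA ht, abs_le.1 hR⟩
  set S := (⋂ j, ⋃ n, A j n) ∩ Icc (-(R : ℝ)) R with hS
  have hSm : MeasurableSet S := (MeasurableSet.iInter fun j =>
    MeasurableSet.iUnion fun n => (hAc j n).measurableSet).inter measurableSet_Icc
  have hSf : volume S ≠ ⊤ := ((measure_mono inter_subset_right).trans_lt measure_Icc_lt_top).ne
  obtain ⟨e, he, hsum⟩ := ENNReal.exists_pos_sum_of_countable' hR ℕ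
  have hn : ∀ j, ∃ n, volume (S \ A j n) < e j := fun j => by
    have ht := tendsto_measure_iInter_atTop (μ := volume) (s := fun n => S \ A j n)
      (fun n => (hSm.diff (hAc j n).measurableSet).nullMeasurableSet)
      (fun n m hnm => sdiff_subset_sdiff_right (hAm j hnm))
      ⟨0, ((measure_mono sdiff_subset).trans_lt hSf.lt_top).ne⟩
    have : ⋂ n, S \ A j n = ∅ := by
      refine eq_empty_of_forall_notMem fun t ht => ?_
      obtain ⟨n, hn⟩ := mem_iUnion.1 (mem_iInter.1 (mem_iInter.1 ht 0).1.1 j)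
      exact (mem_iInter.1 ht n).2 hn
    rw [this, measure_empty] at ht
    exact (ht.eventually (gt_mem_nhds (he j))).exists
  choose n hn using hn
  set K := ⋂ j, A j (n j) with hK
  have hKc : IsClosed K := isClosed_iInter fun j => hAc j _
  have hK0 : volume K ≠ 0 := by
    intro h0
    have h1 : S ⊆ K ∪ ⋃ j, S \ A j (n j) := fun t ht => by
      by_cases h : t ∈ K
      · exact Or.inl h
      · simp only [hK, mem_iInter, not_forall] at h
        obtain ⟨j, hj⟩ := h
        exact Or.inr (mem_iUnion.2 ⟨j, ht, hj⟩)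
    have h2 := (measure_mono (μ := volume) h1).trans (measure_union_le _ _)
    rw [h0, zero_add] at h2
    have h3 := h2.trans ((measure_iUnion_le _).trans (ENNReal.tsum_le_tsum fun j => (hn j).le))
    exact absurd hsum (not_lt.2 h3)
  obtain ⟨x, hx, hd⟩ := Measure.exists_mem_of_measure_ne_zero_of_ae hK0
    (Besicovitch.ae_tendsto_measure_inter_div volume K)
  have hev := hd.eventually (lt_mem_nhds (show ENNReal.ofReal (9 / 10) < 1 by
    rw [ENNReal.ofReal_lt_one]; norm_num))
  obtain ⟨y0, hy0, hy1⟩ := (nhdsGT_basis (0 : ℝ)).eventually_iff.1 hev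
  set δ := 1 / ((n 0 : ℝ) + 1) / 2 with hδ
  have hδ0 : 0 < δ := by positivity
  set K' := K ∩ closedBall x (δ / 4) with hK'
  have hKK : IsCompact K' := (isCompact_closedBall x _).inter_left hKc
  have hzero : ∀ y : ℝ, 0 < y → y < min y0 (δ / 4) → G (x + y * I) = 0 := by
    intro y hy hy2
    have hy3 : y < y0 := hy2.trans_le (min_le_left _ _)
    have hy4 : y < δ / 4 := hy2.trans_le (min_le_right _ _)
    refine barrier hG hKK (δ := δ) ?_ ?_ ?_ ⟨hx, mem_closedBall_self (by positivity)⟩ hy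
      (by linarith) ?_
    · refine (measureReal_mono inter_subset_right measure_closedBall_lt_top.ne).trans ?_
      rw [Real.volume_real_closedBall (by positivity)]
      linarith
    · intro e' he'
      obtain ⟨j, hj⟩ := exists_nat_one_div_lt he'
      exact ⟨1 / ((n j : ℝ) + 1), by positivity, fun t ht w h1 h2 h3 =>
        (mem_iInter.1 ht.1 j w h1 h2 h3).trans hj.le⟩
    · intro t ht w h1 h2 h3
      have : 0 < 1 / ((n 0 : ℝ) + 1) := by positivity
      simpa using mem_iInter.1 ht.1 0 w h1 h2 (by linarith)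
    · have e1 : K' ∩ closedBall x y = K ∩ closedBall x y := by
        rw [hK', inter_assoc, inter_eq_self_of_subset_right (closedBall_subset_closedBall hy4.le)]
      have e2 := hy1 (show y ∈ Ioo 0 y0 from ⟨hy, hy3⟩)
      rw [ENNReal.lt_div_iff_mul_lt (Or.inl (measure_closedBall_pos _ _ hy).ne')
        (Or.inl measure_closedBall_lt_top.ne), Real.volume_closedBall,
        ← ENNReal.ofReal_mul (by norm_num)] at e2
      rw [e1, Measure.real]
      have e3 := (ENNReal.ofReal_le_iff_le_toReal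
        ((measure_mono inter_subset_right).trans_lt measure_closedBall_lt_top).ne).1 e2.le
      linarith
  set m := min y0 (δ / 4) with hm
  have hm0 : 0 < m := lt_min hy0 (by positivity)
  have hconv : Convex ℝ H := convex_halfSpace_im_gt 0
  have hz0 : (x + (m / 2 : ℝ) * I : ℂ) ∈ H := by simp [H, hm0]
  refine (hG.analyticOnNhd isOpen_H).eqOn_zero_of_preconnected_of_frequently_eq_zero
    hconv.isPreconnected hz0 ?_
  have ht : Tendsto (fun s : ℝ => (x + s * I : ℂ)) (𝓝[>] (m / 2))
      (𝓝[≠] (x + (m / 2 : ℝ) * I : ℂ)) := by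
    refine tendsto_nhdsWithin_iff.2 ⟨tendsto_nhdsWithin_of_tendsto_nhds
      (Continuous.tendsto (by fun_prop) _), eventually_nhdsWithin_of_forall fun s hs h => ?_⟩
    have := congrArg Complex.im h
    simp at this
    have hs' : m / 2 < s := hs
    linarith
  refine ht.frequently (Eventually.frequently ?_)
  filter_upwards [Ioo_mem_nhdsGT (show m / 2 < m by linarith)] with s hs
  exact hzero s (by linarith [hs.1]) hs.2

end Pool.Agent.H31.Priv
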