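import Mathlib

open Set Filter Topology Real
open scoped ContDiff

namespace Pool.Agent.Lib.helper31.Rad

noncomputable def m1 (s : ℝ) : ℝ := 1 - smoothTransition (1 - s) / 2
noncomputable def m2 (s : ℝ) : ℝ := deriv m1 s
noncomputable def m (s : ℝ) : ℝ := 1 + ∫ t in (1:ℝ)..s, m1 t

lemma m1_smooth : ContDiff ℝ ∞ m1 := by
  unfold m1
  exact contDiff_const.sub ((smoothTransition.contDiff.comp (by fun_prop)).div_const 2)

lemma m1d (s : ℝ) : HasDerivAt m1 (m2 s) s :=
  ((m1_smooth.differentiable (by simp)) s).hasDerivAt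

lemma md (s : ℝ) : HasDerivAt m (m1 s) s :=
  (m1_smooth.continuous.integral_hasStrictDerivAt 1 s).hasDerivAt.const_add 1

lemma m_smooth : ContDiff ℝ ∞ m := by
  rw [contDiff_infty_iff_deriv]
  refine ⟨fun s => (md s).differentiableAt, ?_⟩
  have : deriv m = m1 := by ext s; exact (md s).deriv
  rw [this]; exact m1_smooth

lemma m2_smooth : ContDiff ℝ ∞ m2 := (contDiff_infty_iff_deriv.1 m1_smooth).2

lemma m1_ge (s : ℝ) : 1/2 ≤ m1 s := by
  unfold m1; linarith [smoothTransition.le_one (1 - s)]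
lemma m1_le (s : ℝ) : m1 s ≤ 1 := by
  unfold m1; linarith [smoothTransition.nonneg (1 - s)]
lemma m1_mono : Monotone m1 := fun a b h => by
  unfold m1; linarith [smoothTransition.monotone (show 1 - b ≤ 1 - a by linarith)]
lemma m2_nonneg (s : ℝ) : 0 ≤ m2 s := m1_mono.deriv_nonneg
lemma m1_hi {s : ℝ} (h : 1 ≤ s) : m1 s = 1 := by
  unfold m1; rw [smoothTransition.zero_of_nonpos (by linarith)]; ring
lemma m1_lo {s : ℝ} (h : s ≤ 0) : m1 s = 1/2 := by
  unfold m1; rw [smoothTransition.one_of_one_le (by linarith)]; ring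
lemma m2_hi {s : ℝ} (h : 1 < s) : m2 s = 0 := by
  have : m1 =ᶠ[𝓝 s] fun _ => 1 := by
    filter_upwards [Ioi_mem_nhds h] with x hx using m1_hi (le_of_lt hx)
  unfold m2; rw [this.deriv_eq]; simp
lemma m2_lo {s : ℝ} (h : s < 0) : m2 s = 0 := by
  have : m1 =ᶠ[𝓝 s] fun _ => 1/2 := by
    filter_upwards [Iio_mem_nhds h] with x hx using m1_lo (le_of_lt hx)
  unfold m2; rw [this.deriv_eq]; simp
lemma m_one : m 1 = 1 := by simp [m]
lemma m_hi {s : ℝ} (h : 1 ≤ s) : m s = s := by
  unfold m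
  rw [intervalIntegral.integral_congr (g := fun _ => 1)]
  · simp
  · intro x hx
    rw [uIcc_of_le h] at hx
    exact m1_hi hx.1

lemma rho_anti : Antitone (fun s => m s - s) :=
  antitone_of_deriv_nonpos (fun s => ((md s).sub (hasDerivAt_id s)).differentiableAt) fun s => by
    have e : deriv (fun s => m s - s) s = m1 s - 1 := ((md s).sub (hasDerivAt_id s)).deriv
    rw [e]; linarith [m1_le s]

lemma m_ge (s : ℝ) : s ≤ m s := by
  rcases le_total s 1 with h | h
  · have := rho_anti h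
    simp only [m_one] at this; linarith
  · rw [m_hi h]

lemma g_mono : Monotone (fun s => m s - s / 2) :=
  monotone_of_deriv_nonneg (fun s => ((md s).sub ((hasDerivAt_id s).div_const 2)).differentiableAt)
    fun s => by
      have e : deriv (fun s => m s - s / 2) s = m1 s - 1 / 2 :=
        ((md s).sub ((hasDerivAt_id s).div_const 2)).deriv
      rw [e]; linarith [m1_ge s]

lemma m_strictMono : StrictMono m :=
  strictMono_of_deriv_pos fun s => by rw [(md s).deriv]; linarith [m1_ge s]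

lemma m_zero_pos : 0 < m 0 := by
  by_contra h
  have h0 : m 0 = 0 := le_antisymm (not_lt.1 h) (m_ge 0)
  have e : ∀ s ∈ Ioi (0:ℝ), m s = s := fun s hs => by
    have := rho_anti (le_of_lt hs)
    simp only [h0] at this
    linarith [m_ge s]
  have ev : m =ᶠ[𝓝 (1/2)] fun s => s := by
    filter_upwards [Ioi_mem_nhds (show (0:ℝ) < 1/2 by norm_num)] with x hx using e x hx
  have d : m1 (1/2) = 1 := by
    rw [← (md (1/2)).deriv, ev.deriv_eq]; simp
  unfold m1 at d
  linarith [smoothTransition.pos_of_pos (show (0:ℝ) < 1 - 1/2 by norm_num)]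

lemma m_pos {s : ℝ} (h : 0 ≤ s) : 0 < m s := m_zero_pos.trans_le (m_strictMono.monotone h)

lemma m_surj : Function.Surjective m := by
  intro y
  have ha : m (1 - 2*|y - 1|) ≤ y := by
    have := g_mono (show 1 - 2*|y-1| ≤ 1 by linarith [abs_nonneg (y-1)])
    simp only [m_one] at this
    linarith [neg_abs_le (y-1)]
  have hb : y ≤ m (1 + 2*|y - 1|) := by
    have := g_mono (show 1 ≤ 1 + 2*|y-1| by linarith [abs_nonneg (y-1)])
    simp only [m_one] at this
    linarith [le_abs_self (y-1)]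
  exact intermediate_value_univ _ _ m_smooth.continuous ⟨ha, hb⟩

noncomputable def mH : ℝ ≃ₜ ℝ := (m_strictMono.orderIsoOfSurjective m m_surj).toHomeomorph
noncomputable def n (v : ℝ) : ℝ := mH.symm v
lemma n_m (w : ℝ) : n (m w) = w := mH.symm_apply_apply w
lemma m_n (v : ℝ) : m (n v) = v := mH.apply_symm_apply v
lemma n_smooth : ContDiff ℝ ∞ n :=
  mH.contDiff_symm_deriv (n := ∞) (f' := m1) (fun a => by linarith [m1_ge a]) md m_smooth

noncomputable def B (s : ℝ) : ℝ := 3 * m1 s * (m s - s * m1 s) + 2 * s * m s * m2 s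

lemma B_smooth : ContDiff ℝ ∞ B := by
  have := m_smooth; have := m1_smooth; have := m2_smooth
  unfold B; fun_prop

lemma B_hi {s : ℝ} (h : 1 < s) : B s = 0 := by
  unfold B; rw [m_hi h.le, m1_hi h.le, m2_hi h]; ring

lemma B_nonneg {s : ℝ} (hm : 0 ≤ m s) : 0 ≤ B s := by
  unfold B
  have a := m1_ge s
  rcases lt_or_ge s 0 with h | h
  · rw [m2_lo h]
    have : 0 ≤ m s - s * m1 s := by nlinarith
    have : 0 ≤ m1 s := by linarith
    simp only [mul_zero, add_zero]; positivity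
  · have : 0 ≤ m s - s * m1 s := by nlinarith [m_ge s, m1_le s]
    have : 0 ≤ m1 s := by linarith
    have := m2_nonneg s
    positivity

lemma B_zero : 0 < B 0 := by
  unfold B; rw [m1_lo le_rfl]; have := m_zero_pos; linarith

noncomputable def psi (s : ℝ) : ℝ := -(√(m s))⁻¹
noncomputable def psi1 (s : ℝ) : ℝ := m1 s / 2 * ((√(m s))⁻¹) ^ 3
noncomputable def psi2 (s : ℝ) : ℝ :=
  m2 s / 2 * ((√(m s))⁻¹) ^ 3 - 3 / 4 * m1 s ^ 2 * ((√(m s))⁻¹) ^ 5

lemma qd {s : ℝ} (h : 0 < m s) :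
    HasDerivAt (fun s => (√(m s))⁻¹) (-(m1 s / 2 * ((√(m s))⁻¹) ^ 3)) s := by
  have hq : √(m s) ≠ 0 := (sqrt_pos.2 h).ne'
  refine (((md s).sqrt h.ne').inv hq).congr_deriv ?_
  field_simp

lemma psid {s : ℝ} (h : 0 < m s) : HasDerivAt psi (psi1 s) s :=
  (qd h).neg.congr_deriv (by simp [psi1])

lemma psi1d {s : ℝ} (h : 0 < m s) : HasDerivAt psi1 (psi2 s) s :=
  (((m1d s).div_const 2).mul ((qd h).pow 3)).congr_deriv (by simp [psi2]; ring)

lemma psi1_pos {s : ℝ} (h : 0 < m s) : 0 < psi1 s := by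
  have := sqrt_pos.2 h
  have : 0 < m1 s := by linarith [m1_ge s]
  unfold psi1; positivity

lemma psi_neg {s : ℝ} (h : 0 < m s) : psi s < 0 := by
  have := sqrt_pos.2 h
  have : 0 < (√(m s))⁻¹ := by positivity
  unfold psi; linarith

lemma psi_lt {s : ℝ} (h : 0 < s) : psi 0 < psi s := by
  have a := m_zero_pos
  have b := sqrt_lt_sqrt a.le (m_strictMono h)
  have := inv_strictAnti₀ (sqrt_pos.2 a) b
  unfold psi; linarith

lemma psi_smooth {s : ℝ} (h : 0 < m s) : ContDiffAt ℝ ∞ psi s :=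
  ((m_smooth.contDiffAt.sqrt h.ne').inv (sqrt_pos.2 h).ne').neg

noncomputable def f (v : ℝ) : ℝ :=
  smoothTransition (v - psi 0 + 1) * (smoothTransition (-1 - 4 * v) * ((-v) ^ 5 * B (n (v⁻¹ ^ 2))))

lemma f_hi {v : ℝ} (h : -1/4 ≤ v) : f v = 0 := by
  unfold f; rw [smoothTransition.zero_of_nonpos (x := -1 - 4 * v) (by linarith)]; ring

lemma f_lo {v : ℝ} (h : v ≤ psi 0 - 1) : f v = 0 := by
  unfold f; rw [smoothTransition.zero_of_nonpos (x := v - psi 0 + 1) (by linarith)]; ring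

lemma f_nonneg (v : ℝ) : 0 ≤ f v := by
  rcases le_total (-1/4) v with h | h
  · rw [f_hi h]
  · have := B_nonneg (s := n (v⁻¹ ^ 2)) (by rw [m_n]; positivity)
    have : 0 ≤ -v := by linarith
    have := smoothTransition.nonneg (v - psi 0 + 1)
    have := smoothTransition.nonneg (-1 - 4 * v)
    unfold f; positivity

lemma f_smooth : ContDiff ℝ ∞ f := by
  rw [contDiff_iff_contDiffAt]
  intro v
  by_cases hv : v = 0
  · have : f =ᶠ[𝓝 v] fun _ => 0 := by
      filter_upwards [Ioi_mem_nhds (show (-1/4:ℝ) < v by rw [hv]; norm_num)] with x hx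
      exact f_hi (le_of_lt hx)
    exact contDiffAt_const.congr_of_eventuallyEq this
  · have a1 : ContDiff ℝ ∞ (fun v : ℝ => smoothTransition (v - psi 0 + 1)) :=
      smoothTransition.contDiff.comp (by fun_prop)
    have a2 : ContDiff ℝ ∞ (fun v : ℝ => smoothTransition (-1 - 4 * v)) :=
      smoothTransition.contDiff.comp (by fun_prop)
    have a3 : ContDiffAt ℝ ∞ (fun v : ℝ => B (n (v⁻¹ ^ 2))) v :=
      (B_smooth.comp n_smooth).contDiffAt.comp v ((contDiffAt_id.inv hv).pow 2)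
    exact a1.contDiffAt.mul (a2.contDiffAt.mul ((contDiffAt_id.neg.pow 5).mul a3))

lemma f_supp : HasCompactSupport f := by
  refine HasCompactSupport.intro (isCompact_Icc (a := psi 0 - 1) (b := 0)) fun v hv => ?_
  by_cases h : v ≤ psi 0 - 1
  · exact f_lo h
  · refine f_hi ?_
    by_contra h2
    exact hv ⟨by linarith, by linarith⟩

lemma f_psi {s : ℝ} (hs : 0 ≤ s) : f (psi s) = ((√(m s))⁻¹) ^ 5 * B s := by
  have h := m_pos hs
  have e : (psi s)⁻¹ ^ 2 = m s := by
    unfold psi; rw [inv_neg, inv_inv, neg_sq, sq_sqrt h.le]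
  have lo : psi 0 ≤ psi s := by
    rcases hs.eq_or_lt with h0 | h0
    · rw [← h0]
    · exact (psi_lt h0).le
  unfold f
  rw [e, n_m, smoothTransition.one_of_one_le (by linarith), one_mul]
  have e2 : -psi s = (√(m s))⁻¹ := by simp [psi]
  rw [e2]
  rcases le_or_gt s 1 with h1 | h1
  · rw [smoothTransition.one_of_one_le, one_mul]
    have a : m s ≤ 1 := by rw [← m_one]; exact m_strictMono.monotone h1
    have b : √(m s) ≤ 1 := sqrt_le_one.2 a
    have c : 1 ≤ (√(m s))⁻¹ := one_le_inv₀ (sqrt_pos.2 h) |>.2 b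
    linarith
  · rw [B_hi h1]; ring

lemma key {s : ℝ} (hs : 0 ≤ s) : 6 * psi1 s + 4 * s * psi2 s = f (psi s) := by
  have h := m_pos hs
  rw [f_psi hs]
  have hq : √(m s) ≠ 0 := (sqrt_pos.2 h).ne'
  have e : m s * ((√(m s))⁻¹) ^ 2 = 1 := by
    rw [inv_pow, sq_sqrt h.le]; field_simp
  unfold psi1 psi2 B
  linear_combination (-(3 * m1 s + 2 * s * m2 s) * ((√(m s))⁻¹) ^ 3) * e

lemma f_ne : f ≠ 0 := by
  intro h
  have := f_psi (le_refl (0:ℝ))
  rw [h] at this
  have a := B_zero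
  have b := sqrt_pos.2 m_zero_pos
  have : 0 < ((√(m 0))⁻¹) ^ 5 * B 0 := by positivity
  simp only [Pi.zero_apply] at *
  linarith

end Pool.Agent.Lib.helper31.Rad
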