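import Pool.Agent.Lib.helper31.NumIdx

set_option autoImplicit false

namespace Pool.Agent.Lib.helper31.RealCStar

open Filter Topology Pool.Agent.Lib.helper31.NumIdx

section general
variable {X : Type} [NormedAddCommGroup X] [NormedSpace ℝ X]

lemma le_numRadius (T : X →L[ℝ] X) (x : X) (f : X →L[ℝ] ℝ) (hx : ‖x‖ = 1) (hf : ‖f‖ = 1)
    (hfx : f x = 1) : |f (T x)| ≤ numRadius ℝ X T := by
  refine le_csSup ⟨‖T‖, ?_⟩ ⟨x, f, hx, hf, hfx, rfl⟩
  rintro _ ⟨y, g, hy, hg, -, rfl⟩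
  calc ‖g (T y)‖ ≤ ‖g‖ * ‖T y‖ := g.le_opNorm _
    _ ≤ ‖g‖ * (‖T‖ * ‖y‖) := mul_le_mul_of_nonneg_left (T.le_opNorm _) (norm_nonneg _)
    _ = _ := by rw [hg, hy]; ring

lemma numRadius_le (T : X →L[ℝ] X) (c : ℝ) (hc : 0 ≤ c)
    (h : ∀ (x : X) (f : X →L[ℝ] ℝ), ‖x‖ = 1 → ‖f‖ = 1 → f x = 1 → |f (T x)| ≤ c) :
    numRadius ℝ X T ≤ c := by
  refine Real.sSup_le ?_ hc
  rintro _ ⟨y, g, hy, hg, hgy, rfl⟩
  exact h y g hy hg hgy

lemma numRadius_le_norm (T : X →L[ℝ] X) : numRadius ℝ X T ≤ ‖T‖ :=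
  numRadius_le T _ (norm_nonneg _) fun y g hy hg _ => by
    calc ‖g (T y)‖ ≤ ‖g‖ * ‖T y‖ := g.le_opNorm _
      _ ≤ ‖g‖ * (‖T‖ * ‖y‖) := mul_le_mul_of_nonneg_left (T.le_opNorm _) (norm_nonneg _)
      _ = _ := by rw [hg, hy]; ring

lemma lumer_low (T : X →L[ℝ] X) (t : ℝ) (z : X) :
    (1 - |t| * numRadius ℝ X T) * ‖z‖ ≤ ‖z - t • T z‖ := by
  by_cases h : z = 0
  · simp [h]
  have hpos : 0 < ‖z‖ := norm_pos_iff.2 h
  obtain ⟨f, hf, hfz⟩ := exists_dual_vector ℝ z hpos.ne'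
  have hfz' : f z = ‖z‖ := by simpa using hfz
  have h1 := le_numRadius T (‖z‖⁻¹ • z) f (by
    rw [norm_smul, norm_inv, norm_norm, inv_mul_cancel₀ hpos.ne']) hf (by
    rw [map_smul, hfz', smul_eq_mul, inv_mul_cancel₀ hpos.ne'])
  rw [map_smul, map_smul, smul_eq_mul, abs_mul, abs_inv, abs_norm, inv_mul_le_iff₀ hpos] at h1
  have h2 := f.le_opNorm (z - t • T z)
  rw [hf, one_mul, map_sub, map_smul, hfz', smul_eq_mul] at h2
  have h3 : t * f (T z) ≤ |t| * (‖z‖ * numRadius ℝ X T) := by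
    calc _ ≤ |t * f (T z)| := le_abs_self _
      _ = |t| * |f (T z)| := abs_mul _ _
      _ ≤ _ := mul_le_mul_of_nonneg_left h1 (abs_nonneg _)
  have h4 := le_abs_self (‖z‖ - t * f (T z))
  rw [Real.norm_eq_abs] at h2
  nlinarith

lemma lumer (T : X →L[ℝ] X) (hT : ‖T‖ = 1) (t : ℝ) (ht : |t| < 1) :
    (1 - |t| * numRadius ℝ X T) * ‖ContinuousLinearMap.id ℝ X + t • T‖ ≤ 1 + t ^ 2 := by
  have hv := numRadius_le_norm T
  have hv0 := numRadius_nonneg ℝ X T
  have hpos : 0 < 1 - |t| * numRadius ℝ X T := by nlinarith [abs_nonneg t]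
  rw [← le_div_iff₀' hpos]
  refine ContinuousLinearMap.opNorm_le_of_unit_norm (by positivity) fun x hx => ?_
  rw [le_div_iff₀' hpos]
  have h1 := lumer_low T t (x + t • T x)
  have h2 : x + t • T x - t • T (x + t • T x) = x - t ^ 2 • T (T x) := by
    rw [map_add, map_smul, smul_add, smul_smul, sq]; abel
  rw [h2] at h1
  refine le_trans h1 ((norm_sub_le _ _).trans ?_)
  rw [hx, norm_smul, Real.norm_eq_abs, abs_of_nonneg (sq_nonneg t)]
  have h3 : ‖T (T x)‖ ≤ 1 := by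
    calc ‖T (T x)‖ ≤ ‖T‖ * ‖T x‖ := T.le_opNorm _
      _ ≤ ‖T‖ * (‖T‖ * ‖x‖) := mul_le_mul_of_nonneg_left (T.le_opNorm _) (norm_nonneg _)
      _ = 1 := by rw [hT, hx]; ring
  nlinarith [sq_nonneg t]

lemma index_one [Nontrivial X] (h : ∀ T : X →L[ℝ] X, ‖T‖ = 1 → ∀ t : ℝ, 0 < t →
    1 + t ≤ max ‖ContinuousLinearMap.id ℝ X + t • T‖ ‖ContinuousLinearMap.id ℝ X + (-t) • T‖) :
    numIndex ℝ X = 1 := by
  have key : ∀ T : X →L[ℝ] X, ‖T‖ = 1 → numRadius ℝ X T = 1 := by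
    intro T hT
    have hv := numRadius_le_norm T
    have hv0 := numRadius_nonneg ℝ X T
    rw [hT] at hv
    refine le_antisymm hv ?_
    by_contra hlt
    push Not at hlt
    set μ := numRadius ℝ X T
    have ht : 0 < (1 - μ) / 4 := by linarith
    set t := (1 - μ) / 4 with htdef
    have ht1 : t < 1 := by linarith
    have a1 := lumer T hT t (by rw [abs_of_pos ht]; exact ht1)
    have a2 := lumer T hT (-t) (by rw [abs_neg, abs_of_pos ht]; exact ht1)
    rw [abs_of_pos ht] at a1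
    rw [abs_neg, abs_of_pos ht, neg_sq] at a2
    have hpos : 0 < 1 - t * μ := by nlinarith
    have a3 : (1 - t * μ) * (1 + t) ≤ 1 + t ^ 2 := by
      rcases le_max_iff.1 (h T hT t ht) with b | b
      · exact (mul_le_mul_of_nonneg_left b hpos.le).trans a1
      · exact (mul_le_mul_of_nonneg_left b hpos.le).trans a2
    have a4 : t * (1 - μ - t * μ - t) ≤ 0 := by nlinarith
    have a5 : 0 < 1 - μ - t * μ - t := by nlinarith
    nlinarith
  have : {c : ℝ | ∃ T : X →L[ℝ] X, ‖T‖ = 1 ∧ c = numRadius ℝ X T} = {1} := by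
    ext c
    constructor
    · rintro ⟨T, hT, rfl⟩
      exact key T hT
    · rintro rfl
      exact ⟨ContinuousLinearMap.id ℝ X, ContinuousLinearMap.norm_id,
        (key _ ContinuousLinearMap.norm_id).symm⟩
  rw [numIndex, this, csInf_singleton]

lemma index_zero (T : X →L[ℝ] X) (hT : T ≠ 0) (c : ℝ)
    (h : ∀ (t : ℝ) (x : X), ‖x + t • T x‖ ≤ (1 + c * t ^ 2) * ‖x‖) : numIndex ℝ X = 0 := by
  have hpos : 0 < ‖T‖ := norm_pos_iff.2 hT
  have key : ∀ (x : X) (f : X →L[ℝ] ℝ), ‖x‖ = 1 → ‖f‖ = 1 → f x = 1 → f (T x) = 0 := by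
    intro x f hx hf hfx
    have h1 : ∀ t : ℝ, t * f (T x) ≤ c * t ^ 2 := by
      intro t
      have h2 := f.le_opNorm (x + t • T x)
      rw [hf, one_mul, map_add, map_smul, hfx, smul_eq_mul, Real.norm_eq_abs] at h2
      have h3 := h t x
      rw [hx] at h3
      linarith [le_abs_self (1 + t * f (T x))]
    set r := f (T x)
    have h2 := h1 (r / (2 * (|c| + 1)))
    have h3 : 0 < |c| + 1 := by positivity
    have h4 : c * (r / (2 * (|c| + 1))) ^ 2 ≤ (|c| + 1) * (r / (2 * (|c| + 1))) ^ 2 :=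
      mul_le_mul_of_nonneg_right (by linarith [le_abs_self c]) (sq_nonneg _)
    have h5 : (|c| + 1) * (r / (2 * (|c| + 1))) ^ 2 = r ^ 2 / (4 * (|c| + 1)) := by
      field_simp; ring
    have h6 : r / (2 * (|c| + 1)) * r = 2 * (r ^ 2 / (4 * (|c| + 1))) := by
      field_simp; ring
    have h7 : r ^ 2 / (4 * (|c| + 1)) ≤ 0 := by linarith
    have h8 : r ^ 2 ≤ 0 := by
      by_contra hh
      push Not at hh
      have : 0 < r ^ 2 / (4 * (|c| + 1)) := by positivity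
      linarith
    exact pow_eq_zero_iff (two_ne_zero) |>.1 (le_antisymm h8 (sq_nonneg r))
  have hb : BddBelow {c : ℝ | ∃ T : X →L[ℝ] X, ‖T‖ = 1 ∧ c = numRadius ℝ X T} :=
    ⟨0, by rintro _ ⟨S, -, rfl⟩; exact numRadius_nonneg ℝ X S⟩
  have hm : ‖(‖T‖⁻¹ • T)‖ = 1 := by rw [norm_smul, norm_inv, norm_norm, inv_mul_cancel₀ hpos.ne']
  refine le_antisymm (csInf_le_of_le hb ⟨_, hm, rfl⟩ ?_) (le_csInf ⟨_, _, hm, rfl⟩ ?_)
  · refine numRadius_le _ 0 le_rfl fun x f hx hf hfx => ?_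
    simp [key x f hx hf hfx]
  · rintro _ ⟨S, -, rfl⟩
    exact numRadius_nonneg ℝ X S

/-- alternative Daugavet inequality in function algebras -/
lemma adp (S : Set (X →ₗ[ℝ] ℝ)) (hmul : ∀ a b : X, ∃ c : X, ∀ χ ∈ S, χ c = χ a * χ b)
    (hle : ∀ χ ∈ S, ∀ a, |χ a| ≤ ‖a‖) (hatt : ∀ a, ∃ χ ∈ S, |χ a| = ‖a‖)
    (T : X →L[ℝ] X) (hT : ‖T‖ = 1) (t : ℝ) (ht : 0 < t) :
    1 + t ≤ max ‖ContinuousLinearMap.id ℝ X + t • T‖ ‖ContinuousLinearMap.id ℝ X + (-t) • T‖ := by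
  set N := max ‖ContinuousLinearMap.id ℝ X + t • T‖ ‖ContinuousLinearMap.id ℝ X + (-t) • T‖
  have hN0 : 0 ≤ N := (norm_nonneg _).trans (le_max_left _ _)
  have key : ∀ x : X, ‖x‖ = 1 → T x ≠ 0 → 1 + t * ‖T x‖ ≤ N := by
    intro x hx hb
    set b := T x with hbdef
    have hbpos : 0 < ‖b‖ := norm_pos_iff.2 hb
    obtain ⟨χ₀, hχ₀, h0⟩ := hatt b
    set s := χ₀ x with hs
    have hs1 : |s| ≤ 1 := hx ▸ hle χ₀ hχ₀ x
    rw [abs_le] at hs1
    have hg : ∀ n : ℕ, ∃ g : X, ∀ χ ∈ S, χ g = (1 - (χ x - s) ^ 2 / 4) ^ n * ((χ b) ^ 2 / ‖b‖ ^ 2) := by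
      intro n
      induction n with
      | zero =>
        obtain ⟨c, hc⟩ := hmul b b
        refine ⟨(‖b‖ ^ 2)⁻¹ • c, fun χ hχ => ?_⟩
        rw [map_smul, hc χ hχ, smul_eq_mul]
        field_simp
      | succ n ih =>
        obtain ⟨g, hg⟩ := ih
        obtain ⟨c, hc⟩ := hmul x g
        obtain ⟨d, hd⟩ := hmul x c
        refine ⟨g - (1 / 4 : ℝ) • (d - (2 * s) • c + s ^ 2 • g), fun χ hχ => ?_⟩
        simp only [map_sub, map_add, map_smul, smul_eq_mul, hd χ hχ, hc χ hχ]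
        rw [hg χ hχ]
        ring
    refine le_of_forall_pos_le_add fun ε hε => ?_
    set η := min 1 (ε / (N + 1)) with hη
    have hη0 : 0 < η := lt_min one_pos (by positivity)
    have hη1 : η ≤ 1 := min_le_left _ _
    have hη2 : η * N ≤ ε := by
      have : η ≤ ε / (N + 1) := min_le_right _ _
      rw [le_div_iff₀ (by positivity)] at this
      nlinarith
    obtain ⟨n, hn⟩ := exists_pow_lt_of_lt_one (x := η / 2) (y := 1 - η ^ 2 / 4) (by positivity)
      (by nlinarith)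
    obtain ⟨g, hg⟩ := hg n
    have hg0 : χ₀ g = 1 := by
      rw [hg χ₀ hχ₀, ← hs, ← sq_abs (χ₀ b), h0]
      field_simp
      simp
    have hy : ∀ r : ℝ, -1 - s ≤ r → r ≤ 1 - s → ‖x + r • g‖ ≤ 1 + η := by
      intro r r1 r2
      obtain ⟨χ, hχ, he⟩ := hatt (x + r • g)
      rw [← he, map_add, map_smul, smul_eq_mul]
      have u1 : |χ x| ≤ 1 := hx ▸ hle χ hχ x
      rw [abs_le] at u1
      have k0 : 0 ≤ (χ b) ^ 2 / ‖b‖ ^ 2 := by positivity
      have k1 : (χ b) ^ 2 / ‖b‖ ^ 2 ≤ 1 := by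
        rw [div_le_one (by positivity), ← sq_abs]
        exact pow_le_pow_left₀ (abs_nonneg _) (hle χ hχ b) 2
      have w0 : 0 ≤ 1 - (χ x - s) ^ 2 / 4 := by nlinarith
      have w1 : 1 - (χ x - s) ^ 2 / 4 ≤ 1 := by nlinarith [sq_nonneg (χ x - s)]
      have g0 : 0 ≤ χ g := by rw [hg χ hχ]; positivity
      have g1 : χ g ≤ (1 - (χ x - s) ^ 2 / 4) ^ n := by
        rw [hg χ hχ]
        exact mul_le_of_le_one_right (by positivity) k1
      have g2 : χ g ≤ 1 := g1.trans (pow_le_one₀ w0 w1)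
      by_cases hc : |χ x - s| ≤ η
      · rw [abs_le] at hc ⊢
        constructor
        · rcases le_total 0 r with r0 | r0 <;> nlinarith
        · rcases le_total 0 r with r0 | r0 <;> nlinarith
      · push Not at hc
        have : η ^ 2 ≤ (χ x - s) ^ 2 := by
          rw [← sq_abs (χ x - s)]
          exact pow_le_pow_left₀ hη0.le hc.le 2
        have g3 : χ g ≤ η / 2 :=
          g1.trans ((pow_le_pow_left₀ w0 (by linarith) n).trans hn.le)
        rw [abs_le]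
        constructor <;> nlinarith
    have fin : ∀ y : X, ‖y‖ ≤ 1 + η → |χ₀ y| = 1 → ‖b‖ ≤ |χ₀ (T y)| → 1 + t * ‖b‖ ≤ N + ε := by
      intro y y1 y2 y3
      have p1 : ∀ r : ℝ, |χ₀ y + r * χ₀ (T y)| ≤ ‖ContinuousLinearMap.id ℝ X + r • T‖ * (1 + η) := by
        intro r
        have := hle χ₀ hχ₀ ((ContinuousLinearMap.id ℝ X + r • T) y)
        have e : χ₀ ((ContinuousLinearMap.id ℝ X + r • T) y) = χ₀ y + r * χ₀ (T y) := by simp
        rw [e] at this
        exact this.trans ((ContinuousLinearMap.le_opNorm _ _).trans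
          (mul_le_mul_of_nonneg_left y1 (norm_nonneg _)))
      have p2 := (p1 t).trans (mul_le_mul_of_nonneg_right (le_max_left _ ‖ContinuousLinearMap.id ℝ X + (-t) • T‖) (by positivity))
      have p3 := (p1 (-t)).trans (mul_le_mul_of_nonneg_right (le_max_right ‖ContinuousLinearMap.id ℝ X + t • T‖ _) (by positivity))
      change _ ≤ N * (1 + η) at p2 p3
      rw [abs_le] at p2 p3
      have p4 := mul_le_mul_of_nonneg_left y3 ht.le
      rcases abs_cases (χ₀ y) with ⟨c1, _⟩ | ⟨c1, _⟩ <;>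
        rcases abs_cases (χ₀ (T y)) with ⟨c2, _⟩ | ⟨c2, _⟩ <;> rw [c2] at p4 <;> nlinarith
    by_cases hc : ‖b‖ ≤ |χ₀ (T (x + (1 - s) • g))|
    · exact fin _ (hy _ (by linarith) le_rfl) (by simp [hg0, ← hs]) hc
    · refine fin _ (hy (-1 - s) le_rfl (by linarith)) (by simp [hg0, ← hs]) ?_
      push Not at hc
      by_contra hd
      push Not at hd
      simp only [map_add, map_smul, smul_eq_mul, ← hbdef] at hc hd
      rw [abs_lt] at hc hd
      set G := χ₀ (T g)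
      rcases abs_cases (χ₀ b) with ⟨c1, _⟩ | ⟨c1, _⟩ <;> rcases le_total 0 G with c2 | c2 <;>
        nlinarith
  obtain ⟨x, hx⟩ : ∃ x : X, ‖x‖ = 1 ∧ T x ≠ 0 := by
    by_contra hc
    push Not at hc
    have : ‖T‖ ≤ 0 := ContinuousLinearMap.opNorm_le_of_unit_norm le_rfl fun x hx => by
      simp [hc x hx]
    linarith
  have hN1 : 1 ≤ N := le_trans (by nlinarith [norm_nonneg (T x)]) (key x hx.1 hx.2)
  have : ‖T‖ ≤ (N - 1) / t := by
    refine ContinuousLinearMap.opNorm_le_of_unit_norm (div_nonneg (by linarith) ht.le)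
      fun y hy => ?_
    rw [le_div_iff₀ ht]
    by_cases h0 : T y = 0
    · simp [h0, hN1]
    · linarith [key y hy h0]
  rw [hT, le_div_iff₀ ht] at this
  linarith

/-- the adjoint operator -/
noncomputable def adj (R : X →L[ℝ] X) : (X →L[ℝ] ℝ) →L[ℝ] (X →L[ℝ] ℝ) :=
  (ContinuousLinearMap.compL ℝ X X ℝ).flip R

lemma adj_apply (R : X →L[ℝ] X) (f : X →L[ℝ] ℝ) (x : X) : adj R f x = f (R x) := rfl

lemma norm_adj (R : X →L[ℝ] X) : ‖adj R‖ = ‖R‖ := by
  apply le_antisymm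
  · refine ContinuousLinearMap.opNorm_le_bound _ (norm_nonneg _) fun f => ?_
    rw [mul_comm]
    exact f.opNorm_comp_le R
  · refine ContinuousLinearMap.opNorm_le_bound _ (adj R).opNorm_nonneg fun x => ?_
    refine NormedSpace.norm_le_dual_bound ℝ _
      (mul_nonneg (adj R).opNorm_nonneg (norm_nonneg _)) fun f => ?_
    calc ‖f (R x)‖ = ‖adj R f x‖ := rfl
      _ ≤ ‖adj R f‖ * ‖x‖ := (adj R f).le_opNorm x
      _ ≤ ‖adj R‖ * ‖f‖ * ‖x‖ := mul_le_mul_of_nonneg_right ((adj R).le_opNorm f) (norm_nonneg _)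
      _ = _ := by ring

lemma index_one_predual [Nontrivial X] (S : Set ((X →L[ℝ] ℝ) →ₗ[ℝ] ℝ))
    (hmul : ∀ a b : X →L[ℝ] ℝ, ∃ c : X →L[ℝ] ℝ, ∀ χ ∈ S, χ c = χ a * χ b)
    (hle : ∀ χ ∈ S, ∀ a, |χ a| ≤ ‖a‖) (hatt : ∀ a, ∃ χ ∈ S, |χ a| = ‖a‖) :
    numIndex ℝ X = 1 := by
  refine index_one fun T hT t ht => ?_
  have h := adp S hmul hle hatt (adj T) (by rw [norm_adj, hT]) t ht
  have e : ∀ r : ℝ, ContinuousLinearMap.id ℝ (X →L[ℝ] ℝ) + r • adj T =
      adj (ContinuousLinearMap.id ℝ X + r • T) := by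
    intro r
    ext f x
    simp [adj_apply]
  rwa [e, e, norm_adj, norm_adj] at h

end general

section cstar
variable {B : Type} [NonUnitalCStarAlgebra B]

lemma characters (A : Submodule ℝ B) (hmul : ∀ a ∈ A, ∀ b ∈ A, a * b ∈ A)
    (hsa : ∀ a ∈ A, star a = a) :
    ∃ S : Set (A →ₗ[ℝ] ℝ), (∀ a b : A, ∃ c : A, ∀ χ ∈ S, χ c = χ a * χ b) ∧
      (∀ χ ∈ S, ∀ a, |χ a| ≤ ‖a‖) ∧ (∀ a, ∃ χ ∈ S, |χ a| = ‖a‖) := by
  let s : Set (Unitization ℂ B) := (fun b : B => (b : Unitization ℂ B)) '' A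
  have hs : star s = s := by
    ext u
    constructor
    · rintro ⟨a, ha, h⟩
      refine ⟨a, ha, ?_⟩
      have h2 := congrArg star h
      simp only [star_star] at h2
      rw [← h2, ← Unitization.inr_star, hsa a ha]
    · rintro ⟨a, ha, rfl⟩
      exact ⟨a, ha, by simp only [← Unitization.inr_star, hsa a ha]⟩
  have hcomm : ∀ u ∈ s ∪ star s, ∀ v ∈ s ∪ star s, u * v = v * u := by
    rw [hs, Set.union_self]
    rintro _ ⟨a, ha, rfl⟩ _ ⟨b, hb, rfl⟩
    simp only [← Unitization.inr_mul]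
    rw [← hsa _ (hmul a ha b hb), star_mul, hsa a ha, hsa b hb]
  let C : StarSubalgebra ℂ (Unitization ℂ B) :=
    StarSubalgebra.centralizer ℂ (StarSubalgebra.centralizer ℂ s : Set (Unitization ℂ B))
  have hC : (C : Set (Unitization ℂ B)) = (s ∪ star s).centralizer.centralizer :=
    StarSubalgebra.coe_centralizer_centralizer ℂ s
  have hcl : IsClosed (C : Set (Unitization ℂ B)) := hC ▸ Set.isClosed_centralizer _
  let : CommCStarAlgebra C :=
    { StarSubalgebra.cstarAlgebra C with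
      mul_comm := fun u v => Subtype.ext (Set.centralizer_centralizer_comm_of_comm hcomm _
        (hC ▸ u.2) _ (hC ▸ v.2)) }
  have hmem : ∀ a : A, ((a : B) : Unitization ℂ B) ∈ C := fun a => by
    rw [← SetLike.mem_coe, hC]
    exact Set.subset_centralizer_centralizer (Or.inl ⟨a, a.2, rfl⟩)
  let j : A → C := fun a => ⟨_, hmem a⟩
  have hjn : ∀ a, ‖j a‖ = ‖a‖ := fun a => Unitization.norm_inr (𝕜 := ℂ) (a : B)
  have hre : ∀ (χ : WeakDual.characterSpace ℂ C) (a : A), (χ (j a)).im = 0 := by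
    intro χ a
    have h1 : star (j a) = j a := Subtype.ext (by
      change star ((a : B) : Unitization ℂ B) = _
      rw [← Unitization.inr_star, hsa a a.2])
    have h2 := map_star χ (j a)
    rw [h1] at h2
    have := congrArg Complex.im h2
    simp at this
    linarith
  have habs : ∀ (χ : WeakDual.characterSpace ℂ C) (a : A), |(χ (j a)).re| = ‖χ (j a)‖ := by
    intro χ a
    rw [Complex.abs_re_eq_norm]
    exact hre χ a
  let L : WeakDual.characterSpace ℂ C → (A →ₗ[ℝ] ℝ) := fun χ =>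
    { toFun := fun a => (χ (j a)).re
      map_add' := fun a b => by
        have : j (a + b) = j a + j b := Subtype.ext (by simp [j])
        rw [this, map_add, Complex.add_re]
      map_smul' := fun r a => by
        have : j (r • a) = (r : ℂ) • j a := Subtype.ext (by
          simp only [j, SetLike.val_smul, ← Unitization.inr_smul]
          congr 1)
        rw [this, map_smul]
        simp }
  have hG : ∀ u : C, ‖WeakDual.gelfandTransform ℂ C u‖ = ‖u‖ := fun u =>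
    (gelfandTransform_isometry C).norm_map_of_map_zero (map_zero _) u
  refine ⟨Set.range L, fun a b => ⟨⟨a * b, hmul a a.2 b b.2⟩, ?_⟩, ?_, fun a => ?_⟩
  · rintro _ ⟨χ, rfl⟩
    have : j ⟨a * b, hmul a a.2 b b.2⟩ = j a * j b := Subtype.ext (by simp [j])
    change (χ (j _)).re = (χ (j a)).re * (χ (j b)).re
    rw [this, map_mul, Complex.mul_re, hre, hre]
    simp
  · rintro _ ⟨χ, rfl⟩ a
    change |(χ (j a)).re| ≤ _
    rw [habs, ← hjn, ← hG]
    exact (WeakDual.gelfandTransform ℂ C (j a)).norm_coe_le_norm χ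
  · have hne : Nonempty (WeakDual.characterSpace ℂ C) := inferInstance
    obtain ⟨χ, -, hχ⟩ := isCompact_univ.exists_isMaxOn Set.univ_nonempty
      (WeakDual.gelfandTransform ℂ C (j a)).continuous.norm.continuousOn
    refine ⟨L χ, ⟨χ, rfl⟩, ?_⟩
    change |(χ (j a)).re| = _
    rw [habs, ← hjn, ← hG]
    apply le_antisymm ((WeakDual.gelfandTransform ℂ C (j a)).norm_coe_le_norm χ)
    rw [ContinuousMap.norm_le _ (norm_nonneg _)]
    exact fun ψ => hχ (Set.mem_univ ψ)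

end cstar

end Pool.Agent.Lib.helper31.RealCStar
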