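import Pool.Agent.Lib.helper31.WeakLim

set_option autoImplicit false

namespace Pool.Agent.Lib.helper31.RealWStar

open Filter Topology Pool.Agent.Lib.helper31.NumIdx Pool.Agent.Lib.helper31.RealCStar
  Pool.Agent.Lib.helper31.WeakLim

variable {D : Type} [CStarAlgebra D] {A : Submodule ℝ D}

noncomputable def Lm (u : D) (hu : ∀ x ∈ A, u * x ∈ A) : A →L[ℝ] A :=
  LinearMap.mkContinuous
    { toFun := fun x => ⟨u * x, hu x x.2⟩
      map_add' := fun x y => Subtype.ext (by simp [mul_add])
      map_smul' := fun r x => Subtype.ext (by simp) } ‖u‖ fun x => norm_mul_le u (x : D)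

lemma Lm_coe (u : D) (hu : ∀ x ∈ A, u * x ∈ A) (x : A) : (Lm u hu x : D) = u * x := rfl

noncomputable def St (hstar : ∀ a ∈ A, star a ∈ A) : A →L[ℝ] A :=
  LinearMap.mkContinuous
    { toFun := fun x => ⟨star x, hstar x x.2⟩
      map_add' := fun x y => Subtype.ext (by simp)
      map_smul' := fun r x => Subtype.ext (by simp) } 1 fun x => by
        rw [one_mul]; exact (norm_star (x : D)).le

lemma St_coe (hstar : ∀ a ∈ A, star a ∈ A) (x : A) : (St hstar x : D) = star (x : D) := rfl

lemma sq_norm (u : D) : ‖u‖ ^ 2 = ‖star u * u‖ := by rw [CStarRing.norm_star_mul_self, sq]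

lemma orth_norm (u w : D) (h : star u * w + star w * u = 0) : ‖u + w‖ ^ 2 ≤ ‖u‖ ^ 2 + ‖w‖ ^ 2 := by
  rw [sq_norm, sq_norm, sq_norm]
  have : star (u + w) * (u + w) = star u * u + star w * w + (star u * w + star w * u) := by
    rw [star_add]; noncomm_ring
  rw [this, h, add_zero]
  exact norm_add_le _ _

lemma orth_norm' (u w : D) (h : star u * w = 0) : ‖u + w‖ ^ 2 ≤ ‖u‖ ^ 2 + ‖w‖ ^ 2 := by
  refine orth_norm u w ?_
  have := congrArg star h
  rw [star_mul, star_star, star_zero] at this
  rw [h, this, add_zero]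

variable {E : Type} [NormedAddCommGroup E] [NormedSpace ℝ E] {Φ : A ≃ₗᵢ[ℝ] (E →L[ℝ] ℝ)}

section fc
variable {K : Type} [TopologicalSpace K] [CompactSpace K] (π : C(K, ℝ) →⋆ₐ[ℝ] D)
  (hπ : ∀ f, ‖π f‖ ≤ ‖f‖) (hA : ∀ f, ∀ x ∈ A, π f * x ∈ A)

omit [CompactSpace K] in
lemma pi_star (f : C(K, ℝ)) : star (π f) = π f := by rw [← map_star, star_trivial]

include hπ in
lemma P_norm (f : C(K, ℝ)) (x : A) : ‖Lm (π f) (hA f) x‖ ≤ ‖f‖ * ‖x‖ :=
  (norm_mul_le (π f) (x : D)).trans (mul_le_mul_of_nonneg_right (hπ f) (norm_nonneg _))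

include hπ hA in
lemma ker_closed {U : Ultrafilter (Finset E)} {y : Finset E → A} {u : A} {M : ℝ}
    (h : Lim Φ U y u) (hM : ∀ i, ‖y i‖ ≤ M) (g : C(K, ℝ)) (hg : ∀ i, π g * y i = 0) :
    π g * u = 0 := by
  set c := ‖g‖ ^ 2 + 1 with hc
  have hc0 : 0 < c := by positivity
  let p : C(K, ℝ) := c⁻¹ • (g * g)
  have p0 : ∀ τ, 0 ≤ p τ := fun τ => by
    simp only [p, ContinuousMap.smul_apply, ContinuousMap.mul_apply, smul_eq_mul]
    exact mul_nonneg (by positivity) (mul_self_nonneg _)
  have p1 : ∀ τ, p τ ≤ 1 := fun τ => by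
    simp only [p, ContinuousMap.smul_apply, ContinuousMap.mul_apply, smul_eq_mul]
    rw [inv_mul_le_iff₀ hc0]
    have := g.norm_coe_le_norm τ
    rw [Real.norm_eq_abs] at this
    have := pow_le_pow_left₀ (abs_nonneg _) this 2
    rw [sq_abs] at this
    nlinarith
  have hw : Lm (π p) (hA p) u = 0 := by
    refine h.orth (M := M) (fun t ht i => ?_) fun t ht => ?_
    · have e : star (y i : D) * (t • (π p * u)) = 0 := by
        have : π p * y i = 0 := by
          simp only [p, map_smul, map_mul, smul_mul_assoc, mul_assoc, hg, mul_zero, smul_zero]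
        have h2 := congrArg star this
        rw [star_mul, pi_star, star_zero] at h2
        rw [mul_smul_comm, ← mul_assoc, h2, zero_mul, smul_zero]
      have := orth_norm' _ _ e
      rw [norm_smul, mul_pow, Real.norm_eq_abs, sq_abs] at this
      have h3 := pow_le_pow_left₀ (norm_nonneg _) (hM i) 2
      exact le_trans this (add_le_add h3 le_rfl)
    · let k : C(K, ℝ) := ⟨fun τ => (1 + t) * p τ / (1 + t * p τ), by
        refine Continuous.div (by fun_prop) (by fun_prop) fun τ => ?_
        have := p0 τ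
        positivity⟩
      have k1 : ‖k‖ ≤ 1 := by
        rw [ContinuousMap.norm_le _ zero_le_one]
        intro τ
        have a0 := p0 τ
        have a1 := p1 τ
        change ‖(1 + t) * p τ / (1 + t * p τ)‖ ≤ 1
        rw [Real.norm_eq_abs, abs_of_nonneg (by positivity), div_le_one (by positivity)]
        nlinarith
      have k2 : k * (1 + t • p) = (1 + t) • p := by
        ext τ
        have a0 := p0 τ
        change (1 + t) * p τ / (1 + t * p τ) * (1 + t * p τ) = (1 + t) * p τ
        field_simp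
      have k3 : Lm (π k) (hA k) (u + t • Lm (π p) (hA p) u) = (1 + t) • Lm (π p) (hA p) u := by
        apply Subtype.ext
        change π k * ((u : D) + t • (π p * u)) = (1 + t) • (π p * u)
        rw [← smul_mul_assoc, ← map_smul, ← smul_mul_assoc, ← map_smul, ← k2, map_mul, map_add,
          map_one, mul_assoc, add_mul, one_mul]
      have := P_norm π hπ hA k (u + t • Lm (π p) (hA p) u)
      rw [k3, norm_smul, Real.norm_eq_abs, abs_of_pos (by linarith)] at this
      exact this.trans (mul_le_of_le_one_left (norm_nonneg _) k1)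
  have h2 : π g * (π g * u) = 0 := by
    have := congrArg Subtype.val hw
    simp only [Lm_coe, p, map_smul, map_mul, smul_mul_assoc, mul_assoc, ZeroMemClass.coe_zero,
      smul_eq_zero, inv_eq_zero, hc0.ne', false_or] at this
    exact this
  have h3 : ‖π g * u‖ ^ 2 = 0 := by
    rw [sq_norm, star_mul, pi_star, mul_assoc, h2, mul_zero, norm_zero]
  exact norm_eq_zero.1 (pow_eq_zero_iff two_ne_zero |>.1 h3)

lemma clamp1 (v : ℝ) (h : 1 ≤ |v|) : max 0 (min 1 (v + 1)) - max 0 (min 1 v) = 0 := by
  rcases le_abs.1 h with h | h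
  · rw [min_eq_left (by linarith), min_eq_left h, sub_self]
  · rw [min_eq_right (by linarith), min_eq_right (by linarith), max_eq_left (by linarith),
      max_eq_left (by linarith), sub_self]

lemma clamp2 (a b : ℝ) : |max 0 (min 1 a) - max 0 (min 1 b)| ≤ 1 := by
  have h1 : ∀ c : ℝ, 0 ≤ max 0 (min 1 c) := fun c => le_max_left _ _
  have h2 : ∀ c : ℝ, max 0 (min 1 c) ≤ 1 := fun c => max_le zero_le_one (min_le_left _ _)
  rw [abs_le]
  constructor <;> linarith [h1 a, h1 b, h2 a, h2 b]

include hπ in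
lemma wc_fc (q : C(K, ℝ)) : WC Φ (Lm (π q) (hA q)) := by
  intro U x M a hM h
  have hM0 : 0 ≤ M := (norm_nonneg _).trans (hM ∅)
  have hb : ∀ f i, ‖Lm (π f) (hA f) (x i)‖ ≤ ‖f‖ * M := fun f i =>
    (P_norm π hπ hA f _).trans (mul_le_mul_of_nonneg_left (hM i) (norm_nonneg _))
  choose Λ hΛ using fun f : C(K, ℝ) => lim_exists Φ U (fun i => Lm (π f) (hA f) (x i)) _ (hb f)
  have Λn : ∀ f, ‖Λ f‖ ≤ ‖f‖ * M := fun f => (hΛ f).norm_le (hb f)
  have Λadd : ∀ f g, Λ (f + g) = Λ f + Λ g := fun f g =>
    (hΛ (f + g)).unique (((hΛ f).add (hΛ g)).congr fun i => Subtype.ext (by simp [Lm_coe, add_mul]))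
  have Λsmul : ∀ (r : ℝ) f, Λ (r • f) = r • Λ f := fun r f =>
    (hΛ (r • f)).unique (((hΛ f).smul r).congr fun i => Subtype.ext (by simp [Lm_coe]))
  have Λone : Λ 1 = a := (hΛ 1).unique (h.congr fun i => Subtype.ext (by simp [Lm_coe]))
  have Λloc : ∀ g f, g * f = 0 → π g * Λ f = 0 := fun g f hgf =>
    ker_closed π hπ hA (hΛ f) (hb f) g fun i => by
      rw [Lm_coe, ← mul_assoc, ← map_mul, hgf, map_zero, zero_mul]
  let Λ' : C(K, ℝ) →ₗ[ℝ] A := { toFun := Λ, map_add' := Λadd, map_smul' := Λsmul }
  let W : C(K, ℝ) → D := fun f => π q * Λ f - Λ (q * f)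
  have Wsum : ∀ (n : ℕ) (φ : ℕ → C(K, ℝ)), W (∑ k ∈ Finset.range n, φ k) =
      ∑ k ∈ Finset.range n, W (φ k) := by
    intro n φ
    change π q * (Λ' _ : D) - Λ' _ = _
    rw [Finset.mul_sum, map_sum, map_sum, Submodule.coe_sum, Submodule.coe_sum, Finset.mul_sum,
      ← Finset.sum_sub_distrib]
    rfl
  have Wloc : ∀ g f, g * f = 0 → π g * W f = 0 := by
    intro g f hgf
    simp only [W]
    rw [mul_sub, ← mul_assoc, ← map_mul, Λloc (g * q) f (by rw [mul_right_comm, hgf, zero_mul]),
      Λloc g (q * f) (by rw [mul_left_comm, hgf, mul_zero]), sub_zero]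
  suffices hW : W 1 = 0 by
    have : Lm (π q) (hA q) a = Λ q := by
      apply Subtype.ext
      simp only [W, mul_one, Λone] at hW
      exact sub_eq_zero.1 hW
    rw [this]
    exact hΛ q
  set r := ‖q‖ with hr
  have hr0 : 0 ≤ r := norm_nonneg _
  have key : ∀ n : ℕ, 0 < n → ‖W 1‖ ^ 2 ≤ 90 * (M * (2 * r + 1)) ^ 2 / n := by
    intro n hn
    have hn' : (0 : ℝ) < n := by exact_mod_cast hn
    set δ := (2 * r + 1) / n with hδ
    have hδ0 : 0 < δ := by positivity
    let v : K → ℝ := fun τ => (q τ + r) / δ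
    have vc : Continuous v := by fun_prop
    have hq : ∀ τ, |q τ| ≤ r := fun τ => q.norm_coe_le_norm τ
    have v0 : ∀ τ, 0 ≤ v τ := fun τ => div_nonneg (by linarith [(abs_le.1 (hq τ)).1]) hδ0.le
    have v1 : ∀ τ, v τ ≤ n := fun τ => by
      simp only [v]
      rw [div_le_iff₀ hδ0, hδ, mul_div_cancel₀ _ hn'.ne']
      linarith [(abs_le.1 (hq τ)).2]
    let ψ : ℕ → C(K, ℝ) := fun k => ⟨fun τ => max 0 (min 1 (v τ - k + 1)), by fun_prop⟩
    let φ : ℕ → C(K, ℝ) := fun k => ψ k - ψ (k + 1)
    let g : ℕ → C(K, ℝ) := fun k => ⟨fun τ => max 0 (min 1 (2 - |v τ - k|)), by fun_prop⟩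
    have φe : ∀ k τ, φ k τ = max 0 (min 1 (v τ - k + 1)) - max 0 (min 1 (v τ - k)) := by
      intro k τ
      change max 0 (min 1 (v τ - k + 1)) - max 0 (min 1 (v τ - ((k + 1 : ℕ) : ℝ) + 1)) = _
      push_cast
      ring_nf
    have ge : ∀ k τ, g k τ = max 0 (min 1 (2 - |v τ - k|)) := fun k τ => rfl
    have hsum : ∑ k ∈ Finset.range (n + 1), φ k = 1 := by
      rw [Finset.sum_range_sub']
      ext τ
      change max 0 (min 1 (v τ - ((0 : ℕ) : ℝ) + 1)) - max 0 (min 1 (v τ - ((n + 1 : ℕ) : ℝ) + 1)) = 1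
      push_cast
      rw [min_eq_left (by linarith [v0 τ]), min_eq_right (by linarith [v1 τ]),
        max_eq_left (show v τ - (n + 1) + 1 ≤ 0 by linarith [v1 τ])]
      norm_num
    have F2 : ∀ k, (1 - g k) * φ k = 0 := by
      intro k
      ext τ
      change (1 - g k τ) * φ k τ = 0
      by_cases hc : 1 ≤ |v τ - k|
      · rw [φe, clamp1 _ hc, mul_zero]
      · rw [ge, min_eq_left (by linarith), max_eq_right zero_le_one, sub_self, zero_mul]
    have F3 : ∀ j k : ℕ, (j + 3 ≤ k ∨ k + 3 ≤ j) → g j * φ k = 0 := by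
      intro j k hjk
      ext τ
      change g j τ * φ k τ = 0
      by_cases hc : 1 ≤ |v τ - k|
      · rw [φe, clamp1 _ hc, mul_zero]
      · have h2 : 2 ≤ |v τ - j| := by
          push Not at hc
          rw [abs_lt] at hc
          rw [le_abs]
          rcases hjk with h3 | h3
          · have : (j : ℝ) + 3 ≤ k := by exact_mod_cast h3
            left; linarith
          · have : (k : ℝ) + 3 ≤ j := by exact_mod_cast h3
            right; linarith
        rw [ge, min_eq_right (by linarith), max_eq_left (by linarith), zero_mul]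
    have hqv : ∀ (k : ℕ) τ, q τ - (k * δ - r) = δ * (v τ - k) := by
      intro k τ
      simp only [v]
      field_simp
      ring
    have F4 : ∀ k : ℕ, ‖(q - (k * δ - r) • 1) * g k‖ ≤ 2 * δ := by
      intro k
      rw [ContinuousMap.norm_le _ (by positivity)]
      intro τ
      change ‖(q τ - (k * δ - r) * 1) * g k τ‖ ≤ _
      rw [mul_one, hqv, ge, Real.norm_eq_abs, abs_mul, abs_mul, abs_of_pos hδ0,
        abs_of_nonneg (le_max_left 0 (min 1 (2 - |v τ - k|)))]
      by_cases hc : 2 ≤ |v τ - k|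
      · rw [min_eq_right (by linarith), max_eq_left (by linarith), mul_zero]
        positivity
      · have h1 : max 0 (min 1 (2 - |v τ - k|)) ≤ 1 := max_le zero_le_one (min_le_left _ _)
        have h2 : 0 ≤ max 0 (min 1 (2 - |v τ - k|)) := le_max_left _ _
        have h3 : δ * |v τ - k| ≤ 2 * δ := by nlinarith
        exact (mul_le_of_le_one_right (by positivity) h1).trans h3
    have F5 : ∀ k : ℕ, ‖(q - (k * δ - r) • 1) * φ k‖ ≤ δ := by
      intro k
      rw [ContinuousMap.norm_le _ (by positivity)]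
      intro τ
      change ‖(q τ - (k * δ - r) * 1) * φ k τ‖ ≤ _
      rw [mul_one, hqv, φe, Real.norm_eq_abs, abs_mul, abs_mul, abs_of_pos hδ0]
      by_cases hc : 1 ≤ |v τ - k|
      · rw [clamp1 _ hc, abs_zero, mul_zero]
        positivity
      · have h3 : δ * |v τ - k| ≤ δ := by nlinarith
        exact (mul_le_of_le_one_right (by positivity) (clamp2 _ _)).trans h3
    have F6 : ∀ k, ‖φ k‖ ≤ 1 := by
      intro k
      rw [ContinuousMap.norm_le _ zero_le_one]
      intro τ
      rw [φe]
      exact clamp2 _ _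
    have Wn : ∀ k : ℕ, ‖W (φ k)‖ ≤ 3 * δ * M := by
      intro k
      set l : ℝ := k * δ - r
      have e1 : π (g k) * Λ (φ k) = Λ (φ k) := by
        have := Λloc _ _ (F2 k)
        rw [map_sub, map_one, sub_mul, one_mul] at this
        exact (sub_eq_zero.1 this).symm
      have e2 : (Λ ((q - l • 1) * φ k) : D) = Λ (q * φ k) - l • (Λ (φ k) : D) := by
        have : (q - l • 1) * φ k = q * φ k - l • φ k := by rw [sub_mul, smul_mul_assoc, one_mul]
        change (Λ' _ : D) = (Λ' _ : D) - l • (Λ' _ : D)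
        rw [this, map_sub, map_smul]
        rfl
      have e3 : W (φ k) = π ((q - l • 1) * g k) * Λ (φ k) - Λ ((q - l • 1) * φ k) := by
        rw [map_mul, mul_assoc, e1, e2, map_sub, map_smul, map_one, sub_mul, smul_mul_assoc,
          one_mul]
        simp only [W]
        abel
      rw [e3]
      refine (norm_sub_le _ _).trans ?_
      have a1 : ‖π ((q - l • 1) * g k) * Λ (φ k)‖ ≤ 2 * δ * M := by
        refine (norm_mul_le _ _).trans (mul_le_mul ((hπ _).trans (F4 k)) ?_ (norm_nonneg _)
          (by positivity))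
        exact (Λn (φ k)).trans (mul_le_of_le_one_left hM0 (F6 k))
      have a2 : ‖(Λ ((q - l • 1) * φ k) : D)‖ ≤ δ * M :=
        (Λn _).trans (mul_le_mul_of_nonneg_right (F5 k) hM0)
      linarith
    have Wo : ∀ j k : ℕ, (j + 3 ≤ k ∨ k + 3 ≤ j) → star (W (φ j)) * W (φ k) = 0 := by
      intro j k hjk
      have e1 : π (g j) * W (φ j) = W (φ j) := by
        have := Wloc _ _ (F2 j)
        rw [map_sub, map_one, sub_mul, one_mul] at this
        exact (sub_eq_zero.1 this).symm
      rw [← e1, star_mul, pi_star, mul_assoc, Wloc _ _ (F3 j k hjk), mul_zero]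
    rw [← hsum, Wsum, sq_norm, star_sum, Finset.sum_mul_sum]
    have row : ∀ j, ‖∑ k ∈ Finset.range (n + 1), star (W (φ j)) * W (φ k)‖ ≤ 5 * (3 * δ * M) ^ 2 := by
      intro j
      rw [← Finset.sum_subset (s₁ := Finset.range (n + 1) ∩ Finset.Icc (j - 2) (j + 2))
        Finset.inter_subset_left (fun k hk hk' => Wo j k (by
          simp only [Finset.mem_inter, Finset.mem_Icc, hk, true_and] at hk'
          omega))]
      refine (norm_sum_le _ _).trans ?_
      refine (Finset.sum_le_card_nsmul _ _ ((3 * δ * M) ^ 2) fun k _ => ?_).trans ?_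
      · refine (norm_mul_le _ _).trans ?_
        rw [norm_star, sq]
        exact mul_le_mul (Wn j) (Wn k) (norm_nonneg _) (by positivity)
      · rw [nsmul_eq_mul]
        refine mul_le_mul_of_nonneg_right ?_ (by positivity)
        have : (Finset.range (n + 1) ∩ Finset.Icc (j - 2) (j + 2)).card ≤ 5 := by
          refine (Finset.card_le_card Finset.inter_subset_right).trans ?_
          rw [Nat.card_Icc]
          omega
        exact_mod_cast this
    refine (norm_sum_le _ _).trans ((Finset.sum_le_card_nsmul _ _ _ fun j _ => row j).trans ?_)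
    rw [Finset.card_range, nsmul_eq_mul, hδ]
    have hn1 : (1 : ℝ) ≤ n := by exact_mod_cast hn
    have e : ((n + 1 : ℕ) : ℝ) * (5 * (3 * ((2 * r + 1) / n) * M) ^ 2) =
        ((n + 1) / (2 * n)) * (90 * (M * (2 * r + 1)) ^ 2 / n) := by
      push_cast
      field_simp
      ring
    rw [e]
    refine mul_le_of_le_one_left (by positivity) ?_
    rw [div_le_one (by positivity)]
    linarith
  have lim := tendsto_const_div_atTop_nhds_zero_nat (90 * (M * (2 * r + 1)) ^ 2)
  have : ‖W 1‖ ^ 2 ≤ 0 := ge_of_tendsto lim ((eventually_gt_atTop 0).mono key)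
  exact norm_eq_zero.1 (pow_eq_zero_iff two_ne_zero |>.1 (le_antisymm this (sq_nonneg _)))

end fc

lemma wc_sa (hcl : IsClosed (A : Set D)) (hmul : ∀ a ∈ A, ∀ b ∈ A, a * b ∈ A) (h : D) (hh : h ∈ A)
    (hsa : star h = h) : WC Φ (Lm h (hmul h hh)) := by
  have hs : IsSelfAdjoint h := hsa
  let π : C(spectrum ℝ h, ℝ) →⋆ₐ[ℝ] D := cfcHom hs
  have hA : ∀ f, ∀ x ∈ A, π f * x ∈ A := by
    intro f
    induction f using ContinuousMap.induction_on_of_compact with
    | const r =>
      intro x hx
      have : ContinuousMap.const (spectrum ℝ h) r = r • 1 := by ext; simp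
      rw [this, map_smul, map_one, smul_mul_assoc, one_mul]
      exact A.smul_mem r hx
    | id => intro x hx; rw [cfcHom_id hs]; exact hmul h hh x hx
    | star_id => intro x hx; rw [star_trivial, cfcHom_id hs]; exact hmul h hh x hx
    | add f g hf hg => intro x hx; rw [map_add, add_mul]; exact A.add_mem (hf x hx) (hg x hx)
    | mul f g hf hg => intro x hx; rw [map_mul, mul_assoc]; exact hf _ (hg x hx)
    | frequently f hf =>
      intro x hx
      have hc : IsClosed {f : C(spectrum ℝ h, ℝ) | π f * x ∈ A} :=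
        hcl.preimage ((cfcHom_continuous hs).mul continuous_const)
      exact (hf.mono fun g hg => hg x hx).mem_of_closed hc
  have := wc_fc (Φ := Φ) π (fun f => (norm_cfcHom h f hs).le) hA
    ((ContinuousMap.id ℝ).restrict (spectrum ℝ h))
  convert this using 2
  exact (cfcHom_id hs).symm

lemma skew_bound [Nontrivial D] (b : D) (hb : star b = -b) (t : ℝ) :
    ‖1 + t • b‖ ^ 2 ≤ 1 + ‖b‖ ^ 2 * t ^ 2 := by
  have := orth_norm 1 (t • b) (by simp [hb])
  rw [norm_one, norm_smul, mul_pow, Real.norm_eq_abs, sq_abs] at this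
  linarith

lemma skew_left [Nontrivial D] (b : D) (hb : star b = -b) (t : ℝ) (x : D) :
    ‖x + t • (b * x)‖ ≤ (1 + ‖b‖ ^ 2 * t ^ 2) * ‖x‖ := by
  have e : x + t • (b * x) = (1 + t • b) * x := by rw [add_mul, one_mul, smul_mul_assoc]
  rw [e]
  refine (norm_mul_le _ _).trans (mul_le_mul_of_nonneg_right ?_ (norm_nonneg _))
  have h := skew_bound b hb t
  have h0 : 0 ≤ ‖b‖ ^ 2 * t ^ 2 := by positivity
  exact (pow_le_pow_iff_left₀ (norm_nonneg _) (by positivity) two_ne_zero).1 (by nlinarith)

lemma skew_both [Nontrivial D] (b : D) (hb : star b = -b) (t : ℝ) (x : D) :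
    ‖x + t • (b * x + x * b)‖ ≤ (1 + (2 * ‖b‖ ^ 2) * t ^ 2) * ‖x‖ := by
  have e : x + t • (b * x + x * b) = (1 + t • b) * x * (1 + t • b) - t ^ 2 • (b * x * b) := by
    simp only [add_mul, mul_add, one_mul, mul_one, smul_mul_assoc, mul_smul_comm, smul_add, sq,
      mul_smul]
    abel
  rw [e]
  refine (norm_sub_le _ _).trans ?_
  have h := skew_bound b hb t
  have a1 : ‖(1 + t • b) * x * (1 + t • b)‖ ≤ ‖1 + t • b‖ ^ 2 * ‖x‖ := by
    calc _ ≤ ‖(1 + t • b) * x‖ * ‖1 + t • b‖ := norm_mul_le _ _
      _ ≤ ‖1 + t • b‖ * ‖x‖ * ‖1 + t • b‖ :=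
          mul_le_mul_of_nonneg_right (norm_mul_le _ _) (norm_nonneg _)
      _ = _ := by ring
  have a2 : ‖t ^ 2 • (b * x * b)‖ ≤ t ^ 2 * (‖b‖ ^ 2 * ‖x‖) := by
    rw [norm_smul, Real.norm_eq_abs, abs_of_nonneg (sq_nonneg t)]
    refine mul_le_mul_of_nonneg_left ?_ (sq_nonneg t)
    calc _ ≤ ‖b * x‖ * ‖b‖ := norm_mul_le _ _
      _ ≤ ‖b‖ * ‖x‖ * ‖b‖ := mul_le_mul_of_nonneg_right (norm_mul_le _ _) (norm_nonneg _)
      _ = _ := by ring
  have a3 := mul_le_mul_of_nonneg_right h (norm_nonneg x)
  nlinarith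

lemma wc_twist (hmul : ∀ a ∈ A, ∀ b ∈ A, a * b ∈ A) (hstar : ∀ a ∈ A, star a ∈ A)
    (hc : ∀ h ∈ A, star h = h → ∀ x ∈ A, h * x = x * h) (s : D) (hs : s ∈ A) (hsk : star s = -s)
    (yi : D) (hyi : ∀ x ∈ A, yi * x ∈ A) (h1 : (1 + s) * yi = 1) (h2 : yi * (1 + s) = 1)
    (R : A →L[ℝ] A) (hR : ∀ x, (R x : D) = (1 + s) * star (yi * x)) : WC Φ R := by
  have hss : ∀ z ∈ A, s * s * z = z * (s * s) :=
    hc (s * s) (hmul s hs s hs) (by rw [star_mul, hsk, neg_mul_neg])
  have hform : ∀ z ∈ A, ∀ w : D, star ((1 + s) * z) * ((1 + s) * w) =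
      (1 - s * s) * (star z * w) := by
    intro z hz w
    have := hss (star z) (hstar z hz)
    rw [star_mul, star_add, star_one, hsk]
    calc star z * (1 + -s) * ((1 + s) * w) = star z * w - star z * (s * s) * w := by noncomm_ring
      _ = _ := by rw [← this]; noncomm_ring
  have hback : ∀ x : D, (1 + s) * (yi * x) = x := fun x => by rw [← mul_assoc, h1, one_mul]
  have hback' : ∀ x : D, yi * ((1 + s) * x) = x := fun x => by rw [← mul_assoc, h2, one_mul]
  refine wc_refl R (fun x => Subtype.ext ?_) (fun x => ?_) fun u v hu hv => ?_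
  · rw [hR, hR, hback', star_star, hback]
  · have hz := hyi x x.2
    set z := yi * (x : D) with hzdef
    have hn : star z * z = z * star z := by
      have := hc (z + star z) (A.add_mem hz (hstar z hz)) (by rw [star_add, star_star, add_comm]) z hz
      rw [add_mul, mul_add] at this
      exact add_left_cancel this
    refine (pow_le_pow_iff_left₀ (norm_nonneg _) (norm_nonneg _) two_ne_zero).1 (le_of_eq ?_)
    change ‖(R x : D)‖ ^ 2 = ‖(x : D)‖ ^ 2
    rw [hR, ← hzdef, ← hback x, ← hzdef, sq_norm, sq_norm, hform _ (hstar z hz), hform _ hz,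
      star_star, hn]
  · have hu' := congrArg Subtype.val hu
    have hv' := congrArg Subtype.val hv
    rw [hR] at hu' hv'
    have hz := hyi u u.2
    have hw := hyi v v.2
    have e1 : star (yi * (u : D)) = yi * u := by
      conv_rhs => rw [← hu', hback']
    have e2 : star (yi * (v : D)) = -(yi * v) := by
      rw [← mul_neg, ← NegMemClass.coe_neg, ← hv', hback']
    refine orth_norm (u : D) v ?_
    rw [← hback u, ← hback v, hform _ hz, hform _ hw, e1, e2, hc _ hz e1 _ hw]
    noncomm_ring

theorem predual_zero [Nontrivial D] [CompleteSpace E] (hcl : IsClosed (A : Set D))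
    (hmul : ∀ a ∈ A, ∀ b ∈ A, a * b ∈ A) (hstar : ∀ a ∈ A, star a ∈ A)
    (Φ : A ≃ₗᵢ[ℝ] (E →L[ℝ] ℝ)) (hne : ∃ a ∈ A, star a ≠ a) : numIndex ℝ E = 0 := by
  have hsq : ∀ a : D, star a = -a → a * a = 0 → a = 0 := by
    intro a ha h0
    have := sq_norm a
    rw [ha, neg_mul, h0, neg_zero, norm_zero] at this
    exact norm_eq_zero.1 (pow_eq_zero_iff two_ne_zero |>.1 this)
  by_cases hc : ∀ h ∈ A, star h = h → ∀ k ∈ A, star k = k → h * k = k * h
  · have hc' : ∀ h ∈ A, star h = h → ∀ x ∈ A, h * x = x * h := by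
      intro h hh hsa x hx
      have hk : x - star x ∈ A := A.sub_mem hx (hstar x hx)
      set k := x - star x with hkdef
      have hks : star k = -k := by rw [hkdef, star_sub, star_star, neg_sub]
      have c1 := hc h hh hsa (x + star x) (A.add_mem hx (hstar x hx))
        (by rw [star_add, star_star, add_comm])
      have c2 := hc h hh hsa (k * k) (hmul k hk k hk) (by rw [star_mul, hks, neg_mul_neg])
      set d := h * k - k * h with hd
      have hds : star d = d := by
        rw [hd, star_sub, star_mul, star_mul, hks, hsa]; noncomm_ring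
      have c3 := hc h hh hsa d (A.sub_mem (hmul h hh k hk) (hmul k hk h hh)) hds
      have c4 : d * k + k * d = 0 := by
        rw [hd]
        calc _ = h * (k * k) - k * k * h := by noncomm_ring
          _ = 0 := by rw [c2, sub_self]
      have c5 : (2 : ℝ) • (d * d) = 0 := by
        have : d * d + d * d = h * (d * k + k * d) - (d * k + k * d) * h := by
          calc d * d + d * d = d * (h * k - k * h) + (h * k - k * h) * d := by rw [← hd]
            _ = (d * h) * k - d * k * h + h * k * d - k * (h * d) := by noncomm_ring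
            _ = (h * d) * k - d * k * h + h * k * d - k * (d * h) := by rw [c3]
            _ = _ := by noncomm_ring
        rw [two_smul, this, c4]
        simp
      have c6 : d = 0 := by
        have h0 := (smul_eq_zero.1 c5).resolve_left two_ne_zero
        have := sq_norm d
        rw [hds, h0, norm_zero] at this
        exact norm_eq_zero.1 (pow_eq_zero_iff two_ne_zero |>.1 this)
      have c7 : (2 : ℝ) • (h * x - x * h) = 0 := by
        have : (2 : ℝ) • (h * x - x * h) = (h * (x + star x) - (x + star x) * h) + d := by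
          rw [hd, hkdef, two_smul]; noncomm_ring
        rw [this, c1, c6]
        simp
      exact sub_eq_zero.1 ((smul_eq_zero.1 c7).resolve_left two_ne_zero)
    obtain ⟨a, ha, hane⟩ := hne
    have hk0 : a - star a ≠ 0 := fun h => hane (sub_eq_zero.1 h).symm
    have hkpos : 0 < ‖a - star a‖ := norm_pos_iff.2 hk0
    set s := (2 * ‖a - star a‖)⁻¹ • (a - star a) with hsdef
    have hs : s ∈ A := A.smul_mem _ (A.sub_mem ha (hstar a ha))
    have hsk : star s = -s := by
      rw [hsdef, star_smul, star_sub, star_star, star_trivial, ← smul_neg, neg_sub]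
    have hs0 : s ≠ 0 := smul_ne_zero (by positivity) hk0
    have hsn : ‖s * s‖ < 1 := by
      have : ‖s‖ = 1 / 2 := by
        rw [hsdef, norm_smul, Real.norm_eq_abs, abs_of_pos (by positivity)]
        field_simp
      refine (norm_mul_le _ _).trans_lt ?_
      rw [this]; norm_num
    set g := ∑' n : ℕ, (s * s) ^ n with hg
    have g1 : (1 - s * s) * g = 1 := mul_neg_geom_series _ hsn
    have g2 : g * (1 - s * s) = 1 := geom_series_mul_neg _ hsn
    have hq : g - 1 ∈ A := by
      have e : g - 1 = s * s * g := by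
        rw [sub_mul, one_mul] at g1
        rw [← g1]; abel
      have hsum := ((summable_geometric_of_norm_lt_one hsn).hasSum.mul_left (s * s)).tendsto_sum_nat
      rw [e]
      have hpow : ∀ k : ℕ, s * s * (s * s) ^ k ∈ A := by
        intro k
        induction k with
        | zero => rw [pow_zero, mul_one]; exact hmul s hs s hs
        | succ k ih =>
          rw [pow_succ, ← mul_assoc]
          exact hmul _ ih _ (hmul s hs s hs)
      exact hcl.mem_of_tendsto hsum (Eventually.of_forall fun n => A.sum_mem fun k _ => hpow k)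
    clear_value g s
    have gs : star g = g := by
      have := congrArg star g2
      rw [star_mul, star_sub, star_one, star_mul, hsk, neg_mul_neg] at this
      calc star g = g * (1 - s * s) * star g := by rw [g2, one_mul]
        _ = g := by rw [mul_assoc, this, mul_one]
    have gc : ∀ x ∈ A, g * x = x * g := by
      intro x hx
      have := hc' _ hq (by rw [star_sub, gs, star_one]) x hx
      rw [sub_mul, mul_sub, one_mul, mul_one] at this
      exact sub_left_injective this
    have gA : ∀ x ∈ A, g * x ∈ A := by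
      intro x hx
      have : g * x = (g - 1) * x + x := by noncomm_ring
      rw [this]
      exact A.add_mem (hmul _ hq x hx) hx
    have hy : ∀ x ∈ A, (1 + s) * x ∈ A := fun x hx => by
      rw [add_mul, one_mul]; exact A.add_mem hx (hmul s hs x hx)
    have hyi : ∀ x ∈ A, g * (1 - s) * x ∈ A := fun x hx => by
      rw [mul_assoc, sub_mul, one_mul]; exact gA _ (A.sub_mem hx (hmul s hs x hx))
    have gcs := gc s hs
    let R : A →L[ℝ] A := (Lm (1 + s) hy).comp ((St hstar).comp (Lm (g * (1 - s)) hyi))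
    have hR : ∀ x, (R x : D) = (1 + s) * star (g * (1 - s) * x) := fun x => rfl
    have w1 : WC Φ R := wc_twist hmul hstar hc' s hs hsk _ hyi (by
      calc (1 + s) * (g * (1 - s)) = g * (1 - s) + (s * g) * (1 - s) := by noncomm_ring
        _ = g * (1 - s * s) := by rw [← gcs]; noncomm_ring
        _ = 1 := g2) (by
      calc g * (1 - s) * (1 + s) = g * (1 - s * s) := by noncomm_ring
        _ = 1 := g2) R hR
    have w2 : WC Φ (St hstar) := wc_twist hmul hstar hc' 0 A.zero_mem (by simp) 1 (by simp)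
      (by simp) (by simp) _ fun x => by simp [St_coe]
    set b := (2 : ℝ) • (g * s) with hb
    have hbs : star b = -b := by
      rw [hb, star_smul, star_trivial, star_mul, hsk, gs, neg_mul, ← gcs, smul_neg]
    have hT : ∀ x : A, ((R.comp (St hstar) - (St hstar).comp R) x : D) = b * x + x * b := by
      intro x
      have gx := gc x x.2
      change (R (St hstar x) : D) - star (R x : D) = _
      rw [hR, hR, St_coe]
      simp only [star_mul, star_star, star_sub, star_add, star_one, star_neg, hsk, gs, hb, two_smul]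
      have e1 : (1 + s) * ((x : D) * ((1 - -s) * g)) = g * ((1 + s) * x * (1 + s)) := by
        have := gc ((1 + s) * x * (1 + s)) (by
          rw [mul_add, mul_one]
          exact A.add_mem (hy x x.2) (hmul _ (hy x x.2) s hs))
        rw [this]; noncomm_ring
      have e2 : (x : D) * (g * s + g * s) = g * (x * s + x * s) := by
        rw [← mul_add, ← mul_assoc, ← gx]; noncomm_ring
      rw [e1, e2, neg_neg]
      noncomm_ring
    refine index_zero_predual _ ((w1.comp w2).sub (w2.comp w1)) (fun h0 => hs0 ?_) (2 * ‖b‖ ^ 2)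
      (by positivity) fun t x => ?_
    · have := hT ⟨s, hs⟩
      rw [h0] at this
      change (0 : D) = b * s + s * b at this
      have e : b * s + s * b = (4 : ℝ) • (g * (s * s)) := by
        rw [hb, smul_mul_assoc, mul_smul_comm, ← mul_assoc s, ← gcs, mul_assoc, ← add_smul]
        norm_num
      rw [e] at this
      have h4 := (smul_eq_zero.1 this.symm).resolve_left (by norm_num)
      refine hsq s hsk ?_
      calc s * s = (1 - s * s) * g * (s * s) := by rw [g1, one_mul]
        _ = 0 := by rw [mul_assoc, h4, mul_zero]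
    · have := skew_both b hbs t x
      rw [← hT] at this
      exact this
  · push Not at hc
    obtain ⟨h, hh, hsa, k, hk, ksa, hne⟩ := hc
    have w1 := wc_sa (Φ := Φ) hcl hmul h hh hsa
    have w2 := wc_sa (Φ := Φ) hcl hmul k hk ksa
    set b := h * k - k * h with hb
    have hbs : star b = -b := by rw [hb, star_sub, star_mul, star_mul, hsa, ksa, neg_sub]
    have hT : ∀ x : A, (((Lm h (hmul h hh)).comp (Lm k (hmul k hk)) -
        (Lm k (hmul k hk)).comp (Lm h (hmul h hh))) x : D) = b * x := by
      intro x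
      change h * (k * x) - k * (h * x) = _
      rw [hb]; noncomm_ring
    refine index_zero_predual _ ((w1.comp w2).sub (w2.comp w1)) (fun h0 => hne ?_) (‖b‖ ^ 2)
      (by positivity) fun t x => ?_
    · have := hT ⟨b, A.sub_mem (hmul h hh k hk) (hmul k hk h hh)⟩
      rw [h0] at this
      exact sub_eq_zero.1 (hsq b hbs this.symm)
    · have := skew_left b hbs t x
      rw [← hT] at this
      exact this

end Pool.Agent.Lib.helper31.RealWStar
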