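import Pool.Agent.Lib.helper31.Fatou
import Pool.Agent.Lib.helper31.Hardy

set_option autoImplicit false

namespace Pool.Agent.H31.SAT

open Complex Metric Set Filter Topology MeasureTheory Pool.Agent.H31.JC Pool.Agent.H31.WAT
  Pool.Agent.H31.Hardy

/-- unimodular radial limit -/
def Uni (φ : ℂ → ℂ) (θ : ℝ) : Prop :=
  Tendsto (fun r : ℝ => ‖φ (r * exp (θ * I))‖) (𝓝[<] 1) (𝓝 1)

/-- radial dilation -/
def Rad (φ : ℂ → ℂ) (θ d : ℝ) : Prop :=
  Tendsto (fun r : ℝ => (1 - ‖φ (r * exp (θ * I))‖) / (1 - r)) (𝓝[<] 1) (𝓝 d)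

lemma pt_eq (θ y : ℝ) : exp (I * (θ + y * I)) = (Real.exp (-y) : ℝ) * exp (θ * I) := by
  rw [ofReal_exp, ← exp_add]
  congr 1
  push_cast
  linear_combination (y : ℂ) * I_mul_I

lemma exp_tend : Tendsto (fun y : ℝ => Real.exp (-y)) (𝓝[>] 0) (𝓝[<] 1) := by
  refine tendsto_nhdsWithin_iff.2 ⟨tendsto_nhdsWithin_of_tendsto_nhds ?_,
    eventually_nhdsWithin_of_forall fun y hy => Real.exp_lt_one_iff.2 (neg_neg_of_pos hy)⟩
  have : Continuous fun y : ℝ => Real.exp (-y) := by fun_prop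
  simpa using this.tendsto 0

lemma log_tend : Tendsto (fun r : ℝ => -Real.log r) (𝓝[<] 1) (𝓝[>] 0) := by
  refine tendsto_nhdsWithin_iff.2 ⟨tendsto_nhdsWithin_of_tendsto_nhds ?_, ?_⟩
  · simpa using (Real.continuousAt_log one_ne_zero).tendsto.neg
  · filter_upwards [Ioo_mem_nhdsLT (zero_lt_one' ℝ)] with r hr
    exact neg_pos.2 (Real.log_neg hr.1 hr.2)

lemma of_y {u : ℝ → ℝ} {a : ℝ} (h : Tendsto (fun y => u (Real.exp (-y))) (𝓝[>] 0) (𝓝 a)) :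
    Tendsto u (𝓝[<] 1) (𝓝 a) := by
  refine (h.comp log_tend).congr' ?_
  filter_upwards [Ioo_mem_nhdsLT (zero_lt_one' ℝ)] with r hr
  simp [Real.exp_log hr.1]

lemma slope_exp : Tendsto (fun y : ℝ => (1 - Real.exp (-y)) / y) (𝓝[>] 0) (𝓝 1) := by
  have h : HasDerivAt (fun y : ℝ => 1 - Real.exp (-y)) 1 0 := by
    simpa using ((hasDerivAt_id' (0 : ℝ)).neg.exp).const_sub 1
  have := h.tendsto_slope_zero_right
  simpa [div_eq_inv_mul] using this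

lemma ang_rad {φ : ℂ → ℂ} {θ d : ℝ} {η : ℂ} (hη : ‖η‖ = 1) (hd : 0 < d)
    (h : Ang (fun w => φ (exp (I * (θ + w)))) η d) : Rad φ θ d ∧ Uni φ θ := by
  have h1 : Tendsto (fun y : ℝ => (1 - ‖φ (exp (I * (θ + y * I)))‖) / y) (𝓝[>] 0) (𝓝 d) := by
    rw [Metric.tendsto_nhds]
    intro ε hε
    obtain ⟨δ, hδ, h1⟩ := h 1 one_pos (ε / 2) (by positivity)
    filter_upwards [Ioo_mem_nhdsGT (lt_min hδ (show 0 < 1 / d by positivity))] with y hy
    have hy0 : 0 < y := hy.1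
    have hn : ‖(y : ℂ) * I‖ = y := by simp [abs_of_pos hy0]
    have a1 := h1 (y * I) (by simp [H, hy0]) (by rw [hn]; exact hy.2.trans_le (min_le_left _ _))
      (by rw [hn]; simp)
    have a2 : y * d < 1 := (lt_div_iff₀ hd).1 (hy.2.trans_le (min_le_right _ _))
    rw [hn, show φ (exp (I * (θ + y * I))) - η - I * d * η * (y * I)
      = φ (exp (I * (θ + y * I))) - η * ((1 - d * y : ℝ) : ℂ) by
        push_cast; linear_combination (-(d : ℂ) * η * y) * I_mul_I] at a1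
    have a3 := (abs_norm_sub_norm_le _ _).trans a1
    rw [norm_mul, hη, one_mul, norm_real, Real.norm_eq_abs,
      abs_of_pos (show 0 < 1 - d * y by linarith)] at a3
    rw [Real.dist_eq, show (1 - ‖φ (exp (I * (θ + y * I)))‖) / y - d
      = -((‖φ (exp (I * (θ + y * I)))‖ - (1 - d * y)) / y) by field_simp; ring, abs_neg, abs_div,
      abs_of_pos hy0, div_lt_iff₀ hy0]
    nlinarith
  simp only [pt_eq] at h1
  constructor
  · refine of_y ?_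
    have := h1.div slope_exp one_ne_zero
    rw [div_one] at this
    refine this.congr' ?_
    filter_upwards [self_mem_nhdsWithin] with y hy
    have hy0 : y ≠ 0 := ne_of_gt hy
    simp only [Pi.div_apply]
    rw [div_div_div_cancel_right₀ hy0]
  · refine of_y ?_
    have := (h1.mul (tendsto_nhdsWithin_of_tendsto_nhds (s := Ioi (0 : ℝ)) tendsto_id)).const_sub 1
    rw [mul_zero, sub_zero] at this
    refine this.congr' ?_
    filter_upwards [self_mem_nhdsWithin] with y hy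
    have hy0 : y ≠ 0 := ne_of_gt hy
    simp only [id]
    field_simp
    ring

lemma rad_fin {φ : ℂ → ℂ} (hm : MapsTo φ (ball (0 : ℂ) 1) (ball (0 : ℂ) 1)) {θ d : ℝ}
    (h : Rad φ θ d) : Fin0 fun w => φ (exp (I * (θ + w))) := by
  refine ⟨2 * (|d| + 1), fun δ hδ => ?_⟩
  obtain ⟨y, h1, h2⟩ := (((h.comp exp_tend).eventually (gt_mem_nhds (show d < |d| + 1 by
    linarith [le_abs_self d]))).and (Ioo_mem_nhdsGT hδ)).exists
  have hy0 : 0 < y := h2.1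
  have hH : (y : ℂ) * I ∈ H := by simp [H, hy0]
  refine ⟨y * I, hH, by simpa [abs_of_pos hy0] using h2.2, ?_⟩
  have a1 := mem_ball_zero_iff.1 (hm (exp_mem (shift_mem θ hH)))
  simp only [Function.comp, ← pt_eq] at h1
  have a2 : Real.exp (-y) < 1 := Real.exp_lt_one_iff.2 (by linarith)
  rw [div_lt_iff₀ (by linarith)] at h1
  have a3 := Real.add_one_le_exp (-y)
  have a4 : (|d| + 1) * (1 - Real.exp (-y)) ≤ (|d| + 1) * y :=
    mul_le_mul_of_nonneg_left (by linarith) (by positivity)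
  simp only [mul_im, ofReal_re, I_im, mul_one, ofReal_im, I_re, mul_zero, add_zero]
  nlinarith [norm_nonneg (φ (exp (I * (θ + y * I))))]

lemma rad_eq (l n : ℕ) (θ : ℝ) : circleMap 0 (Real.exp (-(l / (2 * n)))) θ
    = exp (I * (θ + ((l / 2 : ℝ) : ℂ) * I / n)) := by
  rw [circleMap_zero, ← pt_eq]
  congr 2
  push_cast
  ring

lemma pw {φ : ℂ → ℂ} (hd : DifferentiableOn ℂ φ (ball 0 1))
    (hm : MapsTo φ (ball (0 : ℂ) 1) (ball (0 : ℂ) 1)) (θ : ℝ) : ∃ t : ℝ, 0 ≤ t ∧ t ≤ 1 ∧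
      (∀ l : ℕ, 0 < l → Tendsto (fun n : ℕ =>
        ‖φ (circleMap 0 (Real.exp (-(l / (2 * n)))) θ) ^ n‖ ^ 2) atTop (𝓝 (t ^ l))) ∧
      ((t = 0 ∧ ∀ d, ¬ Rad φ θ d) ∨ ∃ (η : ℂ) (d : ℝ), ‖η‖ = 1 ∧
        Ang (fun w => φ (exp (I * (θ + w)))) η d ∧ t = Real.exp (-d) ∧ Rad φ θ d ∧ Uni φ θ) := by
  have hfd : DifferentiableOn ℂ (fun w => φ (exp (I * w))) H :=
    hd.comp (by fun_prop) fun w hw => exp_mem hw
  have hg : ∀ w ∈ H, ‖φ (exp (I * (θ + w)))‖ < 1 := fun w hw =>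
    mem_ball_zero_iff.1 (hm (exp_mem (shift_mem θ hw)))
  have hl : ∀ l : ℕ, 0 < l → ((l / 2 : ℝ) : ℂ) * I ∈ H := fun l hl => by
    simp [H, hl]
  simp only [rad_eq]
  by_cases h : Fin0 fun w => φ (exp (I * (θ + w)))
  · obtain ⟨η, d, hη, hd0, hA⟩ := jc (shift_diff hfd θ) hg h
    refine ⟨Real.exp (-d), (Real.exp_pos _).le, Real.exp_le_one_iff.2 (by linarith),
      fun l h1 => ?_, Or.inr ⟨η, d, hη, hA, rfl, ang_rad hη hd0 hA⟩⟩
    have := (limB hη hA 0 (hl l h1)).norm.pow 2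
    simp only [add_zero, norm_pow, norm_div, hη, div_one] at this
    simp only [norm_pow]
    convert this using 2
    rw [norm_exp, ← Real.exp_nat_mul, ← Real.exp_nat_mul]
    congr 1
    simp
    ring
  · refine ⟨0, le_rfl, zero_le_one, fun l h1 => ?_, Or.inl ⟨rfl, fun d hr => h (rad_fin hm hr)⟩⟩
    have := (limA hg h 0 (hl l h1)).norm.pow 2
    simpa [h1.ne'] using this

/-- the radial limit of the modulus -/
noncomputable def sg (φ : ℂ → ℂ) (θ : ℝ) : ℝ :=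
  limUnder atTop fun m : ℕ => ‖φ (circleMap 0 (Real.exp (-(1 / ((m : ℝ) + 1)))) θ)‖

lemma sg_ae {φ : ℂ → ℂ} (hd : DifferentiableOn ℂ φ (ball 0 1))
    (hm : MapsTo φ (ball (0 : ℂ) 1) (ball (0 : ℂ) 1)) : ∀ᵐ θ : ℝ,
    Tendsto (fun m : ℕ => ‖φ (circleMap 0 (Real.exp (-(1 / ((m : ℝ) + 1)))) θ)‖) atTop (𝓝 (sg φ θ))
      ∧ (Uni φ θ ↔ sg φ θ = 1) ∧ 0 ≤ sg φ θ ∧ sg φ θ ≤ 1 := by
  filter_upwards [Fatou.fatou hd hm] with θ ⟨a, ha⟩
  have t0 : Tendsto (fun m : ℕ => 1 / ((m : ℝ) + 1)) atTop (𝓝[>] 0) :=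
    tendsto_nhdsWithin_iff.2 ⟨tendsto_one_div_add_atTop_nhds_zero_nat,
      Eventually.of_forall fun m => by simp only [mem_Ioi]; positivity⟩
  have h1 := ha.norm
  simp only [pt_eq] at h1
  have h2 : Tendsto (fun m : ℕ => ‖φ (circleMap 0 (Real.exp (-(1 / ((m : ℝ) + 1)))) θ)‖) atTop
      (𝓝 ‖a‖) := by simpa only [circleMap_zero, Function.comp_def] using h1.comp t0
  have h3 : sg φ θ = ‖a‖ := h2.limUnder_eq
  have h4 : Tendsto (fun r : ℝ => ‖φ (r * exp (θ * I))‖) (𝓝[<] 1) (𝓝 ‖a‖) := of_y h1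
  rw [h3]
  refine ⟨h2, ⟨fun h => tendsto_nhds_unique h4 h, fun h => by rw [h] at h4; exact h4⟩,
    norm_nonneg _, le_of_tendsto' h2 fun m =>
      (mem_ball_zero_iff.1 (hm (cm_mem (Real.exp_pos _) (rlt m) θ))).le⟩

lemma dct {ι : Type} {l : Filter ι} [l.IsCountablyGenerated] {F : ι → ℝ → ℝ} {f : ℝ → ℝ} (C : ℝ)
    (h1 : ∀ᶠ n in l, AEStronglyMeasurable (F n) volume)
    (h2 : ∀ᶠ n in l, ∀ᵐ θ, |F n θ| ≤ C) (h3 : ∀ᵐ θ, Tendsto (fun n => F n θ) l (𝓝 (f θ))) :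
    Tendsto (fun n => (2 * Real.pi)⁻¹ * ∫ θ in (0 : ℝ)..2 * Real.pi, F n θ) l
      (𝓝 ((2 * Real.pi)⁻¹ * ∫ θ in (0 : ℝ)..2 * Real.pi, f θ)) :=
  (intervalIntegral.tendsto_integral_filter_of_dominated_convergence (fun _ => C)
    (h1.mono fun _ h => h.restrict) (h2.mono fun _ h => h.mono fun _ h _ => h)
    intervalIntegrable_const (h3.mono fun _ h _ => h)).const_mul _

end Pool.Agent.H31.SAT
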