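import Pool.Agent.Lib.helper31.SATa

set_option autoImplicit false

namespace Pool.Agent.H31.SAT

open Complex Metric Set Filter Topology MeasureTheory Pool.Agent.H31.JC Pool.Agent.H31.WAT
  Pool.Agent.H31.Hardy

/-- indicator of the set where the boundary modulus is one -/
noncomputable def ch (φ : ℂ → ℂ) (θ : ℝ) : ℝ := if sg φ θ = 1 then 1 else 0

/-- weighted coefficient sums -/
noncomputable def A (φ q : ℂ → ℂ) (n l L : ℕ) : ℝ :=
  ∑' k : ℕ, ‖co (fun z => φ z ^ n * q z) k‖ ^ 2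
    * (Real.exp (-(k / n)) ^ l * (1 - Real.exp (-(k / n))) ^ L)

lemma ch_mem (φ : ℂ → ℂ) (θ : ℝ) : 0 ≤ ch φ θ ∧ ch φ θ ≤ 1 := by
  unfold ch; split_ifs <;> norm_num

lemma ch_lim {φ : ℂ → ℂ} {θ : ℝ} (h0 : 0 ≤ sg φ θ) (h1 : sg φ θ ≤ 1) :
    Tendsto (fun n : ℕ => (sg φ θ ^ n) ^ 2) atTop (𝓝 (ch φ θ)) := by
  unfold ch
  split_ifs with h
  · simp [h]
  · simpa using (tendsto_pow_atTop_nhds_zero_of_lt_one h0 (lt_of_le_of_ne h1 h)).pow 2

lemma sg_meas {φ : ℂ → ℂ} (hd : DifferentiableOn ℂ φ (ball 0 1))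
    (hm : MapsTo φ (ball (0 : ℂ) 1) (ball (0 : ℂ) 1)) : AEStronglyMeasurable (sg φ) volume :=
  aestronglyMeasurable_of_tendsto_ae atTop
    (fun m => (cm_cont hd (Real.exp_pos _) (rlt m)).norm.aestronglyMeasurable)
    ((sg_ae hd hm).mono fun _ h => h.1)

lemma ch_meas {φ : ℂ → ℂ} (hd : DifferentiableOn ℂ φ (ball 0 1))
    (hm : MapsTo φ (ball (0 : ℂ) 1) (ball (0 : ℂ) 1)) : AEStronglyMeasurable (ch φ) volume :=
  aestronglyMeasurable_of_tendsto_ae atTop (fun n => ((sg_meas hd hm).pow n).pow 2)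
    ((sg_ae hd hm).mono fun _ h => ch_lim h.2.2.1 h.2.2.2)

lemma rl_lt {l n : ℕ} (hl : 0 < l) (hn : 0 < n) : Real.exp (-(l / (2 * n))) < 1 :=
  Real.exp_lt_one_iff.2 (neg_neg_of_pos (by positivity))

lemma e_mem (k n : ℕ) : 0 ≤ Real.exp (-(k / n)) ∧ Real.exp (-(k / n)) ≤ 1 :=
  ⟨(Real.exp_pos _).le, Real.exp_le_one_iff.2 (neg_nonpos.2 (by positivity))⟩

lemma w_mem {x : ℝ} (h : 0 ≤ x ∧ x ≤ 1) (l L : ℕ) :
    0 ≤ x ^ l * (1 - x) ^ L ∧ x ^ l * (1 - x) ^ L ≤ 1 :=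
  ⟨mul_nonneg (pow_nonneg h.1 _) (pow_nonneg (sub_nonneg.2 h.2) _),
    mul_le_one₀ (pow_le_one₀ h.1 h.2) (pow_nonneg (sub_nonneg.2 h.2) _)
      (pow_le_one₀ (sub_nonneg.2 h.2) (by linarith [h.1]))⟩

lemma cm_lim {q : ℂ → ℂ} {R : ℝ} (hR : 1 < R) (hq : DifferentiableOn ℂ q (ball 0 R)) {r : ℕ → ℝ}
    (hr : Tendsto r atTop (𝓝 1)) (θ : ℝ) :
    Tendsto (fun m => ‖q (circleMap 0 (r m) θ)‖ ^ 2) atTop (𝓝 (‖q (circleMap 0 1 θ)‖ ^ 2)) := by
  have h1 : ContinuousAt q (circleMap 0 1 θ) :=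
    hq.continuousOn.continuousAt (isOpen_ball.mem_nhds (by simpa using hR))
  have h2 : Continuous fun r : ℝ => circleMap 0 r θ := by unfold circleMap; fun_prop
  exact ((h1.tendsto.comp ((h2.tendsto 1).comp hr)).norm.pow 2)

section main

variable {φ q : ℂ → ℂ} {R C : ℝ} (hd : DifferentiableOn ℂ φ (ball 0 1))
  (hm : MapsTo φ (ball (0 : ℂ) 1) (ball (0 : ℂ) 1)) (hR : 1 < R)
  (hq : DifferentiableOn ℂ q (ball 0 R)) (hC : ∀ z ∈ closedBall (0 : ℂ) 1, ‖q z‖ ≤ C)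

include hd hR hq in
lemma G_diff (n : ℕ) : DifferentiableOn ℂ (fun z => φ z ^ n * q z) (ball 0 1) :=
  (hd.pow n).mul (hq.mono (ball_subset_ball hR.le))

include hm hC in
lemma G_le (n : ℕ) : ∀ z ∈ ball (0 : ℂ) 1, ‖φ z ^ n * q z‖ ≤ C := fun z hz => by
  rw [norm_mul, norm_pow]
  exact (mul_le_of_le_one_left (norm_nonneg _) (pow_le_one₀ (norm_nonneg _)
    (mem_ball_zero_iff.1 (hm hz)).le)).trans (hC z (ball_subset_closedBall hz))

include hm hC in
lemma G_sq (n : ℕ) {r : ℝ} (h0 : 0 < r) (h1 : r < 1) (θ : ℝ) :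
    |‖φ (circleMap 0 r θ) ^ n * q (circleMap 0 r θ)‖ ^ 2| ≤ C ^ 2 := by
  rw [abs_of_nonneg (by positivity)]
  exact pow_le_pow_left₀ (norm_nonneg _) (G_le hm hC n _ (cm_mem h0 h1 θ)) 2

include hR hq in
lemma q_cont : Continuous fun θ => ‖q (circleMap 0 1 θ)‖ ^ 2 :=
  (hq.continuousOn.comp_continuous (continuous_circleMap 0 1)
    fun θ => by simpa using hR).norm.pow 2

include hC in
lemma q_sq (θ : ℝ) : ‖q (circleMap 0 1 θ)‖ ^ 2 ≤ C ^ 2 :=
  pow_le_pow_left₀ (norm_nonneg _) (hC _ (by simp)) 2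

include hd hm hR hq hC in
lemma base0 : Tendsto (fun n => A φ q n 0 0) atTop
    (𝓝 ((2 * Real.pi)⁻¹ * ∫ θ in (0 : ℝ)..2 * Real.pi, ch φ θ * ‖q (circleMap 0 1 θ)‖ ^ 2)) := by
  have h1 : ∀ n, A φ q n 0 0 = (2 * Real.pi)⁻¹ * ∫ θ in (0 : ℝ)..2 * Real.pi,
      (sg φ θ ^ n) ^ 2 * ‖q (circleMap 0 1 θ)‖ ^ 2 := fun n => by
    simp only [A, pow_zero, mul_one]
    refine tendsto_nhds_unique (ms_lim (G_diff hd hR hq n)
      (bdd (G_diff hd hR hq n) (G_le hm hC n)).1) (dct (C ^ 2) (Eventually.of_forall fun m =>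
        ((cm_cont (G_diff hd hR hq n) (Real.exp_pos _) (rlt m)).norm.pow 2).aestronglyMeasurable)
      (Eventually.of_forall fun m => Eventually.of_forall fun θ =>
        G_sq hm hC n (Real.exp_pos _) (rlt m) θ) ?_)
    filter_upwards [sg_ae hd hm] with θ h
    simp only [norm_mul, norm_pow, mul_pow]
    exact ((h.1.pow n).pow 2).mul (cm_lim hR hq rlim θ)
  simp only [h1]
  refine dct (C ^ 2) (Eventually.of_forall fun n => (((sg_meas hd hm).pow n).pow 2).mul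
    (q_cont hR hq).aestronglyMeasurable) (Eventually.of_forall fun n => ?_) ?_
  · filter_upwards [sg_ae hd hm] with θ h
    rw [abs_of_nonneg (by positivity)]
    exact (mul_le_of_le_one_left (by positivity) (pow_le_one₀ (pow_nonneg h.2.2.1 _)
      (pow_le_one₀ h.2.2.1 h.2.2.2))).trans (q_sq hC θ)
  · filter_upwards [sg_ae hd hm] with θ h
    exact (ch_lim h.2.2.1 h.2.2.2).mul_const _

include hd hm hR hq hC in
lemma base1 {t : ℝ → ℝ} {l : ℕ} (hl : 0 < l) (ht : ∀ θ, Tendsto (fun n : ℕ =>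
      ‖φ (circleMap 0 (Real.exp (-(l / (2 * n)))) θ) ^ n‖ ^ 2) atTop (𝓝 (t θ ^ l))) :
    Tendsto (fun n => A φ q n l 0) atTop
      (𝓝 ((2 * Real.pi)⁻¹ * ∫ θ in (0 : ℝ)..2 * Real.pi, t θ ^ l * ‖q (circleMap 0 1 θ)‖ ^ 2)) := by
  have r1 : Tendsto (fun n : ℕ => Real.exp (-(l / (2 * n)))) atTop (𝓝 1) := by
    have := (Real.continuous_exp.tendsto _).comp
      (tendsto_const_div_atTop_nhds_zero_nat ((l : ℝ) / 2)).neg
    simpa [Function.comp_def, div_div] using this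
  refine (dct (F := fun (n : ℕ) θ => ‖φ (circleMap 0 (Real.exp (-(l / (2 * n)))) θ) ^ n
    * q (circleMap 0 (Real.exp (-(l / (2 * n)))) θ)‖ ^ 2) (C ^ 2) ?_ ?_
    (Eventually.of_forall fun θ => ?_)).congr' ?_
  · filter_upwards [eventually_gt_atTop 0] with n hn
    exact ((cm_cont (G_diff hd hR hq n) (Real.exp_pos _)
      (rl_lt hl hn)).norm.pow 2).aestronglyMeasurable
  · filter_upwards [eventually_gt_atTop 0] with n hn
    exact Eventually.of_forall fun θ => G_sq hm hC n (Real.exp_pos _) (rl_lt hl hn) θ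
  · simp only [norm_mul, mul_pow]
    exact (ht θ).mul (cm_lim hR hq r1 θ)
  · filter_upwards [eventually_gt_atTop 0] with n hn
    have := (parseval (G_diff hd hR hq n) (Real.exp_pos _) (rl_lt hl hn)).tsum_eq
    refine this.symm.trans (tsum_congr fun k => ?_)
    rw [pow_zero, mul_one, ← Real.exp_nat_mul, ← Real.exp_nat_mul, ← Real.exp_nat_mul]
    congr 2
    have : (n : ℝ) ≠ 0 := by exact_mod_cast hn.ne'
    push_cast
    field_simp

include hd hm hR hq hC in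
lemma A_sum (n l L : ℕ) : Summable fun k : ℕ => ‖co (fun z => φ z ^ n * q z) k‖ ^ 2
    * (Real.exp (-(k / n)) ^ l * (1 - Real.exp (-(k / n))) ^ L) :=
  Summable.of_nonneg_of_le (fun k => mul_nonneg (by positivity) (w_mem (e_mem k n) l L).1)
    (fun k => mul_le_of_le_one_right (by positivity) (w_mem (e_mem k n) l L).2)
    (bdd (G_diff hd hR hq n) (G_le hm hC n)).1

include hd hm hR hq hC in
theorem moments {t : ℝ → ℝ} (h01 : ∀ θ, 0 ≤ t θ ∧ t θ ≤ 1) (htm : AEStronglyMeasurable t volume)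
    (ht : ∀ θ, ∀ l : ℕ, 0 < l → Tendsto (fun n : ℕ =>
      ‖φ (circleMap 0 (Real.exp (-(l / (2 * n)))) θ) ^ n‖ ^ 2) atTop (𝓝 (t θ ^ l)))
    (hu : ∀ θ, t θ = 0 ∨ Uni φ θ) (L : ℕ) : ∀ l, Tendsto (fun n => A φ q n l L) atTop
      (𝓝 ((2 * Real.pi)⁻¹ * ∫ θ in (0 : ℝ)..2 * Real.pi,
        t θ ^ l * (1 - t θ) ^ L * (ch φ θ * ‖q (circleMap 0 1 θ)‖ ^ 2))) := by
  have hi : ∀ l L : ℕ, IntervalIntegrable (fun θ =>
      t θ ^ l * (1 - t θ) ^ L * (ch φ θ * ‖q (circleMap 0 1 θ)‖ ^ 2)) volume 0 (2 * Real.pi) := by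
    intro l L
    refine (intervalIntegrable_const (c := C ^ 2)).mono_fun' (((htm.pow l).mul
      ((aestronglyMeasurable_const.sub htm).pow L)).mul ((ch_meas hd hm).mul
        (q_cont hR hq).aestronglyMeasurable)).restrict (Eventually.of_forall fun θ => ?_)
    have a := w_mem (h01 θ) l L
    have b := ch_mem φ θ
    show ‖_‖ ≤ _
    rw [Real.norm_of_nonneg (mul_nonneg a.1 (mul_nonneg b.1 (by positivity)))]
    exact (mul_le_of_le_one_left (mul_nonneg b.1 (by positivity)) a.2).trans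
      ((mul_le_of_le_one_left (by positivity) b.2).trans (q_sq hC θ))
  induction L with
  | zero =>
    intro l
    rcases l.eq_zero_or_pos with rfl | hl
    · simpa using base0 hd hm hR hq hC
    · convert base1 hd hm hR hq hC hl fun θ => ht θ l hl using 3
      refine intervalIntegral.integral_congr_ae ?_
      filter_upwards [sg_ae hd hm] with θ h _
      rcases hu θ with h1 | h1
      · simp [h1, hl.ne']
      · simp [ch, h.2.1.1 h1]
  | succ L ih =>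
    intro l
    have := (ih l).sub (ih (l + 1))
    rw [← mul_sub, ← intervalIntegral.integral_sub (hi _ _) (hi _ _)] at this
    convert this using 2
    · rename_i n
      rw [A, A, A, ← (A_sum hd hm hR hq hC n l L).tsum_sub (A_sum hd hm hR hq hC n (l + 1) L)]
      exact tsum_congr fun k => by ring
    · congr 2
      funext θ
      ring

end main

end Pool.Agent.H31.SAT
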