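import Pool.Agent.Lib.helper31.SATb

set_option autoImplicit false

namespace Pool.Agent.H31.SAT

open Complex Metric Set Filter Topology MeasureTheory Pool.Agent.H31.JC Pool.Agent.H31.WAT
  Pool.Agent.H31.Hardy

/-- tail of the coefficient sequence -/
noncomputable def tl (g : ℂ → ℂ) (n : ℕ) : ℝ := ∑' k : ℕ, ‖co g (n + k)‖ ^ 2

lemma tl_sum {g : ℂ → ℂ} (hs : Summable fun k => ‖co g k‖ ^ 2) (n : ℕ) :
    Summable fun k => ‖co g (n + k)‖ ^ 2 := by
  simpa only [add_comm] using (summable_nat_add_iff n).2 hs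

lemma tl_le {g : ℂ → ℂ} (hs : Summable fun k => ‖co g k‖ ^ 2) (n : ℕ) :
    tl g n ≤ ∑' k, ‖co g k‖ ^ 2 := by
  rw [← hs.sum_add_tsum_nat_add n]
  simp only [tl, add_comm n]
  exact le_add_of_nonneg_left (by positivity)

lemma tl_nonneg (g : ℂ → ℂ) (n : ℕ) : 0 ≤ tl g n := tsum_nonneg fun _ => by positivity

lemma beta_pos : 0 < 1 - Real.exp (-1) := sub_pos.2 (Real.exp_lt_one_iff.2 (by norm_num))

theorem exists_t {φ : ℂ → ℂ} (hd : DifferentiableOn ℂ φ (ball 0 1))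
    (hm : MapsTo φ (ball (0 : ℂ) 1) (ball (0 : ℂ) 1)) : ∃ t : ℝ → ℝ,
    (∀ θ, 0 ≤ t θ ∧ t θ ≤ 1) ∧ AEStronglyMeasurable t volume ∧
    (∀ θ, (t θ = 0 ∧ ∀ d, ¬ Rad φ θ d) ∨ ∃ (η : ℂ) (d : ℝ), ‖η‖ = 1 ∧
        Ang (fun w => φ (exp (I * (θ + w)))) η d ∧ t θ = Real.exp (-d) ∧ Rad φ θ d ∧ Uni φ θ) ∧
    ∀ {q : ℂ → ℂ} {R C : ℝ}, 1 < R → DifferentiableOn ℂ q (ball 0 R) →
      (∀ z ∈ closedBall (0 : ℂ) 1, ‖q z‖ ≤ C) → ∀ L, Tendsto (fun n => A φ q n 0 L) atTop
      (𝓝 ((2 * Real.pi)⁻¹ * ∫ θ in (0 : ℝ)..2 * Real.pi,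
        (1 - t θ) ^ L * (ch φ θ * ‖q (circleMap 0 1 θ)‖ ^ 2))) := by
  choose t h0 h1 h2 h3 using pw hd hm
  have htm : AEStronglyMeasurable t volume := by
    refine aestronglyMeasurable_of_tendsto_ae atTop (f := fun (n : ℕ) θ =>
      ‖φ (circleMap 0 (Real.exp (-((1 : ℕ) / (2 * ((n + 1 : ℕ) : ℝ))))) θ) ^ (n + 1)‖ ^ 2)
      (fun n => (((cm_cont hd (Real.exp_pos _)
        (rl_lt one_pos n.succ_pos)).pow _).norm.pow 2).aestronglyMeasurable)
      (Eventually.of_forall fun θ => ?_)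
    simpa only [pow_one, Function.comp_def] using (h2 θ 1 one_pos).comp (tendsto_add_atTop_nat 1)
  refine ⟨t, fun θ => ⟨h0 θ, h1 θ⟩, htm, h3, fun hR hq hC L => ?_⟩
  simpa using moments hd hm hR hq hC (fun θ => ⟨h0 θ, h1 θ⟩) htm h2
    (fun θ => (h3 θ).imp (fun h => h.1) fun ⟨_, _, h⟩ => h.2.2.2.2) L 0

theorem tail0 {φ q : ℂ → ℂ} {R : ℝ} (hd : DifferentiableOn ℂ φ (ball 0 1))
    (hm : MapsTo φ (ball (0 : ℂ) 1) (ball (0 : ℂ) 1)) (hR : 1 < R)
    (hq : DifferentiableOn ℂ q (ball 0 R))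
    (h : ∀ᵐ θ, θ ∈ Ioc 0 (2 * Real.pi) → Uni φ θ → ∃ d < 1, Rad φ θ d) :
    Tendsto (fun n => tl (fun z => φ z ^ n * q z) n) atTop (𝓝 0) := by
  obtain ⟨C, hC⟩ := (isCompact_closedBall (0 : ℂ) 1).exists_bound_of_continuousOn
    (hq.continuousOn.mono (closedBall_subset_ball hR))
  obtain ⟨t, h01, htm, h3, h4⟩ := exists_t hd hm
  set β := 1 - Real.exp (-1) with hβ
  have hb : 0 < β := beta_pos
  have key : ∀ᵐ θ, θ ∈ uIoc 0 (2 * Real.pi) → ch φ θ = 0 ∨ (1 - t θ) / β < 1 := by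
    filter_upwards [h, sg_ae hd hm] with θ a1 a2 a3
    rw [uIoc_of_le (by positivity)] at a3
    by_cases a4 : sg φ θ = 1
    · obtain ⟨d, b1, b2⟩ := a1 a3 (a2.2.1.2 a4)
      rcases h3 θ with b3 | ⟨_, d', _, _, b4, b5, _⟩
      · exact absurd b2 (b3.2 d)
      · right
        rw [div_lt_one hb, b4, tendsto_nhds_unique b5 b2, hβ]
        exact sub_lt_sub_left (Real.exp_lt_exp.2 (by linarith)) _
    · left; simp [ch, a4]
  have h5 : Tendsto (fun L : ℕ => ∫ θ in (0 : ℝ)..2 * Real.pi,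
      ((1 - t θ) / β) ^ L * (ch φ θ * ‖q (circleMap 0 1 θ)‖ ^ 2)) atTop
      (𝓝 (∫ _ in (0 : ℝ)..2 * Real.pi, 0)) := by
    refine intervalIntegral.tendsto_integral_filter_of_dominated_convergence (fun _ => C ^ 2)
      (Eventually.of_forall fun L => ((((aestronglyMeasurable_const.sub htm).mul_const β⁻¹).pow
        L).mul ((ch_meas hd hm).mul (q_cont hR hq).aestronglyMeasurable)).restrict)
      (Eventually.of_forall fun L => ?_) intervalIntegrable_const ?_
    · filter_upwards [key] with θ a1 a2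
      have a3 : 0 ≤ (1 - t θ) / β := div_nonneg (sub_nonneg.2 (h01 θ).2) hb.le
      have b := ch_mem φ θ
      rcases a1 a2 with a4 | a4
      · simp [a4, sq_nonneg]
      · rw [Real.norm_of_nonneg (mul_nonneg (pow_nonneg a3 _) (mul_nonneg b.1 (by positivity)))]
        exact (mul_le_of_le_one_left (mul_nonneg b.1 (by positivity)) (pow_le_one₀ a3 a4.le)).trans
          ((mul_le_of_le_one_left (by positivity) b.2).trans (q_sq hC θ))
    · filter_upwards [key] with θ a1 a2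
      have a3 : 0 ≤ (1 - t θ) / β := div_nonneg (sub_nonneg.2 (h01 θ).2) hb.le
      rcases a1 a2 with a4 | a4
      · simp [a4]
      · simpa using (tendsto_pow_atTop_nhds_zero_of_lt_one a3 a4).mul_const
          (ch φ θ * ‖q (circleMap 0 1 θ)‖ ^ 2)
  have h6 := h5.const_mul (2 * Real.pi)⁻¹
  simp only [intervalIntegral.integral_zero, mul_zero] at h6
  rw [NormedAddGroup.tendsto_nhds_zero]
  intro ε hε
  obtain ⟨L, hL⟩ := (h6.eventually (gt_mem_nhds hε)).exists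
  have h7 := (h4 hR hq hC L).div_const (β ^ L)
  rw [mul_div_assoc, ← intervalIntegral.integral_div] at h7
  simp only [div_pow, div_mul_eq_mul_div] at hL
  filter_upwards [h7.eventually (gt_mem_nhds hL), eventually_gt_atTop 0] with n a1 hn
  rw [Real.norm_of_nonneg (tl_nonneg _ _)]
  refine lt_of_le_of_lt ?_ a1
  have s1 := A_sum hd hm hR hq hC n 0 L
  have s2 := tl_sum (bdd (G_diff hd hR hq n) (G_le hm hC n)).1 n
  rw [le_div_iff₀ (pow_pos hb _), A, ← s1.sum_add_tsum_nat_add n, tl, ← tsum_mul_right]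
  refine le_add_of_nonneg_of_le (Finset.sum_nonneg fun k _ =>
    mul_nonneg (by positivity) (w_mem (e_mem k n) 0 L).1) ((s2.mul_right _).tsum_le_tsum
      (fun k => ?_) ((summable_nat_add_iff n).2 s1))
  rw [add_comm n k, pow_zero, one_mul]
  have hn' : (0 : ℝ) < n := by exact_mod_cast hn
  gcongr
  refine sub_le_sub_left (Real.exp_le_exp.2 (neg_le_neg ?_)) _
  rw [le_div_iff₀ hn']
  push_cast
  linarith [(Nat.cast_nonneg k : (0 : ℝ) ≤ k)]

theorem tail1 {φ g : ℂ → ℂ} (hd : DifferentiableOn ℂ φ (ball 0 1))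
    (hm : MapsTo φ (ball (0 : ℂ) 1) (ball (0 : ℂ) 1)) (hg : DifferentiableOn ℂ g (ball 0 1))
    (hs : Summable fun k => ‖co g k‖ ^ 2)
    (h : ∀ᵐ θ, θ ∈ Ioc 0 (2 * Real.pi) → Uni φ θ → ∃ d < 1, Rad φ θ d) :
    (∀ n, Summable fun k => ‖co (fun z => φ z ^ n * g z) k‖ ^ 2) ∧
      Tendsto (fun n => tl (fun z => φ z ^ n * g z) n) atTop (𝓝 0) := by
  have hle : ∀ (u : ℂ → ℂ) (n : ℕ), ∀ z ∈ ball (0 : ℂ) 1, ‖φ z ^ n * u z‖ ≤ ‖u z‖ :=
    fun u n z hz => by
      rw [norm_mul, norm_pow]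
      exact mul_le_of_le_one_left (norm_nonneg _) (pow_le_one₀ (norm_nonneg _)
        (mem_ball_zero_iff.1 (hm hz)).le)
  refine ⟨fun n => (dom ((hd.pow n).mul hg) hg (hle g n) hs).1, ?_⟩
  have h1 := tendsto_tsum_of_dominated_convergence (𝓕 := atTop)
    (f := fun (m : ℕ) k => ‖co g k‖ ^ 2 * (1 - Real.exp (-(1 / ((m : ℝ) + 1))) ^ k) ^ 2)
    (g := fun _ => 0) hs
    (fun k => by simpa using (((rlim.pow k).const_sub 1).pow 2).const_mul (‖co g k‖ ^ 2))
    (Eventually.of_forall fun m k => by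
      have a := pow_le_one₀ (n := k) (Real.exp_pos _).le (rlt m).le
      have b := pow_pos (Real.exp_pos (-(1 / ((m : ℝ) + 1)))) k
      rw [Real.norm_of_nonneg (by positivity)]
      exact mul_le_of_le_one_right (by positivity) (pow_le_one₀ (by linarith) (by linarith)))
  rw [tsum_zero] at h1
  rw [NormedAddGroup.tendsto_nhds_zero]
  intro ε hε
  obtain ⟨m, hm1⟩ := (h1.eventually (gt_mem_nhds (show 0 < ε / 4 by positivity))).exists
  set ρ := Real.exp (-(1 / ((m : ℝ) + 1))) with hρ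
  have r0 : 0 < ρ := Real.exp_pos _
  have r1 : ρ < 1 := rlt m
  have hR : 1 < ρ⁻¹ := (one_lt_inv₀ r0).2 r1
  have hq := dil_diff hg r0
  have hq1 := hq.mono (ball_subset_ball hR.le)
  have hh : DifferentiableOn ℂ (fun z => g z - g (ρ * z)) (ball 0 1) := hg.sub hq1
  have c1 : ∀ k, ‖co (fun z => g z - g (ρ * z)) k‖ ^ 2 = ‖co g k‖ ^ 2 * (1 - ρ ^ k) ^ 2 :=
    fun k => by
      have := co_add hq1 hh k
      simp only [add_sub_cancel] at this
      rw [co_dil hg r0 r1] at this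
      rw [show co (fun z => g z - g (ρ * z)) k = co g k * ((1 - ρ ^ k : ℝ) : ℂ) by
        push_cast; linear_combination -this, norm_mul, mul_pow, norm_real, Real.norm_eq_abs, sq_abs]
  have s1 : Summable fun k => ‖co (fun z => g z - g (ρ * z)) k‖ ^ 2 := by
    simp only [c1]
    refine Summable.of_nonneg_of_le (fun k => by positivity) (fun k => ?_) hs
    have a := pow_le_one₀ (n := k) r0.le r1.le
    have b := pow_pos r0 k
    exact mul_le_of_le_one_right (by positivity) (pow_le_one₀ (by linarith) (by linarith))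
  have s2 : Summable fun k => ‖co (fun z => g (ρ * z)) k‖ ^ 2 := by
    simp only [co_dil hg r0 r1]
    refine Summable.of_nonneg_of_le (fun k => by positivity) (fun k => ?_) hs
    rw [norm_mul, norm_pow, norm_real, Real.norm_of_nonneg r0.le]
    exact pow_le_pow_left₀ (by positivity)
      (mul_le_of_le_one_right (norm_nonneg _) (pow_le_one₀ r0.le r1.le)) 2
  filter_upwards [(tail0 hd hm hR hq h).eventually (gt_mem_nhds (show 0 < ε / 4 by positivity))]
    with n a1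
  rw [Real.norm_of_nonneg (tl_nonneg _ _)]
  have d1 := dom (g := fun z => φ z ^ n * (g z - g (ρ * z))) ((hd.pow n).mul hh) hh (hle _ n) s1
  have d2 := dom (g := fun z => φ z ^ n * g (ρ * z)) ((hd.pow n).mul hq1) hq1 (hle _ n) s2
  have d3 := (tl_le d1.1 n).trans d1.2
  simp only [c1] at d3
  have d4 : tl (fun z => φ z ^ n * g z) n ≤ 2 * tl (fun z => φ z ^ n * g (ρ * z)) n
      + 2 * tl (fun z => φ z ^ n * (g z - g (ρ * z))) n := by
    rw [tl, tl, tl, ← tsum_mul_left, ← tsum_mul_left,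
      ← ((tl_sum d2.1 n).mul_left 2).tsum_add ((tl_sum d1.1 n).mul_left 2)]
    refine (tl_sum (dom ((hd.pow n).mul hg) hg (hle g n) hs).1 n).tsum_le_tsum (fun k => ?_)
      (((tl_sum d2.1 n).mul_left 2).add ((tl_sum d1.1 n).mul_left 2))
    have e := co_add (g := fun z => φ z ^ n * g (ρ * z))
      (h := fun z => φ z ^ n * (g z - g (ρ * z))) ((hd.pow n).mul hq1) ((hd.pow n).mul hh) (n + k)
    have e2 : (fun z => φ z ^ n * g z)
        = fun z => φ z ^ n * g (ρ * z) + φ z ^ n * (g z - g (ρ * z)) := funext fun z => by ring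
    have e3 := pow_le_pow_left₀ (norm_nonneg _) (e.symm ▸ norm_add_le _ _ : ‖co (fun z =>
      φ z ^ n * g (ρ * z) + φ z ^ n * (g z - g (ρ * z))) (n + k)‖ ≤ ‖co (fun z =>
      φ z ^ n * g (ρ * z)) (n + k)‖ + ‖co (fun z => φ z ^ n * (g z - g (ρ * z))) (n + k)‖) 2
    rw [← e2] at e3
    exact e3.trans (add_sq_le.trans (le_of_eq (mul_add _ _ _)))
  have d5 : tl (fun z => φ z ^ n * (g z - g (ρ * z))) n < ε / 4 := d3.trans_lt hm1
  linarith

theorem conv {φ : ℂ → ℂ} (hd : DifferentiableOn ℂ φ (ball 0 1))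
    (hm : MapsTo φ (ball (0 : ℂ) 1) (ball (0 : ℂ) 1))
    (hr : ¬ ∃ c : ℂ, ‖c‖ = 1 ∧ ∀ z ∈ ball (0 : ℂ) 1, φ z = c * z)
    (h : Tendsto (fun n => tl (fun z => φ z ^ n * 1) n) atTop (𝓝 0)) :
    ∀ᵐ θ ∂(volume.restrict (Ioc 0 (2 * Real.pi))), Uni φ θ → ∃ d < 1, Rad φ θ d := by
  obtain ⟨t, h01, htm, h3, h4⟩ := exists_t hd hm
  set β := 1 - Real.exp (-1) with hβ
  have hb : 0 < β := beta_pos
  have hp : (0 : ℝ) < 2 * Real.pi := by positivity
  have hq : DifferentiableOn ℂ (fun _ : ℂ => (1 : ℂ)) (ball 0 2) := by fun_prop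
  have hC : ∀ z ∈ closedBall (0 : ℂ) 1, ‖(fun _ : ℂ => (1 : ℂ)) z‖ ≤ 1 := fun _ _ => by simp
  have h5 : ∀ L : ℕ, ∫ θ in (0 : ℝ)..2 * Real.pi, (1 - t θ) ^ L * ch φ θ ≤ 2 * Real.pi * β ^ L := by
    intro L
    have a1 := h4 one_lt_two hq hC L
    simp only [norm_one, one_pow, mul_one] at a1
    have a2 := h.const_add (β ^ L)
    rw [add_zero] at a2
    rw [← inv_mul_le_iff₀ hp]
    refine le_of_tendsto_of_tendsto a1 a2 ?_
    filter_upwards [eventually_gt_atTop 0] with n hn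
    have hn' : (0 : ℝ) < n := by exact_mod_cast hn
    have s1 := A_sum hd hm one_lt_two hq hC n 0 L
    have s2 := bdd (G_diff hd one_lt_two hq n) (G_le hm hC n)
    rw [A, ← s1.sum_add_tsum_nat_add n]
    refine add_le_add ?_ ?_
    · refine le_trans (Finset.sum_le_sum (g := fun k => ‖co (fun z => φ z ^ n * 1) k‖ ^ 2 * β ^ L)
        fun k hk => ?_) ?_
      · rw [pow_zero, one_mul]
        have := sub_nonneg.2 (e_mem k n).2
        gcongr
        refine sub_le_sub_left (Real.exp_le_exp.2 (neg_le_neg ?_)) _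
        rw [div_le_one hn']
        exact_mod_cast (Finset.mem_range.1 hk).le
      · rw [← Finset.sum_mul]
        refine mul_le_of_le_one_left (by positivity) ?_
        exact (s2.1.sum_le_tsum _ fun k _ => by positivity).trans (s2.2.trans_eq (one_pow 2))
    · refine ((summable_nat_add_iff n).2 s1).tsum_le_tsum (fun k => ?_) (tl_sum s2.1 n)
      rw [add_comm n k]
      exact mul_le_of_le_one_right (by positivity) (w_mem (e_mem _ n) 0 L).2
  have i1 : ∀ {u : ℝ → ℝ}, AEStronglyMeasurable u volume → (∀ θ, 0 ≤ u θ ∧ u θ ≤ 1) →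
      IntervalIntegrable u volume 0 (2 * Real.pi) := fun hu h => by
    refine (intervalIntegrable_const (c := (1 : ℝ))).mono_fun' hu.restrict
      (Eventually.of_forall fun θ => ?_)
    show ‖_‖ ≤ _
    rw [Real.norm_of_nonneg (h θ).1]
    exact (h θ).2
  set v : ℝ → ℝ := fun θ => max (1 - t θ - β) 0 * ch φ θ with hv
  have v0 : ∀ θ, 0 ≤ v θ := fun θ => mul_nonneg (le_max_right _ _) (ch_mem φ θ).1
  have i2 : IntervalIntegrable v volume 0 (2 * Real.pi) :=
    i1 ((((aestronglyMeasurable_const.sub htm).sub aestronglyMeasurable_const).sup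
      aestronglyMeasurable_const).mul (ch_meas hd hm)) fun θ => ⟨v0 θ, mul_le_one₀
        (max_le (by linarith [(h01 θ).1]) zero_le_one) (ch_mem φ θ).1 (ch_mem φ θ).2⟩
  have h6 : ∀ L : ℕ, (L : ℝ) * ∫ θ in (0 : ℝ)..2 * Real.pi, v θ ≤ 2 * Real.pi * β := by
    intro L
    have a0 : 0 < β ^ L := pow_pos hb L
    have a1 : ∫ θ in (0 : ℝ)..2 * Real.pi, (L * β ^ L / β) * v θ
        ≤ ∫ θ in (0 : ℝ)..2 * Real.pi, (1 - t θ) ^ L * ch φ θ := by
      refine intervalIntegral.integral_mono_on hp.le (i2.const_mul _)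
        (i1 (((aestronglyMeasurable_const.sub htm).pow L).mul (ch_meas hd hm)) fun θ => ?_)
        fun θ _ => ?_
      · have := w_mem (h01 θ) 0 L
        rw [pow_zero, one_mul] at this
        exact ⟨mul_nonneg this.1 (ch_mem φ θ).1, mul_le_one₀ this.2 (ch_mem φ θ).1 (ch_mem φ θ).2⟩
      · rw [hv, ← mul_assoc]
        refine mul_le_mul_of_nonneg_right ?_ (ch_mem φ θ).1
        have b0 : 0 ≤ 1 - t θ := sub_nonneg.2 (h01 θ).2
        rcases le_total (1 - t θ - β) 0 with b1 | b1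
        · rw [max_eq_right b1, mul_zero]
          exact pow_nonneg b0 _
        · rw [max_eq_left b1]
          have b2 := one_add_mul_le_pow (show (-2 : ℝ) ≤ (1 - t θ - β) / β from
            le_trans (by norm_num) (div_nonneg b1 hb.le)) L
          rw [show 1 + (1 - t θ - β) / β = (1 - t θ) / β by field_simp; ring, div_pow,
            le_div_iff₀ a0] at b2
          refine le_trans ?_ b2
          rw [add_mul, show (L : ℝ) * ((1 - t θ - β) / β) * β ^ L
            = L * β ^ L / β * (1 - t θ - β) by ring]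
          linarith
    rw [intervalIntegral.integral_const_mul] at a1
    have a2 := a1.trans (h5 L)
    rw [show (L : ℝ) * β ^ L / β * ∫ θ in (0 : ℝ)..2 * Real.pi, v θ
      = (L * ∫ θ in (0 : ℝ)..2 * Real.pi, v θ) / β * β ^ L by ring] at a2
    exact (div_le_iff₀ hb).1 (le_of_mul_le_mul_right a2 a0)
  have h7 : ∫ θ in (0 : ℝ)..2 * Real.pi, v θ = 0 := by
    refine le_antisymm (not_lt.1 fun a => ?_) (intervalIntegral.integral_nonneg hp.le fun θ _ => v0 θ)
    obtain ⟨L, hL⟩ := exists_nat_gt (2 * Real.pi * β / ∫ θ in (0 : ℝ)..2 * Real.pi, v θ)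
    rw [div_lt_iff₀ a] at hL
    exact absurd (h6 L) (not_le.2 hL)
  rw [intervalIntegral.integral_eq_zero_iff_of_le_of_nonneg_ae hp.le
    (Eventually.of_forall fun θ => v0 θ) i2] at h7
  filter_upwards [h7, ae_restrict_of_ae (sg_ae hd hm),
    ae_restrict_of_ae (measure_eq_zero_iff_ae_notMem.1 (null_set hd hr))] with θ a1 a2 a3 a4
  have a5 : 1 - t θ - β ≤ 0 := by
    have : max (1 - t θ - β) 0 = 0 := by simpa [hv, ch, a2.2.1.1 a4] using a1
    exact (le_max_left _ _).trans this.le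
  have a6 : Real.exp (-1) ≤ t θ := by rw [hβ] at a5; linarith
  rcases h3 θ with b | ⟨η, d, b1, b2, b3, b4, _⟩
  · exact absurd (b.1 ▸ a6) (not_le.2 (Real.exp_pos _))
  · rw [b3, Real.exp_le_exp] at a6
    refine ⟨d, lt_of_le_of_ne (by linarith) fun e => a3 ⟨η, b1, ?_⟩, b4⟩
    simpa [e] using b2

end Pool.Agent.H31.SAT
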