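import Pool.Agent.Lib.helper31.UCL

set_option autoImplicit false

namespace Pool.Agent.H31.Sab

open Metric Set Filter Topology Real Pool.Agent.H31.UCL

def Lip (F : E → ℝ) : Prop := ∃ K, LipschitzOnWith K F (ball 0 1)

lemma Lip.add {F G : E → ℝ} (a : Lip F) (b : Lip G) : Lip fun x => F x + G x :=
  a.elim fun _ a => b.elim fun _ b => ⟨_, a.add b⟩

lemma c1 {P : E → ℝ} (h : ContDiff ℝ 1 P) : ∃ K, LipschitzOnWith K P (closedBall 0 1) :=
  h.locallyLipschitz.locallyLipschitzOn.exists_lipschitzOnWith_of_compact (isCompact_closedBall _ _)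

lemma lip_c1 {P : E → ℝ} (h : ContDiff ℝ 1 P) : Lip P :=
  (c1 h).imp fun _ k => k.mono ball_subset_closedBall

lemma lip1 {F D : ℝ → ℝ} (hF : Continuous F) (hD : Continuous D)
    (h : ∀ r, 0 < r → HasDerivAt F (D r) r) : ∃ K, LipschitzOnWith K F (Icc 0 1) := by
  obtain ⟨M, hM⟩ := isCompact_Icc.exists_bound_of_continuousOn (hD.continuousOn (s := Icc 0 1))
  refine ⟨M.toNNReal, ?_⟩
  rw [← closure_Ioo zero_ne_one]
  exact LipschitzOnWith.closure hF.continuousOn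
    ((convex_Ioo 0 1).lipschitzOnWith_of_nnnorm_hasDerivWithin_le
      (fun r hr => (h r hr.1).hasDerivWithinAt) fun r hr =>
        (hM r (Ioo_subset_Icc_self hr)).trans (le_coe_toNNReal M))

noncomputable def N (x : E) : E := ‖x‖⁻¹ • x

lemma N_le (x : E) : ‖N x‖ ≤ 1 := by
  rw [N, norm_smul, norm_inv, norm_norm]
  exact inv_mul_le_one

lemma N_sm (x : E) : ‖x‖ • N x = x := by
  by_cases h : x = 0
  · simp [h]
  · rw [N, smul_inv_smul₀ (norm_ne_zero_iff.2 h)]

lemma N_lip (x y : E) : ‖y‖ * ‖N x - N y‖ ≤ 2 * ‖x - y‖ := by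
  have e : ‖y‖ • (N x - N y) = (‖y‖ - ‖x‖) • N x + (x - y) := by
    rw [smul_sub, sub_smul, N_sm, N_sm]; abel
  have a := norm_add_le ((‖y‖ - ‖x‖) • N x) (x - y)
  rw [← e, norm_smul, norm_norm, norm_smul] at a
  have b := mul_le_mul (abs_norm_sub_norm_le y x) (N_le x) (norm_nonneg _) (norm_nonneg _)
  rw [norm_sub_rev y] at b
  rw [Real.norm_eq_abs] at a
  linarith

lemma polar {P : E → ℝ} {ρ : ℝ → ℝ} (hP : ContDiff ℝ 1 P) (hρ : ∃ K, LipschitzOnWith K ρ (Icc 0 1))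
    (h0 : ρ 0 = 0) : Lip fun x => P (N x) * ρ ‖x‖ := by
  obtain ⟨K, hK⟩ := hρ
  obtain ⟨L, hL⟩ := c1 hP
  obtain ⟨M, hM⟩ := (isCompact_closedBall (0 : E) 1).exists_bound_of_continuousOn
    hP.continuous.continuousOn
  have m := fun x => mem_closedBall_zero_iff.2 (N_le x)
  refine ⟨(M * K + 2 * (L * K)).toNNReal, LipschitzOnWith.of_dist_le' fun x hx y hy => ?_⟩
  have i : ∀ {x : E}, x ∈ ball 0 1 → ‖x‖ ∈ Icc (0 : ℝ) 1 := fun h =>
    ⟨norm_nonneg _, (mem_ball_zero_iff.1 h).le⟩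
  have a := (hK.dist_le_mul _ (i hx) _ (i hy)).trans
    (mul_le_mul_of_nonneg_left (dist_norm_norm_le x y) K.2)
  have b := hK.dist_le_mul _ (i hy) 0 ⟨le_rfl, zero_le_one⟩
  have c := hL.dist_le_mul _ (m x) _ (m y)
  rw [h0, dist_zero_right, dist_zero_right, norm_norm] at b
  rw [dist_eq_norm] at a c
  rw [dist_eq_norm] at c
  have d := mul_le_mul (hM _ (m x)) a (norm_nonneg _) ((norm_nonneg _).trans (hM _ (m x)))
  have f := mul_le_mul c b (norm_nonneg _) (by positivity)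
  have g := mul_le_mul_of_nonneg_left (N_lip x y) (show 0 ≤ (L : ℝ) * K by positivity)
  rw [dist_eq_norm, dist_eq_norm, show P (N x) * ρ ‖x‖ - P (N y) * ρ ‖y‖
    = P (N x) * (ρ ‖x‖ - ρ ‖y‖) + (P (N x) - P (N y)) * ρ ‖y‖ by ring]
  refine (norm_add_le _ _).trans ?_
  rw [norm_mul, norm_mul]
  linarith

lemma dg {r : ℝ} (h : 0 < r) : HasDerivAt (fun r => r * log r) (log r + 1) r :=
  hasDerivAt_mul_log h.ne'

lemma r1 : ∃ K, LipschitzOnWith K (fun r : ℝ => r) (Icc 0 1) := ⟨1, LipschitzWith.id.lipschitzOnWith⟩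

lemma r2 : ∃ K, LipschitzOnWith K (fun r => r * (r * log r)) (Icc 0 1) :=
  lip1 (D := fun r => 2 * (r * log r) + r) (continuous_id.mul continuous_mul_log)
    ((continuous_const.mul continuous_mul_log).add continuous_id) fun r h =>
      ((hasDerivAt_id' r).mul (dg h)).congr_deriv (by ring)

lemma r3 : ∃ K, LipschitzOnWith K (fun r => (r * log r) ^ 2) (Icc 0 1) :=
  lip1 (D := fun r => 8 * (√r * log √r) ^ 2 + 2 * (r * log r)) (continuous_mul_log.pow 2)
    ((continuous_const.mul ((continuous_mul_log.comp continuous_sqrt).pow 2)).add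
      (continuous_const.mul continuous_mul_log)) fun r h =>
      ((dg h).pow 2).congr_deriv (by rw [mul_pow √r, sq_sqrt h.le, log_sqrt h.le]; norm_num; ring)

noncomputable def s (x : E) : ℝ := x 0 ^ 2 + x 1 ^ 2

lemma s_eq (x : E) : s x = ‖x‖ ^ 2 := by simp [s, EuclideanSpace.real_norm_sq_eq]

noncomputable def u : Fin 2 → E → ℝ :=
  ![fun x => x 0 + (x 0 ^ 2 - x 1 ^ 2) * log (s x), fun x => -x 1 + 2 * (x 0 * x 1) * log (s x)]

noncomputable def p (x : E) : ℝ := 2 * (x 0 * (x 0 ^ 2 - 3 * x 1 ^ 2))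

noncomputable def p2 (x : E) : ℝ := 2 * (x 1 * (3 * x 0 ^ 2 - x 1 ^ 2))

noncomputable def c : Fin 2 → E → ℝ := ![fun x => 2 + p x / s x, fun x => p2 x / s x]

noncomputable def J (x : E) : ℝ := s x * (2 * log (s x) + 1) ^ 2 - s x - 1 - p x / s x

lemma Lip.congr {F G : E → ℝ} (a : Lip F) (h0 : G 0 = F 0) (h : ∀ x, ‖x‖ ≠ 0 → G x = F x) :
    Lip G := by
  rwa [show G = F from funext fun x => by
    by_cases k : x = 0
    exacts [k ▸ h0, h x (norm_ne_zero_iff.2 k)]]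

lemma u_lip (i : Fin 2) : Lip (u i) := by
  fin_cases i
  · refine ((lip_c1 (P := fun x => x 0) (by fun_prop)).add (polar
      (P := fun x => 2 * (x 0 ^ 2 - x 1 ^ 2)) (by fun_prop) r2 (by simp))).congr (by simp [u])
      fun x h => ?_
    simp [u, s_eq, N]
    field_simp
  · refine ((lip_c1 (P := fun x => -x 1) (by fun_prop)).add (polar
      (P := fun x => 4 * (x 0 * x 1)) (by fun_prop) r2 (by simp))).congr (by simp [u])
      fun x h => ?_
    simp [u, s_eq, N]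
    field_simp
    ring

lemma p_lip (a : ℝ) : Lip fun x => a * (p x / s x) := by
  refine (polar (P := fun x => a * p x) (by unfold p; fun_prop) r1 rfl).congr (by simp [p])
    fun x h => ?_
  simp [p, s_eq, N]
  field_simp

lemma c_lip (i : Fin 2) : Lip (c i) := by
  fin_cases i
  · exact ((lip_c1 (P := fun _ => 2) contDiff_const).add (p_lip 1)).congr (by simp [c])
      fun x _ => by simp [c]
  · refine (polar (P := p2) (by unfold p2; fun_prop) r1 rfl).congr (by simp [c, p2]) fun x h => ?_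
    simp [c, p2, s_eq, N]
    field_simp

lemma J_lip : Lip J := by
  refine ((((polar (P := fun _ => 16) contDiff_const r3 (by simp)).add
    (polar (P := fun _ => 8) contDiff_const r2 (by simp))).add
    (lip_c1 (P := fun _ => -1) contDiff_const)).add (p_lip (-1))).congr (by simp [J, s])
    fun x h => ?_
  simp only [J]
  rw [s_eq, log_pow]
  push_cast
  ring

lemma du {x : E} (h : s x ≠ 0) :
    fderiv ℝ (u 0) x (e 0) = 1 + 2 * x 0 * log (s x) + (x 0 ^ 2 - x 1 ^ 2) * (2 * x 0) / s x ∧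
    fderiv ℝ (u 0) x (e 1) = -2 * x 1 * log (s x) + (x 0 ^ 2 - x 1 ^ 2) * (2 * x 1) / s x ∧
    fderiv ℝ (u 1) x (e 0) = 2 * x 1 * log (s x) + 2 * (x 0 * x 1) * (2 * x 0) / s x ∧
    fderiv ℝ (u 1) x (e 1) = -1 + 2 * x 0 * log (s x) + 2 * (x 0 * x 1) * (2 * x 1) / s x := by
  have l := (((d 0 x).pow 2).add ((d 1 x).pow 2)).log h
  have a := ((d 0 x).add ((((d 0 x).pow 2).sub ((d 1 x).pow 2)).mul l)).fderiv
  have b := ((d 1 x).neg.add ((((d 0 x).mul (d 1 x)).const_mul 2).mul l)).fderiv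
  erw [a, b]
  refine ⟨?_, ?_, ?_, ?_⟩ <;> simp [s] <;> ring

lemma it0 {F : E → ℝ} (h : Lip F) {δ : ℝ} (h1 : δ ≤ 1) :
    ContDiffOn ℝ (0 : ℕ) F (ball 0 δ) ∧ ∀ x ∈ ball (0 : E) δ, ∃ C : NNReal, ∃ U ∈ 𝓝 x,
      LipschitzOnWith C (iteratedFDeriv ℝ 0 F) (U ∩ ball 0 δ) := by
  obtain ⟨K, hK⟩ := h
  have k := hK.mono (ball_subset_ball h1)
  exact ⟨contDiffOn_zero.2 k.continuousOn, fun x _ => ⟨_, univ, univ_mem,
    (continuousMultilinearCurryFin0 ℝ E ℝ).symm.lipschitz.comp_lipschitzOnWith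
      (k.mono inter_subset_right)⟩⟩

lemma not_lip {C : NNReal} {U : Set E} (hU : U ∈ 𝓝 0) :
    ¬ LipschitzOnWith C (iteratedFDeriv ℝ 1 (u 0)) U := fun h => by
  have t : ∀ a : ℝ, ∀ᶠ t in 𝓝[>] (0 : ℝ), (a * t) • e 0 ∈ U := fun a => by
    have : Continuous fun t : ℝ => (a * t) • e 0 := by fun_prop
    exact nhdsWithin_le_nhds (this.continuousAt.preimage_mem_nhds (by simpa using hU))
  obtain ⟨t, ⟨⟨a, b⟩, k⟩, t0⟩ := ((((t 2).and (t 1)).and (tendsto_log_nhdsGT_zero.eventually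
    (eventually_lt_atBot (-(C : ℝ) - 4)))).and self_mem_nhdsWithin).exists
  have t1 : 0 < t := t0
  have v : ∀ r : ℝ, 0 < r → iteratedFDeriv ℝ 1 (u 0) (r • e 0) (fun _ => e 0)
      = 1 + 4 * r * log r + 2 * r := fun r hr => by
    have : s (r • e 0) = r ^ 2 := by simp [s]
    rw [iteratedFDeriv_one_apply, (du (by rw [this]; positivity)).1, this, log_pow]
    simp
    field_simp
    ring
  have f := (ContinuousMultilinearMap.le_opNorm (iteratedFDeriv ℝ 1 (u 0) ((2 * t) • e 0)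
    - iteratedFDeriv ℝ 1 (u 0) ((1 * t) • e 0)) fun _ => e 0).trans
    (mul_le_mul_of_nonneg_right ((dist_eq_norm _ _).symm.trans_le (h.dist_le_mul _ a _ b))
      (by positivity))
  rw [ContinuousMultilinearMap.sub_apply, v _ (by positivity), v _ (by positivity), dist_eq_norm,
    ← sub_smul, norm_smul, log_mul two_ne_zero t1.ne', one_mul, Real.norm_eq_abs,
    Real.norm_eq_abs, abs_of_pos (a := 2 * t - t) (by linarith)] at f
  simp only [EuclideanSpace.norm_single, norm_one, Finset.prod_const_one, mul_one] at f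
  have g := log_le_sub_one_of_pos two_pos
  nlinarith [neg_le_of_abs_le f, mul_lt_mul_of_pos_left k t1, mul_le_mul_of_nonneg_left g t1.le,
    mul_nonneg C.2 t1.le]

end Pool.Agent.H31.Sab
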