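import Mathlib

set_option autoImplicit false

open Filter Topology
open scoped ZeroAtInfty

namespace Pool.Agent.H31.ShiftC0

/-- real null sequences with the sup norm -/
abbrev X : Type := C₀(ℕ, ℝ)

/-- a null sequence as an element of the space -/
def mk (f : ℕ → ℝ) (h : Tendsto f atTop (𝓝 0)) : X :=
  ⟨⟨f, continuous_of_discreteTopology⟩, by
    rw [cocompact_eq_cofinite, Nat.cofinite_eq_atTop]; exact h⟩

@[simp] lemma mk_apply (f : ℕ → ℝ) (h : Tendsto f atTop (𝓝 0)) (i : ℕ) : mk f h i = f i := rfl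

lemma tends (x : X) : Tendsto x atTop (𝓝 0) := by
  have := zero_at_infty x
  rwa [cocompact_eq_cofinite, Nat.cofinite_eq_atTop] at this

lemma abs_le_norm (x : X) (i : ℕ) : |x i| ≤ ‖x‖ := x.toBCF.norm_coe_le_norm i

lemma norm_le (x : X) {C : ℝ} (hC : 0 ≤ C) (h : ∀ i, |x i| ≤ C) : ‖x‖ ≤ C :=
  (BoundedContinuousFunction.norm_le (f := x.toBCF) hC).2 h

lemma wt_le (i : ℕ) : |((i : ℝ) + 2) / (i + 1)| ≤ 2 := by
  have : (0 : ℝ) ≤ i := Nat.cast_nonneg i
  rw [abs_of_nonneg (by positivity), div_le_iff₀ (by positivity)]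
  linarith

lemma shift_tends (x : X) : Tendsto (fun i : ℕ => ((i : ℝ) + 2) / (i + 1) * x (i + 1)) atTop (𝓝 0) := by
  have h1 : Tendsto (fun i : ℕ => 2 * |x (i + 1)|) atTop (𝓝 0) := by
    have := ((tends x).comp (tendsto_add_atTop_nat 1)).abs.const_mul 2
    simpa using this
  refine squeeze_zero_norm (fun i => ?_) h1
  rw [Real.norm_eq_abs, abs_mul]
  exact mul_le_mul_of_nonneg_right (wt_le i) (abs_nonneg _)

/-- the weighted backward shift with weights (i+2)/(i+1) -/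
noncomputable def T : X →L[ℝ] X :=
  LinearMap.mkContinuous
    { toFun := fun x => mk _ (shift_tends x)
      map_add' := fun x y => by ext i; simp; ring
      map_smul' := fun c x => by ext i; simp; ring } 2 (fun x => by
      refine norm_le _ (by positivity) fun i => ?_
      simp only [LinearMap.coe_mk, AddHom.coe_mk, mk_apply]
      rw [abs_mul]
      exact mul_le_mul (wt_le i) (abs_le_norm x _) (abs_nonneg _) (by norm_num))

lemma T_apply (x : X) (i : ℕ) : T x i = ((i : ℝ) + 2) / (i + 1) * x (i + 1) := rfl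

lemma T_pow (n : ℕ) : ∀ (x : X) (i : ℕ), (T ^ n) x i = ((i : ℝ) + n + 1) / (i + 1) * x (i + n) := by
  induction n with
  | zero =>
    intro x i
    have : (i : ℝ) + 1 ≠ 0 := by positivity
    simp [this]
  | succ n ih =>
    intro x i
    rw [pow_succ', mul_apply_eq_comp, T_apply, ih]
    have h1 : (i : ℝ) + 1 ≠ 0 := by positivity
    have h2 : (i : ℝ) + 1 + 1 ≠ 0 := by positivity
    rw [show i + 1 + n = i + (n + 1) by ring]
    push_cast
    field_simp
    ring

/-- an enumeration of periods and rational finitely supported patterns -/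
noncomputable def en : ℕ → ℕ × (ℕ →₀ ℚ) := (exists_surjective_nat (ℕ × (ℕ →₀ ℚ))).choose

lemma en_surj : Function.Surjective en := (exists_surjective_nat (ℕ × (ℕ →₀ ℚ))).choose_spec

/-- the type of a dyadic block -/
def kk (j : ℕ) : ℕ := padicValNat 2 (j / 2 + 1)

lemma kk_syndetic (k b : ℕ) (hb : b < 2) (J : ℕ) :
    ∃ j, J ≤ j ∧ j ≤ J + 2 ^ (k + 3) ∧ kk j = k ∧ j % 2 = b := by
  set i := J / 2 ^ (k + 2) + 1 with hi
  have hp : 0 < 2 ^ k := by positivity
  have h1 : 1 ≤ 2 ^ k * (2 * i + 1) := Nat.mul_pos hp (by omega)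
  have h2 := Nat.div_add_mod J (2 ^ (k + 2))
  have h3 := Nat.mod_lt J (show 0 < 2 ^ (k + 2) by positivity)
  have e2 : 2 ^ (k + 2) = 4 * 2 ^ k := by ring
  have e3 : 2 ^ (k + 3) = 8 * 2 ^ k := by ring
  have e4 : 2 ^ k * (2 * i + 1) = 2 * (2 ^ k * (J / 2 ^ (k + 2))) + 3 * 2 ^ k := by rw [hi]; ring
  have e5 : 2 ^ (k + 2) * (J / 2 ^ (k + 2)) = 4 * (2 ^ k * (J / 2 ^ (k + 2))) := by ring
  refine ⟨2 * (2 ^ k * (2 * i + 1) - 1) + b, by omega, by omega, ?_, by omega⟩
  unfold kk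
  rw [show (2 * (2 ^ k * (2 * i + 1) - 1) + b) / 2 + 1 = 2 ^ k * (2 * i + 1) by omega,
    padicValNat.mul (by positivity) (by omega), padicValNat.prime_pow,
    padicValNat.eq_zero_of_not_dvd (by omega), add_zero]

/-- the raw pattern value -/
noncomputable def raw (m : ℕ) : ℝ :=
  ((en (kk (Nat.log 2 m))).2 (m % ((en (kk (Nat.log 2 m))).1 + 1)) : ℚ)

/-- the weighted and cut pattern -/
noncomputable def pat (m : ℕ) : ℝ := if raw m ^ 2 ≤ m + 1 then raw m / (m + 1) else 0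

lemma pat_tends : Tendsto pat atTop (𝓝 0) := by
  have h1 : Tendsto (fun m : ℕ => Real.sqrt (1 / ((m : ℝ) + 1))) atTop (𝓝 0) := by
    have := tendsto_one_div_add_atTop_nhds_zero_nat (𝕜 := ℝ)
    simpa using this.sqrt
  refine squeeze_zero_norm (fun m => ?_) h1
  rw [Real.norm_eq_abs]
  refine Real.abs_le_sqrt ?_
  unfold pat
  have hm : (0 : ℝ) < m + 1 := by positivity
  split_ifs with h
  · rw [div_pow, div_le_div_iff₀ (by positivity) hm]
    nlinarith
  · simp; positivity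

lemma visit (b : ℕ) (y : X) (hy : ∀ m, Nat.log 2 m % 2 = b → y m = pat m) (v : X) {ε : ℝ}
    (hε : 0 < ε) : ∃ k S n0 : ℕ, 0 < S ∧ ∀ j n, kk j = k → j % 2 = b → 2 ^ j ≤ n →
      2 * n < 3 * 2 ^ j → S ∣ n → n0 ≤ n → ‖(T ^ n) y - v‖ ≤ ε := by
  classical
  obtain ⟨L, hL⟩ : ∃ L, ∀ i ≥ L, |v i| ≤ ε / 2 := by
    have := (tends v).abs.eventually (ge_mem_nhds (show |(0 : ℝ)| < ε / 2 by simpa using hε))
    exact eventually_atTop.1 this
  obtain ⟨M, hM⟩ : ∃ M, ∀ i ≥ M, |y i| ≤ ε / 8 := by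
    have := (tends y).abs.eventually (ge_mem_nhds (show |(0 : ℝ)| < ε / 8 by simpa using hε))
    exact eventually_atTop.1 this
  have hr : ∀ i : ℕ, ∃ r : ℚ, |(r : ℝ) - (i + 1) * v i| ≤ ε := by
    intro i
    obtain ⟨r, h1, h2⟩ := exists_rat_btwn (show ((i : ℝ) + 1) * v i < (i + 1) * v i + ε by linarith)
    exact ⟨r, by rw [abs_le]; constructor <;> linarith⟩
  choose r hr using hr
  let u : ℕ →₀ ℚ := Finsupp.onFinset (Finset.range L) (fun i => if i < L then r i else 0)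
    (fun i hi => by
      by_contra h
      simp only [Finset.mem_range] at h
      exact hi (if_neg h))
  have hu : ∀ i, u i = if i < L then r i else 0 := fun i => rfl
  set B : ℝ := ∑ i ∈ Finset.range L, |(r i : ℝ)| with hB
  have hB0 : 0 ≤ B := Finset.sum_nonneg fun i _ => abs_nonneg _
  have huB : ∀ i, |(u i : ℝ)| ≤ B := by
    intro i
    rw [hu]
    split_ifs with h
    · exact Finset.single_le_sum (f := fun i => |(r i : ℝ)|) (fun i _ => abs_nonneg _)
        (Finset.mem_range.2 h)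
    · simpa using hB0
  obtain ⟨s0, hs0⟩ := exists_nat_ge (2 * B / ε)
  obtain ⟨b2, hb2⟩ := exists_nat_ge (B ^ 2)
  obtain ⟨k, hk⟩ := en_surj (s0 + L, u)
  refine ⟨k, s0 + L + 1, M + 3 * L + b2, by omega, fun j n hj hjb h1 h2 hS hn => ?_⟩
  refine norm_le _ hε.le fun i => ?_
  rw [ZeroAtInftyContinuousMap.sub_apply, T_pow]
  have hi1 : (0 : ℝ) < i + 1 := by positivity
  have hi0 : (0 : ℝ) ≤ i := Nat.cast_nonneg i
  by_cases hm : i + n < 2 ^ (j + 1)
  · have hlog : Nat.log 2 (i + n) = j :=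
      Nat.log_eq_of_pow_le_of_lt_pow (by omega) hm
    have hraw : raw (i + n) = u (i % (s0 + L + 1)) := by
      unfold raw
      rw [hlog, hj, hk]
      obtain ⟨t, rfl⟩ := hS
      simp
    have hcut : raw (i + n) ^ 2 ≤ ((i + n : ℕ) : ℝ) + 1 := by
      rw [hraw]
      have h3 := huB (i % (s0 + L + 1))
      have h4 : ((u (i % (s0 + L + 1)) : ℚ) : ℝ) ^ 2 ≤ B ^ 2 := by
        rw [← sq_abs]; exact pow_le_pow_left₀ (abs_nonneg _) h3 2
      have h5 : (b2 : ℝ) ≤ ((i + n : ℕ) : ℝ) := by exact_mod_cast (by omega : b2 ≤ i + n)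
      linarith
    have hval : ((i : ℝ) + n + 1) / (i + 1) * y (i + n) = u (i % (s0 + L + 1)) / (i + 1) := by
      rw [hy _ (by rw [hlog]; exact hjb), pat, if_pos hcut, hraw]
      have : (i : ℝ) + n + 1 ≠ 0 := by positivity
      push_cast
      field_simp
    rw [hval]
    by_cases hi : i < s0 + L + 1
    · rw [Nat.mod_eq_of_lt hi, hu]
      split_ifs with h
      · have e : (r i : ℝ) / (i + 1) - v i = (r i - (i + 1) * v i) / (i + 1) := by field_simp
        rw [e, abs_div, abs_of_pos hi1, div_le_iff₀ hi1]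
        have := hr i
        nlinarith
      · have := hL i (by omega)
        simp only [Rat.cast_zero, zero_div, zero_sub, abs_neg]
        linarith
    · have h3 := hL i (by omega)
      have h4 : |((u (i % (s0 + L + 1)) : ℚ) : ℝ) / (i + 1)| ≤ ε / 2 := by
        rw [abs_div, abs_of_pos hi1, div_le_iff₀ hi1]
        refine (huB _).trans ?_
        rw [div_le_iff₀ hε] at hs0
        have : (s0 : ℝ) ≤ i := by exact_mod_cast (by omega : s0 ≤ i)
        nlinarith
      have := abs_sub (((u (i % (s0 + L + 1)) : ℚ) : ℝ) / (i + 1)) (v i)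
      linarith
  · have h3 : n < 3 * i := by
      rw [pow_succ] at hm; omega
    have h4 := hL i (by omega)
    have h5 := hM (i + n) (by omega)
    have h6 : |((i : ℝ) + n + 1) / (i + 1) * y (i + n)| ≤ ε / 2 := by
      rw [abs_mul]
      have h7 : |((i : ℝ) + n + 1) / (i + 1)| ≤ 4 := by
        rw [abs_of_nonneg (by positivity), div_le_iff₀ hi1]
        have : (n : ℝ) ≤ 3 * i := by exact_mod_cast h3.le
        linarith
      have := mul_le_mul h7 h5 (abs_nonneg _) (by norm_num)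
      linarith
    have := abs_sub (((i : ℝ) + n + 1) / (i + 1) * y (i + n)) (v i)
    linarith

theorem fhc (b : ℕ) (hb : b < 2) (y : X) (hy : ∀ m, Nat.log 2 m % 2 = b → y m = pat m)
    (U : Set X) (hU : IsOpen U) (hne : U.Nonempty) :
    ∃ δ : ℝ, 0 < δ ∧ ∀ᶠ N : ℕ in Filter.atTop,
      δ * (N : ℝ) ≤ (({n : ℕ | n < N ∧ (T ^ n) y ∈ U}.ncard : ℕ) : ℝ) := by
  obtain ⟨v, hv⟩ := hne
  obtain ⟨ε, hε, hball⟩ := Metric.isOpen_iff.1 hU v hv
  obtain ⟨k, S, n0, hS, h⟩ := visit b y hy v (half_pos hε)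
  set G := 2 ^ (k + 3) with hG
  refine ⟨1 / (S * 2 ^ (G + 5)), by positivity, ?_⟩
  rw [eventually_atTop]
  refine ⟨2 ^ (G + 1 + (S + n0 + 3)), fun N hN => ?_⟩
  have hN0 : N ≠ 0 := by
    have : 0 < 2 ^ (G + 1 + (S + n0 + 3)) := by positivity
    omega
  have hl : G + 1 + (S + n0 + 3) ≤ Nat.log 2 N := Nat.le_log_of_pow_le (by norm_num) hN
  obtain ⟨j, hj1, hj2, hj3, hj4⟩ := kk_syndetic k b hb (Nat.log 2 N - G - 1)
  rw [← hG] at hj2
  obtain ⟨a, rfl⟩ : ∃ a, j = a + 3 := ⟨j - 3, by omega⟩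
  set w := 2 ^ a with hw
  have hwa : a < w := Nat.lt_two_pow_self
  have e8 : 2 ^ (a + 3) = 8 * w := by rw [hw]; ring
  have hN1 : 16 * w ≤ N := by
    have h1 : 2 ^ (a + 4) ≤ 2 ^ Nat.log 2 N := Nat.pow_le_pow_right (by norm_num) (by omega)
    have h2 := Nat.pow_log_le_self 2 hN0
    have : 2 ^ (a + 4) = 16 * w := by rw [hw]; ring
    omega
  have hN2 : N ≤ 2 ^ (G + 5) * w := by
    have h1 := Nat.lt_pow_succ_log_self (b := 2) (by norm_num) N
    have h2 : 2 ^ (Nat.log 2 N).succ ≤ 2 ^ (G + 5 + a) :=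
      Nat.pow_le_pow_right (by norm_num) (by omega)
    rw [pow_add 2 (G + 5) a, ← hw] at h2
    exact (h1.trans_le h2).le
  set c := 8 * w / S + 1 with hc
  set q := 2 * w / S with hq
  have hc1 := Nat.div_add_mod (8 * w) S
  have hc2 := Nat.mod_lt (8 * w) hS
  have hq1 := Nat.div_add_mod (2 * w) S
  have hq2 := Nat.mod_lt (2 * w) hS
  rw [← hq] at hq1
  have hcS : S * c = S * (8 * w / S) + S := by rw [hc]; ring
  have hsub : ((Finset.range q).image (fun t => S * (c + t)) : Set ℕ) ⊆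
      {n : ℕ | n < N ∧ (T ^ n) y ∈ U} := by
    intro n hn
    simp only [Finset.coe_image, Finset.coe_range, Set.mem_image, Set.mem_Iio] at hn
    obtain ⟨t, ht, rfl⟩ := hn
    have h1 : S * (t + 1) ≤ S * q := Nat.mul_le_mul_left _ ht
    have h2 : S * (c + t) = S * c + S * t := by ring
    have h3 : S * (t + 1) = S * t + S := by ring
    refine ⟨by omega, hball ?_⟩
    rw [mem_ball_iff_norm]
    refine lt_of_le_of_lt (h (a + 3) _ hj3 hj4 (by omega) (by omega) ⟨_, rfl⟩ (by omega)) ?_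
    linarith
  have hcard := Set.ncard_le_ncard hsub
    ((Set.finite_Iio N).subset fun n hn => hn.1)
  rw [Set.ncard_coe_finset, Finset.card_image_of_injective _ (by
    intro s t hst
    have := Nat.eq_of_mul_eq_mul_left hS hst
    omega), Finset.card_range] at hcard
  have h1 : w ≤ S * q := by omega
  have h2 : (N : ℝ) ≤ 2 ^ (G + 5) * (S * q) := by
    have : N ≤ 2 ^ (G + 5) * (S * q) := hN2.trans (Nat.mul_le_mul_left _ h1)
    exact_mod_cast this
  have h3 : (q : ℝ) ≤ (({n : ℕ | n < N ∧ (T ^ n) y ∈ U}.ncard : ℕ) : ℝ) := by exact_mod_cast hcard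
  refine le_trans ?_ h3
  rw [one_div, inv_mul_le_iff₀ (by positivity)]
  linarith

end Pool.Agent.H31.ShiftC0
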