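import Mathlib

set_option autoImplicit false

namespace Pool.Agent.Lib.helper31.Slit

open Complex Set Filter Topology

/-- principal square root -/
noncomputable def sr (z : ℂ) : ℂ := Complex.exp (Complex.log z / 2)

lemma sr_sq {z : ℂ} (hz : z ≠ 0) : sr z ^ 2 = z := by
  unfold sr
  rw [← Complex.exp_nat_mul]
  have : ((2 : ℕ) : ℂ) * (Complex.log z / 2) = Complex.log z := by push_cast; ring
  rw [this, Complex.exp_log hz]

lemma sr_ne (z : ℂ) : sr z ≠ 0 := Complex.exp_ne_zero _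

lemma arg_pos_of_im {z : ℂ} (hz : 0 < z.im) : 0 < z.arg ∧ z.arg < Real.pi := by
  refine ⟨?_, ?_⟩
  · have h1 : 0 ≤ z.arg := Complex.arg_nonneg_iff.mpr hz.le
    rcases h1.lt_or_eq with h | h
    · exact h
    · have := Complex.arg_eq_zero_iff.mp h.symm
      linarith [this.2]
  · exact Complex.arg_lt_pi_iff.mpr (Or.inr hz.ne')

lemma sr_re_pos {z : ℂ} (hz : 0 < z.im) : 0 < (sr z).re := by
  unfold sr
  rw [Complex.exp_re]
  obtain ⟨h1, h2⟩ := arg_pos_of_im hz
  have : (Complex.log z / 2).im = z.arg / 2 := by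
    simp [Complex.log_im]
  rw [this]
  exact mul_pos (Real.exp_pos _) (Real.cos_pos_of_mem_Ioo ⟨by linarith, by linarith⟩)

lemma sr_im_pos {z : ℂ} (hz : 0 < z.im) : 0 < (sr z).im := by
  unfold sr
  rw [Complex.exp_im]
  obtain ⟨h1, h2⟩ := arg_pos_of_im hz
  have : (Complex.log z / 2).im = z.arg / 2 := by
    simp [Complex.log_im]
  rw [this]
  exact mul_pos (Real.exp_pos _) (Real.sin_pos_of_pos_of_lt_pi (by linarith) (by linarith))

lemma hasDerivAt_sr {z : ℂ} (hz : 0 < z.im) : HasDerivAt sr (1 / (2 * sr z)) z := by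
  have hs : z ∈ Complex.slitPlane := Or.inr hz.ne'
  have hz0 : z ≠ 0 := Complex.slitPlane_ne_zero hs
  have h := ((Complex.hasDerivAt_log hs).div_const 2).cexp
  refine h.congr_deriv ?_
  have h2 := sr_sq hz0
  have h3 := sr_ne z
  change sr z * (z⁻¹ / 2) = _
  rw [← h2]
  have h4 : sr (sr z ^ 2) = sr z := by rw [h2]
  rw [h4]
  field_simp

/-- holomorphic function whose real part is (twice) the Green function plus `log 2`. -/
noncomputable def Om (ξ : ℂ) : ℂ :=
  2 * Complex.log (sr (Complex.exp ξ - 1) + sr (Complex.exp ξ + 1))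

noncomputable def Om' (ξ : ℂ) : ℂ :=
  Complex.exp ξ / (sr (Complex.exp ξ - 1) * sr (Complex.exp ξ + 1))

lemma exp_im_pos {ξ : ℂ} (h0 : 0 < ξ.im) (h1 : ξ.im < Real.pi) : 0 < (Complex.exp ξ).im := by
  rw [Complex.exp_im]
  exact mul_pos (Real.exp_pos _) (Real.sin_pos_of_pos_of_lt_pi h0 h1)

lemma hasDerivAt_Om {ξ : ℂ} (h0 : 0 < ξ.im) (h1 : ξ.im < Real.pi) : HasDerivAt Om (Om' ξ) ξ := by
  have hi := exp_im_pos h0 h1
  have ha : 0 < (Complex.exp ξ - 1).im := by simpa using hi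
  have hb : 0 < (Complex.exp ξ + 1).im := by simpa using hi
  have h1a : HasDerivAt (fun x => sr (Complex.exp x - 1))
      (1 / (2 * sr (Complex.exp ξ - 1)) * Complex.exp ξ) ξ :=
    HasDerivAt.comp (h₂ := sr) (h := fun x => Complex.exp x - 1) ξ (hasDerivAt_sr ha)
      ((Complex.hasDerivAt_exp ξ).sub_const 1)
  have h1b : HasDerivAt (fun x => sr (Complex.exp x + 1))
      (1 / (2 * sr (Complex.exp ξ + 1)) * Complex.exp ξ) ξ :=
    HasDerivAt.comp (h₂ := sr) (h := fun x => Complex.exp x + 1) ξ (hasDerivAt_sr hb)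
      ((Complex.hasDerivAt_exp ξ).add_const 1)
  have hre : 0 < (sr (Complex.exp ξ - 1) + sr (Complex.exp ξ + 1)).re := by
    rw [Complex.add_re]; exact add_pos (sr_re_pos ha) (sr_re_pos hb)
  have hs : sr (Complex.exp ξ - 1) + sr (Complex.exp ξ + 1) ∈ Complex.slitPlane := Or.inl hre
  have h := ((h1a.add h1b).clog hs).const_mul 2
  refine h.congr_deriv ?_
  unfold Om'
  have hne := Complex.slitPlane_ne_zero hs
  have h3 := sr_ne (Complex.exp ξ - 1)
  have h4 := sr_ne (Complex.exp ξ + 1)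
  simp only [Pi.add_apply]
  field_simp
  ring

lemma norm_Om'_sq {ξ : ℂ} (h0 : 0 < ξ.im) (h1 : ξ.im < Real.pi) :
    ‖Om' ξ‖ ^ 2 = 1 / ‖1 - Complex.exp (-2 * ξ)‖ := by
  have hi := exp_im_pos h0 h1
  have ha : Complex.exp ξ - 1 ≠ 0 := fun h => by
    have := congrArg Complex.im h
    simp only [Complex.sub_im, Complex.add_im, Complex.one_im, Complex.zero_im] at this
    linarith
  have hb : Complex.exp ξ + 1 ≠ 0 := fun h => by
    have := congrArg Complex.im h
    simp only [Complex.sub_im, Complex.add_im, Complex.one_im, Complex.zero_im] at this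
    linarith
  rw [← norm_pow, ← norm_one (α := ℂ), ← norm_div]
  congr 1
  unfold Om'
  rw [div_pow, mul_pow, sr_sq ha, sr_sq hb]
  have he : Complex.exp (-2 * ξ) = (Complex.exp ξ ^ 2)⁻¹ := by
    rw [← Complex.exp_nat_mul, ← Complex.exp_neg]; congr 1; push_cast; ring
  rw [he]
  have h5 := Complex.exp_ne_zero ξ
  have h6 : Complex.exp ξ ^ 2 - 1 ≠ 0 := by
    have : Complex.exp ξ ^ 2 - 1 = (Complex.exp ξ - 1) * (Complex.exp ξ + 1) := by ring
    rw [this]; exact mul_ne_zero ha hb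
  field_simp
  ring

/-- the two basic quantities -/
lemma XY_facts {η : ℂ} (hi : 0 < η.im) :
    ∃ X Y : ℝ, X = ‖sr (η - 1) + sr (η + 1)‖ ^ 2 ∧ X * Y = 4 ∧ Y ≤ X ∧ 0 < Y ∧
      4 * ‖η‖ ≤ X + Y ∧ X + Y = 2 * ‖η - 1‖ + 2 * ‖η + 1‖ := by
  have ha : 0 < (η - 1).im := by simpa using hi
  have hb : 0 < (η + 1).im := by simpa using hi
  have ha0 : η - 1 ≠ 0 := fun h => by rw [h] at ha; simp at ha
  have hb0 : η + 1 ≠ 0 := fun h => by rw [h] at hb; simp at hb
  have e1 := sr_sq ha0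
  have e2 := sr_sq hb0
  have p1 := sr_re_pos ha
  have p2 := sr_im_pos ha
  have p3 := sr_re_pos hb
  have p4 := sr_im_pos hb
  set a := sr (η - 1)
  set b := sr (η + 1)
  have hprod : (a + b) * (b - a) = 2 := by
    have : (a + b) * (b - a) = b ^ 2 - a ^ 2 := by ring
    rw [this, e1, e2]; ring
  have hn : ‖a + b‖ * ‖b - a‖ = 2 := by rw [← norm_mul, hprod]; simp
  refine ⟨‖a + b‖ ^ 2, ‖b - a‖ ^ 2, rfl, ?_, ?_, ?_, ?_, ?_⟩
  · rw [← mul_pow, hn]; norm_num
  · rw [Complex.sq_norm, Complex.sq_norm, Complex.normSq_apply, Complex.normSq_apply]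
    simp only [Complex.add_re, Complex.add_im, Complex.sub_re, Complex.sub_im]
    nlinarith [mul_pos p1 p3, mul_pos p2 p4]
  · have : ‖b - a‖ ≠ 0 := fun h => by rw [h] at hn; simp at hn
    positivity
  · have : (4 : ℂ) * η = (a + b) ^ 2 + (b - a) ^ 2 := by
      have : (a + b) ^ 2 + (b - a) ^ 2 = 2 * a ^ 2 + 2 * b ^ 2 := by ring
      rw [this, e1, e2]; ring
    have h2 : ‖(4 : ℂ) * η‖ = 4 * ‖η‖ := by simp
    rw [← h2, this, ← norm_pow, ← norm_pow]
    exact norm_add_le _ _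
  · rw [← e1, ← e2, norm_pow, norm_pow]
    simp only [Complex.sq_norm, Complex.normSq_apply, Complex.add_re, Complex.add_im,
      Complex.sub_re, Complex.sub_im]
    ring

lemma Om_re (ξ : ℂ) :
    (Om ξ).re = Real.log (‖sr (Complex.exp ξ - 1) + sr (Complex.exp ξ + 1)‖ ^ 2) := by
  unfold Om
  rw [Real.log_pow]
  simp [Complex.log_re]

/-- lower bound far from the segment -/
lemma Om_lower {ξ : ℂ} (h0 : 0 < ξ.im) (h1 : ξ.im < Real.pi) (hx : 0 ≤ ξ.re) :
    ξ.re + 2 * Real.log 2 - Real.exp (-ξ.re) ≤ (Om ξ).re := by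
  obtain ⟨X, Y, hX, hXY, hYX, hY, h4, -⟩ := XY_facts (exp_im_pos h0 h1)
  rw [Om_re, ← hX]
  rw [Complex.norm_exp] at h4
  have hY2 : Y ≤ 2 := by nlinarith
  set t := Real.exp (-ξ.re) with ht
  have ht1 : t ≤ 1 := by rw [ht]; exact Real.exp_le_one_iff.mpr (by linarith)
  have ht0 : 0 < t := Real.exp_pos _
  have hE : Real.exp ξ.re * t = 1 := by rw [ht, ← Real.exp_add]; simp
  have hXl : 4 * Real.exp ξ.re * (1 - t / 2) ≤ X := by nlinarith
  have hpos : 0 < 1 - t / 2 := by linarith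
  have hl : -t ≤ Real.log (1 - t / 2) := by
    have h5 := Real.one_sub_inv_le_log_of_pos hpos
    have h6 : (1 - t / 2)⁻¹ ≤ 1 + t := by
      rw [inv_le_iff_one_le_mul₀ hpos]; nlinarith
    linarith
  have h7 : Real.log (4 * Real.exp ξ.re * (1 - t / 2)) = 2 * Real.log 2 + ξ.re +
      Real.log (1 - t / 2) := by
    rw [Real.log_mul (by positivity) hpos.ne', Real.log_mul (by norm_num) (by positivity),
      Real.log_exp]
    have : (4 : ℝ) = 2 ^ 2 := by norm_num
    rw [this, Real.log_pow]; norm_num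
  have h8 := Real.log_le_log (by positivity) hXl
  linarith

/-- upper bound near the segment -/
lemma Om_upper {ξ : ℂ} {ε : ℝ} (h0 : 0 < ξ.im) (h1 : ξ.im < Real.pi) (hx : ξ.re ≤ 0)
    (hε : 0 < ε) (hε1 : ε ≤ 1) (hd : ξ.im ≤ ε ^ 2 / 8) :
    (Om ξ).re ≤ Real.log 2 + ε := by
  obtain ⟨X, Y, hX, hXY, hYX, hY, -, h5⟩ := XY_facts (exp_im_pos h0 h1)
  rw [Om_re, ← hX]
  have hE : Real.exp ξ.re ≤ 1 := Real.exp_le_one_iff.mpr hx
  have hE0 := Real.exp_pos ξ.re
  have him : |(Complex.exp ξ).im| ≤ ξ.im := by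
    rw [Complex.exp_im, abs_mul, abs_of_pos hE0]
    have := Real.abs_sin_le_abs (x := ξ.im)
    rw [abs_of_pos h0] at this
    nlinarith [abs_nonneg (Real.sin ξ.im)]
  have hre : |(Complex.exp ξ).re| ≤ 1 := by
    rw [Complex.exp_re, abs_mul, abs_of_pos hE0]
    have := Real.abs_cos_le_one ξ.im
    nlinarith [abs_nonneg (Real.cos ξ.im)]
  have n1 := Complex.norm_le_abs_re_add_abs_im (Complex.exp ξ - 1)
  have n2 := Complex.norm_le_abs_re_add_abs_im (Complex.exp ξ + 1)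
  simp only [Complex.sub_re, Complex.sub_im, Complex.add_re, Complex.add_im, Complex.one_re,
    Complex.one_im, sub_zero, add_zero] at n1 n2
  obtain ⟨r1, r2⟩ := abs_le.mp hre
  rw [abs_of_nonpos (by linarith)] at n1
  rw [abs_of_nonneg (by linarith)] at n2
  have hS : X + Y ≤ 4 + ε ^ 2 / 2 := by linarith
  have hXpos : 0 < X := lt_of_lt_of_le hY hYX
  have hX2 : X ≤ 2 * (1 + ε) := by
    by_contra hc
    push Not at hc
    have hsq : (X - 2) ^ 2 ≤ ε ^ 2 / 2 * X := by nlinarith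
    have hX5 : X ≤ 5 := by nlinarith
    nlinarith
  have h8 := Real.log_le_log hXpos hX2
  rw [Real.log_mul (by norm_num) (by positivity)] at h8
  have h9 := Real.log_le_sub_one_of_pos (x := 1 + ε) (by positivity)
  linarith

end Pool.Agent.Lib.helper31.Slit
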