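import Mathlib
import Pool.Agent.Lib.helper31.SlitA

set_option autoImplicit false

namespace Pool.Agent.Lib.helper31.Slit

open Set Filter Topology MeasureTheory Real

noncomputable def cut (δ t : ℝ) : ℝ := max δ (min t (π / 2))

noncomputable def psi (A : Finset ℝ) (δ y : ℝ) : ℝ := cut δ (Metric.infDist y (A : Set ℝ))

noncomputable def Tm (A : Finset ℝ) (δ : ℝ) (ζ : ℂ) : ℂ := ⟨ζ.re, psi A δ ζ.im⟩

noncomputable def rho2 (A : Finset ℝ) (δ : ℝ) (ζ : ℂ) : ℝ :=
  1 / ‖1 - Complex.exp (-2 * Tm A δ ζ)‖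

lemma cut_ge (δ t : ℝ) : δ ≤ cut δ t := le_max_left _ _

lemma cut_le {δ : ℝ} (h : δ ≤ π / 2) (t : ℝ) : cut δ t ≤ π / 2 := max_le h (min_le_right _ _)

lemma cut_lip (δ s t : ℝ) : |cut δ s - cut δ t| ≤ |s - t| := by
  unfold cut
  refine (abs_max_sub_max_le_max _ _ _ _).trans (max_le (by simp) ?_)
  refine (abs_min_sub_min_le_max _ _ _ _).trans (max_le le_rfl (by simp))

lemma cut_cont (δ : ℝ) : Continuous (cut δ) := by unfold cut; fun_prop

lemma psi_lip (A : Finset ℝ) (δ s t : ℝ) : |psi A δ s - psi A δ t| ≤ |s - t| := by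
  refine (cut_lip _ _ _).trans ?_
  have := (Metric.lipschitz_infDist_pt (A : Set ℝ)).dist_le_mul s t
  simpa [Real.dist_eq] using this

lemma psi_cont (A : Finset ℝ) (δ : ℝ) : Continuous (psi A δ) :=
  (cut_cont δ).comp (Metric.continuous_infDist_pt _)

lemma psi_mem {A : Finset ℝ} {δ y : ℝ} (hδ : 0 ≤ δ) (hy : y ∈ A) : psi A δ y = δ := by
  unfold psi cut
  rw [Metric.infDist_zero_of_mem (by exact_mod_cast hy), min_eq_left (by positivity),
    max_eq_left hδ]

lemma Tm_lip (A : Finset ℝ) (δ : ℝ) (a b : ℂ) : ‖Tm A δ a - Tm A δ b‖ ≤ ‖a - b‖ := by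
  have h := psi_lip A δ a.im b.im
  have h2 : (psi A δ a.im - psi A δ b.im) ^ 2 ≤ (a.im - b.im) ^ 2 := sq_le_sq.mpr h
  apply (pow_le_pow_iff_left₀ (norm_nonneg _) (norm_nonneg _) two_ne_zero).mp
  rw [Complex.sq_norm, Complex.sq_norm, Complex.normSq_apply, Complex.normSq_apply]
  simp only [Tm, Complex.sub_re, Complex.sub_im]
  nlinarith

lemma Tm_cont (A : Finset ℝ) (δ : ℝ) : Continuous (Tm A δ) := by
  have : Tm A δ = fun ζ : ℂ => (ζ.re : ℂ) + (psi A δ ζ.im : ℂ) * Complex.I := by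
    funext ζ; apply Complex.ext <;> simp [Tm]
  rw [this]
  have := psi_cont A δ
  fun_prop

lemma norm_formula (x t : ℝ) : ‖1 - Complex.exp (-2 * (⟨x, t⟩ : ℂ))‖ =
    √(exp (2 * x) ^ 2 - 2 * exp (2 * x) * cos (2 * t) + 1) / exp (2 * x) := by
  have hE := exp_pos (2 * x)
  rw [eq_div_iff hE.ne']
  symm
  rw [Real.sqrt_eq_iff_mul_self_eq _ (by positivity)]
  · have h1 : ‖1 - Complex.exp (-2 * (⟨x, t⟩ : ℂ))‖ ^ 2 =
        (1 - exp (-(2 * x)) * cos (2 * t)) ^ 2 + (exp (-(2 * x)) * sin (2 * t)) ^ 2 := by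
      rw [Complex.sq_norm, Complex.normSq_apply]
      simp only [Complex.sub_re, Complex.sub_im, Complex.one_re, Complex.one_im, Complex.exp_re,
        Complex.exp_im]
      have e1 : (-2 * (⟨x, t⟩ : ℂ)).re = -(2 * x) := by simp
      have e2 : (-2 * (⟨x, t⟩ : ℂ)).im = -(2 * t) := by simp
      rw [e1, e2, Real.cos_neg, Real.sin_neg]; ring
    have h2 : exp (-(2 * x)) * exp (2 * x) = 1 := by rw [← Real.exp_add]; simp
    have h3 := Real.sin_sq_add_cos_sq (2 * t)
    set n := ‖1 - Complex.exp (-2 * (⟨x, t⟩ : ℂ))‖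
    set a := exp (-(2 * x))
    set b := exp (2 * x)
    have : n * b * (n * b) = n ^ 2 * b ^ 2 := by ring
    rw [this, h1]
    have h4 : ((1 - a * cos (2 * t)) ^ 2 + (a * sin (2 * t)) ^ 2) * b ^ 2 =
      b ^ 2 - 2 * b * cos (2 * t) * (a * b) + (a * b) ^ 2 * (sin (2 * t) ^ 2 + cos (2 * t) ^ 2) := by
      ring
    rw [h4, h2, h3]; ring
  · nlinarith [Real.cos_le_one (2 * t), sq_nonneg (exp (2 * x) - 1)]

lemma lint_Iic_le {f P : ℝ → ℝ} (hf : Continuous f) (hf0 : ∀ x, 0 ≤ f x)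
    (hP : ∀ x, HasDerivAt P (f x) x) (hP0 : ∀ x, 0 ≤ P x) (X : ℝ) :
    ∫⁻ x in Iic X, ENNReal.ofReal (f x) ≤ ENNReal.ofReal (P X) := by
  have hU : Iic X = ⋃ n : ℕ, Ioc (X - n) X := by
    ext x
    simp only [mem_Iic, mem_iUnion, mem_Ioc]
    constructor
    · intro h
      obtain ⟨n, hn⟩ := exists_nat_gt (X - x)
      exact ⟨n, by linarith, h⟩
    · rintro ⟨n, -, h⟩; exact h
  rw [hU, setLIntegral_iUnion_of_directed]
  · refine iSup_le fun n => ?_
    have hle : X - n ≤ X := by have := Nat.cast_nonneg (α := ℝ) n; linarith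
    rw [← ofReal_integral_eq_lintegral_ofReal (hf.integrableOn_Ioc)
      (Eventually.of_forall hf0), ← intervalIntegral.integral_of_le hle,
      intervalIntegral.integral_eq_sub_of_hasDerivAt (fun x _ => hP x)
        (hf.intervalIntegrable _ _)]
    exact ENNReal.ofReal_le_ofReal (by linarith [hP0 (X - n)])
  · refine directed_of_isDirected_le fun m n hmn => Ioc_subset_Ioc_left ?_
    have : (m : ℝ) ≤ n := by exact_mod_cast hmn
    linarith

lemma inner_bound {t : ℝ} (h0 : 0 < t) (h1 : t < π) (X : ℝ) :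
    ∫⁻ x in Iic X, ENNReal.ofReal (1 / ‖1 - Complex.exp (-2 * (⟨x, t⟩ : ℂ))‖) ≤
      ENNReal.ofReal (log (exp (2 * X) + 1) / 2 - log (sin t)) := by
  have hs : 0 < sin t := Real.sin_pos_of_pos_of_lt_pi h0 h1
  set c := cos (2 * t) with hc
  have hc1 : 1 - c = 2 * sin t ^ 2 := by
    rw [hc, Real.cos_two_mul, Real.cos_sq']; ring
  have hc0 : 0 < 1 - c := by rw [hc1]; positivity
  have hc2 : -1 ≤ c := Real.neg_one_le_cos _
  have hQ : ∀ σ : ℝ, 0 < σ → 0 < σ ^ 2 - 2 * σ * c + 1 := fun σ hσ => by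
    nlinarith [sq_nonneg (σ - 1), mul_pos hσ hc0]
  have hlow : ∀ σ : ℝ, 0 < σ → 1 - c ≤ σ - c + √(σ ^ 2 - 2 * σ * c + 1) := fun σ hσ => by
    have : 1 - σ ≤ √(σ ^ 2 - 2 * σ * c + 1) := by
      apply Real.le_sqrt_of_sq_le; nlinarith [mul_pos hσ hc0]
    linarith
  simp_rw [norm_formula, ← hc, one_div_div]
  refine (lint_Iic_le (P := fun x => (log (exp (2 * x) - c + √(exp (2 * x) ^ 2 - 2 * exp (2 * x) * c
    + 1)) - log (1 - c)) / 2) ?_ (fun x => by positivity) (fun x => ?_) (fun x => ?_) X).trans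
    (ENNReal.ofReal_le_ofReal ?_)
  · refine Continuous.div (by fun_prop) (by fun_prop) fun x => ?_
    exact (Real.sqrt_pos.mpr (hQ _ (exp_pos _))).ne'
  · have hE : HasDerivAt (fun x => exp (2 * x)) (exp (2 * x) * 2) x := by
      simpa using ((hasDerivAt_id x).const_mul 2).exp
    have hq := hQ _ (exp_pos (2 * x))
    have hl := hlow _ (exp_pos (2 * x))
    have hR := ((((hE.pow 2).sub ((hE.const_mul 2).mul_const c)).add_const 1).sqrt hq.ne')
    have hL := ((((hE.sub_const c).add hR).log (by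
      simp only [Pi.add_apply, Pi.sub_apply, Pi.pow_apply]; linarith)).sub_const
      (log (1 - c))).div_const 2
    refine hL.congr_deriv ?_
    simp only [Pi.add_apply, Pi.sub_apply, Pi.pow_apply]
    set σ := exp (2 * x)
    have hsq := Real.sq_sqrt hq.le
    have hsp := Real.sqrt_pos.mpr hq
    set q := √(σ ^ 2 - 2 * σ * c + 1)
    have : σ - c + q ≠ 0 := by linarith
    field_simp
    ring
  · have := Real.log_le_log hc0 (hlow _ (exp_pos (2 * x)))
    linarith
  · have hE := exp_pos (2 * X)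
    set σ := exp (2 * X)
    have h3 : √(σ ^ 2 - 2 * σ * c + 1) ≤ σ + 1 := by
      apply Real.sqrt_le_iff.mpr; constructor
      · linarith
      · nlinarith
    have h4 : σ - c + √(σ ^ 2 - 2 * σ * c + 1) ≤ 2 * (σ + 1) := by linarith
    have h5 := Real.log_le_log (lt_of_lt_of_le hc0 (hlow σ hE)) h4
    rw [Real.log_mul (by norm_num) (by positivity)] at h5
    rw [hc1, Real.log_mul (by norm_num) (by positivity), Real.log_pow]
    simp only [Nat.cast_ofNat]
    linarith

noncomputable def hh (δ t : ℝ) : ℝ := -log (sin (cut δ |t|))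

lemma sin_cut_pos {δ : ℝ} (h0 : 0 < δ) (h1 : δ ≤ π / 2) (t : ℝ) : 0 < sin (cut δ t) :=
  Real.sin_pos_of_pos_of_lt_pi (lt_of_lt_of_le h0 (cut_ge _ _))
    (lt_of_le_of_lt (cut_le h1 _) (by linarith [pi_pos]))

lemma hh_nonneg {δ : ℝ} (h0 : 0 < δ) (h1 : δ ≤ π / 2) (t : ℝ) : 0 ≤ hh δ t := by
  unfold hh
  have := Real.log_nonpos (sin_cut_pos h0 h1 |t|).le (Real.sin_le_one _)
  linarith

lemma hh_cont {δ : ℝ} (h0 : 0 < δ) (h1 : δ ≤ π / 2) : Continuous (hh δ) := by
  unfold hh
  have := cut_cont δ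
  refine Continuous.neg (Continuous.log (by fun_prop) fun t => (sin_cut_pos h0 h1 _).ne')

lemma lint_hh {δ : ℝ} (h0 : 0 < δ) (h1 : δ ≤ π / 2) :
    ∫⁻ t, ENNReal.ofReal (hh δ t) ≤ ENNReal.ofReal (π * log 2) := by
  have hpi := pi_pos
  have hI : ∫ t in (-(π / 2))..(π / 2), -log (sin t) = π * log 2 := by
    have a1 : ∫ t in (-(π / 2))..0, log (sin t) = ∫ t in (0 : ℝ)..(π / 2), log (sin t) := by
      have := intervalIntegral.integral_comp_neg (a := 0) (b := π / 2) (fun t => log (sin t))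
      simp only [Real.sin_neg, Real.log_neg_eq_log, neg_zero] at this
      exact this.symm
    have a2 := intervalIntegral.integral_add_adjacent_intervals (μ := volume)
      (f := fun t => log (sin t)) (a := -(π / 2)) (b := 0) (c := π / 2)
      intervalIntegrable_log_sin intervalIntegrable_log_sin
    rw [intervalIntegral.integral_neg, ← a2, a1, integral_log_sin_zero_pi_div_two]; ring
  have hint : IntegrableOn (fun t => -log (sin t)) (Ioc (-(π / 2)) (π / 2)) :=
    (intervalIntegrable_log_sin (a := -(π / 2)) (b := π / 2)).1.neg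
  rw [← hI, intervalIntegral.integral_of_le (by linarith),
    ofReal_integral_eq_lintegral_ofReal hint (Eventually.of_forall fun t => ?_),
    ← lintegral_indicator measurableSet_Ioc]
  · refine lintegral_mono_ae ?_
    have hae : ∀ᵐ t : ℝ, t ≠ 0 := by simp [ae_iff]
    filter_upwards [hae] with t ht
    by_cases hm : t ∈ Ioc (-(π / 2)) (π / 2)
    · rw [indicator_of_mem hm]
      refine ENNReal.ofReal_le_ofReal ?_
      unfold hh
      have habs : |t| ≤ π / 2 := abs_le.mpr ⟨hm.1.le, hm.2⟩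
      have hp : 0 < |t| := abs_pos.mpr ht
      have e : log (sin t) = log (sin |t|) := by
        rcases abs_choice t with h | h <;> rw [h]
        rw [Real.sin_neg, Real.log_neg_eq_log]
      rw [e]
      have hle : |t| ≤ cut δ |t| := by
        unfold cut; rw [min_eq_left habs]; exact le_max_right _ _
      have := Real.sin_le_sin_of_le_of_le_pi_div_two (by linarith) (cut_le h1 _) hle
      have := Real.log_le_log (Real.sin_pos_of_pos_of_lt_pi hp (by linarith)) this
      linarith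
    · rw [indicator_of_notMem hm]
      have habs : π / 2 ≤ |t| := by
        simp only [mem_Ioc, not_and_or, not_lt, not_le] at hm
        rcases hm with h | h
        · exact le_abs.mpr (Or.inr (by linarith))
        · exact le_abs.mpr (Or.inl h.le)
      have : cut δ |t| = π / 2 := by unfold cut; rw [min_eq_right habs, max_eq_right h1]
      simp [hh, this]
  · have : log (sin t) ≤ 0 := by
      rw [← Real.log_abs]
      exact Real.log_nonpos (abs_nonneg _) (Real.abs_sin_le_one _)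
    simp only [Pi.zero_apply]; linarith

lemma outer_bound {A : Finset ℝ} (hA : A.Nonempty) {δ K lo hi : ℝ} (h0 : 0 < δ)
    (h1 : δ ≤ π / 2) (hK : 0 ≤ K) (hlo : lo ≤ hi) :
    ∫⁻ y in Icc lo hi, ENNReal.ofReal (K - log (sin (psi A δ y))) ≤
      ENNReal.ofReal (K * (hi - lo) + A.card * (π * log 2)) := by
  have hb : ∀ y, ENNReal.ofReal (K - log (sin (psi A δ y))) ≤
      ENNReal.ofReal K + ∑ α ∈ A, ENNReal.ofReal (hh δ (y - α)) := fun y => by
    obtain ⟨α, hα, he⟩ := (A.finite_toSet.isCompact).exists_infDist_eq_dist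
      (by exact_mod_cast hA) y
    have e : K - log (sin (psi A δ y)) = K + hh δ (y - α) := by
      unfold hh psi; rw [he, Real.dist_eq]; ring
    rw [e]
    refine ENNReal.ofReal_add_le.trans (add_le_add le_rfl ?_)
    exact Finset.single_le_sum (f := fun α => ENNReal.ofReal (hh δ (y - α)))
      (fun _ _ => zero_le) hα
  refine (lintegral_mono hb).trans ?_
  have hm : ∀ α : ℝ, Measurable fun y => ENNReal.ofReal (hh δ (y - α)) := fun α =>
    ((hh_cont h0 h1).comp (continuous_id.sub continuous_const)).measurable.ennreal_ofReal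
  rw [lintegral_add_left measurable_const, lintegral_finsetSum _ (fun α _ => hm α),
    setLIntegral_const, Real.volume_Icc, ← ENNReal.ofReal_mul hK,
    ENNReal.ofReal_add (mul_nonneg hK (by linarith)) (by positivity)]
  refine add_le_add le_rfl ?_
  have hone : ∀ α ∈ A, ∫⁻ y in Icc lo hi, ENNReal.ofReal (hh δ (y - α)) ≤
      ENNReal.ofReal (π * log 2) := fun α _ => by
    refine (setLIntegral_le_lintegral _ _).trans ?_
    rw [lintegral_sub_right_eq_self (fun y => ENNReal.ofReal (hh δ y)) α]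
    exact lint_hh h0 h1
  refine (Finset.sum_le_card_nsmul _ _ _ hone).trans ?_
  rw [ENNReal.ofReal_mul (Nat.cast_nonneg _), ENNReal.ofReal_natCast, nsmul_eq_mul]

lemma rho2_cont {A : Finset ℝ} {δ : ℝ} (h0 : 0 < δ) (h1 : δ ≤ π / 2) :
    Continuous (rho2 A δ) := by
  have := Tm_cont A δ
  unfold rho2
  refine Continuous.div continuous_const (by fun_prop) fun ζ => ?_
  rw [norm_ne_zero_iff, sub_ne_zero]
  intro h
  have h2 := congrArg Complex.im h
  rw [Complex.exp_im] at h2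
  have e : (-2 * Tm A δ ζ).im = -(2 * psi A δ ζ.im) := by simp [Tm]
  have h3 := congrArg Complex.re h
  rw [Complex.exp_re] at h3
  rw [e] at h2 h3
  simp only [Complex.one_im, Complex.one_re, Real.sin_neg, Real.cos_neg] at h2 h3
  have hs := sin_cut_pos h0 h1 (Metric.infDist ζ.im (A : Set ℝ))
  change 0 < sin (psi A δ ζ.im) at hs
  have hE := exp_pos (-2 * Tm A δ ζ).re
  have h4 : sin (2 * psi A δ ζ.im) = 0 := by
    rcases mul_eq_zero.mp h2.symm with h | h
    · linarith
    · linarith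
  rw [Real.sin_two_mul] at h4
  have h5 : cos (psi A δ ζ.im) = 0 := by
    rcases mul_eq_zero.mp h4 with h | h
    · linarith
    · exact h
  rw [Real.cos_two_mul, h5] at h3
  nlinarith

lemma lint_rect (f : ℂ → ENNReal) (hf : Measurable f) (s t : Set ℝ) :
    ∫⁻ ζ in {ζ : ℂ | ζ.re ∈ s ∧ ζ.im ∈ t}, f ζ = ∫⁻ y in t, ∫⁻ x in s, f ⟨x, y⟩ := by
  have h := (Complex.volume_preserving_equiv_real_prod).setLIntegral_comp_preimage_emb
    Complex.measurableEquivRealProd.measurableEmbedding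
    (fun p => f (Complex.measurableEquivRealProd.symm p)) (s ×ˢ t)
  simp only [MeasurableEquiv.symm_apply_apply] at h
  have e : {ζ : ℂ | ζ.re ∈ s ∧ ζ.im ∈ t} = Complex.measurableEquivRealProd ⁻¹' (s ×ˢ t) := by
    ext ζ; simp [Complex.measurableEquivRealProd_apply]
  rw [e, h, Measure.volume_eq_prod, ← Measure.prod_restrict, lintegral_prod_symm]
  · rfl
  · exact (hf.comp Complex.measurableEquivRealProd.symm.measurable).aemeasurable

lemma box_bound {A : Finset ℝ} (hA : A.Nonempty) {δ X lo hi : ℝ} (h0 : 0 < δ)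
    (h1 : δ ≤ π / 2) (hlo : lo ≤ hi) :
    ∫⁻ ζ in {ζ : ℂ | ζ.re ∈ Iic X ∧ ζ.im ∈ Icc lo hi}, ENNReal.ofReal (rho2 A δ ζ) ≤
      ENNReal.ofReal (log (exp (2 * X) + 1) / 2 * (hi - lo) + A.card * (π * log 2)) := by
  have hm : Measurable fun ζ => ENNReal.ofReal (rho2 A δ ζ) :=
    (rho2_cont h0 h1).measurable.ennreal_ofReal
  have hK : 0 ≤ log (exp (2 * X) + 1) / 2 := by
    have := Real.log_nonneg (x := exp (2 * X) + 1) (by linarith [exp_pos (2 * X)])
    linarith
  have e := lint_rect (fun ζ => ENNReal.ofReal (rho2 A δ ζ)) hm (Iic X) (Icc lo hi)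
  have hi' : ∀ y : ℝ, ∫⁻ x in Iic X, ENNReal.ofReal (rho2 A δ ⟨x, y⟩) ≤
      ENNReal.ofReal (log (exp (2 * X) + 1) / 2 - log (sin (psi A δ y))) := fun y =>
    inner_bound (t := psi A δ y) (lt_of_lt_of_le h0 (cut_ge _ _))
      (lt_of_le_of_lt (cut_le h1 _) (by linarith [pi_pos])) X
  exact e.le.trans ((lintegral_mono hi').trans (outer_bound hA h0 h1 hK hlo))

end Pool.Agent.Lib.helper31.Slit
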