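import Mathlib
import Pool.Agent.Lib.helper31.SlitB

set_option autoImplicit false

namespace Pool.Agent.Lib.helper31.Slit

open Set Filter Topology MeasureTheory Real

lemma Tm_im_pos (A : Finset ℝ) {δ : ℝ} (h0 : 0 < δ) (ζ : ℂ) : 0 < (Tm A δ ζ).im :=
  lt_of_lt_of_le h0 (cut_ge _ _)

lemma Tm_im_lt (A : Finset ℝ) {δ : ℝ} (h1 : δ ≤ π / 2) (ζ : ℂ) : (Tm A δ ζ).im < π :=
  lt_of_le_of_lt (cut_le h1 _) (by linarith [pi_pos])

lemma slope_bound {A : Finset ℝ} {δ : ℝ} (h0 : 0 < δ) (h1 : δ ≤ π / 2) {γ : ℝ → ℂ} {γ' : ℂ}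
    {s K : ℝ} (hγ : HasDerivAt γ γ' s) (hK : ‖Om' (Tm A δ (γ s))‖ * ‖γ'‖ < K) :
    ∀ᶠ z in 𝓝 s, ‖Om (Tm A δ (γ z)) - Om (Tm A δ (γ s))‖ ≤ K * |z - s| := by
  have hO := hasDerivAt_Om (Tm_im_pos A h0 (γ s)) (Tm_im_lt A h1 (γ s))
  set a := ‖Om' (Tm A δ (γ s))‖ with ha
  set b := ‖γ'‖ with hb
  have hc : Tendsto (fun e : ℝ => (a + e) * (b + e)) (𝓝[>] 0) (𝓝 ((a + 0) * (b + 0))) :=
    (Continuous.tendsto (by fun_prop) 0).mono_left nhdsWithin_le_nhds
  simp only [add_zero] at hc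
  obtain ⟨e, he, he0⟩ := ((hc.eventually (gt_mem_nhds hK)).and self_mem_nhdsWithin).exists
  have he0 : 0 < e := he0
  have e1 := (hasDerivAt_iff_isLittleO.mp hO).bound he0
  have e2 := (hasDerivAt_iff_isLittleO.mp hγ).bound he0
  have ht : Tendsto (fun z => Tm A δ (γ z)) (𝓝 s) (𝓝 (Tm A δ (γ s))) :=
    ((Tm_cont A δ).tendsto _).comp hγ.continuousAt
  filter_upwards [ht.eventually e1, e2] with z h3 h4
  have h5 : ‖γ z - γ s‖ ≤ (b + e) * |z - s| := by
    have := norm_add_le (γ z - γ s - (z - s) • γ') ((z - s) • γ')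
    rw [sub_add_cancel, norm_smul, Real.norm_eq_abs] at this
    rw [Real.norm_eq_abs] at h4
    nlinarith
  have h6 := Tm_lip A δ (γ z) (γ s)
  have h7 : ‖Om (Tm A δ (γ z)) - Om (Tm A δ (γ s))‖ ≤
      (a + e) * ‖Tm A δ (γ z) - Tm A δ (γ s)‖ := by
    have := norm_add_le (Om (Tm A δ (γ z)) - Om (Tm A δ (γ s)) -
      (Tm A δ (γ z) - Tm A δ (γ s)) • Om' (Tm A δ (γ s)))
      ((Tm A δ (γ z) - Tm A δ (γ s)) • Om' (Tm A δ (γ s)))
    rw [sub_add_cancel, norm_smul] at this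
    nlinarith
  have ha0 : 0 ≤ a := norm_nonneg _
  calc _ ≤ (a + e) * ((b + e) * |z - s|) :=
        h7.trans (mul_le_mul_of_nonneg_left (h6.trans h5) (by linarith))
    _ = ((a + e) * (b + e)) * |z - s| := by ring
    _ ≤ _ := mul_le_mul_of_nonneg_right he.le (abs_nonneg _)

lemma line_bound {A : Finset ℝ} {δ : ℝ} (h0 : 0 < δ) (h1 : δ ≤ π / 2) {γ γ' : ℝ → ℂ}
    (hγ : ∀ s, HasDerivAt γ (γ' s) s) (hc : Continuous γ') {a b L : ℝ} (hab : a ≤ b)
    (hL : 0 < L) :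
    (Om (Tm A δ (γ a))).re - (Om (Tm A δ (γ b))).re ≤
      (∫ s in a..b, ‖γ' s‖ ^ 2 * rho2 A δ (γ s)) / L + L / 4 * (b - a) := by
  have hγc : Continuous γ := continuous_iff_continuousAt.mpr fun s => (hγ s).continuousAt
  have hg : Continuous fun s => ‖γ' s‖ ^ 2 * rho2 A δ (γ s) :=
    (hc.norm.pow 2).mul ((rho2_cont h0 h1).comp hγc)
  have hOc : Continuous fun s => Om (Tm A δ (γ s)) := continuous_iff_continuousAt.mpr fun s =>
    ContinuousAt.comp (g := Om) (f := fun s => Tm A δ (γ s))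
      (hasDerivAt_Om (Tm_im_pos A h0 (γ s)) (Tm_im_lt A h1 (γ s))).continuousAt
      ((Tm_cont A δ).comp hγc).continuousAt
  have hB : ∀ x, HasDerivAt (fun x => (∫ s in a..x, ‖γ' s‖ ^ 2 * rho2 A δ (γ s)) / L +
      L / 4 * (x - a)) (‖γ' x‖ ^ 2 * rho2 A δ (γ x) / L + L / 4 * 1) x := fun x =>
    (((hg.integral_hasStrictDerivAt a x).hasDerivAt).div_const L).add
      (((hasDerivAt_id x).sub_const a).const_mul (L / 4))
  have := image_le_of_liminf_slope_right_le_deriv_boundary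
    (f := fun x => (Om (Tm A δ (γ a))).re - (Om (Tm A δ (γ x))).re) (a := a) (b := b)
    (continuous_const.sub (Complex.continuous_re.comp hOc)).continuousOn (B := fun x => (∫ s in a..x, ‖γ' s‖ ^ 2 * rho2 A δ (γ s)) / L +
      L / 4 * (x - a)) (B' := fun x => ‖γ' x‖ ^ 2 * rho2 A δ (γ x) / L + L / 4 * 1)
    (by simp) (fun x _ => (hB x).continuousAt.continuousWithinAt)
    (fun x _ => (hB x).hasDerivWithinAt) ?_ (right_mem_Icc.mpr hab)
  · exact this
  · intro x _ K hK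
    have hn := norm_Om'_sq (Tm_im_pos A h0 (γ x)) (Tm_im_lt A h1 (γ x))
    change _ = rho2 A δ (γ x) at hn
    rw [← hn] at hK
    have hAM : ‖Om' (Tm A δ (γ x))‖ * ‖γ' x‖ ≤
        ‖γ' x‖ ^ 2 * ‖Om' (Tm A δ (γ x))‖ ^ 2 / L + L / 4 * 1 := by
      set t := ‖Om' (Tm A δ (γ x))‖ * ‖γ' x‖ with ht
      have : ‖γ' x‖ ^ 2 * ‖Om' (Tm A δ (γ x))‖ ^ 2 = t ^ 2 := by rw [ht]; ring
      rw [this]
      have h2 : t ^ 2 / L + L / 4 * 1 - t = (t - L / 2) ^ 2 / L := by field_simp; ring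
      have h3 : 0 ≤ (t - L / 2) ^ 2 / L := by positivity
      linarith
    obtain ⟨K', hK1, hK2⟩ := exists_between (lt_of_le_of_lt hAM hK)
    have hev := (slope_bound h0 h1 (hγ x) hK1).filter_mono (nhdsWithin_le_nhds (s := Ioi x))
    refine Eventually.frequently ?_
    filter_upwards [hev, self_mem_nhdsWithin] with z hz hzx
    have hzx : 0 < z - x := sub_pos.mpr hzx
    rw [slope_def_field, div_lt_iff₀ hzx]
    rw [abs_of_pos hzx] at hz
    have h4 := Complex.abs_re_le_norm (Om (Tm A δ (γ z)) - Om (Tm A δ (γ x)))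
    rw [Complex.sub_re] at h4
    have h5 := neg_abs_le ((Om (Tm A δ (γ z))).re - (Om (Tm A δ (γ x))).re)
    nlinarith

variable {r : ℕ}

noncomputable def Zf (p θ : Fin r → ℝ) (M : ℝ) (u : ℂ) : ℂ :=
  -((r : ℂ) / 2) * u + ∑ j, (p j : ℂ) * Complex.log (1 - Complex.exp (u - θ j * Complex.I)) - M

noncomputable def Zd (p θ : Fin r → ℝ) (u : ℂ) : ℂ :=
  -((r : ℂ) / 2) + ∑ j, (p j : ℂ) *
    (-Complex.exp (u - θ j * Complex.I) / (1 - Complex.exp (u - θ j * Complex.I)))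

lemma hasDerivAt_Zf (p θ : Fin r → ℝ) (M : ℝ) {u : ℂ}
    (h : ∀ j, 1 - Complex.exp (u - θ j * Complex.I) ∈ Complex.slitPlane) :
    HasDerivAt (Zf p θ M) (Zd p θ u) u := by
  have h1 : HasDerivAt (fun u : ℂ => -((r : ℂ) / 2) * u) (-((r : ℂ) / 2)) u := by
    simpa using (hasDerivAt_id u).const_mul (-((r : ℂ) / 2))
  have h2 : ∀ j ∈ (Finset.univ : Finset (Fin r)), HasDerivAt
      (fun u : ℂ => (p j : ℂ) * Complex.log (1 - Complex.exp (u - θ j * Complex.I)))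
      ((p j : ℂ) * (-Complex.exp (u - θ j * Complex.I) / (1 - Complex.exp (u - θ j * Complex.I))))
      u := fun j _ => by
    have h3 : HasDerivAt (fun u : ℂ => 1 - Complex.exp (u - θ j * Complex.I))
        (-Complex.exp (u - θ j * Complex.I)) u := by
      simpa using (((hasDerivAt_id u).sub_const (θ j * Complex.I)).cexp).const_sub 1
    exact (h3.clog (h j)).const_mul _
  exact (h1.add (HasDerivAt.fun_sum h2)).sub_const (M : ℂ)

lemma norm_w (u : ℂ) (t : ℝ) : ‖Complex.exp (u - t * Complex.I)‖ = exp u.re := by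
  rw [Complex.norm_exp]; simp

lemma slit_of_re_neg {u : ℂ} (hu : u.re < 0) (t : ℝ) :
    1 - Complex.exp (u - t * Complex.I) ∈ Complex.slitPlane := by
  left
  have h1 := Complex.re_le_norm (Complex.exp (u - t * Complex.I))
  rw [norm_w] at h1
  have := Real.exp_lt_one_iff.mpr hu
  simp only [Complex.sub_re, Complex.one_re]; linarith

lemma slit_of_sin {u : ℂ} {t : ℝ} (h : sin (u.im - t) ≠ 0) :
    1 - Complex.exp (u - t * Complex.I) ∈ Complex.slitPlane := by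
  right
  simp only [Complex.sub_im, Complex.one_im, Complex.exp_im, zero_sub, ne_eq, neg_eq_zero]
  have : (u - t * Complex.I).im = u.im - t := by simp
  simp only [Complex.sub_im] at this
  rw [this]
  exact mul_ne_zero (exp_ne_zero _) h

lemma Zd_re_neg (hr : 1 ≤ r) {p : Fin r → ℝ} (θ : Fin r → ℝ) (hp : ∀ j, 0 ≤ p j)
    (hs : ∑ j, p j = r) {u : ℂ} (hu : u.re < 0) : (Zd p θ u).re < 0 := by
  have key : ∀ w : ℂ, ‖w‖ < 1 → (-w / (1 - w)).re < 1 / 2 := fun w hw => by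
    have hne : 1 - w ≠ 0 := fun h => by
      have : w = 1 := by linear_combination -h
      rw [this] at hw; simp at hw
    have hpos := Complex.normSq_pos.mpr hne
    have hw2 : Complex.normSq w < 1 := by
      rw [← Complex.sq_norm]; nlinarith [norm_nonneg w]
    rw [Complex.div_re, ← add_div, div_lt_iff₀ hpos]
    rw [Complex.normSq_apply] at hw2 ⊢
    simp only [Complex.neg_re, Complex.neg_im, Complex.sub_re, Complex.sub_im, Complex.one_re,
      Complex.one_im]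
    nlinarith
  have hj : ∃ j, 0 < p j := by
    by_contra hc
    push Not at hc
    have : ∑ j, p j ≤ 0 := Finset.sum_nonpos fun j _ => hc j
    have h1 : (1 : ℝ) ≤ r := by exact_mod_cast hr
    linarith
  obtain ⟨j0, hj0⟩ := hj
  have hw : ∀ j, ‖Complex.exp (u - θ j * Complex.I)‖ < 1 := fun j => by
    rw [norm_w]; exact Real.exp_lt_one_iff.mpr hu
  have hlt : ∑ j, p j * (-Complex.exp (u - θ j * Complex.I) /
      (1 - Complex.exp (u - θ j * Complex.I))).re < ∑ j, p j * (1 / 2) :=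
    Finset.sum_lt_sum (fun j _ => mul_le_mul_of_nonneg_left (key _ (hw j)).le (hp j))
      ⟨j0, Finset.mem_univ _, mul_lt_mul_of_pos_left (key _ (hw j0)) hj0⟩
  rw [← Finset.sum_mul, hs] at hlt
  unfold Zd
  rw [Complex.add_re, Complex.re_sum]
  simp only [Complex.re_ofReal_mul]
  have : (-((r : ℂ) / 2)).re = -((r : ℝ) / 2) := by simp
  rw [this]; linarith

lemma Zf_inj (hr : 1 ≤ r) {p : Fin r → ℝ} (θ : Fin r → ℝ) (M : ℝ) (hp : ∀ j, 0 ≤ p j)
    (hs : ∑ j, p j = r) : InjOn (Zf p θ M) {u : ℂ | u.re < 0} := by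
  intro a ha b hb hab
  by_contra hne
  have hd : b - a ≠ 0 := sub_ne_zero.mpr (Ne.symm hne)
  have ha : a.re < 0 := ha
  have hb : b.re < 0 := hb
  have hmem : ∀ t ∈ Icc (0 : ℝ) 1, (a + t * (b - a)).re < 0 := fun t ht => by
    simp only [Complex.add_re, Complex.re_ofReal_mul, Complex.sub_re]
    rcases ht.2.lt_or_eq with h | h
    · nlinarith [ht.1]
    · rw [h]; linarith
  have hder : ∀ t ∈ Icc (0 : ℝ) 1, HasDerivAt (fun t : ℝ => (Zf p θ M (a + t * (b - a)) /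
      (b - a)).re) ((Zd p θ (a + t * (b - a))).re) t := fun t ht => by
    have h1 := hasDerivAt_Zf p θ M (fun j => slit_of_re_neg (hmem t ht) (θ j))
    have h2 : HasDerivAt (fun w : ℂ => a + w * (b - a)) (b - a) (t : ℂ) := by
      simpa using ((hasDerivAt_id (t : ℂ)).mul_const (b - a)).const_add a
    have h3 := (HasDerivAt.comp (h₂ := Zf p θ M) (h := fun w : ℂ => a + w * (b - a)) (t : ℂ)
      h1 h2).div_const (b - a)
    rw [mul_div_assoc, div_self hd, mul_one] at h3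
    exact h3.real_of_complex
  obtain ⟨c, hc, hc0⟩ := exists_hasDerivAt_eq_zero (f := fun t : ℝ => (Zf p θ M (a + t * (b - a)) /
      (b - a)).re) (f' := fun t : ℝ => (Zd p θ (a + t * (b - a))).re) zero_lt_one
      (fun t ht => (hder t ht).continuousAt.continuousWithinAt) (by simp [hab])
      (fun t ht => hder t (Ioo_subset_Icc_self ht))
  exact (Zd_re_neg hr θ hp hs (hmem c (Ioo_subset_Icc_self hc))).ne hc0

lemma Zf_re (p θ : Fin r → ℝ) (M : ℝ) (u : ℂ) : (Zf p θ M u).re =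
    -((r : ℝ) / 2) * u.re + ∑ j, p j * log ‖1 - Complex.exp (u - θ j * Complex.I)‖ - M := by
  unfold Zf
  rw [Complex.sub_re, Complex.add_re, Complex.re_sum]
  simp only [Complex.re_ofReal_mul, Complex.log_re]
  simp

lemma Zf_im (p θ : Fin r → ℝ) (M : ℝ) (u : ℂ) : (Zf p θ M u).im =
    -((r : ℝ) / 2) * u.im + ∑ j, p j * Complex.arg (1 - Complex.exp (u - θ j * Complex.I)) := by
  unfold Zf
  rw [Complex.sub_im, Complex.add_im, Complex.im_sum]
  simp only [Complex.im_ofReal_mul, Complex.log_im]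
  simp

lemma Zf_re_le {p : Fin r → ℝ} (θ : Fin r → ℝ) (M : ℝ) (hp : ∀ j, 0 ≤ p j)
    (hs : ∑ j, p j = r) {u : ℂ} {S : ℝ} (h1 : -S ≤ u.re) (h2 : u.re < 0) :
    (Zf p θ M u).re ≤ r * S / 2 - M + r * exp (-S) := by
  rw [Zf_re]
  have hb : ∀ j, log ‖1 - Complex.exp (u - θ j * Complex.I)‖ ≤ u.re / 2 + S / 2 + exp (-S) :=
    fun j => by
    have hne := Complex.slitPlane_ne_zero (slit_of_re_neg h2 (θ j))
    have h3 := norm_sub_le (1 : ℂ) (Complex.exp (u - θ j * Complex.I))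
    rw [norm_w, norm_one] at h3
    have hc : cosh (u.re / 2) ≤ cosh (S / 2) := by
      rw [Real.cosh_le_cosh, abs_of_neg (by linarith), abs_of_nonneg (by linarith)]; linarith
    rw [Real.cosh_eq, Real.cosh_eq] at hc
    have e1 : 1 + exp u.re = exp (u.re / 2) * (exp (u.re / 2) + exp (-(u.re / 2))) := by
      rw [mul_add, ← Real.exp_add, ← Real.exp_add]; simp [add_comm]
    have e2 : exp (S / 2) + exp (-(S / 2)) = exp (S / 2) * (1 + exp (-S)) := by
      rw [mul_add, ← Real.exp_add]; congr 1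
      · simp
      · congr 1; ring
    have h4 : ‖1 - Complex.exp (u - θ j * Complex.I)‖ ≤
        exp (u.re / 2) * (exp (S / 2) * (1 + exp (-S))) := by
      rw [← e2]; refine h3.trans ?_
      rw [e1]; exact mul_le_mul_of_nonneg_left (by linarith) (exp_pos _).le
    have h5 := Real.log_le_log (norm_pos_iff.mpr hne) h4
    rw [Real.log_mul (by positivity) (by positivity), Real.log_mul (by positivity) (by positivity),
      Real.log_exp, Real.log_exp] at h5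
    have h6 := Real.log_le_sub_one_of_pos (x := 1 + exp (-S)) (by positivity)
    linarith
  have := Finset.sum_le_sum fun j (_ : j ∈ Finset.univ) => mul_le_mul_of_nonneg_left (hb j) (hp j)
  rw [← Finset.sum_mul, hs] at this
  linarith

lemma Zf_re_ge {p : Fin r → ℝ} (θ : Fin r → ℝ) (M : ℝ) (hp : ∀ j, 0 ≤ p j)
    (hs : ∑ j, p j = r) {u : ℂ} {S : ℝ} (h1 : u.re = -S) (h2 : exp (-S) ≤ 1 / 2) :
    r * S / 2 - M - 2 * (r * exp (-S)) ≤ (Zf p θ M u).re := by
  rw [Zf_re]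
  have hb : ∀ j, -(2 * exp (-S)) ≤ log ‖1 - Complex.exp (u - θ j * Complex.I)‖ := fun j => by
    have h3 := norm_sub_norm_le (1 : ℂ) (Complex.exp (u - θ j * Complex.I))
    rw [norm_w, norm_one, h1] at h3
    have hE := exp_pos (-S)
    have hpos : 0 < 1 - exp (-S) := by linarith
    have h4 := Real.log_le_log hpos h3
    have h5 := Real.one_sub_inv_le_log_of_pos hpos
    have h6 : (1 - exp (-S))⁻¹ ≤ 1 + 2 * exp (-S) := by
      rw [inv_le_iff_one_le_mul₀ hpos]; nlinarith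
    linarith
  have := Finset.sum_le_sum fun j (_ : j ∈ Finset.univ) => mul_le_mul_of_nonneg_left (hb j) (hp j)
  rw [← Finset.sum_mul, hs] at this
  rw [h1]
  linarith

lemma Zf_im_bounds {p : Fin r → ℝ} (θ : Fin r → ℝ) (M : ℝ) (hp : ∀ j, 0 ≤ p j)
    (hs : ∑ j, p j = r) (u : ℂ) :
    -((r : ℝ) / 2) * u.im - r * π ≤ (Zf p θ M u).im ∧
      (Zf p θ M u).im ≤ -((r : ℝ) / 2) * u.im + r * π := by
  rw [Zf_im]
  have h1 := Finset.sum_le_sum fun j (_ : j ∈ Finset.univ) => mul_le_mul_of_nonneg_left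
    (Complex.arg_le_pi (1 - Complex.exp (u - θ j * Complex.I))) (hp j)
  have h2 := Finset.sum_le_sum fun j (_ : j ∈ Finset.univ) => mul_le_mul_of_nonneg_left
    (Complex.neg_pi_lt_arg (1 - Complex.exp (u - θ j * Complex.I))).le (hp j)
  rw [← Finset.sum_mul, hs] at h1 h2
  constructor <;> linarith

lemma arg_one_sub_exp {φ : ℝ} (h : sin φ ≠ 0) :
    Complex.arg (1 - Complex.exp (φ * Complex.I)) = (φ - 2 * π * ⌊φ / (2 * π)⌋ - π) / 2 := by
  have hpi := pi_pos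
  set k := ⌊φ / (2 * π)⌋ with hk
  set ψ := φ - 2 * π * k with hψ
  have h1 : (k : ℝ) ≤ φ / (2 * π) := Int.floor_le _
  have h2 : φ / (2 * π) < k + 1 := Int.lt_floor_add_one _
  rw [le_div_iff₀ (by positivity)] at h1
  rw [div_lt_iff₀ (by positivity)] at h2
  have hφ : φ = ψ + k * (2 * π) := by rw [hψ]; ring
  have h3 : ψ ≠ 0 := fun h0 => by
    apply h
    rw [hφ, Real.sin_add_int_mul_two_pi, h0, Real.sin_zero]
  have h4 : 0 < ψ := lt_of_le_of_ne (by rw [hψ]; linarith) (Ne.symm h3)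
  have h5 : ψ < 2 * π := by rw [hψ]; linarith
  have hs : 0 < 2 * sin (ψ / 2) :=
    mul_pos two_pos (Real.sin_pos_of_pos_of_lt_pi (by linarith) (by linarith))
  have e : 1 - Complex.exp (φ * Complex.I) = ((2 * sin (ψ / 2) : ℝ) : ℂ) *
      (Complex.cos (((ψ - π) / 2 : ℝ) : ℂ) + Complex.sin (((ψ - π) / 2 : ℝ) : ℂ) * Complex.I) := by
    have a1 : cos ((ψ - π) / 2) = sin (ψ / 2) := by
      rw [show (ψ - π) / 2 = ψ / 2 - π / 2 by ring, Real.cos_sub_pi_div_two]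
    have a2 : sin ((ψ - π) / 2) = -cos (ψ / 2) := by
      rw [show (ψ - π) / 2 = ψ / 2 - π / 2 by ring, Real.sin_sub_pi_div_two]
    have a3 : cos φ = 1 - 2 * sin (ψ / 2) ^ 2 := by
      rw [hφ, Real.cos_add_int_mul_two_pi]
      have := Real.cos_two_mul (ψ / 2)
      rw [show 2 * (ψ / 2) = ψ by ring, Real.cos_sq'] at this
      linarith
    have a4 : sin φ = 2 * sin (ψ / 2) * cos (ψ / 2) := by
      rw [hφ, Real.sin_add_int_mul_two_pi, ← Real.sin_two_mul]; congr 1; ring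
    rw [← Complex.ofReal_cos, ← Complex.ofReal_sin, a1, a2, Complex.exp_mul_I,
      ← Complex.ofReal_cos, ← Complex.ofReal_sin, a3, a4]
    push_cast; ring
  rw [e, Complex.arg_mul_cos_add_sin_mul_I hs ⟨by linarith, by linarith⟩]

noncomputable def fl (p θ : Fin r → ℝ) (t : ℝ) : ℝ := ∑ j, p j * (⌊(t - θ j) / (2 * π)⌋ : ℝ)

noncomputable def arm (p θ : Fin r → ℝ) (x : Fin r × ℤ) : ℝ :=
  -(∑ j, p j * (θ j + π)) / 2 - π * (fl p θ (θ x.1) + r * x.2)

noncomputable def arms (p θ : Fin r → ℝ) (N : ℕ) : Finset ℝ :=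
  (Finset.univ ×ˢ Finset.Icc (-1 : ℤ) N).image (arm p θ)

lemma arms_card (p θ : Fin r → ℝ) (N : ℕ) : ((arms p θ N).card : ℝ) ≤ r * (N + 2) := by
  have := Finset.card_image_le (s := (Finset.univ : Finset (Fin r)) ×ˢ Finset.Icc (-1 : ℤ) N)
    (f := arm p θ)
  rw [Finset.card_product, Finset.card_univ, Fintype.card_fin, Int.card_Icc] at this
  have e : ((N : ℤ) + 1 - -1).toNat = N + 2 := by omega
  rw [e] at this
  exact_mod_cast this

lemma fl_eq (hr : 1 ≤ r) {p : Fin r → ℝ} (θ : Fin r → ℝ) (hs : ∑ j, p j = r) (t : ℝ) :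
    ∃ i, fl p θ t = fl p θ (θ i) + r * (⌊(t - θ i) / (2 * π)⌋ : ℝ) := by
  have hpi := pi_pos
  have : Nonempty (Fin r) := ⟨⟨0, hr⟩⟩
  obtain ⟨i, -, hi⟩ := Finset.exists_max_image Finset.univ
    (fun j => θ j + 2 * π * (⌊(t - θ j) / (2 * π)⌋ : ℝ)) Finset.univ_nonempty
  refine ⟨i, ?_⟩
  have key : ∀ j, ⌊(t - θ j) / (2 * π)⌋ = ⌊(θ i - θ j) / (2 * π)⌋ + ⌊(t - θ i) / (2 * π)⌋ := by
    intro j
    rw [← Int.floor_add_intCast]
    symm
    rw [Int.floor_eq_iff]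
    have h1 := hi j (Finset.mem_univ _)
    have h2 : (⌊(t - θ i) / (2 * π)⌋ : ℝ) ≤ (t - θ i) / (2 * π) := Int.floor_le _
    have h3 : (t - θ j) / (2 * π) < ⌊(t - θ j) / (2 * π)⌋ + 1 := Int.lt_floor_add_one _
    rw [le_div_iff₀ (by positivity)] at h2
    rw [div_lt_iff₀ (by positivity)] at h3
    constructor
    · rw [← sub_le_iff_le_add, le_div_iff₀ (by positivity)]; linarith
    · rw [← lt_sub_iff_add_lt, div_lt_iff₀ (by positivity)]; linarith
  unfold fl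
  rw [← hs, Finset.sum_mul, ← Finset.sum_add_distrib]
  refine Finset.sum_congr rfl fun j _ => ?_
  rw [key j]; push_cast; ring

lemma Zf_im_mem (hr : 1 ≤ r) {p : Fin r → ℝ} {θ : Fin r → ℝ} (M : ℝ) (hs : ∑ j, p j = r)
    (hθ : ∀ j, θ j ∈ Ioc (-π) π) {N : ℕ} {t : ℝ} (ht : t ∈ Ioo 0 (2 * π * N))
    (hg : ∀ j, sin (t - θ j) ≠ 0) : (Zf p θ M ⟨0, t⟩).im ∈ arms p θ N := by
  have hpi := pi_pos
  obtain ⟨i, hi⟩ := fl_eq hr θ hs t
  refine Finset.mem_image.mpr ⟨(i, ⌊(t - θ i) / (2 * π)⌋), ?_, ?_⟩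
  · simp only [Finset.mem_product, Finset.mem_univ, true_and, Finset.mem_Icc]
    constructor
    · rw [Int.le_floor, le_div_iff₀ (by positivity)]
      push_cast; linarith [(hθ i).2, ht.1]
    · rw [Int.floor_le_iff, div_lt_iff₀ (by positivity)]
      push_cast; linarith [(hθ i).1, ht.2]
  · rw [Zf_im]
    have e : ∀ j, (⟨0, t⟩ : ℂ) - θ j * Complex.I = ((t - θ j : ℝ) : ℂ) * Complex.I := fun j => by
      apply Complex.ext <;> simp
    simp_rw [e]
    rw [Finset.sum_congr rfl fun j _ => by rw [arg_one_sub_exp (hg j)]]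
    unfold arm
    simp only
    rw [← hi]
    unfold fl
    have : ∀ j, p j * ((t - θ j - 2 * π * (⌊(t - θ j) / (2 * π)⌋ : ℝ) - π) / 2) =
      p j * (t / 2) - p j * (θ j + π) / 2 - π * (p j * (⌊(t - θ j) / (2 * π)⌋ : ℝ)) := fun j => by
      ring
    simp_rw [this]
    rw [Finset.sum_sub_distrib, Finset.sum_sub_distrib, ← Finset.sum_mul, hs, ← Finset.sum_div,
      ← Finset.mul_sum]
    ring

end Pool.Agent.Lib.helper31.Slit
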