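import Mathlib

/-! Cut packing for conservative integer weightings (Seymour's theorem, Sebő's proof). -/

namespace Pool.Agent.Lib.helper31.TJoin

open Finset

variable {V E : Type*}

/-- `Z` is an `{a, b}`-join (tested against all parity functions). -/
def Join (s t : E → V) (Z : Finset E) (a b : V) : Prop :=
  ∀ p : V → ZMod 2, ∑ e ∈ Z, (p (s e) + p (t e)) = p a + p b

/-- `Z` is a cycle (all degrees even). -/
def Cyc (s t : E → V) (Z : Finset E) : Prop :=
  ∀ p : V → ZMod 2, ∑ e ∈ Z, (p (s e) + p (t e)) = 0

/-- `e` has exactly one end equal to `b`. -/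
def D (s t : E → V) (b : V) (e : E) : Prop := ¬ (s e = b ↔ t e = b)

variable {s t : E → V}

theorem z2 (x : ZMod 2) : x + x = 0 := by revert x; decide

theorem Join.cyc {Z : Finset E} {a : V} (h : Join s t Z a a) : Cyc s t Z :=
  fun p => (h p).trans (z2 _)

theorem D.other {b : V} {e : E} (h : D s t b e) : ∃ c, c ≠ b ∧
    (∀ p : V → ZMod 2, p (s e) + p (t e) = p b + p c) ∧ ∀ d, d ≠ b → d ≠ c → ¬ D s t d e := by
  unfold D at h
  by_cases h1 : s e = b
  · refine ⟨t e, fun h2 => h (by simp [h1, h2]), fun p => by rw [h1], fun d h3 h4 => ?_⟩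
    simp [D, h1, h3.symm, h4.symm]
  · have h2 : t e = b := by tauto
    refine ⟨s e, h1, fun p => by rw [h2, add_comm], fun d h3 h4 => ?_⟩
    simp [D, h2, h3.symm, h4.symm]

theorem D.ne {b : V} {e : E} (h : D s t b e) : s e ≠ t e := fun h' => h (by rw [h'])

theorem Join.exists_edge {Z : Finset E} {a b : V} (h : Join s t Z a b) (hab : a ≠ b) :
    ∃ e ∈ Z, D s t a e := by
  classical
  by_contra hc
  push Not at hc
  have h1 := h (fun v => if v = a then 1 else 0)
  rw [sum_eq_zero] at h1
  · simp [hab.symm] at h1
  · intro e he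
    have := not_not.1 (hc e he)
    simp only [this]
    exact z2 _

theorem split [DecidableEq E] (b : V) (Z : Finset E) : ∀ a, a ≠ b → Join s t Z a b →
    ∃ J ⊆ Z, Join s t J a b ∧ ∃ e0 ∈ J, D s t b e0 ∧ ∀ e ∈ J, D s t b e → e = e0 := by
  induction Z using Finset.strongInduction with
  | H Z ih =>
    intro a hab h
    obtain ⟨e, he, hD⟩ := h.exists_edge hab
    obtain ⟨c, hca, hp, hd⟩ := hD.other
    by_cases hcb : c = b
    · subst hcb
      refine ⟨{e}, by simpa using he, fun p => by simpa using hp p, e, by simp, ?_, by simp⟩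
      intro hiff
      have := hp (fun v => by classical exact if v = c then 1 else 0)
      simp only [hab, if_false, if_true] at this
      by_cases h1 : s e = c
      · simp only [h1, hiff.1 h1, if_true] at this
        revert this; decide
      · simp only [h1, mt hiff.2 h1, if_false] at this
        revert this; decide
    · have hj : Join s t (Z.erase e) c b := by
        intro p
        have h1 := h p
        rw [← add_sum_erase _ _ he, hp] at h1
        linear_combination h1 - z2 (p c)
      obtain ⟨J, hJ, hJ2, e0, he0, hD0, hu⟩ := ih _ (erase_ssubset he) c hcb hj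
      have heJ : e ∉ J := fun h => by simpa using hJ h
      refine ⟨insert e J, insert_subset he (hJ.trans (erase_subset _ _)), fun p => ?_,
        e0, mem_insert_of_mem he0, hD0, fun e' he' hD' => ?_⟩
      · rw [sum_insert heJ, hp, hJ2 p]
        linear_combination z2 (p c)
      · rcases mem_insert.1 he' with rfl | he'
        · exact absurd hD' (hd b hab.symm (Ne.symm hcb))
        · exact hu e' he' hD'

theorem claim1 [DecidableEq E] (w : E → ℤ) (cons : ∀ Z, Cyc s t Z → 0 ≤ ∑ e ∈ Z, w e)
    (nz : ∀ e, s e ≠ t e → w e ≠ 0) {J : Finset E} {a b : V} (hab : a ≠ b) (hJ : Join s t J a b)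
    (hmin : ∀ J' a' b', Join s t J' a' b' → ∑ e ∈ J, w e ≤ ∑ e ∈ J', w e) :
    ∃ e0, D s t b e0 ∧ w e0 < 0 ∧ ∀ e, D s t b e → w e < 0 → e = e0 := by
  obtain ⟨J0, hs, hJ0, e0, he0, hD0, hu⟩ := split b J a hab hJ
  have hc : Cyc s t (J \ J0) := by
    intro p
    have := sum_sdiff (f := fun e => p (s e) + p (t e)) hs
    rw [hJ p, hJ0 p] at this
    linear_combination this
  have h1 : ∑ e ∈ J0, w e ≤ ∑ e ∈ J, w e := by
    have := sum_sdiff (f := w) hs
    have := cons _ hc
    linarith
  refine ⟨e0, hD0, ?_, fun e hD hw => hu e ?_ hD⟩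
  · obtain ⟨c, -, hp, -⟩ := hD0.other
    have hj : Join s t (J0.erase e0) a c := by
      intro p
      have h1 := hJ0 p
      rw [← add_sum_erase _ _ he0, hp] at h1
      linear_combination h1 - z2 (p c)
    have h2 := hmin _ _ _ hj
    have h3 := add_sum_erase J0 w he0
    have h4 := nz e0 hD0.ne
    omega
  · by_contra he
    obtain ⟨c, -, hp, -⟩ := hD.other
    have hj : Join s t (insert e J0) a c := by
      intro p
      rw [sum_insert he, hp, hJ0 p]
      linear_combination z2 (p b)
    have h2 := hmin _ _ _ hj
    rw [sum_insert he] at h2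
    omega

theorem sum_symm [DecidableEq E] {M : Type*} [AddCommGroup M] (f : E → M) (Y Z : Finset E) :
    ∑ e ∈ symmDiff Y Z, f e = ∑ e ∈ Y, (if e ∈ Z then - f e else f e) + ∑ e ∈ Z, f e := by
  have h1 : ∑ e ∈ symmDiff Y Z, f e = ∑ e ∈ Y \ Z, f e + ∑ e ∈ Z \ Y, f e := by
    rw [symmDiff_def, sup_eq_union, sum_union disjoint_sdiff_sdiff]
  have h2 : ∑ e ∈ Y, (if e ∈ Z then - f e else f e) = - ∑ e ∈ Y ∩ Z, f e + ∑ e ∈ Y \ Z, f e := by
    rw [sum_ite, filter_mem_eq_inter, sum_neg_distrib, sdiff_eq_filter]
  have h3 := sum_inter_add_sum_sdiff Z Y f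
  rw [h1, h2, ← h3, inter_comm]
  abel

theorem Join.symm_cyc [DecidableEq E] {Y Z : Finset E} {a b : V} (h : Join s t Y a b)
    (hZ : Cyc s t Z) : Join s t (symmDiff Y Z) a b := by
  intro p
  rw [sum_symm, hZ p, add_zero, ← h p]
  refine sum_congr rfl fun e _ => ?_
  split_ifs
  · exact ZMod.neg_eq_self_mod_two _
  · rfl

theorem Cyc.symm_cyc [DecidableEq E] {Y Z : Finset E} (h : Cyc s t Y)
    (hZ : Cyc s t Z) : Cyc s t (symmDiff Y Z) := by
  intro p
  rw [sum_symm, hZ p, add_zero, ← h p]
  refine sum_congr rfl fun e _ => ?_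
  split_ifs
  · exact ZMod.neg_eq_self_mod_two _
  · rfl

theorem claim2 [DecidableEq E] (w : E → ℤ) (cons : ∀ Z, Cyc s t Z → 0 ≤ ∑ e ∈ Z, w e)
    (nz : ∀ e, s e ≠ t e → w e ≠ 0) (q : V → ZMod 2)
    (hq : ∀ e, (w e : ZMod 2) = q (s e) + q (t e))
    {J : Finset E} {a b : V} (hab : a ≠ b) (hJ : Join s t J a b)
    (hmin : ∀ J' a' b', Join s t J' a' b' → ∑ e ∈ J, w e ≤ ∑ e ∈ J', w e)
    (w' : E → ℤ) (hw1 : ∀ e, ¬ D s t b e → w' e = w e)
    (hw2 : ∀ e, D s t b e → w' e = w e - (w e).sign) (Z : Finset E) :
    Cyc s t Z → 0 ≤ ∑ e ∈ Z, w' e := by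
  classical
  induction Z using Finset.strongInduction with
  | H Z ih =>
    intro hZ
    by_cases hex : ∃ e ∈ Z, D s t b e
    swap
    · push Not at hex
      rw [sum_congr rfl fun e he => hw1 e (hex e he)]
      exact cons Z hZ
    obtain ⟨e, he, hD⟩ := hex
    obtain ⟨c, hcb, hp, -⟩ := hD.other
    have hj : Join s t (Z.erase e) c b := by
      intro p
      have h1 := hZ p
      rw [← add_sum_erase _ _ he, hp] at h1
      linear_combination h1 - z2 (p c) - z2 (p b)
    obtain ⟨J0, hs, hJ0, e0, he0, hD0, hu⟩ := split b _ c hcb hj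
    have heJ : e ∉ J0 := fun h => by simpa using hs h
    have hs' : insert e J0 ⊆ Z := insert_subset he (hs.trans (erase_subset _ _))
    have hc0 : Cyc s t (insert e J0) := by
      intro p
      rw [sum_insert heJ, hp, hJ0 p]
      linear_combination z2 (p c) + z2 (p b)
    have hc1 : Cyc s t (Z \ insert e J0) := by
      intro p
      have := sum_sdiff (f := fun e => p (s e) + p (t e)) hs'
      rw [hZ p, hc0 p] at this
      linear_combination this
    have h1 := ih _ (sdiff_ssubset hs' (insert_nonempty _ _)) hc1
    rw [← sum_sdiff hs']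
    refine add_nonneg h1 ?_
    have h2 : ∑ x ∈ insert e J0, w' x = ∑ x ∈ insert e J0, w x - (w e).sign - (w e0).sign := by
      rw [sum_insert heJ, sum_insert heJ, ← add_sum_erase _ _ he0, ← add_sum_erase _ w he0,
        hw2 e hD, hw2 e0 hD0, sum_congr rfl fun x hx => hw1 x fun hDx =>
          (ne_of_mem_erase hx) (hu x (mem_of_mem_erase hx) hDx)]
      ring
    have h3 := cons _ hc0
    have h4 : (2 : ℤ) ∣ ∑ x ∈ insert e J0, w x := by
      have := (ZMod.intCast_zmod_eq_zero_iff_dvd (∑ x ∈ insert e J0, w x) 2).1 (by
        rw [Int.cast_sum, sum_congr rfl fun x _ => hq x]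
        exact hc0 q)
      exact_mod_cast this
    rw [h2]
    by_contra hneg
    have s0 : ∀ z : ℤ, z.sign ≤ 1 := by
      intro z
      rcases lt_trichotomy z 0 with h | h | h
      · rw [Int.sign_eq_neg_one_of_neg h]; omega
      · rw [h]; simp
      · rw [Int.sign_eq_one_of_pos h]
    have s1 := s0 (w e)
    have s2 := s0 (w e0)
    have hz : ∑ x ∈ insert e J0, w x = 0 := by omega
    have n1 := nz e hD.ne
    have n2 := nz e0 hD0.ne
    have p1 : 0 < w e := by
      by_contra h
      have : (w e).sign = -1 := Int.sign_eq_neg_one_of_neg (by omega)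
      omega
    have p2 : 0 < w e0 := by
      by_contra h
      have : (w e0).sign = -1 := Int.sign_eq_neg_one_of_neg (by omega)
      omega
    set Z0 := insert e J0 with hZ0
    let u : E → ℤ := fun x => if x ∈ Z0 then - w x else w x
    have hu' : ∀ Y : Finset E, ∑ x ∈ Y, u x = ∑ x ∈ symmDiff Y Z0, w x := by
      intro Y
      rw [sum_symm, hz, add_zero]
    obtain ⟨e1, -, -, h1u⟩ := claim1 (s := s) (t := t) u
      (fun Y hY => by rw [hu']; exact cons _ (hY.symm_cyc hc0))
      (fun x hx => by
        have := nz x hx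
        simp only [u]
        split_ifs <;> omega) (J := symmDiff J Z0) hab (hJ.symm_cyc hc0)
      (fun J' a' b' hJ' => by
        rw [hu', hu', symmDiff_symmDiff_cancel_right]
        exact hmin _ _ _ (hJ'.symm_cyc hc0))
    have m1 : e ∈ Z0 := mem_insert_self _ _
    have m2 : e0 ∈ Z0 := mem_insert_of_mem he0
    have a1 := h1u e hD (by simp only [u, m1, if_true]; omega)
    have a2 := h1u e0 hD0 (by simp only [u, m2, if_true]; omega)
    exact heJ (by rw [a1, ← a2]; exact he0)

theorem packing [Fintype E] (n : ℕ) : ∀ (s t : E → V) (w : E → ℤ),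
    (by classical exact (∑ e, (w e).natAbs) + #{e | s e ≠ t e}) = n →
    (∀ Z, Cyc s t Z → 0 ≤ ∑ e ∈ Z, w e) →
    (∃ q : V → ZMod 2, ∀ e, (w e : ZMod 2) = q (s e) + q (t e)) →
    ∃ f : E → V → ℤ, (∀ g, w g ≤ 0 → f g (s g) - f g (t g) = - w g) ∧
      ∀ g, ∑ e, |f e (s g) - f e (t g)| ≤ |w g| := by
  classical
  induction n using Nat.strong_induction_on with
  | _ n ih =>
  intro s t w hn cons ⟨q, hq⟩
  by_cases hz : ∃ g, s g ≠ t g ∧ w g = 0
  · obtain ⟨g, hg, hw⟩ := hz
    let π : V → V := fun v => if v = t g then s g else v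
    have hqπ : ∀ v, q (π v) = q v := by
      intro v
      simp only [π]
      split_ifs with h
      · have := hq g
        rw [hw] at this
        rw [h]
        push_cast at this
        linear_combination - this - z2 (q (t g))
      · rfl
    refine (ih _ ?_ (π ∘ s) (π ∘ t) w rfl ?_ ⟨q, fun e => by simp [hqπ, hq]⟩).elim
      fun f ⟨h1, h2⟩ => ⟨fun e v => f e (π v), h1, h2⟩
    · rw [← hn]
      refine Nat.add_lt_add_left (card_lt_card ⟨fun e he => ?_, fun h => ?_⟩) _
      · simp only [mem_filter, mem_univ, true_and, Function.comp] at he ⊢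
        exact fun h => he (by rw [h])
      · have := h (mem_filter.2 ⟨mem_univ g, hg⟩)
        simp [π] at this
    · intro Z hZ
      let κ : ZMod 2 := ∑ e ∈ Z, ((if s e = t g then 1 else 0) + (if t e = t g then 1 else 0))
      have key : ∀ p : V → ZMod 2,
          ∑ e ∈ Z, (p (s e) + p (t e)) = κ * (p (s g) + p (t g)) := by
        intro p
        have hv : ∀ v, p v = p (π v) + (if v = t g then 1 else 0) * (p (s g) + p (t g)) := by
          intro v
          simp only [π]
          split_ifs with h
          · rw [h]; linear_combination - z2 (p (s g))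
          · simp
        have := hZ p
        simp only [Function.comp] at this
        have h3 : ∑ e ∈ Z, (p (s e) + p (t e)) = ∑ e ∈ Z, (p (π (s e)) + p (π (t e))) +
            κ * (p (s g) + p (t g)) := by
          rw [sum_mul, ← sum_add_distrib]
          refine sum_congr rfl fun e _ => ?_
          rw [hv (s e), hv (t e)]
          ring
        rw [h3, this, zero_add]
      have hκ : κ = 0 ∨ κ = 1 := by
        generalize κ = k
        revert k; decide
      rcases hκ with hκ | hκ
      · exact cons Z fun p => by rw [key, hκ, zero_mul]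
      · have hc : Cyc s t (symmDiff Z {g}) := by
          intro p
          rw [sum_symm, sum_singleton, ← z2 (p (s g) + p (t g))]
          congr 1
          rw [← one_mul (p (s g) + p (t g)), ← hκ, ← key]
          refine sum_congr rfl fun e _ => ?_
          split_ifs
          · exact ZMod.neg_eq_self_mod_two _
          · rfl
        have := cons _ hc
        rw [sum_symm, sum_singleton, hw, add_zero] at this
        convert this using 2 with e
        split_ifs with h
        · rw [mem_singleton.1 h, hw]; rfl
        · rfl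
  push Not at hz
  by_cases hneg : ∃ g, w g < 0
  swap
  · push Not at hneg
    refine ⟨0, fun g hg => ?_, fun g => by simp⟩
    have := hneg g
    simp only [Pi.zero_apply]
    omega
  obtain ⟨g, hg⟩ := hneg
  obtain ⟨J, hJ, hmin⟩ := exists_min_image
    (univ.filter fun J : Finset E => ∃ a b, Join s t J a b) (fun J => ∑ e ∈ J, w e)
    ⟨{g}, mem_filter.2 ⟨mem_univ _, s g, t g, fun p => by simp⟩⟩
  obtain ⟨a, b, hJ⟩ := (mem_filter.1 hJ).2
  have hmin' : ∀ J' a' b', Join s t J' a' b' → ∑ e ∈ J, w e ≤ ∑ e ∈ J', w e :=
    fun J' a' b' h => hmin J' (mem_filter.2 ⟨mem_univ _, a', b', h⟩)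
  have hab : a ≠ b := by
    rintro rfl
    have h1 := cons J hJ.cyc
    have h2 := hmin' {g} (s g) (t g) fun p => by simp
    rw [sum_singleton] at h2
    omega
  obtain ⟨e0, hD0, hw0, hu⟩ := claim1 w cons hz hab hJ hmin'
  let w' : E → ℤ := fun e => if D s t b e then w e - (w e).sign else w e
  have habs : ∀ e, D s t b e → |w' e| + 1 = |w e| := by
    intro e he
    have := hz e he.ne
    simp only [w', he, if_true]
    rcases lt_or_gt_of_ne this with h | h
    · rw [Int.sign_eq_neg_one_of_neg h, abs_of_nonpos (by omega), abs_of_neg h]; ring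
    · rw [Int.sign_eq_one_of_pos h, abs_of_nonneg (by omega), abs_of_pos h]; ring
  let ind : V → ℤ := fun v => if v = b then 1 else 0
  refine (ih _ ?_ s t w' rfl
    (claim2 w cons hz q hq hab hJ hmin' w' (fun e he => if_neg he) (fun e he => if_pos he))
    ⟨fun v => q v + if v = b then 1 else 0, fun e => ?_⟩).elim fun f ⟨h1, h2⟩ => ?_
  rotate_right
  · let σ : ℤ := if s e0 = b then 1 else -1
    refine ⟨fun e v => f e v + if e = e0 then σ * ind v else 0, fun g hg => ?_, fun g => ?_⟩
    · by_cases h : g = e0
      · subst h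
        have e1 : w' g = w g + 1 := by
          simp only [w', hD0, if_true, Int.sign_eq_neg_one_of_neg hw0]; ring
        have e2 := h1 g (by omega)
        have e3 : σ * ind (s g) - σ * ind (t g) = 1 := by
          unfold D at hD0
          by_cases h : s g = b
          · have : t g ≠ b := by tauto
            simp [σ, ind, h, this]
          · have : t g = b := by tauto
            simp [σ, ind, h, this]
        simp only [if_true]
        omega
      · have hD : ¬ D s t b g := fun hD => h (hu g hD (lt_of_le_of_ne hg (hz g hD.ne)))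
        have e1 : w' g = w g := if_neg hD
        have e2 := h1 g (by omega)
        simp only [h, if_false]
        omega
    · have e1 : ∀ e, |f e (s g) + (if e = e0 then σ * ind (s g) else 0) -
          (f e (t g) + if e = e0 then σ * ind (t g) else 0)| ≤
          |f e (s g) - f e (t g)| + if e = e0 then |ind (s g) - ind (t g)| else 0 := by
        intro e
        split_ifs
        · have hσ : |σ| = 1 := by simp only [σ]; split_ifs <;> simp
          have : |ind (s g) - ind (t g)| = |σ * (ind (s g) - ind (t g))| := by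
            rw [abs_mul, hσ, one_mul]
          rw [this]
          refine le_trans (le_of_eq ?_) (abs_add_le _ _)
          congr 1; ring
        · simp
      refine (sum_le_sum fun e _ => e1 e).trans ?_
      rw [sum_add_distrib, sum_ite_eq', if_pos (mem_univ _)]
      have e2 := h2 g
      by_cases hD : D s t b g
      · have e3 := habs g hD
        have e4 : |ind (s g) - ind (t g)| ≤ 1 := by
          simp only [ind]; split_ifs <;> simp
        omega
      · have e3 : w' g = w g := if_neg hD
        have e4 : |ind (s g) - ind (t g)| = 0 := by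
          simp only [ind, not_not.1 hD, sub_self, abs_zero]
        rw [e3] at e2
        omega
  · rw [← hn]
    refine Nat.add_lt_add_right (sum_lt_sum (fun e _ => ?_) ⟨e0, mem_univ _, ?_⟩) _
    · by_cases hD : D s t b e
      · have := habs e hD
        rw [← Int.natCast_natAbs, ← Int.natCast_natAbs] at this
        omega
      · have e3 : w' e = w e := if_neg hD
        rw [e3]
    · have := habs e0 hD0
      rw [← Int.natCast_natAbs, ← Int.natCast_natAbs] at this
      omega
  · by_cases hD : D s t b e
    · have e1 : ((w e).sign : ZMod 2) = 1 := by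
        rcases lt_or_gt_of_ne (hz e hD.ne) with h | h
        · rw [Int.sign_eq_neg_one_of_neg h]; decide
        · rw [Int.sign_eq_one_of_pos h]; rfl
      simp only [w', hD, if_true]
      push_cast
      rw [hq, e1]
      unfold D at hD
      by_cases h : s e = b
      · have : t e ≠ b := by tauto
        simp only [h, this, if_true, if_false]
        linear_combination - z2 1
      · have : t e = b := by tauto
        simp only [h, this, if_true, if_false]
        linear_combination - z2 1
    · have e3 : w' e = w e := if_neg hD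
      rw [e3, hq]
      simp only [not_not.1 hD]
      linear_combination - z2 (if t e = b then 1 else 0)

theorem orient [DecidableEq E] (J : Finset E) : ∀ a b, Join s t J a b →
    ∃ ε : E → ℝ, (∀ e, |ε e| = 1) ∧
      ∀ g : V → ℝ, ∑ e ∈ J, ε e * (g (s e) - g (t e)) = g a - g b := by
  induction J using Finset.strongInduction with
  | H J ih =>
    intro a b h
    have step : ∀ e ∈ J, ∀ (σ : ℝ) (a' b' : V), |σ| = 1 → Join s t (J.erase e) a' b' →
        (∀ g : V → ℝ, σ * (g (s e) - g (t e)) + (g a' - g b') = g a - g b) →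
        ∃ ε : E → ℝ, (∀ e, |ε e| = 1) ∧
          ∀ g : V → ℝ, ∑ e ∈ J, ε e * (g (s e) - g (t e)) = g a - g b := by
      intro e he σ a' b' hσ hj hg
      obtain ⟨ε, h1, h2⟩ := ih _ (erase_ssubset he) a' b' hj
      refine ⟨fun x => if x = e then σ else ε x, fun x => ?_, fun g => ?_⟩
      · simp only
        split_ifs
        · exact hσ
        · exact h1 x
      · rw [← add_sum_erase _ _ he, ← hg g, ← h2 g]
        simp only [if_true]
        congr 1
        exact sum_congr rfl fun x hx => by rw [if_neg (ne_of_mem_erase hx)]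
    by_cases hab : a = b
    · subst hab
      rcases J.eq_empty_or_nonempty with rfl | ⟨e, he⟩
      · exact ⟨fun _ => 1, by simp, by simp⟩
      · refine step e he 1 (t e) (s e) (by simp) (fun p => ?_) (fun g => by ring)
        have h1 := h p
        rw [← add_sum_erase _ _ he] at h1
        linear_combination h1 + z2 (p a) - z2 (p (s e)) - z2 (p (t e))
    · obtain ⟨e, he, hD⟩ := h.exists_edge hab
      unfold D at hD
      by_cases h1 : s e = a
      · refine step e he 1 (t e) b (by simp) (fun p => ?_) (fun g => by rw [h1]; ring)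
        have h2 := h p
        rw [← add_sum_erase _ _ he, h1] at h2
        linear_combination h2 - z2 (p (t e))
      · have h3 : t e = a := by tauto
        refine step e he (-1) (s e) b (by simp) (fun p => ?_) (fun g => by rw [h3]; ring)
        have h2 := h p
        rw [← add_sum_erase _ _ he, h3] at h2
        linear_combination h2 - z2 (p (s e))

end Pool.Agent.Lib.helper31.TJoin
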