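import Mathlib

namespace Pool.Agent.Lib.helper31.TwistA

open Real Set Filter Topology

/-- The identity of the circle is not null-homotopic. -/
lemma id_not_null : ¬ (ContinuousMap.id UnitAddCircle).Nullhomotopic := by
  rintro ⟨y, ⟨H⟩⟩
  obtain ⟨y0, rfl⟩ := QuotientAddGroup.mk_surjective y
  have cov := AddCircle.isCoveringMap_coe (1 : ℝ)
  have H0 : ∀ a, H.symm.toContinuousMap (0, a) =
      ((ContinuousMap.const UnitAddCircle y0 a : ℝ) : UnitAddCircle) := fun a => by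
    simp
  let G := cov.liftHomotopy H.symm.toContinuousMap (ContinuousMap.const _ y0) H0
  have hG : ∀ a, ((G (1, a) : ℝ) : UnitAddCircle) = a := fun a => by
    have := congr_fun (cov.liftHomotopy_lifts H.symm.toContinuousMap (ContinuousMap.const _ y0) H0) (1, a)
    exact this.trans (H.symm.apply_one a)
  have hc : Continuous fun t : ℝ => G (1, (t : UnitAddCircle)) :=
    G.continuous.comp (continuous_const.prodMk (AddCircle.continuous_mk' 1))
  have key := cov.eq_of_comp_eq (g₁ := fun t : ℝ => G (1, (t : UnitAddCircle)))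
    (g₂ := fun t : ℝ => t + G (1, ((0 : ℝ) : UnitAddCircle))) hc (by fun_prop)
    (by
      funext t
      simp only [Function.comp_apply, hG, AddCircle.coe_add]
      simp) 0 (by simp)
  have h1 := congr_fun key 1
  have h2 : ((1 : ℝ) : UnitAddCircle) = ((0 : ℝ) : UnitAddCircle) := by
    simp [AddCircle.coe_period]
  simp only [h2] at h1
  linarith

/-- one-sided squeeze -/
lemma squeeze (g h W : ℝ → ℝ) (β μ : ℝ) (hμ0 : 0 ≤ μ) (hμ : μ < 1) (hβ : 0 < β)
    (hg : StrictMono g) (hh : StrictMono h) (hhg : ∀ x, h (g x) = x) (hgh : ∀ x, g (h x) = x)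
    (hh1 : ∀ (x : ℝ) (k : ℤ), h (x + k) = h x + k)
    (hW : ∀ x, g x + h x = W x)
    (hL : ∀ x y, -β ≤ x → x ≤ y → y ≤ β → W y - W x ≤ μ * (y - x)) :
    g β - g (-β) ≤ 1 - 2 * β := by
  by_contra hcon
  push Not at hcon
  set a := g (-β) with ha
  set k : ℤ := ⌊a - β⌋ + 1 with hk
  have hk1 : a < k + β := by
    have := Int.lt_floor_add_one (a - β); push_cast [hk]; linarith
  have hk2 : (k : ℝ) - β < g β := by
    have := Int.floor_le (a - β); push_cast [hk]; linarith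
  have hab : a < g β := hg (by linarith)
  set z1 := max a (k - β) with hz1
  set z2 := min (g β) (k + β) with hz2
  have h12 : z1 < z2 := max_lt (lt_min hab hk1) (lt_min hk2 (by linarith))
  have x1lo : -β ≤ h z1 := by
    rw [← hhg (-β)]; exact hh.monotone (le_max_left _ _)
  have x2hi : h z2 ≤ β := by
    conv_rhs => rw [← hhg β]
    exact hh.monotone (min_le_left _ _)
  have x12 : h z1 < h z2 := hh h12
  have e1 := hL _ _ x1lo x12.le x2hi
  rw [← hW, ← hW, hgh, hgh] at e1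
  have e2 := hh x12
  have z1lo : -β ≤ z1 - k := by have := le_max_right a (k - β); linarith
  have z2hi : z2 - k ≤ β := by have := min_le_right (g β) (k + β); linarith
  have e3 := hL _ _ z1lo (by linarith : z1 - k ≤ z2 - k) z2hi
  rw [← hW, ← hW] at e3
  have e4 := hg (by linarith : z1 - k < z2 - k)
  have e5 := hh1 (z1 - k) k
  have e6 := hh1 (z2 - k) k
  rw [sub_add_cancel] at e5 e6
  have f1 : z2 - z1 ≤ μ * (h z2 - h z1) := by linarith
  have f2 : h z2 - h z1 ≤ μ * (z2 - z1) := by nlinarith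
  nlinarith

lemma no_pair (g h W : ℝ → ℝ) (β μ : ℝ) (hμ0 : 0 ≤ μ) (hμ : μ < 1) (hβ : 2 / 5 < β)
    (hg : StrictMono g) (hh : StrictMono h) (hhg : ∀ x, h (g x) = x) (hgh : ∀ x, g (h x) = x)
    (hg1 : ∀ (x : ℝ) (k : ℤ), g (x + k) = g x + k)
    (hh1 : ∀ (x : ℝ) (k : ℤ), h (x + k) = h x + k)
    (hW : ∀ x, g x + h x = W x)
    (hL : ∀ x y, -β ≤ x → x ≤ y → y ≤ β → W y - W x ≤ μ * (y - x))
    (hlow : β ≤ W β - W (-β)) : False := by
  have a := squeeze g h W β μ hμ0 hμ (by linarith) hg hh hhg hgh hh1 hW hL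
  have b := squeeze h g W β μ hμ0 hμ (by linarith) hh hg hgh hhg hg1
    (fun x => by rw [add_comm]; exact hW x) hL
  rw [← hW, ← hW] at hlow
  linarith

/-- The lift of a Moebius map of the circle. -/
noncomputable def K (s t : ℝ) : ℝ :=
  t + arctan (s * sin (2 * π * t) / (1 - s * cos (2 * π * t))) / π

noncomputable def D (s t : ℝ) : ℝ := 1 - 2 * s * cos (2 * π * t) + s ^ 2

variable {s : ℝ}

lemma den_pos (h0 : 0 ≤ s) (h1 : s < 1) (t : ℝ) : 0 < 1 - s * cos (2 * π * t) := by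
  have := cos_le_one (2 * π * t); nlinarith

lemma D_pos (h0 : 0 ≤ s) (h1 : s < 1) (t : ℝ) : 0 < D s t := by
  have := cos_le_one (2 * π * t); unfold D; nlinarith

lemma K_deriv (h0 : 0 ≤ s) (h1 : s < 1) (t : ℝ) :
    HasDerivAt (K s) ((1 - s ^ 2) / D s t) t := by
  have hd := den_pos h0 h1 t
  have hD := D_pos h0 h1 t
  have hl : HasDerivAt (fun t : ℝ => 2 * π * t) (2 * π) t := by
    simpa using (hasDerivAt_id t).const_mul (2 * π)
  have hs := (hl.sin).const_mul s
  have hc := ((hl.cos).const_mul s).const_sub 1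
  have hq := ((hs.div hc hd.ne').arctan.div_const π).const_add 0
  have := (hasDerivAt_id t).add ((hs.div hc hd.ne').arctan.div_const π)
  refine HasDerivAt.congr_deriv (f' := _) this ?_
  have hp := pi_pos
  have sc := sin_sq_add_cos_sq (2 * π * t)
  simp only [Pi.div_apply]
  set S := sin (2 * π * t)
  set C := cos (2 * π * t)
  have hDe : (1 - s * C) ^ 2 + (s * S) ^ 2 = D s t := by
    unfold D; linear_combination s ^ 2 * sc
  have e1 : 1 + (s * S / (1 - s * C)) ^ 2 = D s t / (1 - s * C) ^ 2 := by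
    rw [← hDe]; field_simp
  rw [e1]
  field_simp
  unfold D
  linear_combination (-2 * s ^ 2) * sc

lemma K_contDiff (h0 : 0 ≤ s) (h1 : s < 1) : ContDiff ℝ ⊤ (K s) := by
  have h : ContDiff ℝ ⊤ fun t : ℝ => s * sin (2 * π * t) / (1 - s * cos (2 * π * t)) := by
    refine ContDiff.div ?_ ?_ fun t => (den_pos h0 h1 t).ne'
    · exact contDiff_const.mul (contDiff_sin.comp (contDiff_const.mul contDiff_id))
    · exact contDiff_const.sub (contDiff_const.mul (contDiff_cos.comp (contDiff_const.mul contDiff_id)))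
  have h2 := contDiff_id.add ((contDiff_arctan.comp h).mul (contDiff_const (c := π⁻¹)))
  exact h2

lemma K_strictMono (h0 : 0 ≤ s) (h1 : s < 1) : StrictMono (K s) :=
  strictMono_of_hasDerivAt_pos (K_deriv h0 h1) fun t =>
    div_pos (by nlinarith) (D_pos h0 h1 t)

lemma K_add_int (s t : ℝ) (k : ℤ) : K s (t + k) = K s t + k := by
  have e : 2 * π * (t + k) = 2 * π * t + k * (2 * π) := by ring
  unfold K; rw [e, sin_add_int_mul_two_pi, cos_add_int_mul_two_pi]; ring

lemma K_neg (s t : ℝ) : K s (-t) = - K s t := by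
  unfold K
  rw [mul_neg, sin_neg, cos_neg, mul_neg, neg_div, arctan_neg]; ring

lemma K_sub_abs (s t : ℝ) : |K s t - t| ≤ 1 / 2 := by
  unfold K
  have hp := pi_pos
  have a := arctan_lt_pi_div_two (s * sin (2 * π * t) / (1 - s * cos (2 * π * t)))
  have b := neg_pi_div_two_lt_arctan (s * sin (2 * π * t) / (1 - s * cos (2 * π * t)))
  rw [add_sub_cancel_left, abs_le]
  constructor
  · rw [le_div_iff₀ hp]; linarith
  · rw [div_le_iff₀ hp]; linarith

lemma K_surj (h0 : 0 ≤ s) (h1 : s < 1) : Function.Surjective (K s) := by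
  intro y
  have hc := (K_contDiff h0 h1).continuous
  have a := abs_le.1 (K_sub_abs s (y - 1))
  have b := abs_le.1 (K_sub_abs s (y + 1))
  obtain ⟨x, -, hx⟩ := intermediate_value_Icc (by linarith : y - 1 ≤ y + 1) hc.continuousOn
    (show y ∈ Icc (K s (y - 1)) (K s (y + 1)) from ⟨by linarith, by linarith⟩)
  exact ⟨x, hx⟩

lemma exists_L (h0 : 0 ≤ s) (h1 : s < 1) : ∃ L : ℝ → ℝ, ContDiff ℝ ⊤ L ∧
    (∀ t, L (K s t) = t) ∧ ∀ x, K s (L x) = x := by
  let e : ℝ ≃ₜ ℝ := ((K_strictMono h0 h1).orderIsoOfSurjective _ (K_surj h0 h1)).toHomeomorph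
  have he : (e : ℝ → ℝ) = K s := rfl
  refine ⟨e.symm, ?_, fun t => e.symm_apply_apply t, fun x => e.apply_symm_apply x⟩
  refine e.contDiff_symm_deriv (f' := fun t => (1 - s ^ 2) / D s t) (fun t => ?_)
    (fun t => he ▸ K_deriv h0 h1 t) (he ▸ K_contDiff h0 h1)
  exact (div_pos (by nlinarith) (D_pos h0 h1 t)).ne'

lemma params (ρ : ℝ) (hρ : cos (2 * π * ρ) < 1) : ∃ s τ : ℝ, 0 ≤ s ∧ s < 1 ∧ 0 < τ ∧
    2 / 5 < K s τ ∧ ∀ t, |t| ≤ τ → 4 * D s t ≤ D s (t + ρ) ∧ 4 * D s t ≤ D s (t - ρ) := by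
  have hp := pi_pos
  have hp3 := pi_gt_three
  set c := 1 - cos (2 * π * ρ) with hc
  have c0 : 0 < c := by linarith
  have c2 : c ≤ 2 := by have := neg_one_le_cos (2 * π * ρ); linarith
  set u := c / 20 with hu
  have u0 : 0 < u := by positivity
  have u1 : u ≤ 1 / 10 := by linarith
  have uu : u ^ 2 ≤ 1 / 100 := by nlinarith
  have uu0 : 0 < u ^ 2 := by positivity
  refine ⟨1 - u ^ 2 / 2, u / (2 * π), by linarith, by linarith, by positivity, ?_, ?_⟩
  · unfold K
    have e : 2 * π * (u / (2 * π)) = u := by field_simp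
    rw [e]
    have hs : u / 2 ≤ sin u := by
      have := sin_gt_sub_cube u0; nlinarith
    have hcs : 1 - u ^ 2 / 2 ≤ cos u := one_sub_sq_div_two_le_cos
    have hc1 := cos_le_one u
    have hd : 0 < 1 - (1 - u ^ 2 / 2) * cos u := by nlinarith
    have hd2 : 1 - (1 - u ^ 2 / 2) * cos u ≤ u ^ 2 := by nlinarith
    have hx : 4 ≤ (1 - u ^ 2 / 2) * sin u / (1 - (1 - u ^ 2 / 2) * cos u) := by
      rw [le_div_iff₀ hd]; nlinarith
    have h4 : arctan (4⁻¹ : ℝ) ≤ 4⁻¹ := by
      have := le_tan (x := arctan 4⁻¹) (arctan_nonneg.2 (by norm_num)) (arctan_lt_pi_div_two _)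
      rwa [tan_arctan] at this
    rw [arctan_inv_of_pos (by norm_num)] at h4
    have h5 := arctan_mono hx
    have h6 : 2 / 5 ≤ arctan ((1 - u ^ 2 / 2) * sin u / (1 - (1 - u ^ 2 / 2) * cos u)) / π := by
      rw [le_div_iff₀ hp]; linarith
    have : 0 < u / (2 * π) := by positivity
    linarith
  · intro t ht
    have ht2 : |2 * π * t| ≤ u := by
      rw [abs_mul, abs_of_pos (by positivity : 0 < 2 * π)]
      rwa [le_div_iff₀' (by positivity)] at ht
    have hct : 1 - u ^ 2 / 2 ≤ cos (2 * π * t) := by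
      have h1 : 1 - (2 * π * t) ^ 2 / 2 ≤ cos (2 * π * t) := one_sub_sq_div_two_le_cos
      have h2 : (2 * π * t) ^ 2 ≤ u ^ 2 := by
        rw [← sq_abs]; exact pow_le_pow_left₀ (abs_nonneg _) ht2 2
      linarith
    have hD : D (1 - u ^ 2 / 2) t ≤ 2 * u ^ 2 := by unfold D; nlinarith
    have l1 : cos (2 * π * (t + ρ)) ≤ 1 - c / 2 := by
      have := abs_cos_sub_cos_le (2 * π * (t + ρ)) (2 * π * ρ)
      rw [show 2 * π * (t + ρ) - 2 * π * ρ = 2 * π * t by ring] at this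
      have := (abs_le.1 (this.trans ht2)).2
      linarith
    have l2 : cos (2 * π * (t - ρ)) ≤ 1 - c / 2 := by
      have := abs_cos_sub_cos_le (2 * π * (t - ρ)) (-(2 * π * ρ))
      rw [show 2 * π * (t - ρ) - -(2 * π * ρ) = 2 * π * t by ring, cos_neg] at this
      have := (abs_le.1 (this.trans ht2)).2
      linarith
    have hu2 : 16 * u ^ 2 ≤ c := by nlinarith
    constructor
    · have : c / 2 ≤ D (1 - u ^ 2 / 2) (t + ρ) := by unfold D; nlinarith
      linarith
    · have : c / 2 ≤ D (1 - u ^ 2 / 2) (t - ρ) := by unfold D; nlinarith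
      linarith

lemma incr (h0 : 0 ≤ s) (h1 : s < 1) {ρ τ : ℝ}
    (h : ∀ t, |t| ≤ τ → 4 * D s t ≤ D s (t + ρ) ∧ 4 * D s t ≤ D s (t - ρ))
    {a b : ℝ} (ha : -τ ≤ a) (hab : a ≤ b) (hb : b ≤ τ) :
    (K s (b + ρ) + K s (b - ρ)) - (K s (a + ρ) + K s (a - ρ)) ≤ (K s b - K s a) / 2 := by
  have hd : ∀ t, HasDerivAt (fun t => K s t / 2 - (K s (t + ρ) + K s (t - ρ)))
      ((1 - s ^ 2) / D s t / 2 - ((1 - s ^ 2) / D s (t + ρ) + (1 - s ^ 2) / D s (t - ρ))) t :=
    fun t => ((K_deriv h0 h1 t).div_const 2).sub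
      (((K_deriv h0 h1 (t + ρ)).comp_add_const t ρ).add ((K_deriv h0 h1 (t - ρ)).comp_sub_const t ρ))
  have hm : MonotoneOn (fun t => K s t / 2 - (K s (t + ρ) + K s (t - ρ))) (Icc (-τ) τ) := by
    refine monotoneOn_of_hasDerivWithinAt_nonneg (convex_Icc _ _)
      (fun t _ => (hd t).continuousAt.continuousWithinAt)
      (fun t _ => (hd t).hasDerivWithinAt) fun t ht => ?_
    have ht' := interior_subset ht
    obtain ⟨k1, k2⟩ := h t (abs_le.2 ht')
    have p0 := D_pos h0 h1 t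
    have q : 0 ≤ 1 - s ^ 2 := by nlinarith
    have a1 : (1 - s ^ 2) / D s (t + ρ) ≤ (1 - s ^ 2) / (4 * D s t) :=
      div_le_div_of_nonneg_left q (by positivity) k1
    have a2 : (1 - s ^ 2) / D s (t - ρ) ≤ (1 - s ^ 2) / (4 * D s t) :=
      div_le_div_of_nonneg_left q (by positivity) k2
    have a3 : (1 - s ^ 2) / D s t / 2 = 2 * ((1 - s ^ 2) / (4 * D s t)) := by
      field_simp; ring
    linarith
  have := hm ⟨ha, hab.trans hb⟩ ⟨ha.trans hab, hb⟩ hab
  simp only at this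
  linarith

lemma golden (m n : ℕ) (hn : 0 < n) :
    (1 / 4) / (n : ℝ) ^ (3 : ℝ) < |(√5 - 1) / 2 - (m : ℝ) / n| := by
  have h5 : √5 ^ 2 = 5 := sq_sqrt (by norm_num)
  have h5a : 2 < √5 := lt_sqrt_of_sq_lt (by norm_num)
  have h5b : √5 < 3 := (sqrt_lt' (by norm_num)).2 (by norm_num)
  set σ := (√5 - 1) / 2 with hσ
  have hσ2 : σ ^ 2 + σ - 1 = 0 := by rw [hσ]; nlinarith
  have hn1 : (1 : ℝ) ≤ n := by exact_mod_cast hn
  have e3 : (n : ℝ) ^ (3 : ℝ) = n ^ 3 := by exact_mod_cast rpow_natCast (n : ℝ) 3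
  rw [e3]
  set x : ℝ := m / n with hx
  have hxm : (m : ℝ) = x * n := by rw [hx]; field_simp
  have x0 : 0 ≤ x := by positivity
  have hint : ((m : ℤ) ^ 2 + m * n - n ^ 2) ≠ 0 := by
    intro h
    have h' : ((m : ℝ) ^ 2 + m * n - n ^ 2) = 0 := by exact_mod_cast h
    have hsq : (√5 * n) ^ 2 = (2 * m + n) ^ 2 := by rw [mul_pow, h5]; linarith
    have hs : √5 * n = 2 * m + n := by
      rwa [sq_eq_sq₀ (by positivity) (by positivity)] at hsq
    have hirr : Irrational √(5 : ℕ) := (by norm_num : Nat.Prime 5).irrational_sqrt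
    apply hirr
    refine ⟨(2 * m + n) / n, ?_⟩
    push_cast
    rw [div_eq_iff (by positivity)]; exact hs.symm
  have h1 : (1 : ℝ) ≤ |(m : ℝ) ^ 2 + m * n - n ^ 2| := by
    have := Int.one_le_abs hint
    exact_mod_cast this
  have hf : (m : ℝ) ^ 2 + m * n - n ^ 2 = -((σ - x) * ((x + σ + 1) * n ^ 2)) := by
    rw [hxm]; linear_combination (n : ℝ) ^ 2 * hσ2
  have σ0 : 0 < σ := by rw [hσ]; linarith
  have σ1 : σ < 1 := by rw [hσ]; linarith
  rw [hf, abs_neg, abs_mul, abs_of_pos (by positivity : 0 < (x + σ + 1) * (n : ℝ) ^ 2)] at h1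
  rw [div_lt_iff₀ (by positivity)]
  have n23 : (n : ℝ) ^ 2 ≤ n ^ 3 := pow_le_pow_right₀ hn1 (by norm_num)
  have n2 : (1 : ℝ) ≤ n ^ 2 := one_le_pow₀ hn1
  by_cases hb : 1 ≤ |σ - x|
  · nlinarith
  · push Not at hb
    have hx2 : x + σ + 1 < 4 := by have := (abs_lt.1 hb).1; linarith
    have a0 := abs_nonneg (σ - x)
    have : |σ - x| * ((x + σ + 1) * n ^ 2) ≤ |σ - x| * (4 * n ^ 3) :=
      mul_le_mul_of_nonneg_left (by nlinarith) a0
    have hne : |σ - x| * ((x + σ + 1) * n ^ 2) < |σ - x| * (4 * n ^ 3) := by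
      have apos : 0 < |σ - x| := by
        by_contra h; push Not at h
        have : |σ - x| = 0 := le_antisymm h a0
        rw [this] at h1; linarith
      exact mul_lt_mul_of_pos_left (by nlinarith) apos
    linarith

end Pool.Agent.Lib.helper31.TwistA
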