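import Pool.Agent.Lib.helper31.Carl
import Pool.Agent.Lib.helper31.SATa

set_option autoImplicit false

namespace Pool.Agent.H31.H2

open Complex Metric Set Filter Topology MeasureTheory ComplexConjugate Pool.Agent.H31.Hardy
open scoped InnerProductSpace

lemma bi {F : ℝ → ℝ} (h : Measurable F) {C : ℝ} (hC : ∀ θ, |F θ| ≤ C) :
    IntervalIntegrable F volume 0 (2 * Real.pi) :=
  (intervalIntegrable_const (c := C)).mono_fun' h.aestronglyMeasurable (Eventually.of_forall hC)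

lemma dense_nice {P : H → Prop} (hP : IsClosed {f | P f}) (h : ∀ f (g : ℂ → ℂ),
    ContinuousOn g (closedBall 0 1) → (∀ z ∈ ball (0 : ℂ) 1, ev f z = g z) → P f) (f : H) : P f := by
  have d : Dense (Submodule.span ℂ (K '' ball 0 1) : Set H) :=
    Submodule.dense_iff_topologicalClosure_eq_top.2 (Submodule.topologicalClosure_eq_top_iff.2
      ((Submodule.eq_bot_iff _).2 fun f hf => ev_ext fun z hz => by
        rw [← inner_K hz, hf _ (Submodule.subset_span ⟨z, hz, rfl⟩)]; simp [ev]))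
  refine d.induction (fun f hf => ?_) hP f
  suffices ∃ g : ℂ → ℂ, ContinuousOn g (closedBall 0 1) ∧ ∀ z ∈ ball (0 : ℂ) 1, ev f z = g z from
    this.elim fun g hg => h f g hg.1 hg.2
  induction hf using Submodule.span_induction with
  | mem x hx =>
    obtain ⟨a, ha, rfl⟩ := hx
    exact ⟨fun z => (1 - conj a * z)⁻¹, ContinuousOn.inv₀ (by fun_prop) fun z hz => norm_pos_iff.1
      (den_pos (mem_ball_zero_iff.1 ha) (mem_closedBall_zero_iff.1 hz)), fun z hz => ev_K ha hz⟩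
  | zero => exact ⟨fun _ => 0, continuousOn_const, fun z _ => by simp [ev]⟩
  | add x y _ _ hx hy =>
    obtain ⟨g, a1, a2⟩ := hx
    obtain ⟨k, b1, b2⟩ := hy
    exact ⟨fun z => g z + k z, a1.add b1, fun z hz => by rw [ev_add _ _ hz, a2 z hz, b2 z hz]⟩
  | smul c x _ hx =>
    obtain ⟨g, a1, a2⟩ := hx
    exact ⟨fun z => c * g z, continuousOn_const.mul a1, fun z hz => by rw [ev_smul _ _ hz, a2 z hz]⟩

lemma Pk_le {a z : ℂ} (ha : ‖a‖ < 1) (hz : ‖z‖ ≤ 1) : Pk a z ≤ 1 / (1 - ‖a‖) ^ 2 :=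
  div_le_div₀ zero_le_one (by linarith [sq_nonneg ‖a‖]) (pow_pos (sub_pos.2 ha) 2)
    (pow_le_pow_left₀ (sub_pos.2 ha).le (den_le hz) 2)

lemma Pk_meas (a : ℂ) : Measurable (Pk a) := by unfold Pk; fun_prop

section main

variable {φ : ℂ → ℂ} (hm : MapsTo φ (ball (0 : ℂ) 1) (ball (0 : ℂ) 1)) {b : ℝ → ℂ}
  (bm : Measurable b) (b1 : ∀ θ, ‖b θ‖ ≤ 1) (hb : ∀ᵐ θ : ℝ, Tendsto
    (fun m : ℕ => φ (circleMap 0 (Real.exp (-(1 / ((m : ℝ) + 1)))) θ)) atTop (𝓝 (b θ)))
  {C S : H →L[ℂ] H} (hC : ∀ f, ∀ z ∈ ball (0 : ℂ) 1, ev (C f) z = ev f (φ z))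
  (hS : ∀ f, ∀ z ∈ ball (0 : ℂ) 1, ev (S f) z = z * ev f z)

include bm b1 in
lemma gb {g : ℂ → ℂ} (hg : ContinuousOn g (closedBall 0 1)) :
    Measurable (fun θ => ‖g (b θ)‖ ^ 2) ∧ ∃ M, ∀ z, ‖z‖ ≤ 1 → ‖g z‖ ^ 2 ≤ M := by
  obtain ⟨M, hM⟩ := (isCompact_closedBall (0 : ℂ) 1).exists_bound_of_continuousOn hg
  exact ⟨((continuousOn_iff_continuous_restrict.1 hg).measurable.comp (bm.subtype_mk
    (h := fun θ => mem_closedBall_zero_iff.2 (b1 θ)))).norm.pow_const 2, M ^ 2, fun z hz =>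
      pow_le_pow_left₀ (norm_nonneg _) (hM z (mem_closedBall_zero_iff.2 hz)) 2⟩

include hm bm b1 hb hC hS in
lemma form {f : H} {g : ℂ → ℂ} (hg : ContinuousOn g (closedBall 0 1))
    (e : ∀ z ∈ ball (0 : ℂ) 1, ev f z = g z) (n : ℕ) : ‖C ((S ^ n) f)‖ ^ 2
      = (2 * Real.pi)⁻¹ * ∫ θ in (0 : ℝ)..2 * Real.pi, (‖b θ‖ ^ n) ^ 2 * ‖g (b θ)‖ ^ 2 := by
  obtain ⟨-, M, hM⟩ := gb bm b1 hg
  have e1 : ∀ z ∈ ball (0 : ℂ) 1, ev ((S ^ n) f) z = z ^ n * g z := fun z hz => by
    induction n with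
    | zero => simpa using e z hz
    | succ n ih => rw [pow_succ', ContinuousLinearMap.mul_apply, hS _ z hz, ih]; ring
  have m := fun m θ => cm_mem (Real.exp_pos _) (rlt m) θ
  have e2 : ∀ (k : ℕ) θ, ‖ev (C ((S ^ n) f)) (circleMap 0 (Real.exp (-(1 / ((k : ℝ) + 1)))) θ)‖ ^ 2
      = (‖φ (circleMap 0 (Real.exp (-(1 / ((k : ℝ) + 1)))) θ)‖ ^ n) ^ 2
        * ‖g (φ (circleMap 0 (Real.exp (-(1 / ((k : ℝ) + 1)))) θ))‖ ^ 2 := fun k θ => by
    rw [hC _ _ (m k θ), e1 _ (hm (m k θ)), norm_mul, norm_pow, mul_pow]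
  refine tendsto_nhds_unique (ms_ev _) (SAT.dct M (Eventually.of_forall fun k =>
    ((cm_cont (ev_diff _) (Real.exp_pos _) (rlt k)).norm.pow 2).aestronglyMeasurable)
    (Eventually.of_forall fun k => Eventually.of_forall fun θ => ?_) ?_)
  · have := (mem_ball_zero_iff.1 (hm (m k θ))).le
    rw [e2, abs_of_nonneg (by positivity)]
    exact (mul_le_of_le_one_left (by positivity) (pow_le_one₀ (by positivity)
      (pow_le_one₀ (norm_nonneg _) this))).trans (hM _ this)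
  · filter_upwards [hb] with θ h
    simp only [e2]
    exact ((h.norm.pow n).pow 2).mul (((hg _ (mem_closedBall_zero_iff.2 (b1 θ))).tendsto.comp
      (tendsto_nhdsWithin_iff.2 ⟨h, Eventually.of_forall fun k =>
        ball_subset_closedBall (hm (m k θ))⟩)).norm.pow 2)

include bm b1 in
lemma emb {δ c : ℝ} (c0 : 0 < c) (hc : ∀ a, ‖a‖ < 1 → ∫ θ in (0 : ℝ)..2 * Real.pi,
      (if δ < ‖b θ‖ ∧ ‖b θ‖ < 1 then Pk a (b θ) else 0) ≤ c) {f : H} {g : ℂ → ℂ}
    (hg : ContinuousOn g (closedBall 0 1)) (e : ∀ z ∈ ball (0 : ℂ) 1, ev f z = g z) :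
    ∫ θ in (0 : ℝ)..2 * Real.pi, (if δ < ‖b θ‖ ∧ ‖b θ‖ < 1 then ‖g (b θ)‖ ^ 2 else 0)
      ≤ 9 * c * ‖f‖ ^ 2 := by
  obtain ⟨gm, M, hM⟩ := gb bm b1 hg
  have hp : (0 : ℝ) ≤ 2 * Real.pi := by positivity
  have s1 : ∀ ρ, MeasurableSet {θ | δ < ‖b θ‖ ∧ ‖b θ‖ ≤ ρ} := fun ρ =>
    (measurableSet_lt measurable_const bm.norm).inter (measurableSet_le bm.norm measurable_const)
  have s2 : MeasurableSet {θ | δ < ‖b θ‖ ∧ ‖b θ‖ < 1} :=
    (measurableSet_lt measurable_const bm.norm).inter (measurableSet_lt bm.norm measurable_const)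
  have h1 : ∀ ρ, 0 < ρ → ρ < 1 → ∫ θ in (0 : ℝ)..2 * Real.pi,
      (if δ < ‖b θ‖ ∧ ‖b θ‖ ≤ ρ then ‖g (b θ)‖ ^ 2 else 0) ≤ 9 * c * ‖f‖ ^ 2 := by
    intro ρ r0 r1
    set q : ℝ → closedBall (0 : ℂ) ρ := fun θ => ⟨if ‖b θ‖ ≤ ρ then b θ else 0, by
      split_ifs with h
      exacts [mem_closedBall_zero_iff.2 h, mem_closedBall_self r0.le]⟩ with hq
    have qm : Measurable q := Measurable.subtype_mk
      (Measurable.ite (measurableSet_le bm.norm measurable_const) bm measurable_const)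
    have tr : ∀ G : ℂ → ℝ, (Continuous fun x : closedBall (0 : ℂ) ρ => G x) →
        ∫ x, G x.1 ∂((volume.restrict (Ioc 0 (2 * Real.pi))).restrict
          {θ | δ < ‖b θ‖ ∧ ‖b θ‖ ≤ ρ}).map q = ∫ θ in (0 : ℝ)..2 * Real.pi,
          (if δ < ‖b θ‖ ∧ ‖b θ‖ ≤ ρ then G (b θ) else 0) := fun G hG => by
      rw [integral_map qm.aemeasurable hG.aestronglyMeasurable, ← integral_indicator (s1 ρ),
        intervalIntegral.integral_of_le hp]
      refine integral_congr_ae (Eventually.of_forall fun θ => ?_)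
      by_cases h : δ < ‖b θ‖ ∧ ‖b θ‖ ≤ ρ <;> simp [indicator, h, hq]
    have p1 : ∀ x : closedBall (0 : ℂ) ρ, ‖x.1‖ < 1 := fun x =>
      (mem_closedBall_zero_iff.1 x.2).trans_lt r1
    have := carleson (((volume.restrict (Ioc 0 (2 * Real.pi))).restrict
      {θ | δ < ‖b θ‖ ∧ ‖b θ‖ ≤ ρ}).map q) continuous_subtype_val p1 c0 (fun a ha => by
        have k := fun θ => Pk_nonneg ha.le (b θ)
        have k2 := fun θ => Pk_le ha (b1 θ)
        rw [tr (Pk a) (Continuous.div (by fun_prop) (by fun_prop) fun x =>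
          pow_ne_zero _ (den_pos ha (p1 x).le).ne')]
        refine le_trans (intervalIntegral.integral_mono_on hp
          (bi (Measurable.ite (s1 ρ) ((Pk_meas a).comp bm) measurable_const)
            (C := 1 / (1 - ‖a‖) ^ 2) fun θ => ?_)
          (bi (Measurable.ite s2 ((Pk_meas a).comp bm) measurable_const)
            (C := 1 / (1 - ‖a‖) ^ 2) fun θ => ?_) fun θ _ => ?_) (hc a ha)
        · split_ifs
          exacts [(abs_of_nonneg (k θ)).trans_le (k2 θ), by rw [abs_zero]; positivity]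
        · split_ifs
          exacts [(abs_of_nonneg (k θ)).trans_le (k2 θ), by rw [abs_zero]; positivity]
        · split_ifs with h h2
          exacts [le_rfl, absurd ⟨h.1, h.2.trans_lt r1⟩ h2, k θ, le_rfl]) f
    rw [tr (fun z => ‖ev f z‖ ^ 2) (((ev_diff f).continuousOn.comp_continuous continuous_subtype_val
      fun x => mem_ball_zero_iff.2 (p1 x)).norm.pow 2)] at this
    refine le_trans (le_of_eq (intervalIntegral.integral_congr fun θ _ => ?_)) this
    split_ifs with h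
    exacts [by rw [e _ (mem_ball_zero_iff.2 (h.2.trans_lt r1))], rfl]
  have M0 : 0 ≤ M := (sq_nonneg _).trans (hM 0 (by simp))
  have h2 := SAT.dct (l := atTop) (F := fun (m : ℕ) θ => if δ < ‖b θ‖ ∧ ‖b θ‖
    ≤ Real.exp (-(1 / ((m : ℝ) + 1))) then ‖g (b θ)‖ ^ 2 else 0)
    (f := fun θ => if δ < ‖b θ‖ ∧ ‖b θ‖ < 1 then ‖g (b θ)‖ ^ 2 else 0) M
    (Eventually.of_forall fun m => (Measurable.ite (s1 _) gm measurable_const).aestronglyMeasurable)
    (Eventually.of_forall fun m => Eventually.of_forall fun θ => by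
      split_ifs
      exacts [(abs_of_nonneg (by positivity)).trans_le (hM _ (b1 θ)), by rwa [abs_zero]])
    (Eventually.of_forall fun θ => by
      refine tendsto_const_nhds.congr' ?_
      by_cases h : ‖b θ‖ < 1
      · filter_upwards [rlim.eventually (lt_mem_nhds h)] with m hm
        simp only [h, hm.le]
      · exact Eventually.of_forall fun m => by
          simp only [h, show ¬ ‖b θ‖ ≤ _ from fun h2 => h (h2.trans_lt (rlt m))])
  exact le_of_mul_le_mul_left (le_of_tendsto' h2 fun m => mul_le_mul_of_nonneg_left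
    (h1 _ (Real.exp_pos _) (rlt m)) (by positivity)) (by positivity)

lemma quad (T : H →L[ℂ] H) (x : H) : (⟪(star T * T) x, x⟫_ℂ).re = ‖T x‖ ^ 2 := by
  rw [ContinuousLinearMap.mul_apply, ContinuousLinearMap.star_eq_adjoint,
    ContinuousLinearMap.adjoint_inner_left]
  exact inner_self_eq_norm_sq (𝕜 := ℂ) _

include hm bm b1 hb hC hS in
theorem uat_of (h : Tendsto (fun a : ℂ => ∫ θ in (0 : ℝ)..2 * Real.pi,
      (if ‖b θ‖ < 1 then Pk a (b θ) else 0)) (comap (fun a : ℂ => ‖a‖) (𝓝[<] 1)) (𝓝 0)) :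
    CauchySeq fun n : ℕ => star (C * S ^ n) * (C * S ^ n) := by
  have hp : (0 : ℝ) < 2 * Real.pi := by positivity
  have s2 : ∀ δ : ℝ, MeasurableSet {θ | δ < ‖b θ‖ ∧ ‖b θ‖ < 1} := fun δ =>
    (measurableSet_lt measurable_const bm.norm).inter (measurableSet_lt bm.norm measurable_const)
  rw [Metric.cauchySeq_iff]
  intro ε hε
  obtain ⟨δ, δ0, δ1, hδ⟩ : ∃ δ : ℝ, 0 < δ ∧ δ < 1 ∧ ∀ a, ‖a‖ < 1 → ∫ θ in (0 : ℝ)..2 * Real.pi,
      (if δ < ‖b θ‖ ∧ ‖b θ‖ < 1 then Pk a (b θ) else 0) ≤ ε / 9 := by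
    have h1 := h.eventually (gt_mem_nhds (show 0 < ε / 9 by positivity))
    rw [eventually_comap] at h1
    obtain ⟨r, r1, hr⟩ := (mem_nhdsLT_iff_exists_Ioo_subset).1 h1
    have r2 : 0 < 1 - r := sub_pos.2 r1
    have h2 := SAT.dct (l := atTop) (F := fun (m : ℕ) θ => if Real.exp (-(1 / ((m : ℝ) + 1)))
      < ‖b θ‖ ∧ ‖b θ‖ < 1 then 1 / (1 - r) ^ 2 else 0) (f := fun _ => 0) (1 / (1 - r) ^ 2)
      (Eventually.of_forall fun m =>
        (Measurable.ite (s2 _) measurable_const measurable_const).aestronglyMeasurable)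
      (Eventually.of_forall fun m => Eventually.of_forall fun θ => by
        split_ifs
        exacts [(abs_of_nonneg (by positivity)).le, by rw [abs_zero]; positivity])
      (Eventually.of_forall fun θ => by
        refine tendsto_const_nhds.congr' ?_
        by_cases h : ‖b θ‖ < 1
        · filter_upwards [rlim.eventually (lt_mem_nhds h)] with m hm
          simp only [hm.not_gt, false_and, if_false]
        · simp [h, EventuallyEq])
    rw [intervalIntegral.integral_zero, mul_zero] at h2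
    obtain ⟨m, hm2⟩ := (h2.eventually (gt_mem_nhds
      (show 0 < (2 * Real.pi)⁻¹ * (ε / 9) by positivity))).exists
    refine ⟨_, Real.exp_pos _, rlt m, fun a ha => ?_⟩
    have k := fun θ => Pk_nonneg ha.le (b θ)
    have k2 := fun θ => Pk_le ha (b1 θ)
    have i1 : IntervalIntegrable (fun θ => if Real.exp (-(1 / ((m : ℝ) + 1))) < ‖b θ‖ ∧ ‖b θ‖ < 1
        then Pk a (b θ) else 0) volume 0 (2 * Real.pi) := bi (Measurable.ite (s2 _)
      ((Pk_meas a).comp bm) measurable_const) (C := 1 / (1 - ‖a‖) ^ 2) fun θ => by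
        split_ifs
        exacts [(abs_of_nonneg (k θ)).trans_le (k2 θ), by rw [abs_zero]; positivity]
    rcases le_or_gt ‖a‖ r with h3 | h3
    · refine (intervalIntegral.integral_mono_on hp.le i1 (bi (Measurable.ite (s2 _) measurable_const
        measurable_const) (C := 1 / (1 - r) ^ 2) fun θ => ?_) fun θ _ => ?_).trans
          (lt_of_mul_lt_mul_left hm2 (by positivity)).le
      · split_ifs
        exacts [(abs_of_nonneg (by positivity)).le, by rw [abs_zero]; positivity]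
      · split_ifs
        exacts [(k2 θ).trans (by gcongr), le_rfl]
    · refine (intervalIntegral.integral_mono_on hp.le i1 (bi (Measurable.ite
        (measurableSet_lt bm.norm measurable_const) ((Pk_meas a).comp bm) measurable_const)
        (C := 1 / (1 - ‖a‖) ^ 2) fun θ => ?_) fun θ _ => ?_).trans (hr ⟨h3, ha⟩ a rfl).le
      · split_ifs
        exacts [(abs_of_nonneg (k θ)).trans_le (k2 θ), by rw [abs_zero]; positivity]
      · split_ifs with h h2
        exacts [le_rfl, absurd h.2 h2, k θ, le_rfl]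
  obtain ⟨N, hN⟩ := ((((tendsto_pow_atTop_nhds_zero_of_lt_one δ0.le δ1).pow 2).mul_const
    (‖C‖ ^ 2)).eventually (gt_mem_nhds (show (0 : ℝ) ^ 2 * ‖C‖ ^ 2 < ε / 2 by
      simpa using hε))).exists
  have key : ∀ n ≥ N, ∀ m ≥ N, ∀ f, ‖C ((S ^ n) f)‖ ^ 2 - ‖C ((S ^ m) f)‖ ^ 2
      ≤ ((δ ^ N) ^ 2 * ‖C‖ ^ 2 + ε / 2) * ‖f‖ ^ 2 := by
    intro n hn m _
    refine dense_nice (isClosed_le (by fun_prop) (by fun_prop)) fun f g hg e => ?_
    obtain ⟨gm, M, hM⟩ := gb bm b1 hg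
    have M0 : 0 ≤ M := (sq_nonneg _).trans (hM 0 (by simp))
    have i1 : ∀ k : ℕ, IntervalIntegrable (fun θ => (‖b θ‖ ^ k) ^ 2 * ‖g (b θ)‖ ^ 2) volume 0
        (2 * Real.pi) := fun k => bi (((bm.norm.pow_const k).pow_const 2).mul gm) fun θ =>
      (abs_of_nonneg (by positivity)).trans_le ((mul_le_of_le_one_left (by positivity)
        (pow_le_one₀ (by positivity) (pow_le_one₀ (norm_nonneg _) (b1 θ)))).trans (hM _ (b1 θ)))
    have i2 : IntervalIntegrable (fun θ => if δ < ‖b θ‖ ∧ ‖b θ‖ < 1 then ‖g (b θ)‖ ^ 2 else 0)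
        volume 0 (2 * Real.pi) := bi (Measurable.ite (s2 δ) gm measurable_const) (C := M) fun θ => by
      split_ifs
      exacts [(abs_of_nonneg (by positivity)).trans_le (hM _ (b1 θ)), by rwa [abs_zero]]
    have a0 := form hm bm b1 hb hC hS hg e 0
    have a1 := emb bm b1 (by positivity) hδ hg e
    have a2 := intervalIntegral.integral_mono_on hp.le ((i1 n).sub (i1 m))
      (((i1 0).const_mul ((δ ^ N) ^ 2)).add i2) fun θ _ => by
        have t0 := norm_nonneg (b θ)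
        have u : 0 ≤ (‖b θ‖ ^ m) ^ 2 * ‖g (b θ)‖ ^ 2 := by positivity
        have v : 0 ≤ (δ ^ N) ^ 2 * ‖g (b θ)‖ ^ 2 := by positivity
        rw [pow_zero, one_pow, one_mul]
        split_ifs with h
        · have := mul_le_of_le_one_left (sq_nonneg ‖g (b θ)‖) (pow_le_one₀ (n := 2)
            (pow_nonneg t0 n) (pow_le_one₀ t0 (b1 θ)))
          linarith
        · rcases (b1 θ).eq_or_lt with h2 | h2
          · simpa [h2] using v
          · have := mul_le_mul_of_nonneg_right (pow_le_pow_left₀ (pow_nonneg t0 n)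
              ((pow_le_pow_left₀ t0 (not_lt.1 fun h3 => h ⟨h3, h2⟩) n).trans
                (pow_le_pow_of_le_one δ0.le δ1.le hn)) 2) (sq_nonneg ‖g (b θ)‖)
            linarith
    rw [intervalIntegral.integral_sub (i1 n) (i1 m), intervalIntegral.integral_add
      ((i1 0).const_mul _) i2, intervalIntegral.integral_const_mul] at a2
    have a3 := mul_le_mul_of_nonneg_left a2 (inv_pos.2 hp).le
    rw [mul_sub, mul_add, mul_left_comm, ← a0, ← form hm bm b1 hb hC hS hg e,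
      ← form hm bm b1 hb hC hS hg e] at a3
    have a4 := mul_le_mul_of_nonneg_left (pow_le_pow_left₀ (norm_nonneg _) (C.le_opNorm f) 2)
      (sq_nonneg (δ ^ N))
    have a5 : (2 * Real.pi)⁻¹ ≤ 1 / 2 := by
      rw [one_div]; gcongr; linarith [Real.two_le_pi]
    have a6 := mul_le_mul a5 a1 (intervalIntegral.integral_nonneg hp.le fun θ _ => by
      split_ifs <;> positivity) (by norm_num)
    simp only [pow_zero, ContinuousLinearMap.one_apply] at a3
    rw [mul_pow] at a4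
    linarith
  refine ⟨N, fun n hn m hm2 => ?_⟩
  rw [dist_eq_norm, ContinuousLinearMap.norm_eq_iSup_rayleighQuotient _
    (((IsSelfAdjoint.star_mul_self _).sub (IsSelfAdjoint.star_mul_self _)).isSymmetric)]
  refine lt_of_le_of_lt (ciSup_le fun x => ?_) (show (δ ^ N) ^ 2 * ‖C‖ ^ 2 + ε / 2 < ε by linarith)
  rw [abs_div, abs_sq]
  refine div_le_of_le_mul₀ (sq_nonneg _) (by positivity) ?_
  rw [ContinuousLinearMap.reApplyInnerSelf_apply, ContinuousLinearMap.sub_apply, inner_sub_left,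
    map_sub, RCLike.re_to_complex, RCLike.re_to_complex, quad, quad]
  exact abs_sub_le_iff.2 ⟨key n hn m hm2 x, key m hm2 n hn x⟩

include hm bm b1 hb hC hS in
theorem of_uat (h : CauchySeq fun n : ℕ => star (C * S ^ n) * (C * S ^ n)) :
    Tendsto (fun a : ℂ => ∫ θ in (0 : ℝ)..2 * Real.pi,
      (if ‖b θ‖ < 1 then Pk a (b θ) else 0)) (comap (fun a : ℂ => ‖a‖) (𝓝[<] 1)) (𝓝 0) := by
  have hp : (0 : ℝ) < 2 * Real.pi := by positivity
  have s1 : MeasurableSet {θ | ‖b θ‖ < 1} := measurableSet_lt bm.norm measurable_const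
  have l1 : ∀ᶠ a : ℂ in comap (fun a : ℂ => ‖a‖) (𝓝[<] 1), ‖a‖ < 1 :=
    tendsto_comap.eventually self_mem_nhdsWithin
  have pw1 : ∀ (k : ℕ) θ, 0 ≤ (‖b θ‖ ^ k) ^ 2 ∧ (‖b θ‖ ^ k) ^ 2 ≤ 1 := fun k θ =>
    ⟨by positivity, pow_le_one₀ (by positivity) (pow_le_one₀ (norm_nonneg _) (b1 θ))⟩
  rw [NormedAddGroup.tendsto_nhds_zero]
  intro ε hε
  obtain ⟨N, hN⟩ := Metric.cauchySeq_iff.1 h ((2 * Real.pi)⁻¹ * (ε / 2)) (by positivity)
  have t1 := SAT.dct (l := comap (fun a : ℂ => ‖a‖) (𝓝[<] 1)) (F := fun a θ =>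
    if ‖b θ‖ < 1 then (1 - (‖b θ‖ ^ N) ^ 2) * Pk a (b θ) else 0) (f := fun _ => 0) N
    (Eventually.of_forall fun a => (Measurable.ite s1 ((measurable_const.sub
      ((bm.norm.pow_const N).pow_const 2)).mul ((Pk_meas a).comp bm))
        measurable_const).aestronglyMeasurable)
    (l1.mono fun a ha => Eventually.of_forall fun θ => by
      split_ifs
      · have k := Pk_nonneg ha.le (b θ)
        have d := pow_pos (den_pos ha (b1 θ)) 2
        have e := one_add_mul_le_pow (show (-2 : ℝ) ≤ ‖b θ‖ ^ 2 - 1 by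
          linarith [sq_nonneg ‖b θ‖]) N
        rw [add_sub_cancel, ← pow_mul, mul_comm 2, pow_mul] at e
        have e2 : (1 - ‖b θ‖ ^ 2) * Pk a (b θ) ≤ 1 := by
          rw [Pk, ← mul_div_assoc, div_le_one d, den_sq]
          nlinarith [sq_nonneg ‖a - b θ‖]
        rw [abs_of_nonneg (mul_nonneg (sub_nonneg.2 (pw1 N θ).2) k)]
        nlinarith [mul_le_mul_of_nonneg_right e k, mul_le_mul_of_nonneg_left e2 (Nat.cast_nonneg N)]
      · simp)
    (Eventually.of_forall fun θ => by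
      split_ifs with h
      · have c : ContinuousAt (fun a : ℝ => (1 - a ^ 2) / (1 - ‖b θ‖) ^ 2) 1 := by fun_prop
        have c2 := (tendsto_nhdsWithin_of_tendsto_nhds (s := Iio 1) c.tendsto).comp
          (tendsto_comap (f := fun a : ℂ => ‖a‖))
        simp only [one_pow, sub_self, zero_div] at c2
        refine squeeze_zero' (l1.mono fun a ha => mul_nonneg (sub_nonneg.2 (pw1 N θ).2)
          (Pk_nonneg ha.le _)) (l1.mono fun a ha => ?_) c2
        refine (mul_le_of_le_one_left (Pk_nonneg ha.le _) (by linarith [(pw1 N θ).1])).trans ?_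
        rw [Pk, den_symm]
        exact div_le_div_of_nonneg_left (sq_le1 ha.le) (pow_pos (sub_pos.2 h) 2)
          (pow_le_pow_left₀ (sub_pos.2 h).le (den_le ha.le) 2)
      · exact tendsto_const_nhds)
  rw [intervalIntegral.integral_zero, mul_zero] at t1
  filter_upwards [t1.eventually (gt_mem_nhds (show 0 < (2 * Real.pi)⁻¹ * (ε / 2) by positivity)),
    l1] with a a1 ha
  have ha2 := mem_ball_zero_iff.2 ha
  have k := fun θ => Pk_nonneg ha.le (b θ)
  have k2 := fun θ => Pk_le ha (b1 θ)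
  have km := (Pk_meas a).comp bm
  have s0 : 0 < 1 - ‖a‖ ^ 2 := sub_pos.2 (pow_lt_one₀ (norm_nonneg _) ha two_ne_zero)
  have e0 : (1 - ‖a‖ ^ 2) * ‖K a‖ ^ 2 = 1 := by
    rw [← @inner_self_eq_norm_sq ℂ _ _ _ _ (K a), inner_K ha2, ev_K ha2 ha2, mul_comm (conj a), mul_conj']
    norm_cast
    exact mul_inv_cancel₀ s0.ne'
  have e1 : ∀ n : ℕ, (1 - ‖a‖ ^ 2) * ‖C ((S ^ n) (K a))‖ ^ 2 = (2 * Real.pi)⁻¹
      * ∫ θ in (0 : ℝ)..2 * Real.pi, (‖b θ‖ ^ n) ^ 2 * Pk a (b θ) := fun n => by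
    rw [form hm bm b1 hb hC hS (g := fun z => (1 - conj a * z)⁻¹) (ContinuousOn.inv₀ (by fun_prop)
      fun z hz => norm_pos_iff.1 (den_pos ha (mem_closedBall_zero_iff.1 hz)))
      fun z hz => ev_K ha2 hz, mul_left_comm, ← intervalIntegral.integral_const_mul]
    congr 2
    funext θ
    rw [Pk, norm_inv]
    ring
  have bd : ∀ (n : ℕ) θ, |(‖b θ‖ ^ n) ^ 2 * Pk a (b θ)| ≤ 1 / (1 - ‖a‖) ^ 2 := fun n θ =>
    (abs_of_nonneg (mul_nonneg (pw1 n θ).1 (k θ))).trans_le
      ((mul_le_of_le_one_left (k θ) (pw1 n θ).2).trans (k2 θ))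
  have mm : ∀ n : ℕ, Measurable fun θ => (‖b θ‖ ^ n) ^ 2 * Pk a (b θ) := fun n =>
    ((bm.norm.pow_const n).pow_const 2).mul km
  have t2 := SAT.dct (l := atTop) (F := fun (m : ℕ) θ => (‖b θ‖ ^ m) ^ 2 * Pk a (b θ))
    (f := fun θ => if ‖b θ‖ < 1 then 0 else Pk a (b θ)) _
    (Eventually.of_forall fun m => (mm m).aestronglyMeasurable)
    (Eventually.of_forall fun m => Eventually.of_forall (bd m)) (Eventually.of_forall fun θ => by
      split_ifs with h
      · simpa using ((tendsto_pow_atTop_nhds_zero_of_lt_one (norm_nonneg _) h).pow 2).mul_const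
          (Pk a (b θ))
      · simp [le_antisymm (b1 θ) (not_lt.1 h)])
  have a2 := le_of_tendsto (t2.const_sub ((2 * Real.pi)⁻¹ * ∫ θ in (0 : ℝ)..2 * Real.pi,
      (‖b θ‖ ^ N) ^ 2 * Pk a (b θ))) (b := (2 * Real.pi)⁻¹ * (ε / 2)) (by
    filter_upwards [eventually_ge_atTop N] with m hm2
    have b2 := hN N le_rfl m hm2
    have b3 := re_inner_le_norm (𝕜 := ℂ) ((star (C * S ^ N) * (C * S ^ N)
      - star (C * S ^ m) * (C * S ^ m)) (K a)) (K a)
    have b4 := mul_le_mul_of_nonneg_right (((star (C * S ^ N) * (C * S ^ N)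
      - star (C * S ^ m) * (C * S ^ m)).le_opNorm (K a)).trans (mul_le_mul_of_nonneg_right
        ((dist_eq_norm _ _).symm.trans_le b2.le) (norm_nonneg _))) (norm_nonneg (K a))
    rw [ContinuousLinearMap.sub_apply, inner_sub_left, map_sub, RCLike.re_to_complex,
      RCLike.re_to_complex, quad, quad, ← ContinuousLinearMap.sub_apply] at b3
    have b5 := mul_le_mul_of_nonneg_left (b3.trans b4) s0.le
    rw [← e1, ← e1]
    simp only [ContinuousLinearMap.mul_apply] at b5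
    rw [mul_assoc, ← sq, mul_left_comm, e0] at b5
    linarith)
  have i1 : IntervalIntegrable (fun θ => if ‖b θ‖ < 1 then (1 - (‖b θ‖ ^ N) ^ 2) * Pk a (b θ)
      else 0) volume 0 (2 * Real.pi) := bi (Measurable.ite s1 ((measurable_const.sub
    ((bm.norm.pow_const N).pow_const 2)).mul km) measurable_const)
    (C := 1 / (1 - ‖a‖) ^ 2) fun θ => by
      split_ifs
      · exact (abs_of_nonneg (mul_nonneg (sub_nonneg.2 (pw1 N θ).2) (k θ))).trans_le
          ((mul_le_of_le_one_left (k θ) (by linarith [(pw1 N θ).1])).trans (k2 θ))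
      · rw [abs_zero]; positivity
  have i2 : IntervalIntegrable (fun θ => if ‖b θ‖ < 1 then 0 else Pk a (b θ)) volume 0
      (2 * Real.pi) := bi (Measurable.ite s1 measurable_const km) (C := 1 / (1 - ‖a‖) ^ 2) fun θ => by
    split_ifs
    exacts [by rw [abs_zero]; positivity, (abs_of_nonneg (k θ)).trans_le (k2 θ)]
  have e2 : ∫ θ in (0 : ℝ)..2 * Real.pi, (if ‖b θ‖ < 1 then Pk a (b θ) else 0)
      = (∫ θ in (0 : ℝ)..2 * Real.pi, if ‖b θ‖ < 1 then (1 - (‖b θ‖ ^ N) ^ 2) * Pk a (b θ) else 0)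
        + ((∫ θ in (0 : ℝ)..2 * Real.pi, (‖b θ‖ ^ N) ^ 2 * Pk a (b θ))
          - ∫ θ in (0 : ℝ)..2 * Real.pi, if ‖b θ‖ < 1 then 0 else Pk a (b θ)) := by
    rw [← intervalIntegral.integral_sub (bi (mm N) (bd N)) i2,
      ← intervalIntegral.integral_add i1 ((bi (mm N) (bd N)).sub i2)]
    refine intervalIntegral.integral_congr fun θ _ => ?_
    split_ifs with h
    · ring
    · simp [le_antisymm (b1 θ) (not_lt.1 h)]
  rw [Real.norm_of_nonneg (intervalIntegral.integral_nonneg hp.le fun θ _ => by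
    split_ifs; exacts [k θ, le_rfl]), e2]
  rw [← mul_sub] at a2
  linarith [lt_of_mul_lt_mul_left a1 (inv_pos.2 hp).le, le_of_mul_le_mul_left a2 (inv_pos.2 hp)]

end main

end Pool.Agent.H31.H2
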