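import Mathlib

set_option autoImplicit false

namespace Pool.Agent.H31.UCL

open MeasureTheory Metric Set Filter Topology

abbrev E : Type := EuclideanSpace ℝ (Fin 2)

noncomputable abbrev e (i : Fin 2) : E := EuclideanSpace.single i 1

lemma ibp {F φ : E → ℝ} (hF : ContDiff ℝ 1 F) (hφ : ContDiff ℝ ((⊤ : ℕ∞) : WithTop ℕ∞) φ)
    (c : HasCompactSupport φ) (i : Fin 2) : Integrable (fun x => F x * fderiv ℝ φ x (e i)) ∧
    Integrable (fun x => fderiv ℝ F x (e i) * φ x) ∧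
    ∫ x, F x * fderiv ℝ φ x (e i) = -∫ x, fderiv ℝ F x (e i) * φ x := by
  have h1 : Integrable (fun x => F x * fderiv ℝ φ x (e i)) :=
    (hF.continuous.mul ((hφ.continuous_fderiv (by simp)).clm_apply continuous_const)
      ).integrable_of_hasCompactSupport (c.fderiv_apply ℝ (e i)).mul_left
  have h2 : Integrable (fun x => fderiv ℝ F x (e i) * φ x) :=
    (((hF.continuous_fderiv one_ne_zero).clm_apply continuous_const).mul hφ.continuous
      ).integrable_of_hasCompactSupport c.mul_left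
  exact ⟨h1, h2, integral_mul_fderiv_eq_neg_fderiv_mul_of_integrable h2 h1
    ((hF.continuous.mul hφ.continuous).integrable_of_hasCompactSupport c.mul_left)
    (fun x _ => hF.differentiable one_ne_zero x) fun x _ => hφ.differentiable (by simp) x⟩

lemma weak {F G φ H : E → ℝ} (hF : ContDiff ℝ 1 F) (hG : ContDiff ℝ 1 G)
    (h : ∀ x, fderiv ℝ F x (e 0) + fderiv ℝ G x (e 1) = 0)
    (hφ : ContDiff ℝ ((⊤ : ℕ∞) : WithTop ℕ∞) φ) (c : HasCompactSupport φ)
    (hH : ∀ x, H x = F x * fderiv ℝ φ x (e 0) + G x * fderiv ℝ φ x (e 1)) : ∫ x, H x = 0 := by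
  obtain ⟨a1, a2, a3⟩ := ibp hF hφ c 0
  obtain ⟨b1, b2, b3⟩ := ibp hG hφ c 1
  rw [funext hH, integral_add a1 b1, a3, b3, ← neg_add, ← integral_add a2 b2]
  simp only [← add_mul, h, zero_mul, integral_zero, neg_zero]

noncomputable def m (s : ℝ) : ℝ := max s 0

noncomputable def h (s : ℝ) : ℝ := s * m s

lemma m_cont : Continuous m := by unfold m; fun_prop

lemma h_eq (s : ℝ) : h s = m s ^ 2 := by
  unfold h m
  rcases le_total s 0 with k | k <;> simp [k, sq]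

lemma dh (s : ℝ) : HasDerivAt h (2 * m s) s := by
  rcases lt_trichotomy s 0 with k | rfl | k
  · refine ((hasDerivAt_const s (0 : ℝ)).congr_of_eventuallyEq ?_).congr_deriv (by simp [m, k.le])
    filter_upwards [gt_mem_nhds k] with t ht
    simp [h, m, ht.le]
  · rw [hasDerivAt_iff_tendsto_slope_zero]
    refine ((tendsto_nhdsWithin_of_tendsto_nhds (m_cont.tendsto 0)).congr' ?_).trans (by simp [m])
    filter_upwards [self_mem_nhdsWithin] with t ht
    simp [h, inv_mul_cancel_left₀ ht]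
  · refine ((hasDerivAt_pow 2 s).congr_of_eventuallyEq ?_).congr_deriv (by simp [m, k.le])
    filter_upwards [lt_mem_nhds k] with t ht
    simp [h, m, ht.le, sq]

@[fun_prop] lemma h_c1 : ContDiff ℝ 1 h :=
  contDiff_one_iff_deriv.2 ⟨fun s => (dh s).differentiableAt, by
    rw [funext fun s => (dh s).deriv]; exact continuous_const.mul m_cont⟩

noncomputable def v (x : E) : ℝ :=
  x 1 * x 0 + 3 / 2 * (h (x 0) * (x 1 * x 1)) - 1 / 4 * (h (x 0) * h (x 0))
    - 3 / 5 * (x 0 * (h (x 0) * h (x 0)) * x 1)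

noncomputable def q (x : E) : ℝ := x 1 - x 0 * h (x 0)

noncomputable def g (x : E) : ℝ := x 0 + 3 * (h (x 0) * x 1) - 3 / 5 * (x 0 * (h (x 0) * h (x 0)))

lemma d (i : Fin 2) (x : E) : HasFDerivAt (fun x : E => x i) (EuclideanSpace.proj i : E →L[ℝ] ℝ) x :=
  (EuclideanSpace.proj i : E →L[ℝ] ℝ).hasFDerivAt

lemma d2 (x : E) : HasFDerivAt (fun x : E => h (x 0))
    ((2 * m (x 0)) • (EuclideanSpace.proj 0 : E →L[ℝ] ℝ)) x := (dh _).comp_hasFDerivAt x (d 0 x)

lemma dv (x : E) : fderiv ℝ v x (e 0) = q x * (1 + 3 * (m (x 0) * x 1)) ∧ fderiv ℝ v x (e 1) = g x := by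
  have := (((((d 1 x).mul (d 0 x)).add (((d2 x).mul ((d 1 x).mul (d 1 x))).const_mul (3 / 2))).sub
    (((d2 x).mul (d2 x)).const_mul (1 / 4))).sub
    ((((d 0 x).mul ((d2 x).mul (d2 x))).mul (d 1 x)).const_mul (3 / 5))).fderiv
  erw [this]
  have k : x 0 * m (x 0) = m (x 0) ^ 2 := h_eq _
  constructor
  · simp [q, h_eq]
    linear_combination (-(12 / 5) * m (x 0) ^ 2 * x 1 + m (x 0) + 3 * m (x 0) ^ 2 * x 1) * k
  · simp [g]
    ring

lemma dq (x : E) : fderiv ℝ q x (e 0) + fderiv ℝ g x (e 1) = 0 := by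
  have a := ((d 1 x).sub ((d 0 x).mul (d2 x))).fderiv
  have b := (((d 0 x).add (((d2 x).mul (d 1 x)).const_mul 3)).sub
    (((d 0 x).mul ((d2 x).mul (d2 x))).const_mul (3 / 5))).fderiv
  erw [a, b]
  simp [h]
  ring

noncomputable def A (x : E) : Matrix (Fin 2) (Fin 2) ℝ := !![(1 + 3 * (m (x 0) * x 1))⁻¹, 0; 0, 1]

lemma bd {x : E} (hx : x ∈ ball (0 : E) (1 / 2)) : |m (x 0)| ≤ 1 / 2 ∧ |x 1| ≤ 1 / 2 ∧
    1 / 4 ≤ 1 + 3 * (m (x 0) * x 1) ∧ 1 + 3 * (m (x 0) * x 1) ≤ 4 := by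
  have a := fun i => (PiLp.norm_apply_le x i).trans (mem_ball_zero_iff.1 hx).le
  have a0 : |m (x 0)| ≤ 1 / 2 := by
    rw [abs_of_nonneg (le_max_right _ _)]
    exact max_le (le_of_abs_le (a 0)) (by norm_num)
  have b := abs_le.1 ((abs_mul _ _).trans_le (mul_le_mul a0 (a 1) (abs_nonneg _) (by norm_num)))
  exact ⟨a0, a 1, by linarith [b.1], by linarith [b.2]⟩

lemma ell {x : E} (hx : x ∈ ball (0 : E) (1 / 2)) (ξ : E) :
    (4 : ℝ)⁻¹ * ‖ξ‖ ^ 2 ≤ ∑ i, ∑ j, A x i j * ξ i * ξ j ∧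
      ∑ i, ∑ j, A x i j * ξ i * ξ j ≤ 4 * ‖ξ‖ ^ 2 := by
  obtain ⟨-, -, a, b⟩ := bd hx
  have a1 := inv_anti₀ (by norm_num) a
  have b1 := inv_anti₀ (by linarith) b
  simp only [EuclideanSpace.real_norm_sq_eq, Fin.sum_univ_two, A, Matrix.of_apply, Matrix.cons_val]
  constructor <;> nlinarith [sq_nonneg (ξ 0), sq_nonneg (ξ 1)]

lemma lip {x y : E} (hx : x ∈ ball (0 : E) (1 / 2)) (hy : y ∈ ball (0 : E) (1 / 2)) (i j : Fin 2) :
    |A x i j - A y i j| ≤ 48 * dist x y := by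
  obtain ⟨a1, a2, a3, -⟩ := bd hx
  obtain ⟨b1, b2, b3, -⟩ := bd hy
  have c := fun i => PiLp.dist_apply_le y x i
  have c0 : |m (y 0) - m (x 0)| ≤ dist y x := (abs_max_sub_max_le_abs _ _ _).trans (c 0)
  have k : |(1 + 3 * (m (x 0) * x 1))⁻¹ - (1 + 3 * (m (y 0) * y 1))⁻¹| ≤ 48 * dist x y := by
    rw [inv_sub_inv (by linarith) (by linarith), abs_div, abs_of_pos (a := _ * _)
      (mul_pos (by linarith) (by linarith)), div_le_iff₀ (mul_pos (by linarith) (by linarith)),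
      show 1 + 3 * (m (y 0) * y 1) - (1 + 3 * (m (x 0) * x 1))
        = 3 * ((m (y 0) - m (x 0)) * y 1 + m (x 0) * (y 1 - x 1)) by ring, abs_mul, dist_comm]
    have t := (abs_add_le _ _).trans (add_le_add ((abs_mul _ _).trans_le
      (mul_le_mul c0 b2 (abs_nonneg _) dist_nonneg)) ((abs_mul _ _).trans_le
      (mul_le_mul a1 (c 1) (abs_nonneg _) (by norm_num))))
    have t2 := mul_le_mul_of_nonneg_left (mul_le_mul a3 b3 (by norm_num) (by linarith))
      (dist_nonneg (x := y) (y := x))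
    rw [abs_of_pos three_pos]
    linarith
  fin_cases i <;> fin_cases j <;> simp [A, k]

end Pool.Agent.H31.UCL
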