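import Mathlib
import Pool.Agent.Lib.helper31.RecDefs

namespace Pool.Agent.Lib.helper31.UrecJoint

open Filter Topology Set Pool.Agent.Lib.helper31.RecDefs

lemma minimal {Y : Type*} [TopologicalSpace Y] [T2Space Y] [CompactSpace Y] [Nonempty Y]
    (f : Y → Y) (hf : Continuous f) : ∃ C : Set Y, IsClosed C ∧ C.Nonempty ∧ MapsTo f C C ∧
      ∀ y ∈ C, ∀ V, IsOpen V → (V ∩ C).Nonempty → Syndetic (RetSet f y V) := by
  let S : Set (Set Y) := {C | IsClosed C ∧ C.Nonempty ∧ MapsTo f C C}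
  obtain ⟨C, -, hC⟩ := zorn_superset_nonempty S (fun c hc hch hcne => by
    have : Nonempty c := hcne.to_subtype
    refine ⟨⋂₀ c, ⟨isClosed_sInter fun t ht => (hc ht).1, ?_, fun y hy t ht => (hc ht).2.2 (hy t ht)⟩,
      fun s hs => sInter_subset_of_mem hs⟩
    exact IsCompact.nonempty_sInter_of_directed_nonempty_isCompact_isClosed
      (fun a ha b hb => (hch.total ha hb).elim (fun h => ⟨a, ha, le_rfl, h⟩) fun h => ⟨b, hb, h, le_rfl⟩)
      (fun U hU => (hc hU).2.1) (fun U hU => (hc hU).1.isCompact)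
      fun U hU => (hc hU).1) univ ⟨isClosed_univ, univ_nonempty, mapsTo_univ _ _⟩
  obtain ⟨hCc, hne, hCf⟩ := hC.prop
  refine ⟨C, hCc, hne, hCf, fun y hy V hV ⟨w, hwV, hw⟩ => ?_⟩
  have cover : C ⊆ ⋃ n : ℕ, f^[n + 1] ⁻¹' V := by
    intro z hz
    have h1 : closure (range fun n : ℕ => f^[n + 1] z) ⊆ C :=
      closure_minimal (by rintro _ ⟨n, rfl⟩; exact hCf.iterate _ hz) hCc
    have h2 := hC.le_of_le (y := closure (range fun n : ℕ => f^[n + 1] z))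
      ⟨isClosed_closure, (range_nonempty _).closure,
        MapsTo.closure (by
          rintro _ ⟨n, rfl⟩; exact ⟨n + 1, Function.iterate_succ_apply' _ _ _⟩) hf⟩ h1
    obtain ⟨_, hw, n, rfl⟩ := mem_closure_iff.1 (h2 hw) V hV hwV
    exact mem_iUnion.2 ⟨n, hw⟩
  obtain ⟨t, ht⟩ := hCc.isCompact.elim_finite_subcover _
    (fun n => hV.preimage (hf.iterate (n + 1))) cover
  refine ⟨t.sup id + 1, fun m => ?_⟩
  obtain ⟨n, hn, h⟩ := mem_iUnion₂.1 (ht (hCf.iterate m hy))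
  have : n ≤ t.sup id := Finset.le_sup (f := id) hn
  exact ⟨n + 1 + m, ⟨by omega, by rw [Function.iterate_add_apply]; exact h⟩, by omega, by omega⟩

def sh (p : Ultrafilter ℕ) : Ultrafilter ℕ := p.map (· + 1)

lemma mem_sh (m : ℕ) (p : Ultrafilter ℕ) (A : Set ℕ) : A ∈ sh^[m] p ↔ {n | n + m ∈ A} ∈ p := by
  induction m generalizing A with
  | zero => rfl
  | succ m ih => rw [Function.iterate_succ_apply', sh, Ultrafilter.mem_map, ih]; rfl

lemma sh_cont : Continuous sh := by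
  refine ultrafilterBasis_is_basis.continuous_iff.2 ?_
  rintro _ ⟨A, rfl⟩
  exact ultrafilter_isOpen_basic _

universe u

lemma shift' {Y : Type*} [TopologicalSpace Y] (T : Y → Y) (hT : Continuous T)
    (p : Ultrafilter ℕ) (d y : Y) (m : ℕ) (h : Tendsto (fun n => T^[n] d) p (𝓝 y)) :
    Tendsto (fun n => T^[n] d) (sh^[m] p : Ultrafilter ℕ) (𝓝 (T^[m] y)) := fun U hU => by
  refine (mem_sh m p _).2 (mem_of_superset (((hT.iterate m).tendsto y).comp h hU) fun n hn => ?_)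
  change T^[n + m] d ∈ U
  rw [add_comm, Function.iterate_add_apply]; exact hn

theorem core {X : Type u} [MetricSpace X] [CompleteSpace X] (T : X → X) (hT0 : Continuous T)
    (D : Set X) (hDc : D.Countable) (hDs : ∀ d ∈ D, ∀ U ∈ 𝓝 d, Syndetic (RetSet T d U)) :
    ∃ p : Ultrafilter ℕ, (∀ (Y : Type u) [TopologicalSpace Y] [RegularSpace Y] (S : Y → Y),
      Continuous S → ∀ d y, Tendsto (fun n => S^[n] d) p (𝓝 y) → ∀ U ∈ 𝓝 y, Syndetic (RetSet S y U)) ∧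
      ∀ d ∈ D, ∀ U ∈ 𝓝 d, ∃ e, ∃ y ∈ U, Tendsto (fun n => T^[n] e) p (𝓝 y) := by
  obtain ⟨L, Lc, ⟨q, hq⟩, Lf, hL⟩ := minimal sh sh_cont
  have hT : ∀ m : ℕ, Continuous T^[m] := hT0.iterate
  -- a point of `L` fixing `d`
  have fix : ∀ d ∈ D, ∃ p ∈ L, Tendsto (fun n => T^[n] d) p (𝓝 d) := by
    intro d hd
    let F : ℕ → Set (Ultrafilter ℕ) := fun j =>
      L ∩ {p | {n | T^[n] d ∈ Metric.ball d (1 / (j + 1))} ∈ p}
    have Fc : ∀ j, IsClosed (F j) := fun j => Lc.inter (ultrafilter_isClosed_basic _)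
    obtain ⟨p, hp⟩ := IsCompact.nonempty_iInter_of_sequence_nonempty_isCompact_isClosed F
      (fun j p hp => ⟨hp.1, mem_of_superset hp.2 fun n hn => Metric.ball_subset_ball
        (by gcongr; linarith) hn⟩)
      (fun j => by
        obtain ⟨K, hK⟩ := hDs d hd _ (Metric.ball_mem_nhds d (show (0 : ℝ) < 1 / (j + 1) by positivity))
        have : ⋃ i ∈ Iic K, {n | T^[n + i] d ∈ Metric.ball d (1 / (j + 1))} ∈ q := by
          refine mem_of_superset univ_mem fun m _ => ?_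
          obtain ⟨n, ⟨-, hn⟩, h1, h2⟩ := hK m
          exact mem_iUnion₂.2 ⟨n - m, by simp; omega, by simpa [Nat.add_sub_cancel' h1] using hn⟩
        obtain ⟨i, -, hi⟩ := (Ultrafilter.finite_biUnion_mem_iff (finite_Iic K)).1 this
        exact ⟨sh^[i] q, Lf.iterate i hq, (mem_sh _ _ _).2 hi⟩) (Fc 0).isCompact Fc
    refine ⟨p, (mem_iInter.1 hp 0).1, Metric.tendsto_nhds.2 fun ε hε => ?_⟩
    obtain ⟨j, hj⟩ := exists_nat_one_div_lt hε
    exact mem_of_superset (mem_iInter.1 hp j).2 fun n hn => lt_trans hn hj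
  have shift := shift' T hT0
  have : CompactSpace L := isCompact_iff_compactSpace.1 Lc.isCompact
  have : Countable D := hDc.to_subtype
  have : Nonempty L := ⟨⟨q, hq⟩⟩
  let O : D × ℕ → Set L := fun a =>
    ⋃ z : X, {p | {n | T^[n] a.1.1 ∈ Metric.ball z (1 / (a.2 + 1))} ∈ p.1}
  obtain ⟨p, hp⟩ := (dense_iInter_of_isOpen (f := O)
    (fun a => isOpen_iUnion fun z => (ultrafilter_isOpen_basic _).preimage continuous_subtype_val)
    (fun a => by
      refine dense_iff_inter_open.2 fun V hV ⟨w, hw⟩ => ?_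
      obtain ⟨V', hV', rfl⟩ := isOpen_induced_iff.1 hV
      obtain ⟨p0, h0, h1⟩ := fix _ a.1.2
      obtain ⟨K, hK⟩ := hL p0 h0 V' hV' ⟨w, hw, w.2⟩
      obtain ⟨n, ⟨-, hn⟩, -⟩ := hK 0
      exact ⟨⟨_, Lf.iterate n h0⟩, hn, mem_iUnion.2 ⟨_, shift p0 _ _ n h1
        (Metric.ball_mem_nhds _ (by positivity))⟩⟩)).nonempty
  have lim : ∀ d ∈ D, ∃ y, Tendsto (fun n => T^[n] d) p.1 (𝓝 y) := fun d hd => by
    refine cauchy_map_iff_exists_tendsto.1 (Metric.cauchy_iff.2 ⟨inferInstance, fun ε hε => ?_⟩)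
    obtain ⟨j, hj⟩ := exists_nat_one_div_lt (half_pos hε)
    obtain ⟨z, hz⟩ := mem_iUnion.1 (mem_iInter.1 hp (⟨d, hd⟩, j))
    exact ⟨_, hz, fun a ha b hb => by
      linarith [dist_triangle_right a b z, Metric.mem_ball.1 ha, Metric.mem_ball.1 hb]⟩
  have key : ∀ (Y : Type u) [TopologicalSpace Y] [RegularSpace Y] (S : Y → Y), Continuous S →
      ∀ d y e, Tendsto (fun n => S^[n] d) p.1 (𝓝 y) → ∀ p0 ∈ L,
      Tendsto (fun n => S^[n] d) p0 (𝓝 e) → ∀ U ∈ 𝓝 e, Syndetic (RetSet S y U) := by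
    intro Y _ _ S hS d y e hy p0 h0 he U hU
    obtain ⟨V, hV, Vc, hVU⟩ := exists_mem_nhds_isClosed_subset hU
    obtain ⟨K, hK⟩ := hL p.1 p.2 _ (ultrafilter_isOpen_basic {n | S^[n] d ∈ V}) ⟨p0, he hV, h0⟩
    refine ⟨K, fun m => ?_⟩
    obtain ⟨n, ⟨h1, h2⟩, h3⟩ := hK m
    exact ⟨n, ⟨h1, hVU (Vc.mem_of_tendsto (shift' S hS _ _ _ n hy) h2)⟩, h3⟩
  refine ⟨p, fun Y _ _ S hS d y hy => key Y S hS d y y hy p.1 p.2 hy, fun d hd U hU => ?_⟩
  obtain ⟨y, hy⟩ := lim d hd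
  obtain ⟨p0, h0, h1⟩ := fix d hd
  obtain ⟨K, hK⟩ := key X T hT0 d y d hy p0 h0 h1 U hU
  obtain ⟨n, ⟨-, hn⟩, -⟩ := hK 0
  refine ⟨T^[n] d, _, hn, ?_⟩
  simpa only [← Function.iterate_add_apply, add_comm, Function.comp_def] using ((hT n).tendsto y).comp hy

end Pool.Agent.Lib.helper31.UrecJoint
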