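import Pool.Agent.Lib.helper31.Priv

set_option autoImplicit false

namespace Pool.Agent.H31.WAT

open Complex Metric Set Filter Topology MeasureTheory Pool.Agent.H31.JC Pool.Agent.H31.Priv

lemma shift_mem (θ : ℝ) {w : ℂ} (hw : w ∈ H) : (θ + w : ℂ) ∈ H := by simpa [H] using hw

lemma shift_diff {f : ℂ → ℂ} (hd : DifferentiableOn ℂ f H) (θ : ℝ) :
    DifferentiableOn ℂ (fun w => f (θ + w)) H :=
  hd.comp (by fun_prop) fun _ hw => shift_mem θ hw

lemma ang_Z {f : ℂ → ℂ} (hd : DifferentiableOn ℂ f H) {θ : ℝ} {η : ℂ} (hη : ‖η‖ = 1)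
    (h : Ang (fun w => f (θ + w)) η 1) : θ ∈ Z fun w => deriv f w - I * f w := by
  intro e he
  set ε := min 1 (e / 76) with hε
  have hε0 : 0 < ε := lt_min one_pos (by positivity)
  have hε1 : ε ≤ 1 := min_le_left _ _
  have hε2 : ε ≤ e / 76 := min_le_right _ _
  obtain ⟨δ, hδ, h1⟩ := h 38 (by norm_num) ε hε0
  refine ⟨min (δ / 19) (e / 74), lt_min (by positivity) (by positivity), fun w hw h2 h3 => ?_⟩
  have hy : 0 < w.im := hw
  have a1 : w.im < δ / 19 := h3.trans_le (min_le_left _ _)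
  have a2 : w.im < e / 74 := h3.trans_le (min_le_right _ _)
  have a3 : ‖w - θ‖ ≤ 18 * w.im := by
    have := norm_le_abs_re_add_abs_im (w - θ)
    simp only [sub_re, ofReal_re, sub_im, ofReal_im, sub_zero, abs_of_pos hy] at this
    linarith
  set E : ℂ → ℂ := fun u => f u - η - I * η * (u - θ) with hE
  have hball : ∀ u ∈ closedBall w (w.im / 2), w.im / 2 ≤ u.im ∧ ‖E u‖ ≤ ε * (19 * w.im) := by
    intro u hu
    have b1 : ‖u - w‖ ≤ w.im / 2 := by simpa [dist_eq_norm] using hu
    have b2 := abs_im_le_norm (u - w)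
    have b3 : w.im / 2 ≤ u.im := by
      rw [sub_im] at b2
      linarith [(abs_le.1 (b2.trans b1)).1]
    have b4 : ‖u - θ‖ ≤ 37 / 2 * w.im := by
      have := norm_add_le (u - w) (w - θ)
      rw [sub_add_sub_cancel] at this
      linarith
    have b5 := h1 (u - θ) (by simp only [H, mem_ofPred_eq, sub_im, ofReal_im]; linarith)
      (by linarith) (by simp only [sub_im, ofReal_im]; linarith)
    simp only [add_sub_cancel, ofReal_one, mul_one] at b5
    exact ⟨b3, b5.trans (mul_le_mul_of_nonneg_left (by linarith) hε0.le)⟩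
  have hsub : closedBall w (w.im / 2) ⊆ H := fun u hu => by
    have := (hball u hu).1
    show 0 < u.im
    linarith
  have hEd : DifferentiableOn ℂ E H := (hd.sub_const _).sub (by fun_prop)
  have c1 := norm_deriv_le_of_forall_mem_sphere_norm_le (show 0 < w.im / 2 by positivity)
    (hEd.mono (closure_ball_subset_closedBall.trans hsub)).diffContOnCl
    fun u hu => (hball u (sphere_subset_closedBall hu)).2
  have c2 : deriv E w = deriv f w - I * η := by
    have d1 := (hd.differentiableAt (isOpen_H.mem_nhds hw)).hasDerivAt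
    have d2 := (d1.sub_const η).sub (((hasDerivAt_id' w).sub_const (θ : ℂ)).const_mul (I * η))
    rw [mul_one] at d2
    exact d2.deriv
  have c3 := (hball w (mem_closedBall_self (by positivity))).2
  have c4 : deriv f w - I * f w = deriv E w - I * (E w + I * η * (w - θ)) := by
    rw [c2]; simp only [hE]; ring
  have c5 : ε * (19 * w.im) / (w.im / 2) = 38 * ε := by field_simp; norm_num
  rw [c5] at c1
  show ‖deriv f w - I * f w‖ ≤ e
  rw [c4]
  refine (norm_sub_le _ _).trans ?_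
  rw [norm_mul, norm_I, one_mul]
  have c6 := norm_add_le (E w) (I * η * (w - θ))
  rw [norm_mul, norm_mul, norm_I, hη, one_mul, one_mul] at c6
  have c7 : ε * (19 * w.im) ≤ 1 * (19 * w.im) := mul_le_mul_of_nonneg_right hε1 (by positivity)
  linarith

lemma div_mem {w : ℂ} (hw : w ∈ H) {n : ℕ} (hn : 0 < n) : w / n ∈ H := by
  have : 0 < w.im := hw
  show 0 < (w / n).im
  rw [div_natCast_im]
  positivity

lemma norm_div_lim (w : ℂ) : Tendsto (fun n : ℕ => ‖w / n‖) atTop (𝓝 0) := by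
  simpa using tendsto_const_div_atTop_nhds_zero_nat ‖w‖

lemma limA {g : ℂ → ℂ} (hg : ∀ w ∈ H, ‖g w‖ < 1) (h : ¬ Fin0 g) (j : ℕ) {w : ℂ} (hw : w ∈ H) :
    Tendsto (fun n : ℕ => g (w / n) ^ (n + j)) atTop (𝓝 0) := by
  have hy : 0 < w.im := hw
  simp only [Fin0, not_exists, not_forall, not_and, not_le] at h
  rw [NormedAddGroup.tendsto_nhds_zero]
  intro ε hε
  obtain ⟨δ, hδ, h1⟩ := h (1 / ε ^ 2 / w.im)
  filter_upwards [(norm_div_lim w).eventually (gt_mem_nhds hδ), eventually_gt_atTop 0] with n h2 hn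
  have hm := div_mem hw hn
  have a1 := h1 _ hm h2
  have hn' : (0 : ℝ) < n := by exact_mod_cast hn
  rw [div_natCast_im] at a1
  have a2 : ‖g (w / n)‖ ^ 2 ≤ Real.exp (-(1 / ε ^ 2 / n)) := by
    have := Real.add_one_le_exp (-(1 / ε ^ 2 / n))
    have e : 1 / ε ^ 2 / w.im * (w.im / n) = 1 / ε ^ 2 / n := by field_simp
    linarith
  have a3 := pow_le_pow_left₀ (by positivity) a2 n
  rw [← Real.exp_nat_mul, show (n : ℝ) * -(1 / ε ^ 2 / n) = -(1 / ε ^ 2) by field_simp] at a3
  have a4 : Real.exp (-(1 / ε ^ 2)) < ε ^ 2 := by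
    rw [Real.exp_neg, inv_lt_comm₀ (Real.exp_pos _) (by positivity)]
    have := Real.add_one_le_exp (1 / ε ^ 2)
    rw [inv_eq_one_div]; linarith
  have a5 : ‖g (w / n)‖ ^ n < ε := by
    apply lt_of_pow_lt_pow_left₀ 2 hε.le
    rw [← pow_mul, mul_comm, pow_mul]
    linarith
  rw [norm_pow, pow_add]
  exact lt_of_le_of_lt (mul_le_of_le_one_right (by positivity)
    (pow_le_one₀ (norm_nonneg _) (hg _ hm).le)) a5

lemma limB {g : ℂ → ℂ} {η : ℂ} {d : ℝ} (hη : ‖η‖ = 1) (h : Ang g η d) (j : ℕ) {w : ℂ}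
    (hw : w ∈ H) :
    Tendsto (fun n : ℕ => (g (w / n) / η) ^ (n + j)) atTop (𝓝 (exp (I * d * w))) := by
  have hy : 0 < w.im := hw
  have hη0 : η ≠ 0 := fun h => by simp [h] at hη
  have hwn : 0 < ‖w‖ := hy.trans_le (im_le_norm w)
  have h1 : Tendsto (fun n : ℕ => (n : ℂ) * (g (w / n) / η - 1)) atTop (𝓝 (I * d * w)) := by
    rw [← tendsto_sub_nhds_zero_iff, NormedAddGroup.tendsto_nhds_zero]
    intro ε hε
    obtain ⟨δ, hδ, h1⟩ := h (‖w‖ / w.im) (by positivity) (ε / (2 * ‖w‖)) (by positivity)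
    filter_upwards [(norm_div_lim w).eventually (gt_mem_nhds hδ), eventually_gt_atTop 0]
      with n h2 hn
    have hn' : (0 : ℝ) < n := by exact_mod_cast hn
    have hn2 : (n : ℂ) ≠ 0 := by exact_mod_cast hn.ne'
    have a1 := h1 _ (div_mem hw hn) h2 (by
      rw [div_natCast_im, norm_div, Complex.norm_natCast]
      apply le_of_eq; field_simp)
    have e : (n : ℂ) * (g (w / n) / η - 1) - I * d * w
        = n * (g (w / n) - η - I * d * η * (w / n)) / η := by field_simp
    rw [e, norm_div, hη, div_one, norm_mul, Complex.norm_natCast]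
    rw [norm_div, Complex.norm_natCast] at a1
    calc _ ≤ n * (ε / (2 * ‖w‖) * (‖w‖ / n)) := mul_le_mul_of_nonneg_left a1 hn'.le
      _ = ε / 2 := by field_simp
      _ < ε := by linarith
  have h2 := Complex.tendsto_one_add_pow_exp_of_tendsto h1
  have h3 : Tendsto (fun n : ℕ => g (w / n) / η) atTop (𝓝 1) := by
    have := h1.mul (tendsto_inv_atTop_nhds_zero_nat (𝕜 := ℂ))
    rw [mul_zero] at this
    rw [← tendsto_sub_nhds_zero_iff]
    refine this.congr' ?_
    filter_upwards [eventually_gt_atTop 0] with n hn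
    have hn2 : (n : ℂ) ≠ 0 := by exact_mod_cast hn.ne'
    field_simp
  have h4 := h2.mul (h3.pow j)
  simp only [add_sub_cancel, one_pow, mul_one] at h4
  simpa only [pow_add] using h4

/-- geometric exponential sum -/
noncomputable def S (L : ℕ) (α : ℝ) : ℂ := ∑ m ∈ Finset.range L, exp (I * α * m)

lemma S_le (L : ℕ) (α : ℝ) : ‖S L α‖ ≤ L := by
  refine (norm_sum_le _ _).trans (le_of_eq ?_)
  rw [Finset.sum_congr rfl (g := fun _ => (1 : ℝ))]
  · simp
  · intro m _
    rw [norm_exp]; simp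

lemma S_lim {α : ℝ} (h : exp (I * α) ≠ 1) : Tendsto (fun L : ℕ => ‖S L α‖ / L) atTop (𝓝 0) := by
  have hp : 0 < ‖exp (I * α) - 1‖ := norm_pos_iff.2 (sub_ne_zero.2 h)
  refine squeeze_zero (fun L => by positivity) (fun L => ?_)
    (tendsto_const_div_atTop_nhds_zero_nat (2 / ‖exp (I * α) - 1‖))
  gcongr
  have : S L α = ∑ m ∈ Finset.range L, exp (I * α) ^ m :=
    Finset.sum_congr rfl fun m _ => by rw [← exp_nat_mul, mul_comm]
  rw [this, geom_sum_eq h, norm_div]
  gcongr
  refine (norm_sub_le _ _).trans ?_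
  rw [norm_pow, norm_exp]
  simp
  norm_num

lemma SS_lim {α : ℝ} (h : α ≠ 0) :
    Tendsto (fun L : ℕ => ‖S L α * S L (α * √2)‖ / (L : ℝ) ^ 2) atTop (𝓝 0) := by
  have e : ∀ L : ℕ, ‖S L α * S L (α * √2)‖ / (L : ℝ) ^ 2
      = ‖S L α‖ / L * (‖S L (α * √2)‖ / L) := fun L => by rw [norm_mul]; ring
  have b : ∀ (L : ℕ) (β : ℝ), ‖S L β‖ / L ≤ 1 := fun L β =>
    div_le_one_of_le₀ (S_le L β) (by positivity)
  simp only [e]
  by_cases h1 : exp (I * α) = 1
  · have h2 : exp (I * (α * √2 : ℝ)) ≠ 1 := by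
      intro h2
      obtain ⟨a, ha⟩ := exp_eq_one_iff.1 h1
      obtain ⟨c, hc⟩ := exp_eq_one_iff.1 h2
      have ha' := congrArg Complex.im ha
      have hc' := congrArg Complex.im hc
      simp at ha' hc'
      have ha0 : (a : ℝ) ≠ 0 := fun h0 => h (by rw [ha', h0, zero_mul])
      apply irrational_sqrt_two
      refine ⟨(c : ℚ) / a, ?_⟩
      push_cast
      rw [div_eq_iff ha0]
      have hp := Real.pi_pos
      apply mul_right_cancel₀ (show 2 * Real.pi ≠ 0 by positivity)
      rw [← hc', ha']; ring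
    exact squeeze_zero (fun L => by positivity)
      (fun L => mul_le_of_le_one_left (by positivity) (b L α)) (S_lim h2)
  · exact squeeze_zero (fun L => by positivity)
      (fun L => mul_le_of_le_one_right (by positivity) (b L _)) (S_lim h1)

/-- sampling nodes -/
noncomputable def nd (p : ℕ × ℕ) : ℂ := ((p.1 + √2 * p.2 : ℝ) : ℂ) + I

lemma nd_mem (p : ℕ × ℕ) : nd p ∈ H := by simp [nd, H]

/-- integrand -/
noncomputable def F (f : ℂ → ℂ) (j k n : ℕ) (w : ℂ) : ℂ :=
  f w ^ (n + j) * exp (-(I * (n + k) * w))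

/-- averaged integrand -/
noncomputable def av (f : ℂ → ℂ) (j k L n : ℕ) (θ : ℝ) : ℝ :=
  ‖∑ p ∈ Finset.range L ×ˢ Finset.range L, F f j k n (θ + nd p / n)‖ / (L : ℝ) ^ 2

lemma exp_lim (k : ℕ) (w : ℂ) :
    Tendsto (fun n : ℕ => exp (-(I * (n + k) * (w / n)))) atTop (𝓝 (exp (-(I * w)))) := by
  have h1 : Tendsto (fun n : ℕ => -(I * w + I * k * w * (n : ℂ)⁻¹)) atTop
      (𝓝 (-(I * w + I * k * w * 0))) :=
    (((tendsto_inv_atTop_nhds_zero_nat (𝕜 := ℂ)).const_mul _).const_add _).neg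
  rw [mul_zero, add_zero] at h1
  refine (continuous_exp.tendsto _).comp (h1.congr' ?_)
  filter_upwards [eventually_gt_atTop 0] with n hn
  have hn2 : (n : ℂ) ≠ 0 := by exact_mod_cast hn.ne'
  field_simp

lemma pointwise {f : ℂ → ℂ} (hd : DifferentiableOn ℂ f H) (hf : ∀ w ∈ H, ‖f w‖ < 1) (j k : ℕ)
    (θ : ℝ) : ∃ l : ℕ → ℝ, (∀ L, Tendsto (fun n => av f j k L n θ) atTop (𝓝 (l L))) ∧
      ((¬ ∃ η : ℂ, ‖η‖ = 1 ∧ Ang (fun w => f (θ + w)) η 1) → Tendsto l atTop (𝓝 0)) := by
  have hu : ∀ n : ℕ, ‖exp (-(I * (n + k) * θ))‖ = 1 := fun n => by rw [norm_exp]; simp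
  have hg : ∀ w ∈ H, ‖f (θ + w)‖ < 1 := fun w hw => hf _ (shift_mem θ hw)
  by_cases h : Fin0 fun w => f (θ + w)
  · obtain ⟨η, d, hη, hd0, hA⟩ := jc (shift_diff hd θ) hg h
    have hη0 : η ≠ 0 := fun h => by simp [h] at hη
    refine ⟨fun L => ‖∑ p ∈ Finset.range L ×ˢ Finset.range L,
      exp (I * d * nd p) * exp (-(I * nd p))‖ / (L : ℝ) ^ 2, fun L => ?_, fun hne => ?_⟩
    · have := ((tendsto_finset_sum (Finset.range L ×ˢ Finset.range L) fun p _ =>
        (limB hη hA j (nd_mem p)).mul (exp_lim k (nd p))).norm).div_const ((L : ℝ) ^ 2)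
      refine this.congr fun n => ?_
      simp only [av]
      congr 1
      have e : ∀ p, F f j k n (θ + nd p / n) = η ^ (n + j) * exp (-(I * (n + k) * θ)) *
          ((f (θ + nd p / n) / η) ^ (n + j) * exp (-(I * (n + k) * (nd p / n)))) := fun p => by
        simp only [F, div_pow, mul_add, neg_add, exp_add]
        field_simp
      simp only [e]
      rw [← Finset.mul_sum, norm_mul, norm_mul, hu, norm_pow, hη, one_pow, one_mul, one_mul]
    · have hd1 : d - 1 ≠ 0 := fun h1 => hne ⟨η, hη, by rwa [show d = 1 by linarith] at hA⟩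
      have := (SS_lim hd1).const_mul (Real.exp (1 - d))
      rw [mul_zero] at this
      refine this.congr fun L => ?_
      have e : ∀ p : ℕ × ℕ, exp (I * d * nd p) * exp (-(I * nd p)) = exp ((1 - d : ℝ) : ℂ) *
          (exp (I * (d - 1 : ℝ) * p.1) * exp (I * ((d - 1) * √2 : ℝ) * p.2)) := fun p => by
        rw [← exp_add, ← exp_add, ← exp_add]
        congr 1
        simp only [nd]
        push_cast
        linear_combination (d - 1 : ℂ) * I_mul_I
      simp only [e]
      rw [← Finset.mul_sum, norm_mul (exp _), norm_exp, ofReal_re, mul_div_assoc,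
        Finset.sum_product, S, S, Finset.sum_mul_sum]
  · refine ⟨fun _ => 0, fun L => ?_, fun _ => tendsto_const_nhds⟩
    have := ((tendsto_finset_sum (Finset.range L ×ˢ Finset.range L) fun p _ =>
      (limA hg h j (nd_mem p)).mul (exp_lim k (nd p))).norm).div_const ((L : ℝ) ^ 2)
    simp only [zero_mul, Finset.sum_const_zero, norm_zero, zero_div] at this
    refine this.congr fun n => ?_
    simp only [av]
    congr 1
    have e : ∀ p, F f j k n (θ + nd p / n) = exp (-(I * (n + k) * θ)) *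
        (f (θ + nd p / n) ^ (n + j) * exp (-(I * (n + k) * (nd p / n)))) := fun p => by
      simp only [F, mul_add, neg_add, exp_add]
      ring
    simp only [e]
    rw [← Finset.mul_sum, norm_mul, hu, one_mul]

lemma F_cont {f : ℂ → ℂ} (hd : DifferentiableOn ℂ f H) (j k n : ℕ) {w : ℂ} (hw : w ∈ H) :
    Continuous fun θ : ℝ => F f j k n (θ + w) := by
  have : Continuous fun θ : ℝ => f (θ + w) :=
    hd.continuousOn.comp_continuous (by fun_prop) fun θ => shift_mem θ hw
  exact (this.pow _).mul (by fun_prop)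

lemma av_cont {f : ℂ → ℂ} (hd : DifferentiableOn ℂ f H) (j k L : ℕ) {n : ℕ} (hn : 0 < n) :
    Continuous (av f j k L n) :=
  (continuous_finsetSum _ fun p _ => F_cont hd j k n (div_mem (nd_mem p) hn)).norm.div_const _

lemma av_le {f : ℂ → ℂ} (hf : ∀ w ∈ H, ‖f w‖ < 1) (j k L : ℕ) {n : ℕ} (hn : 0 < n) (θ : ℝ) :
    av f j k L n θ ≤ Real.exp (1 + k) := by
  have hn' : (1 : ℝ) ≤ n := by exact_mod_cast hn
  have h1 : ∀ p ∈ Finset.range L ×ˢ Finset.range L,
      ‖F f j k n (θ + nd p / n)‖ ≤ Real.exp (1 + k) := fun p _ => by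
    rw [F, norm_mul, norm_pow, norm_exp]
    refine (mul_le_of_le_one_left (Real.exp_pos _).le (pow_le_one₀ (norm_nonneg _)
      (hf _ (shift_mem θ (div_mem (nd_mem p) hn))).le)).trans (Real.exp_le_exp.2 ?_)
    have : (-(I * (n + k) * (θ + nd p / n))).re = (n + k) / n := by
      simp [nd, div_natCast_im, div_natCast_re]
      field_simp
    rw [this, div_le_iff₀ (by linarith)]
    nlinarith [(Nat.cast_nonneg k : (0 : ℝ) ≤ k)]
  have h2 := (norm_sum_le _ _).trans (Finset.sum_le_card_nsmul _ _ _ h1)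
  simp only [Finset.card_product, Finset.card_range, nsmul_eq_mul, Nat.cast_mul] at h2
  apply div_le_of_le_mul₀ (by positivity) (Real.exp_pos _).le
  nlinarith

lemma main_av {f : ℂ → ℂ} (hd : DifferentiableOn ℂ f H) (hf : ∀ w ∈ H, ‖f w‖ < 1) (j k : ℕ)
    (hE : volume {θ : ℝ | ∃ η : ℂ, ‖η‖ = 1 ∧ Ang (fun w => f (θ + w)) η 1} = 0)
    (ε : ℝ) (hε : 0 < ε) : ∃ L : ℕ, 0 < L ∧
      ∀ᶠ n in atTop, ∫ θ in Ioc 0 (2 * Real.pi), av f j k L n θ < ε := by
  choose l hl1 hl2 using pointwise hd hf j k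
  have hav0 : ∀ L n θ, 0 ≤ av f j k L n θ := fun L n θ => by simp only [av]; positivity
  have h1 : ∀ L, Tendsto (fun n => ∫ θ in Ioc 0 (2 * Real.pi), av f j k L n θ) atTop
      (𝓝 (∫ θ in Ioc 0 (2 * Real.pi), l θ L)) := fun L =>
    tendsto_integral_filter_of_dominated_convergence (fun _ => Real.exp (1 + k))
      ((eventually_gt_atTop 0).mono fun n hn => (av_cont hd j k L hn).aestronglyMeasurable)
      ((eventually_gt_atTop 0).mono fun n hn => Eventually.of_forall fun θ => by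
        rw [Real.norm_eq_abs, abs_of_nonneg (hav0 _ _ _)]; exact av_le hf j k L hn θ)
      (integrable_const _) (Eventually.of_forall fun θ => hl1 θ L)
  have hm : ∀ L, Measurable fun θ => l θ L := fun L =>
    measurable_of_tendsto_metrizable (f := fun n θ => av f j k L (n + 1) θ)
      (fun n => (av_cont hd j k L n.succ_pos).measurable)
      (tendsto_pi_nhds.2 fun θ => (hl1 θ L).comp (tendsto_add_atTop_nat 1))
  have h2 : Tendsto (fun L => ∫ θ in Ioc 0 (2 * Real.pi), l θ L) atTop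
      (𝓝 (∫ _ in Ioc 0 (2 * Real.pi), (0 : ℝ))) :=
    tendsto_integral_of_dominated_convergence (fun _ => Real.exp (1 + k))
      (fun L => (hm L).aestronglyMeasurable) (integrable_const _)
      (fun L => Eventually.of_forall fun θ => by
        rw [Real.norm_eq_abs, abs_of_nonneg (ge_of_tendsto' (hl1 θ L) fun n => hav0 _ _ _)]
        exact le_of_tendsto (hl1 θ L) ((eventually_gt_atTop 0).mono fun n hn =>
          av_le hf j k L hn θ))
      (ae_restrict_of_ae ((measure_eq_zero_iff_ae_notMem.1 hE).mono fun θ hθ => hl2 θ hθ))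
  rw [integral_zero] at h2
  obtain ⟨L, hL1, hL2⟩ := ((h2.eventually (gt_mem_nhds hε)).and (eventually_gt_atTop 0)).exists
  exact ⟨L, hL2, (h1 L).eventually (gt_mem_nhds hL1)⟩

lemma exp_mem {w : ℂ} (hw : w ∈ H) : exp (I * w) ∈ ball (0 : ℂ) 1 := by
  have : 0 < w.im := hw
  rw [mem_ball_zero_iff, norm_exp]
  simpa using this

lemma coeff {φ : ℂ → ℂ} (hd : DifferentiableOn ℂ φ (ball 0 1)) (j k : ℕ) {n : ℕ} (hn : 0 < n)
    (p : ℕ × ℕ) :
    ∫ θ in Ioc 0 (2 * Real.pi), F (fun w => φ (exp (I * w))) j k n (θ + nd p / n)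
      = 2 * Real.pi * (iteratedDeriv (n + k) (fun z => φ z ^ (n + j)) 0 / ((n + k).factorial : ℂ)) := by
  have hn' : (0 : ℝ) < n := by exact_mod_cast hn
  have hn2 : (n : ℂ) ≠ 0 := by exact_mod_cast hn.ne'
  set r := Real.exp (-(1 / n)) with hr
  have hr0 : 0 < r := Real.exp_pos _
  have hr1 : r < 1 := Real.exp_lt_one_iff.2 (by simpa using hn)
  have h1 := ((hd.pow (n + j)).mono (closedBall_subset_ball hr1)).circleIntegral_one_div_sub_center_pow_smul
    hr0 (n + k)
  set g : ℝ → ℂ := fun θ => F (fun w => φ (exp (I * w))) j k n (θ + I / n) with hg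
  have hc : ∀ θ : ℝ, circleMap 0 r θ = exp (I * (θ + I / n)) := fun θ => by
    rw [circleMap_zero, hr, ofReal_exp, ← exp_add]
    congr 1
    push_cast
    linear_combination (-(n : ℂ)⁻¹) * I_mul_I
  have h2 : ∮ z in C(0, r), (1 / (z - 0) ^ (n + k + 1)) • (φ ^ (n + j)) z
      = I * ∫ θ in (0 : ℝ)..2 * Real.pi, g θ := by
    rw [circleIntegral, ← intervalIntegral.integral_const_mul]
    refine intervalIntegral.integral_congr fun θ _ => ?_
    simp only [deriv_circleMap, hc, hg, F, smul_eq_mul, sub_zero, Pi.pow_apply]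
    rw [exp_neg, show I * (n + k) * (θ + I / n) = ((n + k : ℕ) : ℂ) * (I * (θ + I / n)) by
      push_cast; ring, exp_nat_mul, pow_succ]
    field_simp
  have hper : Function.Periodic g (2 * Real.pi) := fun θ => by
    simp only [hg, F]
    push_cast
    rw [show I * (θ + 2 * Real.pi + I / n) = I * (θ + I / n) + 2 * Real.pi * I by ring,
      show -(I * (n + k) * (θ + 2 * Real.pi + I / n))
        = -(I * (n + k) * (θ + I / n)) - ((n + k : ℕ) : ℂ) * (2 * Real.pi * I) by push_cast; ring,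
      exp_add, exp_two_pi_mul_I, mul_one, exp_sub, exp_nat_mul_two_pi_mul_I, div_one]
  have h3 := hper.intervalIntegral_add_eq ((p.1 + √2 * p.2) / n) 0
  have h4 := intervalIntegral.integral_comp_add_right (a := 0) (b := 2 * Real.pi) g
    ((p.1 + √2 * p.2) / n)
  rw [zero_add, add_comm (2 * Real.pi), h3, zero_add] at h4
  rw [← intervalIntegral.integral_of_le (by positivity)]
  have h5 : ∀ θ : ℝ, F (fun w => φ (exp (I * w))) j k n (θ + nd p / n)
      = g (θ + (p.1 + √2 * p.2) / n) := fun θ => by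
    simp only [hg, nd]
    congr 1
    push_cast
    ring
  simp only [h5]
  rw [h4]
  rw [h2, smul_eq_mul] at h1
  apply mul_left_cancel₀ I_ne_zero
  rw [h1]
  have : (φ ^ (n + j)) = fun z => φ z ^ (n + j) := rfl
  rw [this]
  ring

lemma null_set {φ : ℂ → ℂ} (hd : DifferentiableOn ℂ φ (ball 0 1))
    (hr : ¬ ∃ c : ℂ, ‖c‖ = 1 ∧ ∀ z ∈ ball (0 : ℂ) 1, φ z = c * z) :
    volume {θ : ℝ | ∃ η : ℂ, ‖η‖ = 1 ∧ Ang (fun w => φ (exp (I * (θ + w)))) η 1} = 0 := by
  by_contra hne
  set f : ℂ → ℂ := fun w => φ (exp (I * w)) with hf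
  have hfd : DifferentiableOn ℂ f H := hd.comp (by fun_prop) fun w hw => exp_mem hw
  have hG : DifferentiableOn ℂ (fun w => deriv f w - I * f w) H :=
    (hfd.deriv isOpen_H).sub (hfd.const_mul _)
  have h0 := privalov hG fun h0 => hne (measure_mono_null
    (fun θ ⟨η, hη, hA⟩ => ang_Z hfd hη hA) h0)
  have hconv : Convex ℝ H := convex_halfSpace_im_gt 0
  have hI : I ∈ H := by simp [H]
  have hder : ∀ w ∈ H, HasDerivAt (fun w => f w * exp (-(I * w))) 0 w := fun w hw => by
    have d1 := (hfd.differentiableAt (isOpen_H.mem_nhds hw)).hasDerivAt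
    have d2 := (((hasDerivAt_id' w).const_mul I).neg).cexp
    refine (d1.mul d2).congr_deriv ?_
    have := h0 w hw
    simp only [Pi.neg_apply]
    linear_combination exp (-(I * w)) * this
  have hcon : ∀ w ∈ H, f w = f I * exp (-(I * I)) * exp (I * w) := fun w hw => by
    have := isOpen_H.is_const_of_deriv_eq_zero hconv.isPreconnected
      (fun u hu => (hder u hu).differentiableAt.differentiableWithinAt)
      (fun u hu => (hder u hu).deriv) hw hI
    rw [← this, mul_assoc, ← exp_add]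
    simp
  set c := f I * exp (-(I * I)) with hc
  obtain ⟨θ, η, hη, hA⟩ := nonempty_of_measure_ne_zero hne
  apply hr
  refine ⟨c, ?_, ?_⟩
  · have t1 := limB hη hA 0 hI
    have t2 := limB hη hA 1 hI
    have hη0 : η ≠ 0 := fun h => by simp [h] at hη
    have t3 : Tendsto (fun n : ℕ => c * exp (I * (θ + I * (n : ℂ)⁻¹)) / η) atTop
        (𝓝 (c * exp (I * (θ + I * 0)) / η)) :=
      ((((continuous_exp.tendsto _).comp ((((tendsto_inv_atTop_nhds_zero_nat (𝕜 := ℂ)).const_mul
        I).const_add (θ : ℂ)).const_mul I))).const_mul c).div_const η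
    have t4 := (t1.mul t3).congr' (f₂ := fun n : ℕ => (φ (exp (I * (θ + I / n))) / η) ^ (n + 1)) (by
      filter_upwards [eventually_gt_atTop 0] with n hn
      have := hcon _ (shift_mem θ (div_mem hI hn))
      simp only [hf] at this
      rw [add_zero, pow_succ, ← div_eq_mul_inv I, ← this])
    have t5 := tendsto_nhds_unique t4 t2
    have t6 := mul_left_cancel₀ (exp_ne_zero _) (t5.trans (mul_one _).symm)
    have t7 := congrArg norm t6
    rw [norm_div, norm_mul, hη, norm_exp] at t7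
    simpa using t7
  · have hz : ∀ z ∈ ball (0 : ℂ) 1, z ≠ 0 → φ z = c * z := fun z hz hz0 => by
      have e : exp (I * (-I * log z)) = z := by
        rw [show I * (-I * log z) = log z by linear_combination (-log z) * I_mul_I, exp_log hz0]
      have hm : -I * log z ∈ H := by
        have := Real.log_neg (norm_pos_iff.2 hz0) (mem_ball_zero_iff.1 hz)
        simpa [H, log_re] using this
      have := hcon _ hm
      simp only [hf] at this
      rwa [e] at this
    intro z hz1
    by_cases hz0 : z = 0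
    · subst hz0
      have c1 : Tendsto φ (𝓝[≠] 0) (𝓝 (φ 0)) :=
        ((hd.differentiableAt (ball_mem_nhds 0 one_pos)).continuousAt.tendsto).mono_left
          nhdsWithin_le_nhds
      have c2 : Tendsto (fun z : ℂ => c * z) (𝓝[≠] 0) (𝓝 (c * 0)) :=
        tendsto_nhdsWithin_of_tendsto_nhds (Continuous.tendsto (by fun_prop) 0)
      refine tendsto_nhds_unique c1 (c2.congr' ?_)
      filter_upwards [self_mem_nhdsWithin, nhdsWithin_le_nhds (ball_mem_nhds (0 : ℂ) one_pos)]
        with z h1 h2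
      exact (hz z h2 h1).symm
    · exact hz z hz1 hz0

theorem main (φ : ℂ → ℂ) (hd : DifferentiableOn ℂ φ (ball 0 1))
    (hm : MapsTo φ (ball (0 : ℂ) 1) (ball (0 : ℂ) 1))
    (hr : ¬ ∃ c : ℂ, ‖c‖ = 1 ∧ ∀ z ∈ ball (0 : ℂ) 1, φ z = c * z) (j k : ℕ) :
    Tendsto (fun n : ℕ => iteratedDeriv (n + k) (fun z => φ z ^ (n + j)) 0
      / ((n + k).factorial : ℂ)) atTop (𝓝 0) := by
  set f : ℂ → ℂ := fun w => φ (exp (I * w)) with hf
  have hfd : DifferentiableOn ℂ f H := hd.comp (by fun_prop) fun w hw => exp_mem hw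
  have hf1 : ∀ w ∈ H, ‖f w‖ < 1 := fun w hw => mem_ball_zero_iff.1 (hm (exp_mem hw))
  rw [NormedAddGroup.tendsto_nhds_zero]
  intro ε hε
  obtain ⟨L, hL, h1⟩ := main_av hfd hf1 j k (null_set hd hr) ε hε
  filter_upwards [h1, eventually_gt_atTop 0] with n h2 hn
  set c := iteratedDeriv (n + k) (fun z => φ z ^ (n + j)) 0 / ((n + k).factorial : ℂ) with hc
  have hL' : (0 : ℝ) < L := by exact_mod_cast hL
  have a1 : ∫ θ in Ioc 0 (2 * Real.pi), ∑ p ∈ Finset.range L ×ˢ Finset.range L,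
      F f j k n (θ + nd p / n) = (L : ℂ) ^ 2 * (2 * Real.pi * c) := by
    rw [integral_finset_sum _ fun p _ =>
      (F_cont hfd j k n (div_mem (nd_mem p) hn)).integrableOn_Ioc]
    rw [Finset.sum_congr rfl fun p _ => coeff hd j k hn p]
    simp [sq, hc]
  have a2 := norm_integral_le_integral_norm (μ := volume.restrict (Ioc 0 (2 * Real.pi)))
    fun θ : ℝ => ∑ p ∈ Finset.range L ×ˢ Finset.range L, F f j k n (θ + nd p / n)
  rw [a1] at a2
  simp only [av] at h2
  rw [integral_div, div_lt_iff₀ (by positivity)] at h2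
  rw [norm_mul, norm_mul, norm_mul, norm_pow, Complex.norm_natCast, Complex.norm_ofNat,
    norm_real, Real.norm_eq_abs, abs_of_pos Real.pi_pos] at a2
  have a3 : (L : ℝ) ^ 2 * (2 * Real.pi * ‖c‖) < (L : ℝ) ^ 2 * ε := by linarith
  have a4 := lt_of_mul_lt_mul_left a3 (by positivity)
  nlinarith [Real.pi_gt_three, norm_nonneg c]

end Pool.Agent.H31.WAT
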