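import Mathlib

set_option autoImplicit false

namespace Pool.Agent.H31Wav

open Filter Topology Set

abbrev L2 : Type := lp (fun _ : ℕ => ℂ) 2

abbrev Op : Type := L2 →L[ℂ] L2

noncomputable def delta (x : ℕ) : L2 := lp.single 2 x 1

lemma inner_delta (x : ℕ) (f : L2) : inner ℂ (delta x) f = f x := by
  unfold delta
  have := lp.inner_single_left (𝕜 := ℂ) (G := fun _ : ℕ => ℂ) x (1 : ℂ) f
  simp at this
  convert this

lemma delta_apply (x y : ℕ) : delta x y = if y = x then 1 else 0 := by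
  unfold delta
  rw [lp.single_apply, Pi.single_apply]

def IsDg (T : Op) (d : ℕ → ℂ) : Prop := ∀ x k, T x k = d k * x k

lemma exists_dg (d : ℕ → ℂ) {K : ℝ} (h : ∀ k, ‖d k‖ ≤ K) : ∃ T, IsDg T d :=
  ⟨lp.mapCLM 2 (fun k => d k • ContinuousLinearMap.id ℂ ℂ) ((norm_nonneg _).trans (h 0))
    (fun k => by rw [norm_smul]; simpa using h k), fun _ _ => rfl⟩

lemma IsDg.norm_le {T : Op} {d : ℕ → ℂ} (h : IsDg T d) {c : ℝ} (hc : 0 ≤ c)
    (hd : ∀ k, ‖d k‖ ≤ c) : ‖T‖ ≤ c := by
  refine ContinuousLinearMap.opNorm_le_bound _ hc fun x => ?_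
  have : c * ‖x‖ = ‖(c : ℂ) • x‖ := by
    rw [norm_smul, Complex.norm_real, Real.norm_eq_abs, abs_of_nonneg hc]
  rw [this]
  refine lp.norm_mono (by norm_num) fun k => ?_
  rw [h, lp.coeFn_smul, Pi.smul_apply, norm_mul, norm_smul, Complex.norm_real, Real.norm_eq_abs,
    abs_of_nonneg hc]
  exact mul_le_mul_of_nonneg_right (hd k) (norm_nonneg _)

lemma IsDg.sub {S T : Op} {d e : ℕ → ℂ} (h : IsDg S d) (h' : IsDg T e) :
    IsDg (S - T) fun k => d k - e k := fun x k => by
  show S x k - T x k = _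
  rw [h, h', sub_mul]

noncomputable def tr (d : ℕ → ℂ) (s : Finset ℕ) : Op :=
  ∑ k ∈ s, d k • (innerSL ℂ (delta k)).smulRight (delta k)

lemma tr_apply (d : ℕ → ℂ) (s : Finset ℕ) (x : L2) :
    tr d s x = ∑ k ∈ s, (d k * x k) • delta k := by
  unfold tr
  rw [sum_apply]
  refine Finset.sum_congr rfl fun k _ => ?_
  show d k • (inner ℂ (delta k) x • delta k) = _
  rw [inner_delta, smul_smul]

lemma tr_dg (d : ℕ → ℂ) (s : Finset ℕ) : IsDg (tr d s) fun k => if k ∈ s then d k else 0 := by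
  intro x j
  rw [tr_apply, lp.coeFn_sum, Finset.sum_apply]
  simp only [lp.coeFn_smul, Pi.smul_apply, delta_apply, smul_eq_mul, mul_ite, mul_one, mul_zero]
  rw [Finset.sum_ite_eq]
  split_ifs <;> simp

lemma tr_compact (d : ℕ → ℂ) (s : Finset ℕ) : IsCompactOperator (tr d s) := by
  classical
  induction s using Finset.induction_on with
  | empty => simpa [tr] using isCompactOperator_zero
  | insert k s hk ih =>
    unfold tr at *
    rw [Finset.sum_insert hk]
    have h : IsCompactOperator (innerSL ℂ (delta k) : L2 →L[ℂ] ℂ) :=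
      isCompactOperator_of_locallyCompactSpace_dom _
    exact ((h.clm_comp (ContinuousLinearMap.toSpanSingleton ℂ (delta k))).smul (d k)).add ih

lemma norm_sub_tr {T : Op} {d : ℕ → ℂ} (h : IsDg T d) {s : Finset ℕ} {c : ℝ} (hc : 0 ≤ c)
    (hd : ∀ k, k ∉ s → ‖d k‖ ≤ c) : ‖T - tr d s‖ ≤ c :=
  (h.sub (tr_dg d s)).norm_le hc fun k => by
    split_ifs with a
    · simpa using hc
    · simpa using hd k a

lemma dg_compact {T : Op} {d : ℕ → ℂ} (h : IsDg T d) (hd : Tendsto d atTop (𝓝 0)) :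
    IsCompactOperator T := by
  refine isCompactOperator_of_tendsto (l := atTop) (F := fun n => tr d (Finset.range n)) ?_
    (Eventually.of_forall fun n => tr_compact _ _)
  rw [Metric.tendsto_atTop]
  intro ε hε
  obtain ⟨N, hN⟩ := Metric.tendsto_atTop.1 hd (ε / 2) (by linarith)
  refine ⟨N, fun n hn => ?_⟩
  rw [dist_comm, dist_eq_norm]
  refine (norm_sub_tr h (c := ε / 2) (by linarith) fun k hk => ?_).trans_lt (by linarith)
  have := hN k (hn.trans (by simpa using hk))
  rw [dist_zero_right] at this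
  exact this.le

noncomputable def dom (dd : ℕ → ℝ) : Submodule ℂ L2 where
  carrier := {x | Memℓp (fun k => (dd k : ℂ) * x k) 2}
  add_mem' {x y} hx hy := by
    have := Memℓp.add hx hy
    show Memℓp _ 2
    convert this using 1
    funext k; simp [mul_add]
  zero_mem' := by
    show Memℓp _ 2
    simpa using zero_mem_ℓp'
  smul_mem' c x hx := by
    have := Memℓp.const_smul hx c
    have e : (fun k => (dd k : ℂ) * (c • x) k) = c • fun k => (dd k : ℂ) * x k :=
      funext fun k => mul_left_comm (dd k : ℂ) c (x k)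
    show Memℓp (fun k => (dd k : ℂ) * (c • x) k) 2
    rw [e]
    exact this

noncomputable def DD (dd : ℕ → ℝ) : L2 →ₗ.[ℂ] L2 where
  domain := dom dd
  toFun :=
    { toFun := fun x => ⟨fun k => (dd k : ℂ) * x.1 k, x.2⟩
      map_add' := fun _ _ => lp.ext (funext fun _ => mul_add _ _ _)
      map_smul' := fun _ _ => lp.ext (funext fun _ => mul_left_comm _ _ _) }

lemma DD_apply {dd : ℕ → ℝ} (x : (DD dd).domain) (k : ℕ) : DD dd x k = dd k * x.1 k := rfl

lemma mem_dom {dd : ℕ → ℝ} {x y : L2} (h : ∀ k, y k = dd k * x k) : x ∈ (DD dd).domain := by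
  have := lp.memℓp y
  rw [show (y : ℕ → ℂ) = fun k => (dd k : ℂ) * x k from funext h] at this
  exact this

lemma delta_dom (dd : ℕ → ℝ) (k : ℕ) : delta k ∈ (DD dd).domain :=
  mem_dom (y := (dd k : ℂ) • delta k) fun j => by
    rw [lp.coeFn_smul, Pi.smul_apply, delta_apply]
    split_ifs with a
    · rw [a, smul_eq_mul]
    · simp

lemma DD_delta (dd : ℕ → ℝ) (k : ℕ) :
    DD dd ⟨delta k, delta_dom dd k⟩ = (dd k : ℂ) • delta k := lp.ext (funext fun j => by
  rw [DD_apply, lp.coeFn_smul, Pi.smul_apply]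
  show _ * delta k j = _
  rw [delta_apply]
  split_ifs with a
  · rw [a, smul_eq_mul]
  · simp)

lemma DD_dense (dd : ℕ → ℝ) : Dense ((DD dd).domain : Set L2) := by
  rw [Submodule.dense_iff_topologicalClosure_eq_top, Submodule.topologicalClosure_eq_top_iff,
    Submodule.eq_bot_iff]
  intro y hy
  refine lp.ext (funext fun k => ?_)
  have := (Submodule.mem_orthogonal _ _).1 hy _ (delta_dom dd k)
  rwa [inner_delta] at this

lemma DD_sa (dd : ℕ → ℝ) : IsSelfAdjoint (DD dd) := by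
  have h1 : (DD dd).IsFormalAdjoint (DD dd) := by
    intro x y
    rw [lp.inner_eq_tsum, lp.inner_eq_tsum]
    refine tsum_congr fun k => ?_
    rw [DD_apply, DD_apply]
    simp; ring
  have h2 := h1.le_adjoint (DD_dense dd)
  rw [LinearPMap.isSelfAdjoint_def]
  refine (LinearPMap.eq_of_le_of_domain_eq h2 (le_antisymm h2.1 fun y hy => ?_)).symm
  refine mem_dom (y := (DD dd).adjoint ⟨y, hy⟩) fun k => ?_
  have := (LinearPMap.adjoint_isFormalAdjoint (DD_dense dd)).symm ⟨delta k, delta_dom dd k⟩ ⟨y, hy⟩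
  rw [DD_delta, inner_smul_left, inner_delta, inner_delta, Complex.conj_ofReal] at this
  exact this.symm

lemma DD_nonneg {dd : ℕ → ℝ} (h : ∀ k, 0 ≤ dd k) (x : (DD dd).domain) :
    0 ≤ (inner ℂ (DD dd x) (x : L2)).re := by
  have hs := lp.hasSum_inner (𝕜 := ℂ) (DD dd x) (x : L2)
  have := Complex.hasSum_re hs
  refine this.nonneg fun k => ?_
  rw [DD_apply]
  have e : inner ℂ ((dd k : ℂ) * x.1 k) (x.1 k) = ((dd k * ‖x.1 k‖ ^ 2 : ℝ) : ℂ) := by
    rw [show (dd k : ℂ) * x.1 k = (dd k : ℂ) • x.1 k from rfl, inner_smul_left,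
      inner_self_eq_norm_sq_to_K, Complex.conj_ofReal]
    push_cast; rfl
  rw [e, Complex.ofReal_re]
  exact mul_nonneg (h k) (sq_nonneg _)

lemma DD_res {dd : ℕ → ℝ} (h : ∀ k, 0 ≤ dd k) (ht : Tendsto dd atTop atTop) :
    ∃ R : Op, IsCompactOperator R ∧
      (∀ y, ∃ h : R y ∈ (DD dd).domain, DD dd ⟨R y, h⟩ + R y = y) ∧
      ∀ x : (DD dd).domain, R (DD dd x + x) = x := by
  have p : ∀ k, (0 : ℝ) < dd k + 1 := fun k => by linarith [h k]
  have p' : ∀ k, (dd k : ℂ) + 1 ≠ 0 := fun k => by exact_mod_cast (p k).ne'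
  obtain ⟨R, hR⟩ := exists_dg (fun k => (((dd k + 1)⁻¹ : ℝ) : ℂ)) (K := 1) fun k => by
    rw [Complex.norm_real, Real.norm_eq_abs, abs_of_pos (inv_pos.2 (p k))]
    exact inv_le_one_of_one_le₀ (by linarith [h k])
  refine ⟨R, dg_compact hR ?_, fun y => ?_, fun x => ?_⟩
  · have := (tendsto_atTop_add_const_right _ 1 ht).inv_tendsto_atTop
    exact (Complex.continuous_ofReal.tendsto 0).comp this
  · refine ⟨mem_dom (y := y - R y) fun k => ?_, lp.ext (funext fun k => ?_)⟩
    · show y k - R y k = _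
      rw [hR]; push_cast; field_simp [p' k]; ring
    · show (dd k : ℂ) * R y k + R y k = _
      rw [hR]; push_cast; field_simp [p' k]
  · refine lp.ext (funext fun k => ?_)
    rw [hR]
    show _ * ((dd k : ℂ) * x.1 k + x.1 k) = x.1 k
    push_cast; field_simp [p' k]

lemma hasSum_sq (x : L2) : HasSum (fun k => ‖x k‖ ^ 2) (‖x‖ ^ 2) := by
  have := lp.hasSum_norm (p := 2) (by norm_num) x
  simpa using this

lemma exists_comp (f : ℕ → ℕ) (hf : Function.Injective f) :
    ∃ E : Op, ∀ x n, E x n = x (f n) := by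
  have hm : ∀ x : L2, Memℓp (fun n => x (f n)) 2 := fun x => by
    refine memℓp_gen ?_
    have := (hasSum_sq x).summable.comp_injective hf
    simpa [Function.comp_def] using this
  let E0 : L2 →ₗ[ℂ] L2 :=
    { toFun := fun x => ⟨fun n => x (f n), hm x⟩
      map_add' := fun _ _ => lp.ext (funext fun _ => rfl)
      map_smul' := fun _ _ => lp.ext (funext fun _ => rfl) }
  refine ⟨E0.mkContinuous 1 fun x => ?_, fun _ _ => rfl⟩
  rw [one_mul]
  refine (sq_le_sq₀ (norm_nonneg _) (norm_nonneg _)).1 ?_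
  have hE : ∀ n, E0 x n = x (f n) := fun _ => rfl
  have h1 := hasSum_sq (E0 x)
  simp only [hE] at h1
  exact hasSum_le_inj (f := fun n => ‖x (f n)‖ ^ 2) (g := fun k => ‖x k‖ ^ 2) f hf
    (fun _ _ => sq_nonneg _) (fun _ => le_rfl) h1 (hasSum_sq x)

end Pool.Agent.H31Wav
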