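import Pool.Agent.Lib.helper31.Wav

set_option autoImplicit false

namespace Pool.Agent.H31Wav

open Filter Topology Set

lemma exists_obs (b : ℕ → ℝ) (hb : ∀ k, |b k| ≤ 1) :
    ∃ C : Op, ∀ x n, C x n = b (2 * n) * x (2 * n) + b (2 * n + 1) * x (2 * n + 1) := by
  obtain ⟨M, hM⟩ := exists_dg (fun k => (b k : ℂ)) (K := 1) fun k => by
    rw [Complex.norm_real, Real.norm_eq_abs]; exact hb k
  obtain ⟨E, hE⟩ := exists_comp (fun n => 2 * n) fun _ _ h => by simpa using h
  obtain ⟨F, hF⟩ := exists_comp (fun n => 2 * n + 1) fun _ _ h => by simpa using h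
  refine ⟨E * M + F * M, fun x n => ?_⟩
  show E (M x) n + F (M x) n = _
  rw [hE, hF, hM, hM]

lemma adj_delta {b : ℕ → ℝ} {C : Op}
    (hC : ∀ x n, C x n = b (2 * n) * x (2 * n) + b (2 * n + 1) * x (2 * n + 1)) (n k : ℕ) :
    (ContinuousLinearMap.adjoint C) (delta n) k =
      if k = 2 * n ∨ k = 2 * n + 1 then (b k : ℂ) else 0 := by
  rw [← inner_delta, ContinuousLinearMap.adjoint_inner_right, ← inner_conj_symm, inner_delta, hC,
    delta_apply, delta_apply]
  by_cases h1 : k = 2 * n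
  · subst h1; simp
  · by_cases h2 : k = 2 * n + 1
    · subst h2; simp
    · rw [if_neg (Ne.symm h1), if_neg (Ne.symm h2), if_neg (by tauto)]; simp

lemma int_two (P Q : ℂ) : ∫ t in (0 : ℝ)..(2 * Real.pi),
    ‖P + Q * Complex.exp (-Complex.I * t)‖ ^ 2 = 2 * Real.pi * (‖P‖ ^ 2 + ‖Q‖ ^ 2) := by
  have e : ∀ t : ℝ, ‖P + Q * Complex.exp (-Complex.I * t)‖ ^ 2 = (‖P‖ ^ 2 + ‖Q‖ ^ 2) +
      ((2 * (P.re * Q.re + P.im * Q.im)) * Real.cos t +
        (2 * (P.re * Q.im - P.im * Q.re)) * Real.sin t) := fun t => by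
    rw [show -Complex.I * t = ((-t : ℝ) : ℂ) * Complex.I by push_cast; ring]
    simp only [Complex.sq_norm, Complex.normSq_apply, Complex.add_re, Complex.add_im,
      Complex.mul_re, Complex.mul_im, Complex.exp_ofReal_mul_I_re, Complex.exp_ofReal_mul_I_im,
      Real.cos_neg, Real.sin_neg]
    linear_combination (Q.re ^ 2 + Q.im ^ 2) * Real.sin_sq_add_cos_sq t
  simp only [e]
  rw [intervalIntegral.integral_add (by simp) (Continuous.intervalIntegrable (by fun_prop) _ _),
    intervalIntegral.integral_const,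
    intervalIntegral.integral_add (Continuous.intervalIntegrable (by fun_prop) _ _)
      (Continuous.intervalIntegrable (by fun_prop) _ _),
    intervalIntegral.integral_const_mul, intervalIntegral.integral_const_mul]
  simp

lemma coord {g : ℝ → ℂ} {m : ℝ} (h : ∀ t, HasDerivAt g (-Complex.I * (m * g t)) t) (t : ℝ) :
    g t = Complex.exp (-Complex.I * m * t) * g 0 := by
  have d : ∀ t : ℝ, HasDerivAt (fun s : ℝ => Complex.exp (Complex.I * m * s) * g s) 0 t := by
    intro t
    have h1 : HasDerivAt (fun s : ℝ => Complex.exp (Complex.I * m * s))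
        (Complex.exp (Complex.I * m * t) * (Complex.I * m * 1)) t :=
      ((hasDerivAt_id t).ofReal_comp.const_mul (Complex.I * m)).cexp
    refine (h1.mul (h t)).congr_deriv ?_
    ring
  have := is_const_of_deriv_eq_zero (fun t => (d t).differentiableAt) (fun t => (d t).deriv) t 0
  simp only [Complex.ofReal_zero, mul_zero, Complex.exp_zero, one_mul] at this
  rw [← this, ← mul_assoc, ← Complex.exp_add]
  simp

lemma sum_two (a : ℕ → ℝ) (N : ℕ) :
    ∑ n ∈ Finset.range N, (a (2 * n) + a (2 * n + 1)) = ∑ k ∈ Finset.range (2 * N), a k := by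
  induction N with
  | zero => simp
  | succ N ih =>
    rw [Finset.sum_range_succ, ih, show 2 * (N + 1) = 2 * N + 1 + 1 by ring, Finset.sum_range_succ,
      Finset.sum_range_succ]
    ring

lemma observe {b m : ℕ → ℝ} {C : Op} {c : ℝ} (hc : 0 < c) (hb : ∀ k, c ≤ b k ^ 2)
    (hm : ∀ n, m (2 * n + 1) = m (2 * n) + 1)
    (hC : ∀ x n, C x n = b (2 * n) * x (2 * n) + b (2 * n + 1) * x (2 * n + 1))
    {u : ℝ → L2} (hu : Continuous u)
    (hd : ∀ k t, HasDerivAt (fun s => u s k) (-Complex.I * (m k * u t k)) t) :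
    ‖u 0‖ ^ 2 ≤ (2 * Real.pi * c)⁻¹ * ∫ t in (0 : ℝ)..(2 * Real.pi), ‖C (u t)‖ ^ 2 := by
  have hp : 0 < 2 * Real.pi * c := by positivity
  have key : ∀ n t, ‖C (u t) n‖ ^ 2 = ‖b (2 * n) * u 0 (2 * n) +
      b (2 * n + 1) * u 0 (2 * n + 1) * Complex.exp (-Complex.I * t)‖ ^ 2 := by
    intro n t
    rw [hC, coord (hd (2 * n)) t, coord (hd (2 * n + 1)) t, hm]
    have : (b (2 * n) : ℂ) * (Complex.exp (-Complex.I * m (2 * n) * t) * u 0 (2 * n)) +
        b (2 * n + 1) * (Complex.exp (-Complex.I * ((m (2 * n) + 1 : ℝ) : ℂ) * t) *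
          u 0 (2 * n + 1)) = Complex.exp (((-(m (2 * n) * t) : ℝ) : ℂ) * Complex.I) *
        (b (2 * n) * u 0 (2 * n) +
          b (2 * n + 1) * u 0 (2 * n + 1) * Complex.exp (-Complex.I * t)) := by
      rw [show -Complex.I * ((m (2 * n) + 1 : ℝ) : ℂ) * t =
        ((-(m (2 * n) * t) : ℝ) : ℂ) * Complex.I + -Complex.I * t by push_cast; ring,
        Complex.exp_add, show -Complex.I * m (2 * n) * t =
        ((-(m (2 * n) * t) : ℝ) : ℂ) * Complex.I by push_cast; ring]
      ring
    rw [this, norm_mul, Complex.norm_exp_ofReal_mul_I, one_mul]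
  have fin : ∀ N, ∑ k ∈ Finset.range (2 * N), ‖u 0 k‖ ^ 2 ≤
      (2 * Real.pi * c)⁻¹ * ∫ t in (0 : ℝ)..(2 * Real.pi), ‖C (u t)‖ ^ 2 := by
    intro N
    rw [le_inv_mul_iff₀ hp, ← sum_two, Finset.mul_sum]
    calc _ ≤ ∑ n ∈ Finset.range N, ∫ t in (0 : ℝ)..(2 * Real.pi), ‖C (u t) n‖ ^ 2 := by
          refine Finset.sum_le_sum fun n _ => ?_
          simp only [key]
          rw [int_two, mul_assoc (2 * Real.pi) c]
          refine mul_le_mul_of_nonneg_left ?_ (by positivity)
          simp only [norm_mul, mul_pow, Complex.norm_real, Real.norm_eq_abs, sq_abs]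
          nlinarith [mul_le_mul_of_nonneg_right (hb (2 * n)) (sq_nonneg ‖u 0 (2 * n)‖),
            mul_le_mul_of_nonneg_right (hb (2 * n + 1)) (sq_nonneg ‖u 0 (2 * n + 1)‖)]
      _ = ∫ t in (0 : ℝ)..(2 * Real.pi), ∑ n ∈ Finset.range N, ‖C (u t) n‖ ^ 2 := by
          rw [intervalIntegral.integral_finsetSum]
          intro n _
          simp only [key]
          exact Continuous.intervalIntegrable (by fun_prop) _ _
      _ ≤ _ := by
          refine intervalIntegral.integral_mono_on (by positivity) ?_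
            (Continuous.intervalIntegrable (by fun_prop) _ _) fun t _ => ?_
          · simp only [key]
            exact Continuous.intervalIntegrable (by fun_prop) _ _
          · exact sum_le_hasSum _ (fun _ _ => sq_nonneg _) (hasSum_sq _)
  have ht : Tendsto (fun N : ℕ => 2 * N) atTop atTop :=
    tendsto_atTop_mono (fun N => by simp only [id]; omega) tendsto_id
  exact le_of_tendsto' ((hasSum_sq (u 0)).tendsto_sum_nat.comp ht) fin

end Pool.Agent.H31Wav
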