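import Pool.Agent.Lib.helper31.Wav2

set_option autoImplicit false

namespace Pool.Agent.H31Wav

open Filter Topology Set

noncomputable def om (n : ℕ) : ℝ := n + 2
noncomputable def ep (n : ℕ) : ℝ := 1 / (2 * om n ^ 2)
noncomputable def LL (n : ℕ) : ℝ := om n ^ 2 + ep n ^ 2
noncomputable def Dn (n : ℕ) : ℝ := 1 / 4 + 1 / om n ^ 2
noncomputable def sg (k : ℕ) : ℝ := if k % 2 = 0 then -1 else 1
noncomputable def mm (k : ℕ) : ℝ := om (k / 2) ^ 2 - ep (k / 2) ^ 2 + sg k / 2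
noncomputable def pp (k : ℕ) : ℝ :=
  Dn (k / 2) * (om (k / 2) ^ 2 + sg k * (2 * ep (k / 2))) / (2 * LL (k / 2))
noncomputable def bb (k : ℕ) : ℝ := √(pp k)
noncomputable def lam (n : ℕ) : ℂ := -ep n + om n * Complex.I

lemma om_ge (n : ℕ) : 2 ≤ om n := by
  unfold om; have : (0 : ℝ) ≤ n := Nat.cast_nonneg n
  linarith
lemma ep_pos (n : ℕ) : 0 < ep n := by unfold ep; have := om_ge n; positivity
lemma ep_le (n : ℕ) : ep n ≤ 1 / 8 := by
  unfold ep; have := om_ge n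
  exact one_div_le_one_div_of_le (by norm_num) (by nlinarith)
lemma sg_abs (k : ℕ) : -1 ≤ sg k ∧ sg k ≤ 1 := by unfold sg; split_ifs <;> norm_num
lemma sg0 (n : ℕ) : sg (2 * n) = -1 := by unfold sg; rw [if_pos (by omega)]
lemma sg1 (n : ℕ) : sg (2 * n + 1) = 1 := by unfold sg; rw [if_neg (by omega)]
lemma Dn_bd (n : ℕ) : 1 / 4 ≤ Dn n ∧ Dn n ≤ 1 / 2 := by
  unfold Dn; have := om_ge n
  have h : 1 / om n ^ 2 ≤ 1 / 4 := one_div_le_one_div_of_le (by norm_num) (by nlinarith)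
  have h2 : 0 ≤ 1 / om n ^ 2 := by positivity
  constructor <;> linarith

lemma pp_bd (k : ℕ) : 1 / 32 ≤ pp k ∧ pp k ≤ 1 := by
  have h1 := om_ge (k / 2)
  have h2 := ep_pos (k / 2)
  have h3 := ep_le (k / 2)
  obtain ⟨h4, h5⟩ := sg_abs k
  obtain ⟨h6, h7⟩ := Dn_bd (k / 2)
  have hL : 0 < 2 * LL (k / 2) := by unfold LL; positivity
  have a1 : om (k / 2) ^ 2 / 2 ≤ om (k / 2) ^ 2 + sg k * (2 * ep (k / 2)) := by nlinarith
  have a2 : om (k / 2) ^ 2 + sg k * (2 * ep (k / 2)) ≤ 2 * om (k / 2) ^ 2 := by nlinarith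
  have a3 : LL (k / 2) ≤ 2 * om (k / 2) ^ 2 := by unfold LL; nlinarith
  have a4 : om (k / 2) ^ 2 ≤ LL (k / 2) := by unfold LL; nlinarith
  unfold pp
  rw [le_div_iff₀ hL, div_le_iff₀ hL]
  constructor <;> nlinarith

lemma bb_sq (k : ℕ) : bb k ^ 2 = pp k := Real.sq_sqrt (by linarith [(pp_bd k).1])
lemma bb_abs (k : ℕ) : |bb k| ≤ 1 := by
  rw [← sq_le_one_iff_abs_le_one, bb_sq]; exact (pp_bd k).2
lemma bb_pos (k : ℕ) : 0 < bb k := Real.sqrt_pos.2 (by linarith [(pp_bd k).1])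

lemma mm_ge (k : ℕ) : (k : ℝ) / 2 ≤ mm k := by
  have h2 := ep_pos (k / 2)
  have h3 := ep_le (k / 2)
  obtain ⟨h4, h5⟩ := sg_abs k
  have h : (k : ℝ) ≤ 2 * ((k / 2 : ℕ) : ℝ) + 1 := by exact_mod_cast (by omega : k ≤ 2 * (k / 2) + 1)
  have h0 : (0 : ℝ) ≤ ((k / 2 : ℕ) : ℝ) := Nat.cast_nonneg _
  unfold mm om
  nlinarith

lemma mm_nonneg (k : ℕ) : 0 ≤ mm k := le_trans (by positivity) (mm_ge k)
lemma mm_lim : Tendsto mm atTop atTop :=
  tendsto_atTop_mono mm_ge (tendsto_natCast_atTop_atTop.atTop_div_const (by norm_num))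
lemma mm_step (n : ℕ) : mm (2 * n + 1) = mm (2 * n) + 1 := by
  unfold mm
  rw [sg0, sg1, show (2 * n + 1) / 2 = n by omega, show 2 * n / 2 = n by omega]; ring

end Pool.Agent.H31Wav
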