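import Pool.Agent.Lib.helper31.Wav3

set_option autoImplicit false

namespace Pool.Agent.H31Wav

open Filter Topology Set

lemma eig {C : Op}
    (hC : ∀ x n, C x n = bb (2 * n) * x (2 * n) + bb (2 * n + 1) * x (2 * n + 1)) (n : ℕ) :
    ∃ φ : (DD mm).domain, (φ : L2) ≠ 0 ∧ DD mm φ + lam n • (ContinuousLinearMap.adjoint C) (C φ) +
      lam n ^ 2 • (φ : L2) = 0 := by
  let z0 : ℂ := -1 / 2 - Complex.I / om n
  let z1 : ℂ := 1 / 2 - Complex.I / om n
  let φ : (DD mm).domain := (bb (2 * n) * z1) • ⟨delta (2 * n), delta_dom mm _⟩ +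
    (bb (2 * n + 1) * z0) • ⟨delta (2 * n + 1), delta_dom mm _⟩
  have hφ : ∀ k, (φ : L2) k = (bb (2 * n) * z1) * (if k = 2 * n then 1 else 0) +
      (bb (2 * n + 1) * z0) * (if k = 2 * n + 1 then 1 else 0) := fun k => by
    rw [← delta_apply, ← delta_apply]; rfl
  have ho : (om n : ℂ) ≠ 0 := by exact_mod_cast (by linarith [om_ge n] : om n ≠ 0)
  have hL : (LL n : ℂ) ≠ 0 := by
    have : 0 < LL n := by unfold LL; have := om_ge n; positivity
    exact_mod_cast this.ne'
  have q0 : (bb (2 * n) : ℂ) ^ 2 = Dn n * (om n ^ 2 - 2 * ep n) / (2 * LL n) := by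
    rw [← Complex.ofReal_pow, bb_sq, pp, sg0, show 2 * n / 2 = n by omega]; push_cast; ring
  have q1 : (bb (2 * n + 1) : ℂ) ^ 2 = Dn n * (om n ^ 2 + 2 * ep n) / (2 * LL n) := by
    rw [← Complex.ofReal_pow, bb_sq, pp, sg1, show (2 * n + 1) / 2 = n by omega]; push_cast; ring
  have he : (ep n : ℂ) * (2 * om n ^ 2) = 1 := by unfold ep; push_cast; field_simp
  have hl : (LL n : ℂ) = om n ^ 2 + ep n ^ 2 := by unfold LL; push_cast; ring
  have hD : z0 * z1 = -Dn n := by
    simp only [z0, z1, Dn]; push_cast; field_simp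
    linear_combination 16 * Complex.I_sq
  have hs : (bb (2 * n) : ℂ) ^ 2 * z1 + bb (2 * n + 1) ^ 2 * z0 =
      Dn n * (-ep n - om n * Complex.I) / LL n := by
    rw [q0, q1]; simp only [z0, z1]; field_simp; ring
  have hs2 : lam n * ((bb (2 * n) : ℂ) ^ 2 * z1 + bb (2 * n + 1) ^ 2 * z0) = Dn n := by
    rw [hs, lam]; field_simp; rw [hl]
    linear_combination (-(Dn n : ℂ) * om n ^ 2) * Complex.I_sq
  have m0 : (mm (2 * n) : ℂ) + lam n ^ 2 = z0 := by
    rw [mm, sg0, show 2 * n / 2 = n by omega, lam]; simp only [z0]; push_cast; field_simp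
    linear_combination (2 * om n ^ 3) * Complex.I_sq - 2 * Complex.I * he
  have m1 : (mm (2 * n + 1) : ℂ) + lam n ^ 2 = z1 := by
    rw [mm_step]; push_cast
    have : z1 = z0 + 1 := by simp only [z0, z1]; ring
    rw [this, ← m0]; ring
  have hCφ : C φ = ((bb (2 * n) : ℂ) ^ 2 * z1 + bb (2 * n + 1) ^ 2 * z0) • delta n := by
    refine lp.ext (funext fun j => ?_)
    rw [hC, hφ, hφ, lp.coeFn_smul, Pi.smul_apply, delta_apply]
    by_cases a : j = n
    · subst a; simp; ring
    · rw [if_neg (by omega), if_neg (by omega), if_neg (by omega), if_neg (by omega), if_neg a]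
      simp
  refine ⟨φ, fun h => ?_, lp.ext (funext fun k => ?_)⟩
  · have := hφ (2 * n)
    rw [h] at this
    simp only [if_true, show ¬(2 * n = 2 * n + 1) by omega, if_false, mul_one, mul_zero,
      add_zero] at this
    have h2 : (bb (2 * n) : ℂ) * z1 = 0 := this.symm
    rcases mul_eq_zero.1 h2 with h3 | h3
    · exact (bb_pos _).ne' (by exact_mod_cast h3)
    · rw [h3, mul_zero] at hD
      have : (Dn n : ℂ) = 0 := by simpa using hD
      have : Dn n = 0 := by exact_mod_cast this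
      linarith [(Dn_bd n).1]
  · show (mm k : ℂ) * (φ : L2) k + lam n * (ContinuousLinearMap.adjoint C) (C φ) k +
      lam n ^ 2 * (φ : L2) k = 0
    rw [hCφ, map_smul, lp.coeFn_smul, Pi.smul_apply, adj_delta hC, hφ, smul_eq_mul]
    by_cases h1 : k = 2 * n
    · subst h1
      simp only [if_true, show ¬(2 * n = 2 * n + 1) by omega, if_false, true_or]
      linear_combination (bb (2 * n) * z1) * m0 + bb (2 * n) * hD + bb (2 * n) * hs2
    · by_cases h2 : k = 2 * n + 1
      · subst h2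
        simp only [if_true, show ¬(2 * n + 1 = 2 * n) by omega, if_false, or_true]
        linear_combination (bb (2 * n + 1) * z0) * m1 + bb (2 * n + 1) * hD + bb (2 * n + 1) * hs2
      · rw [if_neg h1, if_neg h2, if_neg (by tauto)]; simp

end Pool.Agent.H31Wav
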