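import Pool.Agent.Lib.helper31.RealCStar

set_option autoImplicit false

namespace Pool.Agent.Lib.helper31.WeakLim

open Filter Topology Pool.Agent.Lib.helper31.NumIdx Pool.Agent.Lib.helper31.RealCStar

variable {X E : Type} [NormedAddCommGroup X] [NormedSpace ℝ X] [NormedAddCommGroup E]
  [NormedSpace ℝ E] (Φ : X ≃ₗᵢ[ℝ] (E →L[ℝ] ℝ))

def Lim (U : Ultrafilter (Finset E)) (x : Finset E → X) (a : X) : Prop :=
  ∀ e, Tendsto (fun i => Φ (x i) e) U (𝓝 (Φ a e))

variable {Φ} {U : Ultrafilter (Finset E)}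

lemma Lim.unique {x : Finset E → X} {a b : X} (h : Lim Φ U x a) (h' : Lim Φ U x b) : a = b := by
  apply Φ.injective
  ext e
  exact tendsto_nhds_unique (h e) (h' e)

lemma Lim.add {x y : Finset E → X} {a b : X} (h : Lim Φ U x a) (h' : Lim Φ U y b) :
    Lim Φ U (fun i => x i + y i) (a + b) := fun e => by
  simpa using (h e).add (h' e)

lemma Lim.sub {x y : Finset E → X} {a b : X} (h : Lim Φ U x a) (h' : Lim Φ U y b) :
    Lim Φ U (fun i => x i - y i) (a - b) := fun e => by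
  simpa using (h e).sub (h' e)

lemma Lim.smul {x : Finset E → X} {a : X} (r : ℝ) (h : Lim Φ U x a) :
    Lim Φ U (fun i => r • x i) (r • a) := fun e => by
  simpa using (h e).const_mul r

lemma Lim.const (a : X) : Lim Φ U (fun _ => a) a := fun _ => tendsto_const_nhds

lemma Lim.congr {x y : Finset E → X} {a : X} (h : Lim Φ U x a) (hxy : ∀ i, x i = y i) :
    Lim Φ U y a := by
  have : x = y := funext hxy
  exact this ▸ h

lemma Lim.norm_le {x : Finset E → X} {a : X} {M : ℝ} (h : Lim Φ U x a) (hM : ∀ i, ‖x i‖ ≤ M) :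
    ‖a‖ ≤ M := by
  have hM0 : 0 ≤ M := (norm_nonneg _).trans (hM ∅)
  rw [← Φ.norm_map]
  refine ContinuousLinearMap.opNorm_le_bound _ hM0 fun e => ?_
  refine le_of_tendsto' (h e).norm fun i => ?_
  refine ((Φ (x i)).le_opNorm e).trans ?_
  rw [Φ.norm_map]
  exact mul_le_mul_of_nonneg_right (hM i) (norm_nonneg _)

variable (Φ U) in
lemma lim_exists (x : Finset E → X) (M : ℝ) (hM : ∀ i, ‖x i‖ ≤ M) : ∃ a, Lim Φ U x a := by
  have hc := WeakDual.isCompact_closedBall (0 : StrongDual ℝ E) M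
  obtain ⟨g, -, hg⟩ := isCompact_iff_ultrafilter_le_nhds'.1 hc
    (U.map fun i => StrongDual.toWeakDual (Φ (x i))) (by
      rw [Ultrafilter.mem_map]
      refine Filter.univ_mem' fun i => ?_
      simpa using hM i)
  refine ⟨Φ.symm (WeakDual.toStrongDual g), fun e => ?_⟩
  have := ((WeakDual.eval_continuous e).tendsto g).comp (show Tendsto _ (U : Filter (Finset E)) _ from hg)
  rw [Φ.apply_symm_apply]
  exact this

lemma Lim.orth {x : Finset E → X} {a w : X} {M : ℝ} (h : Lim Φ U x a)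
    (h1 : ∀ t : ℝ, 0 < t → ∀ i, ‖x i + t • w‖ ^ 2 ≤ M ^ 2 + t ^ 2 * ‖w‖ ^ 2)
    (h2 : ∀ t : ℝ, 0 < t → (1 + t) * ‖w‖ ≤ ‖a + t • w‖) : w = 0 := by
  by_contra hw
  have hpos : 0 < ‖w‖ := norm_pos_iff.2 hw
  set t := M ^ 2 / ‖w‖ ^ 2 + 1 with ht
  have ht0 : 0 < t := by positivity
  have h3 := (h.add (Lim.const (t • w))).norm_le (M := Real.sqrt (M ^ 2 + t ^ 2 * ‖w‖ ^ 2))
    fun i => Real.le_sqrt_of_sq_le (h1 t ht0 i)
  have h4 := (h2 t ht0).trans h3
  have h5 := (Real.le_sqrt (by positivity) (by positivity)).1 h4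
  have h6 : t * ‖w‖ ^ 2 = M ^ 2 + ‖w‖ ^ 2 := by rw [ht]; field_simp
  nlinarith [sq_nonneg M, pow_pos hpos 2]

variable (Φ) in
def WC (T : X →L[ℝ] X) : Prop :=
  ∀ (U : Ultrafilter (Finset E)) (x : Finset E → X) (M : ℝ) (a : X), (∀ i, ‖x i‖ ≤ M) →
    Lim Φ U x a → Lim Φ U (fun i => T (x i)) (T a)

lemma WC.comp {T S : X →L[ℝ] X} (hT : WC Φ T) (hS : WC Φ S) : WC Φ (T.comp S) :=
  fun U x M a hM h => hT U (fun i => S (x i)) (‖S‖ * M) (S a)
    (fun i => (S.le_opNorm _).trans (mul_le_mul_of_nonneg_left (hM i) (norm_nonneg _)))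
    (hS U x M a hM h)

lemma WC.sub {T S : X →L[ℝ] X} (hT : WC Φ T) (hS : WC Φ S) : WC Φ (T - S) :=
  fun U x M a hM h => (hT U x M a hM h).sub (hS U x M a hM h)

lemma wc_refl (R : X →L[ℝ] X) (hRR : ∀ x, R (R x) = x) (hn : ∀ x, ‖R x‖ ≤ ‖x‖)
    (ho : ∀ u v, R u = u → R v = -v → ‖u + v‖ ^ 2 ≤ ‖u‖ ^ 2 + ‖v‖ ^ 2) : WC Φ R := by
  intro U x M a hM h
  have b1 : ∀ z, ‖(1 / 2 : ℝ) • (z + R z)‖ ≤ ‖z‖ := fun z => by
    rw [norm_smul, Real.norm_eq_abs, abs_of_pos (by norm_num)]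
    linarith [norm_add_le z (R z), hn z]
  have b2 : ∀ z, ‖(1 / 2 : ℝ) • (z - R z)‖ ≤ ‖z‖ := fun z => by
    rw [norm_smul, Real.norm_eq_abs, abs_of_pos (by norm_num)]
    linarith [norm_sub_le z (R z), hn z]
  have c1 : ∀ z, R ((1 / 2 : ℝ) • (z + R z)) = (1 / 2 : ℝ) • (z + R z) := fun z => by
    rw [map_smul, map_add, hRR, add_comm]
  have c2 : ∀ z, R ((1 / 2 : ℝ) • (z - R z)) = -((1 / 2 : ℝ) • (z - R z)) := fun z => by
    rw [map_smul, map_sub, hRR, ← smul_neg, neg_sub]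
  obtain ⟨u, hu⟩ := lim_exists Φ U (fun i => (1 / 2 : ℝ) • (x i + R (x i))) M
    fun i => (b1 _).trans (hM i)
  obtain ⟨v, hv⟩ := lim_exists Φ U (fun i => (1 / 2 : ℝ) • (x i - R (x i))) M
    fun i => (b2 _).trans (hM i)
  have huv : u + v = a := ((hu.add hv).congr fun i => by module).unique h
  have hu' : (1 / 2 : ℝ) • (u - R u) = 0 := by
    refine hu.orth (M := M) (fun t ht i => ?_) fun t ht => ?_
    · refine (ho _ _ (c1 _) (by rw [map_smul, c2, smul_neg])).trans ?_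
      rw [norm_smul t, mul_pow, Real.norm_eq_abs, sq_abs]
      have := pow_le_pow_left₀ (norm_nonneg _) ((b1 _).trans (hM i)) 2
      linarith
    · refine le_trans (le_of_eq ?_) (b2 _)
      rw [map_add, map_smul, c2]
      have : (1 / 2 : ℝ) • (u + t • (1 / 2 : ℝ) • (u - R u) - (R u + t • -((1 / 2 : ℝ) • (u - R u)))) =
          (1 + t) • ((1 / 2 : ℝ) • (u - R u)) := by module
      rw [this, norm_smul (1 + t), Real.norm_eq_abs, abs_of_pos (by linarith)]
  have hv' : (1 / 2 : ℝ) • (v + R v) = 0 := by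
    refine hv.orth (M := M) (fun t ht i => ?_) fun t ht => ?_
    · rw [add_comm]
      refine (ho _ _ (by rw [map_smul, c1]) (c2 _)).trans ?_
      rw [norm_smul t, mul_pow, Real.norm_eq_abs, sq_abs]
      have := pow_le_pow_left₀ (norm_nonneg _) ((b2 _).trans (hM i)) 2
      linarith
    · refine le_trans (le_of_eq ?_) (b1 _)
      rw [map_add, map_smul, c1]
      have : (1 / 2 : ℝ) • (v + t • (1 / 2 : ℝ) • (v + R v) + (R v + t • ((1 / 2 : ℝ) • (v + R v)))) =
          (1 + t) • ((1 / 2 : ℝ) • (v + R v)) := by module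
      rw [this, norm_smul (1 + t), Real.norm_eq_abs, abs_of_pos (by linarith)]
  have e1 : R u = u := by
    have := (smul_eq_zero.1 hu').resolve_left (by norm_num)
    exact (sub_eq_zero.1 this).symm
  have e2 : R v = -v := by
    have := (smul_eq_zero.1 hv').resolve_left (by norm_num)
    exact eq_neg_of_add_eq_zero_right this
  have e3 : R a = u - v := by rw [← huv, map_add, e1, e2, sub_eq_add_neg]
  rw [e3]
  exact (hu.sub hv).congr fun i => by module

lemma approx [CompleteSpace E] {Y : Type} [NormedAddCommGroup Y] [NormedSpace ℝ Y]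
    (J : E →ₗᵢ[ℝ] (Y →L[ℝ] ℝ)) (ψ : Y →L[ℝ] ℝ)
    (hψ : ∀ ε : ℝ, 0 < ε → ∃ F : Finset E, ∀ f : Y, ‖f‖ ≤ 1 → (∀ e ∈ F, J e f = 0) → ‖ψ f‖ ≤ ε) :
    ∃ e : E, J e = ψ := by
  classical
  have hcl : IsClosed (Set.range J) := J.isometry.isClosedEmbedding.isClosed_range
  have hmem : ψ ∈ closure (Set.range J) := by
    rw [Metric.mem_closure_iff]
    intro ε hε
    obtain ⟨F, hF⟩ := hψ (ε / 2) (by positivity)
    let L : F → (Y →ₗ[ℝ] ℝ) := fun e => (J (e : E) : Y →L[ℝ] ℝ)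
    let p : Submodule ℝ Y := ⨅ e : F, LinearMap.ker (L e)
    obtain ⟨g, hg, hgn⟩ := exists_extension_norm_eq p (ψ.comp p.subtypeL)
    have hn : ‖ψ.comp p.subtypeL‖ ≤ ε / 2 := by
      refine ContinuousLinearMap.opNorm_le_of_unit_norm (by positivity) fun f hf => ?_
      refine hF f hf.le fun e he => ?_
      exact (Submodule.mem_iInf _).1 f.2 ⟨e, he⟩
    have hspan : ((ψ - g : Y →L[ℝ] ℝ) : Y →ₗ[ℝ] ℝ) ∈ Submodule.span ℝ (Set.range L) := by
      refine mem_span_of_iInf_ker_le_ker fun f hf => ?_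
      have := hg ⟨f, hf⟩
      simp only [LinearMap.mem_ker, ContinuousLinearMap.coe_coe, sub_apply]
      rw [this]
      simp
    obtain ⟨c, hc⟩ := (Submodule.mem_span_range_iff_exists_fun ℝ).1 hspan
    refine ⟨J (∑ e : F, c e • (e : E)), ⟨_, rfl⟩, ?_⟩
    have : J (∑ e : F, c e • (e : E)) = ψ - g := by
      ext f
      have := LinearMap.congr_fun hc f
      simp only [LinearMap.coe_sum, Finset.sum_apply, LinearMap.smul_apply,
        ContinuousLinearMap.coe_coe, L] at this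
      rw [← this, map_sum]
      simp
    rw [this, dist_eq_norm, sub_sub_cancel, hgn]
    linarith
  rw [hcl.closure_eq] at hmem
  exact hmem

lemma mem_predual [CompleteSpace E] (ψ : (E →L[ℝ] ℝ) →L[ℝ] ℝ)
    (hψ : ∀ (U : Ultrafilter (Finset E)) (f : Finset E → (E →L[ℝ] ℝ)), (∀ i, ‖f i‖ ≤ 1) →
      (∀ e, Tendsto (fun i => f i e) U (𝓝 0)) → Tendsto (fun i => ψ (f i)) U (𝓝 0)) :
    ∃ e : E, ∀ f, ψ f = f e := by
  classical
  obtain ⟨e, he⟩ := approx (NormedSpace.inclusionInDoubleDualLi (E := E) ℝ) ψ fun ε hε => by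
    by_contra hc
    push Not at hc
    choose f f1 f2 f3 using hc
    let U : Ultrafilter (Finset E) := Ultrafilter.of atTop
    have hU : (U : Filter (Finset E)) ≤ atTop := Ultrafilter.of_le _
    have := hψ U f f1 fun e => by
      refine tendsto_const_nhds.congr' ?_
      filter_upwards [hU (eventually_ge_atTop {e})] with i hi
      exact (f2 i e (hi (Finset.mem_singleton_self e))).symm
    have h2 := this.norm.eventually_lt_const (show ‖(0 : ℝ)‖ < ε by simpa using hε)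
    obtain ⟨i, hi⟩ := h2.exists
    exact absurd (f3 i) (not_lt.2 hi.le)
  exact ⟨e, fun f => by rw [← he]; rfl⟩

lemma index_zero_predual [CompleteSpace E] (T : X →L[ℝ] X) (hW : WC Φ T) (hT : T ≠ 0) (c : ℝ)
    (hc : 0 ≤ c) (h : ∀ (t : ℝ) (x : X), ‖x + t • T x‖ ≤ (1 + c * t ^ 2) * ‖x‖) :
    numIndex ℝ E = 0 := by
  have h1 : ∀ e : E, ∃ e' : E, ∀ f : E →L[ℝ] ℝ, Φ (T (Φ.symm f)) e = f e' := by
    intro e
    refine mem_predual ((ContinuousLinearMap.apply ℝ ℝ e).comp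
      ((Φ : X →L[ℝ] (E →L[ℝ] ℝ)).comp (T.comp (Φ.symm : (E →L[ℝ] ℝ) →L[ℝ] X)))) fun U f f1 f2 => ?_
    have := hW U (fun i => Φ.symm (f i)) 1 0 (fun i => by simpa using f1 i)
      (fun e => by simpa using f2 e) e
    simpa using this
  choose s hs using h1
  have ext : ∀ u v : E, (∀ f : E →L[ℝ] ℝ, f u = f v) → u = v := fun u v huv =>
    (SeparatingDual.eq_iff_forall_dual_eq (R := ℝ)).2 huv
  have bd : ∀ (t r K : ℝ), 0 ≤ K → (∀ x, ‖r • x + t • T x‖ ≤ K * ‖x‖) → ∀ e,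
      ‖r • e + t • s e‖ ≤ K * ‖e‖ := by
    intro t r K hK hb e
    refine NormedSpace.norm_le_dual_bound ℝ _ (by positivity) fun f => ?_
    have e1 : f (r • e + t • s e) = Φ (r • Φ.symm f + t • T (Φ.symm f)) e := by
      simp [hs]
    rw [e1]
    refine (ContinuousLinearMap.le_opNorm _ _).trans ?_
    rw [Φ.norm_map]
    have := hb (Φ.symm f)
    rw [Φ.symm.norm_map] at this
    nlinarith [norm_nonneg e]
  let S : E →L[ℝ] E := LinearMap.mkContinuous
    { toFun := s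
      map_add' := fun u v => ext _ _ fun f => by simp [← hs]
      map_smul' := fun r u => ext _ _ fun f => by simp [← hs] } ‖T‖ fun e => by
        simpa using bd 1 0 ‖T‖ (norm_nonneg _) (fun x => by simpa using T.le_opNorm x) e
  refine index_zero S (fun h0 => hT ?_) c fun t e => ?_
  · ext x
    apply Φ.injective
    ext e
    have h2 := hs e (Φ x)
    have h3 : s e = 0 := by
      have := DFunLike.congr_fun h0 e
      exact this
    simpa [h3] using h2
  · have := bd t 1 (1 + c * t ^ 2) (by positivity) (fun x => by simpa using h t x) e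
    rw [one_smul] at this
    exact this

end Pool.Agent.Lib.helper31.WeakLim
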