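import Mathlib

open Set Filter Topology Real
open scoped NNReal

namespace Pool.Agent.Lib.helper31.Yom

abbrev E := EuclideanSpace ℝ (Fin 2)

lemma global_flow {F : Type*} [NormedAddCommGroup F] [NormedSpace ℝ F] [CompleteSpace F]
    (v : F → F) (K L : ℝ≥0) (hK : LipschitzWith K v) (hL : ∀ x, ‖v x‖ ≤ L) (x : F) :
    ∃ α : ℝ → F, α 0 = x ∧ ∀ t, HasDerivAt α (v (α t)) t := by
  have loc : ∀ n : ℕ, ∃ α : ℝ → F, α 0 = x ∧
      ∀ t ∈ Ioo (-((n:ℝ)+1)) ((n:ℝ)+1), HasDerivAt α (v (α t)) t := by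
    intro n
    have h0 : (0:ℝ) ∈ Icc (-((n:ℝ)+1)) ((n:ℝ)+1) := by
      constructor <;> linarith [(Nat.cast_nonneg n : (0:ℝ) ≤ n)]
    have hp : IsPicardLindelof (fun _ : ℝ => v) (⟨0, h0⟩ : Icc (-((n:ℝ)+1)) ((n:ℝ)+1)) x
        (L * ((n:ℝ≥0)+1)) 0 L K :=
      ⟨fun _ _ => hK.lipschitzOnWith, fun _ _ => continuousOn_const, fun _ _ y _ => hL y, by simp⟩
    obtain ⟨α, h1, h2⟩ := hp.exists_eq_forall_mem_Icc_hasDerivWithinAt₀
    exact ⟨α, h1, fun t ht => (h2 t (Ioo_subset_Icc_self ht)).hasDerivAt (Icc_mem_nhds ht.1 ht.2)⟩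
  choose α h0 hα using loc
  have agree : ∀ m n : ℕ, m ≤ n → EqOn (α m) (α n) (Ioo (-((m:ℝ)+1)) ((m:ℝ)+1)) := by
    intro m n hmn
    have hc : (m:ℝ) ≤ n := by exact_mod_cast hmn
    refine ODE_solution_unique_of_mem_Ioo (v := fun _ => v) (s := fun _ => univ) (K := K) (t₀ := 0)
      (fun _ _ => hK.lipschitzOnWith) ?_ (fun t ht => ⟨hα m t ht, trivial⟩)
      (fun t ht => ⟨hα n t ⟨by linarith [ht.1], by linarith [ht.2]⟩, trivial⟩) (by rw [h0, h0])
    constructor <;> linarith [(Nat.cast_nonneg m : (0:ℝ) ≤ m)]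
  have mem : ∀ t : ℝ, t ∈ Ioo (-((⌈|t|⌉₊:ℝ)+1)) ((⌈|t|⌉₊:ℝ)+1) := fun t => by
    have := Nat.le_ceil |t|
    constructor <;> linarith [neg_abs_le t, le_abs_self t]
  refine ⟨fun t => α ⌈|t|⌉₊ t, h0 _, fun t => ?_⟩
  set N := ⌈|t|⌉₊ + 1 with hN
  have ev : (fun s => α ⌈|s|⌉₊ s) =ᶠ[𝓝 t] α N := by
    filter_upwards [Ioo_mem_nhds (show t - 1 < t by linarith) (show t < t + 1 by linarith)] with s hs
    refine agree _ _ ?_ (mem s)
    rw [hN, Nat.ceil_le]
    have := Nat.le_ceil |t|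
    push_cast
    rw [abs_le]
    constructor <;> linarith [neg_abs_le t, le_abs_self t, hs.1, hs.2]
  have e : α ⌈|t|⌉₊ t = α N t := ev.eq_of_nhds
  have ht : t ∈ Ioo (-((N:ℝ)+1)) ((N:ℝ)+1) := by
    have := mem t
    rw [hN]; push_cast
    constructor <;> linarith [this.1, this.2]
  have := (hα N t ht).congr_of_eventuallyEq ev
  rw [← e] at this
  exact this

noncomputable def U (x : E) : E := !₂[sin (x 0) * cos (x 1), -(cos (x 0) * sin (x 1))]
noncomputable def P (x : E) : ℝ := (cos (x 0) ^ 2 + cos (x 1) ^ 2) / 2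

@[simp] lemma U0 (x : E) : U x 0 = sin (x 0) * cos (x 1) := rfl
@[simp] lemma U1 (x : E) : U x 1 = -(cos (x 0) * sin (x 1)) := rfl

lemma prod_lip (f g : ℝ → ℝ) (hf : ∀ a b, |f a - f b| ≤ |a - b|) (hg : ∀ a b, |g a - g b| ≤ |a - b|)
    (f1 : ∀ a, |f a| ≤ 1) (g1 : ∀ a, |g a| ≤ 1) (a b c d : ℝ) :
    (f a * g b - f c * g d)^2 ≤ 2 * ((a - c)^2 + (b - d)^2) := by
  have e : f a * g b - f c * g d = (f a - f c) * g b + f c * (g b - g d) := by ring
  have h1 : |(f a - f c) * g b| ≤ |a - c| := by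
    rw [abs_mul]; nlinarith [hf a c, g1 b, abs_nonneg (f a - f c), abs_nonneg (g b)]
  have h2 : |f c * (g b - g d)| ≤ |b - d| := by
    rw [abs_mul]; nlinarith [hg b d, f1 c, abs_nonneg (g b - g d), abs_nonneg (f c)]
  have h3 : |f a * g b - f c * g d| ≤ |a - c| + |b - d| := by
    rw [e]; linarith [abs_add_le ((f a - f c) * g b) (f c * (g b - g d))]
  have h4 := mul_self_le_mul_self (abs_nonneg _) h3
  rw [abs_mul_abs_self] at h4
  nlinarith [sq_abs (a - c), sq_abs (b - d), sq_nonneg (|a - c| - |b - d|)]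

lemma U_lip : LipschitzWith 2 U := by
  refine LipschitzWith.of_dist_le_mul fun x y => ?_
  have a := prod_lip sin cos abs_sin_sub_sin_le abs_cos_sub_cos_le abs_sin_le_one abs_cos_le_one
    (x 0) (x 1) (y 0) (y 1)
  have b := prod_lip cos sin abs_cos_sub_cos_le abs_sin_sub_sin_le abs_cos_le_one abs_sin_le_one
    (x 0) (x 1) (y 0) (y 1)
  refine (abs_le_of_sq_le_sq' ?_ (by positivity)).2
  rw [mul_pow, EuclideanSpace.dist_sq_eq, EuclideanSpace.dist_sq_eq]
  simp only [Fin.sum_univ_two, U0, U1, Real.dist_eq, sq_abs]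
  push_cast
  nlinarith

lemma U_bd (x : E) : ‖U x‖ ≤ 2 := by
  refine (abs_le_of_sq_le_sq' ?_ (by positivity)).2
  rw [EuclideanSpace.norm_sq_eq]
  simp only [Fin.sum_univ_two, U0, U1, Real.norm_eq_abs, sq_abs]
  nlinarith [sin_sq_le_one (x 0), cos_sq_le_one (x 0), sin_sq_le_one (x 1), cos_sq_le_one (x 1),
    sq_nonneg (sin (x 0)), sq_nonneg (cos (x 0)), sq_nonneg (sin (x 1)), sq_nonneg (cos (x 1))]

lemma U_smooth : ContDiff ℝ ⊤ U := by
  rw [contDiff_euclidean]
  intro i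
  fin_cases i
  · show ContDiff ℝ ⊤ (fun x : E => sin (x 0) * cos (x 1)); fun_prop
  · show ContDiff ℝ ⊤ (fun x : E => -(cos (x 0) * sin (x 1))); fun_prop

lemma P_smooth : ContDiff ℝ ⊤ P := by unfold P; fun_prop

lemma pd_prod (f g f' g' : ℝ → ℝ) (hf : ∀ a, HasDerivAt f (f' a) a) (hg : ∀ a, HasDerivAt g (g' a) a)
    (x v : E) : fderiv ℝ (fun z : E => f (z 0) * g (z 1)) x v
      = f' (x 0) * g (x 1) * v 0 + f (x 0) * g' (x 1) * v 1 := by
  have c : ∀ i : Fin 2, HasFDerivAt (fun z : E => z i) (EuclideanSpace.proj (𝕜 := ℝ) i) x :=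
    fun i => (EuclideanSpace.proj (𝕜 := ℝ) i).hasFDerivAt
  have h := ((hf (x 0)).comp_hasFDerivAt x (c 0)).mul ((hg (x 1)).comp_hasFDerivAt x (c 1))
  have h' : fderiv ℝ (fun z : E => f (z 0) * g (z 1)) x = _ := h.fderiv
  rw [h']; simp; ring

lemma pd_P (x v : E) : fderiv ℝ P x v
    = -(sin (x 0) * cos (x 0)) * v 0 - (sin (x 1) * cos (x 1)) * v 1 := by
  have c : ∀ i : Fin 2, HasFDerivAt (fun z : E => z i) (EuclideanSpace.proj (𝕜 := ℝ) i) x :=
    fun i => (EuclideanSpace.proj (𝕜 := ℝ) i).hasFDerivAt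
  have d : ∀ a : ℝ, HasDerivAt (fun a => cos a ^ 2 / 2) (-(sin a * cos a)) a := fun a =>
    (((hasDerivAt_cos a).pow 2).div_const 2).congr_deriv (by simp; ring)
  have h := ((d (x 0)).comp_hasFDerivAt x (c 0)).add ((d (x 1)).comp_hasFDerivAt x (c 1))
  have e : P = fun z : E => cos (z 0) ^ 2 / 2 + cos (z 1) ^ 2 / 2 := by
    ext z; unfold P; ring
  have h' : fderiv ℝ (fun z : E => cos (z 0) ^ 2 / 2 + cos (z 1) ^ 2 / 2) x = _ := h.fderiv
  rw [e, h']; simp; ring

lemma xsin (x : ℝ) : x^2 * (1 - x^2/6) ≤ x * sin x := by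
  rcases lt_trichotomy x 0 with h | h | h
  · have := sin_gt_sub_cube (x := -x) (by linarith)
    rw [sin_neg] at this
    nlinarith
  · simp [h]
  · have := sin_gt_sub_cube h
    nlinarith

lemma est (x y : ℝ → ℝ) (hx : ∀ t, HasDerivAt x (sin (x t) * cos (y t)) t)
    (hy : ∀ t, HasDerivAt y (-(cos (x t) * sin (y t))) t) :
    (∀ t, 0 ≤ t → x t ^ 2 ≤ x 0 ^ 2 * exp (2 * t)) ∧
    ∀ T η : ℝ, 0 ≤ T → η ≤ 1 → x 0 ^ 2 * exp (2 * T) ≤ η → y 0 ^ 2 ≤ η →
      x 0 ^ 2 * exp (2 * (1 - η) * T) ≤ x T ^ 2 := by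
  have dd : ∀ k t : ℝ, HasDerivAt (fun t => x t ^ 2 * exp (-(2 * k) * t))
      (2 * (x t * sin (x t) * cos (y t) - k * x t ^ 2) * exp (-(2 * k) * t)) t := fun k t =>
    (((hx t).pow 2).mul (((hasDerivAt_id t).const_mul (-(2 * k))).exp)).congr_deriv
      (by simp; ring)
  have A : ∀ t, 0 ≤ t → x t ^ 2 ≤ x 0 ^ 2 * exp (2 * t) := by
    intro t ht
    have an : Antitone (fun t => x t ^ 2 * exp (-(2 * 1) * t)) := by
      refine antitone_of_deriv_nonpos (fun t => (dd 1 t).differentiableAt) fun t => ?_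
      rw [(dd 1 t).deriv]
      refine mul_nonpos_of_nonpos_of_nonneg ?_ (exp_pos _).le
      have h1 : |x t * sin (x t) * cos (y t)| ≤ x t ^ 2 := by
        rw [abs_mul, abs_mul, ← sq_abs]
        have := abs_sin_le_abs (x := x t)
        have := abs_cos_le_one (y t)
        have := mul_nonneg (abs_nonneg (x t)) (abs_nonneg (sin (x t)))
        nlinarith [abs_nonneg (x t)]
      linarith [le_abs_self (x t * sin (x t) * cos (y t))]
    have := an ht
    simp only [mul_zero, exp_zero, mul_one] at this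
    have e : exp (-2 * t) * exp (2 * t) = 1 := by rw [← exp_add]; simp
    calc x t ^ 2 = x t ^ 2 * exp (-2 * t) * exp (2 * t) := by rw [mul_assoc, e, mul_one]
      _ ≤ _ := by gcongr
  refine ⟨A, fun T η hT hη h1 h2 => ?_⟩
  have B : ∀ t ∈ Icc 0 T, x t ^ 2 ≤ η := fun t ht => by
    refine (A t ht.1).trans (le_trans ?_ h1)
    gcongr; exact ht.2
  have dc : ∀ t, HasDerivAt (fun t => cos (y t)) (sin (y t) ^ 2 * cos (x t)) t := fun t =>
    (hy t).cos.congr_deriv (by ring)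
  have C : MonotoneOn (fun t => cos (y t)) (Icc 0 T) := by
    refine monotoneOn_of_deriv_nonneg (convex_Icc _ _)
      (fun t _ => (dc t).continuousAt.continuousWithinAt)
      (fun t _ => (dc t).differentiableAt.differentiableWithinAt) fun t ht => ?_
    rw [(dc t).deriv]
    have := B t (interior_subset ht)
    have := one_sub_sq_div_two_le_cos (x := x t)
    exact mul_nonneg (sq_nonneg _) (by linarith)
  have C' : ∀ t ∈ Icc 0 T, 1 - η / 2 ≤ cos (y t) := fun t ht => by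
    have := C (left_mem_Icc.2 hT) ht ht.1
    have := one_sub_sq_div_two_le_cos (x := y 0)
    simp only at *
    linarith
  have D : MonotoneOn (fun t => x t ^ 2 * exp (-(2 * (1 - η)) * t)) (Icc 0 T) := by
    refine monotoneOn_of_deriv_nonneg (convex_Icc _ _)
      (fun t _ => (dd _ t).continuousAt.continuousWithinAt)
      (fun t _ => (dd _ t).differentiableAt.differentiableWithinAt) fun t ht => ?_
    rw [(dd _ t).deriv]
    refine mul_nonneg ?_ (exp_pos _).le
    have b := B t (interior_subset ht)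
    have c := C' t (interior_subset ht)
    have s := xsin (x t)
    have q := sq_nonneg (x t)
    have s2 : x t ^ 2 * (1 - η / 6) ≤ x t * sin (x t) := by nlinarith
    have s3 : x t ^ 2 * (1 - η / 6) * (1 - η / 2) ≤ x t * sin (x t) * cos (y t) :=
      mul_le_mul s2 c (by linarith) (le_trans (mul_nonneg q (by linarith)) s2)
    have hη0 : 0 ≤ η := le_trans q b
    nlinarith [mul_nonneg q hη0, mul_nonneg (mul_nonneg q hη0) hη0]
  have := D (left_mem_Icc.2 hT) (right_mem_Icc.2 hT) hT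
  simp only [mul_zero, exp_zero, mul_one] at this
  have e : exp (-(2 * (1 - η)) * T) * exp (2 * (1 - η) * T) = 1 := by rw [← exp_add]; simp
  calc _ ≤ x T ^ 2 * exp (-(2 * (1 - η)) * T) * exp (2 * (1 - η) * T) := by gcongr
    _ = _ := by rw [mul_assoc, e, mul_one]

noncomputable def osc (m : ℕ) (a b s : ℝ) : ℝ := s ^ m * (a * sin (2 * π / s) + b * cos (2 * π / s))

lemma osc_bd (m : ℕ) (a b s : ℝ) : |osc m a b s| ≤ |s| ^ m * (|a| + |b|) := by
  unfold osc
  rw [abs_mul, abs_pow]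
  gcongr
  have h1 : |a * sin (2 * π / s)| ≤ |a| := by
    rw [abs_mul]; exact mul_le_of_le_one_right (abs_nonneg _) (abs_sin_le_one _)
  have h2 : |b * cos (2 * π / s)| ≤ |b| := by
    rw [abs_mul]; exact mul_le_of_le_one_right (abs_nonneg _) (abs_cos_le_one _)
  linarith [abs_add_le (a * sin (2 * π / s)) (b * cos (2 * π / s))]

lemma osc_cont (m : ℕ) (a b : ℝ) : Continuous (osc (m + 1) a b) := by
  rw [continuous_iff_continuousAt]
  intro s
  by_cases hs : s = 0
  · subst hs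
    have e : osc (m + 1) a b 0 = 0 := by simp [osc]
    rw [ContinuousAt, e]
    refine squeeze_zero_norm (osc_bd (m + 1) a b) ?_
    have : Continuous (fun s : ℝ => |s| ^ (m + 1) * (|a| + |b|)) := by fun_prop
    simpa using this.tendsto 0
  · unfold osc
    fun_prop (disch := exact hs)

lemma osc_deriv (m : ℕ) (a b s : ℝ) : HasDerivAt (osc (m + 3) a b)
    (((m:ℝ) + 3) * osc (m + 2) a b s + osc (m + 1) (2 * π * b) (-(2 * π * a)) s) s := by
  by_cases hs : s = 0
  · subst hs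
    have e : ((m:ℝ) + 3) * osc (m + 2) a b 0 + osc (m + 1) (2 * π * b) (-(2 * π * a)) 0 = 0 := by
      simp [osc]
    rw [e, hasDerivAt_iff_tendsto_slope]
    have c := (osc_cont (m + 1) a b).tendsto 0
    have e2 : osc (m + 1 + 1) a b 0 = 0 := by simp [osc]
    rw [e2] at c
    refine (c.mono_left nhdsWithin_le_nhds).congr' ?_
    filter_upwards [self_mem_nhdsWithin] with s hs
    have hs' : s ≠ 0 := hs
    rw [slope_def_field]
    simp only [osc]
    field_simp
    simp; ring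
  · have d : HasDerivAt (fun s : ℝ => 2 * π / s) (-(2 * π) / s ^ 2) s :=
      ((hasDerivAt_const s (2 * π)).div (hasDerivAt_id s) hs).congr_deriv (by simp)
    have := (hasDerivAt_pow (m + 3) s).mul ((d.sin.const_mul a).add (d.cos.const_mul b))
    refine this.congr_deriv ?_
    simp only [osc, Pi.add_apply]
    have e3 : m + 3 - 1 = m + 2 := rfl
    rw [e3]
    push_cast
    field_simp
    ring

lemma osc_smooth (k : ℕ) : ∀ (m : ℕ) (a b : ℝ), ContDiff ℝ k (osc (2 * k + 1 + m) a b) := by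
  induction k with
  | zero =>
    intro m a b
    have : 2 * 0 + 1 + m = m + 1 := by ring
    rw [this]
    exact contDiff_zero.2 (osc_cont m a b)
  | succ k ih =>
    intro m a b
    have e : 2 * (k + 1) + 1 + m = (2 * k + m) + 3 := by ring
    rw [e]
    push_cast
    rw [contDiff_succ_iff_deriv]
    refine ⟨fun s => (osc_deriv _ a b s).differentiableAt, by simp, ?_⟩
    have e2 : deriv (osc (2 * k + m + 3) a b) = fun s => (((2 * k + m : ℕ):ℝ) + 3) * osc (2 * k + m + 2) a b s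
        + osc (2 * k + m + 1) (2 * π * b) (-(2 * π * a)) s := by
      ext s; exact (osc_deriv _ a b s).deriv
    rw [e2]
    have i1 := ih (m + 1) a b
    have i2 := ih m (2 * π * b) (-(2 * π * a))
    rw [show 2 * k + 1 + (m + 1) = 2 * k + m + 2 by ring] at i1
    rw [show 2 * k + 1 + m = 2 * k + m + 1 by ring] at i2
    exact (contDiff_const.mul i1).add i2

noncomputable def g (r : ℕ) (s : ℝ) : ℝ := (s ^ r - osc r 0 1 s) / 2

lemma g_smooth (k : ℕ) : ContDiff ℝ k (g (2 * k + 1)) := by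
  have := osc_smooth k 0 0 1
  unfold g
  exact ((contDiff_id.pow _).sub this).div_const 2

lemma g_val (r q : ℕ) (hq : 0 < q) : g r (2 / q) = if Even q then 0 else (2 / (q:ℝ)) ^ r := by
  have hq' : (q:ℝ) ≠ 0 := by positivity
  have e : 2 * π / (2 / q) = q * π := by field_simp
  unfold g osc
  rw [e, cos_nat_mul_pi]
  split_ifs with h
  · rw [h.neg_one_pow]; ring
  · rw [(Nat.not_even_iff_odd.1 h).neg_one_pow]; ring

noncomputable def l (r : ℕ) (s : ℝ) : E := !₂[g r s, s]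

@[simp] lemma l0 (r : ℕ) (s : ℝ) : l r s 0 = g r s := rfl
@[simp] lemma l1 (r : ℕ) (s : ℝ) : l r s 1 = s := rfl

lemma l_smooth (k : ℕ) : ContDiff ℝ k (l (2 * k + 1)) := by
  rw [contDiff_euclidean]
  intro i
  fin_cases i
  · exact g_smooth k
  · exact contDiff_id

lemma coord (α : ℝ → E) (h : ∀ t, HasDerivAt α (U (α t)) t) (i : Fin 2) (t : ℝ) :
    HasDerivAt (fun t => α t i) (U (α t) i) t :=
  (EuclideanSpace.proj (𝕜 := ℝ) i).hasFDerivAt.comp_hasDerivAt t (h t)

lemma growth (Φ : ℝ → E → E) (h0 : ∀ x, Φ 0 x = x)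
    (hΦ : ∀ x t, HasDerivAt (fun s => Φ s x) (U (Φ t x)) t) (n : ℕ) (t : ℝ) (ht : 0 ≤ t) :
    ENNReal.ofReal (1 / (2 * (2 * ((n:ℝ) + 1) + 1)) ^ n * exp (1 / (2 * ((n:ℝ) + 1)) * t))
      ≤ eVariationOn (Φ t ∘ l (n + 1)) (Icc 0 1) := by
  set A : ℝ := 2 * ((n:ℝ) + 1) with hA
  have hn : (0:ℝ) ≤ n := Nat.cast_nonneg n
  have A2 : 2 ≤ A := by linarith
  set w := exp (1 / A * t) with hw
  have w1 : 1 ≤ w := one_le_exp (by positivity)
  have wp : ∀ j : ℕ, w ^ j = exp (j * (1 / A * t)) := fun j => by rw [exp_nat_mul]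
  set M := ⌈A * w ^ 2⌉₊ with hM
  have w2 : 1 ≤ w ^ 2 := one_le_pow₀ w1
  have M1 : A * w ^ 2 ≤ M := Nat.le_ceil _
  have M2 : (M:ℝ) ≤ (A + 1) * w ^ 2 := by
    have := (Nat.ceil_lt_add_one (show 0 ≤ A * w ^ 2 by positivity)).le
    linarith
  have MA : A ≤ M := by nlinarith
  have Mp : (0:ℝ) < M := by linarith
  have Mp' : 0 < M := by exact_mod_cast Mp
  set δ : ℝ := w ^ (2 * n + 1) / (2 * M) ^ (n + 1) with hδ
  have pt : ∀ q : ℕ, 2 * M ≤ q → q ≤ 4 * M →
      (Even q → Φ t (l (n + 1) (2 / q)) 0 = 0) ∧ (¬ Even q → δ ≤ |Φ t (l (n + 1) (2 / q)) 0|) := by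
    intro q q1 q2
    have q1' : 2 * (M:ℝ) ≤ q := by exact_mod_cast q1
    have q2' : (q:ℝ) ≤ 4 * M := by exact_mod_cast q2
    have qp : (0:ℝ) < q := by linarith
    obtain ⟨a, b⟩ := est (fun s => Φ s (l (n + 1) (2 / q)) 0) (fun s => Φ s (l (n + 1) (2 / q)) 1)
      (coord _ (hΦ _) 0) (coord _ (hΦ _) 1)
    simp only [h0, l0, l1, g_val (n + 1) q (by omega)] at a b
    refine ⟨fun he => ?_, fun he => ?_⟩
    · have := a t ht
      simp only [he, if_true] at this
      have : Φ t (l (n + 1) (2 / q)) 0 ^ 2 ≤ 0 := by simpa using this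
      exact pow_eq_zero_iff (two_ne_zero) |>.1 (le_antisymm this (sq_nonneg _))
    · simp only [he, if_false] at b
      have s1 : 2 / (q:ℝ) ≤ 1 / M := by rw [div_le_div_iff₀ qp Mp]; linarith
      have s2 : 1 / (2 * (M:ℝ)) ≤ 2 / q := by rw [div_le_div_iff₀ (by positivity) qp]; linarith
      have s3 : 2 / (q:ℝ) * w ^ 2 ≤ 1 / A := by
        calc 2 / (q:ℝ) * w ^ 2 ≤ 1 / M * w ^ 2 := by gcongr
          _ ≤ 1 / A := by
            rw [div_mul_eq_mul_div, div_le_div_iff₀ Mp (by linarith)]; linarith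
      have iA : 1 / A ≤ 1 := by rw [div_le_one (by linarith)]; linarith
      have iA0 : 0 < 1 / A := by positivity
      have e1 : exp (2 * t) = (w ^ 2) ^ (2 * n + 2) := by
        rw [← pow_mul, wp]; congr 1; push_cast; rw [hA]; field_simp
      have e2 : exp (2 * (1 - 1 / A) * t) = (w ^ (2 * n + 1)) ^ 2 := by
        rw [← pow_mul, wp]; congr 1; push_cast; rw [hA]; field_simp; ring
      have c1 : ((2 / (q:ℝ)) ^ (n + 1)) ^ 2 * exp (2 * t) ≤ 1 / A := by
        rw [e1, ← pow_mul, show (n + 1) * 2 = 2 * n + 2 by ring, ← mul_pow]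
        calc _ ≤ (1 / A) ^ (2 * n + 2) := by gcongr
          _ ≤ (1 / A) ^ 1 := pow_le_pow_of_le_one iA0.le iA (by omega)
          _ = _ := pow_one _
      have c2 : (2 / (q:ℝ)) ^ 2 ≤ 1 / A := by
        have : 2 / (q:ℝ) ≤ 1 / A := le_trans (le_mul_of_one_le_right (by positivity) w2) s3
        calc _ ≤ (1 / A) ^ 2 := by gcongr
          _ ≤ (1 / A) ^ 1 := pow_le_pow_of_le_one iA0.le iA (by omega)
          _ = _ := pow_one _
      have := b t (1 / A) ht iA c1 c2
      rw [e2, ← mul_pow] at this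
      have := sq_le_sq.1 this
      refine le_trans ?_ ((le_abs_self _).trans this)
      rw [hδ, div_eq_mul_one_div, mul_comm, ← one_div_pow]
      gcongr
  let u : ℕ → ℝ := fun i => 2 / ((4 * M - min i (2 * M) : ℕ) : ℝ)
  have den : ∀ i, 2 * (M:ℝ) ≤ ((4 * M - min i (2 * M) : ℕ) : ℝ) := fun i => by
    have : 2 * M ≤ 4 * M - min i (2 * M) := by omega
    exact_mod_cast this
  have hu : Monotone u := fun i j hij => by
    have : 4 * M - min j (2 * M) ≤ 4 * M - min i (2 * M) := by omega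
    have := den j
    simp only [u]
    gcongr
    linarith
  have us : ∀ i, u i ∈ Icc (0:ℝ) 1 := fun i => by
    have := den i
    refine ⟨by positivity, ?_⟩
    simp only [u]
    rw [div_le_one (by linarith)]; linarith
  refine le_trans ?_ (eVariationOn.sum_le (n := 2 * M) hu us)
  have term : ∀ i ∈ Finset.range (2 * M), ENNReal.ofReal δ ≤
      edist ((Φ t ∘ l (n + 1)) (u (i + 1))) ((Φ t ∘ l (n + 1)) (u i)) := by
    intro i hi
    rw [Finset.mem_range] at hi
    rw [edist_dist]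
    refine ENNReal.ofReal_le_ofReal (le_trans ?_ (PiLp.dist_apply_le _ _ 0))
    obtain ⟨q, hq⟩ : ∃ q, q = 4 * M - (i + 1) := ⟨_, rfl⟩
    have a1 : 4 * M - min (i + 1) (2 * M) = q := by omega
    have a2 : 4 * M - min i (2 * M) = q + 1 := by omega
    simp only [u, a1, a2, Function.comp, Real.dist_eq]
    have p1 := pt q (by omega) (by omega)
    have p2 := pt (q + 1) (by omega) (by omega)
    by_cases he : Even q
    · rw [p1.1 he, zero_sub, abs_neg]; exact p2.2 (by simpa [Nat.even_add_one] using he)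
    · rw [p2.1 (Nat.even_add_one.2 he), sub_zero]; exact p1.2 he
  refine le_trans ?_ (Finset.card_nsmul_le_sum _ _ _ term)
  rw [Finset.card_range, ← ENNReal.ofReal_nsmul, nsmul_eq_mul]
  refine ENNReal.ofReal_le_ofReal ?_
  have e : ((2 * M : ℕ):ℝ) * δ = w ^ (2 * n + 1) / (2 * M) ^ n := by
    rw [hδ]; push_cast; rw [pow_succ (2 * (M:ℝ))]; field_simp
  rw [e, le_div_iff₀ (by positivity)]
  calc 1 / (2 * (A + 1)) ^ n * w * (2 * M) ^ n
      ≤ 1 / (2 * (A + 1)) ^ n * w * (2 * ((A + 1) * w ^ 2)) ^ n := by gcongr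
    _ = w ^ (2 * n + 1) := by
      rw [← mul_assoc 2, mul_pow (2 * (A + 1)), ← pow_mul]; field_simp; ring

lemma flow_lip (Φ : ℝ → E → E) (h0 : ∀ x, Φ 0 x = x)
    (hΦ : ∀ x t, HasDerivAt (fun s => Φ s x) (U (Φ t x)) t) (t : ℝ) (ht : 0 ≤ t) :
    LipschitzWith ⟨exp (2 * t), (exp_pos _).le⟩ (Φ t) := by
  refine LipschitzWith.of_dist_le_mul fun x y => ?_
  have := dist_le_of_trajectories_ODE (v := fun _ => U) (K := 2) (f := fun s => Φ s x)
    (g := fun s => Φ s y) (a := 0) (b := t) (δ := dist x y) (fun _ => U_lip)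
    (fun s _ => (hΦ x s).continuousAt.continuousWithinAt) (fun s _ => (hΦ x s).hasDerivWithinAt)
    (fun s _ => (hΦ y s).continuousAt.continuousWithinAt) (fun s _ => (hΦ y s).hasDerivWithinAt)
    (by simp [h0]) t (right_mem_Icc.2 ht)
  rw [sub_zero, mul_comm] at this
  exact this

end Pool.Agent.Lib.helper31.Yom
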